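import Pool.Agent.Lib.H38H.PR2

/-!
H38H, chunk PR5 (M): pairings whose projection contains given edges.
-/

set_option autoImplicit false

namespace Pool.Agent.H38H

open Classical

variable {V : Type}

/-- the lift of e given by two indices -/
noncomputable def PR5_f (e : Sym2 V) (c : Fin 3 × Fin 3) : Sym2 (V × Fin 3) :=
  s(((Quot.out e).1, c.1), ((Quot.out e).2, c.2))

theorem PR5_out (e : Sym2 V) : s((Quot.out e).1, (Quot.out e).2) = e := Quot.out_eq e

theorem PR5_map (e : Sym2 V) (c : Fin 3 × Fin 3) : (PR5_f e c).map Prod.fst = e := by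
  unfold PR5_f
  rw [Sym2.map_mk]
  exact PR5_out e

/-- the set of lifts -/
noncomputable def PR5_xi (H : Finset (Sym2 V)) (c : H → Fin 3 × Fin 3) : Finset (Sym2 (V × Fin 3)) :=
  H.attach.image fun e => PR5_f e.1 (c e)

theorem PR5_card (H : Finset (Sym2 V)) (c : H → Fin 3 × Fin 3) : (PR5_xi H c).card = H.card := by
  unfold PR5_xi
  rw [Finset.card_image_of_injective, Finset.card_attach]
  intro e e' h
  apply Subtype.ext
  have h1 := congrArg (Sym2.map Prod.fst) h
  simp only [PR5_map] at h1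
  exact h1

theorem PR5_lift (R : PM (V × Fin 3)) (e : Sym2 V) (p : V × Fin 3) (h : s(p.1, (R.1 p).1) = e) :
    ∃ c : Fin 3 × Fin 3, PR5_f e c = s(p, R.1 p) := by
  rw [← PR5_out e, Sym2.eq_iff] at h
  rcases h with ⟨h1, h2⟩ | ⟨h1, h2⟩
  · refine ⟨(p.2, (R.1 p).2), ?_⟩
    unfold PR5_f
    rw [← h1, ← h2]
  · refine ⟨((R.1 p).2, p.2), ?_⟩
    unfold PR5_f
    rw [← h1, ← h2]
    exact Sym2.eq_swap

theorem PR5_family (H : Finset (Sym2 V)) (R : PM (V × Fin 3))
    (h : ∀ e ∈ H, ∃ p : V × Fin 3, s(p.1, (R.1 p).1) = e) :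
    ∃ c : H → Fin 3 × Fin 3, Contains R (PR5_xi H c) := by
  have h1 : ∀ e : H, ∃ c : Fin 3 × Fin 3, ∃ p, PR5_f e.1 c = s(p, R.1 p) := by
    intro e
    obtain ⟨p, hp⟩ := h e.1 e.2
    obtain ⟨c, hc⟩ := PR5_lift R e.1 p hp
    exact ⟨c, p, hc⟩
  choose c p hp using h1
  refine ⟨c, ?_⟩
  intro q r hqr
  unfold PR5_xi at hqr
  rw [Finset.mem_image] at hqr
  obtain ⟨e, -, he⟩ := hqr
  rw [hp e, Sym2.eq_iff] at he
  rcases he with ⟨h2, h3⟩ | ⟨h2, h3⟩
  · rw [← h2, ← h3]
  · rw [← h3, ← h2]
    exact R.2.1 _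

/-- PROOF. A lift of e : Sym2 V is an element f of Sym2 (V × Fin 3) with f.map Prod.fst = e; e has at most 9 lifts (e = s(u,v), f = s((u,i),(v,j))). For R as in the statement
choose for every e ∈ H a point p_e with s(p_e.1, (R p_e).1) = e; f_e = s(p_e, R p_e) is a lift of e, and R contains ξ = {f_e : e ∈ H}, ξ.card = H.card (the lifts of different
pairs are different). By marks_of_contains ξ is a set of Marks. So the set of these R is contained in the union over all families of lifts (f_e)_(e in H) (at most 9 ^ H.card families,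
`Fintype.piFinset` or functions on the subtype of H) of {R // Contains R ξ}, and each of them has exactly (3 card V - 2 H.card - 1)!! elements, or is empty (card_contains', marks_of_contains). -/
theorem card_lift [Fintype V] (hV : Even (Fintype.card V)) (H : Finset (Sym2 V)) :
    Nat.card {R : PM (V × Fin 3) // ∀ e ∈ H, ∃ p : V × Fin 3, s(p.1, (R.1 p).1) = e} ≤
      9 ^ H.card * Nat.doubleFactorial (3 * Fintype.card V - 2 * H.card - 1) := by
  have h1 : ∀ R : {R : PM (V × Fin 3) // ∀ e ∈ H, ∃ p : V × Fin 3, s(p.1, (R.1 p).1) = e},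
      ∃ c : H → Fin 3 × Fin 3, Contains R.1 (PR5_xi H c) := fun R => PR5_family H R.1 R.2
  choose F hF using h1
  have h2 : Nat.card {R : PM (V × Fin 3) // ∀ e ∈ H, ∃ p : V × Fin 3, s(p.1, (R.1 p).1) = e} ≤
      Nat.card (Σ c : H → Fin 3 × Fin 3, {R : PM (V × Fin 3) // Contains R (PR5_xi H c)}) := by
    refine Nat.card_le_card_of_injective (fun R => ⟨F R, R.1, hF R⟩) ?_
    intro R R' h
    have h3 : (⟨F R, R.1, hF R⟩ : Σ c : H → Fin 3 × Fin 3,
        {R : PM (V × Fin 3) // Contains R (PR5_xi H c)}).2.1 =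
        (⟨F R', R'.1, hF R'⟩ : Σ c : H → Fin 3 × Fin 3,
        {R : PM (V × Fin 3) // Contains R (PR5_xi H c)}).2.1 := by
      simp only at h
      rw [h]
    exact Subtype.ext h3
  refine h2.trans ?_
  rw [Nat.card_sigma]
  have h3 : ∀ c ∈ (Finset.univ : Finset (H → Fin 3 × Fin 3)),
      Nat.card {R : PM (V × Fin 3) // Contains R (PR5_xi H c)} ≤
      Nat.doubleFactorial (3 * Fintype.card V - 2 * H.card - 1) := by
    intro c _
    by_cases he : IsEmpty {R : PM (V × Fin 3) // Contains R (PR5_xi H c)}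
    · rw [Nat.card_of_isEmpty]
      exact Nat.zero_le _
    · rw [not_isEmpty_iff] at he
      obtain ⟨R, hR⟩ := he
      have hc : Fintype.card (V × Fin 3) = 3 * Fintype.card V := by
        rw [Fintype.card_prod, Fintype.card_fin, mul_comm]
      have hev : Even (Fintype.card (V × Fin 3)) := by
        rw [hc]
        exact hV.mul_left 3
      rw [card_contains' hev (marks_of_contains hR), PR5_card, hc]
  refine (Finset.sum_le_card_nsmul _ _ _ h3).trans (le_of_eq ?_)
  rw [Finset.card_univ, Fintype.card_fun, Fintype.card_prod, Fintype.card_fin, Fintype.card_coe,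
    smul_eq_mul]

/-- PROOF. For such an R the pairs s(p_e, R p_e), e ∈ H, are H.card Marks (as in card_lift), so card_compl gives 2 H.card ≤ card (V × Fin 3). -/
theorem lift_size [Fintype V] (H : Finset (Sym2 V)) (R : PM (V × Fin 3))
    (h : ∀ e ∈ H, ∃ p : V × Fin 3, s(p.1, (R.1 p).1) = e) : 2 * H.card ≤ 3 * Fintype.card V := by
  obtain ⟨c, hc⟩ := PR5_family H R h
  have h1 := card_compl (marks_of_contains hc)
  rw [PR5_card, Fintype.card_prod, Fintype.card_fin] at h1
  omega

end Pool.Agent.H38H
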