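import Pool.Agent.Lib.H38H.Stm

/-!
H38H, chunk PR6 (M): double factorials and the numbers X N. Pure arithmetic.
-/

set_option autoImplicit false

namespace Pool.Agent.H38H

open Classical

theorem pr6_step (k : ℕ) : Nat.doubleFactorial (2 * (k + 1) - 1) = (2 * k + 1) * Nat.doubleFactorial (2 * k - 1) := by
  rcases k with _ | k
  · simp
  · have h1 : 2 * (k + 1 + 1) - 1 = (2 * (k + 1) - 1) + 2 := by omega
    rw [h1, Nat.doubleFactorial_add_two]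
    congr 1

theorem pr6_exp (k j : ℕ) (h : j ≤ k) : ((k + 1 : ℕ) : ℝ) ^ j ≤ 3 * (k : ℝ) ^ j := by
  rcases Nat.eq_zero_or_pos k with rfl | hk
  · obtain rfl : j = 0 := by omega
    norm_num
  · have hk0 : (0 : ℝ) < k := Nat.cast_pos.2 hk
    have h1 : (1 + 1 / (k : ℝ)) ≤ Real.exp (1 / k) := by
      have := Real.add_one_le_exp (1 / (k : ℝ))
      linarith
    have h0 : (1 : ℝ) ≤ 1 + 1 / k := by
      have : (0 : ℝ) < 1 / k := by positivity
      linarith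
    have h2 : (1 + 1 / (k : ℝ)) ^ j ≤ 3 := by
      calc (1 + 1 / (k : ℝ)) ^ j ≤ (1 + 1 / (k : ℝ)) ^ k := pow_le_pow_right₀ h0 h
        _ ≤ (Real.exp (1 / k)) ^ k := pow_le_pow_left₀ (by linarith) h1 k
        _ = Real.exp 1 := by
          rw [← Real.exp_nat_mul]
          congr 1
          field_simp
        _ ≤ 3 := by
          have := Real.exp_one_lt_d9
          linarith
    have h3 : ((k + 1 : ℕ) : ℝ) = (1 + 1 / (k : ℝ)) * k := by
      push_cast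
      field_simp
    rw [h3, mul_pow]
    exact mul_le_mul_of_nonneg_right h2 (by positivity)

/-- PROOF. Induction on j (for all k), j = 0 trivial; k = k' + 1, j = j' + 1, j' ≤ k': (2 k - 1)!! = (2 k - 1) (2 k' - 1)!!, 2 k - 1 ≥ k, induction
hypothesis k'^j' (2 (k' - j') - 1)!! ≤ 3^j' (2 k' - 1)!!, k - j = k' - j'. It remains that k^j' ≤ 3 k'^j', i.e. (1 + 1/k')^j' ≤ 3 for 1 ≤ k' (k' = 0: j' = 0): (1 + 1/k')^j' ≤
(1 + 1/k')^k' ≤ exp 1 < 3 (`Real.add_one_le_exp`, `Real.exp_one_lt_d9`). -/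
theorem df_le (k j : ℕ) (h : j ≤ k) :
    (k : ℝ) ^ j * (Nat.doubleFactorial (2 * (k - j) - 1) : ℝ) ≤
      3 ^ j * (Nat.doubleFactorial (2 * k - 1) : ℝ) := by
  induction k generalizing j with
  | zero =>
    obtain rfl : j = 0 := by omega
    simp
  | succ k ih =>
    rcases j with _ | j
    · simp
    · have h1 := ih j (by omega)
      have h2 := pr6_exp k j (by omega)
      have e1 : k + 1 - (j + 1) = k - j := by omega
      rw [e1, pr6_step k]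
      push_cast at h2 ⊢
      have hd : (0 : ℝ) ≤ (Nat.doubleFactorial (2 * (k - j) - 1) : ℝ) := Nat.cast_nonneg _
      have hd2 : (0 : ℝ) ≤ (Nat.doubleFactorial (2 * k - 1) : ℝ) := Nat.cast_nonneg _
      have hk : (0 : ℝ) ≤ k := Nat.cast_nonneg _
      calc ((k : ℝ) + 1) ^ (j + 1) * (Nat.doubleFactorial (2 * (k - j) - 1) : ℝ)
          = ((k : ℝ) + 1) * (((k : ℝ) + 1) ^ j * (Nat.doubleFactorial (2 * (k - j) - 1) : ℝ)) := by ring
        _ ≤ ((k : ℝ) + 1) * (3 * (k : ℝ) ^ j * (Nat.doubleFactorial (2 * (k - j) - 1) : ℝ)) := by gcongr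
        _ = 3 * ((k : ℝ) + 1) * ((k : ℝ) ^ j * (Nat.doubleFactorial (2 * (k - j) - 1) : ℝ)) := by ring
        _ ≤ 3 * ((k : ℝ) + 1) * (3 ^ j * (Nat.doubleFactorial (2 * k - 1) : ℝ)) := by gcongr
        _ ≤ 3 * (2 * (k : ℝ) + 1) * (3 ^ j * (Nat.doubleFactorial (2 * k - 1) : ℝ)) := by
          gcongr
          linarith
        _ = 3 ^ (j + 1) * ((2 * (k : ℝ) + 1) * (Nat.doubleFactorial (2 * k - 1) : ℝ)) := by ring

/-- PROOF. Induction on j: (2 k - 1)!! = (2 k - 1) (2 k - 3)!! ≤ 2 k (2 (k - 1) - 1)!!. -/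
theorem df_ge (k j : ℕ) (h : j ≤ k) :
    (Nat.doubleFactorial (2 * k - 1) : ℝ) ≤
      (2 * k : ℝ) ^ j * (Nat.doubleFactorial (2 * (k - j) - 1) : ℝ) := by
  induction j with
  | zero => simp
  | succ j ih =>
    have h1 := ih (by omega)
    obtain ⟨m, hm⟩ : ∃ m, k - j = m + 1 := ⟨k - j - 1, by omega⟩
    have e1 : k - (j + 1) = m := by omega
    rw [hm, pr6_step m] at h1
    rw [e1]
    push_cast at h1 ⊢
    have hmk : (m : ℝ) + 1 ≤ k := by
      have : m + 1 ≤ k := by omega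
      exact_mod_cast this
    have hd : (0 : ℝ) ≤ (Nat.doubleFactorial (2 * m - 1) : ℝ) := Nat.cast_nonneg _
    have hk : (0 : ℝ) ≤ k := Nat.cast_nonneg _
    refine h1.trans ?_
    calc (2 * (k : ℝ)) ^ j * ((2 * (m : ℝ) + 1) * (Nat.doubleFactorial (2 * m - 1) : ℝ))
        ≤ (2 * (k : ℝ)) ^ j * (2 * (k : ℝ) * (Nat.doubleFactorial (2 * m - 1) : ℝ)) := by
          gcongr
          linarith
      _ = (2 * (k : ℝ)) ^ (j + 1) * (Nat.doubleFactorial (2 * m - 1) : ℝ) := by ring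

theorem X_pos (N : ℕ) : 0 < X N := by
  unfold X
  have := Nat.doubleFactorial_pos (3 * N - 1)
  positivity

/-- PROOF. df_le with 2 k = 3 N: (3 N - 2 j - 1)!! ≤ (2/N)^j (3 N - 1)!!. (N = 0 forces j = 0.) -/
theorem nine_le (N j : ℕ) (hN : Even N) (h : 2 * j ≤ 3 * N) :
    (9 : ℝ) ^ j * (Nat.doubleFactorial (3 * N - 2 * j - 1) : ℝ) / 6 ^ N ≤ (18 / N) ^ j * X N := by
  obtain ⟨M, hM⟩ := hN
  rcases Nat.eq_zero_or_pos N with h0 | h0
  · subst h0
    obtain rfl : j = 0 := by omega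
    simp [X]
  have hM0 : 0 < M := by omega
  have hMr : (0 : ℝ) < M := Nat.cast_pos.2 hM0
  have h1 := df_le (3 * M) j (by omega)
  have e1 : 3 * N - 2 * j - 1 = 2 * (3 * M - j) - 1 := by omega
  have e2 : 3 * N - 1 = 2 * (3 * M) - 1 := by omega
  have e3 : (N : ℝ) = 2 * M := by
    rw [hM]
    push_cast
    ring
  unfold X
  rw [e1, e2, e3]
  push_cast at h1
  have h2 : (Nat.doubleFactorial (2 * (3 * M - j) - 1) : ℝ) ≤ (1 / (M : ℝ)) ^ j * (Nat.doubleFactorial (2 * (3 * M) - 1) : ℝ) := by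
    rw [div_pow, one_pow, div_mul_eq_mul_div, one_mul, le_div_iff₀ (by positivity)]
    have h3 : (3 : ℝ) ^ j * ((Nat.doubleFactorial (2 * (3 * M - j) - 1) : ℝ) * (M : ℝ) ^ j) ≤
        3 ^ j * (Nat.doubleFactorial (2 * (3 * M) - 1) : ℝ) := by
      refine le_trans (le_of_eq ?_) h1
      rw [mul_pow]
      ring
    exact le_of_mul_le_mul_left h3 (by positivity)
  calc (9 : ℝ) ^ j * (Nat.doubleFactorial (2 * (3 * M - j) - 1) : ℝ) / 6 ^ N
      ≤ (9 : ℝ) ^ j * ((1 / (M : ℝ)) ^ j * (Nat.doubleFactorial (2 * (3 * M) - 1) : ℝ)) / 6 ^ N := by gcongr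
    _ = (9 * (1 / (M : ℝ))) ^ j * (Nat.doubleFactorial (2 * (3 * M) - 1) : ℝ) / 6 ^ N := by
      rw [mul_pow]
      ring
    _ = (18 / (2 * M : ℝ)) ^ j * ((Nat.doubleFactorial (2 * (3 * M) - 1) : ℝ) / 6 ^ N) := by
      rw [mul_div_assoc]
      congr 2
      field_simp
      norm_num

/-- PROOF. df_le with 2 k = 3 N, j = 3 a: (3 (N - 2 a) - 1)!! ≤ (2/N)^(3 a) (3 N - 1)!!, and 6^N = 36^a 6^(N - 2a). -/
theorem X_sub (N a : ℕ) (hN : Even N) (h0 : 0 < N) (h : 2 * a ≤ N) :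
    X (N - 2 * a) ≤ (288 / (N : ℝ) ^ 3) ^ a * X N := by
  obtain ⟨M, hM⟩ := hN
  have hM0 : 0 < M := by omega
  have hMr : (0 : ℝ) < M := Nat.cast_pos.2 hM0
  have h1 := df_le (3 * M) (3 * a) (by omega)
  have e1 : 3 * (N - 2 * a) - 1 = 2 * (3 * M - 3 * a) - 1 := by omega
  have e2 : 3 * N - 1 = 2 * (3 * M) - 1 := by omega
  have e3 : (N : ℝ) = 2 * M := by
    rw [hM]
    push_cast
    ring
  have e4 : (6 : ℝ) ^ N = 36 ^ a * 6 ^ (N - 2 * a) := by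
    have h5 : N = 2 * a + (N - 2 * a) := by omega
    conv_lhs => rw [h5]
    rw [pow_add, pow_mul]
    norm_num
  unfold X
  rw [e1, e2, e4, e3]
  push_cast at h1
  have h2 : (Nat.doubleFactorial (2 * (3 * M - 3 * a) - 1) : ℝ) ≤
      (1 / (M : ℝ) ^ 3) ^ a * (Nat.doubleFactorial (2 * (3 * M) - 1) : ℝ) := by
    rw [div_pow, one_pow, div_mul_eq_mul_div, one_mul, le_div_iff₀ (by positivity), ← pow_mul]
    have h3 : (3 : ℝ) ^ (3 * a) * ((Nat.doubleFactorial (2 * (3 * M - 3 * a) - 1) : ℝ) * (M : ℝ) ^ (3 * a)) ≤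
        3 ^ (3 * a) * (Nat.doubleFactorial (2 * (3 * M) - 1) : ℝ) := by
      refine le_trans (le_of_eq ?_) h1
      rw [mul_pow]
      ring
    exact le_of_mul_le_mul_left h3 (by positivity)
  have h6 : (0 : ℝ) < 6 ^ (N - 2 * a) := by positivity
  calc (Nat.doubleFactorial (2 * (3 * M - 3 * a) - 1) : ℝ) / 6 ^ (N - 2 * a)
      ≤ ((1 / (M : ℝ) ^ 3) ^ a * (Nat.doubleFactorial (2 * (3 * M) - 1) : ℝ)) / 6 ^ (N - 2 * a) := by gcongr
    _ = (1 / (M : ℝ) ^ 3) ^ a * 36 ^ a * ((Nat.doubleFactorial (2 * (3 * M) - 1) : ℝ) / (36 ^ a * 6 ^ (N - 2 * a))) := by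
      field_simp
    _ = (288 / (2 * M : ℝ) ^ 3) ^ a * ((Nat.doubleFactorial (2 * (3 * M) - 1) : ℝ) / (36 ^ a * 6 ^ (N - 2 * a))) := by
      rw [← mul_pow]
      congr 2
      field_simp
      norm_num

/-- PROOF. df_ge in the same way: (3 N - 1)!! ≤ (3 N)^(3 a) (3 (N - 2 a) - 1)!!, 27/36 = 3/4. -/
theorem X_le_sub (N a : ℕ) (hN : Even N) (h : 2 * a ≤ N) :
    X N ≤ (3 / 4 * (N : ℝ) ^ 3) ^ a * X (N - 2 * a) := by
  obtain ⟨M, hM⟩ := hN
  have h1 := df_ge (3 * M) (3 * a) (by omega)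
  have e1 : 3 * (N - 2 * a) - 1 = 2 * (3 * M - 3 * a) - 1 := by omega
  have e2 : 3 * N - 1 = 2 * (3 * M) - 1 := by omega
  have e3 : (N : ℝ) = 2 * M := by
    rw [hM]
    push_cast
    ring
  have e4 : (6 : ℝ) ^ N = 36 ^ a * 6 ^ (N - 2 * a) := by
    have h5 : N = 2 * a + (N - 2 * a) := by omega
    conv_lhs => rw [h5]
    rw [pow_add, pow_mul]
    norm_num
  unfold X
  rw [e1, e2, e4, e3]
  push_cast at h1
  have h6 : (0 : ℝ) < 6 ^ (N - 2 * a) := by positivity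
  calc (Nat.doubleFactorial (2 * (3 * M) - 1) : ℝ) / (36 ^ a * 6 ^ (N - 2 * a))
      ≤ ((2 * (3 * (M : ℝ))) ^ (3 * a) * (Nat.doubleFactorial (2 * (3 * M - 3 * a) - 1) : ℝ)) /
        (36 ^ a * 6 ^ (N - 2 * a)) := by gcongr
    _ = ((2 * (3 * (M : ℝ))) ^ 3) ^ a / 36 ^ a * ((Nat.doubleFactorial (2 * (3 * M - 3 * a) - 1) : ℝ) / 6 ^ (N - 2 * a)) := by
      rw [pow_mul]
      field_simp
    _ = (3 / 4 * (2 * (M : ℝ)) ^ 3) ^ a * ((Nat.doubleFactorial (2 * (3 * M - 3 * a) - 1) : ℝ) / 6 ^ (N - 2 * a)) := by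
      rw [← div_pow]
      congr 2
      ring

end Pool.Agent.H38H
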