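import Pool.Agent.Lib.H38H.PR4
import Pool.Agent.Lib.H38H.PR5
import Pool.Agent.Lib.H38H.PR6

/-!
H38H, shared file PR: the number of cubic graphs which contain given edges.
-/

set_option autoImplicit false

namespace Pool.Agent.H38H

open Classical

variable {V : Type}

theorem card_cubic_edges' [Fintype V] (hV : Even (Fintype.card V)) (H : Finset (Sym2 V)) :
    Nat.card {G : SimpleGraph V // Cubic G ∧ ∀ e ∈ H, e ∈ G.edgeSet} * 6 ^ Fintype.card V ≤
      9 ^ H.card * Nat.doubleFactorial (3 * Fintype.card V - 2 * H.card - 1) := by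
  rw [card_cubic (fun G => ∀ e ∈ H, e ∈ G.edgeSet)]
  refine le_trans ?_ (card_lift hV H)
  have key : ∀ R : PM (V × Fin 3), (∃ G : SimpleGraph V, Cubic G ∧ (∀ e ∈ H, e ∈ G.edgeSet) ∧ Over G R) →
      ∀ e ∈ H, ∃ p : V × Fin 3, s(p.1, (R.1 p).1) = e := by
    rintro R ⟨G, hG, hQ, hO⟩ e he
    induction e using Sym2.ind with
    | _ u v =>
      obtain ⟨i, hi⟩ := (over_adj hG hO u v).1 (hQ _ he)
      exact ⟨(u, i), by rw [hi]⟩
  exact Nat.card_mono (Set.toFinite {R : PM (V × Fin 3) | ∀ e ∈ H, ∃ p : V × Fin 3, s(p.1, (R.1 p).1) = e})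
    (fun R hR => key R hR)

/-- **The number of cubic graphs which contain a given set of edges** (of any size). -/
theorem card_cubic_edges [Fintype V] (hV : Even (Fintype.card V)) (H : Finset (Sym2 V)) :
    (Nat.card {G : SimpleGraph V // Cubic G ∧ ∀ e ∈ H, e ∈ G.edgeSet} : ℝ) ≤
      (18 / (Fintype.card V : ℝ)) ^ H.card * X (Fintype.card V) := by
  by_cases h0 : Nat.card {G : SimpleGraph V // Cubic G ∧ ∀ e ∈ H, e ∈ G.edgeSet} = 0
  · rw [h0, Nat.cast_zero]
    have := X_pos (Fintype.card V)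
    positivity
  · have h1 : 2 * H.card ≤ 3 * Fintype.card V := by
      have h2 : Nat.card {G : SimpleGraph V // Cubic G ∧ ∀ e ∈ H, e ∈ G.edgeSet} * 6 ^ Fintype.card V ≠ 0 :=
        Nat.mul_ne_zero h0 (by positivity)
      rw [card_cubic (fun G => ∀ e ∈ H, e ∈ G.edgeSet)] at h2
      have h3 := (Nat.card_pos_iff.1 (Nat.pos_of_ne_zero h2)).1
      obtain ⟨R, G, hG, hQ, hO⟩ := h3
      refine lift_size H R fun e he => ?_
      induction e using Sym2.ind with
      | _ u v =>
        obtain ⟨i, hi⟩ := (over_adj hG hO u v).1 (hQ _ he)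
        exact ⟨(u, i), by rw [hi]⟩
    refine le_trans ?_ (nine_le (Fintype.card V) H.card hV h1)
    rw [le_div_iff₀ (by positivity)]
    exact_mod_cast card_cubic_edges' hV H

end Pool.Agent.H38H
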