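import Pool.Agent.Lib.H38H.AS0
import Pool.Agent.Lib.H38H.PR

/-!
H38H, chunk AS10 (M): the first moment.
-/

set_option autoImplicit false

namespace Pool.Agent.H38H

open Classical

theorem as10_card {α : Type} [Fintype α] (P : α → Prop) [DecidablePred P] :
    Nat.card {x // P x} = (Finset.univ.filter P).card := by
  rw [Nat.card_eq_fintype_card, Fintype.card_subtype]

/-- the union bound over `W` and `H` -/
theorem as10_union (N k j : ℕ) :
    Nat.card {p : SimpleGraph (Fin N) × Finset (Fin N) // Cubic p.1 ∧ p.2.card ≤ k ∧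
        p.2.card + j ≤ eIn p.1 p.2} ≤
      ∑ W ∈ (Finset.univ : Finset (Finset (Fin N))).filter (fun W => W.card ≤ k),
        ∑ H ∈ Finset.powersetCard (W.card + j) W.sym2,
          Nat.card {G : SimpleGraph (Fin N) // Cubic G ∧ ∀ e ∈ H, e ∈ G.edgeSet} := by
  haveI : Fintype (SimpleGraph (Fin N)) := Fintype.ofFinite _
  rw [as10_card]
  have hsub : (Finset.univ.filter (fun p : SimpleGraph (Fin N) × Finset (Fin N) =>
      Cubic p.1 ∧ p.2.card ≤ k ∧ p.2.card + j ≤ eIn p.1 p.2)) ⊆
      ((Finset.univ : Finset (Finset (Fin N))).filter (fun W => W.card ≤ k)).biUnion fun W =>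
        (Finset.powersetCard (W.card + j) W.sym2).biUnion fun H =>
          (Finset.univ.filter (fun G : SimpleGraph (Fin N) =>
            Cubic G ∧ ∀ e ∈ H, e ∈ G.edgeSet)).image (fun G => (G, W)) := by
    rintro ⟨G, W⟩ hp
    rw [Finset.mem_filter] at hp
    obtain ⟨-, hG, hk, hj⟩ := hp
    have hj' : W.card + j ≤ (W.sym2.filter (fun e => e ∈ G.edgeSet)).card := hj
    obtain ⟨H, hHs, hHc⟩ := Finset.exists_subset_card_eq hj'
    rw [Finset.mem_biUnion]
    refine ⟨W, Finset.mem_filter.2 ⟨Finset.mem_univ _, hk⟩, ?_⟩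
    rw [Finset.mem_biUnion]
    refine ⟨H, Finset.mem_powersetCard.2 ⟨fun e he => (Finset.mem_filter.1 (hHs he)).1, hHc⟩, ?_⟩
    rw [Finset.mem_image]
    exact ⟨G, Finset.mem_filter.2 ⟨Finset.mem_univ _, hG,
      fun e he => (Finset.mem_filter.1 (hHs he)).2⟩, rfl⟩
  refine (Finset.card_le_card hsub).trans ?_
  refine Finset.card_biUnion_le.trans ?_
  refine Finset.sum_le_sum fun W _ => ?_
  refine Finset.card_biUnion_le.trans ?_
  refine Finset.sum_le_sum fun H _ => ?_
  rw [as10_card]
  exact Finset.card_image_le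

theorem as10_sym2 {N k : ℕ} {W : Finset (Fin N)} (hW : W.card ≤ k) (m : ℕ) :
    (Finset.powersetCard m W.sym2).card ≤ 2 ^ ((k + 1) ^ 2) := by
  have h1 : W.sym2.card ≤ (k + 1) ^ 2 := by
    rw [Finset.card_sym2]
    have h2 : (W.card + 1).choose 2 ≤ (W.card + 1) ^ 2 := Nat.choose_le_pow _ _
    exact h2.trans (Nat.pow_le_pow_left (Nat.succ_le_succ hW) 2)
  calc (Finset.powersetCard m W.sym2).card ≤ (W.sym2.powerset).card :=
        Finset.card_le_card (fun H hH => Finset.mem_powerset.2 (Finset.mem_powersetCard.1 hH).1)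
    _ = 2 ^ W.sym2.card := Finset.card_powerset _
    _ ≤ 2 ^ ((k + 1) ^ 2) := Nat.pow_le_pow_right (by norm_num) h1

theorem as10_term {N w k j : ℕ} (hN : 1 ≤ N) (hw : w ≤ k) :
    (N.choose w : ℝ) * (18 / (N : ℝ)) ^ (w + j) ≤ 18 ^ (k + j) / (N : ℝ) ^ j := by
  have hN0 : (0 : ℝ) < N := by exact_mod_cast hN
  have h1 : (N.choose w : ℝ) ≤ (N : ℝ) ^ w := by exact_mod_cast Nat.choose_le_pow N w
  calc (N.choose w : ℝ) * (18 / (N : ℝ)) ^ (w + j)
      ≤ (N : ℝ) ^ w * (18 / (N : ℝ)) ^ (w + j) := by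
        apply mul_le_mul_of_nonneg_right h1
        positivity
    _ = 18 ^ (w + j) / (N : ℝ) ^ j := by
        rw [div_pow, pow_add (N : ℝ) w j]
        field_simp
    _ ≤ 18 ^ (k + j) / (N : ℝ) ^ j := by
        apply div_le_div_of_nonneg_right _ (by positivity)
        exact pow_le_pow_right₀ (by norm_num) (by omega)

theorem as10_sumW {N k j : ℕ} (hN : 1 ≤ N) :
    ∑ W ∈ (Finset.univ : Finset (Finset (Fin N))).filter (fun W => W.card ≤ k),
      (18 / (N : ℝ)) ^ (W.card + j) ≤ (k + 1) * (18 ^ (k + j) / (N : ℝ) ^ j) := by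
  have hN0 : (0 : ℝ) < N := by exact_mod_cast hN
  rw [Finset.sum_filter]
  have h1 := Finset.sum_powerset_apply_card
    (fun w => if w ≤ k then (18 / (N : ℝ)) ^ (w + j) else 0) (x := (Finset.univ : Finset (Fin N)))
  rw [Finset.powerset_univ, Finset.card_univ, Fintype.card_fin] at h1
  rw [h1]
  calc ∑ m ∈ Finset.range (N + 1), N.choose m • (if m ≤ k then (18 / (N : ℝ)) ^ (m + j) else 0)
      ≤ ∑ m ∈ Finset.range (N + 1), (if m ≤ k then 18 ^ (k + j) / (N : ℝ) ^ j else 0) := by
        refine Finset.sum_le_sum fun m _ => ?_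
        by_cases hm : m ≤ k
        · rw [if_pos hm, if_pos hm, nsmul_eq_mul]
          exact as10_term hN hm
        · rw [if_neg hm, if_neg hm, smul_zero]
    _ = (((Finset.range (N + 1)).filter (fun m => m ≤ k)).card : ℝ) *
          (18 ^ (k + j) / (N : ℝ) ^ j) := by
        rw [← Finset.sum_filter, Finset.sum_const, nsmul_eq_mul]
    _ ≤ (k + 1) * (18 ^ (k + j) / (N : ℝ) ^ j) := by
        apply mul_le_mul_of_nonneg_right _ (by positivity)
        have h2 : ((Finset.range (N + 1)).filter (fun m => m ≤ k)).card ≤ k + 1 := by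
          calc ((Finset.range (N + 1)).filter (fun m => m ≤ k)).card
              ≤ (Finset.range (k + 1)).card := by
                apply Finset.card_le_card
                intro m hm
                rw [Finset.mem_filter] at hm
                rw [Finset.mem_range]
                omega
            _ = k + 1 := Finset.card_range _
        exact_mod_cast h2

/-- PROOF. If |W| + j ≤ eIn G W there is H ⊆ W.sym2 with |W| + j elements, all edges of G (`Finset.exists_subset_card_eq`). So the number of pairs (G, W) is at most the sum over W with |W| ≤ k, and over H ⊆ W.sym2 with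
|H| = |W| + j, of #{G cubic, H ⊆ edges} ≤ (18/N)^(|W| + j) X N (card_cubic_edges). There are at most 2^((k+1)^2) sets H for each W (W.sym2 has |W|(|W|+1)/2 elements, `Finset.card_sym2`), and N.choose w ≤ N^w sets W
with w elements: total ≤ sum over w ≤ k of N^w 2^((k+1)^2) (18/N)^(w+j) X N ≤ (k+1) 2^((k+1)^2) 18^(k+j) X N / N^j. -/
theorem firstMomentSum : FirstMomentSum := by
  intro k j
  refine ⟨(k + 1) * 2 ^ ((k + 1) ^ 2) * 18 ^ (k + j), by positivity, ?_⟩
  intro N hN hev
  have hN0 : (0 : ℝ) < N := by exact_mod_cast hN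
  have hX := X_pos N
  have h1 : (Nat.card {p : SimpleGraph (Fin N) × Finset (Fin N) // Cubic p.1 ∧ p.2.card ≤ k ∧
        p.2.card + j ≤ eIn p.1 p.2} : ℝ) ≤
      ∑ W ∈ (Finset.univ : Finset (Finset (Fin N))).filter (fun W => W.card ≤ k),
        ∑ H ∈ Finset.powersetCard (W.card + j) W.sym2,
          (Nat.card {G : SimpleGraph (Fin N) // Cubic G ∧ ∀ e ∈ H, e ∈ G.edgeSet} : ℝ) := by
    exact_mod_cast as10_union N k j
  refine h1.trans ?_
  calc ∑ W ∈ (Finset.univ : Finset (Finset (Fin N))).filter (fun W => W.card ≤ k),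
        ∑ H ∈ Finset.powersetCard (W.card + j) W.sym2,
          (Nat.card {G : SimpleGraph (Fin N) // Cubic G ∧ ∀ e ∈ H, e ∈ G.edgeSet} : ℝ)
      ≤ ∑ W ∈ (Finset.univ : Finset (Finset (Fin N))).filter (fun W => W.card ≤ k),
          (2 ^ ((k + 1) ^ 2) * X N) * (18 / (N : ℝ)) ^ (W.card + j) := by
        refine Finset.sum_le_sum fun W hW => ?_
        have hWk := (Finset.mem_filter.1 hW).2
        calc ∑ H ∈ Finset.powersetCard (W.card + j) W.sym2,
              (Nat.card {G : SimpleGraph (Fin N) // Cubic G ∧ ∀ e ∈ H, e ∈ G.edgeSet} : ℝ)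
            ≤ ∑ H ∈ Finset.powersetCard (W.card + j) W.sym2,
                (18 / (N : ℝ)) ^ (W.card + j) * X N := by
              refine Finset.sum_le_sum fun H hH => ?_
              have h2 := card_cubic_edges (V := Fin N) (by rwa [Fintype.card_fin]) H
              rw [Fintype.card_fin, (Finset.mem_powersetCard.1 hH).2] at h2
              exact h2
          _ = ((Finset.powersetCard (W.card + j) W.sym2).card : ℝ) *
                ((18 / (N : ℝ)) ^ (W.card + j) * X N) := by
              rw [Finset.sum_const, nsmul_eq_mul]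
          _ ≤ (2 ^ ((k + 1) ^ 2)) * ((18 / (N : ℝ)) ^ (W.card + j) * X N) := by
              apply mul_le_mul_of_nonneg_right _ (by positivity)
              exact_mod_cast as10_sym2 hWk (W.card + j)
          _ = (2 ^ ((k + 1) ^ 2) * X N) * (18 / (N : ℝ)) ^ (W.card + j) := by ring
    _ = (2 ^ ((k + 1) ^ 2) * X N) *
          ∑ W ∈ (Finset.univ : Finset (Finset (Fin N))).filter (fun W => W.card ≤ k),
            (18 / (N : ℝ)) ^ (W.card + j) := by rw [Finset.mul_sum]
    _ ≤ (2 ^ ((k + 1) ^ 2) * X N) * ((k + 1) * (18 ^ (k + j) / (N : ℝ) ^ j)) := by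
        apply mul_le_mul_of_nonneg_left (as10_sumW hN) (by positivity)
    _ = (k + 1) * 2 ^ ((k + 1) ^ 2) * 18 ^ (k + j) * X N / (N : ℝ) ^ j := by ring

/-- PROOF. Projection (G, W) ↦ G. -/
theorem firstMoment_of (h : FirstMomentSum) : FirstMoment := by
  intro k j
  obtain ⟨C, hC, hN⟩ := h k j
  refine ⟨C, 1, fun N h1 hev => ?_⟩
  refine le_trans ?_ (hN N h1 hev)
  have hle : Nat.card {G : SimpleGraph (Fin N) // Cubic G ∧
        ∃ W : Finset (Fin N), W.card ≤ k ∧ W.card + j ≤ eIn G W} ≤
      Nat.card {p : SimpleGraph (Fin N) × Finset (Fin N) // Cubic p.1 ∧ p.2.card ≤ k ∧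
        p.2.card + j ≤ eIn p.1 p.2} := by
    refine Nat.card_le_card_of_injective
      (fun G => ⟨(G.1, Classical.choose G.2.2), G.2.1, (Classical.choose_spec G.2.2).1,
        (Classical.choose_spec G.2.2).2⟩) ?_
    intro G G' hGG
    have h2 := congrArg (fun p => p.1.1) hGG
    exact Subtype.ext h2
  exact_mod_cast hle

theorem firstMoment : FirstMoment := firstMoment_of firstMomentSum

end Pool.Agent.H38H
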