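import Pool.Agent.Lib.H38H.AS0

/-!
H38H, chunk AS2 (M): the properties are invariant under isomorphism. Pure Mathlib.
-/

set_option autoImplicit false

namespace Pool.Agent.H38H

open Classical

variable {V : Type} [Fintype V] [DecidableEq V]

omit [Fintype V] [DecidableEq V] in
theorem AS2_deg {G H : SimpleGraph V} (f : SimpleGraph.Iso G H) (h : ∀ v, (G.neighborSet v).ncard = 3)
    (v : V) : (H.neighborSet v).ncard = 3 := by
  have h1 := Nat.card_congr (f.mapNeighborSet (f.symm v))
  rw [RelIso.apply_symm_apply, Nat.card_coe_set_eq, Nat.card_coe_set_eq, h] at h1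
  exact h1.symm

theorem AS2_ham {G H : SimpleGraph V} (f : SimpleGraph.Iso G H) (h : G.IsHamiltonian) :
    H.IsHamiltonian := by
  intro hc
  obtain ⟨a, p, hp⟩ := h hc
  exact ⟨f a, p.map f.toHom, hp.map f.bijective⟩

omit [Fintype V] [DecidableEq V] in
theorem AS2_br {G H : SimpleGraph V} (f : SimpleGraph.Iso G H) (h : ∃ e, G.IsBridge e) :
    ∃ e, H.IsBridge e := by
  obtain ⟨e, he⟩ := h
  induction e with
  | h u v =>
    refine ⟨s(f u, f v), ?_⟩
    rw [SimpleGraph.isBridge_iff_forall_walk_mem_edges] at he ⊢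
    intro p
    have h1 := he ((p.map f.symm.toHom).copy (f.symm_apply_apply u) (f.symm_apply_apply v))
    rw [SimpleGraph.Walk.edges_copy, SimpleGraph.Walk.edges_map, List.mem_map] at h1
    obtain ⟨e', he', hee⟩ := h1
    have h2 : e' = s(f u, f v) := by
      apply Sym2.map.injective f.symm.injective
      have h3 : Sym2.map f.symm e' = s(u, v) := hee
      rw [h3]
      simp
    rwa [h2] at he'

/-- PROOF. Connected: `SimpleGraph.Iso.connected_iff`. Degrees: the neighbour sets correspond under the bijection (`SimpleGraph.Iso.mapNeighborSet`, `Set.ncard_congr`). Hamiltonian: the image of a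
Hamiltonian cycle (`SimpleGraph.Walk.IsHamiltonianCycle.map`, the bijective homomorphism). -/
theorem isoInv_QN : IsoInv (QN (V := V)) := by
  rintro G H ⟨f⟩ ⟨h1, h2, h3⟩
  exact ⟨(SimpleGraph.Iso.connected_iff f).1 h1, AS2_deg f h2, fun h => h3 (AS2_ham f.symm h)⟩

/-- PROOF. As above, and bridges: `SimpleGraph.isBridge_iff_forall_walk_mem_edges` and Walk.map by the isomorphism and its inverse (edges_map), e ↦ e.map f. -/
theorem isoInv_QB : IsoInv (QB (V := V)) := by
  rintro G H ⟨f⟩ ⟨h1, h2, h3, h4⟩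
  exact ⟨(SimpleGraph.Iso.connected_iff f).1 h1, AS2_deg f h2, fun h => h3 (AS2_ham f.symm h), AS2_br f h4⟩

end Pool.Agent.H38H
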