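import Pool.Agent.Lib.H38H.AS0

/-!
H38H, chunk AS3 (M): counting pairs (graph, automorphism).
-/

set_option autoImplicit false

namespace Pool.Agent.H38H

open Classical

theorem as3_or {α : Type} [Finite α] (P Q : α → Prop) :
    Nat.card {x : α // P x ∨ Q x} ≤ Nat.card {x : α // P x} + Nat.card {x : α // Q x} := by
  have h : {x : α | P x ∨ Q x} = {x | P x} ∪ {x | Q x} := rfl
  have h1 := Set.ncard_union_le {x : α | P x} {x : α | Q x}
  rw [← h] at h1
  exact h1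

theorem as3_mono {α : Type} [Finite α] (P Q : α → Prop) (h : ∀ x, P x → Q x) :
    Nat.card {x : α // P x} ≤ Nat.card {x : α // Q x} := by
  have h1 : {x : α | P x} ⊆ {x | Q x} := h
  exact Set.ncard_le_ncard h1 (Set.toFinite _)

/-- PROOF. QN G iff exactly one of QB G and Bad G. (Decidability instances may differ: `convert` or Subsingleton.) -/
theorem cA_split (N : ℕ) : cA N (QN (V := Fin N)) = cA N (QB (V := Fin N)) + cA N (Bad (V := Fin N)) := by
  unfold cA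
  have hd : Disjoint (fun p : SimpleGraph (Fin N) × Equiv.Perm (Fin N) =>
      QB p.1 ∧ IsAut p.1 p.2) (fun p => Bad p.1 ∧ IsAut p.1 p.2) := by
    rw [Pi.disjoint_iff]
    intro p
    rw [Prop.disjoint_iff]
    intro h
    obtain ⟨⟨⟨-, -, -, e, he⟩, -⟩, ⟨-, -, -, h4⟩, -⟩ := h
    exact h4 e he
  rw [← Nat.card_sum, ← Nat.card_congr (subtypeOrEquiv _ _ hd)]
  refine Nat.card_congr (Equiv.subtypeEquivRight fun p => ?_)
  constructor
  · rintro ⟨⟨h1, h2, h3⟩, h4⟩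
    by_cases h5 : ∃ e, p.1.IsBridge e
    · exact Or.inl ⟨⟨h1, h2, h3, h5⟩, h4⟩
    · refine Or.inr ⟨⟨h2, h1, h3, fun e he => h5 ⟨e, he⟩⟩, h4⟩
  · rintro (⟨⟨h1, h2, h3, -⟩, h4⟩ | ⟨⟨h2, h1, h3, -⟩, h4⟩)
    · exact ⟨⟨h1, h2, h3⟩, h4⟩
    · exact ⟨⟨h1, h2, h3⟩, h4⟩

/-- PROOF. G ↦ (G, 1); a graph with a bridge is not Hamiltonian: `SimpleGraph.IsBridge.not_isHamiltonian`. -/
theorem cA_QB (N : ℕ) :
    Nat.card {G : SimpleGraph (Fin N) // Cubic G ∧ G.Connected ∧ ∃ e, G.IsBridge e} ≤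
      cA N (QB (V := Fin N)) := by
  unfold cA
  refine Nat.card_le_card_of_injective
    (fun G : {G : SimpleGraph (Fin N) // Cubic G ∧ G.Connected ∧ ∃ e, G.IsBridge e} =>
      (⟨(G.1, 1), ⟨G.2.2.1, G.2.1, ?_, G.2.2.2⟩, ?_⟩ :
        {p : SimpleGraph (Fin N) × Equiv.Perm (Fin N) // QB p.1 ∧ IsAut p.1 p.2})) ?_
  · obtain ⟨e, he⟩ := G.2.2.2
    exact he.not_isHamiltonian
  · intro u v
    exact Iff.rfl
  · intro G H h
    have h1 := congrArg (fun x => x.1.1) h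
    exact Subtype.ext h1

/-- PROOF. The pairs (G, τ), Bad G, IsAut G τ are of one of three kinds: 5 ≤ |supp τ|; |supp τ| ≤ 4 and some W with |W| ≤ 30, |W| + 3 ≤ eIn G W; |supp τ| ≤ 4 and
eIn G W ≤ |W| + 2 for all W with |W| ≤ 30, then for every G there are at most 20! + 1 such τ (h5). -/
theorem cA_Bad (h5 : FewSmallAut) (N : ℕ) :
    cA N (Bad (V := Fin N)) ≤
      (Nat.factorial 20 + 1) * Nat.card {G : SimpleGraph (Fin N) // Bad G} +
      Nat.card {p : SimpleGraph (Fin N) × Equiv.Perm (Fin N) //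
        Cubic p.1 ∧ IsAut p.1 p.2 ∧ 5 ≤ p.2.support.card} +
      Nat.card {p : SimpleGraph (Fin N) × Equiv.Perm (Fin N) //
        Cubic p.1 ∧ IsAut p.1 p.2 ∧ p.2.support.card ≤ 4 ∧
        ∃ W : Finset (Fin N), W.card ≤ 30 ∧ W.card + 3 ≤ eIn p.1 W} := by
  have hK : Nat.card {p : SimpleGraph (Fin N) × Equiv.Perm (Fin N) //
      Bad p.1 ∧ IsAut p.1 p.2 ∧ p.2.support.card ≤ 4 ∧
        ∀ W : Finset (Fin N), W.card ≤ 30 → eIn p.1 W ≤ W.card + 2} ≤
      (Nat.factorial 20 + 1) * Nat.card {G : SimpleGraph (Fin N) // Bad G} := by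
    let B : {G : SimpleGraph (Fin N) // Bad G} → Type := fun G =>
      {τ : Equiv.Perm (Fin N) // IsAut G.1 τ ∧ τ.support.card ≤ 4 ∧
        ∀ W : Finset (Fin N), W.card ≤ 30 → eIn G.1 W ≤ W.card + 2}
    have hB : ∀ G, Nat.card (B G) ≤ Nat.factorial 20 + 1 := by
      intro G
      by_cases hW : ∀ W : Finset (Fin N), W.card ≤ 30 → eIn G.1 W ≤ W.card + 2
      · refine le_trans ?_ (h5 N G.1 G.2.1 hW)
        exact as3_mono _ _ fun τ h => ⟨h.1, h.2.1⟩
      · have : IsEmpty (B G) := ⟨fun x => hW x.2.2.2⟩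
        rw [Nat.card_of_isEmpty]
        exact Nat.zero_le _
    have h1 : Nat.card {p : SimpleGraph (Fin N) × Equiv.Perm (Fin N) //
      Bad p.1 ∧ IsAut p.1 p.2 ∧ p.2.support.card ≤ 4 ∧
        ∀ W : Finset (Fin N), W.card ≤ 30 → eIn p.1 W ≤ W.card + 2} ≤ Nat.card (Sigma B) := by
      have hf : ∀ G, Finite (B G) := fun G => by
        change Finite {τ : Equiv.Perm (Fin N) // _}
        infer_instance
      refine Nat.card_le_card_of_injective
        (fun p => (⟨⟨p.1.1, p.2.1⟩, ⟨p.1.2, p.2.2⟩⟩ : Sigma B)) ?_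
      rintro ⟨⟨G, τ⟩, h⟩ ⟨⟨G', τ'⟩, h'⟩ he
      simp only [Sigma.mk.injEq, Subtype.mk.injEq] at he
      obtain ⟨rfl, he2⟩ := he
      have h3 := eq_of_heq he2
      rw [Subtype.mk.injEq] at h3
      subst h3
      rfl
    refine h1.trans ?_
    have := Fintype.ofFinite {G : SimpleGraph (Fin N) // Bad G}
    rw [Nat.card_sigma]
    calc ∑ a, Nat.card (B a) ≤ ∑ _a : {G : SimpleGraph (Fin N) // Bad G}, (Nat.factorial 20 + 1) :=
          Finset.sum_le_sum fun G _ => hB G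
      _ = (Nat.factorial 20 + 1) * Nat.card {G : SimpleGraph (Fin N) // Bad G} := by
          rw [Finset.sum_const, Finset.card_univ, smul_eq_mul, Nat.card_eq_fintype_card, mul_comm]
  refine le_trans ?_ (Nat.add_le_add_right (Nat.add_le_add_right hK _) _)
  refine le_trans ?_ (Nat.add_le_add_right (as3_or _ _) _)
  refine le_trans ?_ (as3_or _ _)
  unfold cA
  refine as3_mono _ _ fun p h => ?_
  by_cases h1 : 5 ≤ p.2.support.card
  · exact Or.inl (Or.inr ⟨h.1.1, h.2, h1⟩)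
  · have h2 : p.2.support.card ≤ 4 := by omega
    by_cases h3 : ∃ W : Finset (Fin N), W.card ≤ 30 ∧ W.card + 3 ≤ eIn p.1 W
    · exact Or.inr ⟨h.1.1, h.2, h2, h3⟩
    · refine Or.inl (Or.inl ⟨h.1, h.2, h2, fun W hW => ?_⟩)
      by_contra h4
      exact h3 ⟨W, hW, by omega⟩

end Pool.Agent.H38H
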