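import Pool.Agent.Lib.H38H.AS0

/-!
H38H, chunk AS4 (S/M): the limit. Real analysis.
-/

set_option autoImplicit false

namespace Pool.Agent.H38H

open Classical

/-- PROOF. 0 ≤ 1 - a/(a+b) = b/(a+b) ≤ b/a ≤ K/sqrt (2 n) for n ≥ n₀; squeeze. -/
theorem ratio_tendsto (a b : ℕ → ℝ) (K : ℝ) (n₀ : ℕ) (ha : ∀ n, n₀ ≤ n → 0 < a n)
    (hb : ∀ n, 0 ≤ b n) (h : ∀ n, n₀ ≤ n → b n ≤ K / Real.sqrt (2 * n) * a n) :
    Filter.Tendsto (fun n => a n / (a n + b n)) Filter.atTop (nhds 1) := by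
  have h1 : Filter.Tendsto (fun n : ℕ => Real.sqrt (2 * n)) Filter.atTop Filter.atTop := by
    refine Real.tendsto_sqrt_atTop.comp ?_
    exact Filter.Tendsto.const_mul_atTop (by norm_num) tendsto_natCast_atTop_atTop
  have h2 : Filter.Tendsto (fun n : ℕ => K / Real.sqrt (2 * n)) Filter.atTop (nhds 0) :=
    Filter.Tendsto.const_div_atTop h1 K
  have h3 : Filter.Tendsto (fun n : ℕ => 1 - K / Real.sqrt (2 * n)) Filter.atTop (nhds 1) := by
    simpa using h2.const_sub 1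
  refine tendsto_of_tendsto_of_tendsto_of_le_of_le' h3 tendsto_const_nhds ?_ ?_
  · filter_upwards [Filter.eventually_ge_atTop n₀] with n hn
    have ha' := ha n hn
    have hb' := hb n
    have h' := h n hn
    have hab : 0 < a n + b n := by linarith
    rw [le_div_iff₀ hab]
    by_cases hK : 0 ≤ K / Real.sqrt (2 * n)
    · nlinarith [mul_nonneg hK hb']
    · push Not at hK
      exfalso
      nlinarith [mul_pos_of_neg_of_neg hK (neg_lt_zero.mpr ha')]
  · filter_upwards [Filter.eventually_ge_atTop n₀] with n hn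
    have ha' := ha n hn
    have hb' := hb n
    have hab : 0 < a n + b n := by linarith
    rw [div_le_one hab]
    linarith

/-- PROOF. With x = X N > 0: N^3 = N^2 N ≥ N^2 sqrt N, so the left side is at most (F |C1| + |C2| + |C3|) x/(N^2 sqrt N), and x/N^2 ≤ b/c. -/
theorem arith_top (F C1 C2 C3 c x b B1 B2 B3 : ℝ) (N : ℕ) (hN : 1 ≤ N) (hF : 0 ≤ F) (hc : 0 < c)
    (hx : 0 < x) (h1 : B1 ≤ C1 * x / (N : ℝ) ^ 3) (h2 : B2 ≤ C2 * x / ((N : ℝ) ^ 2 * Real.sqrt N))
    (h3 : B3 ≤ C3 * x / (N : ℝ) ^ 3) (hb : c * x / (N : ℝ) ^ 2 ≤ b) :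
    F * B1 + B2 + B3 ≤ ((F * |C1| + |C2| + |C3|) / c) / Real.sqrt N * b := by
  have hN' : (1 : ℝ) ≤ N := by exact_mod_cast hN
  have hN0 : (0 : ℝ) < N := by linarith
  have hs : 0 < Real.sqrt N := Real.sqrt_pos.mpr hN0
  have hsN : Real.sqrt N ≤ N := by
    rw [Real.sqrt_le_left (by linarith)]
    nlinarith
  have hD : 0 < (N : ℝ) ^ 2 * Real.sqrt N := by positivity
  set D := (N : ℝ) ^ 2 * Real.sqrt N with hDdef
  have hDle : D ≤ (N : ℝ) ^ 3 := by
    have : (N : ℝ) ^ 3 = (N : ℝ) ^ 2 * N := by ring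
    rw [this]
    exact mul_le_mul_of_nonneg_left hsN (by positivity)
  have key : ∀ C : ℝ, C * x / (N : ℝ) ^ 3 ≤ |C| * x / D := by
    intro C
    calc C * x / (N : ℝ) ^ 3 ≤ |C| * x / (N : ℝ) ^ 3 := by
          apply div_le_div_of_nonneg_right _ (by positivity)
          exact mul_le_mul_of_nonneg_right (le_abs_self C) hx.le
      _ ≤ |C| * x / D := by
          apply div_le_div_of_nonneg_left (by positivity) hD hDle
  have h1' : B1 ≤ |C1| * x / D := h1.trans (key C1)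
  have h3' : B3 ≤ |C3| * x / D := h3.trans (key C3)
  have h2' : B2 ≤ |C2| * x / D := by
    refine h2.trans ?_
    apply div_le_div_of_nonneg_right _ hD.le
    exact mul_le_mul_of_nonneg_right (le_abs_self C2) hx.le
  have hsum : F * B1 + B2 + B3 ≤ (F * |C1| + |C2| + |C3|) * (x / D) := by
    have := mul_le_mul_of_nonneg_left h1' hF
    have e : (F * |C1| + |C2| + |C3|) * (x / D) = F * (|C1| * x / D) + |C2| * x / D + |C3| * x / D := by
      ring
    rw [e]
    linarith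
  refine hsum.trans ?_
  have hxb : x / (N : ℝ) ^ 2 ≤ b / c := by
    rw [le_div_iff₀ hc]
    calc x / (N : ℝ) ^ 2 * c = c * x / (N : ℝ) ^ 2 := by ring
      _ ≤ b := hb
  have hxD : x / D = x / (N : ℝ) ^ 2 / Real.sqrt N := by
    rw [hDdef, div_div]
  have h5 : x / D ≤ b / c / Real.sqrt N := by
    rw [hxD]
    exact div_le_div_of_nonneg_right hxb hs.le
  have h6 : 0 ≤ F * |C1| + |C2| + |C3| := by positivity
  calc (F * |C1| + |C2| + |C3|) * (x / D) ≤ (F * |C1| + |C2| + |C3|) * (b / c / Real.sqrt N) :=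
        mul_le_mul_of_nonneg_left h5 h6
    _ = ((F * |C1| + |C2| + |C3|) / c) / Real.sqrt N * b := by ring

end Pool.Agent.H38H
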