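import Pool.Agent.Lib.H38H.AS0

/-!
H38H, chunk AS7 (S): permutations with support in a given set. Pure Mathlib.
-/

set_option autoImplicit false

namespace Pool.Agent.H38H

open Classical

/-- PROOF. `Equiv.Perm.subtypeEquivSubtypePerm` (permutations fixing everything outside U are the permutations of U), Fintype.card_perm. -/
theorem card_supp {N : ℕ} (U : Finset (Fin N)) :
    Nat.card {τ : Equiv.Perm (Fin N) // τ.support ⊆ U} = U.card.factorial := by
  have h1 : ∀ τ : Equiv.Perm (Fin N), τ.support ⊆ U ↔ ∀ a, ¬ a ∈ U → τ a = a := by
    intro τ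
    constructor
    · intro h a ha
      by_contra hne
      exact ha (h (Equiv.Perm.mem_support.2 hne))
    · intro h a ha
      by_contra hne
      exact Equiv.Perm.mem_support.1 ha (h a hne)
  rw [Nat.card_congr (Equiv.subtypeEquivRight h1),
    ← Nat.card_congr (Equiv.Perm.subtypeEquivSubtypePerm (fun a => a ∈ U)), Nat.card_eq_fintype_card,
    Fintype.card_perm, Fintype.card_coe]

end Pool.Agent.H38H
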