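import Pool.Agent.Lib.H38H.AS6
import Pool.Agent.Lib.H38H.AS7

/-!
H38H, chunk AS9 (M): first moment for pairs (graph, automorphism moving at most four points).
-/

set_option autoImplicit false

namespace Pool.Agent.H38H

open Classical

/-- PROOF. C from h for k + 10 and j = 3. For (G, τ) choose W and put W' = W ∪ hull G τ: |W'| ≤ k + 10 (hull_card), |W'| + 3 ≤ eIn G W' (hull_le), supp τ ⊆ W'. So the map (G, τ) ↦ ((G, W'), τ) is an injection into the sigma type of the
pairs (G, W') of FirstMomentSum and {τ // τ.support ⊆ W'}, with at most (k + 10)! elements in every fibre (card_supp). The constant is (k+10)! C. -/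
theorem firstMomentAut_of (h : FirstMomentSum) : FirstMomentAut := by
  intro k
  obtain ⟨C, hC, hN⟩ := h (k + 10) 3
  refine ⟨((k + 10).factorial : ℝ) * C, 1, fun N h1 h2 => ?_⟩
  have hb := hN N h1 h2
  have key : Nat.card {p : SimpleGraph (Fin N) × Equiv.Perm (Fin N) //
        Cubic p.1 ∧ IsAut p.1 p.2 ∧ p.2.support.card ≤ 4 ∧
        ∃ W : Finset (Fin N), W.card ≤ k ∧ W.card + 3 ≤ eIn p.1 W} ≤
      (k + 10).factorial * Nat.card {p : SimpleGraph (Fin N) × Finset (Fin N) // Cubic p.1 ∧ p.2.card ≤ k + 10 ∧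
        p.2.card + 3 ≤ eIn p.1 p.2} := by
    have hex : ∀ p : {p : SimpleGraph (Fin N) × Equiv.Perm (Fin N) //
        Cubic p.1 ∧ IsAut p.1 p.2 ∧ p.2.support.card ≤ 4 ∧
        ∃ W : Finset (Fin N), W.card ≤ k ∧ W.card + 3 ≤ eIn p.1 W},
        ∃ W' : Finset (Fin N), W'.card ≤ k + 10 ∧ W'.card + 3 ≤ eIn p.1.1 W' ∧ p.1.2.support ⊆ W' := by
      rintro ⟨⟨G, τ⟩, hG, hτ, h4, W, hW, hW3⟩
      simp only at *
      refine ⟨W ∪ hull G τ, ?_, ?_, ?_⟩
      · have e1 : (hull G τ).card ≤ 10 := hull_card hG hτ h4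
        have e2 := Finset.card_union_le W (hull G τ)
        omega
      · have e1 : eIn G W + (W ∪ hull G τ).card ≤ eIn G (W ∪ hull G τ) + W.card := hull_le hG hτ W
        have e2 : W.card + 3 ≤ eIn G W := hW3
        change (W ∪ hull G τ).card + 3 ≤ eIn G (W ∪ hull G τ)
        omega
      · intro x hx
        exact Finset.mem_union_right _ (Finset.mem_union_left _ hx)
    choose W' hW1 hW2 hW3 using hex
    let B := {p : SimpleGraph (Fin N) × Finset (Fin N) // Cubic p.1 ∧ p.2.card ≤ k + 10 ∧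
        p.2.card + 3 ≤ eIn p.1 p.2}
    have hsig : Nat.card (Σ b : B, {τ : Equiv.Perm (Fin N) // τ.support ⊆ b.1.2}) ≤
        (k + 10).factorial * Nat.card B := by
      rw [Nat.card_sigma]
      calc ∑ b : B, Nat.card {τ : Equiv.Perm (Fin N) // τ.support ⊆ b.1.2}
          ≤ ∑ _b : B, (k + 10).factorial := by
            refine Finset.sum_le_sum fun b _ => ?_
            rw [card_supp]
            exact Nat.factorial_le b.2.2.1
        _ = (k + 10).factorial * Nat.card B := by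
            rw [Finset.sum_const, Finset.card_univ, smul_eq_mul, Nat.card_eq_fintype_card, mul_comm]
    refine le_trans ?_ hsig
    refine Nat.card_le_card_of_injective
      (fun p => (⟨⟨(p.1.1, W' p), p.2.1, hW1 p, hW2 p⟩, ⟨p.1.2, hW3 p⟩⟩ :
        Σ b : B, {τ : Equiv.Perm (Fin N) // τ.support ⊆ b.1.2})) ?_
    intro p q hpq
    have e1 : p.1.1 = q.1.1 := congrArg (fun x : (Σ b : B, {τ : Equiv.Perm (Fin N) // τ.support ⊆ b.1.2}) => x.1.1.1) hpq
    have e2 : p.1.2 = q.1.2 := congrArg (fun x : (Σ b : B, {τ : Equiv.Perm (Fin N) // τ.support ⊆ b.1.2}) => x.2.1) hpq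
    exact Subtype.ext (Prod.ext e1 e2)
  calc (Nat.card {p : SimpleGraph (Fin N) × Equiv.Perm (Fin N) //
        Cubic p.1 ∧ IsAut p.1 p.2 ∧ p.2.support.card ≤ 4 ∧
        ∃ W : Finset (Fin N), W.card ≤ k ∧ W.card + 3 ≤ eIn p.1 W} : ℝ)
      ≤ (((k + 10).factorial * Nat.card {p : SimpleGraph (Fin N) × Finset (Fin N) // Cubic p.1 ∧ p.2.card ≤ k + 10 ∧
        p.2.card + 3 ≤ eIn p.1 p.2} : ℕ) : ℝ) := by exact_mod_cast key
    _ = ((k + 10).factorial : ℝ) * (Nat.card {p : SimpleGraph (Fin N) × Finset (Fin N) // Cubic p.1 ∧ p.2.card ≤ k + 10 ∧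
        p.2.card + 3 ≤ eIn p.1 p.2} : ℝ) := by push_cast; ring
    _ ≤ ((k + 10).factorial : ℝ) * (C * X N / (N : ℝ) ^ 3) := mul_le_mul_of_nonneg_left hb (Nat.cast_nonneg _)
    _ = _ := by ring

end Pool.Agent.H38H
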