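import Pool.Agent.Lib.H38H.AS1
import Pool.Agent.Lib.H38H.AS2
import Pool.Agent.Lib.H38H.AS3
import Pool.Agent.Lib.H38H.AS4
import Pool.Agent.Lib.H38H.AS8
import Pool.Agent.Lib.H38H.AS9
import Pool.Agent.Lib.H38H.AS10

/-!
H38H, module AS: assembly.
-/

set_option autoImplicit false

namespace Pool.Agent.H38H

open Classical

theorem firstMomentAut : FirstMomentAut := firstMomentAut_of firstMomentSum

/-- module AS (the statement of `top` in Top.lean) -/
theorem top_of (h1 : FewBad) (h2 : ManyBridged) (h3 : FewAut) (h4 : FirstMomentAut) (h5 : FewSmallAut) :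
    Filter.Tendsto
      (fun n : ℕ =>
        (Nat.card (Quot (fun G H : {G : SimpleGraph (Fin (2 * n)) //
              G.Connected ∧ (∀ v, (G.neighborSet v).ncard = 3) ∧ ¬ G.IsHamiltonian ∧
                ∃ e, G.IsBridge e} =>
              Nonempty (SimpleGraph.Iso G.1 H.1))) : ℝ) /
        (Nat.card (Quot (fun G H : {G : SimpleGraph (Fin (2 * n)) //
              G.Connected ∧ (∀ v, (G.neighborSet v).ncard = 3) ∧ ¬ G.IsHamiltonian} =>
              Nonempty (SimpleGraph.Iso G.1 H.1))) : ℝ))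
      Filter.atTop (nhds 1) := by
  obtain ⟨C1, N1, h1⟩ := h1
  obtain ⟨c, hc, N2, h2⟩ := h2
  obtain ⟨C3, N3, h3⟩ := h3
  obtain ⟨C4, N4, h4⟩ := h4 30
  set K : ℝ := (((Nat.factorial 20 + 1 : ℕ) : ℝ) * |C1| + |C3| + |C4|) / c with hK
  set a : ℕ → ℝ := fun n => (cA (2 * n) (QB (V := Fin (2 * n))) : ℝ) with ha
  set b : ℕ → ℝ := fun n => (cA (2 * n) (Bad (V := Fin (2 * n))) : ℝ) with hb
  set n₀ : ℕ := 1 + N1 + N2 + N3 + N4 with hn₀
  have hlow : ∀ n, n₀ ≤ n → c * X (2 * n) / ((2 * n : ℕ) : ℝ) ^ 2 ≤ a n := by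
    intro n hn
    refine (h2 (2 * n) (by omega) (even_two_mul n)).trans ?_
    have := cA_QB (2 * n)
    simp only [ha]
    exact_mod_cast this
  have hapos : ∀ n, n₀ ≤ n → 0 < a n := by
    intro n hn
    refine lt_of_lt_of_le ?_ (hlow n hn)
    have h0 : 0 < n := by omega
    have := X_pos (2 * n)
    positivity
  have hup : ∀ n, n₀ ≤ n → b n ≤ K / Real.sqrt (2 * n) * a n := by
    intro n hn
    have e1 := h1 (2 * n) (by omega) (even_two_mul n)
    have e3 := h3 (2 * n) (by omega) (even_two_mul n)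
    have e4 := h4 (2 * n) (by omega) (even_two_mul n)
    have e5 := cA_Bad h5 (2 * n)
    have e6 := arith_top ((Nat.factorial 20 + 1 : ℕ) : ℝ) C1 C3 C4 c (X (2 * n)) (a n) _ _ _ (2 * n)
      (by omega) (Nat.cast_nonneg _) hc (X_pos _) e1 e3 e4 (hlow n hn)
    have e7 := (Nat.cast_le (α := ℝ)).2 e5
    refine le_trans e7 ?_
    push_cast at e6 ⊢
    refine le_trans (le_of_eq ?_) (e6.trans (le_of_eq ?_))
    · ring
    · rw [hK]
      push_cast
      ring
  have hlim := ratio_tendsto a b K n₀ hapos (fun n => Nat.cast_nonneg _) hup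
  refine hlim.congr fun n => ?_
  have f1 := classes_mul (2 * n) (QB (V := Fin (2 * n))) isoInv_QB
  have f2 := classes_mul (2 * n) (QN (V := Fin (2 * n))) isoInv_QN
  have f3 := cA_split (2 * n)
  have hfac : ((2 * n).factorial : ℝ) ≠ 0 := by exact_mod_cast Nat.factorial_ne_zero _
  have f4 : a n + b n = (cA (2 * n) (QN (V := Fin (2 * n))) : ℝ) := by
    rw [f3]
    push_cast
    rfl
  have f5 : a n = (Nat.card (Quot (fun G H : {G : SimpleGraph (Fin (2 * n)) // QB G} =>
      Nonempty (SimpleGraph.Iso G.1 H.1))) : ℝ) * ((2 * n).factorial : ℝ) := by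
    simp only [ha]
    rw [← f1]
    push_cast
    rfl
  rw [f4, ← f2, f5]
  push_cast
  rw [mul_div_mul_right _ _ hfac]
  rfl

end Pool.Agent.H38H
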