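import Pool.Agent.Lib.H38H.Stm

/-!
H38H, module AS: definitions.
-/

set_option autoImplicit false

namespace Pool.Agent.H38H

open Classical

/-- invariant under isomorphism -/
def IsoInv {V : Type} (Q : SimpleGraph V → Prop) : Prop :=
  ∀ G H : SimpleGraph V, Nonempty (SimpleGraph.Iso G H) → Q G → Q H

/-- the connected cubic non-Hamiltonian graphs with a bridge -/
def QB {V : Type} [Fintype V] [DecidableEq V] (G : SimpleGraph V) : Prop :=
  G.Connected ∧ (∀ v, (G.neighborSet v).ncard = 3) ∧ ¬ G.IsHamiltonian ∧ ∃ e, G.IsBridge e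

/-- the connected cubic non-Hamiltonian graphs -/
def QN {V : Type} [Fintype V] [DecidableEq V] (G : SimpleGraph V) : Prop :=
  G.Connected ∧ (∀ v, (G.neighborSet v).ncard = 3) ∧ ¬ G.IsHamiltonian

/-- the number of pairs (graph with the property `Q`, automorphism) -/
noncomputable def cA (N : ℕ) (Q : SimpleGraph (Fin N) → Prop) : ℕ :=
  Nat.card {p : SimpleGraph (Fin N) × Equiv.Perm (Fin N) // Q p.1 ∧ IsAut p.1 p.2}

/-- the vertices moved by `τ` and their neighbours -/
noncomputable def hull {N : ℕ} (G : SimpleGraph (Fin N)) (τ : Equiv.Perm (Fin N)) : Finset (Fin N) :=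
  τ.support ∪ Finset.univ.filter (fun v => ∃ s ∈ τ.support, G.Adj s v)

/-- first moment, summed over the sets `W` -/
def FirstMomentSum : Prop :=
  ∀ k j : ℕ, ∃ C : ℝ, 0 ≤ C ∧ ∀ N : ℕ, 1 ≤ N → Even N →
    (Nat.card {p : SimpleGraph (Fin N) × Finset (Fin N) // Cubic p.1 ∧ p.2.card ≤ k ∧
        p.2.card + j ≤ eIn p.1 p.2} : ℝ) ≤ C * X N / (N : ℝ) ^ j

end Pool.Agent.H38H
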