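import Pool.Agent.Lib.H38H.AS0

/-!
H38H, chunk AS1 (M): Burnside's lemma for isomorphism classes of labelled graphs. Pure Mathlib.
-/

set_option autoImplicit false

namespace Pool.Agent.H38H

open Classical

theorem as1_inv {N : ℕ} (τ : Equiv.Perm (Fin N)) (u : Fin N) : τ⁻¹ (τ u) = u := τ.symm_apply_apply u

theorem as1_inv' {N : ℕ} (τ : Equiv.Perm (Fin N)) (u : Fin N) : τ (τ⁻¹ u) = u := τ.apply_symm_apply u

/-- the action of the permutations on the graphs -/
def as1_act {N : ℕ} (τ : Equiv.Perm (Fin N)) (G : SimpleGraph (Fin N)) : SimpleGraph (Fin N) where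
  Adj u v := G.Adj (τ⁻¹ u) (τ⁻¹ v)
  symm := by
    constructor
    intro u v h
    exact h.symm
  loopless := by
    constructor
    intro u h
    exact h.ne rfl

/-- PROOF. Perm (Fin N) acts on the type of the graphs with property Q: (τ • G).Adj u v iff G.Adj (τ⁻¹ u) (τ⁻¹ v) (G.comap τ⁻¹; Q is invariant as G and τ • G are
isomorphic, `SimpleGraph.Iso.comap`). The orbit relation is: there is an isomorphism (an isomorphism of graphs on Fin N is a permutation). τ • G = G iff
IsAut G τ. `MulAction.sum_card_fixedBy_eq_card_orbits_mul_card_group` (Burnside): the sum over τ of the number of fixed graphs (= cA N Q, the pairs (G, τ), sigma type) is the number of orbits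
times N! (`Fintype.card_perm`). The quotient by orbitRel and the Quot of the statement: `Quot.congr` / Nat.card_congr. -/
theorem classes_mul (N : ℕ) (Q : SimpleGraph (Fin N) → Prop) (hQ : IsoInv Q) :
    Nat.card (Quot (fun G H : {G : SimpleGraph (Fin N) // Q G} => Nonempty (SimpleGraph.Iso G.1 H.1))) *
      N.factorial = cA N Q := by
  have hiso : ∀ (τ : Equiv.Perm (Fin N)) (G : SimpleGraph (Fin N)), Nonempty (SimpleGraph.Iso G (as1_act τ G)) := by
    intro τ G
    refine ⟨⟨τ, ?_⟩⟩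
    intro u v
    change G.Adj (τ⁻¹ (τ u)) (τ⁻¹ (τ v)) ↔ G.Adj u v
    rw [as1_inv, as1_inv]
  let act : MulAction (Equiv.Perm (Fin N)) {G : SimpleGraph (Fin N) // Q G} :=
    { smul := fun τ G => ⟨as1_act τ G.1, hQ _ _ (hiso τ G.1) G.2⟩
      one_smul := by
        intro G
        apply Subtype.ext
        ext u v
        exact Iff.rfl
      mul_smul := by
        intro σ τ G
        apply Subtype.ext
        ext u v
        change G.1.Adj ((σ * τ)⁻¹ u) ((σ * τ)⁻¹ v) ↔ G.1.Adj (τ⁻¹ (σ⁻¹ u)) (τ⁻¹ (σ⁻¹ v))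
        rw [mul_inv_rev]
        exact Iff.rfl }
  have hfix : ∀ (τ : Equiv.Perm (Fin N)) (G : {G : SimpleGraph (Fin N) // Q G}), τ • G = G ↔ IsAut G.1 τ := by
    intro τ G
    constructor
    · intro h u v
      have h1 := congrArg (fun H : {G : SimpleGraph (Fin N) // Q G} => H.1.Adj (τ u) (τ v)) h
      change G.1.Adj (τ⁻¹ (τ u)) (τ⁻¹ (τ v)) = G.1.Adj (τ u) (τ v) at h1
      rw [as1_inv, as1_inv] at h1
      rw [h1]
    · intro h
      apply Subtype.ext
      ext u v
      change G.1.Adj (τ⁻¹ u) (τ⁻¹ v) ↔ G.1.Adj u v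
      have h1 := h (τ⁻¹ u) (τ⁻¹ v)
      rw [as1_inv', as1_inv'] at h1
      exact h1.symm
  have e1 := Nat.card_congr (MulAction.sigmaFixedByEquivOrbitsProdGroup (Equiv.Perm (Fin N))
    {G : SimpleGraph (Fin N) // Q G})
  rw [Nat.card_prod] at e1
  have e2 : Nat.card (Equiv.Perm (Fin N)) = N.factorial := by
    rw [Nat.card_eq_fintype_card, Fintype.card_perm, Fintype.card_fin]
  rw [e2] at e1
  have e3 : Nat.card (Quotient (MulAction.orbitRel (Equiv.Perm (Fin N)) {G : SimpleGraph (Fin N) // Q G})) =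
      Nat.card (Quot (fun G H : {G : SimpleGraph (Fin N) // Q G} => Nonempty (SimpleGraph.Iso G.1 H.1))) := by
    refine Nat.card_congr (Quot.congrRight ?_)
    intro G H
    change (MulAction.orbitRel (Equiv.Perm (Fin N)) {G : SimpleGraph (Fin N) // Q G}).r G H ↔ _
    constructor
    · rintro ⟨τ, hτ⟩
      obtain ⟨f⟩ := hiso τ H.1
      have h1 : as1_act τ H.1 = G.1 := congrArg Subtype.val hτ
      rw [h1] at f
      exact ⟨f.symm⟩
    · rintro ⟨f⟩
      refine ⟨f.symm.toEquiv, ?_⟩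
      apply Subtype.ext
      ext u v
      change H.1.Adj (f u) (f v) ↔ G.1.Adj u v
      exact f.map_rel_iff
  rw [← e3, ← e1]
  unfold cA
  refine Nat.card_congr ⟨fun p => ⟨(p.2.1.1, p.1), p.2.1.2, (hfix _ _).1 p.2.2⟩,
    fun p => ⟨p.1.2, ⟨⟨p.1.1, p.2.1⟩, (hfix _ _).2 p.2.2⟩⟩, ?_, ?_⟩
  · rintro ⟨τ, ⟨G, hG⟩, h⟩
    rfl
  · rintro ⟨⟨G, τ⟩, h⟩
    rfl

end Pool.Agent.H38H
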