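import Pool.Agent.Lib.H38H.AS0

/-!
H38H, chunk AS5 (S/M): eIn counts half of the ordered adjacent pairs. Pure Mathlib.
-/

set_option autoImplicit false

namespace Pool.Agent.H38H

open Classical

/-- PROOF. The map (u,v) ↦ s(u,v) from the ordered adjacent pairs in W to the edges in W is two to one (u ≠ v). For instance induction on W: both sides grow by
2 * (the number of neighbours of the new vertex in W); or `Finset.sum_card_bipartiteAbove_eq_sum_card_bipartiteBelow`, or the degree sum formula `SimpleGraph.sum_degrees_eq_twice_card_edges`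
for the induced graph. -/
theorem two_eIn {V : Type} (G : SimpleGraph V) (W : Finset V) :
    2 * eIn G W = ((W ×ˢ W).filter (fun p => G.Adj p.1 p.2)).card := by
  have h1 := Finset.card_eq_sum_card_fiberwise (s := (W ×ˢ W).filter (fun p => G.Adj p.1 p.2))
    (t := W.sym2.filter (fun e => e ∈ G.edgeSet)) (f := fun p => s(p.1, p.2)) (by
      rintro ⟨u, v⟩ hp
      have hp' := Finset.mem_filter.1 hp
      have hp2 := Finset.mem_product.1 hp'.1
      refine Finset.mem_coe.2 (Finset.mem_filter.2 ⟨?_, hp'.2⟩)
      rw [Finset.mk_mem_sym2_iff]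
      exact hp2)
  rw [h1]
  have h2 : ∀ e ∈ W.sym2.filter (fun e => e ∈ G.edgeSet),
      (((W ×ˢ W).filter (fun p => G.Adj p.1 p.2)).filter (fun p => s(p.1, p.2) = e)).card = 2 := by
    intro e he
    induction e using Sym2.ind with
    | _ u v =>
      obtain ⟨h3, h4⟩ := Finset.mem_filter.1 he
      rw [Finset.mk_mem_sym2_iff] at h3
      have h5 : G.Adj u v := h4
      have h6 : (((W ×ˢ W).filter (fun p => G.Adj p.1 p.2)).filter (fun p => s(p.1, p.2) = s(u, v))) =
          {(u, v), (v, u)} := by
        ext ⟨a, b⟩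
        simp only [Finset.mem_filter, Finset.mem_product, Finset.mem_insert, Finset.mem_singleton,
          Prod.mk.injEq, Sym2.eq_iff]
        constructor
        · rintro ⟨_, h | h⟩
          · exact Or.inl h
          · exact Or.inr h
        · rintro (⟨rfl, rfl⟩ | ⟨rfl, rfl⟩)
          · exact ⟨⟨h3, h5⟩, Or.inl ⟨rfl, rfl⟩⟩
          · exact ⟨⟨⟨h3.2, h3.1⟩, h5.symm⟩, Or.inr ⟨rfl, rfl⟩⟩
      rw [h6, Finset.card_pair]
      intro h
      exact h5.ne (Prod.mk.inj h).1
  rw [Finset.sum_congr rfl h2, Finset.sum_const, smul_eq_mul, mul_comm]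
  rfl

theorem as5_pairs {V : Type} (G : SimpleGraph V) (W Z : Finset V) :
    ((W ×ˢ Z).filter (fun p => G.Adj p.1 p.2)).card = ∑ v ∈ W, (Z.filter (fun w => G.Adj v w)).card := by
  rw [Finset.card_filter, Finset.sum_product]
  refine Finset.sum_congr rfl fun v _ => ?_
  rw [Finset.card_filter]

/-- PROOF. two_eIn: the ordered adjacent pairs in U' which are not both in U are the (v,w) with v ∈ U' \ U, w ∈ U' and those with v ∈ U, w ∈ U' \ U. -/
theorem two_eIn_sub {V : Type} (G : SimpleGraph V) {U U' : Finset V} (h : U ⊆ U') :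
    2 * eIn G U' = 2 * eIn G U + (∑ v ∈ U' \ U, (U'.filter (fun w => G.Adj v w)).card) +
      ((U ×ˢ (U' \ U)).filter (fun p => G.Adj p.1 p.2)).card := by
  rw [two_eIn, two_eIn, as5_pairs, as5_pairs, as5_pairs, ← Finset.sum_sdiff h, add_right_comm, add_comm]
  congr 1
  rw [← Finset.sum_add_distrib]
  refine Finset.sum_congr rfl fun v _ => ?_
  rw [← Finset.card_union_of_disjoint]
  · congr 1
    rw [← Finset.filter_union, Finset.union_sdiff_of_subset h]
  · exact Finset.disjoint_filter_filter Finset.disjoint_sdiff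

end Pool.Agent.H38H
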