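import Pool.Agent.Lib.H38H.PR0

/-!
H38H, chunk PR3 (M): every cubic graph has exactly 6^N pairings. Pure Mathlib.
-/

set_option autoImplicit false

namespace Pool.Agent.H38H

open Classical

variable {V : Type}

theorem pr3_finite {G : SimpleGraph V} (hG : Cubic G) (u : V) : Finite (G.neighborSet u) := by
  apply Set.Finite.to_subtype
  apply Set.finite_of_ncard_ne_zero
  rw [hG u]
  norm_num

theorem pr3_card {G : SimpleGraph V} (hG : Cubic G) (u : V) : Nat.card (G.neighborSet u) = 3 := hG u

theorem pr3_bij {G : SimpleGraph V} (hG : Cubic G) {R : PM (V × Fin 3)} (h : Over G R) (u : V) :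
    Function.Bijective (fun i : Fin 3 => (⟨(R.1 (u, i)).1, h.1 (u, i)⟩ : G.neighborSet u)) := by
  have := pr3_finite hG u
  rw [Nat.bijective_iff_injective_and_card]
  refine ⟨?_, ?_⟩
  · intro i j hij
    have h1 := h.2 (u, i) (u, j) rfl (congrArg Subtype.val hij)
    exact congrArg Prod.snd h1
  · rw [pr3_card hG, Nat.card_eq_fintype_card, Fintype.card_fin]

/-- PROOF. i ↦ (R (u,i)).1 is an injective map from Fin 3 to the neighbours of u (three elements), so it is onto
(Set.ncard, `Set.eq_of_subset_of_ncard_le` for the range, or `Finite.injective_iff_surjective_of_equiv`). -/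
theorem over_adj {G : SimpleGraph V} (hG : Cubic G) {R : PM (V × Fin 3)} (h : Over G R) (u v : V) :
    G.Adj u v ↔ ∃ i : Fin 3, (R.1 (u, i)).1 = v := by
  constructor
  · intro huv
    obtain ⟨i, hi⟩ := (pr3_bij hG h u).2 ⟨v, huv⟩
    exact ⟨i, congrArg Subtype.val hi⟩
  · rintro ⟨i, rfl⟩
    exact h.1 (u, i)

theorem over_unique {G H : SimpleGraph V} (hG : Cubic G) (hH : Cubic H) {R : PM (V × Fin 3)}
    (h : Over G R) (h' : Over H R) : G = H := by
  ext u v
  rw [over_adj hG h, over_adj hH h']

/-- PROOF. G.Adj u v iff (∃ i, (R (u,i)).1 = v); symmetric since R is an involution; no loops by the first half of Simple; the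
neighbour set of u is the range of the injective map i ↦ (R (u,i)).1, of cardinality 3. -/
theorem exists_over {R : PM (V × Fin 3)} (h : Simple R) : ∃ G : SimpleGraph V, Cubic G ∧ Over G R := by
  let G : SimpleGraph V :=
    { Adj := fun u v => ∃ i : Fin 3, (R.1 (u, i)).1 = v
      symm := by
        constructor
        rintro u v ⟨i, rfl⟩
        refine ⟨(R.1 (u, i)).2, ?_⟩
        have h1 : R.1 ((R.1 (u, i)).1, (R.1 (u, i)).2) = (u, i) := R.2.1 (u, i)
        rw [h1]
      loopless := by
        constructor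
        rintro u ⟨i, hi⟩
        exact h.1 (u, i) hi.symm }
  refine ⟨G, ?_, fun p => ⟨p.2, rfl⟩, h.2⟩
  intro u
  have h1 : G.neighborSet u = Set.range fun i : Fin 3 => (R.1 (u, i)).1 := rfl
  have hinj : Function.Injective (fun i : Fin 3 => (R.1 (u, i)).1) := by
    intro i j hij
    exact congrArg Prod.snd (h.2 (u, i) (u, j) rfl hij)
  rw [h1, ← Nat.card_coe_set_eq, ← Nat.card_congr (Equiv.ofInjective _ hinj),
    Nat.card_eq_fintype_card, Fintype.card_fin]

theorem Over.simple {G : SimpleGraph V} {R : PM (V × Fin 3)} (h : Over G R) : Simple R :=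
  ⟨fun p => (h.1 p).ne, h.2⟩

/-- PROOF. Equivalence of {R // Over G R} with the type of families (σ_v), σ_v : Fin 3 ≃ G.neighborSet v: R ↦ (i ↦ (R (v,i)).1) (over_adj), and σ ↦ R (v,i) =
(u, σ_u⁻¹ v) for u = σ_v i; this is a fixed point free involution: R (u, σ_u⁻¹ v) = (v, σ_v⁻¹ u) = (v, i). The number of bijections
Fin 3 ≃ G.neighborSet v is 3! = 6 (`Fintype.card_equiv`, `Set.ncard`), Nat.card_pi. -/
theorem card_over [Fintype V] {G : SimpleGraph V} (hG : Cubic G) :
    Nat.card {R : PM (V × Fin 3) // Over G R} = 6 ^ Fintype.card V := by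
  let Φ : {R : PM (V × Fin 3) // Over G R} → ∀ v : V, Fin 3 ≃ G.neighborSet v := fun R v =>
    Equiv.ofBijective _ (pr3_bij hG R.2 v)
  have hΦ : Function.Bijective Φ := by
    constructor
    · rintro ⟨R, hR⟩ ⟨S, hS⟩ hRS
      have h1 : ∀ p : V × Fin 3, (R.1 p).1 = (S.1 p).1 := by
        rintro ⟨v, i⟩
        exact congrArg (fun σ : ∀ v : V, Fin 3 ≃ G.neighborSet v => ((σ v i : G.neighborSet v) : V)) hRS
      apply Subtype.ext
      apply Subtype.ext
      apply Equiv.ext
      intro p
      apply hR.2 _ _ (h1 p)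
      rw [R.2.1 p, h1 (S.1 p), S.2.1 p]
    · intro σ
      have hadj : ∀ p : V × Fin 3, G.Adj (σ p.1 p.2 : V) p.1 := fun p => (σ p.1 p.2).2.symm
      let g : V × Fin 3 → V × Fin 3 := fun p =>
        ((σ p.1 p.2 : V), (σ (σ p.1 p.2 : V)).symm ⟨p.1, hadj p⟩)
      have hgg : Function.Involutive g := by
        rintro ⟨v, i⟩
        have h1 : (σ (g (v, i)).1 (g (v, i)).2 : V) = v := by
          change ((σ (σ v i : V)) ((σ (σ v i : V)).symm ⟨v, hadj (v, i)⟩) : V) = v
          rw [Equiv.apply_symm_apply]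
        apply Prod.ext
        · exact h1
        · change (σ (σ (g (v, i)).1 (g (v, i)).2 : V)).symm ⟨(g (v, i)).1, hadj (g (v, i))⟩ = i
          have h2 : ∀ (w : V) (hw : w = v) (ha : G.Adj w (g (v, i)).1),
              (σ w).symm ⟨(g (v, i)).1, ha⟩ = i := by
            rintro w rfl ha
            rw [Equiv.symm_apply_eq]
          exact h2 _ h1 _
      have hgx : ∀ p, g p ≠ p := by
        intro p hp
        have h1 := hadj p
        have h2 : (σ p.1 p.2 : V) = p.1 := congrArg Prod.fst hp
        rw [h2] at h1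
        exact G.loopless.irrefl _ h1
      refine ⟨⟨⟨hgg.toPerm g, hgg, hgx⟩, fun p => (hadj p).symm, ?_⟩, ?_⟩
      · rintro ⟨v, i⟩ ⟨w, j⟩ hvw hij
        have hvw' : v = w := hvw
        subst hvw'
        have h1 : (σ v i : V) = (σ v j : V) := hij
        have h2 : i = j := (σ v).injective (Subtype.ext h1)
        rw [h2]
      · funext v
        apply Equiv.ext
        intro i
        rfl
  rw [Nat.card_eq_of_bijective Φ hΦ, Nat.card_pi]
  have h6 : ∀ v : V, Nat.card (Fin 3 ≃ G.neighborSet v) = 6 := by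
    intro v
    have := pr3_finite hG v
    have hf : Fintype (G.neighborSet v) := Fintype.ofFinite _
    have hc : Fintype.card (Fin 3) = Fintype.card (G.neighborSet v) := by
      rw [← Nat.card_eq_fintype_card (α := G.neighborSet v), pr3_card hG, Fintype.card_fin]
    rw [Nat.card_eq_fintype_card, Fintype.card_equiv (Fintype.equivOfCardEq hc), Fintype.card_fin]
    rfl
  rw [Finset.prod_congr rfl fun v _ => h6 v, Finset.prod_const, Finset.card_univ]

end Pool.Agent.H38H
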