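import Pool.Agent.Lib.H38H.PR2

/-!
H38H, chunk PR7 (S/M): the probabilities that a random perfect matching contains one or two given pairs (exact forms for module BR). Pure Mathlib.
-/

set_option autoImplicit false

namespace Pool.Agent.H38H

open Classical

/-- the number of perfect matchings of a set with `n` elements -/
def pm (n : ℕ) : ℕ := if Even n then Nat.doubleFactorial (n - 1) else 0

/-- PROOF. card_PM, card_PM_odd. -/
theorem card_PM' (α : Type) [Finite α] : Nat.card (PM α) = pm (Nat.card α) := by
  have := Fintype.ofFinite α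
  rw [Nat.card_eq_fintype_card (α := α)]
  unfold pm
  by_cases h : Even (Fintype.card α)
  · rw [if_pos h]
    exact card_PM α h
  · rw [if_neg h]
    exact card_PM_odd α h

theorem pr7_df (n : ℕ) (h : 2 ≤ n) (he : Even n) :
    Nat.doubleFactorial (n - 1) = (n - 1) * Nat.doubleFactorial (n - 2 - 1) := by
  obtain ⟨m, hm⟩ := he
  rcases Nat.eq_or_lt_of_le h with h2 | h2
  · rw [← h2]
    rfl
  · have e1 : n - 1 = (n - 2 - 1) + 2 := by omega
    conv_lhs => rw [e1]
    rw [Nat.doubleFactorial_add_two, ← e1]

theorem pr7_pm (n : ℕ) (h : 2 ≤ n) : (n - 1) * pm (n - 2) = pm n := by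
  unfold pm
  by_cases he : Even n
  · rw [if_pos he, if_pos, pr7_df n h he]
    obtain ⟨m, hm⟩ := he
    exact ⟨m - 1, by omega⟩
  · rw [if_neg he, if_neg, mul_zero]
    rintro ⟨m, hm⟩
    exact he ⟨m + 1, by omega⟩

theorem pr7_two (α : Type) [Fintype α] (a b : α) (h : a ≠ b) :
    2 ≤ Fintype.card α ∧ Fintype.card {x : α // x ≠ a ∧ x ≠ b} = Fintype.card α - 2 := by
  have h1 : ({a, b} : Finset α).card = 2 := Finset.card_pair h
  have h2 : ({a, b} : Finset α).card ≤ Fintype.card α := Finset.card_le_univ _
  refine ⟨by omega, ?_⟩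
  rw [Fintype.card_subtype, ← h1, ← Finset.card_compl]
  congr 1
  ext x
  simp

/-- PROOF. Odd cardinality: both sides are 0. Otherwise card_contains' with ξ = {s(a,b)} (R.1 a = b iff Contains R {s(a,b)}), card_PM, and
(n - 1)!! = (n - 1) (n - 3)!! for even n ≥ 2. (Or pm_fiber and card_PM'.) -/
theorem card_fix2 (α : Type) [Finite α] (a b : α) (h : a ≠ b) :
    (Nat.card α - 1) * Nat.card {R : PM α // R.1 a = b} = Nat.card (PM α) := by
  have := Fintype.ofFinite α
  obtain ⟨h2, h3⟩ := pr7_two α a b h
  rw [pm_fiber a b h, card_PM', card_PM', Nat.card_eq_fintype_card, Nat.card_eq_fintype_card, h3]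
  exact pr7_pm _ h2

/-- PROOF. The same with ξ = {s(a,b), s(c,d)}, (n - 1)!! = (n - 1) (n - 3) (n - 5)!! for even n ≥ 4. -/
theorem card_fix4 (α : Type) [Finite α] (a b c d : α) (hab : a ≠ b) (hac : a ≠ c) (had : a ≠ d)
    (hbc : b ≠ c) (hbd : b ≠ d) (hcd : c ≠ d) :
    (Nat.card α - 1) * (Nat.card α - 3) * Nat.card {R : PM α // R.1 a = b ∧ R.1 c = d} =
      Nat.card (PM α) := by
  have := Fintype.ofFinite α
  obtain ⟨h2, h3⟩ := pr7_two α a b hab
  have hm : Marks ({s(a, b), s(c, d)} : Finset (Sym2 α)) := by
    refine ⟨?_, ?_⟩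
    · intro e he
      simp only [Finset.mem_insert, Finset.mem_singleton] at he
      rcases he with rfl | rfl
      · exact hab
      · exact hcd
    · intro e he f hf hef v hv hv'
      simp only [Finset.mem_insert, Finset.mem_singleton] at he hf
      rcases he with rfl | rfl <;> rcases hf with rfl | rfl
      · exact hef rfl
      · rw [Sym2.mem_iff] at hv hv'
        rcases hv with rfl | rfl <;> rcases hv' with rfl | rfl
        · exact hac rfl
        · exact had rfl
        · exact hbc rfl
        · exact hbd rfl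
      · rw [Sym2.mem_iff] at hv hv'
        rcases hv with rfl | rfl <;> rcases hv' with rfl | rfl
        · exact hac rfl
        · exact hbc rfl
        · exact had rfl
        · exact hbd rfl
      · exact hef rfl
  have hne : s(a, b) ≠ s(c, d) := by
    intro h
    rw [Sym2.eq_iff] at h
    rcases h with ⟨h, -⟩ | ⟨h, -⟩
    · exact hac h
    · exact had h
  have hc : ({s(a, b), s(c, d)} : Finset (Sym2 α)).card = 2 := Finset.card_pair hne
  have h4 := card_compl hm
  rw [hc] at h4
  by_cases he : Even (Fintype.card α)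
  · have h5 : Nat.card {R : PM α // R.1 a = b ∧ R.1 c = d} =
        Nat.card {R : PM α // Contains R ({s(a, b), s(c, d)} : Finset (Sym2 α))} := by
      refine Nat.card_congr (Equiv.subtypeEquivRight fun R => ?_)
      constructor
      · rintro ⟨h6, h7⟩ p q hpq
        simp only [Finset.mem_insert, Finset.mem_singleton, Sym2.eq_iff] at hpq
        rcases hpq with (⟨rfl, rfl⟩ | ⟨rfl, rfl⟩) | (⟨rfl, rfl⟩ | ⟨rfl, rfl⟩)
        · exact h6
        · rw [← h6]
          exact R.2.1 _
        · exact h7
        · rw [← h7]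
          exact R.2.1 _
      · intro h6
        exact ⟨h6 a b (by simp), h6 c d (by simp)⟩
    rw [h5, card_contains' he hm, hc, card_PM', Nat.card_eq_fintype_card]
    unfold pm
    rw [if_pos he, pr7_df _ h2 he, pr7_df (Fintype.card α - 2)]
    · have e1 : Fintype.card α - 2 - 1 = Fintype.card α - 3 := by omega
      have e2 : Fintype.card α - 2 - 2 - 1 = Fintype.card α - 2 * 2 - 1 := by omega
      rw [e1, e2, mul_assoc]
    · omega
    · obtain ⟨m, hm⟩ := he
      exact ⟨m - 1, by omega⟩
  · have h6 := card_PM_odd α he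
    have h7 : IsEmpty (PM α) := by
      rcases Nat.card_eq_zero.1 h6 with h8 | h8
      · exact h8
      · exact absurd h8 (not_infinite_iff_finite.2 inferInstance)
    have h8 : Nat.card {R : PM α // R.1 a = b ∧ R.1 c = d} = 0 := by
      rw [Nat.card_eq_zero]
      left
      exact ⟨fun x => h7.elim x.1⟩
    rw [h6, h8, mul_zero]

end Pool.Agent.H38H
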