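import Mathlib

/-!
Project H38H (MP_35f824_co, frozen S08079): almost all non-Hamiltonian cubic graphs have a bridge.
Definitions and the exact statements of all layers; see PROOF.md in this directory.
-/

set_option autoImplicit false

namespace Pool.Agent.H38H

open Classical

/-- number of pairings of the `3N` points, divided by `6^N` -/
noncomputable def X (N : ℕ) : ℝ := (Nat.doubleFactorial (3 * N - 1) : ℝ) / 6 ^ N

/-- simple cubic graphs -/
def Cubic {V : Type} (G : SimpleGraph V) : Prop := ∀ v, (G.neighborSet v).ncard = 3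

/-- number of edges of `G` inside `W` -/
noncomputable def eIn {V : Type} (G : SimpleGraph V) (W : Finset V) : ℕ :=
  (W.sym2.filter (fun e => e ∈ G.edgeSet)).card

/-- number of marks inside `W` -/
noncomputable def mIn {V : Type} (E : Finset (Sym2 V)) (W : Finset V) : ℕ :=
  (E.filter (fun e => e ∈ W.sym2)).card

/-- a set of marks: pairwise disjoint pairs -/
def Marks {V : Type} (E : Finset (Sym2 V)) : Prop :=
  (∀ e ∈ E, ¬ e.IsDiag) ∧ ∀ e ∈ E, ∀ f ∈ E, e ≠ f → ∀ v, v ∈ e → v ∉ f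

/-- every small set of vertices spans few edges and marks -/
def Nice {V : Type} (κ : ℕ) (G : SimpleGraph V) (E : Finset (Sym2 V)) : Prop :=
  ∀ W : Finset V, W.card ≤ κ → eIn G W + mIn E W ≤ W.card

/-- there is a Hamilton cycle through all marks (as a connected 2-regular spanning subgraph) -/
def HC {V : Type} (G : SimpleGraph V) (E : Finset (Sym2 V)) : Prop :=
  ∃ S : SimpleGraph V, S ≤ G ∧ (∀ v, (S.neighborSet v).ncard = 2) ∧ S.Connected ∧
    ∀ e ∈ E, e ∈ S.edgeSet

/-! ### Layer 1 -/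

/-- Theorem H of PROOF.md -/
def TheoremH : Prop :=
  ∀ A : ℕ, ∃ κ : ℕ, ∀ m₀ : ℕ, ∃ C : ℝ, ∃ N₀ : ℕ, ∀ N : ℕ, N₀ ≤ N → Even N →
    ∀ (V : Type) [Fintype V], Fintype.card V = N →
    ∀ E : Finset (Sym2 V), Marks E → E.card ≤ m₀ →
      (Nat.card {G : SimpleGraph V // Cubic G ∧ (∀ e ∈ E, e ∈ G.edgeSet) ∧ Nice κ G E ∧ ¬ HC G E} : ℝ)
        ≤ (C / N) ^ E.card * X N / (N : ℝ) ^ A

/-- connected, bridgeless, non-Hamiltonian cubic graphs -/
def Bad {V : Type} [Fintype V] [DecidableEq V] (G : SimpleGraph V) : Prop :=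
  Cubic G ∧ G.Connected ∧ ¬ G.IsHamiltonian ∧ ∀ e, ¬ G.IsBridge e

/-- (1b) -/
def FewBad : Prop :=
  ∃ C : ℝ, ∃ N₀ : ℕ, ∀ N : ℕ, N₀ ≤ N → Even N →
    (Nat.card {G : SimpleGraph (Fin N) // Bad G} : ℝ) ≤ C * X N / (N : ℝ) ^ 3

/-- (1a) -/
def ManyBridged : Prop :=
  ∃ c : ℝ, 0 < c ∧ ∃ N₀ : ℕ, ∀ N : ℕ, N₀ ≤ N → Even N →
    c * X N / (N : ℝ) ^ 2 ≤
      (Nat.card {G : SimpleGraph (Fin N) // Cubic G ∧ G.Connected ∧ ∃ e, G.IsBridge e} : ℝ)

/-- `τ` is an automorphism of `G` -/
def IsAut {V : Type} (G : SimpleGraph V) (τ : Equiv.Perm V) : Prop :=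
  ∀ u v, G.Adj (τ u) (τ v) ↔ G.Adj u v

/-- (1c) -/
def FewAut : Prop :=
  ∃ C : ℝ, ∃ N₀ : ℕ, ∀ N : ℕ, N₀ ≤ N → Even N →
    (Nat.card {p : SimpleGraph (Fin N) × Equiv.Perm (Fin N) //
        Cubic p.1 ∧ IsAut p.1 p.2 ∧ 5 ≤ p.2.support.card} : ℝ) ≤ C * X N / ((N : ℝ) ^ 2 * Real.sqrt N)

/-- (2), first moment: few cubic graphs have a small set of vertices with excess at least `j` -/
def FirstMoment : Prop :=
  ∀ k j : ℕ, ∃ C : ℝ, ∃ N₀ : ℕ, ∀ N : ℕ, N₀ ≤ N → Even N →
    (Nat.card {G : SimpleGraph (Fin N) // Cubic G ∧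
        ∃ W : Finset (Fin N), W.card ≤ k ∧ W.card + j ≤ eIn G W} : ℝ) ≤ C * X N / (N : ℝ) ^ j

/-- (1d), second part -/
def FirstMomentAut : Prop :=
  ∀ k : ℕ, ∃ C : ℝ, ∃ N₀ : ℕ, ∀ N : ℕ, N₀ ≤ N → Even N →
    (Nat.card {p : SimpleGraph (Fin N) × Equiv.Perm (Fin N) //
        Cubic p.1 ∧ IsAut p.1 p.2 ∧ p.2.support.card ≤ 4 ∧
        ∃ W : Finset (Fin N), W.card ≤ k ∧ W.card + 3 ≤ eIn p.1 W} : ℝ) ≤ C * X N / (N : ℝ) ^ 3

/-- (1d), first part -/
def FewSmallAut : Prop :=
  ∀ (N : ℕ) (G : SimpleGraph (Fin N)), Cubic G →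
    (∀ W : Finset (Fin N), W.card ≤ 30 → eIn G W ≤ W.card + 2) →
    Nat.card {τ : Equiv.Perm (Fin N) // IsAut G τ ∧ τ.support.card ≤ 4} ≤ Nat.factorial 20 + 1

/-! ### Layer 2 -/

/-- vertices in 2-cycles of `π` -/
def IsD {V : Type} (π : Equiv.Perm V) (v : V) : Prop := π (π v) = v

/-- ports: two at a dimer vertex, one at the other vertices -/
def Port {V : Type} (π : Equiv.Perm V) : Type := {q : V × Bool // q.2 = true → IsD π q.1}

noncomputable instance {V : Type} [Fintype V] (π : Equiv.Perm V) : Fintype (Port π) := by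
  unfold Port; infer_instance

/-- perfect matchings of a type -/
def PM (α : Type) : Type := {f : Equiv.Perm α // (∀ x, f (f x) = x) ∧ ∀ x, f x ≠ x}

/-- the graph given by `π` and a perfect matching of the ports -/
def Gr {V : Type} (π : Equiv.Perm V) (R : PM (Port π)) : SimpleGraph V where
  Adj u v := u ≠ v ∧ (π u = v ∨ π v = u ∨ ∃ p : Port π, p.1.1 = u ∧ (R.1 p).1.1 = v)
  symm := by
    constructor
    rintro u v ⟨h, h2⟩
    refine ⟨h.symm, ?_⟩
    rcases h2 with h2 | h2 | ⟨p, hp, hq⟩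
    · exact Or.inr (Or.inl h2)
    · exact Or.inl h2
    · exact Or.inr (Or.inr ⟨R.1 p, hq, by rw [R.2.1 p]; exact hp⟩)
  loopless := by
    constructor
    intro v h
    exact h.1 rfl

/-- number of cycles of length at least 3 -/
def longCycles {V : Type} [Fintype V] [DecidableEq V] (π : Equiv.Perm V) : ℕ :=
  (π.cycleType.filter (fun l => 3 ≤ l)).card

/-- `ξ` is a set of pairs of ports realising the marks that are not edges of `π` -/
def Realises {V : Type} (π : Equiv.Perm V) (E : Finset (Sym2 V)) (ξ : Finset (Sym2 (Port π))) : Prop :=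
  Marks ξ ∧ (∀ e ∈ E, (∃ v, e = s(v, π v)) ∨ ∃ p q : Port π, s(p, q) ∈ ξ ∧ e = s(p.1.1, q.1.1)) ∧
    ∀ p q : Port π, s(p, q) ∈ ξ → s(p.1.1, q.1.1) ∈ E ∧ ∀ v, s(p.1.1, q.1.1) ≠ s(v, π v)

/-- the matching `R` contains the pairs in `ξ` -/
def Contains {α : Type} (R : PM α) (ξ : Finset (Sym2 α)) : Prop := ∀ p q, s(p, q) ∈ ξ → R.1 p = q

/-- Proposition P of PROOF.md -/
def PropP : Prop :=
  ∀ A : ℕ, ∃ κ : ℕ, ∀ m₀ : ℕ, ∃ N₀ : ℕ, ∀ N : ℕ, N₀ ≤ N → Even N →
    ∀ (V : Type) [Fintype V] [DecidableEq V], Fintype.card V = N →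
    ∀ π : Equiv.Perm V, (∀ v, π v ≠ v) → (longCycles π : ℝ) ≤ 10 * A * Real.log N →
    ∀ E : Finset (Sym2 V), Marks E → E.card ≤ m₀ →
    ∀ ξ : Finset (Sym2 (Port π)), Realises π E ξ →
      (Nat.card {R : PM (Port π) // Contains R ξ ∧ Cubic (Gr π R) ∧ Nice κ (Gr π R) E ∧
          ¬ HC (Gr π R) E} : ℝ) ≤
        (Nat.card {R : PM (Port π) // Contains R ξ} : ℝ) / (N : ℝ) ^ A

/-! ### Layer 3 -/

/-- kinds of links -/
inductive Kind where
  | c : Kind
  | d : Kind
  | b : Kind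

/-- the other position of the same slot (the other half of the same link) -/
def flip {ι : Type} (x : ι × Bool) : ι × Bool := (x.1, !x.2)

/-- instances: `ι` indexes both the slots and the links; `ι × Bool` are the positions and the halves -/
structure Inst (ι : Type) [Fintype ι] (L : ℕ) where
  /-- outer partner of a position; `none` at an end -/
  outer : ι × Bool → Option (ι × Bool)
  outer_symm : ∀ x y, outer x = some y → outer y = some x
  outer_ne : ∀ x, outer x ≠ some x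
  /-- kinds of links -/
  kind : ι → Kind
  /-- partner of a half of a c-link -/
  Mc : ι × Bool → Option (ι × Bool)
  Mc_symm : ∀ x y, Mc x = some y → Mc y = some x
  Mc_kind : ∀ x y, Mc x = some y → kind x.1 = Kind.c ∧ x.1 ≠ y.1
  /-- partner of a d-link -/
  Md : ι → Option ι
  Md_symm : ∀ a b, Md a = some b → Md b = some a
  Md_kind : ∀ a b, Md a = some b → kind a = Kind.d ∧ a ≠ b
  special_le : (Finset.univ.filter (fun a : ι => kind a = Kind.b ∨
    (kind a = Kind.c ∧ (Mc (a, false) = none ∨ Mc (a, true) = none)) ∨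
    (kind a = Kind.d ∧ Md a = none))).card ≤ L
  /-- the graph `F` (mid and outer edges) has at most `L` components -/
  comps_le : ∃ T : Finset (ι × Bool), T.card ≤ L ∧
    ∀ x, ∃ t ∈ T, Relation.ReflTransGen (fun a b => b = flip a ∨ outer a = some b) t x
  /-- few halves on short closed orbits of `flip ∘ Mc` -/
  orbits_le : ∀ m : ℕ, (Finset.univ.filter (fun x : ι × Bool => ∃ k, 1 ≤ k ∧ k ≤ m ∧
    ((fun o : Option (ι × Bool) => o.bind (fun y => (Mc y).map flip))^[k]) (some x) = some x)).card ≤ L * m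

/-- signed bijections from positions to halves -/
abbrev SB (ι : Type) : Type := Equiv.Perm ι × (ι → Bool)

/-- the half at a position -/
def ap {ι : Type} (h : SB ι) (x : ι × Bool) : ι × Bool := (h.1 x.1, xor x.2 (h.2 x.1))

/-- the position of a half -/
def pa {ι : Type} (h : SB ι) (y : ι × Bool) : ι × Bool := (h.1.symm y.1, xor y.2 (h.2 (h.1.symm y.1)))

section inst
variable {ι : Type} [Fintype ι] {L : ℕ}

/-- adjacency in `F` -/
def Inst.FAdj (I : Inst ι L) (a b : ι × Bool) : Prop := b = flip a ∨ I.outer a = some b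

/-- same component of `F` -/
def Inst.SameF (I : Inst ι L) (a b : ι × Bool) : Prop := Relation.ReflTransGen I.FAdj a b

/-- one step from the end `x` with the bit `β`: the position `w` of the partner and the new end -/
def Inst.step (I : Inst ι L) (h : SB ι) (x : ι × Bool) (β : Bool) : Option ((ι × Bool) × (ι × Bool)) :=
  match I.kind (ap h x).1 with
  | Kind.c => (I.Mc (ap h x)).bind fun y =>
      if β then some (pa h y, flip (pa h y)) else (I.outer (pa h y)).map fun x' => (pa h y, x')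
  | Kind.d => (I.Md (ap h x).1).bind fun l =>
      (I.outer (pa h (l, β))).map fun x' => (pa h (l, β), x')
  | Kind.b => none

/-- the pair (position of the last partner, end) after the steps given by a list of bits -/
def Inst.node (I : Inst ι L) (h : SB ι) (x : ι × Bool) : List Bool → Option ((ι × Bool) × (ι × Bool))
  | [] => some (x, x)
  | β :: l => (Inst.node I h x l).bind fun p => I.step h p.2 β

/-- `x` lies on a component of `F` without ends and with at most `K` slots -/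
def Inst.Tiny (I : Inst ι L) (K : ℕ) (x : ι × Bool) : Prop :=
  (∀ y, I.SameF x y → I.outer y ≠ none) ∧ Nat.card {y // I.SameF x y} ≤ 2 * K

/-- `T` contains exactly one position of every tiny cycle and nothing else -/
def Inst.ValidT (I : Inst ι L) (K : ℕ) (T : Finset (ι × Bool)) : Prop :=
  (∀ x ∈ T, I.Tiny K x) ∧ ∀ z, I.Tiny K z → ∃! x, x ∈ T ∧ I.SameF x z

/-- roots: the ends, the elements of `T` and their outer partners -/
def Inst.Root (I : Inst ι L) (T : Finset (ι × Bool)) (x : ι × Bool) : Prop :=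
  I.outer x = none ∨ x ∈ T ∨ ∃ y ∈ T, I.outer y = some x

/-- root condition `RC(r,K)`; the lists of bits have the last step first -/
structure Inst.RC (I : Inst ι L) (h : SB ι) (r K : ℕ) (T : Finset (ι × Bool)) : Prop where
  ok : ∀ x, I.Root T x → ∀ l : List Bool, l.length ≤ r → (I.node h x l).isSome
  ends : ∀ x y, I.Root T x → I.Root T y → ∀ l m : List Bool, l.length ≤ r → m.length ≤ r →
    ∀ p q, I.node h x l = some p → I.node h y m = some q → p.2.1 = q.2.1 → x = y ∧ l = m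
  targets : ∀ x y, I.Root T x → I.Root T y → ∀ (b c : Bool) (l m : List Bool), l.length < r → m.length < r →
    ∀ p q, I.node h x (b :: l) = some p → I.node h y (c :: m) = some q → p.1.1 = q.1.1 → x = y ∧ l = m
  mixed : ∀ x y, I.Root T x → I.Root T y → ∀ (c : Bool) (l m : List Bool), l.length ≤ r → m.length < r →
    ∀ p q, I.node h x l = some p → I.node h y (c :: m) = some q → p.2.1 = q.1.1 →
      x = y ∧ p.2 = flip p.1 ∧ ∃ b, l = b :: m
  noTiny : ∀ x, I.Root T x → ∀ (b : Bool) (l : List Bool), l.length < r →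
    ∀ p, I.node h x (b :: l) = some p → ¬ I.Tiny K p.1 ∧ ¬ I.Tiny K p.2

/-- adjacency of positions, given the content -/
def Inst.PAdj (I : Inst ι L) (h : SB ι) (x y : ι × Bool) : Prop :=
  y = flip x ∨ I.outer x = some y ∨ I.Mc (ap h x) = some (ap h y) ∨ I.Md (ap h x).1 = some (ap h y).1

/-- Hamilton cycle of the positions, using the mid edges at the slots with d- and b-links -/
def Inst.HAM (I : Inst ι L) (h : SB ι) : Prop :=
  ∃ S : SimpleGraph (ι × Bool), (∀ x, (S.neighborSet x).ncard = 2) ∧ S.Connected ∧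
    (∀ x y, S.Adj x y → I.PAdj h x y) ∧ ∀ x, I.kind (ap h x).1 ≠ Kind.c → S.Adj x (flip x)

end inst

/-- the Slot Theorem of PROOF.md -/
def SlotTheorem : Prop :=
  ∀ A : ℕ, ∃ r K n₀ : ℕ, ∀ n : ℕ, n₀ ≤ n → ∀ L : ℕ, (L : ℝ) ≤ (Real.log n) ^ 3 →
    ∀ (ι : Type) [Fintype ι], Fintype.card ι = n → ∀ I : Inst ι L,
      (Nat.card {h : SB ι // (∀ T, I.ValidT K T → I.RC h r K T) ∧ ¬ I.HAM h} : ℝ) ≤
        (Nat.card (SB ι) : ℝ) / (n : ℝ) ^ A

end Pool.Agent.H38H
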