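import Pool.Agent.Lib.H38H.PR3

/-!
H38H, chunk PR4 (S): counting cubic graphs by pairings.
-/

set_option autoImplicit false

namespace Pool.Agent.H38H

open Classical

variable {V : Type}

theorem pr4_finite [Fintype V] : Finite (PM (V × Fin 3)) := by
  unfold PM
  infer_instance

/-- PROOF. The right side is in bijection with the sigma type of G and {R // Over G R} (over_unique: the graph is determined by R); card_over. -/
theorem card_cubic [Fintype V] (Q : SimpleGraph V → Prop) :
    Nat.card {G : SimpleGraph V // Cubic G ∧ Q G} * 6 ^ Fintype.card V =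
      Nat.card {R : PM (V × Fin 3) // ∃ G : SimpleGraph V, Cubic G ∧ Q G ∧ Over G R} := by
  have hfin : Finite (PM (V × Fin 3)) := pr4_finite
  have e : (Σ a : {G : SimpleGraph V // Cubic G ∧ Q G}, {R : PM (V × Fin 3) // Over a.1 R}) ≃
      {R : PM (V × Fin 3) // ∃ G : SimpleGraph V, Cubic G ∧ Q G ∧ Over G R} := by
    refine Equiv.ofBijective
      (fun x => ⟨x.2.1, x.1.1, x.1.2.1, x.1.2.2, x.2.2⟩) ⟨?_, ?_⟩
    · rintro ⟨⟨G, hG⟩, ⟨R, hR⟩⟩ ⟨⟨H, hH⟩, ⟨S, hS⟩⟩ h
      have h1 : R = S := congrArg Subtype.val h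
      subst h1
      have h2 : G = H := over_unique hG.1 hH.1 hR hS
      subst h2
      rfl
    · rintro ⟨R, G, hG, hQ, hR⟩
      exact ⟨⟨⟨G, hG, hQ⟩, ⟨R, hR⟩⟩, rfl⟩
  have hA : Finite {G : SimpleGraph V // Cubic G ∧ Q G} := inferInstance
  have hft : Fintype {G : SimpleGraph V // Cubic G ∧ Q G} := Fintype.ofFinite _
  rw [← Nat.card_congr e, Nat.card_sigma,
    Finset.sum_congr rfl (fun a _ => card_over a.2.1), Finset.sum_const, smul_eq_mul,
    Finset.card_univ, Nat.card_eq_fintype_card]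

end Pool.Agent.H38H
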