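import Pool.Agent.Lib.H38H.CLDefs

/-!
H38H, module CL, chunk CLB1: three general facts on reachability.
-/

set_option autoImplicit false

namespace Pool.Agent.H38H.CL

open Classical

variable {α : Type}

/-- CLB1 (a). Edges that contain a vertex not reachable from `v` may be deleted.
PROOF. Induction on a walk from `v` to `w` (cons at the start): the first edge `s(v, v1)` is not in
`D`: otherwise one of `v`, `v1` would be unreachable from `v`. The hypothesis for `v1` follows since
`v` and `v1` reach the same vertices. -/
theorem reach_del {H : SimpleGraph α} {v w : α} (h : H.Reachable v w) (D : Set (Sym2 α))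
    (hD : ∀ e ∈ D, ∃ z ∈ e, ¬ H.Reachable v z) : (H.deleteEdges D).Reachable v w := by
  obtain ⟨p⟩ := h
  revert hD
  induction p with
  | nil => exact fun _ => SimpleGraph.Reachable.refl _
  | cons hadj p ih =>
    rename_i u v1 w1
    intro hD
    have h1 : (H.deleteEdges D).Adj u v1 := by
      rw [SimpleGraph.deleteEdges_adj]
      refine ⟨hadj, fun hm => ?_⟩
      obtain ⟨z, hz, hz2⟩ := hD _ hm
      rcases Sym2.mem_iff.1 hz with rfl | rfl
      · exact hz2 (SimpleGraph.Reachable.refl _)
      · exact hz2 hadj.reachable
    refine h1.reachable.trans (ih fun e he => ?_)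
    obtain ⟨z, hz, hz2⟩ := hD e he
    exact ⟨z, hz, fun h => hz2 (hadj.reachable.trans h)⟩

/-- CLB1 (b). `x` is a leaf with the only neighbour `q`.
PROOF. Take a path (`SimpleGraph.Walk.IsPath`) from `x` to `y`; it is `cons` of the edge `x q` and a
path from `q` to `y` that does not meet `x` (`SimpleGraph.Walk.cons_isPath_iff`). So the second path
does not use the edge `s(x, q)` (an edge of a walk has both ends in the support). -/
theorem leaf_reach {H : SimpleGraph α} {x q y : α} (h1 : ∀ w, H.Adj x w ↔ w = q)
    (h2 : H.Reachable x y) (hne : x ≠ y) : (H.deleteEdges {s(x, q)}).Reachable q y := by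
  obtain ⟨p, hp⟩ := h2.exists_isPath
  cases p with
  | nil => exact absurd rfl hne
  | cons hadj p' =>
    rename_i w
    have hw : w = q := (h1 _).1 hadj
    subst hw
    rw [SimpleGraph.Walk.cons_isPath_iff] at hp
    obtain ⟨hp1, hp2⟩ := hp
    refine ⟨p'.toDeleteEdges {s(x, w)} ?_⟩
    intro e he hm
    rw [Set.mem_singleton_iff] at hm
    subst hm
    exact hp2 (p'.fst_mem_support_of_mem_edges he)

/-- CLB1 (c). Handshake in the component of `x`.
PROOF. Let `C` be the set of vertices reachable from `x`, `K' = K.induce C`. For `v` in `C` the degree of `v`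
in `K'` is its degree in `K` (all neighbours of `v` are in `C`). `K'` is a finite graph with the vertex `x`
of odd degree, so it has another one:
`SimpleGraph.exists_ne_odd_degree_of_exists_odd_degree`. (Degrees: `SimpleGraph.degree` versus
`Set.ncard` of `neighborSet`: `Set.ncard_eq_toFinset_card'`, `SimpleGraph.card_neighborSet_eq_degree`.) -/
theorem exists_odd [Finite α] (K : SimpleGraph α) {x : α} (hx : Odd (K.neighborSet x).ncard) :
    ∃ w, w ≠ x ∧ K.Reachable x w ∧ Odd (K.neighborSet w).ncard := by
  have := Fintype.ofFinite α
  let K2 : SimpleGraph α :=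
    { Adj := fun u v => K.Adj u v ∧ K.Reachable x u
      symm := by
        constructor
        rintro u v ⟨h1, h2⟩
        exact ⟨h1.symm, h2.trans h1.reachable⟩
      loopless := by
        constructor
        rintro v ⟨h1, -⟩
        exact h1.ne rfl }
  have hdeg : ∀ v, K2.degree v = (K2.neighborSet v).ncard := by
    intro v
    rw [← SimpleGraph.card_neighborSet_eq_degree, ← Nat.card_eq_fintype_card]
    exact Nat.card_coe_set_eq _
  have h1 : ∀ v, K.Reachable x v → K2.neighborSet v = K.neighborSet v := by
    intro v hv
    ext w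
    exact ⟨fun h => h.1, fun h => ⟨h, hv⟩⟩
  have h2 : Odd (K2.degree x) := by
    rw [hdeg, h1 x (SimpleGraph.Reachable.refl _)]
    exact hx
  obtain ⟨w, hw, hodd⟩ := K2.exists_ne_odd_degree_of_exists_odd_degree x h2
  rw [hdeg] at hodd
  have h3 : K.Reachable x w := by
    by_contra h
    have h4 : K2.neighborSet w = ∅ := by
      ext z
      simp only [Set.mem_empty_iff_false, iff_false]
      exact fun hz => h hz.2
    rw [h4, Set.ncard_empty] at hodd
    exact absurd hodd (by decide)
  refine ⟨w, hw, h3, ?_⟩
  rwa [h1 w h3] at hodd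

end Pool.Agent.H38H.CL
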