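import Pool.Agent.Lib.H38H.CLDefs

/-!
H38H, module CL, chunk CLB2: existence of an optimal matching.
-/

set_option autoImplicit false

namespace Pool.Agent.H38H.CL

open Classical

variable {α : Type}

/-- CLB2 (a), exchange principle.
PROOF. Induction on the walk in `HG S f` from `v` to the end `w` (given by `Good S f v`; use
`Relation.ReflTransGen` or `SimpleGraph.Walk` induction, cons at the start). If `v ∈ T` use `hg`. If `v ∉ T`:
`f' v = f v`. Base case (`v = w`): `v` is itself an end for `f'` (`good_of_end`). Step: `v` is adjacent in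
`HG S f` to `v1`, and `Good S f' v1` by induction; since `f' v = f v` and `(VM.hadj _ v v1)`, `v` is adjacent to
`v1` in `HG S f'`. So `good_of_adj`. -/
theorem good_of_exchange {S : SimpleGraph α} {f f' : α → α} (h : VM S f) (h' : VM S f')
    (T : Set α) (hT : ∀ v, v ∉ T → f' v = f v) (hg : ∀ t ∈ T, Good S f' t) {v : α}
    (hv : Good S f v) : Good S f' v := by
  obtain ⟨w, ⟨p⟩, hw1, hw2⟩ := hv
  induction p with
  | nil =>
    rename_i u
    by_cases ht : u ∈ T
    · exact hg _ ht
    · exact good_of_end hw1 (by rw [hT _ ht]; exact hw2)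
  | cons hadj p ih =>
    rename_i u v1 w1
    by_cases ht : u ∈ T
    · exact hg _ ht
    · refine good_of_adj ((h'.hadj _ _).2 ⟨((h.hadj _ _).1 hadj).1, ?_⟩) (ih hw1 hw2)
      rw [hT _ ht]
      exact ((h.hadj _ _).1 hadj).2

/-- CLB2 (b).
PROOF. Among all `f` with `VM S f` choose one minimising `{v | ¬ Good S f v}.ncard`. It is `Opt`: let `f'`, `T`
be as in the definition, and suppose `t0 ∈ T` is not `Good S f`. By (a) `{v | ¬ Good S f' v}` is a subset of
`{v | ¬ Good S f v}`, and `t0` is in the second but not in the first. So the cardinality is strictly smaller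
(`Set.ncard_lt_ncard`), contradiction. -/
theorem opt_exists [Finite α] {S : SimpleGraph α} (h : ∃ f, VM S f) : ∃ f, Opt S f := by
  have hP : ∃ n : ℕ, ∃ f, VM S f ∧ {v | ¬ Good S f v}.ncard = n := by
    obtain ⟨f, hf⟩ := h
    exact ⟨_, f, hf, rfl⟩
  obtain ⟨f, hf, hn⟩ := Nat.find_spec hP
  refine ⟨f, hf, fun f' hf' T hT hg t ht => ?_⟩
  by_contra hbad
  have hsub : {v | ¬ Good S f' v} ⊂ {v | ¬ Good S f v} := by
    refine ⟨fun v hv hgv => hv (good_of_exchange hf hf' T hT hg hgv), fun hle => ?_⟩
    exact hle hbad (hg t ht)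
  have hlt := Set.ncard_lt_ncard hsub (Set.toFinite _)
  rw [hn] at hlt
  exact Nat.find_min hP hlt ⟨f', hf', rfl⟩

end Pool.Agent.H38H.CL
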