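import Pool.Agent.Lib.H38H.CLB1

/-!
H38H, module CL, chunk CLB3: parity arguments for the graph `HG S f`.
-/

set_option autoImplicit false

namespace Pool.Agent.H38H.CL

open Classical

variable {α : Type} [Finite α] {S : SimpleGraph α} {f : α → α}

/-- CLB3 (a). Degrees in `HG S f`.
PROOF. By `VM.hadj` the neighbours of `v` in `HG S f` are the neighbours of `v` in `S` except `f v`; and `f v` is a
neighbour of `v` in `S` if and only if `f v ≠ v` (`S` has no loops). -/
theorem deg_hg (h : VM S f) (v : α) :
    ((HG S f).neighborSet v).ncard + (if f v = v then 0 else 1) = (S.neighborSet v).ncard := by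
  have h1 : (HG S f).neighborSet v = S.neighborSet v \ {f v} := by
    ext w
    rw [SimpleGraph.mem_neighborSet, h.hadj, Set.mem_sdiff, SimpleGraph.mem_neighborSet,
      Set.mem_singleton_iff]
    constructor
    · rintro ⟨h1, h2⟩
      exact ⟨h1, fun e => h2 e.symm⟩
    · rintro ⟨h1, h2⟩
      exact ⟨h1, fun e => h2 e.symm⟩
  rw [h1]
  by_cases hv : f v = v
  · rw [if_pos hv, hv, Nat.add_zero, Set.sdiff_singleton_eq_self]
    exact S.irrefl
  · rw [if_neg hv]
    exact Set.ncard_sdiff_singleton_add_one (h.adj v hv) (Set.toFinite _)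

theorem clb3_deg (hd : D23 S) (h : VM S f) (v : α) (hodd : Odd ((HG S f).neighborSet v).ncard) :
    ¬ Br S v ∧ f v ≠ v := by
  have h1 := deg_hg h v
  by_cases hb : Br S v
  · have h2 := h.cov v hb
    rw [if_neg h2] at h1
    have h3 : (S.neighborSet v).ncard = 3 := hb
    rw [h3] at h1
    have h4 : ((HG S f).neighborSet v).ncard = 2 := by omega
    rw [h4] at hodd
    exact absurd hodd (by decide)
  · refine ⟨hb, fun hf => ?_⟩
    rw [if_pos hf] at h1
    have h3 : (S.neighborSet v).ncard = 2 := (hd v).resolve_right hb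
    rw [h3] at h1
    have h4 : ((HG S f).neighborSet v).ncard = 2 := by omega
    rw [h4] at hodd
    exact absurd hodd (by decide)

/-- CLB3 (b). An end reaches another end.
PROOF. `x` has degree `2 - 1 = 1` in `HG S f` (by (a) and `D23`). By `exists_odd` there is `w ≠ x` reachable from
`x` with odd degree in `HG S f`. By (a), `D23` and `VM.cov`: if `w` is a branch vertex its degree is `3 - 1 = 2`;
if `w` is not a branch vertex and `f w = w` it is `2`. So `w` is an end. -/
theorem other_end (hd : D23 S) (h : VM S f) {x : α} (hx : ¬ Br S x) (hfx : f x ≠ x) :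
    ∃ w, w ≠ x ∧ (HG S f).Reachable x w ∧ ¬ Br S w ∧ f w ≠ w := by
  have h1 := deg_hg h x
  rw [if_neg hfx] at h1
  have h3 : (S.neighborSet x).ncard = 2 := (hd x).resolve_right hx
  rw [h3] at h1
  have h4 : ((HG S f).neighborSet x).ncard = 1 := by omega
  obtain ⟨w, hw1, hw2, hw3⟩ := exists_odd (HG S f) (x := x) (by rw [h4]; decide)
  obtain ⟨hw4, hw5⟩ := clb3_deg hd h w hw3
  exact ⟨w, hw1, hw2, hw4, hw5⟩

/-- CLB3 (c). Edges at bad vertices are not bridges.
PROOF. Let `H = HG S f`, `K = H.deleteEdges {s(x, u)}`. All vertices reachable from `x` in `H` are not good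
(`good_of_reach`), so by (a), `D23` and `bad_fix` they have degree exactly `2` in `H` (a branch vertex: `3 - 1`, another
bad vertex: `f v = v`, `2 - 0`). In `K` the degree of `x` is `1`; by `exists_odd` there is `w ≠ x` reachable from `x` in
`K` (so in `H`) with odd degree in `K`. If `w ≠ u` then the degree of `w` in `K` is its degree in `H`, that is `2`:
contradiction. So `w = u` and `x` reaches `u` in `K`. Now apply `reach_del` to `K`, the walk from `x` to `u` and the set
`D` minus `s(x, u)`: every such edge contains a good vertex `v`, which is not reachable from `x` in `H`, so not in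
`K`. Finally `K.deleteEdges (D \ {s(x, u)})` is contained in `H.deleteEdges D`
(`SimpleGraph.deleteEdges_deleteEdges`, `Reachable.mono`). -/
theorem not_bridge (hd : D23 S) (h : VM S f) {x u : α} (hx : ¬ Good S f x)
    (hu : (HG S f).Adj x u) (D : Set (Sym2 α)) (hD : ∀ e ∈ D, e ≠ s(x, u) → ∃ v ∈ e, Good S f v) :
    ((HG S f).deleteEdges D).Reachable x u := by
  set H := HG S f with hH
  set K := H.deleteEdges {s(x, u)} with hK
  have hKH : K ≤ H := SimpleGraph.deleteEdges_le _
  have hdeg : ∀ w, H.Reachable x w → (H.neighborSet w).ncard = 2 := by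
    intro w hw
    have hwb : ¬ Good S f w := fun hg => hx (good_of_reach hw hg)
    have h1 := deg_hg h w
    rw [← hH] at h1
    by_cases hb : Br S w
    · rw [if_neg (h.cov w hb)] at h1
      have h3 : (S.neighborSet w).ncard = 3 := hb
      rw [h3] at h1
      omega
    · rw [if_pos (bad_fix hwb hb)] at h1
      have h3 : (S.neighborSet w).ncard = 2 := (hd w).resolve_right hb
      rw [h3] at h1
      omega
  have hKx : (K.neighborSet x).ncard = 1 := by
    have h1 : K.neighborSet x = H.neighborSet x \ {u} := by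
      ext w
      rw [SimpleGraph.mem_neighborSet, Set.mem_sdiff, SimpleGraph.mem_neighborSet,
        Set.mem_singleton_iff, hK, SimpleGraph.deleteEdges_adj, Set.mem_singleton_iff]
      constructor
      · rintro ⟨h1, h2⟩
        exact ⟨h1, fun e => h2 (by rw [e])⟩
      · rintro ⟨h1, h2⟩
        refine ⟨h1, fun e => h2 ?_⟩
        rcases Sym2.eq_iff.1 e with ⟨_, e2⟩ | ⟨e1, e2⟩
        · exact e2
        · exact absurd e2 h1.ne'
    have h2 := Set.ncard_sdiff_singleton_add_one (s := H.neighborSet x) (a := u) hu (Set.toFinite _)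
    rw [hdeg x (SimpleGraph.Reachable.refl _)] at h2
    rw [h1]
    omega
  obtain ⟨w, hw1, hw2, hw3⟩ := exists_odd K (x := x) (by rw [hKx]; decide)
  have hwu : w = u := by
    by_contra hne
    have h1 : K.neighborSet w = H.neighborSet w := by
      ext z
      rw [SimpleGraph.mem_neighborSet, SimpleGraph.mem_neighborSet, hK, SimpleGraph.deleteEdges_adj,
        Set.mem_singleton_iff]
      constructor
      · rintro ⟨h1, _⟩
        exact h1
      · intro h1
        refine ⟨h1, fun e => ?_⟩
        rcases Sym2.eq_iff.1 e with ⟨e1, _⟩ | ⟨e1, _⟩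
        · exact hw1 e1
        · exact hne e1
    rw [h1, hdeg w (hw2.mono hKH)] at hw3
    exact absurd hw3 (by decide)
  rw [hwu] at hw2
  have h5 := reach_del hw2 (D \ {s(x, u)}) (by
    intro e he
    obtain ⟨v, hv1, hv2⟩ := hD e he.1 he.2
    exact ⟨v, hv1, fun hr => hx (good_of_reach (hr.mono hKH) hv2)⟩)
  refine h5.mono ?_
  rw [hK, SimpleGraph.deleteEdges_deleteEdges]
  intro a b hab
  rw [SimpleGraph.deleteEdges_adj] at hab ⊢
  refine ⟨hab.1, fun he => hab.2 ?_⟩
  by_cases h6 : s(a, b) = s(x, u)
  · exact Or.inl h6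
  · exact Or.inr ⟨he, h6⟩

end Pool.Agent.H38H.CL
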