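import Pool.Agent.Lib.H38H.CLDefs

/-!
H38H, module CL, chunk CLB4: a matching covering all branch vertices, first case.
-/

set_option autoImplicit false

namespace Pool.Agent.H38H.CL

open Classical

variable {α : Type} [Finite α] {S : SimpleGraph α}

/-- CLB4. If no two branch vertices are adjacent there is a matching covering all of them.
PROOF. Hall's theorem (`Finset.all_card_le_biUnion_card_iff_exists_injective`) for the index type
`{v // Br S v}` and the sets `t v = S.neighborFinset v`: for a finite set `s` of branch vertices let `Y` be the union of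
their neighbourhoods. Count the pairs `(v, w)`, `v ∈ s`, `w ∈ Y`, `S.Adj v w`: there are exactly `3 |s|` of them;
every `w ∈ Y` is adjacent to a branch vertex, so is not a branch vertex, has degree `2` (`D23`), and so is in at most `2`
pairs. So `3 |s| ≤ 2 |Y|` and `|s| ≤ |Y|` (`Finset.sum_comm` or `Finset.card_mul_le_card_mul`).
Hall gives an injective `g : {v // Br S v} → α` with `S.Adj v (g v)`; `g v` is not a branch vertex. Define
`f x = g ⟨x, _⟩` if `Br S x`, `f x = v` if `x = g v` for some branch vertex `v` (unique by injectivity),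
`f x = x` otherwise. -/
theorem vm_hall (hd : D23 S) (hno : ∀ u v, Br S u → Br S v → ¬ S.Adj u v) : ∃ f, VM S f := by
  have : Fintype α := Fintype.ofFinite α
  have hcard : ∀ v, (S.neighborSet v).ncard = (S.neighborFinset v).card := fun v => by
    rw [Set.ncard_eq_toFinset_card', SimpleGraph.neighborFinset]
  have hall : ∀ s : Finset {v // Br S v},
      s.card ≤ (s.biUnion (fun v => S.neighborFinset v.1)).card := by
    intro s
    have h1 := Finset.card_mul_le_card_mul (fun (v : {v // Br S v}) (w : α) => S.Adj v.1 w)
      (s := s) (t := s.biUnion (fun v => S.neighborFinset v.1)) (m := 3) (n := 2) ?_ ?_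
    · omega
    · intro v hv
      have h2 : (S.neighborFinset v.1).card = 3 := by rw [← hcard]; exact v.2
      rw [← h2]
      refine Finset.card_le_card fun w hw => ?_
      rw [Finset.mem_bipartiteAbove]
      rw [SimpleGraph.mem_neighborFinset] at hw
      exact ⟨Finset.mem_biUnion.2 ⟨v, hv, by simpa using hw⟩, hw⟩
    · intro w hw
      obtain ⟨v, hv, hvw⟩ := Finset.mem_biUnion.1 hw
      have hvw' : S.Adj v.1 w := by simpa using hvw
      have hw2 : (S.neighborFinset w).card = 2 := by
        rw [← hcard]
        rcases hd w with h | h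
        · exact h
        · exact absurd hvw' (hno v.1 w v.2 h)
      rw [← hw2]
      refine Finset.card_le_card_of_injOn (fun v => v.1) (fun u hu => ?_) (fun a _ b _ h =>
        Subtype.ext h)
      have := (Finset.mem_bipartiteBelow _).1 hu
      simpa using this.2.symm
  obtain ⟨g, hg, hgt⟩ := (Finset.all_card_le_biUnion_card_iff_exists_injective _).1 hall
  have hadj : ∀ v : {v // Br S v}, S.Adj v.1 (g v) := fun v => by simpa using hgt v
  have hnb : ∀ v : {v // Br S v}, ¬ Br S (g v) := fun v hb => hno v.1 (g v) v.2 hb (hadj v)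
  let f : α → α := fun x => if hx : Br S x then g ⟨x, hx⟩ else
    if h : ∃ v : {v // Br S v}, g v = x then (Classical.choose h).1 else x
  have f1 : ∀ x (hx : Br S x), f x = g ⟨x, hx⟩ := fun x hx => by simp [f, hx]
  have f2 : ∀ v : {v // Br S v}, f (g v) = v.1 := fun v => by
    have hx := hnb v
    have h : ∃ u : {v // Br S v}, g u = g v := ⟨v, rfl⟩
    have h3 : f (g v) = (Classical.choose h).1 := by
      simp only [f]
      rw [dif_neg hx, dif_pos h]
    rw [h3, hg (Classical.choose_spec h)]
  have f3 : ∀ x, ¬ Br S x → (¬ ∃ v : {v // Br S v}, g v = x) → f x = x := fun x hx h => by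
    simp only [f]
    rw [dif_neg hx, dif_neg h]
  refine ⟨f, fun x => ?_, fun x hx => ?_, fun x hx => ?_⟩
  · by_cases hx : Br S x
    · rw [f1 x hx, f2]
    · by_cases h : ∃ v : {v // Br S v}, g v = x
      · obtain ⟨v, rfl⟩ := h
        rw [f2, f1 v.1 v.2]
      · rw [f3 x hx h, f3 x hx h]
  · by_cases hb : Br S x
    · rw [f1 x hb]
      exact hadj ⟨x, hb⟩
    · by_cases h : ∃ v : {v // Br S v}, g v = x
      · obtain ⟨v, rfl⟩ := h
        rw [f2]
        exact (hadj v).symm
      · exact absurd (f3 x hb h) hx
  · rw [f1 x hx]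
    exact (hadj ⟨x, hx⟩).ne'

end Pool.Agent.H38H.CL
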