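import Pool.Agent.Lib.H38H.CLDefs

/-!
H38H, module CL, chunk CLF1: explicit neighbourhoods.
-/

set_option autoImplicit false

namespace Pool.Agent.H38H.CL

open Classical

variable {α : Type} {S : SimpleGraph α}

/-- CLF1 (a). PROOF. The neighbour set has cardinality two by `D23` (`Set.ncard_eq_two`). -/
theorem nonbranch_nbrs (hd : D23 S) {u a : α} (hu : ¬ Br S u) (ha : S.Adj u a) :
    ∃ b, b ≠ a ∧ S.Adj u b ∧ ∀ w, S.Adj u w → w = a ∨ w = b := by
  have h2 : (S.neighborSet u).ncard = 2 := (hd u).resolve_right hu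
  obtain ⟨x, y, hxy, hs⟩ := Set.ncard_eq_two.1 h2
  have hm : ∀ w, S.Adj u w ↔ w = x ∨ w = y := by
    intro w
    rw [← SimpleGraph.mem_neighborSet, hs]
    simp
  rcases (hm a).1 ha with e | e
  · exact ⟨y, by rw [e]; exact hxy.symm, (hm y).2 (Or.inr rfl), fun w hw => by
      rw [e]
      exact (hm w).1 hw⟩
  · exact ⟨x, by rw [e]; exact hxy, (hm x).2 (Or.inl rfl), fun w hw => by
      rw [e]
      exact ((hm w).1 hw).symm⟩

/-- CLF1 (b). PROOF. `Set.ncard_eq_three`. -/
theorem branch_nbrs' {x a : α} (hx : Br S x) (ha : S.Adj x a) :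
    ∃ b c, b ≠ a ∧ c ≠ a ∧ b ≠ c ∧ S.Adj x b ∧ S.Adj x c ∧
      ∀ w, S.Adj x w → w = a ∨ w = b ∨ w = c := by
  obtain ⟨p, q, r, hpq, hpr, hqr, hs⟩ := Set.ncard_eq_three.1 hx
  have hm : ∀ w, S.Adj x w ↔ w = p ∨ w = q ∨ w = r := by
    intro w
    rw [← SimpleGraph.mem_neighborSet, hs]
    simp
  rcases (hm a).1 ha with e | e | e
  · refine ⟨q, r, by rw [e]; exact hpq.symm, by rw [e]; exact hpr.symm, hqr, (hm q).2 (by simp),
      (hm r).2 (by simp), fun w hw => ?_⟩
    rcases (hm w).1 hw with h | h | h <;> simp [h, e]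
  · refine ⟨p, r, by rw [e]; exact hpq, by rw [e]; exact hqr.symm, hpr, (hm p).2 (by simp),
      (hm r).2 (by simp), fun w hw => ?_⟩
    rcases (hm w).1 hw with h | h | h <;> simp [h, e]
  · refine ⟨p, q, by rw [e]; exact hpr, by rw [e]; exact hqr, hpq, (hm p).2 (by simp),
      (hm q).2 (by simp), fun w hw => ?_⟩
    rcases (hm w).1 hw with h | h | h <;> simp [h, e]

/-- CLF1 (c). PROOF. From (b). -/
theorem branch_nbrs {x a b : α} (hx : Br S x) (ha : S.Adj x a) (hb : S.Adj x b) (hab : a ≠ b) :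
    ∃ c, c ≠ a ∧ c ≠ b ∧ S.Adj x c ∧ ∀ w, S.Adj x w → w = a ∨ w = b ∨ w = c := by
  obtain ⟨p, q, hpa, hqa, hpq, hp, hq, hm⟩ := branch_nbrs' hx ha
  rcases hm b hb with e | e | e
  · exact absurd e.symm hab
  · refine ⟨q, hqa, by rw [e]; exact hpq.symm, hq, fun w hw => ?_⟩
    rcases hm w hw with h | h | h <;> simp [h, e]
  · refine ⟨p, hpa, by rw [e]; exact hpq, hp, fun w hw => ?_⟩
    rcases hm w hw with h | h | h <;> simp [h, e]

/-- CLF1 (d). PROOF. `Set.ncard_eq_three`: three distinct neighbours are all the neighbours. -/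
theorem branch_three {x a b c : α} (hx : Br S x) (ha : S.Adj x a) (hb : S.Adj x b)
    (hc : S.Adj x c) (hab : a ≠ b) (hac : a ≠ c) (hbc : b ≠ c) :
    ∀ w, S.Adj x w → w = a ∨ w = b ∨ w = c := by
  obtain ⟨p, hpa, hpb, hp, hm⟩ := branch_nbrs hx ha hb hab
  rcases hm c hc with e | e | e
  · exact absurd e.symm hac
  · exact absurd e.symm hbc
  · intro w hw
    rcases hm w hw with h | h | h <;> simp [h, e]

/-- CLF1 (e). PROOF. Otherwise there would be five distinct branch vertices. -/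
theorem branch_four [Finite α] (h4 : {v | Br S v}.ncard ≤ 4) {a b c d e : α} (ha : Br S a)
    (hb : Br S b) (hc : Br S c) (hd : Br S d) (he : Br S e) (hab : a ≠ b) (hac : a ≠ c)
    (had : a ≠ d) (hbc : b ≠ c) (hbd : b ≠ d) (hcd : c ≠ d) : e = a ∨ e = b ∨ e = c ∨ e = d := by
  by_contra hne
  push Not at hne
  obtain ⟨h1, h2, h3, h5⟩ := hne
  have hsub : ((({a, b, c, d, e} : Finset α) : Set α)) ⊆ {v | Br S v} := by
    intro v hv
    simp only [Finset.coe_insert, Finset.coe_singleton, Set.mem_insert_iff,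
      Set.mem_singleton_iff] at hv
    rcases hv with rfl | rfl | rfl | rfl | rfl
    all_goals assumption
  have hle := Set.ncard_le_ncard hsub (Set.toFinite _)
  rw [Set.ncard_coe_finset] at hle
  have hcard : ({a, b, c, d, e} : Finset α).card = 5 := by
    rw [Finset.card_insert_of_notMem, Finset.card_insert_of_notMem,
      Finset.card_insert_of_notMem, Finset.card_insert_of_notMem, Finset.card_singleton]
    · simpa using h5.symm
    · simpa using ⟨hcd, h3.symm⟩
    · simpa using ⟨hbc, hbd, h2.symm⟩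
    · simpa using ⟨hab, hac, had, h1.symm⟩
  omega

end Pool.Agent.H38H.CL
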