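import Pool.Agent.Lib.H38H.CLB4
import Pool.Agent.Lib.H38H.CLF1

/-!
H38H, module CL, chunk CLB5: a matching covering all branch vertices, second case.
-/

set_option autoImplicit false

namespace Pool.Agent.H38H.CL

open Classical

variable {α : Type} [Finite α] {S : SimpleGraph α}

omit [Finite α] in
theorem clb5_one {a b : α} (hab : S.Adj a b) (hall : ∀ v, Br S v → v = a ∨ v = b) : ∃ f, VM S f := by
  have e1 := hab.ne
  refine ⟨fun v => if v = a then b else if v = b then a else v, ⟨?_, ?_, ?_⟩⟩
  · grind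
  · grind [SimpleGraph.adj_comm]
  · intro v hv
    rcases hall v hv with rfl | rfl
    · grind
    · grind

omit [Finite α] in
theorem clb5_two {a b c p : α} (hab : S.Adj a b) (hcp : S.Adj c p) (hac : a ≠ c) (hap : a ≠ p)
    (hbc : b ≠ c) (hbp : b ≠ p) (hall : ∀ v, Br S v → v = a ∨ v = b ∨ v = c ∨ v = p) : ∃ f, VM S f := by
  have e1 := hab.ne
  have e2 := hcp.ne
  refine ⟨fun v => if v = a then b else if v = b then a else if v = c then p else
    if v = p then c else v, ⟨?_, ?_, ?_⟩⟩
  · grind
  · grind [SimpleGraph.adj_comm]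
  · intro v hv
    rcases hall v hv with rfl | rfl | rfl | rfl
    · grind
    · grind
    · grind
    · grind

omit [Finite α] in
theorem clb5_three {a b c p d q : α} (hab : S.Adj a b) (hcp : S.Adj c p) (hdq : S.Adj d q) (hac : a ≠ c)
    (hap : a ≠ p) (hbc : b ≠ c) (hbp : b ≠ p) (had : a ≠ d) (haq : a ≠ q) (hbd : b ≠ d) (hbq : b ≠ q)
    (hcd : c ≠ d) (hcq : c ≠ q) (hpd : p ≠ d) (hpq : p ≠ q)
    (hall : ∀ v, Br S v → v = a ∨ v = b ∨ v = c ∨ v = d) : ∃ f, VM S f := by
  have e1 := hab.ne
  have e2 := hcp.ne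
  have e3 := hdq.ne
  refine ⟨fun v => if v = a then b else if v = b then a else if v = c then p else
    if v = p then c else if v = d then q else if v = q then d else v, ⟨?_, ?_, ?_⟩⟩
  · grind
  · grind [SimpleGraph.adj_comm]
  · intro v hv
    rcases hall v hv with rfl | rfl | rfl | rfl
    · grind
    · grind
    · grind
    · grind

omit [Finite α] in
theorem clb5_avoid {c : α} (hc : Br S c) (a b : α) : ∃ p, S.Adj c p ∧ p ≠ a ∧ p ≠ b := by
  have h1 : ({a, b} : Set α).ncard < (S.neighborSet c).ncard := by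
    have h2 : (S.neighborSet c).ncard = 3 := hc
    have h3 := Set.ncard_insert_le a ({b} : Set α)
    rw [Set.ncard_singleton] at h3
    omega
  obtain ⟨p, hp1, hp2⟩ := Set.exists_mem_notMem_of_ncard_lt_ncard h1
  refine ⟨p, hp1, ?_, ?_⟩
  · rintro rfl
    exact hp2 (Or.inl rfl)
  · rintro rfl
    exact hp2 (Or.inr rfl)

/-- CLB5 (a). Two adjacent branch vertices `a`, `b`.
PROOF. All branch vertices are in `{a, b, c, d}` for suitable branch vertices `c`, `d` (or only `a`, `b`, or only `a`,
`b`, `c`), by `h4`. (i) Only `a`, `b`: `f = Equiv.swap a b`. (ii) `a`, `b`, `c`: `c` has a neighbour `p` different from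
`a` and `b` (degree three, `branch_nbrs'`), `p` is not a branch vertex, `f = swap a b * swap c p`.
(iii) `a, b, c, d` distinct: if `S.Adj c d`: `f = swap a b * swap c d`. Otherwise let
`P = N(c) \ {a, b}`, `Q = N(d) \ {a, b}`, both nonempty, without branch vertices. If there are `p ∈ P`, `q ∈ Q` with
`p ≠ q`: `f = swap a b * swap c p * swap d q`. Otherwise `P = Q = {p}`, so (degree three) `c` and `d` are adjacent
to both `a` and `b`: `f = swap a c * swap b d`. -/
theorem vm_adj (hd : D23 S) (h4 : {v | Br S v}.ncard ≤ 4) {a b : α} (ha : Br S a) (hb : Br S b)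
    (hab : S.Adj a b) : ∃ f, VM S f := by
  by_cases h1 : ∀ v, Br S v → v = a ∨ v = b
  · exact clb5_one hab h1
  · push Not at h1
    obtain ⟨c, hc, hca, hcb⟩ := h1
    by_cases h2 : ∀ v, Br S v → v = a ∨ v = b ∨ v = c
    · obtain ⟨p, hp, hpa, hpb⟩ := clb5_avoid hc a b
      refine clb5_two hab hp hca.symm hpa.symm hcb.symm hpb.symm ?_
      intro v hv
      rcases h2 v hv with e | e | e
      · exact Or.inl e
      · exact Or.inr (Or.inl e)
      · exact Or.inr (Or.inr (Or.inl e))
    · push Not at h2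
      obtain ⟨d, hdB, hda, hdb, hdc⟩ := h2
      have hall : ∀ v, Br S v → v = a ∨ v = b ∨ v = c ∨ v = d := fun v hv =>
        branch_four h4 ha hb hc hdB hv hab.ne hca.symm hda.symm hcb.symm hdb.symm hdc.symm
      by_cases hcd : S.Adj c d
      · exact clb5_two hab hcd hca.symm hda.symm hcb.symm hdb.symm hall
      · by_cases hpq : ∃ p q, S.Adj c p ∧ p ≠ a ∧ p ≠ b ∧ S.Adj d q ∧ q ≠ a ∧ q ≠ b ∧ p ≠ q
        · obtain ⟨p, q, hp, hpa, hpb, hq, hqa, hqb, hne⟩ := hpq
          refine clb5_three hab hp hq hca.symm hpa.symm hcb.symm hpb.symm hda.symm hqa.symm hdb.symm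
            hqb.symm hdc.symm ?_ ?_ hne hall
          · rintro rfl
            exact hcd hq.symm
          · rintro rfl
            exact hcd hp
        · push Not at hpq
          obtain ⟨p, hp, hpa, hpb⟩ := clb5_avoid hc a b
          obtain ⟨q, hq, hqa, hqb⟩ := clb5_avoid hdB a b
          have hcN : ∀ w, S.Adj c w → w ≠ a → w ≠ b → w = q := fun w hw h1 h2 =>
            hpq w q hw h1 h2 hq hqa hqb
          have hdN : ∀ w, S.Adj d w → w ≠ a → w ≠ b → p = w := fun w hw h1 h2 =>
            hpq p w hp hpa hpb hw h1 h2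
          have hca' : S.Adj c a := by
            obtain ⟨w, hw, hwb, hwq⟩ := clb5_avoid hc b q
            by_cases hwa : w = a
            · rwa [← hwa]
            · exact absurd (hcN w hw hwa hwb) hwq
          have hdb' : S.Adj d b := by
            obtain ⟨w, hw, hwa, hwp⟩ := clb5_avoid hdB a p
            by_cases hwb : w = b
            · rwa [← hwb]
            · exact absurd (hdN w hw hwa hwb).symm hwp
          refine clb5_two hca'.symm hdb'.symm hab.ne hda.symm hcb hdc.symm ?_
          intro v hv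
          rcases hall v hv with e | e | e | e
          · exact Or.inl e
          · exact Or.inr (Or.inr (Or.inl e))
          · exact Or.inr (Or.inl e)
          · exact Or.inr (Or.inr (Or.inr e))

/-- CLB5 (b). PROOF. `vm_hall` or `vm_adj`. -/
theorem vm_exists (hd : D23 S) (h4 : {v | Br S v}.ncard ≤ 4) : ∃ f, VM S f := by
  by_cases h : ∀ u v, Br S u → Br S v → ¬ S.Adj u v
  · exact vm_hall hd h
  · push Not at h
    obtain ⟨a, b, ha, hb, hab⟩ := h
    exact vm_adj hd h4 ha hb hab

end Pool.Agent.H38H.CL
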