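import Pool.Agent.Lib.H38H.Stm

/-!
Project H38H, module CL (clusters become marks): definitions and small facts.
Overview of the module: CLPROOF.md in this directory.
-/

set_option autoImplicit false

namespace Pool.Agent.H38H.CL

open Classical

/-! ### Part 1: matchings of small graphs -/

section beta

variable {α : Type}

/-- branch vertex: a vertex of degree three -/
def Br (S : SimpleGraph α) (v : α) : Prop := (S.neighborSet v).ncard = 3

/-- all degrees are two or three -/
def D23 (S : SimpleGraph α) : Prop :=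
  ∀ v, (S.neighborSet v).ncard = 2 ∨ (S.neighborSet v).ncard = 3

/-- `f` is the partner function of a matching of `S` covering all branch vertices;
`f v = v` means that `v` is not covered -/
structure VM (S : SimpleGraph α) (f : α → α) : Prop where
  inv : ∀ v, f (f v) = v
  adj : ∀ v, f v ≠ v → S.Adj v (f v)
  cov : ∀ v, Br S v → f v ≠ v

/-- `S` minus the matching `f` -/
def HG (S : SimpleGraph α) (f : α → α) : SimpleGraph α where
  Adj u v := S.Adj u v ∧ f u ≠ v ∧ f v ≠ u
  symm := by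
    constructor
    rintro u v ⟨h, h1, h2⟩
    exact ⟨h.symm, h2, h1⟩
  loopless := by
    constructor
    rintro v ⟨h, -⟩
    exact h.ne rfl

/-- in `HG S f` the vertex `v` can reach an end (a covered vertex of degree two in `S`) -/
def Good (S : SimpleGraph α) (f : α → α) (v : α) : Prop :=
  ∃ w, (HG S f).Reachable v w ∧ ¬ Br S w ∧ f w ≠ w

/-- `f` cannot be improved by a local change `f'` (different from `f` only on `T`) after which all
vertices of `T` are good, while some vertex of `T` was not good -/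
def Opt (S : SimpleGraph α) (f : α → α) : Prop :=
  VM S f ∧ ∀ f' : α → α, VM S f' → ∀ T : Set α, (∀ v, v ∉ T → f' v = f v) →
    (∀ t ∈ T, Good S f' t) → ∀ t ∈ T, Good S f t

/-- four pairwise adjacent vertices -/
def HasK4 (S : SimpleGraph α) : Prop :=
  ∃ a b c d, S.Adj a b ∧ S.Adj a c ∧ S.Adj a d ∧ S.Adj b c ∧ S.Adj b d ∧ S.Adj c d

/-- `K_4` with the edge `c d` subdivided once by the vertex `u` of degree two -/
def HasK4' (S : SimpleGraph α) : Prop :=
  ∃ a b c d u, S.Adj a b ∧ S.Adj a c ∧ S.Adj a d ∧ S.Adj b c ∧ S.Adj b d ∧ S.Adj c u ∧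
    S.Adj u d ∧ c ≠ d ∧ u ≠ a ∧ u ≠ b ∧ ¬ Br S u

/-- the neighbour `x` of `a` leads to `c`, directly (`x = c`) or with one vertex of degree two between -/
def Lk (S : SimpleGraph α) (a x c : α) : Prop := S.Adj a x ∧ (x = c ∨ (¬ Br S x ∧ S.Adj x c))

variable {S : SimpleGraph α} {f : α → α}

theorem VM.hadj (h : VM S f) (u v : α) : (HG S f).Adj u v ↔ S.Adj u v ∧ f u ≠ v := by
  refine ⟨fun h => ⟨h.1, h.2.1⟩, fun h' => ⟨h'.1, h'.2, ?_⟩⟩
  intro hv
  exact h'.2 (by rw [← hv, h.inv])

theorem good_of_reach {v w : α} (h : (HG S f).Reachable v w) (hw : Good S f w) : Good S f v := by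
  obtain ⟨z, hz, h1, h2⟩ := hw
  exact ⟨z, h.trans hz, h1, h2⟩

theorem good_of_adj {v w : α} (h : (HG S f).Adj v w) (hw : Good S f w) : Good S f v :=
  good_of_reach h.reachable hw

theorem good_of_end {w : α} (h1 : ¬ Br S w) (h2 : f w ≠ w) : Good S f w :=
  ⟨w, SimpleGraph.Reachable.refl _, h1, h2⟩

/-- the convenient form of `good_of_adj` -/
theorem good_step {v w : α} (h : S.Adj v w) (h1 : f v ≠ w) (h2 : f w ≠ v) (hw : Good S f w) :
    Good S f v :=
  good_of_adj (show (HG S f).Adj v w from ⟨h, h1, h2⟩) hw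

theorem bad_fix {v : α} (h : ¬ Good S f v) (hb : ¬ Br S v) : f v = v := by
  by_contra h2
  exact h (good_of_end hb h2)

theorem bad_of_adj (h : VM S f) {v w : α} (hv : ¬ Good S f v) (hw : S.Adj v w) (h1 : f v ≠ w) :
    ¬ Good S f w := fun hg => hv (good_of_adj ((h.hadj v w).2 ⟨hw, h1⟩) hg)

theorem VM.inj (h : VM S f) {u v : α} (h1 : f u = f v) : u = v := by
  rw [← h.inv u, h1, h.inv]

/-- edges of the old complement that are not new matching edges survive -/
theorem del_le {f' : α → α} (h' : VM S f') (D : Set (Sym2 α))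
    (hD : ∀ v, f' v ≠ f v → f' v ≠ v → s(v, f' v) ∈ D) :
    (HG S f).deleteEdges D ≤ HG S f' := by
  intro u v huv
  rw [SimpleGraph.deleteEdges_adj] at huv
  obtain ⟨h1, h2⟩ := huv
  rw [h'.hadj]
  refine ⟨h1.1, fun he => h2 ?_⟩
  rw [← he]
  refine hD u ?_ ?_
  · intro h3
    exact h1.2.1 (by rw [← h3, he])
  · rw [he]
    exact h1.1.ne'

/-- patching a matching on a closed set `T` -/
theorem VM.patch (h : VM S f) (T : Finset α) (t : α → α) (hT : ∀ v ∈ T, f v ∈ T)
    (ht : ∀ v ∈ T, t v ∈ T) (hti : ∀ v ∈ T, t (t v) = v) (hta : ∀ v ∈ T, t v ≠ v → S.Adj v (t v))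
    (htc : ∀ v ∈ T, Br S v → t v ≠ v) : VM S (fun v => if v ∈ T then t v else f v) := by
  refine ⟨fun v => ?_, fun v => ?_, fun v => ?_⟩
  · by_cases hv : v ∈ T
    · simp [hv, ht v hv, hti v hv]
    · have : f v ∉ T := fun h1 => hv (by have := hT _ h1; rwa [h.inv] at this)
      simp [hv, this, h.inv]
  · by_cases hv : v ∈ T
    · simpa [hv] using hta v hv
    · simpa [hv] using h.adj v
  · by_cases hv : v ∈ T
    · simpa [hv] using htc v hv
    · simpa [hv] using h.cov v

/-- the exchange tool: an optimal matching has no patch making all vertices of `T` good,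
if some vertex of `T` was not good -/
theorem Opt.no_patch (h : Opt S f) (T : Finset α) (t : α → α) (hT : ∀ v ∈ T, f v ∈ T)
    (ht : ∀ v ∈ T, t v ∈ T) (hti : ∀ v ∈ T, t (t v) = v) (hta : ∀ v ∈ T, t v ≠ v → S.Adj v (t v))
    (htc : ∀ v ∈ T, Br S v → t v ≠ v) (x : α) (hx : x ∈ T) (hbad : ¬ Good S f x)
    (hg : ∀ v ∈ T, Good S (fun v => if v ∈ T then t v else f v) v) : False := by
  refine hbad (h.2 _ (h.1.patch T t hT ht hti hta htc) (T : Set α) ?_ ?_ x (by simpa using hx))
  · intro v hv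
    have : v ∉ T := by simpa using hv
    simp [this]
  · intro v hv
    exact hg v (by simpa using hv)

end beta

/-! ### Part 2: cuts -/

section cut

variable {V : Type}

/-- `B` is the set of vertices to be removed, `F` the spanning forest of `G[B]` consisting of the
paths that replace the marks; two edges of `G` leave `B` at every path -/
structure IsCut (κ : ℕ) (G : SimpleGraph V) (B : Finset V) (F : SimpleGraph V) : Prop where
  le : F ≤ G
  mem : ∀ u v, F.Adj u v → u ∈ B ∧ v ∈ B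
  deg : ∀ v ∈ B, (F.neighborSet v).ncard + {z | z ∉ B ∧ G.Adj v z}.ncard = 2
  reach : ∀ v ∈ B, ∃ w ∈ B, F.Reachable v w ∧ (F.neighborSet w).ncard ≤ 1
  one : ∀ z, z ∉ B → ∀ u ∈ B, ∀ v ∈ B, G.Adj z u → G.Adj z v → u = v
  indep : ∀ z, z ∉ B → ∀ z', z' ∉ B → ∀ u ∈ B, ∀ v ∈ B, G.Adj z u → G.Adj z' v → ¬ G.Adj z z'
  ge : B.card ≤ eIn G B
  nice : ∀ Y : Finset V, Disjoint Y B → Y.card ≤ κ →
    eIn G Y + (Y.filter (fun z => ∃ u ∈ B, G.Adj z u)).card ≤ Y.card

/-- `z z'` is a mark: both are outside `B`, next to the two ends of one path of `F` -/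
def Mk (G : SimpleGraph V) (B : Finset V) (F : SimpleGraph V) (z z' : V) : Prop :=
  z ∉ B ∧ z' ∉ B ∧ z ≠ z' ∧ ∃ a ∈ B, ∃ b ∈ B, G.Adj z a ∧ G.Adj z' b ∧ F.Reachable a b

/-- the graph on the vertices with property `p`, with the marks added -/
def G2 (p : V → Prop) (G : SimpleGraph V) (E : Finset (Sym2 (Subtype p))) :
    SimpleGraph (Subtype p) where
  Adj u v := u ≠ v ∧ (G.Adj u.1 v.1 ∨ s(u, v) ∈ E)
  symm := by
    constructor
    rintro u v ⟨h, h1⟩
    refine ⟨h.symm, ?_⟩
    rcases h1 with h1 | h1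
    · exact Or.inl h1.symm
    · exact Or.inr (by rwa [Sym2.eq_swap])
  loopless := by
    constructor
    rintro v ⟨h, -⟩
    exact h rfl

/-- the subgraph on `W` -/
def SW (G : SimpleGraph V) (W : Finset V) : SimpleGraph {x // x ∈ W} := G.comap Subtype.val

/-- the vertices of degree two of `G[W]` not covered by the matching `f` -/
noncomputable def UU (G : SimpleGraph V) (W : Finset V) (f : {x // x ∈ W} → {x // x ∈ W}) :
    Finset V :=
  W.filter (fun v => ∃ hv : v ∈ W, ¬ Br (SW G W) ⟨v, hv⟩ ∧ f ⟨v, hv⟩ = ⟨v, hv⟩)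

/-- `W` together with the outside neighbours of the uncovered vertices -/
noncomputable def BB [Fintype V] (G : SimpleGraph V) (W : Finset V)
    (f : {x // x ∈ W} → {x // x ∈ W}) : Finset V :=
  W ∪ Finset.univ.filter (fun z => z ∉ W ∧ ∃ u ∈ UU G W f, G.Adj u z)

/-- the forest: `G[W]` minus the matching `f` -/
def FF (G : SimpleGraph V) (W : Finset V) (f : {x // x ∈ W} → {x // x ∈ W}) : SimpleGraph V :=
  (HG (SW G W) f).map (Function.Embedding.subtype _)

/-- thresholds of section 3 -/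
def k1 (κ : ℕ) : ℕ := κ + 10
def k2 (κ : ℕ) : ℕ := 3 * k1 κ + κ + 10
def k3 (κ : ℕ) : ℕ := 3 * k2 κ + κ + 10

end cut

/-! ### Part 3: codes -/

/-- the data that, together with the graph outside, determine `G`: an enumeration of `B`, the graph
on `B`, and for every mark the two edges leaving `B` -/
abbrev Code (b m N : ℕ) : Type :=
  (Fin b → Fin N) × SimpleGraph (Fin b) × (Fin m → (Fin b × Fin N) × (Fin b × Fin N))

/-- the marks of a code -/
noncomputable def markSet {b m N : ℕ} (g : Fin b → Fin N)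
    (f : Fin m → (Fin b × Fin N) × (Fin b × Fin N)) :
    Finset (Sym2 {v : Fin N // v ∉ Set.range g}) :=
  Finset.univ.filter (fun e => ∃ k, e.map Subtype.val = s((f k).1.2, (f k).2.2))

/-- `G` has the code `d`, and the graph outside satisfies the hypotheses of Theorem H -/
structure Rel (κ : ℕ) {b m N : ℕ} (d : Code b m N) (G : SimpleGraph (Fin N)) : Prop where
  inj : Function.Injective d.1
  inner : ∀ i j, G.Adj (d.1 i) (d.1 j) ↔ d.2.1.Adj i j
  leave : ∀ i z, z ∉ Set.range d.1 →
    (G.Adj (d.1 i) z ↔ ∃ k, (d.2.2 k).1 = (i, z) ∨ (d.2.2 k).2 = (i, z))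
  marks : Marks (markSet d.1 d.2.2)
  card : (markSet d.1 d.2.2).card = m
  notG : ∀ u v, s(u, v) ∈ markSet d.1 d.2.2 → ¬ G.Adj u.1 v.1
  cubic : Cubic (G2 (fun v => v ∉ Set.range d.1) G (markSet d.1 d.2.2))
  nice : Nice κ (G2 (fun v => v ∉ Set.range d.1) G (markSet d.1 d.2.2)) (markSet d.1 d.2.2)
  noHC : ¬ HC (G2 (fun v => v ∉ Set.range d.1) G (markSet d.1 d.2.2)) (markSet d.1 d.2.2)

end Pool.Agent.H38H.CL
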