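import Pool.Agent.Lib.H38H.CLB3

/-!
H38H, module CL, chunk CLX1: exchanges (see the finished template CLX0.lean).
In every proof: suppose the hypotheses hold. `T` is a finite set of named vertices, closed under `f`; `t` is an involution of `T`
given by the listed NEW PAIRS (the other vertices of `T` are fixed); every new pair is an edge of `S` and every branch
vertex of `T` is in a new pair. `f'` is `t` on `T` and `f` elsewhere. The list GOOD shows that all vertices
of `T` are good for `f'`, so `Opt.no_patch` gives `False`.
-/

set_option autoImplicit false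

namespace Pool.Agent.H38H.CL

open Classical

variable {α : Type} {S : SimpleGraph α} {f : α → α}

/-- CLX1 (a), no two adjacent bad vertices of degree two.
T = {u, v} (`f u = u`, `f v = v` by `bad_fix`). NEW PAIRS: u v. GOOD: u and v are ends (`good_of_end`). -/
theorem x_pair (h : Opt S f) {u v : α} (hu : ¬ Br S u) (hv : ¬ Br S v) (huv : S.Adj u v)
    (hbu : ¬ Good S f u) (hbv : ¬ Good S f v) : False := by
  have hfu : f u = u := bad_fix hbu hu
  have hfv : f v = v := bad_fix hbv hv
  have e1 := huv.ne
  set t : α → α := fun x => if x = u then v else if x = v then u else x with ht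
  have tu : t u = v := by grind
  have tv : t v = u := by grind
  refine h.no_patch {u, v} t ?_ ?_ ?_ ?_ ?_ u (by simp) hbu ?_
  · grind
  · grind
  · grind
  · grind [SimpleGraph.adj_comm]
  · grind
  · set f' : α → α := fun x => if x ∈ ({u, v} : Finset α) then t x else f x with hf'
    have gu : f' u = v := by grind
    have gv : f' v = u := by grind
    have Gu : Good S f' u := good_of_end hu (by grind)
    have Gv : Good S f' v := good_of_end hv (by grind)
    intro x hx
    simp only [Finset.mem_insert, Finset.mem_singleton] at hx
    rcases hx with rfl | rfl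
    all_goals assumption

/-- CLX1 (b). Suppose `w = f x` is not a branch vertex (`w ≠ x` by `cov`; `w ≠ u` since `f u = u`).
T = {x, w, u}. NEW PAIRS: x u (`w` is fixed). GOOD: `u` is an end. `x`: it is bad for `f` (`bad_of_adj`), adjacent to `u` in
`HG S f`; by `not_bridge` with `D = {s(x, u)}` it reaches `u` in `(HG S f).deleteEdges {s(x, u)}`, which is
contained in `HG S f'` by `del_le`; so `good_of_reach`. `w`: `good_step` to `x`. -/
theorem x_partner [Finite α] (hd : D23 S) (h : Opt S f) {u x : α} (hu : ¬ Br S u) (hx : Br S x)
    (hux : S.Adj u x) (hbu : ¬ Good S f u) : Br S (f x) := by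
  by_contra hw
  have hfu : f u = u := bad_fix hbu hu
  obtain ⟨w, hfx⟩ : ∃ w, f x = w := ⟨_, rfl⟩
  rw [hfx] at hw
  have hfw : f w = x := by rw [← hfx, h.1.inv]
  have hwx : w ≠ x := by
    rintro rfl
    exact hw hx
  have hux' : u ≠ x := hux.ne
  have hwu : w ≠ u := by
    rintro rfl
    exact hux' (by rw [← hfw, hfu])
  have sxw : S.Adj x w := by have := h.1.adj x (h.1.cov x hx); rwa [hfx] at this
  have hxb : ¬ Good S f x := bad_of_adj h.1 hbu hux (by rw [hfu]; exact hux')
  have hadj : (HG S f).Adj x u := (h.1.hadj x u).2 ⟨hux.symm, by rw [hfx]; exact hwu⟩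
  have hreach := not_bridge hd h.1 hxb hadj {s(x, u)} (fun e he hne => absurd he hne)
  set t : α → α := fun v => if v = x then u else if v = u then x else v with ht
  have tx : t x = u := by grind
  have tu : t u = x := by grind
  have tw : t w = w := by grind
  have c1 : ∀ v ∈ ({x, w, u} : Finset α), f v ∈ ({x, w, u} : Finset α) := by grind
  have c2 : ∀ v ∈ ({x, w, u} : Finset α), t v ∈ ({x, w, u} : Finset α) := by grind
  have c3 : ∀ v ∈ ({x, w, u} : Finset α), t (t v) = v := by grind
  have c4 : ∀ v ∈ ({x, w, u} : Finset α), t v ≠ v → S.Adj v (t v) := by grind [SimpleGraph.adj_comm]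
  have c5 : ∀ v ∈ ({x, w, u} : Finset α), Br S v → t v ≠ v := by grind
  refine h.no_patch {x, w, u} t c1 c2 c3 c4 c5 x (by simp) hxb ?_
  have hVM := h.1.patch {x, w, u} t c1 c2 c3 c4 c5
  set f' : α → α := fun v => if v ∈ ({x, w, u} : Finset α) then t v else f v with hf'
  have gx : f' x = u := by grind
  have gu : f' u = x := by grind
  have gw : f' w = w := by grind
  have hle : (HG S f).deleteEdges {s(x, u)} ≤ HG S f' := by
    apply del_le hVM
    intro v h1 h2
    by_cases hv : v ∈ ({x, w, u} : Finset α)
    · simp only [Finset.mem_insert, Finset.mem_singleton] at hv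
      rcases hv with rfl | rfl | rfl
      · rw [gx]
        rfl
      · exact absurd gw h2
      · rw [gu, Sym2.eq_swap]
        rfl
    · exact absurd (by rw [hf']; simp only [if_neg hv]) h1
  have Gu : Good S f' u := good_of_end hu (by grind)
  have Gx : Good S f' x := good_of_reach (hreach.mono hle) Gu
  have Gw : Good S f' w := good_step sxw.symm (by grind) (by grind) Gx
  intro v hv
  simp only [Finset.mem_insert, Finset.mem_singleton] at hv
  rcases hv with rfl | rfl | rfl
  all_goals assumption

end Pool.Agent.H38H.CL
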