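import Pool.Agent.Lib.H38H.CLB3

/-!
H38H, module CL, chunk CLX2: exchanges (see the finished template CLX0.lean).
In every proof: suppose the hypotheses hold. `T` is a finite set of named vertices, closed under `f`; `t` is an involution of `T`
given by the listed NEW PAIRS (the other vertices of `T` are fixed); every new pair is an edge of `S` and every branch
vertex of `T` is in a new pair. `f'` is `t` on `T` and `f` elsewhere. The list GOOD shows that all vertices
of `T` are good for `f'`, so `Opt.no_patch` gives `False`.
-/

set_option autoImplicit false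

namespace Pool.Agent.H38H.CL

open Classical

variable {α : Type} {S : SimpleGraph α} {f : α → α}

/-- CLX2 (a). Write `x' = f x`, `y' = f y` (different, not branch vertices; they are ends, so good, for `f`).
T = {x, y, x', y'}. NEW PAIRS: x y. (`w` is not in `T`.) GOOD, in this order:
`x'`: no vertex reachable from `x'` in `HG S f` is `x` (otherwise `x` would be good), so by `reach_del` with
`D = {s(x, y)}` and `del_le`, `x'` reaches `w` in `HG S f'`, and `w` is still an end. `x`: `good_step` to `x'`.
`y`: bad for `f`; by `not_bridge` for the edge `y x` and `D = {s(x, y)}` it reaches `x` in `HG S f'`. `y'`: `good_step` to `y`. -/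
theorem x3a [Finite α] (hd : D23 S) (h : Opt S f) {x y w : α} (hx : Br S x) (hy : Br S y)
    (hxy : (HG S f).Adj x y) (hbad : ¬ Good S f x) (hx' : ¬ Br S (f x)) (hy' : ¬ Br S (f y))
    (hw : ¬ Br S w) (hfw : f w ≠ w) (hr : (HG S f).Reachable (f x) w) (h1 : w ≠ f x)
    (h2 : w ≠ f y) : False := by
  have ybad : ¬ Good S f y := fun hg => hbad (good_of_adj hxy hg)
  obtain ⟨sxy, nxy, nyx⟩ := hxy
  obtain ⟨x', hxx⟩ : ∃ x', x' = f x := ⟨_, rfl⟩
  obtain ⟨y', hyy⟩ : ∃ y', y' = f y := ⟨_, rfl⟩
  have hfx' : f x' = x := by rw [hxx, h.1.inv]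
  have hfy' : f y' = y := by rw [hyy, h.1.inv]
  have sxx : S.Adj x x' := by rw [hxx]; exact h.1.adj x (h.1.cov x hx)
  have syy : S.Adj y y' := by rw [hyy]; exact h.1.adj y (h.1.cov y hy)
  rw [← hxx] at hx' nxy hr h1
  rw [← hyy] at hy' nyx h2
  have e1 := sxy.ne
  have e2 := sxx.ne
  have e3 := syy.ne
  have e4 : x' ≠ y' := by
    intro he
    apply e1
    rw [← hfx', ← hfy', he]
  have g1 : w ≠ x := by rintro rfl; exact hw hx
  have g2 : w ≠ y := by rintro rfl; exact hw hy
  set t : α → α := fun v => if v = x then y else if v = y then x else v with ht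
  have tx : t x = y := by grind
  have ty : t y = x := by grind
  have tx' : t x' = x' := by grind
  have ty' : t y' = y' := by grind
  have c1 : ∀ v ∈ ({x, y, x', y'} : Finset α), f v ∈ ({x, y, x', y'} : Finset α) := by grind
  have c2 : ∀ v ∈ ({x, y, x', y'} : Finset α), t v ∈ ({x, y, x', y'} : Finset α) := by grind
  have c3 : ∀ v ∈ ({x, y, x', y'} : Finset α), t (t v) = v := by grind
  have c4 : ∀ v ∈ ({x, y, x', y'} : Finset α), t v ≠ v → S.Adj v (t v) := by
    grind [SimpleGraph.adj_comm]
  have c5 : ∀ v ∈ ({x, y, x', y'} : Finset α), Br S v → t v ≠ v := by grind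
  refine h.no_patch {x, y, x', y'} t c1 c2 c3 c4 c5 x (by simp) hbad ?_
  have hVM := h.1.patch {x, y, x', y'} t c1 c2 c3 c4 c5
  set f' : α → α := fun v => if v ∈ ({x, y, x', y'} : Finset α) then t v else f v with hf'
  have fx : f' x = y := by grind
  have fy : f' y = x := by grind
  have fx' : f' x' = x' := by grind
  have fy' : f' y' = y' := by grind
  have fw : f' w = f w := by grind
  have hle := del_le hVM {s(x, y)} (f := f) (by
    intro v hv1 hv2
    have hv : v = x ∨ v = y := by grind
    rcases hv with rfl | rfl
    · rw [fx]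
      exact rfl
    · rw [fy]
      exact Sym2.eq_swap)
  have Gx' : Good S f' x' := by
    refine ⟨w, (reach_del hr {s(x, y)} ?_).mono hle, hw, by rw [fw]; exact hfw⟩
    intro e he
    rw [Set.mem_singleton_iff] at he
    refine ⟨x, ?_, ?_⟩
    · rw [he]
      exact Sym2.mem_mk_left x y
    · intro hrx
      exact hbad ⟨w, hrx.symm.trans hr, hw, hfw⟩
  have Gx : Good S f' x := good_step sxx (by grind) (by grind) Gx'
  have Gy : Good S f' y := by
    refine good_of_reach ((not_bridge hd h.1 ybad (u := x) ?_ {s(x, y)} ?_).mono hle) Gx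
    · exact (h.1.hadj y x).2 ⟨sxy.symm, by rw [← hyy]; exact nyx⟩
    · intro e he hne
      rw [Set.mem_singleton_iff] at he
      exact absurd (he.trans Sym2.eq_swap) hne
  have Gy' : Good S f' y' := good_step syy.symm (by grind) (by grind) Gy
  intro v hv
  simp only [Finset.mem_insert, Finset.mem_singleton] at hv
  rcases hv with rfl | rfl | rfl | rfl
  all_goals assumption

/-- CLX2 (b). Write `x' = f x`, `y' = f y`. `q` is good for `f` (adjacent in `HG S f` to the end `x'`), so `q ≠ y`.
Case `q = y'`: T = {x, y, x', y'}, NEW PAIRS: x y, x' y'. Case `f q = q` (so `q ≠ y'`): T = {x, y, x', y', q}, NEW PAIRS: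
x y, x' q (`y'` fixed). GOOD: `x'` and `q` are ends; `x`: `good_step` to `x'`; `y`: `not_bridge` for the edge `y x` with
`D = {s(x, y), s(x', q)}` (`x'` is good for `f`) and `del_le`: `y` reaches `x` in `HG S f'`; `y'`: if `y' ≠ q` `good_step` to `y`. -/
theorem x3b [Finite α] (hd : D23 S) (h : Opt S f) {x y q : α} (hx : Br S x) (hy : Br S y)
    (hxy : (HG S f).Adj x y) (hbad : ¬ Good S f x) (hx' : ¬ Br S (f x)) (hy' : ¬ Br S (f y))
    (hq : ¬ Br S q) (hxq : S.Adj (f x) q) (hqx : q ≠ x) (hfq : f q = q ∨ q = f y) : False := by
  have ybad : ¬ Good S f y := fun hg => hbad (good_of_adj hxy hg)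
  obtain ⟨sxy, nxy, nyx⟩ := hxy
  obtain ⟨x', hxx⟩ : ∃ x', x' = f x := ⟨_, rfl⟩
  obtain ⟨y', hyy⟩ : ∃ y', y' = f y := ⟨_, rfl⟩
  have hfx' : f x' = x := by rw [hxx, h.1.inv]
  have hfy' : f y' = y := by rw [hyy, h.1.inv]
  have sxx : S.Adj x x' := by rw [hxx]; exact h.1.adj x (h.1.cov x hx)
  have syy : S.Adj y y' := by rw [hyy]; exact h.1.adj y (h.1.cov y hy)
  rw [← hxx] at hx' nxy hxq
  rw [← hyy] at hy' nyx hfq
  have e1 := sxy.ne
  have e2 := sxx.ne
  have e3 := syy.ne
  have e4 : x' ≠ y' := by
    intro he
    apply e1
    rw [← hfx', ← hfy', he]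
  have e5 : q ≠ y := by rintro rfl; exact hq hy
  have e6 := hxq.ne
  rcases hfq with hfq | hfq
  · have e7 : q ≠ y' := by
      rintro rfl
      exact e3 (by rw [← hfy', hfq])
    set t : α → α := fun v => if v = x then y else if v = y then x else if v = x' then q else
      if v = q then x' else v with ht
    have tx : t x = y := by grind
    have ty : t y = x := by grind
    have tx' : t x' = q := by grind
    have tq : t q = x' := by grind
    have ty' : t y' = y' := by grind
    have c1 : ∀ v ∈ ({x, y, x', y', q} : Finset α), f v ∈ ({x, y, x', y', q} : Finset α) := by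
      grind
    have c2 : ∀ v ∈ ({x, y, x', y', q} : Finset α), t v ∈ ({x, y, x', y', q} : Finset α) := by
      grind
    have c3 : ∀ v ∈ ({x, y, x', y', q} : Finset α), t (t v) = v := by grind
    have c4 : ∀ v ∈ ({x, y, x', y', q} : Finset α), t v ≠ v → S.Adj v (t v) := by
      grind [SimpleGraph.adj_comm]
    have c5 : ∀ v ∈ ({x, y, x', y', q} : Finset α), Br S v → t v ≠ v := by grind
    refine h.no_patch {x, y, x', y', q} t c1 c2 c3 c4 c5 x (by simp) hbad ?_
    have hVM := h.1.patch {x, y, x', y', q} t c1 c2 c3 c4 c5
    set f' : α → α := fun v => if v ∈ ({x, y, x', y', q} : Finset α) then t v else f v with hf'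
    have fx : f' x = y := by grind
    have fy : f' y = x := by grind
    have fx' : f' x' = q := by grind
    have fy' : f' y' = y' := by grind
    have fq : f' q = x' := by grind
    have hle := del_le hVM {s(x, y), s(x', q)} (f := f) (by
      intro v hv1 hv2
      have hv : v = x ∨ v = y ∨ v = x' ∨ v = q := by grind
      rcases hv with rfl | rfl | rfl | rfl
      · rw [fx]
        exact Or.inl rfl
      · rw [fy]
        exact Or.inl Sym2.eq_swap
      · rw [fx']
        exact Or.inr rfl
      · rw [fq]
        exact Or.inr Sym2.eq_swap)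
    have Gx' : Good S f' x' := good_of_end hx' (by grind)
    have Gq : Good S f' q := good_of_end hq (by grind)
    have Gx : Good S f' x := good_step sxx (by grind) (by grind) Gx'
    have Gy : Good S f' y := by
      refine good_of_reach ((not_bridge hd h.1 ybad (u := x) ?_ {s(x, y), s(x', q)} ?_).mono hle) Gx
      · exact (h.1.hadj y x).2 ⟨sxy.symm, by rw [← hyy]; exact nyx⟩
      · intro e he hne
        rcases he with he | he
        · exact absurd (he.trans Sym2.eq_swap) hne
        · rw [Set.mem_singleton_iff] at he
          refine ⟨x', ?_, good_of_end hx' (by rw [hfx']; exact e2)⟩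
          rw [he]
          exact Sym2.mem_mk_left x' q
    have Gy' : Good S f' y' := good_step syy.symm (by grind) (by grind) Gy
    intro v hv
    simp only [Finset.mem_insert, Finset.mem_singleton] at hv
    rcases hv with rfl | rfl | rfl | rfl | rfl
    all_goals assumption
  · subst hfq
    set t : α → α := fun v => if v = x then y else if v = y then x else if v = x' then q else
      if v = q then x' else v with ht
    have tx : t x = y := by grind
    have ty : t y = x := by grind
    have tx' : t x' = q := by grind
    have tq : t q = x' := by grind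
    refine h.no_patch {x, y, x', q} t ?_ ?_ ?_ ?_ ?_ x (by simp) hbad ?_
    · grind
    · grind
    · grind
    · grind [SimpleGraph.adj_comm]
    · grind
    · set f' : α → α := fun v => if v ∈ ({x, y, x', q} : Finset α) then t v else f v with hf'
      have fx : f' x = y := by grind
      have fy : f' y = x := by grind
      have fx' : f' x' = q := by grind
      have fq : f' q = x' := by grind
      have Gx' : Good S f' x' := good_of_end hx' (by grind)
      have Gq : Good S f' q := good_of_end hq (by grind)
      have Gx : Good S f' x := good_step sxx (by grind) (by grind) Gx'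
      have Gy : Good S f' y := good_step syy (by grind) (by grind) Gq
      intro v hv
      simp only [Finset.mem_insert, Finset.mem_singleton] at hv
      rcases hv with rfl | rfl | rfl | rfl
      all_goals assumption

end Pool.Agent.H38H.CL
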