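import Pool.Agent.Lib.H38H.CLB3

/-!
H38H, module CL, chunk CLX3: exchanges (see the finished template CLX0.lean).
In every proof: suppose the hypotheses hold. `T` is a finite set of named vertices, closed under `f`; `t` is an involution of `T`
given by the listed NEW PAIRS (the other vertices of `T` are fixed); every new pair is an edge of `S` and every branch
vertex of `T` is in a new pair. `f'` is `t` on `T` and `f` elsewhere. The list GOOD shows that all vertices
of `T` are good for `f'`, so `Opt.no_patch` gives `False`.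
-/

set_option autoImplicit false

namespace Pool.Agent.H38H.CL

open Classical

variable {α : Type} {S : SimpleGraph α} {f : α → α}

/-- CLX3 (a). Write `x' = f x`, `y' = f y`, `r = f q` (`r ≠ q` by `cov`). The neighbours of `x'` in `S` are `x` and `q`
(`D23`), so in `HG S f` its only neighbour is `q`; `q` is good for `f`, so `q ≠ y`, `q ≠ x`; `r ≠ x'`, `r ≠ y'` since `f` is injective.
T = {x, y, x', y', q, r}. NEW PAIRS: x y, x' q (`y'`, `r` fixed). GOOD: `x'` is an end. `x`: `good_step` to `x'`.
`y`: `not_bridge` for the edge `y x` with `D = {s(x, y), s(x', q)}` (`x'` is good for `f`) and `del_le`.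
`y'`: `good_step` to `y`. `q`: by `leaf_reach` (leaf `x'`, neighbour `q`, `hr`) `q` reaches `y'` in
`(HG S f).deleteEdges {s(x', q)}`; by `reach_del` one may also delete `s(x, y)` (`x` is not reachable from
`q`: `q` is good and `x` is bad); with `del_le` `q` reaches `y'` in `HG S f'`.
`r`: `good_step` to `q`. -/
theorem x3c [Finite α] (hd : D23 S) (h : Opt S f) {x y q : α} (hx : Br S x) (hy : Br S y)
    (hxy : (HG S f).Adj x y) (hbad : ¬ Good S f x) (hx' : ¬ Br S (f x)) (hy' : ¬ Br S (f y))
    (hq : Br S q) (hxq : S.Adj (f x) q) (hqx : q ≠ x) (hfq : ¬ Br S (f q))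
    (hr : (HG S f).Reachable (f x) (f y)) : False := by
  obtain ⟨x', hx1⟩ : ∃ x', f x = x' := ⟨_, rfl⟩
  obtain ⟨y', hy1⟩ : ∃ y', f y = y' := ⟨_, rfl⟩
  obtain ⟨r, hq1⟩ : ∃ r, f q = r := ⟨_, rfl⟩
  rw [hx1] at hx' hxq
  rw [hy1] at hy'
  rw [hq1] at hfq
  rw [hx1, hy1] at hr
  have hx2 : f x' = x := by rw [← hx1, h.1.inv]
  have hy2 : f y' = y := by rw [← hy1, h.1.inv]
  have hq2 : f r = q := by rw [← hq1, h.1.inv]
  have sxy : S.Adj x y := hxy.1
  have sx : S.Adj x x' := by have := h.1.adj x (h.1.cov x hx); rwa [hx1] at this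
  have sy : S.Adj y y' := by have := h.1.adj y (h.1.cov y hy); rwa [hy1] at this
  have sq : S.Adj q r := by have := h.1.adj q (h.1.cov q hq); rwa [hq1] at this
  have e1 := sxy.ne
  have e2 := sx.ne
  have e3 := sy.ne
  have e4 := sq.ne
  have e5 := hxq.ne
  have e6 : x ≠ y' := by rintro rfl; exact hy' hx
  have e7 : x ≠ r := by rintro rfl; exact hfq hx
  have e8 : y ≠ x' := by rintro rfl; exact hx' hy
  have e9 : y ≠ r := by rintro rfl; exact hfq hy
  have e10 : q ≠ y' := by rintro rfl; exact hy' hq
  have e11 : x' ≠ y' := by rintro rfl; exact e1 (by rw [← hx2, hy2])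
  have e12 : x' ≠ r := by rintro rfl; exact hqx (by rw [← hx2, hq2])
  have Gx' : Good S f x' := good_of_end hx' (by rw [hx2]; exact e2)
  have Gq0 : Good S f q := good_step hxq.symm (by rw [hq1]; exact e12.symm) (by rw [hx2]; exact hqx.symm) Gx'
  have hby : ¬ Good S f y := bad_of_adj h.1 hbad sxy (by rw [hx1]; exact e8.symm)
  have e13 : q ≠ y := by rintro rfl; exact hby Gq0
  have e14 : y' ≠ r := by rintro rfl; exact e13 (by rw [← hy2, hq2])
  set t : α → α := fun v => if v = x then y else if v = y then x else if v = x' then q else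
    if v = q then x' else v with ht
  have tx : t x = y := by grind
  have ty : t y = x := by grind
  have tx' : t x' = q := by grind
  have tq : t q = x' := by grind
  have ty' : t y' = y' := by grind
  have tr : t r = r := by grind
  have hT1 : ∀ v ∈ ({x, y, x', y', q, r} : Finset α), f v ∈ ({x, y, x', y', q, r} : Finset α) := by grind
  have hT2 : ∀ v ∈ ({x, y, x', y', q, r} : Finset α), t v ∈ ({x, y, x', y', q, r} : Finset α) := by grind
  have hT3 : ∀ v ∈ ({x, y, x', y', q, r} : Finset α), t (t v) = v := by grind
  have hT4 : ∀ v ∈ ({x, y, x', y', q, r} : Finset α), t v ≠ v → S.Adj v (t v) := by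
    grind [SimpleGraph.adj_comm]
  have hT5 : ∀ v ∈ ({x, y, x', y', q, r} : Finset α), Br S v → t v ≠ v := by grind
  have hVM := h.1.patch {x, y, x', y', q, r} t hT1 hT2 hT3 hT4 hT5
  refine h.no_patch {x, y, x', y', q, r} t hT1 hT2 hT3 hT4 hT5 x (by simp) hbad ?_
  set f' : α → α := fun v => if v ∈ ({x, y, x', y', q, r} : Finset α) then t v else f v with hf'
  have gx : f' x = y := by grind
  have gy : f' y = x := by grind
  have gx' : f' x' = q := by grind
  have gq : f' q = x' := by grind
  have gy' : f' y' = y' := by grind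
  have gr : f' r = r := by grind
  have hle : (HG S f).deleteEdges {s(x, y), s(x', q)} ≤ HG S f' := by
    refine del_le hVM _ fun v hv1 hv2 => ?_
    by_cases hv : v ∈ ({x, y, x', y', q, r} : Finset α)
    · simp only [Finset.mem_insert, Finset.mem_singleton] at hv
      rcases hv with rfl | rfl | rfl | rfl | rfl | rfl
      · rw [gx]; exact Or.inl rfl
      · rw [gy]; exact Or.inl Sym2.eq_swap
      · rw [gx']; exact Or.inr rfl
      · exact absurd gy' hv2
      · rw [gq]; exact Or.inr Sym2.eq_swap
      · exact absurd gr hv2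
    · exact absurd (if_neg hv) hv1
  have Gx1 : Good S f' x' := good_of_end hx' (by rw [gx']; exact e5.symm)
  have Gx : Good S f' x := good_step sx (by rw [gx]; exact e8) (by rw [gx']; exact hqx) Gx1
  have Gy : Good S f' y := by
    have h1 : (HG S f).Adj y x := hxy.symm
    have h2 := not_bridge hd h.1 hby h1 {s(x, y), s(x', q)} (by
      intro e he hne
      rcases he with he | he
      · exact absurd (by rw [he, Sym2.eq_swap]) hne
      · rw [Set.mem_singleton_iff] at he
        rw [he]
        exact ⟨x', Sym2.mem_mk_left _ _, Gx'⟩)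
    exact good_of_reach (h2.mono hle) Gx
  have Gy' : Good S f' y' := good_step sy.symm (by rw [gy']; exact e3.symm) (by rw [gy]; exact e6) Gy
  have Gq : Good S f' q := by
    have hnb : ∀ w, (HG S f).Adj x' w ↔ w = q := by
      intro w
      rw [h.1.hadj, hx2]
      have hn : (S.neighborSet x').ncard = 2 := by
        rcases hd x' with h1 | h1
        · exact h1
        · exact absurd h1 hx'
      have hs : S.neighborSet x' = {x, q} := by
        symm
        refine Set.eq_of_subset_of_ncard_le ?_ ?_ (Set.toFinite _)
        · intro z hz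
          rcases hz with rfl | hz
          · exact sx.symm
          · rw [Set.mem_singleton_iff] at hz
            rw [hz]
            exact hxq
        · rw [hn, Set.ncard_pair hqx.symm]
      constructor
      · rintro ⟨h1, h2⟩
        have h3 : w ∈ S.neighborSet x' := h1
        rw [hs] at h3
        rcases h3 with h3 | h3
        · exact absurd h3.symm h2
        · exact h3
      · rintro rfl
        exact ⟨hxq, hqx.symm⟩
    have h1 := leaf_reach hnb hr e11
    have h2 := reach_del h1 {s(x, y)} (by
      intro e he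
      rw [Set.mem_singleton_iff] at he
      refine ⟨x, by rw [he]; exact Sym2.mem_mk_left _ _, fun h3 => hbad ?_⟩
      have h4 : (HG S f).Reachable q x := h3.mono (SimpleGraph.deleteEdges_le _)
      exact good_of_reach h4.symm Gq0)
    rw [SimpleGraph.deleteEdges_deleteEdges] at h2
    have h3 : (HG S f).deleteEdges ({s(x', q)} ∪ {s(x, y)}) ≤ (HG S f).deleteEdges {s(x, y), s(x', q)} := by
      refine SimpleGraph.deleteEdges_anti ?_
      rintro e (he | he)
      · exact Or.inr he
      · exact Or.inl he
    exact good_of_reach (h2.mono (h3.trans hle)) Gy'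
  have Gr : Good S f' r := good_step sq.symm (by rw [gr]; exact e4.symm) (by rw [gq]; exact e12) Gq
  intro v hv
  simp only [Finset.mem_insert, Finset.mem_singleton] at hv
  rcases hv with rfl | rfl | rfl | rfl | rfl | rfl
  all_goals assumption

/-- CLX3 (b). Write `x' = f x`, `y' = f y`, `r = f q` (branch). `x ≠ q` since `f x` is not a branch vertex, same `y ≠ q`.
T = {y, y', q, r}. NEW PAIRS: y r, q y'. GOOD: `y'` is an end. `y`: `good_step` to `y'`. `q`: `good_step` to `x'`
(not in `T`, still an end with `f' x' = x`). `r`: `good_step` to `q`. -/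
theorem x3d (h : Opt S f) {x y q : α} (hx : Br S x) (hy : Br S y) (hq : Br S q)
    (hr : Br S (f q)) (hx' : ¬ Br S (f x)) (hy' : ¬ Br S (f y)) (hxy : x ≠ y)
    (h1 : S.Adj (f x) q) (h2 : S.Adj (f y) q) (h3 : S.Adj y (f q)) (hbad : ¬ Good S f y) : False := by
  obtain ⟨x', hx1⟩ : ∃ x', f x = x' := ⟨_, rfl⟩
  obtain ⟨y', hy1⟩ : ∃ y', f y = y' := ⟨_, rfl⟩
  obtain ⟨r, hq1⟩ : ∃ r, f q = r := ⟨_, rfl⟩
  rw [hx1] at hx' h1
  rw [hy1] at hy' h2
  rw [hq1] at hr h3
  have hx2 : f x' = x := by rw [← hx1, h.1.inv]
  have hy2 : f y' = y := by rw [← hy1, h.1.inv]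
  have hq2 : f r = q := by rw [← hq1, h.1.inv]
  have sx : S.Adj x x' := by have := h.1.adj x (h.1.cov x hx); rwa [hx1] at this
  have sy : S.Adj y y' := by have := h.1.adj y (h.1.cov y hy); rwa [hy1] at this
  have sq : S.Adj q r := by have := h.1.adj q (h.1.cov q hq); rwa [hq1] at this
  have e1 := sx.ne
  have e2 := sy.ne
  have e3 := sq.ne
  have e4 := h2.ne
  have e5 := h3.ne
  have e6 : x ≠ q := by rintro rfl; rw [hx1] at hq1; exact hx' (by rw [hq1]; exact hr)
  have e7 : y ≠ q := by rintro rfl; rw [hy1] at hq1; exact hy' (by rw [hq1]; exact hr)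
  have e8 : x' ≠ y' := by rintro rfl; exact hxy (by rw [← hx2, hy2])
  have e9 : x' ≠ y := by rintro rfl; exact hx' hy
  have e10 : x' ≠ q := by rintro rfl; exact hx' hq
  have e11 : x' ≠ r := by rintro rfl; exact hx' hr
  have e12 : y' ≠ r := by rintro rfl; exact hy' hr
  set t : α → α := fun v => if v = y then r else if v = r then y else if v = q then y' else
    if v = y' then q else v with ht
  have ty : t y = r := by grind
  have tr : t r = y := by grind
  have tq : t q = y' := by grind
  have ty' : t y' = q := by grind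
  refine h.no_patch {y, y', q, r} t ?_ ?_ ?_ ?_ ?_ y (by simp) hbad ?_
  · grind
  · grind
  · grind
  · grind [SimpleGraph.adj_comm]
  · grind
  · set f' : α → α := fun v => if v ∈ ({y, y', q, r} : Finset α) then t v else f v with hf'
    have gy : f' y = r := by grind
    have gr : f' r = y := by grind
    have gq : f' q = y' := by grind
    have gy' : f' y' = q := by grind
    have gx' : f' x' = x := by grind
    have Gx' : Good S f' x' := good_of_end hx' (by rw [gx']; exact e1)
    have Gy' : Good S f' y' := good_of_end hy' (by rw [gy']; exact e4.symm)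
    have Gy : Good S f' y := good_step sy (by rw [gy]; exact e12.symm) (by rw [gy']; exact e7.symm) Gy'
    have Gq : Good S f' q := good_step h1.symm (by rw [gq]; exact e8.symm) (by rw [gx']; exact e6) Gx'
    have Gr : Good S f' r := good_step sq.symm (by rw [gr]; exact e7) (by rw [gq]; exact e12) Gq
    intro v hv
    simp only [Finset.mem_insert, Finset.mem_singleton] at hv
    rcases hv with rfl | rfl | rfl | rfl
    all_goals assumption

end Pool.Agent.H38H.CL
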