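import Pool.Agent.Lib.H38H.CLF1
import Pool.Agent.Lib.H38H.CLX1
import Pool.Agent.Lib.H38H.CLX2
import Pool.Agent.Lib.H38H.CLX3

/-!
H38H, module CL, chunk CLF2.
-/

set_option autoImplicit false

namespace Pool.Agent.H38H.CL

open Classical

variable {α : Type} [Finite α] {S : SimpleGraph α} {f : α → α}

omit [Finite α] in
theorem clf2_nb {x z : α} (h1 : ¬ Br S x) (h2 : Br S z) : x ≠ z := by
  intro h3
  exact h1 (h3 ▸ h2)

/-- steps (1)-(3) for one side -/
theorem clf2_side (hd : D23 S) (h : Opt S f) {x y : α} (hx : Br S x)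
    (hy : Br S y) (hxy : S.Adj x y) (hbad : ¬ Good S f x) (hx' : ¬ Br S (f x)) (hy' : ¬ Br S (f y)) :
    ∃ q, q ≠ x ∧ S.Adj (f x) q ∧ Br S q ∧ Br S (f q) ∧ Good S f q := by
  have sxx : S.Adj x (f x) := h.1.adj x (h.1.cov x hx)
  have hxyH : (HG S f).Adj x y := (h.1.hadj x y).2 ⟨hxy, clf2_nb hx' hy⟩
  have hffx : f (f x) = x := h.1.inv x
  have hxf : f (f x) ≠ f x := by rw [hffx]; exact (clf2_nb hx' hx).symm
  obtain ⟨w, hw1, hw2, hw3, hw4⟩ := other_end hd h.1 hx' hxf
  have hwy : w = f y := by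
    by_contra hne
    exact x3a hd h hx hy hxyH hbad hx' hy' hw3 hw4 hw2 hw1 hne
  rw [hwy] at hw2
  obtain ⟨q, hq1, hq2, hq3⟩ := nonbranch_nbrs hd hx' sxx.symm
  have hqx : f (f x) ≠ q := by rw [hffx]; exact hq1.symm
  have hqH : (HG S f).Adj (f x) q := (h.1.hadj _ _).2 ⟨hq2, hqx⟩
  have hgx' : Good S f (f x) := good_of_end hx' hxf
  have hgq : Good S f q := good_of_adj hqH.symm hgx'
  have hqB : Br S q := by
    by_contra hqB
    by_cases h1 : f q = q ∨ q = f y
    · exact x3b hd h hx hy hxyH hbad hx' hy' hqB hq2 hq1 h1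
    · push Not at h1
      exact x3a hd h hx hy hxyH hbad hx' hy' hqB h1.1 hqH.reachable hq2.ne' h1.2
  have hfq : Br S (f q) := by
    by_contra hfq
    exact x3c hd h hx hy hxyH hbad hx' hy' hqB hq2 hq1 hfq hw2
  exact ⟨q, hq1, hq2, hqB, hfq, hgq⟩

/-- CLF2 (a). Two adjacent bad branch vertices do not both have partners of degree two.
PROOF. Suppose `f y` is not a branch vertex. Put `x' = f x`, `y' = f y`; `x' ≠ y` (a branch vertex), so `x` and `y` are adjacent in
`HG S f`, `y` is bad (`bad_of_adj`). Everything below is symmetric in `x`, `y`.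
(1) `other_end` for `x'`: an end `w ≠ x'` reachable from `x'`. If `w ≠ y'`: `x3a`. So `x'` reaches `y'` in `HG S f`.
(2) Let `q ≠ x` be the other neighbour of `x'` (`nonbranch_nbrs`); `x'` and `q` are adjacent in `HG S f` (`f x' = x`), so `q` is
good. If `q` is not a branch vertex: if `f q = q` or `q = y'` use `x3b`; otherwise `q` is an end and `x3a` applies with `w = q`.
So `q` is a branch vertex, and `f q` is a branch vertex by `x3c`. (3) In the same way (roles of `x`, `y` exchanged):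
the other neighbour `s ≠ y` of `y'` is a good branch vertex (and `f s` is a branch vertex).
(4) `r = f q`. `q ≠ x, y` (good and bad), `r ≠ x` (otherwise `q = f x`), `r ≠ y`, `r ≠ q`. By `branch_four` the branch vertices
are exactly `x, y, q, r`. (5) Let `t` be the third neighbour of `x` (`branch_nbrs` with `x'`, `y`). It is bad. It is a
branch vertex: otherwise `x_partner` gives `Br S (f x)`. So `t = r` (`t ≠ x`, `t ≠ y`, `t ≠ q` as `q` is good). So `r` is bad and
`S.Adj x r`. In the same way `S.Adj y r`. (6) `s` is good, so `s ≠ x, y, r`: `s = q`. Now `x3d`. -/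
theorem x3 (hd : D23 S) (h4 : {v | Br S v}.ncard ≤ 4) (h : Opt S f) {x y : α} (hx : Br S x)
    (hy : Br S y) (hxy : S.Adj x y) (hbad : ¬ Good S f x) (hx' : ¬ Br S (f x)) : Br S (f y) := by
  by_contra hy'
  have hyb : ¬ Good S f y := bad_of_adj h.1 hbad hxy (clf2_nb hx' hy)
  obtain ⟨q, hq1, hq2, hqB, hrB, hqG⟩ := clf2_side hd h hx hy hxy hbad hx' hy'
  obtain ⟨s, hs1, hs2, hsB, _, hsG⟩ := clf2_side hd h hy hx hxy.symm hyb hy' hx'
  have gb : ∀ {u v : α}, Good S f u → ¬ Good S f v → u ≠ v := by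
    intro u v h1 h2 h3
    exact h2 (h3 ▸ h1)
  have hqx := gb hqG hbad
  have hqy := gb hqG hyb
  have hrx : f q ≠ x := by
    intro e
    have : q = f x := by rw [← e, h.1.inv]
    exact hx' (this ▸ hqB)
  have hry : f q ≠ y := by
    intro e
    have : q = f y := by rw [← e, h.1.inv]
    exact hy' (this ▸ hqB)
  have hrq : f q ≠ q := h.1.cov q hqB
  have hthird : ∀ {u v : α}, Br S u → Br S v → S.Adj u v → ¬ Good S f u → ¬ Good S f v →
      ¬ Br S (f u) → u ≠ v → (∀ e, Br S e → e = u ∨ e = v ∨ e = q ∨ e = f q) →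
      ¬ Good S f (f q) ∧ S.Adj u (f q) := by
    intro u v hu hv huv hub hvb hfu huv' hall
    have suu : S.Adj u (f u) := h.1.adj u (h.1.cov u hu)
    obtain ⟨t, ht1, ht2, ht3, _⟩ := branch_nbrs hu suu huv (clf2_nb hfu hv)
    have htb : ¬ Good S f t := bad_of_adj h.1 hub ht3 ht1.symm
    have htB : Br S t := by
      by_contra htB
      exact hfu (x_partner hd h htB hu ht3.symm htb)
    rcases hall t htB with e | e | e | e
    · exact absurd e ht3.ne'
    · exact absurd e ht2
    · rw [e] at htb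
      exact absurd hqG htb
    · rw [e] at htb ht3
      exact ⟨htb, ht3⟩
  have hall : ∀ e, Br S e → e = x ∨ e = y ∨ e = q ∨ e = f q := by
    intro e he
    exact branch_four h4 hx hy hqB hrB he hxy.ne hqx.symm hrx.symm hqy.symm hry.symm hrq.symm
  obtain ⟨hrb, hxr⟩ := hthird hx hy hxy hbad hyb hx' hxy.ne hall
  have hall' : ∀ e, Br S e → e = y ∨ e = x ∨ e = q ∨ e = f q := by
    intro e he
    rcases hall e he with h1 | h1 | h1 | h1
    · exact Or.inr (Or.inl h1)
    · exact Or.inl h1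
    · exact Or.inr (Or.inr (Or.inl h1))
    · exact Or.inr (Or.inr (Or.inr h1))
  obtain ⟨_, hyr⟩ := hthird hy hx hxy.symm hyb hbad hy' hxy.ne' hall'
  have hsq : s = q := by
    rcases hall s hsB with e | e | e | e
    · exact absurd e (gb hsG hbad)
    · exact absurd e (gb hsG hyb)
    · exact e
    · exact absurd e (gb hsG hrb)
  rw [hsq] at hs2
  exact x3d h hx hy hqB hrB hx' hy' hxy.ne hq2 hs2 hyr hyb

/-- CLF2 (b). Neighbours of a bad vertex of degree two.
PROOF. `f u = u` (`bad_fix`). `b` from `nonbranch_nbrs`. Both neighbours are bad (`bad_of_adj`), so branch vertices by `x_pair`; their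
partners are branch vertices by `x_partner`. -/
theorem bad_nonbranch (hd : D23 S) (h : Opt S f) {u a : α} (hu : ¬ Br S u) (hbu : ¬ Good S f u)
    (hua : S.Adj u a) : ∃ b, b ≠ a ∧ S.Adj u b ∧ (∀ w, S.Adj u w → w = a ∨ w = b) ∧ Br S a ∧ Br S b ∧
      Br S (f a) ∧ Br S (f b) ∧ ¬ Good S f a ∧ ¬ Good S f b := by
  have hfu : f u = u := bad_fix hbu hu
  obtain ⟨b, hb1, hb2, hb3⟩ := nonbranch_nbrs hd hu hua
  have key : ∀ w, S.Adj u w → Br S w ∧ Br S (f w) ∧ ¬ Good S f w := by
    intro w hw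
    have hwb : ¬ Good S f w := bad_of_adj h.1 hbu hw (by rw [hfu]; exact hw.ne)
    have hwB : Br S w := by
      by_contra hwB
      exact x_pair h hu hwB hw hbu hwb
    exact ⟨hwB, x_partner hd h hu hwB hw hbu, hwb⟩
  obtain ⟨a1, a2, a3⟩ := key a hua
  obtain ⟨b1, b2, b3⟩ := key b hb2
  exact ⟨b, hb1, hb2, hb3, a1, b1, a2, b2, a3, b3⟩

/-- CLF2 (c). PROOF. `y` is bad (`bad_of_adj`). If `y` is not a branch vertex then `x_partner` (for `y`, `x`) gives
`Br S (f x)`, contradiction. The partner: `x3`. -/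
theorem bad_nb_partner (hd : D23 S) (h4 : {v | Br S v}.ncard ≤ 4) (h : Opt S f) {x y : α}
    (hx : Br S x) (hbad : ¬ Good S f x) (hx' : ¬ Br S (f x)) (hxy : S.Adj x y) (hy : y ≠ f x) :
    Br S y ∧ Br S (f y) ∧ ¬ Good S f y := by
  have hyb : ¬ Good S f y := bad_of_adj h.1 hbad hxy hy.symm
  have hyB : Br S y := by
    by_contra hyB
    exact hx' (x_partner hd h hyB hx hxy.symm hyb)
  exact ⟨hyB, x3 hd h4 h hx hyB hxy hbad hx', hyb⟩

/-- CLF2 (d). If there is a bad vertex there is a bad branch vertex whose partner is a branch vertex.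
PROOF. If `v` is not a branch vertex: it has a neighbour (degree two), use (b). If it is: if `Br S (f v)` take `a = v`; otherwise `v` has
a neighbour `y ≠ f v` (`branch_nbrs'`), use (c). -/
theorem bad_pair (hd : D23 S) (h4 : {v | Br S v}.ncard ≤ 4) (h : Opt S f) {v : α}
    (hv : ¬ Good S f v) : ∃ a, Br S a ∧ Br S (f a) ∧ ¬ Good S f a := by
  by_cases hvB : Br S v
  · by_cases hfv : Br S (f v)
    · exact ⟨v, hvB, hfv, hv⟩
    · have svv : S.Adj v (f v) := h.1.adj v (h.1.cov v hvB)
      obtain ⟨b, c, hb1, _, _, hb2, _, _⟩ := branch_nbrs' hvB svv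
      obtain ⟨h1, h2, h3⟩ := bad_nb_partner hd h4 h hvB hv hfv hb2 hb1
      exact ⟨b, h1, h2, h3⟩
  · have hne : (S.neighborSet v).Nonempty := by
      rw [Set.nonempty_iff_ne_empty]
      intro he
      have := hd v
      rw [he, Set.ncard_empty] at this
      omega
    obtain ⟨a, ha⟩ := hne
    obtain ⟨b, _, _, _, h1, _, h2, _, h3, _⟩ := bad_nonbranch hd h hvB hv ha
    exact ⟨a, h1, h2, h3⟩

/-- CLF2 (e). PROOF. If `f q` is a branch vertex it is one of `a, b, c, d` (`branch_four`), so `q = f (f q)` is `b`, `a`, `d` or `c`. -/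
theorem partner_nonbranch (h4 : {v | Br S v}.ncard ≤ 4) (h : VM S f) {a b c d q : α} (ha : Br S a)
    (hb : Br S b) (hc : Br S c) (hd : Br S d) (hab : f a = b) (hcd : f c = d) (hac : a ≠ c)
    (had : a ≠ d) (hq : ¬ Br S q) : ¬ Br S (f q) := by
  intro hfq
  have hfb : f b = a := by rw [← hab, h.inv]
  have hfd : f d = c := by rw [← hcd, h.inv]
  have hab' : a ≠ b := by
    rw [← hab]
    exact (h.cov a ha).symm
  have hcd' : c ≠ d := by
    rw [← hcd]
    exact (h.cov c hc).symm
  have hbc : b ≠ c := by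
    intro e
    apply had
    rw [← hcd, ← e, hfb]
  have hbd : b ≠ d := by
    intro e
    apply hac
    rw [← hfb, e, hfd]
  rcases branch_four h4 ha hb hc hd hfq hab' hac had hbc hbd hcd' with e | e | e | e
  · exact hq (by rw [← h.inv q, e, hab]; exact hb)
  · exact hq (by rw [← h.inv q, e, hfb]; exact ha)
  · exact hq (by rw [← h.inv q, e, hcd]; exact hd)
  · exact hq (by rw [← h.inv q, e, hfd]; exact hc)

end Pool.Agent.H38H.CL
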