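import Pool.Agent.Lib.H38H.CLB3

/-!
H38H, module CL, chunk CLX4: exchanges (see the finished template CLX0.lean).
In every proof: suppose the hypotheses hold. `T` is a finite set of named vertices, closed under `f`; `t` is an involution of `T`
given by the listed NEW PAIRS (the other vertices of `T` are fixed); every new pair is an edge of `S` and every branch
vertex of `T` is in a new pair. `f'` is `t` on `T` and `f` elsewhere. The list GOOD shows that all vertices
of `T` are good for `f'`, so `Opt.no_patch` gives `False`.
-/

set_option autoImplicit false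

namespace Pool.Agent.H38H.CL

open Classical

variable {α : Type} {S : SimpleGraph α} {f : α → α}

/-- CLX4 (a). `u` is bad for `f` (adjacent to `a` in `HG S f`), `q` is good for `f` (adjacent to `b`), so `u ≠ q`, `f u = u`.
Let `r = f q` (possibly `r = q`). T = {a, b, u, q, r}. NEW PAIRS: a u, b q (`r` fixed if `r ≠ q`).
GOOD: `u`, `q` are ends. `a`: `not_bridge` for the edge `a u` with `D = {s(a, u), s(b, q)}` (`b` is good for `f`) and
`del_le`: `a` reaches `u` in `HG S f'`. `b`: `good_step` to `a`. `r` (if `≠ q`): `good_step` to `q`. -/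
theorem x4 [Finite α] (hd : D23 S) (h : Opt S f) {a b u q : α} (hab : f a = b) (ha : Br S a)
    (hb : Br S b) (hu : ¬ Br S u) (hau : S.Adj a u) (hbad : ¬ Good S f a) (hgb : Good S f b)
    (hq : ¬ Br S q) (hbq : S.Adj b q) (hfq : ¬ Br S (f q)) : False := by
  have hba : f b = a := by rw [← hab, h.1.inv]
  have sab : S.Adj a b := by have := h.1.adj a (h.1.cov a ha); rwa [hab] at this
  have e_ab := sab.ne
  have n_au : a ≠ u := hau.ne
  have n_bu : b ≠ u := by intro hh; exact hu (by rw [← hh]; exact hb)
  have n_aq : a ≠ q := by intro hh; exact hq (by rw [← hh]; exact ha)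
  have n_bq : b ≠ q := hbq.ne
  have bu : ¬ Good S f u := bad_of_adj h.1 hbad hau (by rw [hab]; exact n_bu)
  have hfu : f u = u := bad_fix bu hu
  have n_uq : u ≠ q := by
    intro hh
    apply bu
    rw [hh]
    exact good_of_adj ((h.1.hadj q b).2 ⟨hbq.symm, by
      intro h3
      have h4 := h.1.inv q
      rw [h3, hba] at h4
      exact n_aq h4⟩) hgb
  obtain ⟨r, hr1⟩ : ∃ r, r = f q := ⟨_, rfl⟩
  rw [← hr1] at hfq
  have hrq : f r = q := by rw [hr1, h.1.inv]
  have srq : q ≠ r → S.Adj q r := by
    intro hh
    rw [hr1]
    exact h.1.adj q (by rw [← hr1]; exact hh.symm)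
  have n_ar : a ≠ r := by intro hh; exact hfq (by rw [← hh]; exact ha)
  have n_br : b ≠ r := by intro hh; exact hfq (by rw [← hh]; exact hb)
  have n_ur : u ≠ r := by intro hh; rw [← hh, hfu] at hrq; exact n_uq hrq
  set t : α → α := fun z => if z = a then u else if z = u then a else if z = b then q else if z = q then b else z with ht
  have t_a : t a = u := by grind
  have t_u : t u = a := by grind
  have t_b : t b = q := by grind
  have t_q : t q = b := by grind
  have t_r : r ≠ q → t r = r := by grind
  have hT : ∀ v ∈ ({a, b, u, q, r} : Finset α), f v ∈ ({a, b, u, q, r} : Finset α) := by grind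
  have ht1 : ∀ v ∈ ({a, b, u, q, r} : Finset α), t v ∈ ({a, b, u, q, r} : Finset α) := by grind
  have ht2 : ∀ v ∈ ({a, b, u, q, r} : Finset α), t (t v) = v := by grind
  have ht3 : ∀ v ∈ ({a, b, u, q, r} : Finset α), t v ≠ v → S.Adj v (t v) := by
    grind [SimpleGraph.adj_comm]
  have ht4 : ∀ v ∈ ({a, b, u, q, r} : Finset α), Br S v → t v ≠ v := by grind
  refine h.no_patch {a, b, u, q, r} t hT ht1 ht2 ht3 ht4 a (by simp) hbad ?_
  have hVM := h.1.patch {a, b, u, q, r} t hT ht1 ht2 ht3 ht4
  set f' : α → α := fun z => if z ∈ ({a, b, u, q, r} : Finset α) then t z else f z with hf'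
  have g_a : f' a = u := by grind
  have g_u : f' u = a := by grind
  have g_b : f' b = q := by grind
  have g_q : f' q = b := by grind
  have g_r : r ≠ q → f' r = r := by grind
  have G_u : Good S f' u := good_of_end hu (by grind)
  have G_q : Good S f' q := good_of_end hq (by grind)
  have G_a : Good S f' a := by
    have h1 := not_bridge hd h.1 hbad ((h.1.hadj a u).2 ⟨hau, by rw [hab]; exact n_bu⟩)
      {s(a, u), s(b, q)} (by
        intro e he hne
        rcases he with he | he
        · exact absurd he hne
        · exact ⟨b, by rw [he]; simp, hgb⟩)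
    refine good_of_reach (h1.mono (del_le hVM _ ?_)) G_u
    intro v hv1 hv2
    by_cases hv : v ∈ ({a, b, u, q, r} : Finset α)
    · simp only [Finset.mem_insert, Finset.mem_singleton] at hv
      rcases hv with h0 | h0 | h0 | h0 | h0
      · rw [h0, g_a]; simp
      · rw [h0, g_b]; simp
      · rw [h0, g_u]; simp [Sym2.eq_swap]
      · rw [h0, g_q]; simp [Sym2.eq_swap]
      · by_cases hh : r = q
        · rw [h0, hh, g_q]; simp [Sym2.eq_swap]
        · exact absurd (by rw [h0]; exact g_r hh) hv2
    · exact absurd (by rw [hf']; simp only [hv, if_false]) hv1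
  have G_b : Good S f' b := good_step sab.symm (by grind) (by grind) G_a
  have G_r : Good S f' r := by
    by_cases hh : r = q
    · rw [hh]; exact G_q
    · exact good_step (srq (Ne.symm hh)).symm (by grind) (by grind) G_q
  intro z hz
  simp only [Finset.mem_insert, Finset.mem_singleton] at hz
  rcases hz with rfl | rfl | rfl | rfl | rfl
  all_goals assumption

/-- CLX4 (b). `u`, `v` are bad for `f`, `f u = u`, `f v = v`. T = {a, b, u, v}. NEW PAIRS: b u, a v.
GOOD: `u`, `v` are ends. `a`: `good_step` to `u`. `b`: `good_step` to `a`. -/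
theorem x7 (h : Opt S f) {a b u v : α} (hab : f a = b) (ha : Br S a) (hb : Br S b)
    (hu : ¬ Br S u) (hv : ¬ Br S v) (huv : u ≠ v) (hau : S.Adj a u) (hbu : S.Adj b u)
    (hav : S.Adj a v) (hbad : ¬ Good S f a) : False := by
  have hba : f b = a := by rw [← hab, h.1.inv]
  have sab : S.Adj a b := by have := h.1.adj a (h.1.cov a ha); rwa [hab] at this
  have e_ab := sab.ne
  have n_au : a ≠ u := hau.ne
  have n_bu : b ≠ u := hbu.ne
  have n_av : a ≠ v := hav.ne
  have n_bv : b ≠ v := by intro hh; exact hv (by rw [← hh]; exact hb)
  have bu : ¬ Good S f u := bad_of_adj h.1 hbad hau (by rw [hab]; exact n_bu)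
  have hfu : f u = u := bad_fix bu hu
  have bv : ¬ Good S f v := bad_of_adj h.1 hbad hav (by rw [hab]; exact n_bv)
  have hfv : f v = v := bad_fix bv hv
  set t : α → α := fun z => if z = b then u else if z = u then b else if z = a then v else if z = v then a else z with ht
  have t_b : t b = u := by grind
  have t_u : t u = b := by grind
  have t_a : t a = v := by grind
  have t_v : t v = a := by grind
  refine h.no_patch {a, b, u, v} t ?_ ?_ ?_ ?_ ?_ a (by simp) hbad ?_
  · grind
  · grind
  · grind
  · grind [SimpleGraph.adj_comm]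
  · grind
  · set f' : α → α := fun z => if z ∈ ({a, b, u, v} : Finset α) then t z else f z with hf'
    have g_a : f' a = v := by grind
    have g_v : f' v = a := by grind
    have g_b : f' b = u := by grind
    have g_u : f' u = b := by grind
    have G_u : Good S f' u := good_of_end hu (by grind)
    have G_v : Good S f' v := good_of_end hv (by grind)
    have G_a : Good S f' a := good_step hau (by grind) (by grind) G_u
    have G_b : Good S f' b := good_step sab.symm (by grind) (by grind) G_a
    intro z hz
    simp only [Finset.mem_insert, Finset.mem_singleton] at hz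
    rcases hz with rfl | rfl | rfl | rfl
    all_goals assumption

end Pool.Agent.H38H.CL
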