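import Pool.Agent.Lib.H38H.CLDefs

/-!
H38H, module CL, chunk CLX5: exchanges (see the finished template CLX0.lean).
In every proof: suppose the hypotheses hold. `T` is a finite set of named vertices, closed under `f`; `t` is an involution of `T`
given by the listed NEW PAIRS (the other vertices of `T` are fixed); every new pair is an edge of `S` and every branch
vertex of `T` is in a new pair. `f'` is `t` on `T` and `f` elsewhere. The list GOOD shows that all vertices
of `T` are good for `f'`, so `Opt.no_patch` gives `False`.
-/

set_option autoImplicit false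

namespace Pool.Agent.H38H.CL

open Classical

variable {α : Type} {S : SimpleGraph α} {f : α → α}

/-- CLX5 (a). Write `w = f c`. `u` is bad for `f`, `f u = u`. T = {a, b, c, w, u}. NEW PAIRS: a c, b u (`w` fixed).
GOOD: `u` is an end. `a`: `good_step` to `u`. `b`: to `a`. `c`: to `b`. `w`: to `c`. -/
theorem x8 (h : Opt S f) {a b c u : α} (hab : f a = b) (ha : Br S a) (hb : Br S b) (hc : Br S c)
    (hw : ¬ Br S (f c)) (hac : S.Adj a c) (hbc : S.Adj b c) (hau : S.Adj a u) (hbu : S.Adj b u)
    (hu : ¬ Br S u) (hbad : ¬ Good S f a) : False := by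
  have hba : f b = a := by rw [← hab, h.1.inv]
  obtain ⟨w, hcw⟩ : ∃ w, f c = w := ⟨_, rfl⟩
  rw [hcw] at hw
  have hwc : f w = c := by rw [← hcw, h.1.inv]
  have sab : S.Adj a b := by have := h.1.adj a (h.1.cov a ha); rwa [hab] at this
  have scw : S.Adj c w := by have := h.1.adj c (h.1.cov c hc); rwa [hcw] at this
  have e1 := sab.ne
  have e2 := scw.ne
  have e3 := hac.ne
  have e4 := hbc.ne
  have e5 := hau.ne
  have e6 := hbu.ne
  have e7 : c ≠ u := by rintro rfl; exact hu hc
  have e8 : a ≠ w := by rintro rfl; exact hw ha
  have e9 : b ≠ w := by rintro rfl; exact hw hb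
  have hfu : f u = u := by
    refine bad_fix ?_ hu
    exact bad_of_adj h.1 hbad hau (by rw [hab]; exact e6)
  have e10 : u ≠ w := by
    rintro rfl
    exact e7 (by rw [← hwc, hfu])
  set t : α → α := fun v => if v = a then c else if v = c then a else if v = b then u else
    if v = u then b else v with ht
  have ta : t a = c := by grind
  have tc : t c = a := by grind
  have tb : t b = u := by grind
  have tu : t u = b := by grind
  have tw : t w = w := by grind
  refine h.no_patch {a, b, c, w, u} t ?_ ?_ ?_ ?_ ?_ a (by simp) hbad ?_
  · grind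
  · grind
  · grind
  · grind [SimpleGraph.adj_comm]
  · grind
  · set f' : α → α := fun v => if v ∈ ({a, b, c, w, u} : Finset α) then t v else f v with hf'
    have ga : f' a = c := by grind
    have gc : f' c = a := by grind
    have gb : f' b = u := by grind
    have gu : f' u = b := by grind
    have gw : f' w = w := by grind
    have Gu : Good S f' u := good_of_end hu (by grind)
    have Ga : Good S f' a := good_step hau (by grind) (by grind) Gu
    have Gb : Good S f' b := good_step sab.symm (by grind) (by grind) Ga
    have Gc : Good S f' c := good_step hbc.symm (by grind) (by grind) Gb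
    have Gw : Good S f' w := good_step scw.symm (by grind) (by grind) Gc
    intro v hv
    simp only [Finset.mem_insert, Finset.mem_singleton] at hv
    rcases hv with rfl | rfl | rfl | rfl | rfl
    all_goals assumption

/-- CLX5 (b). `d ≠ a`, `d ≠ b` (`f a = b`, `c ≠ a, b`). Let `r = f q` (possibly `r = q`; `r ≠ u` since `f u = u`).
T = {a, b, c, d, u, q, r}. NEW PAIRS: a c, b u, d q (`r` fixed if `r ≠ q`).
GOOD: `u`, `q` are ends. `a`: `good_step` to `u`. `b`: to `a`. `c`: to `b`. `d`: to `c`. `r` (if `≠ q`): to `q`. -/
theorem x9 (h : Opt S f) {a b c d u q : α} (hab : f a = b) (hcd : f c = d) (ha : Br S a)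
    (hb : Br S b) (hc : Br S c) (hd : Br S d) (hac : S.Adj a c) (hbc : S.Adj b c)
    (hau : S.Adj a u) (hbu : S.Adj b u) (hu : ¬ Br S u) (hfu : f u = u) (hq : ¬ Br S q)
    (hdq : S.Adj d q) (hfq : ¬ Br S (f q)) (hqu : q ≠ u) (hbad : ¬ Good S f a) : False := by
  have hba : f b = a := by rw [← hab, h.1.inv]
  have hdc : f d = c := by rw [← hcd, h.1.inv]
  obtain ⟨r, hqr⟩ : ∃ r, f q = r := ⟨_, rfl⟩
  rw [hqr] at hfq
  have hrq : f r = q := by rw [← hqr, h.1.inv]
  have sab : S.Adj a b := by have := h.1.adj a (h.1.cov a ha); rwa [hab] at this
  have scd : S.Adj c d := by have := h.1.adj c (h.1.cov c hc); rwa [hcd] at this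
  have e1 := sab.ne
  have e2 := scd.ne
  have e3 := hac.ne
  have e4 := hbc.ne
  have e5 := hau.ne
  have e6 := hbu.ne
  have e7 : c ≠ u := by rintro rfl; exact hu hc
  have e8 : d ≠ u := by rintro rfl; exact hu hd
  have e9 : a ≠ d := by rintro rfl; exact e4 (by rw [← hab, hdc])
  have e10 : b ≠ d := by rintro rfl; exact e3 (by rw [← hba, hdc])
  have q1 : a ≠ q := by rintro rfl; exact hq ha
  have q2 : b ≠ q := by rintro rfl; exact hq hb
  have q3 : c ≠ q := by rintro rfl; exact hq hc
  have q4 : d ≠ q := by rintro rfl; exact hq hd
  have r1 : a ≠ r := by rintro rfl; exact hfq ha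
  have r2 : b ≠ r := by rintro rfl; exact hfq hb
  have r3 : c ≠ r := by rintro rfl; exact hfq hc
  have r4 : d ≠ r := by rintro rfl; exact hfq hd
  have r5 : u ≠ r := by
    rintro rfl
    exact hqu (by rw [← hrq, hfu])
  set t : α → α := fun v => if v = a then c else if v = c then a else if v = b then u else
    if v = u then b else if v = d then q else if v = q then d else v with ht
  have ta : t a = c := by grind
  have tc : t c = a := by grind
  have tb : t b = u := by grind
  have tu : t u = b := by grind
  have td : t d = q := by grind
  have tq : t q = d := by grind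
  have tr : r ≠ q → t r = r := by grind
  refine h.no_patch {a, b, c, d, u, q, r} t ?_ ?_ ?_ ?_ ?_ a (by simp) hbad ?_
  · grind
  · grind
  · grind
  · grind [SimpleGraph.adj_comm]
  · grind
  · set f' : α → α := fun v => if v ∈ ({a, b, c, d, u, q, r} : Finset α) then t v else f v with hf'
    have ga : f' a = c := by grind
    have gc : f' c = a := by grind
    have gb : f' b = u := by grind
    have gu : f' u = b := by grind
    have gd : f' d = q := by grind
    have gq : f' q = d := by grind
    have gr : r ≠ q → f' r = r := by grind
    have Gu : Good S f' u := good_of_end hu (by grind)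
    have Gq : Good S f' q := good_of_end hq (by grind)
    have Ga : Good S f' a := good_step hau (by grind) (by grind) Gu
    have Gb : Good S f' b := good_step sab.symm (by grind) (by grind) Ga
    have Gc : Good S f' c := good_step hbc.symm (by grind) (by grind) Gb
    have Gd : Good S f' d := good_step scd.symm (by grind) (by grind) Gc
    have Gr : Good S f' r := by
      by_cases hr : r = q
      · rw [hr]; exact Gq
      · have srq : S.Adj r q := by
          have := h.1.adj r (by rw [hrq]; exact fun h => hr h.symm)
          rwa [hrq] at this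
        exact good_step srq (by rw [gr hr]; exact hr) (by rw [gq]; exact r4) Gq
    intro v hv
    simp only [Finset.mem_insert, Finset.mem_singleton] at hv
    rcases hv with rfl | rfl | rfl | rfl | rfl | rfl | rfl
    all_goals assumption

end Pool.Agent.H38H.CL
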