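import Pool.Agent.Lib.H38H.CLF2
import Pool.Agent.Lib.H38H.CLX4
import Pool.Agent.Lib.H38H.CLX5

/-!
H38H, module CL, chunk CLF3.
-/

set_option autoImplicit false

namespace Pool.Agent.H38H.CL

open Classical

variable {α : Type} [Finite α] {S : SimpleGraph α} {f : α → α}

/-- neighbours of a good vertex, other than its partner, are good -/
theorem clf3_good (h : VM S f) {a b z : α} (hab : f a = b) (hgb : Good S f b) (hz : S.Adj b z)
    (hza : z ≠ a) : Good S f z := by
  have hba : f b = a := by rw [← hab, h.inv]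
  refine good_step hz.symm ?_ ?_ hgb
  · intro h1
    exact hza (by rw [← hba, ← h1, h.inv])
  · rw [hba]
    exact hza.symm

theorem clf3_adj (h : VM S f) {a b : α} (hab : f a = b) (ha : Br S a) : S.Adj a b := by
  have := h.adj a (h.cov a ha)
  rwa [hab] at this

/-- CASE 1 -/
theorem clf3_case1 (hd : D23 S) (h4 : {v | Br S v}.ncard ≤ 4) (h : Opt S f) {a b u : α}
    (hab : f a = b) (ha : Br S a) (hb : Br S b) (hba : ¬ Good S f a) (hgb : Good S f b)
    (hu : ¬ Br S u) (hau : S.Adj a u) : False := by
  have hfb : f b = a := by rw [← hab, h.1.inv]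
  have sab : S.Adj a b := clf3_adj h.1 hab ha
  have hne : a ≠ b := sab.ne
  have hub : u ≠ b := fun e => hu (e ▸ hb)
  have hua : u ≠ a := fun e => hu (e ▸ ha)
  have hbu : ¬ Good S f u := bad_of_adj h.1 hba hau (by rw [hab]; exact hub.symm)
  obtain ⟨c, hca, huc, hNu, -, hBc, -, hBd, -, hbc⟩ := bad_nonbranch hd h hu hbu hau.symm
  obtain ⟨d, hcd⟩ : ∃ d, f c = d := ⟨_, rfl⟩
  rw [hcd] at hBd
  have hdc : f d = c := by rw [← hcd, h.1.inv]
  have scd : S.Adj c d := clf3_adj h.1 hcd hBc
  have hcb : c ≠ b := fun e => hbc (e ▸ hgb)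
  have hda : d ≠ a := fun e => hcb (by rw [← hdc, e, hab])
  have hdb : d ≠ b := fun e => hca (by rw [← hdc, e, hfb])
  have hcdne : c ≠ d := scd.ne
  have hud : u ≠ d := fun e => hu (e ▸ hBd)
  have huc' : u ≠ c := huc.ne
  have cov4 : ∀ e, Br S e → e = a ∨ e = b ∨ e = c ∨ e = d := fun e he =>
    branch_four h4 ha hb hBc hBd he hne hca.symm hda.symm hcb.symm hdb.symm hcdne
  by_cases hgd : Good S f d
  · -- 1.1
    obtain ⟨b1, b2, h1, h2, h12, hb1, hb2, -⟩ := branch_nbrs' hb sab.symm
    obtain ⟨q, hqa, hqd, hbq⟩ : ∃ q, q ≠ a ∧ q ≠ d ∧ S.Adj b q := by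
      by_cases hbd : b1 = d
      · exact ⟨b2, h2, fun e => h12 (hbd.trans e.symm), hb2⟩
      · exact ⟨b1, h1, hbd, hb1⟩
    have hgq := clf3_good h.1 hab hgb hbq hqa
    have hqc : q ≠ c := fun e => hbc (e ▸ hgq)
    have hq : ¬ Br S q := by
      intro hq
      rcases cov4 q hq with e | e | e | e
      · exact hqa e
      · exact hbq.ne e.symm
      · exact hqc e
      · exact hqd e
    have hfq := partner_nonbranch h4 h.1 ha hb hBc hBd hab hcd hca.symm hda.symm hq
    exact x4 hd h hab ha hb hu hau hba hgb hq hbq hfq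
  · -- 1.2
    obtain ⟨c2, hc2d, hc2u, hcc2, hNc⟩ := branch_nbrs hBc scd huc.symm hud.symm
    have hbc2 : ¬ Good S f c2 := bad_of_adj h.1 hbc hcc2 (by rw [hcd]; exact hc2d.symm)
    have hc2b : c2 ≠ b := fun e => hbc2 (e ▸ hgb)
    have key : ¬ S.Adj d a ∧ ∀ z, ¬ Br S z → (S.Adj a z ∨ S.Adj c z) → ∀ w, S.Adj z w →
        w = a ∨ w = c := by
      by_cases hc2 : Br S c2
      · have hc2a : c2 = a := by
          rcases cov4 c2 hc2 with e | e | e | e
          · exact e
          · exact absurd e hc2b
          · exact absurd e hcc2.ne'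
          · exact absurd e hc2d
        rw [hc2a] at hcc2 hNc
        have hNa := branch_three ha sab hau hcc2.symm hub.symm hcb.symm huc'
        refine ⟨fun e => ?_, fun z hz hz2 w hw => ?_⟩
        · rcases hNa d e.symm with e1 | e1 | e1
          · exact hdb e1
          · exact hud e1.symm
          · exact hcdne e1.symm
        · have hzu : z = u := by
            rcases hz2 with e | e
            · rcases hNa z e with e1 | e1 | e1
              · exact absurd (e1 ▸ hb) hz
              · exact e1
              · exact absurd (e1 ▸ hBc) hz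
            · rcases hNc z e with e1 | e1 | e1
              · exact absurd (e1 ▸ hBd) hz
              · exact e1
              · exact absurd (e1 ▸ ha) hz
          rw [hzu] at hw
          exact hNu w hw
      · obtain ⟨v, hvc, hc2v, hNc2, -, hBv, -, -, -, hbv⟩ := bad_nonbranch hd h hc2 hbc2 hcc2.symm
        have hva : v = a := by
          rcases cov4 v hBv with e | e | e | e
          · exact e
          · exact absurd (e ▸ hgb) hbv
          · exact absurd e hvc
          · rw [e] at hc2v
            exact (x7 h hcd hBc hBd hc2 hu hc2u hcc2 hc2v.symm huc.symm hbc).elim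
        rw [hva] at hc2v hNc2
        have hNa := branch_three ha sab hau hc2v.symm hub.symm hc2b.symm hc2u.symm
        refine ⟨fun e => ?_, fun z hz hz2 w hw => ?_⟩
        · rcases hNa d e.symm with e1 | e1 | e1
          · exact hdb e1
          · exact hud e1.symm
          · exact hc2d e1.symm
        · have hzu : z = u ∨ z = c2 := by
            rcases hz2 with e | e
            · rcases hNa z e with e1 | e1 | e1
              · exact absurd (e1 ▸ hb) hz
              · exact Or.inl e1
              · exact Or.inr e1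
            · rcases hNc z e with e1 | e1 | e1
              · exact absurd (e1 ▸ hBd) hz
              · exact Or.inl e1
              · exact Or.inr e1
          rcases hzu with e | e
          · rw [e] at hw
            exact hNu w hw
          · rw [e] at hw
            rcases hNc2 w hw with e1 | e1
            · exact Or.inr e1
            · exact Or.inl e1
    obtain ⟨d1, d2, h1, -, -, hd1, -, -⟩ := branch_nbrs' hBd scd.symm
    have hbd1 : ¬ Good S f d1 := bad_of_adj h.1 hgd hd1 (by rw [hdc]; exact h1.symm)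
    have hd1n : ¬ Br S d1 := by
      intro hq
      rcases cov4 d1 hq with e | e | e | e
      · rw [e] at hd1
        exact key.1 hd1
      · exact hbd1 (e ▸ hgb)
      · exact h1 e
      · exact hd1.ne e.symm
    obtain ⟨e, hed, hd1e, -, -, hBe, -, -, -, hbe⟩ := bad_nonbranch hd h hd1n hbd1 hd1.symm
    have hac : S.Adj a d1 ∨ S.Adj c d1 := by
      rcases cov4 e hBe with e1 | e1 | e1 | e1
      · rw [e1] at hd1e
        exact Or.inl hd1e.symm
      · exact absurd (e1 ▸ hgb) hbe
      · rw [e1] at hd1e
        exact Or.inr hd1e.symm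
      · exact absurd e1 hed
    rcases key.2 d1 hd1n hac d hd1.symm with e1 | e1
    · exact hda e1
    · exact hcdne e1.symm

/-- CLF3, case I: the partner of a bad branch vertex is a good branch vertex.
PROOF. `N(v)` = neighbours of `v` in `S` (explicit: `branch_nbrs'`, `branch_nbrs`, `branch_three`, `nonbranch_nbrs`). `N(a) = {b, a1, a2}`, `a1`, `a2` bad.
All neighbours of `b` except `a` are good (`good_of_adj`/`bad_of_adj`), in particular not `c`, `d` when these are bad.
CASE 1: one of `a1`, `a2`, call it `u`, is not a branch vertex. By `bad_nonbranch` `N(u) = {a, c}` with `c` a bad branch vertex, `d = f c` a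
branch vertex; `c ≠ b`, `d ≠ a`, `d ≠ b`: the branch vertices are `a, b, c, d`.
1.1: `d` good. `N(b) = {a, b1, b2}`, choose `q` in `{b1, b2}`, `q ≠ d`; `q` is good so `q ≠ a, c`; `q ≠ b`. So `q` is not a branch vertex,
`f q` neither (`partner_nonbranch`): `x4`.
1.2: `d` bad. `N(c) = {d, u, c2}`, `c2` bad. (i) `c2` not a branch vertex: `N(c2) = {c, v}`, `v` a bad branch vertex, so `v = a` or `v = d`. `v = d`: `x7` with
`(a, b, u, v) := (c, d, c2, u)`. `v = a`: `c2` is in `N(a)`, so `N(a) = {b, u, c2}`, `N(c) = {d, u, c2}`, `N(u) = N(c2) = {a, c}`.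
(ii) `c2` a branch vertex: bad so not `b`, and `c2 ≠ d = f c`: `c2 = a`, `N(a) = {b, u, c}`, `N(c) = {d, u, a}`, `N(u) = {a, c}`.
In the remaining situations: `d` is not adjacent to `a`; every vertex of degree two adjacent to `a` or `c` is adjacent to no vertex but
`a`, `c`. Take `d1` in `N(d)`, `d1 ≠ c`. It is bad (`f d = c`). It is not `a` (not adjacent), not `b` (good), not `c`, not `d`, so not a branch vertex; by
`bad_nonbranch` its other neighbour is a bad branch vertex other than `d`, so `a` or `c`: contradiction, since then `d1` is adjacent to `a` or `c`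
and to `d`.
CASE 2: `c = a1`, `d = a2` both branch vertices (bad, distinct, not `a`, `b`): the branch vertices are `a, b, c, d`.
`f c` is a branch vertex: otherwise `c` has a neighbour `c2` other than `f c` and `a`, by `bad_nb_partner` it is a bad branch vertex with `Br S (f c2)`:
so `c2 = d`; but `f d` is one of `a, b, c, d`: impossible (`f a = b`; `f d = c` would give `f c = d`; `cov`). So `f c = d` (same argument).
`N(c) = {d, a, c2}`, `c2` bad, not `b` (good): not a branch vertex; `N(c2) = {c, v}`, `v` a bad branch vertex, not `a` (`N(a) = {b, c, d}`): `v = d`.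
Let `q ≠ a` be in `N(b)`: good, so not `a, b, c, d`, not `c2`; `f q` not a branch vertex. Now `x9` with
`(a, b, c, d, u, q) := (c, d, a, b, c2, q)`. -/
theorem caseI (hd : D23 S) (h4 : {v | Br S v}.ncard ≤ 4) (h : Opt S f) {a b : α} (hab : f a = b)
    (ha : Br S a) (hb : Br S b) (hba : ¬ Good S f a) (hgb : Good S f b) : False := by
  have hfb : f b = a := by rw [← hab, h.1.inv]
  have sab : S.Adj a b := clf3_adj h.1 hab ha
  have hne : a ≠ b := sab.ne
  obtain ⟨c, d, hcb, hdb, hcd, hac, had, hNa⟩ := branch_nbrs' ha sab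
  by_cases hc : Br S c
  swap
  · exact clf3_case1 hd h4 h hab ha hb hba hgb hc hac
  by_cases hdd : Br S d
  swap
  · exact clf3_case1 hd h4 h hab ha hb hba hgb hdd had
  -- CASE 2
  have hbadc : ¬ Good S f c := bad_of_adj h.1 hba hac (by rw [hab]; exact hcb.symm)
  have hbadd : ¬ Good S f d := bad_of_adj h.1 hba had (by rw [hab]; exact hdb.symm)
  have cov4 : ∀ e, Br S e → e = a ∨ e = b ∨ e = c ∨ e = d := fun e he =>
    branch_four h4 ha hb hc hdd he hne hac.ne had.ne hcb.symm hdb.symm hcd
  have hfcne : f c ≠ c := h.1.cov c hc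
  have hfdne : f d ≠ d := h.1.cov d hdd
  have hfca : f c ≠ a := fun e => hcb (by rw [← h.1.inv c, e, hab])
  have hfcb : f c ≠ b := fun e => hac.ne' (by rw [← h.1.inv c, e, hfb])
  have hfda : f d ≠ a := fun e => hdb (by rw [← h.1.inv d, e, hab])
  have hfdb : f d ≠ b := fun e => had.ne' (by rw [← h.1.inv d, e, hfb])
  have hBfc : Br S (f c) := by
    by_contra hn
    have hcf : S.Adj c (f c) := h.1.adj c hfcne
    obtain ⟨c2, hc2f, hc2a, hcc2, -⟩ := branch_nbrs hc hcf hac.symm hfca
    obtain ⟨hBc2, hBfc2, hbc2⟩ := bad_nb_partner hd h4 h hc hbadc hn hcc2 hc2f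
    have hc2d : c2 = d := by
      rcases cov4 c2 hBc2 with e | e | e | e
      · exact absurd e hc2a
      · exact absurd (e ▸ hgb) hbc2
      · exact absurd e hcc2.ne'
      · exact e
    rw [hc2d] at hBfc2
    rcases cov4 (f d) hBfc2 with e | e | e | e
    · exact hfda e
    · exact hfdb e
    · apply hn
      rw [← e, h.1.inv]
      exact hdd
    · exact hfdne e
  have hfc : f c = d := by
    rcases cov4 (f c) hBfc with e | e | e | e
    · exact absurd e hfca
    · exact absurd e hfcb
    · exact absurd e hfcne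
    · exact e
  have scd : S.Adj c d := clf3_adj h.1 hfc hc
  obtain ⟨c2, hc2d, hc2a, hcc2, -⟩ := branch_nbrs hc scd hac.symm had.ne'
  have hbc2 : ¬ Good S f c2 := bad_of_adj h.1 hbadc hcc2 (by rw [hfc]; exact hc2d.symm)
  have hc2b : c2 ≠ b := fun e => hbc2 (e ▸ hgb)
  have hc2 : ¬ Br S c2 := by
    intro hq
    rcases cov4 c2 hq with e | e | e | e
    · exact hc2a e
    · exact hc2b e
    · exact hcc2.ne' e
    · exact hc2d e
  obtain ⟨v, hvc, hc2v, -, -, hBv, -, -, -, hbv⟩ := bad_nonbranch hd h hc2 hbc2 hcc2.symm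
  have hvd : v = d := by
    rcases cov4 v hBv with e | e | e | e
    · rw [e] at hc2v
      rcases hNa c2 hc2v.symm with e1 | e1 | e1
      · exact absurd e1 hc2b
      · exact absurd e1 hcc2.ne'
      · exact absurd e1 hc2d
    · exact absurd (e ▸ hgb) hbv
    · exact absurd e hvc
    · exact e
  rw [hvd] at hc2v
  obtain ⟨q, b2, hqa, -, -, hbq, -, -⟩ := branch_nbrs' hb sab.symm
  have hgq := clf3_good h.1 hab hgb hbq hqa
  have hq : ¬ Br S q := by
    intro hq
    rcases cov4 q hq with e | e | e | e
    · exact hqa e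
    · exact hbq.ne e.symm
    · exact hbadc (e ▸ hgq)
    · exact hbadd (e ▸ hgq)
  have hfq := partner_nonbranch h4 h.1 ha hb hc hdd hab hfc hac.ne had.ne hq
  exact x9 h hfc hab hc hdd ha hb hac.symm had.symm hcc2 hc2v.symm hc2 (bad_fix hbc2 hc2) hq hbq
    hfq (fun e => hbc2 (e ▸ hgq)) hbadc

end Pool.Agent.H38H.CL
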