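import Pool.Agent.Lib.H38H.CLDefs

/-!
H38H, module CL, chunk CLX6: exchanges (see the finished template CLX0.lean).
In every proof: suppose the hypotheses hold. `T` is a finite set of named vertices, closed under `f`; `t` is an involution of `T`
given by the listed NEW PAIRS (the other vertices of `T` are fixed); every new pair is an edge of `S` and every branch
vertex of `T` is in a new pair. `f'` is `t` on `T` and `f` elsewhere. The list GOOD shows that all vertices
of `T` are good for `f'`, so `Opt.no_patch` gives `False`.
-/

set_option autoImplicit false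

namespace Pool.Agent.H38H.CL

open Classical

variable {α : Type} {S : SimpleGraph α} {f : α → α}

/-- CLX6 (a). T = {a, b, c, d, u, w}. NEW PAIRS: a c, b u, d w. (`b ≠ d` since `f a ≠ f c`.)
GOOD: `u`, `w` are ends. `a`: `good_step` to `u`. `b`: to `a`. `c`: to `w`. `d`: to `c`. -/
theorem x10 (h : Opt S f) {a b c d u w : α} (hab : f a = b) (hcd : f c = d) (ha : Br S a)
    (hb : Br S b) (hc : Br S c) (hd : Br S d) (hbc : b ≠ c) (had : a ≠ d) (hac : S.Adj a c)
    (hu : ¬ Br S u) (hw : ¬ Br S w) (huw : u ≠ w) (hau : S.Adj a u) (hbu : S.Adj b u)
    (hcw : S.Adj c w) (hdw : S.Adj d w) (hfu : f u = u) (hfw : f w = w) (hbad : ¬ Good S f a) :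
    False := by
  have hba : f b = a := by rw [← hab, h.1.inv]
  have sab : S.Adj a b := by have := h.1.adj a (h.1.cov a ha); rwa [hab] at this
  have e_ab := sab.ne
  have hdc : f d = c := by rw [← hcd, h.1.inv]
  have scd : S.Adj c d := by have := h.1.adj c (h.1.cov c hc); rwa [hcd] at this
  have e_cd := scd.ne
  have e_ac := hac.ne
  have e_bd : b ≠ d := by intro hh; exact e_ac (h.1.inj (by rw [hab, hcd, hh]))
  have n_au : a ≠ u := by intro hh; exact hu (by rw [← hh]; exact ha)
  have n_aw : a ≠ w := by intro hh; exact hw (by rw [← hh]; exact ha)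
  have n_bu : b ≠ u := by intro hh; exact hu (by rw [← hh]; exact hb)
  have n_bw : b ≠ w := by intro hh; exact hw (by rw [← hh]; exact hb)
  have n_cu : c ≠ u := by intro hh; exact hu (by rw [← hh]; exact hc)
  have n_cw : c ≠ w := by intro hh; exact hw (by rw [← hh]; exact hc)
  have n_du : d ≠ u := by intro hh; exact hu (by rw [← hh]; exact hd)
  have n_dw : d ≠ w := by intro hh; exact hw (by rw [← hh]; exact hd)
  set t : α → α := fun v => if v = a then c else if v = c then a else if v = b then u else if v = u then b else if v = d then w else if v = w then d else v with ht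
  have t_a : t a = c := by grind
  have t_c : t c = a := by grind
  have t_b : t b = u := by grind
  have t_u : t u = b := by grind
  have t_d : t d = w := by grind
  have t_w : t w = d := by grind
  refine h.no_patch {a, b, c, d, u, w} t ?_ ?_ ?_ ?_ ?_ a (by simp) hbad ?_
  · grind
  · grind
  · grind
  · grind [SimpleGraph.adj_comm]
  · grind
  · set f' : α → α := fun v => if v ∈ ({a, b, c, d, u, w} : Finset α) then t v else f v with hf'
    have g_a : f' a = c := by grind
    have g_c : f' c = a := by grind
    have g_b : f' b = u := by grind
    have g_u : f' u = b := by grind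
    have g_d : f' d = w := by grind
    have g_w : f' w = d := by grind
    have G_u : Good S f' u := good_of_end hu (by grind)
    have G_w : Good S f' w := good_of_end hw (by grind)
    have G_a : Good S f' a := good_step hau (by grind) (by grind) G_u
    have G_b : Good S f' b := good_step sab.symm (by grind) (by grind) G_a
    have G_c : Good S f' c := good_step hcw (by grind) (by grind) G_w
    have G_d : Good S f' d := good_step scd.symm (by grind) (by grind) G_c
    intro v hv
    simp only [Finset.mem_insert, Finset.mem_singleton] at hv
    rcases hv with rfl | rfl | rfl | rfl | rfl | rfl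
    all_goals assumption

/-- CLX6 (b). T = {a, b, u, q}. NEW PAIRS: a u, b q. GOOD: `u`, `q` are ends. `c` (not in `T`, `f' c = f c`, `f c ≠ a`,
`f c ≠ u`): `good_step` to `u`. `a`: if `S.Adj a c` then `good_step` to `c`, otherwise `good_step` to `u2` and from `u2` to `c`
(`u2` is not in `T`, `f' u2 = f u2 = u2`: `u2` is bad for `f`). `b`: `good_step` to `a`. -/
theorem x11 (h : Opt S f) {a b c u q : α} (hab : f a = b) (ha : Br S a) (hb : Br S b)
    (hc : Br S c) (hca : c ≠ a) (hcb : c ≠ b) (hu : ¬ Br S u) (hq : ¬ Br S q) (hqu : q ≠ u)
    (hau : S.Adj a u) (huc : S.Adj u c) (hbq : S.Adj b q) (hfq : f q = q)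
    (hlink : S.Adj a c ∨ ∃ u2, ¬ Br S u2 ∧ u2 ≠ u ∧ u2 ≠ q ∧ S.Adj a u2 ∧ S.Adj u2 c)
    (hbad : ¬ Good S f a) : False := by
  have hba : f b = a := by rw [← hab, h.1.inv]
  have sab : S.Adj a b := by have := h.1.adj a (h.1.cov a ha); rwa [hab] at this
  have e_ab := sab.ne
  have n_au : a ≠ u := hau.ne
  have n_bu : b ≠ u := by intro hh; exact hu (by rw [← hh]; exact hb)
  have n_cu : c ≠ u := huc.ne'
  have n_aq : a ≠ q := by intro hh; exact hq (by rw [← hh]; exact ha)
  have n_bq : b ≠ q := hbq.ne
  have n_cq : c ≠ q := by intro hh; exact hq (by rw [← hh]; exact hc)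
  have bu : ¬ Good S f u := bad_of_adj h.1 hbad hau (by rw [hab]; exact n_bu)
  have hfu : f u = u := bad_fix bu hu
  have fcu : f c ≠ u := by
    intro hh
    have h2 := h.1.inv c
    rw [hh, hfu] at h2
    exact n_cu h2.symm
  have fca : f c ≠ a := by
    intro hh
    have h2 := h.1.inv c
    rw [hh, hab] at h2
    exact hcb h2.symm
  set t : α → α := fun v => if v = a then u else if v = u then a else if v = b then q else if v = q then b else v with ht
  have t_a : t a = u := by grind
  have t_u : t u = a := by grind
  have t_b : t b = q := by grind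
  have t_q : t q = b := by grind
  refine h.no_patch {a, b, u, q} t ?_ ?_ ?_ ?_ ?_ a (by simp) hbad ?_
  · grind
  · grind
  · grind
  · grind [SimpleGraph.adj_comm]
  · grind
  · set f' : α → α := fun v => if v ∈ ({a, b, u, q} : Finset α) then t v else f v with hf'
    have g_a : f' a = u := by grind
    have g_u : f' u = a := by grind
    have g_b : f' b = q := by grind
    have g_q : f' q = b := by grind
    have g_c : f' c = f c := by grind
    have G_u : Good S f' u := good_of_end hu (by grind)
    have G_q : Good S f' q := good_of_end hq (by grind)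
    have G_c : Good S f' c := good_step huc.symm (by grind) (by grind) G_u
    have G_a : Good S f' a := by
      rcases hlink with hl | ⟨v, hv1, hv2, hv3, hv4, hv5⟩
      · exact good_step hl (by grind) (by grind) G_c
      · have n_av : a ≠ v := hv4.ne
        have n_bv : b ≠ v := by intro hh; exact hv1 (by rw [← hh]; exact hb)
        have bv : ¬ Good S f v := bad_of_adj h.1 hbad hv4 (by rw [hab]; exact n_bv)
        have hfv : f v = v := bad_fix bv hv1
        have g_v : f' v = v := by grind
        have fcv : f c ≠ v := by
          intro hh
          have h2 := h.1.inv c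
          rw [hh, hfv] at h2
          exact hv5.ne h2
        have G_v : Good S f' v := good_step hv5 (by grind) (by grind) G_c
        exact good_step hv4 (by grind) (by grind) G_v
    have G_b : Good S f' b := good_step sab.symm (by grind) (by grind) G_a
    intro v hv
    simp only [Finset.mem_insert, Finset.mem_singleton] at hv
    rcases hv with rfl | rfl | rfl | rfl
    all_goals assumption

end Pool.Agent.H38H.CL
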