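import Pool.Agent.Lib.H38H.CLF2
import Pool.Agent.Lib.H38H.CLX4
import Pool.Agent.Lib.H38H.CLX5
import Pool.Agent.Lib.H38H.CLX6

/-!
H38H, module CL, chunk CLF4.
-/

set_option autoImplicit false

namespace Pool.Agent.H38H.CL

open Classical

variable {α : Type} [Finite α] {S : SimpleGraph α} {f : α → α}

/-- CLF4, case II.1: `a`, `b = f a` bad branch vertices with a common neighbour `u` of degree two.
PROOF. `N(v)` = neighbours of `v` in `S`. `N(a) = {b, u, a2}`, `N(b) = {a, u, b2}`, `N(u) = {a, b}`. If `a2` is not a branch vertex: `x7` for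
`(a, b, u, a2)`. If `b2` is not: `x7` for `(b, a, u, b2)`. So both are branch vertices, bad, not `a`, `b`. `f u = u` (`u` is bad).
CASE `a2 = b2 = c`: if `f c` is not a branch vertex: `x8`. Otherwise `d = f c`, `d ≠ a, b`, branch vertices `a, b, c, d`. Let `q ≠ c` be in `N(d)`.
`q ≠ a`, `q ≠ b` since `d` is not in `N(a) = {b, u, c}`, `N(b) = {a, u, c}`. So `q` is not a branch vertex, `q ≠ u` (`d` is not in `N(u)`), `f q` is not a
branch vertex (`partner_nonbranch`): `x9` for `(a, b, c, d, u, q)`.
CASE `c = a2 ≠ d = b2`: branch vertices `a, b, c, d`. `f c` is a branch vertex: otherwise `N(c) = {f c, a, c2}` and by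
`bad_nb_partner` `c2` is a branch vertex with `Br S (f c2)`; `c2 ≠ b` (`c` is not in `N(b) = {a, u, d}`), so `c2 = d`, and `f d` is one of `a, b, c, d`: impossible.
So `f c = d`. `N(c) = {d, a, c2}`, `c2` bad, `c2 ≠ b`: not a branch vertex. `N(c2) = {c, v}` (`bad_nonbranch`), `v` a branch vertex; `v ≠ a`, `v ≠ b` (otherwise `c2`
is in `N(a)` or `N(b)`, so `c2 = u`, but `N(u) = {a, b}`). So `v = d`. `x10` for `(a, b, c, d, u, c2)`. -/
theorem caseII1 (hd : D23 S) (h4 : {v | Br S v}.ncard ≤ 4) (h : Opt S f) {a b u : α}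
    (hab : f a = b) (ha : Br S a) (hb : Br S b) (hba : ¬ Good S f a) (hbb : ¬ Good S f b)
    (hu : ¬ Br S u) (hau : S.Adj a u) (hbu : S.Adj b u) : False := by
  have hfb : f b = a := by rw [← hab, h.1.inv]
  have sab : S.Adj a b := by
    have := h.1.adj a (h.1.cov a ha)
    rwa [hab] at this
  have hne : a ≠ b := sab.ne
  have hua : u ≠ a := fun e => hu (e ▸ ha)
  have hub : u ≠ b := fun e => hu (e ▸ hb)
  obtain ⟨c, hcb, hcu, hac, hNa⟩ := branch_nbrs ha sab hau hub.symm
  obtain ⟨d, hda, hdu, hbd, hNb⟩ := branch_nbrs hb sab.symm hbu hua.symm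
  have hNu : ∀ w, S.Adj u w → w = a ∨ w = b := by
    obtain ⟨z, hza, huz, hz⟩ := nonbranch_nbrs hd hu hau.symm
    have hzb : b = z := (hz b hbu.symm).resolve_left hne.symm
    rw [hzb]
    exact hz
  have hbu' : ¬ Good S f u := bad_of_adj h.1 hba hau (by rw [hab]; exact hub.symm)
  have hfu : f u = u := bad_fix hbu' hu
  by_cases hc : Br S c
  swap
  · exact x7 h hab ha hb hu hc hcu.symm hau hbu hac hba
  by_cases hdd : Br S d
  swap
  · exact x7 h hfb hb ha hu hdd hdu.symm hbu hau hbd hbb
  have hbadc : ¬ Good S f c := bad_of_adj h.1 hba hac (by rw [hab]; exact hcb.symm)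
  have hca : c ≠ a := hac.ne'
  have hdb : d ≠ b := hbd.ne'
  have hfcne : f c ≠ c := h.1.cov c hc
  have hfca : f c ≠ a := fun e => hcb (by rw [← h.1.inv c, e, hab])
  have hfcb : f c ≠ b := fun e => hca (by rw [← h.1.inv c, e, hfb])
  by_cases hcd : c = d
  · -- the third neighbours agree
    rw [← hcd] at hbd hNb
    by_cases hfc : Br S (f c)
    swap
    · exact x8 h hab ha hb hc hfc hac hbd hau hbu hu hba
    obtain ⟨e, hce⟩ : ∃ e, f c = e := ⟨_, rfl⟩
    rw [hce] at hfc hfca hfcb hfcne
    have sce : S.Adj c e := by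
      have := h.1.adj c (h.1.cov c hc)
      rwa [hce] at this
    have heu : e ≠ u := fun e1 => hu (e1 ▸ hfc)
    have cov4 : ∀ x, Br S x → x = a ∨ x = b ∨ x = c ∨ x = e := fun x hx =>
      branch_four h4 ha hb hc hfc hx hne hca.symm hfca.symm hcb.symm hfcb.symm hfcne.symm
    obtain ⟨q, q2, hqc, -, -, hdq, -, -⟩ := branch_nbrs' hfc sce.symm
    have hqa : q ≠ a := by
      intro e1
      rw [e1] at hdq
      rcases hNa e hdq.symm with e2 | e2 | e2
      · exact hfcb e2
      · exact heu e2
      · exact hfcne e2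
    have hqb : q ≠ b := by
      intro e1
      rw [e1] at hdq
      rcases hNb e hdq.symm with e2 | e2 | e2
      · exact hfca e2
      · exact heu e2
      · exact hfcne e2
    have hqu : q ≠ u := by
      intro e1
      rw [e1] at hdq
      rcases hNu e hdq.symm with e2 | e2
      · exact hfca e2
      · exact hfcb e2
    have hq : ¬ Br S q := by
      intro hq
      rcases cov4 q hq with e1 | e1 | e1 | e1
      · exact hqa e1
      · exact hqb e1
      · exact hqc e1
      · exact hdq.ne' e1
    have hfq := partner_nonbranch h4 h.1 ha hb hc hfc hab hce hca.symm hfca.symm hq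
    exact x9 h hab hce ha hb hc hfc hac hbd hau hbu hu hfu hq hdq hfq hqu hba
  · have cov4 : ∀ x, Br S x → x = a ∨ x = b ∨ x = c ∨ x = d := fun x hx =>
      branch_four h4 ha hb hc hdd hx hne hca.symm hda.symm hcb.symm hdb.symm hcd
    have hbadd : ¬ Good S f d := bad_of_adj h.1 hbb hbd (by rw [hfb]; exact hda.symm)
    have hfdne : f d ≠ d := h.1.cov d hdd
    have hfda : f d ≠ a := fun e => hdb (by rw [← h.1.inv d, e, hab])
    have hfdb : f d ≠ b := fun e => hda (by rw [← h.1.inv d, e, hfb])
    have hbc : ¬ S.Adj b c := by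
      intro e
      rcases hNb c e with e1 | e1 | e1
      · exact hca e1
      · exact hcu e1
      · exact hcd e1
    have hBfc : Br S (f c) := by
      by_contra hn
      have hcf : S.Adj c (f c) := h.1.adj c hfcne
      obtain ⟨c2, hc2f, hc2a, hcc2, -⟩ := branch_nbrs hc hcf hac.symm hfca
      obtain ⟨hBc2, hBfc2, hbc2⟩ := bad_nb_partner hd h4 h hc hbadc hn hcc2 hc2f
      have hc2d : c2 = d := by
        rcases cov4 c2 hBc2 with e | e | e | e
        · exact absurd e hc2a
        · rw [e] at hcc2
          exact absurd hcc2.symm hbc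
        · exact absurd e hcc2.ne'
        · exact e
      rw [hc2d] at hBfc2
      rcases cov4 (f d) hBfc2 with e | e | e | e
      · exact hfda e
      · exact hfdb e
      · apply hn
        rw [← e, h.1.inv]
        exact hdd
      · exact hfdne e
    have hfc : f c = d := by
      rcases cov4 (f c) hBfc with e | e | e | e
      · exact absurd e hfca
      · exact absurd e hfcb
      · exact absurd e hfcne
      · exact e
    have scd : S.Adj c d := by
      have := h.1.adj c hfcne
      rwa [hfc] at this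
    obtain ⟨c2, hc2d, hc2a, hcc2, -⟩ := branch_nbrs hc scd hac.symm hda
    have hbc2 : ¬ Good S f c2 := bad_of_adj h.1 hbadc hcc2 (by rw [hfc]; exact hc2d.symm)
    have hc2b : c2 ≠ b := by
      intro e
      rw [e] at hcc2
      exact hbc hcc2.symm
    have hc2 : ¬ Br S c2 := by
      intro hq
      rcases cov4 c2 hq with e | e | e | e
      · exact hc2a e
      · exact hc2b e
      · exact hcc2.ne' e
      · exact hc2d e
    have hc2u : c2 ≠ u := by
      intro e
      rw [e] at hcc2
      rcases hNu c hcc2.symm with e1 | e1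
      · exact hca e1
      · exact hcb e1
    obtain ⟨v, hvc, hc2v, -, -, hBv, -, -, -, hbv⟩ := bad_nonbranch hd h hc2 hbc2 hcc2.symm
    have hvd : v = d := by
      rcases cov4 v hBv with e | e | e | e
      · rw [e] at hc2v
        rcases hNa c2 hc2v.symm with e1 | e1 | e1
        · exact absurd e1 hc2b
        · exact absurd e1 hc2u
        · exact absurd e1 hcc2.ne'
      · rw [e] at hc2v
        rcases hNb c2 hc2v.symm with e1 | e1 | e1
        · exact absurd e1 hc2a
        · exact absurd e1 hc2u
        · exact absurd e1 hc2d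
      · exact absurd e hvc
      · exact e
    rw [hvd] at hc2v
    exact x10 h hab hfc ha hb hc hdd hcb.symm hda.symm hac hu hc2 hc2u.symm hau hbu hcc2
      hc2v.symm hfu (bad_fix hbc2 hc2) hba

end Pool.Agent.H38H.CL
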