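import Pool.Agent.Lib.H38H.CLDefs

/-!
H38H, module CL, chunk CLX7: exchanges (see the finished template CLX0.lean).
In every proof: suppose the hypotheses hold. `T` is a finite set of named vertices, closed under `f`; `t` is an involution of `T`
given by the listed NEW PAIRS (the other vertices of `T` are fixed); every new pair is an edge of `S` and every branch
vertex of `T` is in a new pair. `f'` is `t` on `T` and `f` elsewhere. The list GOOD shows that all vertices
of `T` are good for `f'`, so `Opt.no_patch` gives `False`.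
-/

set_option autoImplicit false

namespace Pool.Agent.H38H.CL

open Classical

variable {α : Type} {S : SimpleGraph α} {f : α → α}

/-- CLX7 (a). Write `c' = f c`, `d' = f d`. T = {a, b, c, d, c', d'}. NEW PAIRS: a c, b d, c' d'.
GOOD: `c'`, `d'` are ends. `c`: `good_step` to `c'`. `d`: to `d'`. `b`: to `c`. `a`: to `d`. -/
theorem x12a (h : Opt S f) {a b c d : α} (hab : f a = b) (ha : Br S a) (hb : Br S b)
    (hc : Br S c) (hd : Br S d) (hcd : c ≠ d) (hc' : ¬ Br S (f c)) (hd' : ¬ Br S (f d))
    (hac : S.Adj a c) (had : S.Adj a d) (hbc : S.Adj b c) (hbd : S.Adj b d)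
    (hq : S.Adj (f c) (f d)) (hbad : ¬ Good S f a) : False := by
  have hba : f b = a := by rw [← hab, h.1.inv]
  have sab : S.Adj a b := by have := h.1.adj a (h.1.cov a ha); rwa [hab] at this
  have e_ab := sab.ne
  obtain ⟨c', hc1⟩ : ∃ c', c' = f c := ⟨_, rfl⟩
  obtain ⟨d', hd1⟩ : ∃ d', d' = f d := ⟨_, rfl⟩
  have scc : S.Adj c c' := by rw [hc1]; exact h.1.adj c (h.1.cov c hc)
  have sdd : S.Adj d d' := by rw [hd1]; exact h.1.adj d (h.1.cov d hd)
  rw [← hc1] at hc' hq
  rw [← hd1] at hd' hq
  have hcc : f c' = c := by rw [hc1, h.1.inv]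
  have hdd : f d' = d := by rw [hd1, h.1.inv]
  have i1 := hac.ne
  have i2 := had.ne
  have i3 := hbc.ne
  have i4 := hbd.ne
  have i5 := hq.ne
  have n_ac' : a ≠ c' := by intro hh; exact hc' (by rw [← hh]; exact ha)
  have n_ad' : a ≠ d' := by intro hh; exact hd' (by rw [← hh]; exact ha)
  have n_bc' : b ≠ c' := by intro hh; exact hc' (by rw [← hh]; exact hb)
  have n_bd' : b ≠ d' := by intro hh; exact hd' (by rw [← hh]; exact hb)
  have n_cc' : c ≠ c' := by intro hh; exact hc' (by rw [← hh]; exact hc)
  have n_cd' : c ≠ d' := by intro hh; exact hd' (by rw [← hh]; exact hc)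
  have n_dc' : d ≠ c' := by intro hh; exact hc' (by rw [← hh]; exact hd)
  have n_dd' : d ≠ d' := by intro hh; exact hd' (by rw [← hh]; exact hd)
  set t : α → α := fun v => if v = a then c else if v = c then a else if v = b then d else if v = d then b else if v = c' then d' else if v = d' then c' else v with ht
  have t_a : t a = c := by grind
  have t_c : t c = a := by grind
  have t_b : t b = d := by grind
  have t_d : t d = b := by grind
  have t_c' : t c' = d' := by grind
  have t_d' : t d' = c' := by grind
  refine h.no_patch {a, b, c, d, c', d'} t ?_ ?_ ?_ ?_ ?_ a (by simp) hbad ?_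
  · grind
  · grind
  · grind
  · grind [SimpleGraph.adj_comm]
  · grind
  · set f' : α → α := fun v => if v ∈ ({a, b, c, d, c', d'} : Finset α) then t v else f v with hf'
    have g_a : f' a = c := by grind
    have g_c : f' c = a := by grind
    have g_b : f' b = d := by grind
    have g_d : f' d = b := by grind
    have g_c' : f' c' = d' := by grind
    have g_d' : f' d' = c' := by grind
    have G_c' : Good S f' c' := good_of_end hc' (by grind)
    have G_d' : Good S f' d' := good_of_end hd' (by grind)
    have G_c : Good S f' c := good_step scc (by grind) (by grind) G_c'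
    have G_d : Good S f' d := good_step sdd (by grind) (by grind) G_d'
    have G_b : Good S f' b := good_step hbc (by grind) (by grind) G_c
    have G_a : Good S f' a := good_step had (by grind) (by grind) G_d
    intro v hv
    simp only [Finset.mem_insert, Finset.mem_singleton] at hv
    rcases hv with rfl | rfl | rfl | rfl | rfl | rfl
    all_goals assumption

/-- CLX7 (b). Write `c' = f c`, `d' = f d`, `r = f q` (possibly `r = q`; `r ≠ c'`, `r ≠ d'` since `q ≠ c, d`).
T = {a, b, c, d, c', d', q, r}. NEW PAIRS: a c, b d, c' q (`d'` fixed, `r` fixed if `≠ q`).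
GOOD: `c'`, `q` are ends. `c`: `good_step` to `c'`. `b`: to `c`. `a`: to `b`. `d`: to `a`. `d'`: to `d`. `r` (if `≠ q`): to `q`. -/
theorem x12b (h : Opt S f) {a b c d q : α} (hab : f a = b) (ha : Br S a) (hb : Br S b)
    (hc : Br S c) (hd : Br S d) (hcd : c ≠ d) (hc' : ¬ Br S (f c)) (hd' : ¬ Br S (f d))
    (hac : S.Adj a c) (had : S.Adj a d) (hbc : S.Adj b c) (hbd : S.Adj b d)
    (hq : ¬ Br S q) (hcq : S.Adj (f c) q) (hqd : q ≠ f d) (hfq : ¬ Br S (f q))
    (hbad : ¬ Good S f a) : False := by
  have hba : f b = a := by rw [← hab, h.1.inv]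
  have sab : S.Adj a b := by have := h.1.adj a (h.1.cov a ha); rwa [hab] at this
  have e_ab := sab.ne
  obtain ⟨c', hc1⟩ : ∃ c', c' = f c := ⟨_, rfl⟩
  obtain ⟨d', hd1⟩ : ∃ d', d' = f d := ⟨_, rfl⟩
  have scc : S.Adj c c' := by rw [hc1]; exact h.1.adj c (h.1.cov c hc)
  have sdd : S.Adj d d' := by rw [hd1]; exact h.1.adj d (h.1.cov d hd)
  rw [← hc1] at hc' hcq
  rw [← hd1] at hd' hqd
  have hcc : f c' = c := by rw [hc1, h.1.inv]
  have hdd : f d' = d := by rw [hd1, h.1.inv]
  obtain ⟨r, hr1⟩ : ∃ r, r = f q := ⟨_, rfl⟩
  rw [← hr1] at hfq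
  have hrq : f r = q := by rw [hr1, h.1.inv]
  have srq : q ≠ r → S.Adj q r := by
    intro hh
    rw [hr1]
    exact h.1.adj q (by rw [← hr1]; exact hh.symm)
  have i1 := hac.ne
  have i2 := had.ne
  have i3 := hbc.ne
  have i4 := hbd.ne
  have i5 := hcq.ne
  have n1 : ∀ x, Br S x → x ≠ c' := by intro x hx hh; exact hc' (by rw [← hh]; exact hx)
  have n2 : ∀ x, Br S x → x ≠ d' := by intro x hx hh; exact hd' (by rw [← hh]; exact hx)
  have n3 : ∀ x, Br S x → x ≠ q := by intro x hx hh; exact hq (by rw [← hh]; exact hx)
  have n4 : ∀ x, Br S x → x ≠ r := by intro x hx hh; exact hfq (by rw [← hh]; exact hx)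
  have a1 := n1 a ha
  have a2 := n2 a ha
  have a3 := n3 a ha
  have a4 := n4 a ha
  have b1 := n1 b hb
  have b2 := n2 b hb
  have b3 := n3 b hb
  have b4 := n4 b hb
  have c1 := n1 c hc
  have c2 := n2 c hc
  have c3 := n3 c hc
  have c4 := n4 c hc
  have d1 := n1 d hd
  have d2 := n2 d hd
  have d3 := n3 d hd
  have d4 := n4 d hd
  have r1 : r ≠ c' := by intro hh; rw [hh, hcc] at hrq; exact c3 hrq
  have r2 : r ≠ d' := by intro hh; rw [hh, hdd] at hrq; exact d3 hrq
  have e_cd : c' ≠ d' := by intro hh; exact hcd (h.1.inj (by rw [← hc1, ← hd1, hh]))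
  set t : α → α := fun v => if v = a then c else if v = c then a else if v = b then d else if v = d then b else if v = c' then q else if v = q then c' else v with ht
  have t_a : t a = c := by grind
  have t_c : t c = a := by grind
  have t_b : t b = d := by grind
  have t_d : t d = b := by grind
  have t_c1 : t c' = q := by grind
  have t_q : t q = c' := by grind
  have t_d1 : t d' = d' := by grind
  have t_r : r ≠ q → t r = r := by grind
  refine h.no_patch {a, b, c, d, c', d', q, r} t ?_ ?_ ?_ ?_ ?_ a (by simp) hbad ?_
  · grind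
  · grind
  · grind
  · grind [SimpleGraph.adj_comm]
  · grind
  · set f' : α → α := fun v => if v ∈ ({a, b, c, d, c', d', q, r} : Finset α) then t v else f v with hf'
    have g_a : f' a = c := by grind
    have g_c : f' c = a := by grind
    have g_b : f' b = d := by grind
    have g_d : f' d = b := by grind
    have g_c1 : f' c' = q := by grind
    have g_q : f' q = c' := by grind
    have g_d1 : f' d' = d' := by grind
    have g_r : r ≠ q → f' r = r := by grind
    have G_c1 : Good S f' c' := good_of_end hc' (by grind)
    have G_q : Good S f' q := good_of_end hq (by grind)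
    have G_c : Good S f' c := good_step scc (by grind) (by grind) G_c1
    have G_b : Good S f' b := good_step hbc (by grind) (by grind) G_c
    have G_a : Good S f' a := good_step sab (by grind) (by grind) G_b
    have G_d : Good S f' d := good_step had.symm (by grind) (by grind) G_a
    have G_d1 : Good S f' d' := good_step sdd.symm (by grind) (by grind) G_d
    have G_r : Good S f' r := by
      by_cases hh : r = q
      · rw [hh]; exact G_q
      · exact good_step (srq (Ne.symm hh)).symm (by grind) (by grind) G_q
    intro v hv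
    simp only [Finset.mem_insert, Finset.mem_singleton] at hv
    rcases hv with rfl | rfl | rfl | rfl | rfl | rfl | rfl | rfl
    all_goals assumption

end Pool.Agent.H38H.CL
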