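import Pool.Agent.Lib.H38H.CLF2
import Pool.Agent.Lib.H38H.CLX6
import Pool.Agent.Lib.H38H.CLX7

/-!
H38H, module CL, chunk CLF5.
-/

set_option autoImplicit false

namespace Pool.Agent.H38H.CL

open Classical

variable {α : Type} [Finite α] {S : SimpleGraph α} {f : α → α}

/-- CLF5 (a). PROOF. `x` is bad. If it is a branch vertex take `c = x`. Otherwise `bad_nonbranch`; the other neighbour is not `b` by `hno`. -/
theorem link (hd : D23 S) (h : Opt S f) {a b x : α} (hab : f a = b) (hba : ¬ Good S f a)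
    (hax : S.Adj a x) (hxb : x ≠ b) (hno : ∀ u, ¬ Br S u → S.Adj a u → ¬ S.Adj b u) :
    ∃ c, Br S c ∧ ¬ Good S f c ∧ c ≠ a ∧ c ≠ b ∧ Lk S a x c := by
  have hxbad : ¬ Good S f x := bad_of_adj h.1 hba hax (by rw [hab]; exact hxb.symm)
  by_cases hx : Br S x
  · exact ⟨x, hx, hxbad, hax.ne', hxb, hax, Or.inl rfl⟩
  · obtain ⟨c, hc1, hc2, _, _, hcB, _, _, _, hcb⟩ := bad_nonbranch hd h hx hxbad hax.symm
    refine ⟨c, hcB, hcb, hc1, ?_, hax, Or.inr ⟨hx, hc2⟩⟩
    intro e
    rw [e] at hc2
    exact hno x hx hax hc2.symm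

omit [Finite α] in
theorem clf5_lk {a x c : α} (h : Lk S a x c) : x = c ∨ (¬ Br S x ∧ S.Adj x c) := h.2

/-- the case in which `x` is not a branch vertex -/
theorem clf5_A (hd : D23 S) (h4 : {v | Br S v}.ncard ≤ 4) (h : Opt S f) {a b c u y : α}
    (hab : f a = b) (ha : Br S a) (hb : Br S b) (hba : ¬ Good S f a) (hbb : ¬ Good S f b)
    (hno : ∀ u, ¬ Br S u → S.Adj a u → ¬ S.Adj b u) (hc : Br S c)
    (hca : c ≠ a) (hcb : c ≠ b) (hxy : u ≠ y) (hau : S.Adj a u) (hu : ¬ Br S u) (huc : S.Adj u c)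
    (hy : Lk S a y c) : False := by
  have hfb : f b = a := by rw [← hab, h.1.inv]
  have hfab : a ≠ b := by rw [← hab]; exact (h.1.cov a ha).symm
  have hub : u ≠ b := clf2_nb hu hb
  have hubad : ¬ Good S f u := bad_of_adj h.1 hba hau (by rw [hab]; exact hub.symm)
  have hfu : f u = u := bad_fix hubad hu
  have hfc : Br S (f c) := x_partner hd h hu hc huc hubad
  have hcov := h.1.cov c hc
  have hffc : f (f c) = c := h.1.inv c
  have hda : f c ≠ a := by
    intro e
    apply hcb
    rw [← hffc, e, hab]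
  have hdb : f c ≠ b := by
    intro e
    apply hca
    rw [← hffc, e, hfb]
  have scd : S.Adj c (f c) := h.1.adj c hcov
  obtain ⟨hay, hy2⟩ := hy
  have hyb : y ≠ b := by
    rintro rfl
    rcases hy2 with e | ⟨e, _⟩
    · exact hcb e.symm
    · exact e hb
  -- the third neighbour of `c`
  obtain ⟨l, hl⟩ : ∃ l, l = if y = c then a else y := ⟨_, rfl⟩
  have hfy : y ≠ c → f y = y := by
    intro hyc
    rcases hy2 with e | ⟨e, _⟩
    · exact absurd e hyc
    · exact bad_fix (bad_of_adj h.1 hba hay (by rw [hab]; exact hyb.symm)) e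
  have hcl : S.Adj c l ∧ l ≠ u ∧ l ≠ f c := by
    rw [hl]
    split_ifs with hyc
    · rw [hyc] at hay
      exact ⟨hay.symm, (clf2_nb hu ha).symm, hda.symm⟩
    · rcases hy2 with e | ⟨e, e2⟩
      · exact absurd e hyc
      · refine ⟨e2.symm, hxy.symm, ?_⟩
        intro e3
        exact e (e3 ▸ hfc)
  have hufc : u ≠ f c := clf2_nb hu hfc
  have hNc : ∀ w, S.Adj c w → w = f c ∨ w = u ∨ w = l :=
    branch_three hc scd huc.symm hcl.1 hufc.symm hcl.2.2.symm hcl.2.1.symm
  -- the neighbours of `b`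
  have sba : S.Adj b a := by
    have := h.1.adj b (h.1.cov b hb)
    rwa [hfb] at this
  obtain ⟨b1, b2, hb1a, hb2a, hb12, hbb1, hbb2, _⟩ := branch_nbrs' hb sba
  have hno' : ∀ u, ¬ Br S u → S.Adj b u → ¬ S.Adj a u := fun u hu h1 h2 => hno u hu h2 h1
  have key : ∀ w, S.Adj b w → w ≠ a → (w = f c ∨ (¬ Br S w ∧ S.Adj w (f c) ∧ ¬ Good S f w)) := by
    intro w hbw hwa
    have hwbad : ¬ Good S f w := bad_of_adj h.1 hbb hbw (by rw [hfb]; exact hwa.symm)
    obtain ⟨e, heB, _, heb, hea, hlk⟩ := link hd h hfb hbb hbw hwa hno'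
    have hec : e ≠ c := by
      rintro rfl
      rcases hlk.2 with h5 | ⟨h5, h6⟩
      · rw [h5] at hbw
        rcases hNc b hbw.symm with h7 | h7 | h7
        · exact hdb h7.symm
        · exact hub h7.symm
        · rw [hl] at h7
          split_ifs at h7 with hyc
          · exact hfab h7.symm
          · exact hyb h7.symm
      · rcases hNc w h6.symm with h7 | h7 | h7
        · exact h5 (h7 ▸ hfc)
        · rw [h7] at hbw
          exact hno u hu hau hbw
        · rw [hl] at h7
          split_ifs at h7 with hyc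
          · exact hwa h7
          · rw [h7] at hbw h5
            exact hno y h5 hay hbw
    have hed : e = f c := by
      rcases branch_four h4 ha hb hc hfc heB hfab hca.symm hda.symm hcb.symm hdb.symm hcov.symm with
        h5 | h5 | h5 | h5
      · exact absurd h5 hea
      · exact absurd h5 heb
      · exact absurd h5 hec
      · exact h5
    rw [hed] at hlk
    rcases hlk.2 with h5 | ⟨h5, h6⟩
    · exact Or.inl h5
    · exact Or.inr ⟨h5, h6, hwbad⟩
  have hq : ∃ q, S.Adj b q ∧ ¬ Br S q ∧ ¬ Good S f q := by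
    rcases key b1 hbb1 hb1a with h5 | ⟨h5, _, h6⟩
    · rcases key b2 hbb2 hb2a with h7 | ⟨h7, _, h8⟩
      · exact absurd (h5.trans h7.symm) hb12
      · exact ⟨b2, hbb2, h7, h8⟩
    · exact ⟨b1, hbb1, h5, h6⟩
  obtain ⟨q, hbq, hqB, hqbad⟩ := hq
  have hqu : q ≠ u := by
    rintro rfl
    exact hno _ hu hau hbq
  have hfq : f q = q := bad_fix hqbad hqB
  refine x11 h hab ha hb hc hca hcb hu hqB hqu hau huc hbq hfq ?_ hba
  by_cases hyc : y = c
  · left
    rw [← hyc]
    exact hay
  · right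
    rcases hy2 with e | ⟨e, e2⟩
    · exact absurd e hyc
    · refine ⟨y, e, hxy.symm, ?_, hay, e2⟩
      rintro rfl
      exact hno _ e hay hbq

/-- CLF5 (b). Both links from `a` lead to `c`.
PROOF. `x`, `y` are bad (so fixed by `f` if not branch vertices). Not both are `c`; by symmetry let `u = x` be not a branch vertex, adjacent to `a` and
`c`. `Br S (f c)` by `x_partner`. `d = f c`; `d ≠ a`, `d ≠ b`; branch vertices `a, b, c, d`. Let `l = a` if `y = c` and `l = y` otherwise: `N(c) = {d, u, l}`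
(`branch_three`; `d ≠ u`, `d ≠ l` since `f u = u`, `f y = y`, `f a = b`). `N(b) = {a, b1, b2}`. By `link` for `b` (roles exchanged) `b1` leads to
`c` or `d`, same for `b2`. `b1` does not lead to `c`: if `b1 = c` then `b` is in `N(c)`, but `b` is not `d`, `u`, `a`, `y`; if `b1` is not a branch vertex and
adjacent to `c` then `b1` is `u` or `y`, adjacent to `a`: excluded by `hno`. So `b1`, `b2` lead to `d`, and as `b1 ≠ b2` one of them, `q`, is not a
branch vertex. `q ≠ u`, `q ≠ y` by `hno`. `f q = q` (bad). Now `x11` for `(a, b, c, u, q)`; `hlink`: `S.Adj a c` if `y = c`, otherwise `u2 = y`. -/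
theorem caseA (hd : D23 S) (h4 : {v | Br S v}.ncard ≤ 4) (h : Opt S f) {a b c x y : α}
    (hab : f a = b) (ha : Br S a) (hb : Br S b) (hba : ¬ Good S f a) (hbb : ¬ Good S f b)
    (hno : ∀ u, ¬ Br S u → S.Adj a u → ¬ S.Adj b u) (hc : Br S c) (hbc : ¬ Good S f c)
    (hca : c ≠ a) (hcb : c ≠ b) (hxy : x ≠ y) (hx : Lk S a x c) (hy : Lk S a y c) : False := by
  rcases hx.2 with e | ⟨e, e2⟩
  · rcases hy.2 with e3 | ⟨e3, e4⟩
    · exact hxy (e.trans e3.symm)
    · exact clf5_A hd h4 h hab ha hb hba hbb hno hc hca hcb hxy.symm hy.1 e3 e4 hx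
  · exact clf5_A hd h4 h hab ha hb hba hbb hno hc hca hcb hxy hx.1 e e2 hy

/-- CLF5 (c). The four links, and the partners of `c`, `d` are not branch vertices.
PROOF. All links are direct: if e.g. `x1 ≠ c` then `x1` is bad, not a branch vertex, adjacent to `c`, so `x_partner` gives `Br S (f c)`.
So `N(a) = {b, c, d}`, `N(b) = {a, c, d}`, `N(c) = {f c, a, b}`, `N(d) = {f d, a, b}`. `f c ≠ f d`. Let `q ≠ c` be the other neighbour of
`c' = f c`. If `q = f d`: `x12a`. Otherwise `q` is not a branch vertex: it is not `c`; not `a`, `b`, `d` since `c'` is not in `N(a)`, `N(b)`, `N(d)`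
(`branch_four`). `f q` is not a branch vertex: otherwise it is `a`, `b`, `c` or `d` and `q` is `b`, `a`, `f c` or `f d`. So `x12b`. -/
theorem caseB1 (hd : D23 S) (h4 : {v | Br S v}.ncard ≤ 4) (h : Opt S f) {a b c d x1 x2 y1 y2 : α}
    (hab : f a = b) (ha : Br S a) (hb : Br S b) (hc : Br S c) (hdd : Br S d) (hba : ¬ Good S f a)
    (hbb : ¬ Good S f b) (hca : c ≠ a) (hcb : c ≠ b) (hda : d ≠ a) (hdb : d ≠ b) (hcd : c ≠ d)
    (hfc : ¬ Br S (f c)) (hfd : ¬ Br S (f d)) (hx1 : Lk S a x1 c) (hx2 : Lk S a x2 d)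
    (hy1 : Lk S b y1 c) (hy2 : Lk S b y2 d) : False := by
  have hfb : f b = a := by rw [← hab, h.1.inv]
  have hfab : a ≠ b := by rw [← hab]; exact (h.1.cov a ha).symm
  have sab : S.Adj a b := by have := h.1.adj a (h.1.cov a ha); rwa [hab] at this
  have direct : ∀ {p p' z w : α}, Br S p' → f p = p' → ¬ Good S f p → Br S w → ¬ Br S (f w) →
      Lk S p z w → S.Adj p w := by
    intro p p' z w hp' hpp hpbad hw hfw hlk
    rcases hlk.2 with e | ⟨e, e2⟩
    · rw [← e]
      exact hlk.1
    · exfalso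
      have hzbad : ¬ Good S f z := bad_of_adj h.1 hpbad hlk.1 (by rw [hpp]; exact (clf2_nb e hp').symm)
      exact hfw (x_partner hd h e hw e2 hzbad)
  have hac := direct hb hab hba hc hfc hx1
  have had := direct hb hab hba hdd hfd hx2
  have hbc := direct ha hfb hbb hc hfc hy1
  have hbd := direct ha hfb hbb hdd hfd hy2
  have scc : S.Adj c (f c) := h.1.adj c (h.1.cov c hc)
  have sdd : S.Adj d (f d) := h.1.adj d (h.1.cov d hdd)
  have na : f c ≠ a := clf2_nb hfc ha
  have nb' : f c ≠ b := clf2_nb hfc hb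
  have nc : f c ≠ c := clf2_nb hfc hc
  have nd : f c ≠ d := clf2_nb hfc hdd
  have ncd : f c ≠ f d := fun e => hcd (h.1.inj e)
  obtain ⟨q, hqc, hcq, _⟩ := nonbranch_nbrs hd hfc scc.symm
  by_cases hqd : q = f d
  · rw [hqd] at hcq
    exact x12a h hab ha hb hc hdd hcd hfc hfd hac had hbc hbd hcq hba
  · have Na := branch_three ha sab hac had hcb.symm hdb.symm hcd
    have Nb := branch_three hb sab.symm hbc hbd hca.symm hda.symm hcd
    have Nd := branch_three hdd sdd had.symm hbd.symm (clf2_nb hfd ha) (clf2_nb hfd hb) hfab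
    have four : ∀ e, Br S e → e = a ∨ e = b ∨ e = c ∨ e = d := fun e he =>
      branch_four h4 ha hb hc hdd he hfab hca.symm hda.symm hcb.symm hdb.symm hcd
    have hqB : ¬ Br S q := by
      intro hqB
      rcases four q hqB with e | e | e | e
      · rw [e] at hcq
        rcases Na _ hcq.symm with h5 | h5 | h5
        · exact nb' h5
        · exact nc h5
        · exact nd h5
      · rw [e] at hcq
        rcases Nb _ hcq.symm with h5 | h5 | h5
        · exact na h5
        · exact nc h5
        · exact nd h5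
      · exact hqc e
      · rw [e] at hcq
        rcases Nd _ hcq.symm with h5 | h5 | h5
        · exact ncd h5
        · exact na h5
        · exact nb' h5
    have hfqB : ¬ Br S (f q) := by
      intro hfqB
      rcases four _ hfqB with e | e | e | e
      · exact hqB (by rw [← h.1.inv q, e, hab]; exact hb)
      · exact hqB (by rw [← h.1.inv q, e, hfb]; exact ha)
      · have : q = f c := by rw [← e, h.1.inv]
        rw [this] at hcq
        exact hcq.ne rfl
      · exact hqd (by rw [← e, h.1.inv])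
    exact x12b h hab ha hb hc hdd hcd hfc hfd hac had hbc hbd hqB hcq hqd hfqB hba

end Pool.Agent.H38H.CL
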