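import Pool.Agent.Lib.H38H.CLDefs

/-!
H38H, module CL: the exchange `x13`, DONE. It is the TEMPLATE for the chunks CLX1 - CLX8: name the vertices of `T`, collect
all inequalities, define `t` by nested `if`, compute `t` and `f'` at the named vertices by `grind`, apply
`Opt.no_patch`, and prove `Good` one vertex after the other with `good_end` and `good_step`.
-/

set_option autoImplicit false

namespace Pool.Agent.H38H.CL

open Classical

variable {α : Type} {S : SimpleGraph α} {f : α → α}

/-- Two links via `u`, `w` at `a`; new pairs `a w`, `b d`, `c u`. -/
theorem x13 (h : Opt S f) {a b c d u w : α} (hab : f a = b) (hcd : f c = d) (hac : a ≠ c)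
    (had : a ≠ d) (hBa : Br S a) (hBb : Br S b) (hBc : Br S c) (hBd : Br S d)
    (hu : ¬ Br S u) (hw : ¬ Br S w) (huw : u ≠ w) (hau : S.Adj a u) (huc : S.Adj u c)
    (haw : S.Adj a w) (hwd : S.Adj w d) (hbd : S.Adj b d) (hfu : f u = u) (hfw : f w = w)
    (hbad : ¬ Good S f a) : False := by
  have hba : f b = a := by rw [← hab, h.1.inv]
  have hdc : f d = c := by rw [← hcd, h.1.inv]
  have sab : S.Adj a b := by have := h.1.adj a (h.1.cov a hBa); rwa [hab] at this
  have scd : S.Adj c d := by have := h.1.adj c (h.1.cov c hBc); rwa [hcd] at this
  have e1 := sab.ne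
  have e2 := scd.ne
  have e3 := hbd.ne
  have e4 : b ≠ c := by rintro rfl; exact had (by rw [← hba, hcd])
  have e5 : a ≠ u := by rintro rfl; exact hu hBa
  have e6 : b ≠ u := by rintro rfl; exact hu hBb
  have e7 : c ≠ u := by rintro rfl; exact hu hBc
  have e8 : d ≠ u := by rintro rfl; exact hu hBd
  have f5 : a ≠ w := by rintro rfl; exact hw hBa
  have f6 : b ≠ w := by rintro rfl; exact hw hBb
  have f7 : c ≠ w := by rintro rfl; exact hw hBc
  have f8 : d ≠ w := by rintro rfl; exact hw hBd
  set t : α → α := fun v => if v = a then w else if v = w then a else if v = b then d else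
    if v = d then b else if v = c then u else if v = u then c else v with ht
  have ta : t a = w := by grind
  have tw : t w = a := by grind
  have tb : t b = d := by grind
  have td : t d = b := by grind
  have tc : t c = u := by grind
  have tu : t u = c := by grind
  refine h.no_patch {a, b, c, d, u, w} t ?_ ?_ ?_ ?_ ?_ a (by simp) hbad ?_
  · grind
  · grind
  · grind
  · grind [SimpleGraph.adj_comm]
  · grind
  · set f' : α → α := fun v => if v ∈ ({a, b, c, d, u, w} : Finset α) then t v else f v with hf'
    have ga : f' a = w := by grind
    have gw : f' w = a := by grind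
    have gb : f' b = d := by grind
    have gd : f' d = b := by grind
    have gc : f' c = u := by grind
    have gu : f' u = c := by grind
    have Gu : Good S f' u := good_of_end hu (by grind)
    have Gw : Good S f' w := good_of_end hw (by grind)
    have Ga : Good S f' a := good_step hau (by grind) (by grind) Gu
    have Gd : Good S f' d := good_step hwd.symm (by grind) (by grind) Gw
    have Gc : Good S f' c := good_step scd (by grind) (by grind) Gd
    have Gb : Good S f' b := good_step sab.symm (by grind) (by grind) Ga
    intro v hv
    simp only [Finset.mem_insert, Finset.mem_singleton] at hv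
    rcases hv with rfl | rfl | rfl | rfl | rfl | rfl
    all_goals assumption

end Pool.Agent.H38H.CL
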