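import Pool.Agent.Lib.H38H.CLDefs

/-!
H38H, module CL, chunk CLX8: exchanges (see the finished template CLX0.lean).
In every proof: suppose the hypotheses hold. `T` is a finite set of named vertices, closed under `f`; `t` is an involution of `T`
given by the listed NEW PAIRS (the other vertices of `T` are fixed); every new pair is an edge of `S` and every branch
vertex of `T` is in a new pair. `f'` is `t` on `T` and `f` elsewhere. The list GOOD shows that all vertices
of `T` are good for `f'`, so `Opt.no_patch` gives `False`.
-/

set_option autoImplicit false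

namespace Pool.Agent.H38H.CL

open Classical

variable {α : Type} {S : SimpleGraph α} {f : α → α}

/-- CLX8 (a). T = {a, b, c, d, p, q, r, s}. NEW PAIRS: a p, c q, b r, d s.
GOOD: `p, q, r, s` are ends. `a`: `good_step` to `s`. `c`: to `p`. `b`: to `q`. `d`: to `r`. -/
theorem x14 (h : Opt S f) {a b c d p q r s : α} (hab : f a = b) (hcd : f c = d) (hac : a ≠ c)
    (had : a ≠ d) (ha : Br S a) (hb : Br S b) (hc : Br S c) (hd : Br S d)
    (hp : ¬ Br S p) (hq : ¬ Br S q) (hr : ¬ Br S r) (hs : ¬ Br S s)
    (hpq : p ≠ q) (hpr : p ≠ r) (hps : p ≠ s) (hqr : q ≠ r) (hqs : q ≠ s) (hrs : r ≠ s)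
    (hfp : f p = p) (hfq : f q = q) (hfr : f r = r) (hfs : f s = s)
    (hap : S.Adj a p) (hpc : S.Adj p c) (hcq : S.Adj c q) (hqb : S.Adj q b)
    (hbr : S.Adj b r) (hrd : S.Adj r d) (hds : S.Adj d s) (hsa : S.Adj s a)
    (hbad : ¬ Good S f a) : False := by
  have hba : f b = a := by rw [← hab, h.1.inv]
  have sab : S.Adj a b := by have := h.1.adj a (h.1.cov a ha); rwa [hab] at this
  have e_ab := sab.ne
  have hdc : f d = c := by rw [← hcd, h.1.inv]
  have scd : S.Adj c d := by have := h.1.adj c (h.1.cov c hc); rwa [hcd] at this
  have e_cd := scd.ne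
  have e_bc : b ≠ c := by intro hh; exact had (by rw [← hba, ← hcd, hh])
  have e_bd : b ≠ d := by intro hh; exact hac (h.1.inj (by rw [hab, hcd, hh]))
  have n_ap : a ≠ p := by intro hh; exact hp (by rw [← hh]; exact ha)
  have n_aq : a ≠ q := by intro hh; exact hq (by rw [← hh]; exact ha)
  have n_ar : a ≠ r := by intro hh; exact hr (by rw [← hh]; exact ha)
  have n_as : a ≠ s := by intro hh; exact hs (by rw [← hh]; exact ha)
  have n_bp : b ≠ p := by intro hh; exact hp (by rw [← hh]; exact hb)
  have n_bq : b ≠ q := by intro hh; exact hq (by rw [← hh]; exact hb)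
  have n_br : b ≠ r := by intro hh; exact hr (by rw [← hh]; exact hb)
  have n_bs : b ≠ s := by intro hh; exact hs (by rw [← hh]; exact hb)
  have n_cp : c ≠ p := by intro hh; exact hp (by rw [← hh]; exact hc)
  have n_cq : c ≠ q := by intro hh; exact hq (by rw [← hh]; exact hc)
  have n_cr : c ≠ r := by intro hh; exact hr (by rw [← hh]; exact hc)
  have n_cs : c ≠ s := by intro hh; exact hs (by rw [← hh]; exact hc)
  have n_dp : d ≠ p := by intro hh; exact hp (by rw [← hh]; exact hd)
  have n_dq : d ≠ q := by intro hh; exact hq (by rw [← hh]; exact hd)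
  have n_dr : d ≠ r := by intro hh; exact hr (by rw [← hh]; exact hd)
  have n_ds : d ≠ s := by intro hh; exact hs (by rw [← hh]; exact hd)
  set t : α → α := fun v => if v = a then p else if v = p then a else if v = c then q else if v = q then c else if v = b then r else if v = r then b else if v = d then s else if v = s then d else v with ht
  have t_a : t a = p := by grind
  have t_p : t p = a := by grind
  have t_c : t c = q := by grind
  have t_q : t q = c := by grind
  have t_b : t b = r := by grind
  have t_r : t r = b := by grind
  have t_d : t d = s := by grind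
  have t_s : t s = d := by grind
  refine h.no_patch {a, b, c, d, p, q, r, s} t ?_ ?_ ?_ ?_ ?_ a (by simp) hbad ?_
  · grind
  · grind
  · grind
  · grind [SimpleGraph.adj_comm]
  · grind
  · set f' : α → α := fun v => if v ∈ ({a, b, c, d, p, q, r, s} : Finset α) then t v else f v with hf'
    have g_a : f' a = p := by grind
    have g_p : f' p = a := by grind
    have g_c : f' c = q := by grind
    have g_q : f' q = c := by grind
    have g_b : f' b = r := by grind
    have g_r : f' r = b := by grind
    have g_d : f' d = s := by grind
    have g_s : f' s = d := by grind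
    have G_p : Good S f' p := good_of_end hp (by grind)
    have G_q : Good S f' q := good_of_end hq (by grind)
    have G_r : Good S f' r := good_of_end hr (by grind)
    have G_s : Good S f' s := good_of_end hs (by grind)
    have G_a : Good S f' a := good_step hsa.symm (by grind) (by grind) G_s
    have G_c : Good S f' c := good_step hpc.symm (by grind) (by grind) G_p
    have G_b : Good S f' b := good_step hqb.symm (by grind) (by grind) G_q
    have G_d : Good S f' d := good_step hrd.symm (by grind) (by grind) G_r
    intro v hv
    simp only [Finset.mem_insert, Finset.mem_singleton] at hv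
    rcases hv with rfl | rfl | rfl | rfl | rfl | rfl | rfl | rfl
    all_goals assumption

/-- CLX8 (b). T = {a, b, c, d, u, w}. NEW PAIRS: c b, a u, d w.
GOOD: `u`, `w` are ends. `c`: `good_step` to `u`. `d`: to `c`. `a`: to `d`. `b`: to `w`. -/
theorem x15 (h : Opt S f) {a b c d u w : α} (hab : f a = b) (hcd : f c = d) (hac : a ≠ c)
    (had : a ≠ d) (ha : Br S a) (hb : Br S b) (hc : Br S c) (hd : Br S d)
    (hu : ¬ Br S u) (hw : ¬ Br S w) (huw : u ≠ w) (hfu : f u = u) (hfw : f w = w)
    (hau : S.Adj a u) (huc : S.Adj u c) (hbw : S.Adj b w) (hwd : S.Adj w d)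
    (hcb : S.Adj c b) (hada : S.Adj a d) (hbad : ¬ Good S f a) : False := by
  have hba : f b = a := by rw [← hab, h.1.inv]
  have sab : S.Adj a b := by have := h.1.adj a (h.1.cov a ha); rwa [hab] at this
  have e_ab := sab.ne
  have hdc : f d = c := by rw [← hcd, h.1.inv]
  have scd : S.Adj c d := by have := h.1.adj c (h.1.cov c hc); rwa [hcd] at this
  have e_cd := scd.ne
  have e_bc := hcb.ne
  have e_bd : b ≠ d := by intro hh; exact hac (h.1.inj (by rw [hab, hcd, hh]))
  have n_au : a ≠ u := by intro hh; exact hu (by rw [← hh]; exact ha)
  have n_aw : a ≠ w := by intro hh; exact hw (by rw [← hh]; exact ha)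
  have n_bu : b ≠ u := by intro hh; exact hu (by rw [← hh]; exact hb)
  have n_bw : b ≠ w := by intro hh; exact hw (by rw [← hh]; exact hb)
  have n_cu : c ≠ u := by intro hh; exact hu (by rw [← hh]; exact hc)
  have n_cw : c ≠ w := by intro hh; exact hw (by rw [← hh]; exact hc)
  have n_du : d ≠ u := by intro hh; exact hu (by rw [← hh]; exact hd)
  have n_dw : d ≠ w := by intro hh; exact hw (by rw [← hh]; exact hd)
  set t : α → α := fun v => if v = c then b else if v = b then c else if v = a then u else if v = u then a else if v = d then w else if v = w then d else v with ht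
  have t_c : t c = b := by grind
  have t_b : t b = c := by grind
  have t_a : t a = u := by grind
  have t_u : t u = a := by grind
  have t_d : t d = w := by grind
  have t_w : t w = d := by grind
  refine h.no_patch {a, b, c, d, u, w} t ?_ ?_ ?_ ?_ ?_ a (by simp) hbad ?_
  · grind
  · grind
  · grind
  · grind [SimpleGraph.adj_comm]
  · grind
  · set f' : α → α := fun v => if v ∈ ({a, b, c, d, u, w} : Finset α) then t v else f v with hf'
    have g_c : f' c = b := by grind
    have g_b : f' b = c := by grind
    have g_a : f' a = u := by grind
    have g_u : f' u = a := by grind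
    have g_d : f' d = w := by grind
    have g_w : f' w = d := by grind
    have G_u : Good S f' u := good_of_end hu (by grind)
    have G_w : Good S f' w := good_of_end hw (by grind)
    have G_c : Good S f' c := good_step huc.symm (by grind) (by grind) G_u
    have G_d : Good S f' d := good_step scd.symm (by grind) (by grind) G_c
    have G_a : Good S f' a := good_step hada (by grind) (by grind) G_d
    have G_b : Good S f' b := good_step hbw (by grind) (by grind) G_w
    intro v hv
    simp only [Finset.mem_insert, Finset.mem_singleton] at hv
    rcases hv with rfl | rfl | rfl | rfl | rfl | rfl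
    all_goals assumption

end Pool.Agent.H38H.CL
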