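import Pool.Agent.Lib.H38H.CLF2
import Pool.Agent.Lib.H38H.CLX0
import Pool.Agent.Lib.H38H.CLX8

/-!
H38H, module CL, chunk CLF6.
-/

set_option autoImplicit false

namespace Pool.Agent.H38H.CL

open Classical

variable {α : Type} [Finite α] {S : SimpleGraph α} {f : α → α}

omit [Finite α] in
theorem clf6_lk {a x c : α} (h : Lk S a x c) :
    S.Adj a c ∨ (¬ Br S x ∧ S.Adj a x ∧ S.Adj x c) := by
  obtain ⟨h1, h2 | ⟨h2, h3⟩⟩ := h
  · left
    rw [← h2]
    exact h1
  · exact Or.inr ⟨h2, h1, h3⟩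

omit [Finite α] in
theorem clf6_three (hd : D23 S) {u p q r : α} (hu : ¬ Br S u) (h1 : S.Adj u p) (h2 : S.Adj u q)
    (h3 : S.Adj u r) (hpq : p ≠ q) (hpr : p ≠ r) (hqr : q ≠ r) : False := by
  obtain ⟨b, hb, _, hall⟩ := nonbranch_nbrs hd hu h1
  rcases hall q h2 with e | e
  · exact hpq e.symm
  · rcases hall r h3 with e' | e'
    · exact hpr e'.symm
    · exact hqr (e.trans e'.symm)

/-- CLF6. The four links with `f a = b`, `f c = d`.
PROOF. `S.Adj a b`, `S.Adj c d` (partners). Each of the four links is direct (`x1 = c`, ...) or has a vertex of degree two in the middle (bad, so fixed by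
`f`). The middle vertices are distinct: a vertex of degree two adjacent to three distinct vertices is impossible, and `hno`. 16 cases, written
(ac, ad, bc, bd), 1 = with a middle vertex:
0000: `HasK4`. Exactly one 1, for example ac: `HasK4'` with `(a, b, c, d, u) := (b, d, a, c, x1)`; the others are the same up to
the symmetries exchanging `a`, `b` and / or `c`, `d`, and `(a, b)` with `(c, d)`.
1001: `x15` for `(a, b, c, d, x1, y2)`. 0110: `x15` for `(a, b, d, c, x2, y1)`. 1111: `x14` for `(a, b, c, d, x1, y1, y2, x2)`.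
In all other cases some branch vertex has two middle vertices, and one of the two links at its partner is direct: `x13`. In detail: 1100, 1110: `x13`
for `(a, b, c, d, x1, x2)`; 1101: `(a, b, d, c, x2, x1)`; 0011, 1011: `(b, a, c, d, y1, y2)`; 0111: `(b, a, d, c, y2, y1)`;
1010: `(c, d, a, b, x1, y1)`; 0101: `(d, c, a, b, x2, y2)`. -/
theorem caseB2 (hd : D23 S) (h : Opt S f) (hK : ¬ HasK4 S) (hK' : ¬ HasK4' S)
    {a b c d x1 x2 y1 y2 : α} (hab : f a = b) (hcd : f c = d) (ha : Br S a) (hb : Br S b)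
    (hc : Br S c) (hdd : Br S d) (hba : ¬ Good S f a) (hbb : ¬ Good S f b) (hbc : ¬ Good S f c)
    (hbd : ¬ Good S f d) (hca : c ≠ a) (hcb : c ≠ b) (hda : d ≠ a) (hdb : d ≠ b)
    (hno : ∀ u, ¬ Br S u → S.Adj a u → ¬ S.Adj b u) (hx1 : Lk S a x1 c) (hx2 : Lk S a x2 d)
    (hy1 : Lk S b y1 c) (hy2 : Lk S b y2 d) : False := by
  have hfb : f b = a := by rw [← hab, h.1.inv]
  have hfd : f d = c := by rw [← hcd, h.1.inv]
  have sab : S.Adj a b := by have := h.1.adj a (h.1.cov a ha); rwa [hab] at this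
  have scd : S.Adj c d := by have := h.1.adj c (h.1.cov c hc); rwa [hcd] at this
  have hcd' : c ≠ d := scd.ne
  have nb : ∀ {x z : α}, ¬ Br S x → Br S z → x ≠ z := by
    intro x z h1 h2 h3
    exact h1 (h3 ▸ h2)
  have fixA : ∀ x, ¬ Br S x → S.Adj a x → f x = x := by
    intro x hx hax
    apply bad_fix _ hx
    apply bad_of_adj h.1 hba hax
    rw [hab]
    exact (nb hx hb).symm
  have fixB : ∀ x, ¬ Br S x → S.Adj b x → f x = x := by
    intro x hx hax
    apply bad_fix _ hx
    apply bad_of_adj h.1 hbb hax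
    rw [hfb]
    exact (nb hx ha).symm
  rcases clf6_lk hx1 with ac | ⟨n1, ax1, x1c⟩
  · rcases clf6_lk hx2 with ad | ⟨n2, ax2, x2d⟩
    · rcases clf6_lk hy1 with bc | ⟨n3, by1, y1c⟩
      · rcases clf6_lk hy2 with bd | ⟨n4, by2, y2d⟩
        · exact hK ⟨a, b, c, d, sab, ac, ad, bc, bd, scd⟩
        · exact hK' ⟨a, c, b, d, y2, ac, sab, ad, bc.symm, scd, by2, y2d, hdb.symm, nb n4 ha, nb n4 hc, n4⟩
      · rcases clf6_lk hy2 with bd | ⟨n4, by2, y2d⟩
        · exact hK' ⟨a, d, b, c, y1, ad, sab, ac, bd.symm, scd.symm, by1, y1c, hcb.symm, nb n3 ha, nb n3 hdd, n3⟩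
        · -- 0011
          refine x13 h hfb hcd hcb.symm hdb.symm hb ha hc hdd n3 n4 ?_ by1 y1c by2 y2d ad (fixB _ n3 by1)
            (fixB _ n4 by2) hbb
          intro e
          rw [← e] at y2d
          exact clf6_three hd n3 by1.symm y1c y2d hcb.symm hdb.symm hcd'
    · rcases clf6_lk hy1 with bc | ⟨n3, by1, y1c⟩
      · rcases clf6_lk hy2 with bd | ⟨n4, by2, y2d⟩
        · exact hK' ⟨b, c, a, d, x2, bc, sab.symm, bd, ac.symm, scd, ax2, x2d, hda.symm, nb n2 hb, nb n2 hc, n2⟩
        · -- 0101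
          refine x13 h hfd hab hda hdb hdd hc ha hb n2 n4 ?_ x2d.symm ax2.symm y2d.symm by2.symm bc.symm
            (fixA _ n2 ax2) (fixB _ n4 by2) hbd
          intro e
          rw [← e] at by2
          exact hno _ n2 ax2 by2
      · rcases clf6_lk hy2 with bd | ⟨n4, by2, y2d⟩
        · -- 0110
          refine x15 h hab hfd hda.symm hca.symm ha hb hdd hc n2 n3 ?_ (fixA _ n2 ax2) (fixB _ n3 by1)
            ax2 x2d by1 y1c bd.symm ac hba
          intro e
          rw [← e] at by1
          exact hno _ n2 ax2 by1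
        · -- 0111
          refine x13 h hfb hfd hdb.symm hcb.symm hb ha hdd hc n4 n3 ?_ by2 y2d by1 y1c ac (fixB _ n4 by2)
            (fixB _ n3 by1) hbb
          intro e
          rw [e] at y2d
          exact clf6_three hd n3 by1.symm y1c y2d hcb.symm hdb.symm hcd'
  · rcases clf6_lk hx2 with ad | ⟨n2, ax2, x2d⟩
    · rcases clf6_lk hy1 with bc | ⟨n3, by1, y1c⟩
      · rcases clf6_lk hy2 with bd | ⟨n4, by2, y2d⟩
        · exact hK' ⟨b, d, a, c, x1, bd, sab.symm, bc, ad.symm, scd.symm, ax1, x1c, hca.symm, nb n1 hb, nb n1 hdd, n1⟩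
        · -- 1001
          refine x15 h hab hcd hca.symm hda.symm ha hb hc hdd n1 n4 ?_ (fixA _ n1 ax1) (fixB _ n4 by2)
            ax1 x1c by2 y2d bc.symm ad hba
          intro e
          rw [← e] at by2
          exact hno _ n1 ax1 by2
      · rcases clf6_lk hy2 with bd | ⟨n4, by2, y2d⟩
        · -- 1010
          refine x13 h hcd hab hca hcb hc hdd ha hb n1 n3 ?_ x1c.symm ax1.symm y1c.symm by1.symm bd.symm
            (fixA _ n1 ax1) (fixB _ n3 by1) hbc
          intro e
          rw [← e] at by1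
          exact hno _ n1 ax1 by1
        · -- 1011
          refine x13 h hfb hcd hcb.symm hdb.symm hb ha hc hdd n3 n4 ?_ by1 y1c by2 y2d ad (fixB _ n3 by1)
            (fixB _ n4 by2) hbb
          intro e
          rw [← e] at y2d
          exact clf6_three hd n3 by1.symm y1c y2d hcb.symm hdb.symm hcd'
    · have h12 : x1 ≠ x2 := by
        intro e
        rw [← e] at x2d
        exact clf6_three hd n1 ax1.symm x1c x2d hca.symm hda.symm hcd'
      rcases clf6_lk hy1 with bc | ⟨n3, by1, y1c⟩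
      · rcases clf6_lk hy2 with bd | ⟨n4, by2, y2d⟩
        · -- 1100
          exact x13 h hab hcd hca.symm hda.symm ha hb hc hdd n1 n2 h12 ax1 x1c ax2 x2d bd (fixA _ n1 ax1)
            (fixA _ n2 ax2) hba
        · -- 1101
          exact x13 h hab hfd hda.symm hca.symm ha hb hdd hc n2 n1 h12.symm ax2 x2d ax1 x1c bc (fixA _ n2 ax2)
            (fixA _ n1 ax1) hba
      · rcases clf6_lk hy2 with bd | ⟨n4, by2, y2d⟩
        · -- 1110
          exact x13 h hab hcd hca.symm hda.symm ha hb hc hdd n1 n2 h12 ax1 x1c ax2 x2d bd (fixA _ n1 ax1)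
            (fixA _ n2 ax2) hba
        · -- 1111
          have h34 : y1 ≠ y2 := by
            intro e
            rw [← e] at y2d
            exact clf6_three hd n3 by1.symm y1c y2d hcb.symm hdb.symm hcd'
          have d1 : ∀ x y, ¬ Br S x → S.Adj a x → S.Adj b y → x ≠ y := by
            intro x y hx hax hby e
            rw [← e] at hby
            exact hno _ hx hax hby
          exact x14 h hab hcd hca.symm hda.symm ha hb hc hdd n1 n3 n4 n2
            (d1 _ _ n1 ax1 by1) (d1 _ _ n1 ax1 by2) h12 h34 (d1 _ _ n2 ax2 by1).symm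
            (d1 _ _ n2 ax2 by2).symm (fixA _ n1 ax1) (fixB _ n3 by1) (fixB _ n4 by2) (fixA _ n2 ax2)
            ax1 x1c y1c.symm by1.symm by2 y2d x2d.symm ax2.symm hba

end Pool.Agent.H38H.CL
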