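import Pool.Agent.Lib.H38H.CLF3
import Pool.Agent.Lib.H38H.CLF4
import Pool.Agent.Lib.H38H.CLF5
import Pool.Agent.Lib.H38H.CLF6
import Pool.Agent.Lib.H38H.CLB2
import Pool.Agent.Lib.H38H.CLB5

/-!
H38H, module CL, chunk CLF7.
-/

set_option autoImplicit false

namespace Pool.Agent.H38H.CL

open Classical

variable {α : Type} [Finite α] {S : SimpleGraph α} {f : α → α}

/-- the last step: the four links are there -/
theorem clf7_four (hd : D23 S) (h4 : {v | Br S v}.ncard ≤ 4) (h : Opt S f) (hK : ¬ HasK4 S)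
    (hK' : ¬ HasK4' S) {a b c d x1 x2 y1 y2 : α} (hab : f a = b) (ha : Br S a) (hb : Br S b)
    (hc : Br S c) (hdd : Br S d) (hba : ¬ Good S f a) (hbb : ¬ Good S f b) (hbc : ¬ Good S f c)
    (hbd : ¬ Good S f d) (hca : c ≠ a) (hcb : c ≠ b) (hda : d ≠ a) (hdb : d ≠ b) (hcd : c ≠ d)
    (hno : ∀ u, ¬ Br S u → S.Adj a u → ¬ S.Adj b u) (hx1 : Lk S a x1 c) (hx2 : Lk S a x2 d)
    (hy1 : Lk S b y1 c) (hy2 : Lk S b y2 d) : False := by
  have hfb : f b = a := by rw [← hab, h.1.inv]
  have hfab : a ≠ b := by rw [← hab]; exact (h.1.cov a ha).symm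
  have four : ∀ e, Br S e → e = a ∨ e = b ∨ e = c ∨ e = d := fun e he =>
    branch_four h4 ha hb hc hdd he hfab hca.symm hda.symm hcb.symm hdb.symm hcd
  by_cases hfc : Br S (f c)
  · have hfcd : f c = d := by
      rcases four _ hfc with e | e | e | e
      · exact absurd (by rw [← h.1.inv c, e, hab]) hcb
      · exact absurd (by rw [← h.1.inv c, e, hfb]) hca
      · exact absurd e (h.1.cov c hc)
      · exact e
    exact caseB2 hd h hK hK' hab hfcd ha hb hc hdd hba hbb hbc hbd hca hcb hda hdb hno hx1 hx2 hy1 hy2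
  · have hfd : ¬ Br S (f d) := by
      intro hfd
      rcases four _ hfd with e | e | e | e
      · exact absurd (by rw [← h.1.inv d, e, hab]) hdb
      · exact absurd (by rw [← h.1.inv d, e, hfb]) hda
      · apply hfc
        rw [← e, h.1.inv]
        exact hdd
      · exact absurd e (h.1.cov d hdd)
    exact caseB1 hd h4 h hab ha hb hc hdd hba hbb hca hcb hda hdb hcd hfc hfd hx1 hx2 hy1 hy2

/-- CLF7 (a), case II.2.
PROOF. `N(a) = {b, x, y}`, `link` for `x` and `y`: they lead to `c`, `d`. If `c = d`: `caseA`. Otherwise the branch vertices are `a, b, c, d`.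
`N(b) = {a, x', y'}`, `link` for `b` (the hypothesis `hno` is symmetric): `x'`, `y'` lead to vertices in `{c, d}`; if to the same one, `caseA` with `a`, `b` exchanged.
So we have the four links (exchange `x'` and `y'` if necessary). If `f c` is a branch vertex then `f c = d` (`branch_four`, `f a = b`, `cov`): `caseB2`.
Otherwise `f d` is not a branch vertex either (it would be `c`): `caseB1`. -/
theorem caseII2 (hd : D23 S) (h4 : {v | Br S v}.ncard ≤ 4) (h : Opt S f) (hK : ¬ HasK4 S)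
    (hK' : ¬ HasK4' S) {a b : α} (hab : f a = b) (ha : Br S a) (hb : Br S b)
    (hba : ¬ Good S f a) (hbb : ¬ Good S f b)
    (hno : ∀ u, ¬ Br S u → S.Adj a u → ¬ S.Adj b u) : False := by
  have hfb : f b = a := by rw [← hab, h.1.inv]
  have hfab : a ≠ b := by rw [← hab]; exact (h.1.cov a ha).symm
  have sab : S.Adj a b := by have := h.1.adj a (h.1.cov a ha); rwa [hab] at this
  have hno' : ∀ u, ¬ Br S u → S.Adj b u → ¬ S.Adj a u := fun u hu h1 h2 => hno u hu h2 h1
  obtain ⟨x, y, hxb, hyb, hxy, hax, hay, _⟩ := branch_nbrs' ha sab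
  obtain ⟨c, hc, hbc, hca, hcb, hx1⟩ := link hd h hab hba hax hxb hno
  obtain ⟨d, hdd, hbd, hda, hdb, hx2⟩ := link hd h hab hba hay hyb hno
  by_cases hcd : c = d
  · rw [← hcd] at hx2
    exact caseA hd h4 h hab ha hb hba hbb hno hc hbc hca hcb hxy hx1 hx2
  · have four : ∀ e, Br S e → e = a ∨ e = b ∨ e = c ∨ e = d := fun e he =>
      branch_four h4 ha hb hc hdd he hfab hca.symm hda.symm hcb.symm hdb.symm hcd
    obtain ⟨x', y', hxa', hya', hxy', hbx, hby, _⟩ := branch_nbrs' hb sab.symm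
    obtain ⟨c', hc', _, hcb', hca', hy1⟩ := link hd h hfb hbb hbx hxa' hno'
    obtain ⟨d', hdd', _, hdb', hda', hy2⟩ := link hd h hfb hbb hby hya' hno'
    have two : ∀ e, Br S e → e ≠ b → e ≠ a → e = c ∨ e = d := by
      intro e he h1 h2
      rcases four e he with e1 | e1 | e1 | e1
      · exact absurd e1 h2
      · exact absurd e1 h1
      · exact Or.inl e1
      · exact Or.inr e1
    rcases two c' hc' hcb' hca' with e1 | e1 <;> rcases two d' hdd' hdb' hda' with e2 | e2
    · rw [e1] at hy1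
      rw [e2] at hy2
      exact caseA hd h4 h hfb hb ha hbb hba hno' hc hbc hcb hca hxy' hy1 hy2
    · rw [e1] at hy1
      rw [e2] at hy2
      exact clf7_four hd h4 h hK hK' hab ha hb hc hdd hba hbb hbc hbd hca hcb hda hdb hcd hno hx1 hx2 hy1 hy2
    · rw [e1] at hy1
      rw [e2] at hy2
      exact clf7_four hd h4 h hK hK' hab ha hb hc hdd hba hbb hbc hbd hca hcb hda hdb hcd hno hx1 hx2 hy2 hy1
    · rw [e1] at hy1
      rw [e2] at hy2
      exact caseA hd h4 h hfb hb ha hbb hba hno' hdd hbd hdb hda hxy' hy1 hy2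

/-- CLF7 (b), the beta lemma: a matching covering all branch vertices whose complement has no cycles. -/
theorem beta (hd : D23 S) (h4 : {v | Br S v}.ncard ≤ 4) (hK : ¬ HasK4 S) (hK' : ¬ HasK4' S) :
    ∃ f, VM S f ∧ ∀ v, Good S f v := by
  obtain ⟨f, h⟩ := opt_exists (vm_exists hd h4)
  refine ⟨f, h.1, fun v => ?_⟩
  by_contra hv
  obtain ⟨a, ha, hb, hba⟩ := bad_pair hd h4 h hv
  by_cases hgb : Good S f (f a)
  · exact caseI hd h4 h rfl ha hb hba hgb
  · by_cases hno : ∀ u, ¬ Br S u → S.Adj a u → ¬ S.Adj (f a) u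
    · exact caseII2 hd h4 h hK hK' rfl ha hb hba hgb hno
    · push Not at hno
      obtain ⟨u, hu, h1, h2⟩ := hno
      exact caseII1 hd h4 h rfl ha hb hba hgb hu h1 h2

end Pool.Agent.H38H.CL
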