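import Pool.Agent.Lib.H38H.CLDefs

/-!
H38H, module CL, chunk CLG1.
-/

set_option autoImplicit false

namespace Pool.Agent.H38H.CL

open Classical

variable {V : Type}

/-- CLG1 (a). PROOF. `(insert z A).sym2` is the disjoint union of `A.sym2` and the pairs `s(z, u)`, `u ∈ insert z A`
(`Finset.sym2_insert` or `Finset.mem_sym2_iff`); `s(z, z)` is not an edge; `u ↦ s(z, u)` is injective. -/
theorem eIn_insert (G : SimpleGraph V) {z : V} {A : Finset V} (hz : z ∉ A) :
    eIn G (insert z A) = eIn G A + (A.filter (fun u => G.Adj z u)).card := by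
  have h1 : ((insert z A).sym2.filter (fun e => e ∈ G.edgeSet)) =
      (A.sym2.filter (fun e => e ∈ G.edgeSet)) ∪ (A.filter (fun u => G.Adj z u)).image (fun u => s(z, u)) := by
    ext e
    induction e using Sym2.ind with
    | _ x y =>
      simp only [Finset.mem_filter, Finset.mk_mem_sym2_iff, Finset.mem_insert, SimpleGraph.mem_edgeSet,
        Finset.mem_union, Finset.mem_image, Sym2.eq_iff]
      constructor
      · rintro ⟨⟨hx | hx, hy | hy⟩, h⟩
        · subst hx; subst hy; exact absurd rfl h.ne
        · subst hx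
          exact Or.inr ⟨y, ⟨hy, h⟩, Or.inl ⟨rfl, rfl⟩⟩
        · subst hy
          exact Or.inr ⟨x, ⟨hx, h.symm⟩, Or.inr ⟨rfl, rfl⟩⟩
        · exact Or.inl ⟨⟨hx, hy⟩, h⟩
      · rintro (⟨⟨hx, hy⟩, h⟩ | ⟨u, ⟨hu, h⟩, ⟨h2, h3⟩ | ⟨h2, h3⟩⟩)
        · exact ⟨⟨Or.inr hx, Or.inr hy⟩, h⟩
        · subst h2; subst h3
          exact ⟨⟨Or.inl rfl, Or.inr hu⟩, h⟩
        · subst h2; subst h3
          exact ⟨⟨Or.inr hu, Or.inl rfl⟩, h.symm⟩
  have h2 : Disjoint (A.sym2.filter (fun e => e ∈ G.edgeSet))
      ((A.filter (fun u => G.Adj z u)).image (fun u => s(z, u))) := by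
    rw [Finset.disjoint_left]
    intro e he he'
    rw [Finset.mem_image] at he'
    obtain ⟨u, hu, rfl⟩ := he'
    rw [Finset.mem_filter, Finset.mk_mem_sym2_iff] at he
    exact hz he.1.1
  unfold eIn
  rw [h1, Finset.card_union_of_disjoint h2, Finset.card_image_of_injective]
  intro u v huv
  rcases Sym2.eq_iff.1 huv with ⟨_, h⟩ | ⟨h, h'⟩
  · exact h
  · rw [h', ← h]

theorem clg1_filter (G : SimpleGraph V) {A Y : Finset V} (hd : Disjoint A Y) (z : V) :
    ((A ∪ Y).filter (fun u => G.Adj z u)).card =
      (A.filter (fun u => G.Adj z u)).card + (Y.filter (fun u => G.Adj z u)).card := by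
  rw [Finset.filter_union, Finset.card_union_of_disjoint]
  exact Finset.disjoint_filter_filter hd

/-- CLG1 (b). PROOF. Induction on `Y` (`Finset.induction_on`) with (a) and
`((A ∪ Y).filter (G.Adj z)).card = (A.filter _).card + (Y.filter _).card` (disjoint). -/
theorem eIn_union (G : SimpleGraph V) {A Y : Finset V} (hd : Disjoint A Y) :
    eIn G (A ∪ Y) = eIn G A + eIn G Y + ∑ z ∈ Y, (A.filter (fun u => G.Adj z u)).card := by
  induction Y using Finset.induction_on with
  | empty => simp [eIn]
  | insert z Y hz ih =>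
    rw [Finset.disjoint_insert_right] at hd
    rw [Finset.union_insert, eIn_insert G (A := A ∪ Y) (by simp [hd.1, hz]), ih hd.2, eIn_insert G hz,
      Finset.sum_insert hz, clg1_filter G hd.2]
    ring

/-- CLG1 (c). PROOF. Induction on `W` with (a): adding `z` adds its number of neighbours in `W` once as its own degree and
once in the degrees of the others. -/
theorem sum_deg (G : SimpleGraph V) (W : Finset V) :
    ∑ v ∈ W, (W.filter (fun u => G.Adj v u)).card = 2 * eIn G W := by
  induction W using Finset.induction_on with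
  | empty => simp [eIn]
  | insert z W hz ih =>
    rw [Finset.sum_insert hz, eIn_insert G hz]
    have h1 : ((insert z W).filter (fun u => G.Adj z u)).card = (W.filter (fun u => G.Adj z u)).card := by
      rw [Finset.filter_insert, if_neg (G.loopless.irrefl z)]
    have h2 : ∀ v ∈ W, ((insert z W).filter (fun u => G.Adj v u)).card =
        (W.filter (fun u => G.Adj v u)).card + (if G.Adj z v then 1 else 0) := by
      intro v hv
      rw [Finset.filter_insert]
      by_cases h : G.Adj v z
      · rw [if_pos h, if_pos h.symm, Finset.card_insert_of_notMem (by simp [hz])]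
      · rw [if_neg h, if_neg (fun h' => h h'.symm)]
        rfl
    rw [h1, Finset.sum_congr rfl h2, Finset.sum_add_distrib, ih, ← Finset.card_filter]
    ring

/-- CLG1 (d). PROOF. `eIn G ∅ = 0` and monotonicity (`Finset.sym2_mono`, `Finset.card_le_card`). -/
theorem eIn_mono (G : SimpleGraph V) {A Y : Finset V} (h : A ⊆ Y) : eIn G A ≤ eIn G Y := by
  unfold eIn
  exact Finset.card_le_card (Finset.filter_subset_filter _ (Finset.sym2_mono h))

end Pool.Agent.H38H.CL
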