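import Pool.Agent.Lib.H38H.CLG1

/-!
H38H, module CL, chunk CLG2.
-/

set_option autoImplicit false

namespace Pool.Agent.H38H.CL

open Classical

theorem clg2_min {V : Type} (P : Finset V → Prop) (h : ∃ W, P W) :
    ∃ W, P W ∧ ∀ W', P W' → W.card ≤ W'.card := by
  have h1 : ∃ n, ∃ W : Finset V, P W ∧ W.card = n := by
    obtain ⟨W, hW⟩ := h
    exact ⟨W.card, W, hW, rfl⟩
  obtain ⟨W, hW, hn⟩ := Nat.find_spec h1
  refine ⟨W, hW, fun W' hW' => ?_⟩
  rw [hn]
  exact Nat.find_min' h1 ⟨W', hW', rfl⟩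

/-- one step of the choice -/
theorem clg2_case {V : Type} (κ e k : ℕ) (G : SimpleGraph V)
    (h : ∃ W : Finset V, W.card ≤ k ∧ W.card + e ≤ eIn G W)
    (h3 : ∀ W : Finset V, W.card ≤ 3 * k + κ + 10 → eIn G W ≤ W.card + e) :
    ∃ W : Finset V, eIn G W = W.card + e ∧
      (∀ W' : Finset V, W' ⊂ W → eIn G W' < W'.card + e) ∧ W.card ≤ k ∧
      ∀ W' : Finset V, W'.card ≤ 3 * W.card + κ + 10 → eIn G W' ≤ W'.card + e := by
  obtain ⟨W, ⟨hW1, hW2⟩, hmin⟩ := clg2_min _ h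
  refine ⟨W, le_antisymm (h3 W (by omega)) hW2, fun W' hW' => ?_, hW1, fun W' hW' => h3 W' (by omega)⟩
  have hc := Finset.card_lt_card hW'
  by_contra hcon
  push Not at hcon
  have := hmin W' ⟨by omega, hcon⟩
  omega

theorem clg2_empty {V : Type} (G : SimpleGraph V) : eIn G ∅ = 0 := by
  unfold eIn
  simp

/-- CLG2 (a). The choice of `e` and `W`.
PROOF. Case 1: there is `W` with `|W| ≤ k2`, `|W| + 2 ≤ eIn G W`. Take one of minimal cardinality (`Nat.find` or
`Finset.exists_min_image`), `e = 2`. `eIn G W ≤ |W| + 2` by `h3` (`k2 ≤ k3`). A proper subset `W'` has smaller cardinality, so by minimality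
`eIn G W' < |W'| + 2`. The last condition is `h3` since `3 |W| + κ + 10 ≤ k3`.
Case 2: not case 1, but there is `W` with `|W| ≤ k1`, `|W| + 1 ≤ eIn G W`. Take one of minimal cardinality, `e = 1`; `k1 ≤ k2`, so the
negation of case 1 gives `eIn G W ≤ |W| + 1` and the last condition (`3 k1 + κ + 10 = k2`).
Case 3: otherwise `W = ∅`, `e = 0` (`eIn G ∅ = 0`); `κ + 10 = k1`. -/
theorem choose_W {V : Type} [Fintype V] (κ : ℕ) (G : SimpleGraph V)
    (h3 : ∀ W : Finset V, W.card ≤ k3 κ → eIn G W ≤ W.card + 2) :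
    ∃ (e : ℕ) (W : Finset V), e ≤ 2 ∧ eIn G W = W.card + e ∧
      (∀ W' : Finset V, W' ⊂ W → eIn G W' < W'.card + e) ∧ W.card ≤ k2 κ ∧
      ∀ W' : Finset V, W'.card ≤ 3 * W.card + κ + 10 → eIn G W' ≤ W'.card + e := by
  by_cases c1 : ∃ W : Finset V, W.card ≤ k2 κ ∧ W.card + 2 ≤ eIn G W
  · obtain ⟨W, h⟩ := clg2_case κ 2 (k2 κ) G c1 (fun W hW => h3 W hW)
    exact ⟨2, W, le_rfl, h⟩
  · push Not at c1
    by_cases c2 : ∃ W : Finset V, W.card ≤ k1 κ ∧ W.card + 1 ≤ eIn G W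
    · obtain ⟨W, h1, h2, h4, h5⟩ := clg2_case κ 1 (k1 κ) G c2 (fun W hW => by
        have := c1 W hW
        omega)
      refine ⟨1, W, by norm_num, h1, h2, ?_, h5⟩
      unfold k2
      omega
    · push Not at c2
      refine ⟨0, ∅, by norm_num, by rw [clg2_empty, Finset.card_empty], fun W' hW' => ?_, by simp,
        fun W' hW' => ?_⟩
      · exact absurd hW' (Finset.not_ssubset_empty W')
      · have := c2 W' (by
          rw [Finset.card_empty] at hW'
          unfold k1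
          omega)
        omega

end Pool.Agent.H38H.CL
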