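import Pool.Agent.Lib.H38H.CLG1

/-!
H38H, module CL, chunk CLG3.
-/

set_option autoImplicit false

namespace Pool.Agent.H38H.CL

open Classical

variable {V : Type}

/-- CLG3 (a). Degrees in the subgraph on `W`.
PROOF. `Set.ncard` of the neighbour set of `v` in `SW G W` (a set of elements of the subtype) is the cardinality of its image under
`Subtype.val` (`Set.ncard_image_of_injective`), which is the coercion of the filter (`Set.ncard_coe_finset`). -/
theorem sw_ncard (G : SimpleGraph V) (W : Finset V) (v : {x // x ∈ W}) :
    ((SW G W).neighborSet v).ncard = (W.filter (fun u => G.Adj v.1 u)).card := by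
  rw [← Set.ncard_image_of_injective _ Subtype.val_injective, ← Set.ncard_coe_finset]
  congr 1
  ext u
  simp only [Set.mem_image, SimpleGraph.mem_neighborSet, Finset.coe_filter]
  constructor
  · rintro ⟨w, hw, rfl⟩
    exact ⟨w.2, hw⟩
  · rintro ⟨hu, hadj⟩
    exact ⟨⟨u, hu⟩, hadj, rfl⟩

/-- CLG3 (b).
PROOF. Every degree is at most `3` (`Cubic`, the filter is contained in the neighbour set of `G`). It is at least `2`: with
`W' = W.erase v`, `W = insert v W'`, `eIn_insert` gives `eIn G W = eIn G W' + deg`, and `eIn G W' < |W| - 1 + e = eIn G W - 1`.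
So `D23`. For the number of branch vertices: `sum_deg`: the sum of the degrees is `2 (|W| + e)`, and it is
`2 |W| + #branch` (sum over `W` of `2 + (if Br then 1 else 0)`). So there are exactly `2 e` branch vertices. -/
theorem sw_deg [Fintype V] {G : SimpleGraph V} (hG : Cubic G) {W : Finset V} {e : ℕ}
    (hW : eIn G W = W.card + e) (hmin : ∀ W' : Finset V, W' ⊂ W → eIn G W' < W'.card + e) :
    D23 (SW G W) ∧ {v | Br (SW G W) v}.ncard = 2 * e := by
  have hle : ∀ v : V, (W.filter (fun u => G.Adj v u)).card ≤ 3 := by
    intro v
    rw [← hG v, ← Set.ncard_coe_finset]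
    refine Set.ncard_le_ncard ?_ (Set.toFinite _)
    intro u hu
    rw [Finset.mem_coe, Finset.mem_filter] at hu
    exact hu.2
  have hge : ∀ v ∈ W, 2 ≤ (W.filter (fun u => G.Adj v u)).card := by
    intro v hv
    have h1 := eIn_insert G (Finset.notMem_erase v W)
    rw [Finset.insert_erase hv] at h1
    have h2 := hmin (W.erase v) (Finset.erase_ssubset hv)
    have h3 := Finset.card_erase_add_one hv
    have h4 : ((W.erase v).filter (fun u => G.Adj v u)).card ≤
        (W.filter (fun u => G.Adj v u)).card :=
      Finset.card_le_card (Finset.filter_subset_filter _ (Finset.erase_subset _ _))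
    omega
  have hval : ∀ v ∈ W, (W.filter (fun u => G.Adj v u)).card =
      2 + (if (W.filter (fun u => G.Adj v u)).card = 3 then 1 else 0) := by
    intro v hv
    have h1 := hle v
    have h2 := hge v hv
    split_ifs with h3
    · exact h3
    · omega
  refine ⟨fun v => ?_, ?_⟩
  · rw [sw_ncard]
    have h1 := hle v.1
    have h2 := hge v.1 v.2
    omega
  · have h1 := sum_deg G W
    rw [Finset.sum_congr rfl hval, Finset.sum_add_distrib, Finset.sum_const, ← Finset.card_filter,
      hW] at h1
    have h2 : {v | Br (SW G W) v}.ncard =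
        (W.filter (fun v => (W.filter (fun u => G.Adj v u)).card = 3)).card := by
      rw [← Set.ncard_image_of_injective _ Subtype.val_injective, ← Set.ncard_coe_finset]
      congr 1
      ext u
      simp only [Set.mem_image, Finset.coe_filter]
      constructor
      · rintro ⟨w, hw, rfl⟩
        refine ⟨w.2, ?_⟩
        rw [← sw_ncard]
        exact hw
      · rintro ⟨hu, hadj⟩
        refine ⟨⟨u, hu⟩, ?_, rfl⟩
        show ((SW G W).neighborSet ⟨u, hu⟩).ncard = 3
        rw [sw_ncard]
        exact hadj
    rw [h2]
    simp only [smul_eq_mul] at h1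
    omega

end Pool.Agent.H38H.CL
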