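import Pool.Agent.Lib.H38H.CLDefs

/-!
H38H, module CL, chunk CLG4.
-/

set_option autoImplicit false

namespace Pool.Agent.H38H.CL

open Classical

variable {N : ℕ}

theorem clg4_nb {G : SimpleGraph (Fin N)} (hG : Cubic G) {a b c d : Fin N} (hb : G.Adj a b)
    (hc : G.Adj a c) (hd : G.Adj a d) (hbc : b ≠ c) (hbd : b ≠ d) (hcd : c ≠ d) {x : Fin N}
    (hx : G.Adj a x) : x = b ∨ x = c ∨ x = d := by
  have h1 : ({b, c, d} : Set (Fin N)).ncard = 3 := by
    rw [Set.ncard_eq_three]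
    exact ⟨b, c, d, hbc, hbd, hcd, rfl⟩
  have h2 : ({b, c, d} : Set (Fin N)) ⊆ G.neighborSet a := by
    rintro y (rfl | rfl | rfl)
    · exact hb
    · exact hc
    · exact hd
  have h3 : ({b, c, d} : Set (Fin N)) = G.neighborSet a := by
    apply Set.eq_of_subset_of_ncard_le h2
    rw [h1, hG a]
  have h4 : x ∈ ({b, c, d} : Set (Fin N)) := by
    rw [h3]
    exact hx
  simpa using h4

theorem clg4_closed {G : SimpleGraph (Fin N)} (T : Set (Fin N))
    (hT : ∀ x ∈ T, ∀ y, G.Adj x y → y ∈ T) {x y : Fin N} (hx : x ∈ T) (hr : G.Reachable x y) :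
    y ∈ T := by
  obtain ⟨p⟩ := hr
  induction p with
  | nil => exact hx
  | cons hadj p ih => exact ih (hT _ hx _ hadj)

/-- CLG4 (a).
PROOF. Let `a, b, c, d` be the four vertices (in `Fin N`). `Cubic`: each of them has exactly the other three as neighbours. So the set
`{a, b, c, d}` is closed under adjacency in `G`; by connectedness it is everything: `N ≤ 4`, contradiction. -/
theorem bad_noK4 (hN : 6 ≤ N) {G : SimpleGraph (Fin N)} (hG : Bad G) (W : Finset (Fin N)) :
    ¬ HasK4 (SW G W) := by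
  rintro ⟨⟨a, ha⟩, ⟨b, hb⟩, ⟨c, hc⟩, ⟨d, hd⟩, h1, h2, h3, h4, h5, h6⟩
  have hC := hG.1
  have h1 : G.Adj a b := h1
  have h2 : G.Adj a c := h2
  have h3 : G.Adj a d := h3
  have h4 : G.Adj b c := h4
  have h5 : G.Adj b d := h5
  have h6 : G.Adj c d := h6
  have hcl : ∀ x ∈ ({a, b, c, d} : Set (Fin N)), ∀ y, G.Adj x y → y ∈ ({a, b, c, d} : Set (Fin N)) := by
    rintro x (rfl | rfl | rfl | rfl) y hy
    · rcases clg4_nb hC h1 h2 h3 h4.ne h5.ne h6.ne hy with rfl | rfl | rfl <;> simp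
    · rcases clg4_nb hC h1.symm h4 h5 h2.ne h3.ne h6.ne hy with rfl | rfl | rfl <;> simp
    · rcases clg4_nb hC h2.symm h4.symm h6 h1.ne h3.ne h5.ne hy with rfl | rfl | rfl <;> simp
    · rcases clg4_nb hC h3.symm h5.symm h6.symm h1.ne h2.ne h4.ne hy with rfl | rfl | rfl <;> simp
  have hall : ∀ y, y ∈ ({a, b, c, d} : Finset (Fin N)) := by
    intro y
    have := clg4_closed _ hcl (x := a) (by simp) (hG.2.1.preconnected a y)
    simpa using this
  have h7 : Fintype.card (Fin N) ≤ ({a, b, c, d} : Finset (Fin N)).card := by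
    rw [← Finset.card_univ]
    exact Finset.card_le_card fun y _ => hall y
  have h8 : ({a, b, c, d} : Finset (Fin N)).card ≤ 4 := Finset.card_le_four
  rw [Fintype.card_fin] at h7
  omega

/-- CLG4 (b).
PROOF. `N(a) = {b, c, d}`, `N(b) = {a, c, d}`, `N(c) = {a, b, u}`, `N(d) = {a, b, u}`, `N(u) = {c, d, z}` for a vertex `z ≠ c, d` (all by
`Cubic`; `Set.ncard_eq_three`). `z` is not one of `a, b, c, d, u`: if `z = a` then `u` is in `N(a)`, but `u ≠ b, c, d`; same for `b`. So in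
`G.deleteEdges {s(u, z)}` the set `{a, b, c, d, u}` is closed under adjacency, and `u` does not reach `z`: `G.IsBridge s(u, z)`
(`SimpleGraph.isBridge_iff`), contradiction with `Bad`. -/
theorem bad_noK4' {G : SimpleGraph (Fin N)} (hG : Bad G) (W : Finset (Fin N)) :
    ¬ HasK4' (SW G W) := by
  rintro ⟨⟨a, ha⟩, ⟨b, hb⟩, ⟨c, hc⟩, ⟨d, hd⟩, ⟨u, hu⟩, h1, h2, h3, h4, h5, h6, h7, h8, h9, h10, -⟩
  have hC := hG.1
  have h1 : G.Adj a b := h1
  have h2 : G.Adj a c := h2
  have h3 : G.Adj a d := h3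
  have h4 : G.Adj b c := h4
  have h5 : G.Adj b d := h5
  have h6 : G.Adj c u := h6
  have h7 : G.Adj u d := h7
  have hcd : c ≠ d := fun h => h8 (Subtype.ext h)
  have hua : u ≠ a := fun h => h9 (Subtype.ext h)
  have hub : u ≠ b := fun h => h10 (Subtype.ext h)
  obtain ⟨z, hz1, hz2, hz3⟩ : ∃ z, G.Adj u z ∧ z ≠ c ∧ z ≠ d := by
    by_contra hcon
    push Not at hcon
    have h11 : G.neighborSet u ⊆ ({c, d} : Set (Fin N)) := by
      intro z hz
      by_cases hzc : z = c
      · simp [hzc]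
      · simp [hcon z hz hzc]
    have h12 := Set.ncard_le_ncard h11 (Set.toFinite _)
    rw [hC u, Set.ncard_pair hcd] at h12
    omega
  have hNa : ∀ y, G.Adj a y → y = b ∨ y = c ∨ y = d :=
    fun y hy => clg4_nb hC h1 h2 h3 h4.ne h5.ne hcd hy
  have hNb : ∀ y, G.Adj b y → y = a ∨ y = c ∨ y = d :=
    fun y hy => clg4_nb hC h1.symm h4 h5 h2.ne h3.ne hcd hy
  have hNc : ∀ y, G.Adj c y → y = a ∨ y = b ∨ y = u :=
    fun y hy => clg4_nb hC h2.symm h4.symm h6 h1.ne hua.symm hub.symm hy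
  have hNd : ∀ y, G.Adj d y → y = a ∨ y = b ∨ y = u :=
    fun y hy => clg4_nb hC h3.symm h5.symm h7.symm h1.ne hua.symm hub.symm hy
  have hNu : ∀ y, G.Adj u y → y = c ∨ y = d ∨ y = z :=
    fun y hy => clg4_nb hC h6.symm h7 hz1 hcd hz2.symm hz3.symm hy
  have hza : z ≠ a := by
    rintro rfl
    rcases hNa u hz1.symm with h | h | h
    · exact hub h
    · exact h6.ne h.symm
    · exact h7.ne h
  have hzb : z ≠ b := by
    rintro rfl
    rcases hNb u hz1.symm with h | h | h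
    · exact hua h
    · exact h6.ne h.symm
    · exact h7.ne h
  have hzu : z ≠ u := hz1.ne'
  refine hG.2.2.2 s(u, z) ?_
  rw [SimpleGraph.isBridge_iff]
  intro hr
  have hcl : ∀ x ∈ ({a, b, c, d, u} : Set (Fin N)), ∀ y, (G.deleteEdges {s(u, z)}).Adj x y →
      y ∈ ({a, b, c, d, u} : Set (Fin N)) := by
    rintro x (rfl | rfl | rfl | rfl | rfl) y hy
    · rcases hNa y hy.1 with rfl | rfl | rfl <;> simp
    · rcases hNb y hy.1 with rfl | rfl | rfl <;> simp
    · rcases hNc y hy.1 with rfl | rfl | rfl <;> simp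
    · rcases hNd y hy.1 with rfl | rfl | rfl <;> simp
    · rw [SimpleGraph.deleteEdges_adj] at hy
      rcases hNu y hy.1 with rfl | rfl | rfl
      · simp
      · simp
      · exact absurd rfl hy.2
  have := clg4_closed _ hcl (x := u) (by simp) hr
  simp [hza, hzb, hz2, hz3, hzu] at this

end Pool.Agent.H38H.CL
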