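import Pool.Agent.Lib.H38H.CLG1

/-!
H38H, module CL, chunk CLH1.
-/

set_option autoImplicit false

namespace Pool.Agent.H38H.CL

open Classical

variable {V : Type}

/-- CLH1 (a).
PROOF. If `u ≠ v`: `eIn G (insert z A) = eIn G A + #(neighbours of z in A) ≥ |A| + e + 2`, but `|insert z A| + e = |A| + 1 + e`. -/
theorem one_of {G : SimpleGraph V} {e K : ℕ}
    (hstar : ∀ W : Finset V, W.card ≤ K → eIn G W ≤ W.card + e) {A : Finset V}
    (hA : A.card + e ≤ eIn G A) (hK : A.card + 2 ≤ K) :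
    ∀ z, z ∉ A → ∀ u ∈ A, ∀ v ∈ A, G.Adj z u → G.Adj z v → u = v := by
  intro z hz u hu v hv hzu hzv
  by_contra hne
  have h1 := hstar (insert z A) (by rw [Finset.card_insert_of_notMem hz]; omega)
  rw [eIn_insert G hz, Finset.card_insert_of_notMem hz] at h1
  have h2 : 2 ≤ (A.filter (fun w => G.Adj z w)).card := by
    rw [← Finset.card_pair hne]
    apply Finset.card_le_card
    intro x hx
    rw [Finset.mem_filter]
    rcases Finset.mem_insert.1 hx with h | h
    · rw [h]
      exact ⟨hu, hzu⟩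
    · rw [Finset.mem_singleton.1 h]
      exact ⟨hv, hzv⟩
  omega

theorem clh1_one_le {G : SimpleGraph V} {A : Finset V} {z u : V} (hu : u ∈ A) (h : G.Adj z u) :
    1 ≤ (A.filter (fun w => G.Adj z w)).card := by
  rw [Nat.one_le_iff_ne_zero, Ne, Finset.card_eq_zero]
  intro h0
  have h1 : u ∈ A.filter (fun w => G.Adj z w) := Finset.mem_filter.2 ⟨hu, h⟩
  rw [h0] at h1
  exact Finset.notMem_empty _ h1

/-- CLH1 (b).
PROOF. If `z`, `z'` are adjacent they are different. `eIn_insert` twice: `eIn G (insert z (insert z' A)) ≥ eIn G A + 1 + 2 ≥ |A| + e + 3`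
(`z` has the neighbours `u`, `z'` in `insert z' A`), but the set has `|A| + 2` elements. -/
theorem indep_of {G : SimpleGraph V} {e K : ℕ}
    (hstar : ∀ W : Finset V, W.card ≤ K → eIn G W ≤ W.card + e) {A : Finset V}
    (hA : A.card + e ≤ eIn G A) (hK : A.card + 2 ≤ K) :
    ∀ z, z ∉ A → ∀ z', z' ∉ A → ∀ u ∈ A, ∀ v ∈ A, G.Adj z u → G.Adj z' v → ¬ G.Adj z z' := by
  intro z hz z' hz' u hu v hv hzu hzv hzz
  have hzz' : z ∉ insert z' A := by
    rw [Finset.mem_insert]
    rintro (h | h)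
    · exact hzz.ne h
    · exact hz h
  have h1 := hstar (insert z (insert z' A)) (by
    rw [Finset.card_insert_of_notMem hzz', Finset.card_insert_of_notMem hz']; omega)
  rw [eIn_insert G hzz', eIn_insert G hz', Finset.card_insert_of_notMem hzz',
    Finset.card_insert_of_notMem hz'] at h1
  have h2 : 2 ≤ ((insert z' A).filter (fun w => G.Adj z w)).card := by
    have hne : u ≠ z' := fun h => hz' (h ▸ hu)
    rw [← Finset.card_pair hne]
    apply Finset.card_le_card
    intro x hx
    rw [Finset.mem_filter]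
    rcases Finset.mem_insert.1 hx with h | h
    · rw [h]
      exact ⟨Finset.mem_insert_of_mem hu, hzu⟩
    · rw [Finset.mem_singleton.1 h]
      exact ⟨Finset.mem_insert_self _ _, hzz⟩
  have h3 : 1 ≤ (A.filter (fun w => G.Adj z' w)).card := clh1_one_le hv hzv
  omega

/-- CLH1 (c).
PROOF. `eIn_union` for `A`, `Y`: `eIn G (A ∪ Y) = eIn G A + eIn G Y + ∑ z ∈ Y, #(neighbours of z in A)`, the sum is at least the
number of `z ∈ Y` with a neighbour in `A`; and `eIn G (A ∪ Y) ≤ |A| + |Y| + e`. -/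
theorem nice_of {G : SimpleGraph V} {e K κ : ℕ}
    (hstar : ∀ W : Finset V, W.card ≤ K → eIn G W ≤ W.card + e) {A : Finset V}
    (hA : A.card + e ≤ eIn G A) (hK : A.card + κ ≤ K) :
    ∀ Y : Finset V, Disjoint Y A → Y.card ≤ κ →
      eIn G Y + (Y.filter (fun z => ∃ u ∈ A, G.Adj z u)).card ≤ Y.card := by
  intro Y hd hY
  have h1 := hstar (A ∪ Y) (by rw [Finset.card_union_of_disjoint hd.symm]; omega)
  rw [eIn_union G hd.symm, Finset.card_union_of_disjoint hd.symm] at h1
  have h2 : (Y.filter (fun z => ∃ u ∈ A, G.Adj z u)).card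
      ≤ ∑ z ∈ Y, (A.filter (fun u => G.Adj z u)).card := by
    rw [Finset.card_filter]
    refine Finset.sum_le_sum fun z _ => ?_
    by_cases h : ∃ u ∈ A, G.Adj z u
    · rw [if_pos h]
      obtain ⟨u, hu, hzu⟩ := h
      exact clh1_one_le hu hzu
    · rw [if_neg h]
      exact Nat.zero_le _
  omega

end Pool.Agent.H38H.CL
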