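import Pool.Agent.Lib.H38H.CLH1
import Pool.Agent.Lib.H38H.CLG3

/-!
H38H, module CL, chunk CLH2.
-/

set_option autoImplicit false

namespace Pool.Agent.H38H.CL

open Classical

variable {V : Type} [Fintype V]

/-- CLH2 (a). An uncovered vertex of degree two of `G[W]` has exactly one neighbour outside `W`; covered or not, a vertex of degree `k` in
`G[W]` has `3 - k` neighbours outside.
PROOF. `Cubic`; the neighbour set of `v` in `G` is the disjoint union of the neighbours in `W` (`sw_ncard`) and those outside. -/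
theorem out_deg {G : SimpleGraph V} (hG : Cubic G) (W : Finset V) (v : {x // x ∈ W}) :
    ((SW G W).neighborSet v).ncard + {z | z ∉ W ∧ G.Adj v.1 z}.ncard = 3 := by
  rw [sw_ncard]
  have h1 : {z | z ∉ W ∧ G.Adj v.1 z}.ncard =
      (Finset.univ.filter (fun z => z ∉ W ∧ G.Adj v.1 z)).card := by
    rw [← Set.ncard_coe_finset]
    congr 1
    ext z
    simp
  have h2 : (G.neighborSet v.1).ncard = (Finset.univ.filter (fun z => G.Adj v.1 z)).card := by
    rw [← Set.ncard_coe_finset]
    congr 1
    ext z
    simp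
  have h3 := hG v.1
  rw [h1, ← h3, h2, ← Finset.card_union_of_disjoint]
  · congr 1
    ext z
    simp only [Finset.mem_union, Finset.mem_filter, Finset.mem_univ, true_and]
    tauto
  · rw [Finset.disjoint_left]
    intro z hz1 hz2
    simp only [Finset.mem_filter, Finset.mem_univ, true_and] at hz1 hz2
    exact hz2.1 hz1.1

/-- CLH2 (b). PROOF. Let `O` be the set of vertices outside `W` adjacent to a vertex of `UU G W f`, so `BB G W f = W ∪ O` (disjoint).
Every `u` in `UU G W f` is not a branch vertex, so has degree two in `SW G W` (`D23`) and exactly one neighbour outside `W`, by (a). So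
`|O| ≤ |UU| ≤ |W|` (`O` is contained in the image of `UU` under this neighbour; `Finset.card_le_card_of_surjOn` or
`Finset.card_biUnion_le` with all sets of cardinality one). -/
theorem card_BB {G : SimpleGraph V} (hG : Cubic G) {W : Finset V} (hd : D23 (SW G W))
    (f : {x // x ∈ W} → {x // x ∈ W}) : (BB G W f).card ≤ 2 * W.card := by
  have hU : (UU G W f).card ≤ W.card := Finset.card_filter_le _ _
  have h1 : (Finset.univ.filter (fun z => z ∉ W ∧ ∃ u ∈ UU G W f, G.Adj u z)).card ≤
      (UU G W f).card := by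
    have h2 : Finset.univ.filter (fun z => z ∉ W ∧ ∃ u ∈ UU G W f, G.Adj u z) ⊆
        (UU G W f).biUnion (fun u => Finset.univ.filter (fun z => z ∉ W ∧ G.Adj u z)) := by
      intro z hz
      simp only [Finset.mem_filter, Finset.mem_univ, true_and, Finset.mem_biUnion] at hz ⊢
      obtain ⟨hz1, u, hu, huz⟩ := hz
      exact ⟨u, hu, hz1, huz⟩
    refine (Finset.card_le_card h2).trans ((Finset.card_biUnion_le).trans ?_)
    rw [Finset.card_eq_sum_ones]
    refine Finset.sum_le_sum (fun u hu => ?_)
    have hu' := hu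
    simp only [UU, Finset.mem_filter] at hu'
    obtain ⟨huW, hv, hbr, hfix⟩ := hu'
    have h3 := out_deg hG W ⟨u, huW⟩
    have h4 : ((SW G W).neighborSet ⟨u, huW⟩).ncard = 2 := by
      rcases hd ⟨u, huW⟩ with h | h
      · exact h
      · exact absurd h hbr
    have h5 : {z | z ∉ W ∧ G.Adj u z}.ncard =
        (Finset.univ.filter (fun z => z ∉ W ∧ G.Adj u z)).card := by
      rw [← Set.ncard_coe_finset]
      congr 1
      ext z
      simp
    simp only at h3
    omega
  have h6 : (BB G W f).card ≤ W.card +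
      (Finset.univ.filter (fun z => z ∉ W ∧ ∃ u ∈ UU G W f, G.Adj u z)).card :=
    Finset.card_union_le _ _
  omega

/-- CLH2 (c). PROOF. `eIn_union` for `W` and `O`: every `z ∈ O` has a neighbour in `W`, so
`eIn G (W ∪ O) ≥ eIn G W + |O| ≥ |W| + e + |O|`. -/
theorem eIn_BB {G : SimpleGraph V} {W : Finset V} {e : ℕ} (hW : W.card + e ≤ eIn G W)
    (f : {x // x ∈ W} → {x // x ∈ W}) : (BB G W f).card + e ≤ eIn G (BB G W f) := by
  have hdis : Disjoint W (Finset.univ.filter (fun z => z ∉ W ∧ ∃ u ∈ UU G W f, G.Adj u z)) := by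
    rw [Finset.disjoint_left]
    intro z hz1 hz2
    simp only [Finset.mem_filter, Finset.mem_univ, true_and] at hz2
    exact hz2.1 hz1
  unfold BB
  rw [Finset.card_union_of_disjoint hdis, eIn_union G hdis]
  have h1 : (Finset.univ.filter (fun z => z ∉ W ∧ ∃ u ∈ UU G W f, G.Adj u z)).card ≤
      ∑ z ∈ Finset.univ.filter (fun z => z ∉ W ∧ ∃ u ∈ UU G W f, G.Adj u z),
        (W.filter (fun u => G.Adj z u)).card := by
    rw [Finset.card_eq_sum_ones]
    refine Finset.sum_le_sum (fun z hz => ?_)
    simp only [Finset.mem_filter, Finset.mem_univ, true_and] at hz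
    obtain ⟨hz1, u, hu, huz⟩ := hz
    refine Finset.card_pos.2 ⟨u, ?_⟩
    rw [Finset.mem_filter]
    exact ⟨(Finset.mem_filter.1 hu).1, huz.symm⟩
  omega

end Pool.Agent.H38H.CL
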