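import Pool.Agent.Lib.H38H.CLH2
import Pool.Agent.Lib.H38H.CLB3

/-!
H38H, module CL, chunk CLH3.
-/

set_option autoImplicit false

namespace Pool.Agent.H38H.CL

open Classical

variable {V : Type} [Fintype V]

/-- membership in `BB` -/
theorem clh3_mem (G : SimpleGraph V) (W : Finset V) (f : {x // x ∈ W} → {x // x ∈ W}) (z : V) :
    z ∈ BB G W f ↔ z ∈ W ∨ (z ∉ W ∧ ∃ u ∈ UU G W f, G.Adj u z) := by
  simp [BB]

/-- degree in `FF` of a vertex of `W` -/
theorem clh3_deg_in (G : SimpleGraph V) (W : Finset V) (f : {x // x ∈ W} → {x // x ∈ W})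
    {v : V} (hv : v ∈ W) : ((FF G W f).neighborSet v).ncard =
      ((HG (SW G W) f).neighborSet ⟨v, hv⟩).ncard := by
  rw [← Set.ncard_image_of_injective _ (Subtype.val_injective)]
  congr 1
  ext z
  simp only [SimpleGraph.mem_neighborSet, FF, SimpleGraph.map_adj, Set.mem_image]
  constructor
  · rintro ⟨a, b, hab, ha, hb⟩
    have ha' : a = ⟨v, hv⟩ := Subtype.ext ha
    subst ha'
    exact ⟨b, hab, hb⟩
  · rintro ⟨b, hab, hb⟩
    exact ⟨⟨v, hv⟩, b, hab, rfl, hb⟩

/-- degree in `FF` of a vertex outside `W` -/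
theorem clh3_deg_out (G : SimpleGraph V) (W : Finset V) (f : {x // x ∈ W} → {x // x ∈ W})
    {v : V} (hv : v ∉ W) : ((FF G W f).neighborSet v).ncard = 0 := by
  have : (FF G W f).neighborSet v = ∅ := by
    ext z
    simp only [SimpleGraph.mem_neighborSet, FF, SimpleGraph.map_adj, Set.mem_empty_iff_false,
      iff_false]
    rintro ⟨a, b, -, ha, -⟩
    exact hv (by rw [← ha]; exact a.2)
  rw [this, Set.ncard_empty]

/-- CLH3, the degree condition.
PROOF. Let `S = SW G W`, `H = HG S f`. For `v ∈ W` the degree of `v` in `FF G W f` is its degree in `H` (the neighbours are the images;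
`Set.ncard_image_of_injective`), and by `deg_hg` this is `deg_S v - (if f v = v then 0 else 1)`. For `v ∉ W` it is `0`.
(i) `v ∈ W`, `Br S v`: degree `3 - 1 = 2`, all neighbours of `v` in `G` are in `W` (`out_deg`): `2 + 0`.
(ii) `v ∈ W`, not `Br`, `f v = v`: degree `2`; `v ∈ UU G W f`, so its neighbours outside `W` are in `BB G W f`: `2 + 0`.
(iii) `v ∈ W`, not `Br`, `f v ≠ v`: degree `2 - 1 = 1`; `v` has exactly one neighbour `z` outside `W` (`out_deg`). `z ∉ BB`: otherwise `z` is
adjacent to some `u ∈ UU`, and by `h1` `u = v`, but `f v ≠ v`. So `1 + 1`.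
(iv) `v ∈ BB \ W`: degree `0`. `v` is adjacent to exactly one vertex of `W` (`h1`) and to no other vertex of `BB \ W` (`h2`: both are outside `W` and
have neighbours in `W`). So exactly two of its three neighbours are outside `BB`: `0 + 2`. -/
theorem cut_deg {G : SimpleGraph V} (hG : Cubic G) {W : Finset V} (hd : D23 (SW G W))
    {f : {x // x ∈ W} → {x // x ∈ W}} (hf : VM (SW G W) f)
    (h1 : ∀ z, z ∉ W → ∀ u ∈ W, ∀ v ∈ W, G.Adj z u → G.Adj z v → u = v)
    (h2 : ∀ z, z ∉ W → ∀ z', z' ∉ W → ∀ u ∈ W, ∀ v ∈ W, G.Adj z u → G.Adj z' v → ¬ G.Adj z z') :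
    ∀ v ∈ BB G W f, ((FF G W f).neighborSet v).ncard +
      {z | z ∉ BB G W f ∧ G.Adj v z}.ncard = 2 := by
  intro v hvB
  by_cases hvW : v ∈ W
  · rw [clh3_deg_in G W f hvW]
    have h3 := deg_hg hf ⟨v, hvW⟩
    have h4 := out_deg hG W ⟨v, hvW⟩
    simp only at h4
    by_cases hbr : Br (SW G W) ⟨v, hvW⟩
    · have h5 : f ⟨v, hvW⟩ ≠ ⟨v, hvW⟩ := hf.cov _ hbr
      have h6 : ((SW G W).neighborSet ⟨v, hvW⟩).ncard = 3 := hbr
      rw [if_neg h5] at h3
      have h7 : {z | z ∉ W ∧ G.Adj v z}.ncard = 0 := by omega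
      have h8 : {z | z ∉ W ∧ G.Adj v z} = ∅ := (Set.ncard_eq_zero (Set.toFinite _)).1 h7
      have h9 : {z | z ∉ BB G W f ∧ G.Adj v z} = ∅ := by
        ext z
        simp only [Set.mem_setOf_eq, Set.mem_empty_iff_false, iff_false]
        rintro ⟨hz1, hz2⟩
        have : z ∈ {z | z ∉ W ∧ G.Adj v z} :=
          ⟨fun h => hz1 ((clh3_mem G W f z).2 (Or.inl h)), hz2⟩
        rw [h8] at this
        exact this
      rw [h9, Set.ncard_empty]
      omega
    · have h6 : ((SW G W).neighborSet ⟨v, hvW⟩).ncard = 2 := by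
        rcases hd ⟨v, hvW⟩ with h | h
        · exact h
        · exact absurd h hbr
      by_cases h5 : f ⟨v, hvW⟩ = ⟨v, hvW⟩
      · rw [if_pos h5] at h3
        have hU : v ∈ UU G W f := by
          simp only [UU, Finset.mem_filter]
          exact ⟨hvW, hvW, hbr, h5⟩
        have h9 : {z | z ∉ BB G W f ∧ G.Adj v z} = ∅ := by
          ext z
          simp only [Set.mem_setOf_eq, Set.mem_empty_iff_false, iff_false]
          rintro ⟨hz1, hz2⟩
          apply hz1
          rw [clh3_mem]
          by_cases hzW : z ∈ W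
          · exact Or.inl hzW
          · exact Or.inr ⟨hzW, v, hU, hz2⟩
        rw [h9, Set.ncard_empty]
        omega
      · rw [if_neg h5] at h3
        have h9 : {z | z ∉ BB G W f ∧ G.Adj v z} = {z | z ∉ W ∧ G.Adj v z} := by
          ext z
          simp only [Set.mem_setOf_eq]
          constructor
          · rintro ⟨hz1, hz2⟩
            exact ⟨fun h => hz1 ((clh3_mem G W f z).2 (Or.inl h)), hz2⟩
          · rintro ⟨hz1, hz2⟩
            refine ⟨fun h => ?_, hz2⟩
            rw [clh3_mem] at h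
            rcases h with h | ⟨-, u, hu, huz⟩
            · exact hz1 h
            · have hu' := hu
              simp only [UU, Finset.mem_filter] at hu'
              obtain ⟨huW, hu1, hu2, hu3⟩ := hu'
              have : u = v := h1 z hz1 u huW v hvW huz.symm hz2.symm
              subst this
              exact h5 hu3
        rw [h9]
        omega
  · rw [clh3_deg_out G W f hvW]
    rw [clh3_mem] at hvB
    rcases hvB with h | ⟨-, u, hu, huv⟩
    · exact absurd h hvW
    · have huW : u ∈ W := (Finset.mem_filter.1 hu).1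
      have h3 := hG v
      have h9 : {z | z ∉ BB G W f ∧ G.Adj v z} = G.neighborSet v \ {u} := by
        ext z
        simp only [Set.mem_setOf_eq, Set.mem_diff, SimpleGraph.mem_neighborSet,
          Set.mem_singleton_iff]
        constructor
        · rintro ⟨hz1, hz2⟩
          refine ⟨hz2, ?_⟩
          rintro rfl
          exact hz1 ((clh3_mem G W f z).2 (Or.inl huW))
        · rintro ⟨hz1, hz2⟩
          refine ⟨fun h => ?_, hz1⟩
          rw [clh3_mem] at h
          rcases h with h | ⟨hzW, u', hu', hu'z⟩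
          · exact hz2 (h1 v hvW z h u huW hz1 huv.symm)
          · exact h2 v hvW z hzW u huW u' (Finset.mem_filter.1 hu').1 huv.symm hu'z.symm hz1
      rw [h9, Set.ncard_diff_singleton_of_mem (by simpa using huv.symm), h3]

end Pool.Agent.H38H.CL
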