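import Pool.Agent.Lib.H38H.CLH3
import Pool.Agent.Lib.H38H.CLG2
import Pool.Agent.Lib.H38H.CLG4
import Pool.Agent.Lib.H38H.CLF7

/-!
H38H, module CL, chunk CLH4.
-/

set_option autoImplicit false

namespace Pool.Agent.H38H.CL

open Classical

theorem clh4_sub {V : Type} [Fintype V] (G : SimpleGraph V) (W : Finset V)
    (f : {x // x ∈ W} → {x // x ∈ W}) : W ⊆ BB G W f := by
  unfold BB
  exact Finset.subset_union_left

theorem clh4_adj {V : Type} {G : SimpleGraph V} {W : Finset V}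
    {f : {x // x ∈ W} → {x // x ∈ W}} {u v : V} (h : (FF G W f).Adj u v) :
    ∃ (hu : u ∈ W) (hv : v ∈ W), (HG (SW G W) f).Adj ⟨u, hu⟩ ⟨v, hv⟩ := by
  unfold FF at h
  rw [SimpleGraph.map_adj] at h
  obtain ⟨a, b, hab, ha, hb⟩ := h
  have ha' : a.1 = u := ha
  have hb' : b.1 = v := hb
  subst ha'
  subst hb'
  exact ⟨a.2, b.2, hab⟩

theorem clh4_nb {V : Type} {G : SimpleGraph V} {W : Finset V}
    {f : {x // x ∈ W} → {x // x ∈ W}} (w : {x // x ∈ W}) :
    ((FF G W f).neighborSet w.1).ncard = ((HG (SW G W) f).neighborSet w).ncard := by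
  have h1 : (FF G W f).neighborSet w.1 = Subtype.val '' ((HG (SW G W) f).neighborSet w) := by
    ext z
    rw [SimpleGraph.mem_neighborSet, Set.mem_image]
    constructor
    · intro h
      obtain ⟨hu, hv, hh⟩ := clh4_adj h
      exact ⟨⟨z, hv⟩, hh, rfl⟩
    · rintro ⟨b, hb, rfl⟩
      unfold FF
      rw [SimpleGraph.map_adj]
      exact ⟨w, b, hb, rfl, rfl⟩
  rw [h1, Set.ncard_image_of_injective _ Subtype.val_injective]

/-- CLH4 (a), every vertex reaches an end.
PROOF. `v ∈ W`: `Good (SW G W) f v` gives `w` reachable in `HG`, not `Br`, `f w ≠ w`; reachability is transported by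
`Reachable.map` (`FF` is the image, so `Subtype.val` is a homomorphism). The degree of `w` in `FF` is its degree in `HG`, at most the
degree in `SW G W` minus one (`deg_hg`), that is `1`. `v ∈ BB \ W`: take `w = v`, which has degree `0` in `FF`. -/
theorem cut_reach {V : Type} [Fintype V] {G : SimpleGraph V} {W : Finset V} (hd : D23 (SW G W))
    {f : {x // x ∈ W} → {x // x ∈ W}} (hf : VM (SW G W) f) (hg : ∀ v, Good (SW G W) f v) :
    ∀ v ∈ BB G W f, ∃ w ∈ BB G W f, (FF G W f).Reachable v w ∧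
      ((FF G W f).neighborSet w).ncard ≤ 1 := by
  intro v hv
  by_cases hvW : v ∈ W
  · obtain ⟨w, hw, hb, hfw⟩ := hg ⟨v, hvW⟩
    refine ⟨w.1, clh4_sub G W f w.2, ?_, ?_⟩
    · exact hw.map (SimpleGraph.Embedding.map (Function.Embedding.subtype _)
        (HG (SW G W) f)).toHom
    · rw [clh4_nb w]
      have h1 := deg_hg hf w
      rw [if_neg hfw] at h1
      rcases hd w with h2 | h2
      · omega
      · exact absurd h2 hb
  · refine ⟨v, hv, SimpleGraph.Reachable.refl _, ?_⟩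
    have h1 : (FF G W f).neighborSet v = ∅ := by
      rw [Set.eq_empty_iff_forall_notMem]
      intro z hz
      obtain ⟨hu, -, -⟩ := clh4_adj ((SimpleGraph.mem_neighborSet _ _ _).1 hz)
      exact hvW hu
    rw [h1, Set.ncard_empty]
    exact Nat.zero_le _

/-- CLH4 (b), the cut exists.
PROOF. `choose_W`, `sw_deg` (at most `2 e ≤ 4` branch vertices), `bad_noK4`, `bad_noK4'`, `beta` give `W`, `e`, `f`. Take `B = BB G W f`,
`F = FF G W f`; `B.card ≤ 2 |W| ≤ 2 k2` (`card_BB`). Put `K = 3 |W| + κ + 10`. `one_of`, `indep_of` for `A = W` give `h1`, `h2` of `cut_deg`. `le`, `mem`: by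
definition of `FF`. `deg`: `cut_deg`, `reach`: `cut_reach`. `one`, `indep`, `nice`: `one_of`, `indep_of`, `nice_of` for
`A = B` with `eIn_BB` (`|B| + 2 ≤ 2 |W| + 2 ≤ K`, `|B| + κ ≤ K`). `ge`: `eIn_BB`. -/
theorem cut_exists {N : ℕ} (κ : ℕ) (hN : 6 ≤ N) {G : SimpleGraph (Fin N)} (hG : Bad G)
    (h3 : ∀ W : Finset (Fin N), W.card ≤ k3 κ → eIn G W ≤ W.card + 2) :
    ∃ (B : Finset (Fin N)) (F : SimpleGraph (Fin N)), IsCut κ G B F ∧ B.card ≤ 2 * k2 κ := by
  obtain ⟨e, W, he, hW, hmin, hcard, hstar⟩ := choose_W κ G h3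
  obtain ⟨hd, hbr⟩ := sw_deg hG.1 hW hmin
  obtain ⟨f, hf, hg⟩ := beta hd (by omega) (bad_noK4 hN hG W) (bad_noK4' hG W)
  have hBc := card_BB hG.1 hd f
  have hBe := eIn_BB (G := G) (W := W) (e := e) hW.ge f
  have hone := one_of hstar (A := W) hW.ge (by omega)
  have hind := indep_of hstar (A := W) hW.ge (by omega)
  refine ⟨BB G W f, FF G W f, ?_, by omega⟩
  refine ⟨?_, ?_, cut_deg hG.1 hd hf hone hind, cut_reach hd hf hg,
    one_of hstar hBe (by omega), indep_of hstar hBe (by omega), by omega,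
    nice_of hstar hBe (by omega)⟩
  · intro u v huv
    obtain ⟨hu, hv, hh⟩ := clh4_adj huv
    exact hh.1
  · intro u v huv
    obtain ⟨hu, hv, -⟩ := clh4_adj huv
    exact ⟨clh4_sub G W f hu, clh4_sub G W f hv⟩

end Pool.Agent.H38H.CL
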