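import Pool.Agent.Lib.H38H.CLDefs

/-!
H38H, module CL, chunk CLI1.
-/

set_option autoImplicit false

namespace Pool.Agent.H38H.CL

open Classical

variable {V : Type} [Fintype V]

omit [Fintype V] in
theorem cli1_mem {κ : ℕ} {G : SimpleGraph V} {B : Finset V} {F : SimpleGraph V}
    (h : IsCut κ G B F) {v a : V} (hv : v ∈ B) (hr : F.Reachable v a) : a ∈ B := by
  obtain ⟨p⟩ := hr
  induction p with
  | nil => exact hv
  | cons hadj p ih => exact ih (h.mem _ _ hadj).2

/-- CLI1. Every path of `F` has exactly two leaving edges.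
PROOF. Let `R` be the set of vertices reachable from `v` in `F` (contained in `B` by `mem`), `c = |R|`, and `n` the number of edges of
`F.induce R`. `F.induce R` is connected, so `c ≤ n + 1` (`SimpleGraph.Connected.card_vert_le_card_edgeSet_add_one`). The degrees in
`F.induce R` are the degrees in `F` (neighbours of vertices of `R` are in `R`), so `∑ a ∈ R, deg_F a = 2 n` (handshake,
`SimpleGraph.sum_degrees_eq_twice_card_edges`). By `deg` all degrees are at most `2`, by `reach` one of them is at most `1`. So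
`2 n ≤ 2 c - 1`, `n = c - 1`, and by `deg` `∑ a ∈ R, #{z ∉ B, G.Adj a z} = 2 c - 2 n = 2`. The sets `{z ∉ B, G.Adj a z}`, `a ∈ R`, are pairwise
disjoint by `one`, and their union is the set in the statement. -/
theorem two_leaving {κ : ℕ} {G : SimpleGraph V} {B : Finset V} {F : SimpleGraph V}
    (h : IsCut κ G B F) {v : V} (hv : v ∈ B) :
    {z | z ∉ B ∧ ∃ a ∈ B, G.Adj z a ∧ F.Reachable v a}.ncard = 2 := by
  obtain ⟨C, hC⟩ : ∃ C, C = F.connectedComponentMk v := ⟨_, rfl⟩
  obtain ⟨R, hR⟩ : ∃ R : Finset V, R = Finset.univ.filter (fun a => F.Reachable v a) := ⟨_, rfl⟩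
  have hmR : ∀ a, a ∈ R ↔ F.Reachable v a := by intro a; simp [hR]
  have hmC : ∀ a, a ∈ R ↔ a ∈ C.supp := by
    intro a
    rw [hmR, SimpleGraph.ConnectedComponent.mem_supp_iff, hC, SimpleGraph.ConnectedComponent.eq]
    exact ⟨fun h => h.symm, fun h => h.symm⟩
  have hRB : ∀ a ∈ R, a ∈ B := fun a ha => cli1_mem h hv ((hmR a).1 ha)
  have hconn := C.connected_toSimpleGraph
  have hc1 := hconn.card_vert_le_card_edgeSet_add_one
  have hsum := SimpleGraph.sum_degrees_eq_twice_card_edges C.toSimpleGraph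
  have hdeg : ∀ a : C.supp, C.toSimpleGraph.degree a = (F.neighborSet a.1).ncard := by
    intro a
    have h1 : (F.induce C.supp).degree a = F.degree a.1 := by
      apply SimpleGraph.degree_induce_of_neighborSet_subset
      intro b hb
      exact (C.mem_supp_congr_adj (show F.Adj a.1 b from hb)).1 a.2
    have h2 : F.degree a.1 = (F.neighborSet a.1).ncard := by
      rw [Set.ncard_eq_toFinset_card', SimpleGraph.degree, SimpleGraph.neighborFinset]
    have hA : C.toSimpleGraph.degree a = (C.toSimpleGraph.neighborSet a).ncard := by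
      rw [Set.ncard_eq_toFinset_card', SimpleGraph.degree, SimpleGraph.neighborFinset]
    have hB : (F.induce C.supp).degree a = ((F.induce C.supp).neighborSet a).ncard := by
      rw [Set.ncard_eq_toFinset_card', SimpleGraph.degree, SimpleGraph.neighborFinset]
    rw [hA, ← h2, ← h1, hB]
    rfl
  have hcard : Nat.card C = R.card := by
    have h1 : R.card = Fintype.card {a // a ∈ R} := (Fintype.card_coe R).symm
    rw [h1, ← Nat.card_eq_fintype_card]
    exact Nat.card_congr (Equiv.subtypeEquivRight fun a => (hmC a).symm)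
  have hs1 : ∑ a ∈ R, (F.neighborSet a).ncard = 2 * C.toSimpleGraph.edgeFinset.card := by
    rw [← hsum]
    rw [Finset.sum_subtype R hmC (fun a => (F.neighborSet a).ncard)]
    refine Finset.sum_congr rfl fun a _ => ?_
    rw [← hdeg a]
  have hedge : Nat.card C.toSimpleGraph.edgeSet = C.toSimpleGraph.edgeFinset.card := by
    rw [Nat.card_eq_fintype_card, SimpleGraph.edgeFinset_card]
  rw [hedge, hcard] at hc1
  have hd : ∀ a ∈ R, (F.neighborSet a).ncard + {z | z ∉ B ∧ G.Adj a z}.ncard = 2 :=
    fun a ha => h.deg a (hRB a ha)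
  have hs2 : ∑ a ∈ R, (F.neighborSet a).ncard + ∑ a ∈ R, {z | z ∉ B ∧ G.Adj a z}.ncard =
      2 * R.card := by
    rw [← Finset.sum_add_distrib, Finset.sum_congr rfl hd]
    simp [mul_comm]
  have hlt : ∑ a ∈ R, (F.neighborSet a).ncard < ∑ a ∈ R, 2 := by
    obtain ⟨w, hw, hvw, hdw⟩ := h.reach v hv
    refine Finset.sum_lt_sum (fun a ha => ?_) ⟨w, (hmR w).2 hvw, by omega⟩
    have := hd a ha
    omega
  have hlt2 : ∑ a ∈ R, (F.neighborSet a).ncard < 2 * R.card := by
    simpa [mul_comm] using hlt
  have htot : ∑ a ∈ R, {z | z ∉ B ∧ G.Adj a z}.ncard = 2 := by omega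
  rw [← htot]
  have hset : {z | z ∉ B ∧ ∃ a ∈ B, G.Adj z a ∧ F.Reachable v a} =
      ((R.biUnion fun a => Finset.univ.filter (fun z => z ∉ B ∧ G.Adj a z) : Finset V) : Set V) := by
    ext z
    simp only [Set.mem_ofPred_eq, Finset.coe_biUnion, Set.mem_iUnion, Finset.coe_filter,
      Finset.mem_univ, true_and, Finset.mem_coe, exists_prop]
    constructor
    · rintro ⟨h1, a, ha, h2, h3⟩
      exact ⟨a, (hmR a).2 h3, h1, h2.symm⟩
    · rintro ⟨a, ha, h1, h2⟩
      exact ⟨h1, a, hRB a ha, h2.symm, (hmR a).1 ha⟩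
  rw [hset, Set.ncard_coe_finset, Finset.card_biUnion]
  · refine Finset.sum_congr rfl fun a _ => ?_
    rw [← Set.ncard_coe_finset]
    congr 1
    ext z
    simp
  · intro a ha b hb hab
    show Disjoint _ _
    rw [Finset.disjoint_left]
    intro z hz1 hz2
    simp only [Finset.mem_filter, Finset.mem_univ, true_and] at hz1 hz2
    exact hab (h.one z hz1.1 a (hRB a ha) b (hRB b hb) hz1.2.symm hz2.2.symm)

end Pool.Agent.H38H.CL
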