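import Pool.Agent.Lib.H38H.CLI1
import Pool.Agent.Lib.H38H.CLG1

/-!
H38H, module CL, chunk CLI2.
-/

set_option autoImplicit false

namespace Pool.Agent.H38H.CL

open Classical

variable {V : Type} [Fintype V]

/-- CLI2 (a). PROOF. Symmetry of the definition. -/
theorem mk_symm {G : SimpleGraph V} {B : Finset V} {F : SimpleGraph V} {z z' : V}
    (h : Mk G B F z z') : Mk G B F z' z := by
  obtain ⟨h1, h2, h3, a, ha, b, hb, h4, h5, h6⟩ := h
  exact ⟨h2, h1, h3.symm, b, hb, a, ha, h5, h4, h6.symm⟩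

/-- CLI2 (b). Every boundary vertex has exactly one partner.
PROOF. By `two_leaving` for `v = a` the set `{z' ∉ B, ∃ b ∈ B, G.Adj z' b ∧ F.Reachable a b}` has exactly two elements, one of them is
`z`; the other one is the partner. For every `z'` with `Mk G B F z z'` the vertex `a'` in the definition is `a` (by `one`), so `z'` is the other element. -/
theorem mk_unique {κ : ℕ} {G : SimpleGraph V} {B : Finset V} {F : SimpleGraph V}
    (h : IsCut κ G B F) {z a : V} (hz : z ∉ B) (ha : a ∈ B) (hza : G.Adj z a) :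
    ∃! z', Mk G B F z z' := by
  have h2 := two_leaving h ha
  obtain ⟨x, y, hxy, hs⟩ := Set.ncard_eq_two.1 h2
  have hm : ∀ w, (w ∉ B ∧ ∃ b ∈ B, G.Adj w b ∧ F.Reachable a b) ↔ w = x ∨ w = y := by
    intro w
    have h3 : w ∈ {z | z ∉ B ∧ ∃ a_1 ∈ B, G.Adj z a_1 ∧ F.Reachable a a_1} ↔
        w ∈ ({x, y} : Set V) := by rw [hs]
    simpa using h3
  have key : ∀ x y : V, x ≠ y →
      (∀ w, (w ∉ B ∧ ∃ b ∈ B, G.Adj w b ∧ F.Reachable a b) ↔ w = x ∨ w = y) → z = x →
      ∃! z', Mk G B F z z' := by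
    intro x y hxy hm hzx
    obtain ⟨hyB, b, hb, hyb, hr⟩ := (hm y).2 (Or.inr rfl)
    refine ⟨y, ⟨hz, hyB, by rw [hzx]; exact hxy, a, ha, b, hb, hza, hyb, hr⟩, ?_⟩
    rintro w ⟨-, hwB, hne, a', ha', b', hb', hza', hwb', hr'⟩
    have haa : a = a' := h.one z hz a ha a' ha' hza hza'
    rw [← haa] at hr'
    rcases (hm w).1 ⟨hwB, b', hb', hwb', hr'⟩ with e | e
    · exact absurd (hzx.trans e.symm) hne
    · exact e
  rcases (hm z).1 ⟨hz, a, ha, hza, SimpleGraph.Reachable.refl a⟩ with e | e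
  · exact key x y hxy hm e
  · exact key y x hxy.symm (fun w => by rw [hm w, or_comm]) e

/-- CLI2 (c). Counting.
PROOF. Let `D = {z ∉ B, ∃ a ∈ B, G.Adj z a}` (boundary). (i) `|D| = 2 |E|`: every `z ∈ D` lies in exactly one element of `E` (by (b)), and every element
of `E` has exactly two members, both in `D` (double counting, e.g. the map `D → E`, `z ↦ s(z, partner z)` has fibres of size two). (ii) By `one`,
`|D| = ∑ a ∈ B, #{z ∉ B, G.Adj a z}`. By `Cubic` this is `∑ a ∈ B, (3 - #(neighbours of a in B)) = 3 |B| - 2 eIn G B` (`sum_deg`), so at most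
`|B|` by `ge`. (iii) So `2 |E| ≤ |B|`, and `|B|` is even since `2 |E| + 2 eIn G B = 3 |B|`. -/
theorem mk_card {κ : ℕ} {G : SimpleGraph V} (hG : Cubic G) {B : Finset V} {F : SimpleGraph V}
    (h : IsCut κ G B F) (E : Finset (Sym2 V)) (hE : ∀ z z', s(z, z') ∈ E ↔ Mk G B F z z') :
    2 * E.card ≤ B.card ∧ Even B.card := by
  set D : Finset V := Finset.univ.filter (fun z => z ∉ B ∧ ∃ a ∈ B, G.Adj z a) with hD
  have hDm : ∀ z, z ∈ D ↔ z ∉ B ∧ ∃ a ∈ B, G.Adj z a := by
    intro z
    rw [hD, Finset.mem_filter]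
    exact ⟨fun h1 => h1.2, fun h1 => ⟨Finset.mem_univ _, h1⟩⟩
  -- (i)
  have h1 : D.card = 2 * E.card := by
    have e1 := Finset.sum_card_bipartiteAbove_eq_sum_card_bipartiteBelow
      (s := D) (t := E) (fun (z : V) (e : Sym2 V) => z ∈ e)
    have e2 : ∀ z ∈ D, (Finset.bipartiteAbove (fun (z : V) (e : Sym2 V) => z ∈ e) E z).card = 1 := by
      intro z hz
      obtain ⟨hzB, a, ha, hza⟩ := (hDm z).1 hz
      obtain ⟨z', hz', huniq⟩ := mk_unique h hzB ha hza
      rw [Finset.card_eq_one]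
      refine ⟨s(z, z'), ?_⟩
      ext e
      rw [Finset.mem_bipartiteAbove, Finset.mem_singleton]
      constructor
      · rintro ⟨heE, hze⟩
        obtain ⟨w, rfl⟩ := Sym2.mem_iff_exists.1 hze
        rw [huniq w ((hE z w).1 heE)]
      · rintro rfl
        exact ⟨(hE z z').2 hz', Sym2.mem_mk_left _ _⟩
    have e3 : ∀ e ∈ E, (Finset.bipartiteBelow (fun (z : V) (e : Sym2 V) => z ∈ e) D e).card = 2 := by
      intro e he
      induction e using Sym2.ind with
      | _ x y =>
        have hm := (hE x y).1 he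
        obtain ⟨hx, hy, hne, a, ha, b, hb, hxa, hyb, -⟩ := hm
        rw [Finset.card_eq_two]
        refine ⟨x, y, hne, ?_⟩
        ext w
        rw [Finset.mem_bipartiteBelow, Finset.mem_insert, Finset.mem_singleton, Sym2.mem_iff]
        constructor
        · exact fun h2 => h2.2
        · rintro (rfl | rfl)
          · exact ⟨(hDm _).2 ⟨hx, a, ha, hxa⟩, Or.inl rfl⟩
          · exact ⟨(hDm _).2 ⟨hy, b, hb, hyb⟩, Or.inr rfl⟩
    rw [Finset.sum_congr rfl e2, Finset.sum_congr rfl e3, Finset.sum_const, Finset.sum_const,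
      smul_eq_mul, smul_eq_mul, mul_one] at e1
    rw [e1, mul_comm]
  -- (ii)
  have h2 : D.card = ∑ a ∈ B, (Finset.univ.filter (fun z => z ∉ B ∧ G.Adj a z)).card := by
    rw [← Finset.card_biUnion]
    · congr 1
      ext z
      rw [hDm, Finset.mem_biUnion]
      constructor
      · rintro ⟨hz, a, ha, hza⟩
        exact ⟨a, ha, Finset.mem_filter.2 ⟨Finset.mem_univ _, hz, hza.symm⟩⟩
      · rintro ⟨a, ha, hza⟩
        exact ⟨(Finset.mem_filter.1 hza).2.1, a, ha, (Finset.mem_filter.1 hza).2.2.symm⟩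
    · intro a ha b hb hab
      rw [Function.onFun, Finset.disjoint_left]
      intro z hz hz'
      have h3 := (Finset.mem_filter.1 hz).2
      have h4 := (Finset.mem_filter.1 hz').2
      exact hab (h.one z h3.1 a ha b hb h3.2.symm h4.2.symm)
  have h3 : ∀ a ∈ B, (B.filter (fun u => G.Adj a u)).card +
      (Finset.univ.filter (fun z => z ∉ B ∧ G.Adj a z)).card = 3 := by
    intro a _
    rw [← Finset.card_union_of_disjoint]
    · have h4 : (B.filter (fun u => G.Adj a u)) ∪
          (Finset.univ.filter (fun z => z ∉ B ∧ G.Adj a z)) = (G.neighborSet a).toFinset := by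
        ext z
        rw [Set.mem_toFinset, SimpleGraph.mem_neighborSet, Finset.mem_union, Finset.mem_filter,
          Finset.mem_filter]
        constructor
        · rintro (h5 | h5)
          · exact h5.2
          · exact h5.2.2
        · intro h5
          by_cases hz : z ∈ B
          · exact Or.inl ⟨hz, h5⟩
          · exact Or.inr ⟨Finset.mem_univ _, hz, h5⟩
      rw [h4, ← Set.ncard_eq_toFinset_card']
      exact hG a
    · rw [Finset.disjoint_left]
      intro z hz hz'
      exact (Finset.mem_filter.1 hz').2.1 (Finset.mem_filter.1 hz).1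
  have h5 := Finset.sum_congr rfl h3
  rw [Finset.sum_add_distrib, sum_deg, ← h2, Finset.sum_const, smul_eq_mul] at h5
  have h6 := h.ge
  refine ⟨by omega, ?_⟩
  rw [Nat.even_iff]
  omega

end Pool.Agent.H38H.CL
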