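import Pool.Agent.Lib.H38H.CLI2

/-!
H38H, module CL, chunk CLI4.
-/

set_option autoImplicit false

namespace Pool.Agent.H38H.CL

open Classical

/-- CLI4. Construction of the code.
PROOF. Let `E` be the set of pairs `s(z, z')` with `Mk G B F z z'` (`Finset.univ.filter`, e.g. via `Sym2.fromRel` or `∃ z z', e = s(z, z') ∧ Mk ..`),
`m = E.card`. `g = fun i => (B.equivFin.symm i).1` (so injective, range `B`), `Q = G.comap g`. Enumerate `E` (`E.equivFin`); for the `k`-th
element `e` choose `z, z', a, b` with `e = s(z, z')`, `Mk`, `a, b ∈ B`, `G.Adj z a`, `G.Adj z' b`, and put `f k = ((g⁻¹ a, z), (g⁻¹ b, z'))`.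
`leave`: if `z ∉ B`, `G.Adj (g i) z`, let `z'` be the partner of `z` (`mk_unique`); `s(z, z') ∈ E` is the `k`-th element for some `k`, so `z` is one of
the two second components of `f k`, and the vertex of `B` there is adjacent to `z`, so equal to `g i` by `one`. The converse is by construction.
The marks: `s(u, v) ∈ markSet g f` iff `s(u.1, v.1)` is some `s((f k).1.2, (f k).2.2)` iff it is in `E`. The cardinality: `Sym2.map Subtype.val` is
injective and maps `markSet g f` onto `E` (all elements of `E` are pairs of vertices outside `B`). -/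
theorem code_exists {κ N : ℕ} {G : SimpleGraph (Fin N)} (hG : Cubic G) {B : Finset (Fin N)}
    {F : SimpleGraph (Fin N)} (h : IsCut κ G B F) :
    ∃ (m : ℕ) (g : Fin B.card → Fin N) (Q : SimpleGraph (Fin B.card))
      (f : Fin m → (Fin B.card × Fin N) × (Fin B.card × Fin N)),
      2 * m ≤ B.card ∧ Even B.card ∧ Function.Injective g ∧ (∀ v, v ∈ Set.range g ↔ v ∈ B) ∧
      (∀ i j, G.Adj (g i) (g j) ↔ Q.Adj i j) ∧
      (∀ i z, z ∉ Set.range g → (G.Adj (g i) z ↔ ∃ k, (f k).1 = (i, z) ∨ (f k).2 = (i, z))) ∧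
      (∀ u v : {v : Fin N // v ∉ Set.range g}, s(u, v) ∈ markSet g f ↔ Mk G B F u.1 v.1) ∧
      (markSet g f).card = m := by
  set E : Finset (Sym2 (Fin N)) :=
    Finset.univ.filter (fun e => ∃ z z', e = s(z, z') ∧ Mk G B F z z') with hEdef
  have hE : ∀ z z', s(z, z') ∈ E ↔ Mk G B F z z' := by
    intro z z'
    rw [hEdef, Finset.mem_filter]
    constructor
    · rintro ⟨-, x, y, hxy, hM⟩
      rw [Sym2.eq_iff] at hxy
      rcases hxy with ⟨rfl, rfl⟩ | ⟨rfl, rfl⟩
      · exact hM
      · exact mk_symm hM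
    · intro hM
      exact ⟨Finset.mem_univ _, z, z', rfl, hM⟩
  obtain ⟨hm, hev⟩ := mk_card hG h E hE
  set g : Fin B.card → Fin N := fun i => (B.equivFin.symm i).1 with hg
  have gB : ∀ i, g i ∈ B := fun i => (B.equivFin.symm i).2
  have ginj : Function.Injective g := by
    intro i j hij
    exact B.equivFin.symm.injective (Subtype.ext hij)
  have gsurj : ∀ v, v ∈ B → ∃ i, g i = v := by
    intro v hv
    exact ⟨B.equivFin ⟨v, hv⟩, by simp [hg]⟩
  have hrange : ∀ v, v ∈ Set.range g ↔ v ∈ B := by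
    intro v
    constructor
    · rintro ⟨i, rfl⟩
      exact gB i
    · exact gsurj v
  have hex : ∀ k : Fin E.card, ∃ q : (Fin B.card × Fin N) × (Fin B.card × Fin N),
      (E.equivFin.symm k).1 = s(q.1.2, q.2.2) ∧ Mk G B F q.1.2 q.2.2 ∧
        G.Adj q.1.2 (g q.1.1) ∧ G.Adj q.2.2 (g q.2.1) := by
    intro k
    have hk : ∀ e ∈ E, ∃ z z', e = s(z, z') ∧ Mk G B F z z' := by
      intro e he
      rw [hEdef, Finset.mem_filter] at he
      exact he.2
    obtain ⟨z, z', he, hM⟩ := hk _ (E.equivFin.symm k).2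
    obtain ⟨h1, h2, h3, a, ha, b, hb, h4, h5, h6⟩ := id hM
    obtain ⟨i, rfl⟩ := gsurj a ha
    obtain ⟨j, rfl⟩ := gsurj b hb
    exact ⟨((i, z), (j, z')), he, hM, h4, h5⟩
  choose f hf1 hf2 hf3 hf4 using hex
  have hfE : ∀ e, e ∈ E ↔ ∃ k, e = s((f k).1.2, (f k).2.2) := by
    intro e
    constructor
    · intro he
      refine ⟨E.equivFin ⟨e, he⟩, ?_⟩
      rw [← hf1]
      simp
    · rintro ⟨k, rfl⟩
      rw [← hf1]
      exact (E.equivFin.symm k).2
  have hmark : ∀ e : Sym2 {v : Fin N // v ∉ Set.range g}, e ∈ markSet g f ↔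
      e.map Subtype.val ∈ E := by
    intro e
    rw [hfE, markSet, Finset.mem_filter]
    simp
  refine ⟨E.card, g, G.comap g, f, hm, hev, ginj, hrange, fun i j => Iff.rfl, ?_, ?_, ?_⟩
  · intro i z hz
    constructor
    · intro hadj
      have hzB : z ∉ B := fun hc => hz ((hrange z).2 hc)
      obtain ⟨z', hz', -⟩ := mk_unique h hzB (gB i) hadj.symm
      obtain ⟨k, hk⟩ := (hfE _).1 ((hE z z').2 hz')
      rw [Sym2.eq_iff] at hk
      refine ⟨k, ?_⟩
      rcases hk with ⟨h1, h2⟩ | ⟨h1, h2⟩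
      · left
        have h3 := hf3 k
        rw [← h1] at h3
        have h4 := ginj (h.one z hzB _ (gB _) _ (gB _) h3 hadj.symm)
        exact Prod.ext h4 h1.symm
      · right
        have h3 := hf4 k
        rw [← h1] at h3
        have h4 := ginj (h.one z hzB _ (gB _) _ (gB _) h3 hadj.symm)
        exact Prod.ext h4 h1.symm
    · rintro ⟨k, hk | hk⟩
      · have h3 := hf3 k
        rw [hk] at h3
        exact h3.symm
      · have h3 := hf4 k
        rw [hk] at h3
        exact h3.symm
  · intro u v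
    rw [hmark, Sym2.map_mk, hE]
  · have himg : (markSet g f).image (Sym2.map Subtype.val) = E := by
      ext e
      rw [Finset.mem_image]
      constructor
      · rintro ⟨e', he', rfl⟩
        exact (hmark e').1 he'
      · intro he
        obtain ⟨k, hk⟩ := (hfE e).1 he
        have h1 : (f k).1.2 ∉ Set.range g := fun hc => (hf2 k).1 ((hrange _).1 hc)
        have h2 : (f k).2.2 ∉ Set.range g := fun hc => (hf2 k).2.1 ((hrange _).1 hc)
        refine ⟨s(⟨(f k).1.2, h1⟩, ⟨(f k).2.2, h2⟩), ?_, ?_⟩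
        · rw [hmark, Sym2.map_mk, ← hk]
          exact he
        · rw [Sym2.map_mk, hk]
    have h1 := congrArg Finset.card himg
    rw [Finset.card_image_of_injective _ (Sym2.map.injective Subtype.val_injective)] at h1
    exact h1

end Pool.Agent.H38H.CL
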