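import Pool.Agent.Lib.H38H.CLI2

/-!
H38H, module CL, chunk CLI5.
-/

set_option autoImplicit false

namespace Pool.Agent.H38H.CL

open Classical

variable {V : Type} [Fintype V]

/-- CLI5 (a). PROOF. `Mk` is irreflexive; if `v` is in two marks `s(v, w)`, `s(v, w')` then `w = w'` by `mk_unique`
(`v` has a neighbour in `B` by definition of `Mk`). -/
theorem cut_marks {κ : ℕ} {G : SimpleGraph V} {B : Finset V} {F : SimpleGraph V}
    (h : IsCut κ G B F) (p : V → Prop) (hp : ∀ v, p v ↔ v ∉ B) (E : Finset (Sym2 (Subtype p)))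
    (hE : ∀ u v : Subtype p, s(u, v) ∈ E ↔ Mk G B F u.1 v.1) : Marks E := by
  refine ⟨fun e he hd => ?_, fun e he f hf hef v hve hvf => ?_⟩
  · induction e using Sym2.ind with
    | _ x y =>
      have h1 := (hE x y).1 he
      rw [Sym2.mk_isDiag_iff] at hd
      exact h1.2.2.1 (congrArg Subtype.val hd)
  · obtain ⟨w, rfl⟩ := Sym2.mem_iff_exists.1 hve
    obtain ⟨w', rfl⟩ := Sym2.mem_iff_exists.1 hvf
    have h1 := (hE v w).1 he
    have h2 := (hE v w').1 hf
    obtain ⟨hvB, -, -, a, ha, -, -, hva, -, -⟩ := id h1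
    obtain ⟨z, -, hz⟩ := mk_unique h hvB ha hva
    have h3 : w = w' := Subtype.ext ((hz _ h1).trans (hz _ h2).symm)
    exact hef (by rw [h3])

/-- CLI5 (b). PROOF. `indep`. -/
theorem mk_notG {κ : ℕ} {G : SimpleGraph V} {B : Finset V} {F : SimpleGraph V}
    (h : IsCut κ G B F) {z z' : V} (hz : Mk G B F z z') : ¬ G.Adj z z' := by
  obtain ⟨h1, h2, h3, a, ha, b, hb, h4, h5, h6⟩ := hz
  exact h.indep z h1 z' h2 a ha b hb h4 h5

/-- CLI5 (c).
PROOF. Let `v` be outside `B`. If `v` has no neighbour in `B`: its three neighbours in `G` are outside `B`, and it is in no mark. If it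
has one, `a` (exactly one, by `one`): the two others are outside `B`, and there is exactly one mark `s(v, v')` (`mk_unique`; `v'` is
outside `B`), and `v'` is not a neighbour of `v` in `G` (b). So the neighbour set of `v` in `G2 p G E` has three elements in both cases. -/
theorem cut_cubic {κ : ℕ} {G : SimpleGraph V} (hG : Cubic G) {B : Finset V} {F : SimpleGraph V}
    (h : IsCut κ G B F) (p : V → Prop) (hp : ∀ v, p v ↔ v ∉ B) (E : Finset (Sym2 (Subtype p)))
    (hE : ∀ u v : Subtype p, s(u, v) ∈ E ↔ Mk G B F u.1 v.1) : Cubic (G2 p G E) := by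
  intro v
  have hvB : v.1 ∉ B := (hp _).1 v.2
  have h3 := hG v.1
  have himg : Subtype.val '' ((G2 p G E).neighborSet v) =
      {z | z ∉ B ∧ z ≠ v.1 ∧ (G.Adj v.1 z ∨ Mk G B F v.1 z)} := by
    ext z
    constructor
    · rintro ⟨w, hw, rfl⟩
      obtain ⟨hne, h1⟩ := hw
      refine ⟨(hp _).1 w.2, fun e => hne (Subtype.ext e.symm), ?_⟩
      rcases h1 with h1 | h1
      · exact Or.inl h1
      · exact Or.inr ((hE v w).1 h1)
    · rintro ⟨hz, hne, h1⟩
      refine ⟨⟨z, (hp z).2 hz⟩, ⟨fun e => hne (congrArg Subtype.val e).symm, ?_⟩, rfl⟩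
      rcases h1 with h1 | h1
      · exact Or.inl h1
      · exact Or.inr ((hE _ _).2 h1)
  rw [← Set.ncard_image_of_injective _ Subtype.val_injective, himg]
  by_cases hex : ∃ a ∈ B, G.Adj v.1 a
  · obtain ⟨a, ha, hva⟩ := hex
    obtain ⟨v', hv', huniq⟩ := mk_unique h hvB ha hva
    have hset : {z | z ∉ B ∧ z ≠ v.1 ∧ (G.Adj v.1 z ∨ Mk G B F v.1 z)} =
        insert v' (G.neighborSet v.1 \ {a}) := by
      ext z
      rw [Set.mem_insert_iff, Set.mem_sdiff, SimpleGraph.mem_neighborSet, Set.mem_singleton_iff]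
      constructor
      · rintro ⟨hz, hne, h1 | h1⟩
        · exact Or.inr ⟨h1, fun e => hz (by rw [e]; exact ha)⟩
        · exact Or.inl (huniq z h1)
      · rintro (h1 | ⟨h1, h2⟩)
        · rw [h1]
          exact ⟨hv'.2.1, hv'.2.2.1.symm, Or.inr hv'⟩
        · exact ⟨fun hz => h2 (h.one v.1 hvB z hz a ha h1 hva), h1.ne', Or.inl h1⟩
    rw [hset, Set.ncard_insert_of_notMem,
      Set.ncard_sdiff_singleton_of_mem (show a ∈ G.neighborSet v.1 from hva), h3]
    rintro ⟨h1, -⟩
    exact mk_notG h hv' h1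
  · have hset : {z | z ∉ B ∧ z ≠ v.1 ∧ (G.Adj v.1 z ∨ Mk G B F v.1 z)} = G.neighborSet v.1 := by
      ext z
      rw [SimpleGraph.mem_neighborSet]
      constructor
      · rintro ⟨-, -, h1 | h1⟩
        · exact h1
        · obtain ⟨-, -, -, a, ha, -, -, hva, -, -⟩ := h1
          exact absurd ⟨a, ha, hva⟩ hex
      · intro h1
        exact ⟨fun hz => hex ⟨z, hz, h1⟩, h1.ne', Or.inl h1⟩
    rw [hset]
    exact h3

end Pool.Agent.H38H.CL
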