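import Pool.Agent.Lib.H38H.CLI5

/-!
H38H, module CL, chunk CLI6.
-/

set_option autoImplicit false

namespace Pool.Agent.H38H.CL

open Classical

variable {V : Type} [Fintype V]

/-- CLI6.
PROOF. Let `W` be a set of at most `κ` vertices of the subtype, `Y = W.map (Function.Embedding.subtype p)` (disjoint from `B`, same cardinality).
`eIn (G2 p G E) W = eIn G Y + mIn E W`: the edges of `G2 p G E` inside `W` are the edges of `G` inside `Y` and the marks inside `W`, which are not edges of `G`
(`mk_notG`) and not diagonal. The marks inside `W` are pairwise disjoint (`cut_marks`) pairs of elements of `W` with a neighbour in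
`B`: `2 * mIn E W ≤ #{z ∈ Y, ∃ u ∈ B, G.Adj z u}`. So by `nice`
`eIn (G2 p G E) W + mIn E W = eIn G Y + 2 * mIn E W ≤ |Y| = |W|`. -/
theorem cut_nice {κ : ℕ} {G : SimpleGraph V} {B : Finset V} {F : SimpleGraph V}
    (h : IsCut κ G B F) (p : V → Prop) (hp : ∀ v, p v ↔ v ∉ B) (E : Finset (Sym2 (Subtype p)))
    (hE : ∀ u v : Subtype p, s(u, v) ∈ E ↔ Mk G B F u.1 v.1) : Nice κ (G2 p G E) E := by
  intro W hW
  set Y : Finset V := W.map (Function.Embedding.subtype p) with hY
  have hYm : ∀ z, z ∈ Y ↔ ∃ w ∈ W, w.1 = z := by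
    intro z
    rw [hY, Finset.mem_map]
    rfl
  have hYB : Disjoint Y B := by
    rw [Finset.disjoint_left]
    intro z hz
    obtain ⟨w, -, rfl⟩ := (hYm z).1 hz
    exact (hp _).1 w.2
  have hYc : Y.card = W.card := Finset.card_map _
  have hn := h.nice Y hYB (by omega)
  have hmIn : mIn E W = (E.filter (fun e => e ∈ W.sym2)).card := by
    unfold mIn
    congr
  -- the edges
  have hA : eIn (G2 p G E) W ≤ eIn G Y + mIn E W := by
    have h1 : W.sym2.filter (fun e => e ∈ (G2 p G E).edgeSet) ⊆
        W.sym2.filter (fun e => e.map Subtype.val ∈ G.edgeSet) ∪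
          E.filter (fun e => e ∈ W.sym2) := by
      intro e he
      obtain ⟨he1, he2⟩ := Finset.mem_filter.1 he
      rw [Finset.mem_union, Finset.mem_filter, Finset.mem_filter]
      induction e using Sym2.ind with
      | _ x y =>
        rcases ((SimpleGraph.mem_edgeSet _).1 he2).2 with h2 | h2
        · exact Or.inl ⟨he1, h2⟩
        · exact Or.inr ⟨h2, he1⟩
    have h2 : (W.sym2.filter (fun e => e.map Subtype.val ∈ G.edgeSet)).card ≤ eIn G Y := by
      have h3 : (W.sym2.filter (fun e => e.map Subtype.val ∈ G.edgeSet)).image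
          (Sym2.map Subtype.val) ⊆ Y.sym2.filter (fun e => e ∈ G.edgeSet) := by
        intro e he
        obtain ⟨e', he', rfl⟩ := Finset.mem_image.1 he
        obtain ⟨h4, h5⟩ := Finset.mem_filter.1 he'
        rw [Finset.mem_filter]
        refine ⟨?_, h5⟩
        induction e' using Sym2.ind with
        | _ x y =>
          rw [Finset.mk_mem_sym2_iff] at h4
          rw [Sym2.map_mk, Finset.mk_mem_sym2_iff]
          exact ⟨(hYm _).2 ⟨x, h4.1, rfl⟩, (hYm _).2 ⟨y, h4.2, rfl⟩⟩
      have h6 := Finset.card_le_card h3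
      rwa [Finset.card_image_of_injective _ (Sym2.map.injective Subtype.val_injective)] at h6
    exact (Finset.card_le_card h1).trans ((Finset.card_union_le _ _).trans
      (Nat.add_le_add h2 hmIn.ge))
  -- the marks
  have hB : 2 * mIn E W ≤ (Y.filter (fun z => ∃ u ∈ B, G.Adj z u)).card := by
    have h0 : (Y.filter (fun z => ∃ u ∈ B, G.Adj z u)).card =
        (W.filter (fun z => ∃ u ∈ B, G.Adj z.1 u)).card := by
      rw [hY, Finset.filter_map, Finset.card_map]
      rfl
    rw [h0]
    have hM := cut_marks h p hp E hE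
    have e1 := Finset.sum_card_bipartiteAbove_eq_sum_card_bipartiteBelow
      (s := W.filter (fun z => ∃ u ∈ B, G.Adj z.1 u)) (t := E.filter (fun e => e ∈ W.sym2))
      (fun (z : Subtype p) (e : Sym2 (Subtype p)) => z ∈ e)
    have e2 : ∀ z ∈ W.filter (fun z => ∃ u ∈ B, G.Adj z.1 u),
        (Finset.bipartiteAbove (fun (z : Subtype p) (e : Sym2 (Subtype p)) => z ∈ e)
          (E.filter (fun e => e ∈ W.sym2)) z).card ≤ 1 := by
      intro z _
      rw [Finset.card_le_one]
      intro e he e' he'
      rw [Finset.mem_bipartiteAbove, Finset.mem_filter] at he he'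
      by_contra hne
      exact hM.2 e he.1.1 e' he'.1.1 hne z he.2 he'.2
    have e3 : ∀ e ∈ E.filter (fun e => e ∈ W.sym2),
        (Finset.bipartiteBelow (fun (z : Subtype p) (e : Sym2 (Subtype p)) => z ∈ e)
          (W.filter (fun z => ∃ u ∈ B, G.Adj z.1 u)) e).card = 2 := by
      intro e he
      obtain ⟨he1, he2⟩ := Finset.mem_filter.1 he
      induction e using Sym2.ind with
      | _ x y =>
        obtain ⟨hx, hy, hne, a, ha, b, hb, hxa, hyb, -⟩ := (hE x y).1 he1
        rw [Finset.mk_mem_sym2_iff] at he2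
        rw [Finset.card_eq_two]
        refine ⟨x, y, fun e => hne (congrArg Subtype.val e), ?_⟩
        ext w
        rw [Finset.mem_bipartiteBelow, Finset.mem_insert, Finset.mem_singleton, Sym2.mem_iff]
        constructor
        · exact fun h2 => h2.2
        · rintro (rfl | rfl)
          · exact ⟨Finset.mem_filter.2 ⟨he2.1, a, ha, hxa⟩, Or.inl rfl⟩
          · exact ⟨Finset.mem_filter.2 ⟨he2.2, b, hb, hyb⟩, Or.inr rfl⟩
    have e4 := Finset.sum_le_sum e2
    rw [e1, Finset.sum_congr rfl e3, Finset.sum_const, Finset.sum_const, smul_eq_mul, smul_eq_mul,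
      mul_one] at e4
    rw [hmIn]
    omega
  omega

end Pool.Agent.H38H.CL
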