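import Pool.Agent.Lib.H38H.CLI5

/-!
H38H, module CL, chunk CLI7.
-/

set_option autoImplicit false

namespace Pool.Agent.H38H.CL

open Classical

variable {V : Type} [Fintype V]

/-- The lifted Hamilton cycle. -/
def Lift (p : V → Prop) (G : SimpleGraph V) (F : SimpleGraph V) (S : SimpleGraph (Subtype p)) :
    SimpleGraph V where
  Adj u v := F.Adj u v ∨ (G.Adj u v ∧ ¬ (p u ↔ p v)) ∨
    (G.Adj u v ∧ ∃ (hu : p u) (hv : p v), S.Adj ⟨u, hu⟩ ⟨v, hv⟩)
  symm := by
    constructor
    rintro u v (h | ⟨h, h1⟩ | ⟨h, hu, hv, h1⟩)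
    · exact Or.inl h.symm
    · exact Or.inr (Or.inl ⟨h.symm, fun h2 => h1 h2.symm⟩)
    · exact Or.inr (Or.inr ⟨h.symm, hv, hu, h1.symm⟩)
  loopless := by
    constructor
    rintro v (h | ⟨h, -⟩ | ⟨h, -⟩)
    · exact h.ne rfl
    · exact h.ne rfl
    · exact h.ne rfl

/-- CLI7 (a).
PROOF. `v ∈ B`: the neighbours of `v` in `Lift` are its neighbours in `F` (all in `B`) and its neighbours `z ∉ B` in `G`: together `2` by `deg`.
`v ∉ B` (so `v` is not in an edge of `F`): if `v` has no neighbour in `B`: both neighbours of `v` in `S` are neighbours in `G` (they are neighbours in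
`G2 p G E` and `v` is in no mark): `2`. If `v` has a neighbour in `B` (exactly one, `one`): let `s(v, v')` be its mark (`mk_unique`); it is an edge of `S` by
`hSE`, not an edge of `G` (`mk_notG`); the other neighbour of `v` in `S` is not a mark partner, so it is a neighbour in `G`. So `1 + 1`. -/
theorem lift_deg {κ : ℕ} {G : SimpleGraph V} (hG : Cubic G) {B : Finset V} {F : SimpleGraph V}
    (h : IsCut κ G B F) (p : V → Prop) (hp : ∀ v, p v ↔ v ∉ B) (E : Finset (Sym2 (Subtype p)))
    (hE : ∀ u v : Subtype p, s(u, v) ∈ E ↔ Mk G B F u.1 v.1) {S : SimpleGraph (Subtype p)}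
    (hS : S ≤ G2 p G E) (hS2 : ∀ v, (S.neighborSet v).ncard = 2) (hSE : ∀ e ∈ E, e ∈ S.edgeSet) :
    ∀ v, ((Lift p G F S).neighborSet v).ncard = 2 := by
  intro v
  by_cases hv : v ∈ B
  · have hpv : ¬ p v := by rw [hp]; exact fun h1 => h1 hv
    rw [← h.deg v hv]
    have hset : (Lift p G F S).neighborSet v = F.neighborSet v ∪ {z | z ∉ B ∧ G.Adj v z} := by
      ext z
      simp only [SimpleGraph.mem_neighborSet, Set.mem_union, Set.mem_ofPred_eq]
      constructor
      · rintro (h1 | ⟨h1, h2⟩ | ⟨h1, hu, -⟩)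
        · exact Or.inl h1
        · refine Or.inr ⟨?_, h1⟩
          rw [← hp]
          by_contra h3
          exact h2 ⟨fun h4 => absurd h4 hpv, fun h4 => absurd h4 h3⟩
        · exact absurd hu hpv
      · rintro (h1 | ⟨h1, h2⟩)
        · exact Or.inl h1
        · refine Or.inr (Or.inl ⟨h2, fun h3 => hpv (h3.2 ((hp z).2 h1))⟩)
    rw [hset, Set.ncard_union_eq _ (Set.toFinite _) (Set.toFinite _)]
    rw [Set.disjoint_left]
    intro z h1 h2
    exact h2.1 (h.mem _ _ h1).2
  · have hpv : p v := (hp v).2 hv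
    have hF : ∀ z, ¬ F.Adj v z := fun z h1 => hv (h.mem _ _ h1).1
    have hT : (Subtype.val '' S.neighborSet ⟨v, hpv⟩).ncard = 2 := by
      rw [Set.ncard_image_of_injective _ Subtype.val_injective]
      exact hS2 _
    have hSadj : ∀ z (hz : p z), S.Adj ⟨v, hpv⟩ ⟨z, hz⟩ → G.Adj v z ∨ Mk G B F v z := by
      intro z hz h1
      rcases (hS h1).2 with h2 | h2
      · exact Or.inl h2
      · exact Or.inr ((hE _ _).1 h2)
    by_cases hnb : ∃ a ∈ B, G.Adj v a
    · obtain ⟨a, ha, hva⟩ := hnb
      obtain ⟨v', hv', huni⟩ := mk_unique h hv ha hva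
      have hpv' : p v' := (hp v').2 hv'.2.1
      have hSv' : S.Adj ⟨v, hpv⟩ ⟨v', hpv'⟩ := by
        have := hSE s(⟨v, hpv⟩, ⟨v', hpv'⟩) ((hE _ _).2 hv')
        exact this
      have hset : (Lift p G F S).neighborSet v =
          insert a ((Subtype.val '' S.neighborSet ⟨v, hpv⟩) \ {v'}) := by
        ext z
        simp only [SimpleGraph.mem_neighborSet, Set.mem_insert_iff, Set.mem_diff, Set.mem_image,
          Set.mem_singleton_iff]
        constructor
        · rintro (h1 | ⟨h1, h2⟩ | ⟨h1, hu, hz, h2⟩)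
          · exact absurd h1 (hF z)
          · left
            have hzB : z ∈ B := by
              by_contra h3
              exact h2 ⟨fun _ => (hp z).2 h3, fun _ => hpv⟩
            exact h.one v hv z hzB a ha h1 hva
          · right
            refine ⟨⟨⟨z, hz⟩, h2, rfl⟩, ?_⟩
            rintro rfl
            exact mk_notG h hv' h1
        · rintro (rfl | ⟨⟨⟨z', hz'⟩, h2, rfl⟩, h3⟩)
          · refine Or.inr (Or.inl ⟨hva, fun h3 => ?_⟩)
            exact (hp _).1 (h3.1 hpv) ha
          · refine Or.inr (Or.inr ?_)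
            rcases hSadj z' hz' h2 with h4 | h4
            · exact ⟨h4, hpv, hz', h2⟩
            · exact absurd (huni z' h4) h3
      rw [hset, Set.ncard_insert_of_notMem, Set.ncard_diff_singleton_of_mem, hT]
      · exact ⟨⟨v', hpv'⟩, hSv', rfl⟩
      · rintro ⟨⟨⟨z', hz'⟩, h2, h4⟩, h3⟩
        simp only at h4
        subst h4
        exact (hp _).1 hz' ha
    · have hset : (Lift p G F S).neighborSet v = Subtype.val '' S.neighborSet ⟨v, hpv⟩ := by
        ext z
        simp only [SimpleGraph.mem_neighborSet, Set.mem_image]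
        constructor
        · rintro (h1 | ⟨h1, h2⟩ | ⟨h1, hu, hz, h2⟩)
          · exact absurd h1 (hF z)
          · exfalso
            have hzB : z ∈ B := by
              by_contra h3
              exact h2 ⟨fun _ => (hp z).2 h3, fun _ => hpv⟩
            exact hnb ⟨z, hzB, h1⟩
          · exact ⟨⟨z, hz⟩, h2, rfl⟩
        · rintro ⟨⟨z', hz'⟩, h2, rfl⟩
          refine Or.inr (Or.inr ?_)
          rcases hSadj z' hz' h2 with h4 | h4
          · exact ⟨h4, hpv, hz', h2⟩
          · obtain ⟨-, -, -, a, ha, -, -, h5, -⟩ := h4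
            exact absurd ⟨a, ha, h5⟩ hnb
      rw [hset, hT]

/-- CLI7 (b).
PROOF. An edge `u v` of `S` is an edge of `G` (then it is an edge of `Lift`) or a mark: then there are `a, b ∈ B` with `G.Adj u a`, `G.Adj v b`,
`F.Reachable a b`: `u - a` and `b - v` are edges of `Lift` and `F ≤ Lift`, so `u` reaches `v` in `Lift`. So all vertices outside `B` reach each other
(`S` is connected). A vertex `a ∈ B` reaches in `F` a vertex `w ∈ B` of degree at most one in `F` (`reach`), which by `deg` has a neighbour outside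
`B`: so `a` reaches a vertex outside `B`. The type is nonempty as `S.Connected` gives a vertex outside `B`. -/
theorem lift_conn {κ : ℕ} {G : SimpleGraph V} {B : Finset V} {F : SimpleGraph V}
    (h : IsCut κ G B F) (p : V → Prop) (hp : ∀ v, p v ↔ v ∉ B) (E : Finset (Sym2 (Subtype p)))
    (hE : ∀ u v : Subtype p, s(u, v) ∈ E ↔ Mk G B F u.1 v.1) {S : SimpleGraph (Subtype p)}
    (hS : S ≤ G2 p G E) (hSc : S.Connected) : (Lift p G F S).Connected := by
  have hFL : F ≤ Lift p G F S := fun u v h1 => Or.inl h1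
  have hedge : ∀ u v : Subtype p, S.Adj u v → (Lift p G F S).Reachable u.1 v.1 := by
    intro u v huv
    rcases (hS huv).2 with h2 | h2
    · refine SimpleGraph.Adj.reachable ?_
      exact Or.inr (Or.inr ⟨h2, u.2, v.2, huv⟩)
    · obtain ⟨h3, h4, -, a, ha, b, hb, h5, h6, h7⟩ := (hE _ _).1 h2
      have e1 : (Lift p G F S).Adj u.1 a :=
        Or.inr (Or.inl ⟨h5, fun h8 => (hp a).1 (h8.1 u.2) ha⟩)
      have e2 : (Lift p G F S).Adj b v.1 :=
        Or.inr (Or.inl ⟨h6.symm, fun h8 => (hp b).1 (h8.2 v.2) hb⟩)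
      exact e1.reachable.trans ((h7.mono hFL).trans e2.reachable)
  have hout : ∀ u v : Subtype p, (Lift p G F S).Reachable u.1 v.1 := by
    intro u v
    obtain ⟨w⟩ := hSc.preconnected u v
    induction w with
    | nil => exact SimpleGraph.Reachable.refl _
    | cons hadj q ih => exact (hedge _ _ hadj).trans ih
  have hto : ∀ x, ∃ z : Subtype p, (Lift p G F S).Reachable x z.1 := by
    intro x
    by_cases hx : x ∈ B
    · obtain ⟨w, hw, h1, h2⟩ := h.reach x hx
      have h3 := h.deg w hw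
      have h4 : {z | z ∉ B ∧ G.Adj w z}.Nonempty := by
        rw [Set.nonempty_iff_ne_empty]
        intro h5
        rw [h5, Set.ncard_empty] at h3
        omega
      obtain ⟨z, hz1, hz2⟩ := h4
      have hpz : p z := (hp z).2 hz1
      refine ⟨⟨z, hpz⟩, (h1.mono hFL).trans (SimpleGraph.Adj.reachable ?_)⟩
      exact Or.inr (Or.inl ⟨hz2, fun h8 => (hp w).1 (h8.2 hpz) hw⟩)
    · exact ⟨⟨x, (hp x).2 hx⟩, SimpleGraph.Reachable.refl _⟩
  obtain ⟨z0⟩ := hSc.nonempty
  haveI : Nonempty V := ⟨z0.1⟩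
  refine ⟨fun x y => ?_⟩
  obtain ⟨z1, h1⟩ := hto x
  obtain ⟨z2, h2⟩ := hto y
  exact h1.trans ((hout z1 z2).trans h2.symm)

end Pool.Agent.H38H.CL
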