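import Pool.Agent.Lib.H38H.CLDefs

/-!
H38H, module CL, chunk CLI8.
-/

set_option autoImplicit false

namespace Pool.Agent.H38H.CL

open Classical

/-- CLI8. A connected spanning 2-regular subgraph is a Hamilton cycle.
PROOF. `S` satisfies `SimpleGraph.IsCycles`; take a vertex `v` and its component (everything): by
`SimpleGraph.IsCycles.exists_cycle_toSubgraph_verts_eq_connectedComponentSupp` there is a cycle `c` in `S` at `v` through all vertices. Its length is
the number of vertices (`SimpleGraph.Walk.isHamiltonianCycle_iff_isCycle_and_length_eq`, or count: the tail of the support is without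
repetitions (`IsCycle.support_nodup`) and contains every vertex). Map it to `G` (`SimpleGraph.IsHamiltonian.mono`). -/
theorem ham_of_two_regular {N : ℕ} {G S : SimpleGraph (Fin N)} (hS : S ≤ G)
    (h2 : ∀ v, (S.neighborSet v).ncard = 2) (hc : S.Connected) : G.IsHamiltonian := by
  have hcyc : S.IsCycles := fun v _ => h2 v
  obtain ⟨v⟩ := hc.nonempty
  have hn : (S.neighborSet v).Nonempty := by
    rw [Set.nonempty_iff_ne_empty]
    intro he
    have := h2 v
    rw [he, Set.ncard_empty] at this
    omega
  obtain ⟨p, hp, hps⟩ := hcyc.exists_cycle_toSubgraph_verts_eq_connectedComponentSupp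
    (c := S.connectedComponentMk v) (v := v) rfl hn
  have hmem : ∀ w, w ∈ p.support := by
    intro w
    rw [← SimpleGraph.Walk.mem_verts_toSubgraph, hps]
    exact SimpleGraph.ConnectedComponent.sound (hc.preconnected w v)
  have hH : S.IsHamiltonian := by
    intro _
    refine ⟨v, p, ?_⟩
    rw [SimpleGraph.Walk.isHamiltonianCycle_isCycle_and_isHamiltonian_tail]
    refine ⟨hp, ?_⟩
    have hnil : ¬ p.Nil := hp.not_nil
    apply SimpleGraph.Walk.IsPath.isHamiltonian_of_mem hp.isPath_tail
    intro w
    rw [SimpleGraph.Walk.support_tail_of_not_nil p hnil]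
    rcases (SimpleGraph.Walk.mem_support_iff p).1 (hmem w) with e | e
    · rw [e]
      exact SimpleGraph.Walk.end_mem_tail_support hnil
    · exact e
  convert hH.mono hS

end Pool.Agent.H38H.CL
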