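import Pool.Agent.Lib.H38H.CLI4
import Pool.Agent.Lib.H38H.CLI6
import Pool.Agent.Lib.H38H.CLI7
import Pool.Agent.Lib.H38H.CLI8
import Pool.Agent.Lib.H38H.CLH4

/-!
H38H, module CL, chunk CLI9.
-/

set_option autoImplicit false

namespace Pool.Agent.H38H.CL

open Classical

/-- CLI9 (a). PROOF. `Lift p G F S` is contained in `G` (`IsCut.le`), 2-regular (`lift_deg`), connected (`lift_conn`): `ham_of_two_regular`. -/
theorem ham_of_HC {κ N : ℕ} {G : SimpleGraph (Fin N)} (hG : Cubic G) {B : Finset (Fin N)}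
    {F : SimpleGraph (Fin N)} (h : IsCut κ G B F) (p : Fin N → Prop) (hp : ∀ v, p v ↔ v ∉ B)
    (E : Finset (Sym2 (Subtype p)))
    (hE : ∀ u v : Subtype p, s(u, v) ∈ E ↔ Mk G B F u.1 v.1) (hHC : HC (G2 p G E) E) :
    G.IsHamiltonian := by
  obtain ⟨S, hS, hS2, hSc, hSE⟩ := hHC
  refine ham_of_two_regular (S := Lift p G F S) ?_ (lift_deg hG h p hp E hE hS hS2 hSE)
    (lift_conn h p hp E hE hS hSc)
  intro u v huv
  rcases huv with h1 | h1 | h1
  · exact h.le h1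
  · exact h1.1
  · exact h1.1

/-- CLI9 (b). Every bad graph without small sets of excess three has a code.
PROOF. `cut_exists`, `code_exists`, and with `p = fun v => v ∉ Set.range g`: `cut_marks`, `mk_notG`, `cut_cubic`, `cut_nice`, `ham_of_HC`
(`G` is not Hamiltonian). -/
theorem rel_exists {N : ℕ} (κ : ℕ) (hN : 6 ≤ N) {G : SimpleGraph (Fin N)} (hG : Bad G)
    (h3 : ∀ W : Finset (Fin N), W.card ≤ k3 κ → eIn G W ≤ W.card + 2) :
    ∃ b m : ℕ, b ≤ 2 * k2 κ ∧ 2 * m ≤ b ∧ Even b ∧ ∃ d : Code b m N, Rel κ d G := by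
  obtain ⟨B, F, h, hB⟩ := cut_exists κ hN hG h3
  obtain ⟨m, g, Q, f, h1, h2, h4, h5, h6, h7, h8, h9⟩ := code_exists hG.1 h
  have hp : ∀ v, (fun v => v ∉ Set.range g) v ↔ v ∉ B := fun v => not_congr (h5 v)
  refine ⟨B.card, m, hB, h1, h2, (g, Q, f), ⟨h4, h6, h7, ?_, h9, ?_, ?_, ?_, ?_⟩⟩
  · exact cut_marks h _ hp _ h8
  · intro u v huv
    exact mk_notG h ((h8 u v).1 huv)
  · exact cut_cubic hG.1 h _ hp _ h8
  · exact cut_nice h _ hp _ h8
  · intro hHC
    have := ham_of_HC hG.1 h _ hp _ h8 hHC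
    exact hG.2.2.1 (by convert this)

end Pool.Agent.H38H.CL
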