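import Pool.Agent.Lib.H38H.CLDefs

/-!
H38H, module CL, chunk CLJ1.
-/

set_option autoImplicit false

namespace Pool.Agent.H38H.CL

open Classical

/-- CLJ1 (a). PROOF. `N` even, `N ≥ 4`: `3 N - 1 = (3 (N - 2) - 1) + 6`, so `(3N-1)!! = (3N-1)(3N-3)(3N-5) (3(N-2)-1)!!`
(`Nat.doubleFactorial_add_two` three times), and each of the three factors is at least `N`. `6^N = 36 * 6^(N-2)`. -/
theorem X_step {N : ℕ} (hN : 4 ≤ N) : X (N - 2) * (N : ℝ) ^ 3 ≤ 36 * X N := by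
  obtain ⟨M, rfl⟩ : ∃ M, N = M + 4 := ⟨N - 4, by omega⟩
  have e1 : 3 * (M + 4) - 1 = 3 * M + 11 := by omega
  have e2 : M + 4 - 2 = M + 2 := by omega
  have e3 : 3 * (M + 2) - 1 = 3 * M + 5 := by omega
  have hf : (3 * M + 11).doubleFactorial =
      (3 * M + 11) * ((3 * M + 9) * ((3 * M + 7) * (3 * M + 5).doubleFactorial)) := by
    rw [Nat.doubleFactorial_add_two (3 * M + 9), Nat.doubleFactorial_add_two (3 * M + 7),
      Nat.doubleFactorial_add_two (3 * M + 5)]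
  unfold X
  rw [e2, e1, e3, hf]
  push_cast
  have hd : (0 : ℝ) < ((3 * M + 5).doubleFactorial : ℝ) := by positivity
  obtain ⟨D, hD⟩ : ∃ D : ℝ, D = ((3 * M + 5).doubleFactorial : ℝ) := ⟨_, rfl⟩
  rw [← hD] at hd ⊢
  have hM : (0 : ℝ) ≤ (M : ℝ) := Nat.cast_nonneg _
  have h6 : (6 : ℝ) ^ (M + 4) = 36 * 6 ^ (M + 2) := by
    rw [pow_add, pow_add]
    ring
  rw [h6, div_mul_eq_mul_div, div_le_iff₀ (by positivity)]
  have h7 : 36 * ((3 * (M : ℝ) + 11) * ((3 * (M : ℝ) + 9) *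
      ((3 * (M : ℝ) + 7) * D)) / (36 * 6 ^ (M + 2))) *
      6 ^ (M + 2) = ((3 * (M : ℝ) + 11) * ((3 * (M : ℝ) + 9) *
      (3 * (M : ℝ) + 7))) * D := by
    field_simp
  rw [h7, mul_comm D]
  refine mul_le_mul_of_nonneg_right ?_ hd.le
  have a1 : (M : ℝ) + 4 ≤ 3 * (M : ℝ) + 11 := by linarith
  have a2 : (M : ℝ) + 4 ≤ 3 * (M : ℝ) + 9 := by linarith
  have a3 : (M : ℝ) + 4 ≤ 3 * (M : ℝ) + 7 := by linarith
  have a0 : (0 : ℝ) ≤ (M : ℝ) + 4 := by linarith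
  calc ((M : ℝ) + 4) ^ 3 = ((M : ℝ) + 4) * (((M : ℝ) + 4) * ((M : ℝ) + 4)) := by ring
    _ ≤ _ := mul_le_mul a1 (mul_le_mul a2 a3 a0 (by linarith)) (by positivity) (by linarith)

/-- CLJ1 (b). PROOF. Induction on `j`: with (a) for `N - 2 j`, `N - 2 j ≥ N / 2`, so `(N - 2 j)^3 ≥ N^3 / 8`:
`X (N - 2 (j + 1)) * N^(3 (j + 1)) ≤ 288 * X (N - 2 j) * N^(3 j)`. -/
theorem X_shift (j : ℕ) {N : ℕ} (hN : 4 * j + 8 ≤ N) :
    X (N - 2 * j) * (N : ℝ) ^ (3 * j) ≤ 288 ^ j * X N := by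
  induction j with
  | zero => simp
  | succ j ih =>
    have ih' := ih (by omega)
    have e1 : N - 2 * (j + 1) = N - 2 * j - 2 := by omega
    have h1 := X_step (N := N - 2 * j) (by omega)
    have hx : 0 ≤ X (N - 2 * (j + 1)) := by
      unfold X
      positivity
    rw [← e1] at h1
    have h2 : (N : ℝ) ≤ 2 * ((N - 2 * j : ℕ) : ℝ) := by
      have : N ≤ 2 * (N - 2 * j) := by omega
      exact_mod_cast this
    have h0 : (0 : ℝ) ≤ (N : ℝ) := Nat.cast_nonneg _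
    have h3 : (N : ℝ) ^ 3 ≤ 8 * ((N - 2 * j : ℕ) : ℝ) ^ 3 := by
      calc (N : ℝ) ^ 3 ≤ (2 * ((N - 2 * j : ℕ) : ℝ)) ^ 3 := pow_le_pow_left₀ h0 h2 3
        _ = 8 * ((N - 2 * j : ℕ) : ℝ) ^ 3 := by ring
    calc X (N - 2 * (j + 1)) * (N : ℝ) ^ (3 * (j + 1))
        = (X (N - 2 * (j + 1)) * (N : ℝ) ^ 3) * (N : ℝ) ^ (3 * j) := by ring
      _ ≤ (X (N - 2 * (j + 1)) * (8 * ((N - 2 * j : ℕ) : ℝ) ^ 3)) * (N : ℝ) ^ (3 * j) := by
          exact mul_le_mul_of_nonneg_right (mul_le_mul_of_nonneg_left h3 hx) (by positivity)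
      _ = 8 * (X (N - 2 * (j + 1)) * ((N - 2 * j : ℕ) : ℝ) ^ 3) * (N : ℝ) ^ (3 * j) := by ring
      _ ≤ 8 * (36 * X (N - 2 * j)) * (N : ℝ) ^ (3 * j) := by
          exact mul_le_mul_of_nonneg_right (mul_le_mul_of_nonneg_left h1 (by norm_num)) (by positivity)
      _ = 288 * (X (N - 2 * j) * (N : ℝ) ^ (3 * j)) := by ring
      _ ≤ 288 * (288 ^ j * X N) := by
          exact mul_le_mul_of_nonneg_left ih' (by norm_num)
      _ = 288 ^ (j + 1) * X N := by ring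

/-- CLJ1 (c). -/
theorem X_pos (N : ℕ) : 0 < X N := by
  unfold X
  positivity

end Pool.Agent.H38H.CL
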