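import Pool.Agent.Lib.H38H.CLJ1

/-!
H38H, module CL, chunk CLJ2.
-/

set_option autoImplicit false

namespace Pool.Agent.H38H.CL

open Classical

/-- CLJ2. The numerical bound for one pair `(b, m)`.
PROOF. `b = 2 j`, `m ≤ j`. For `N ≥ N0 = 4 j + 8 + 2 b`: `N - b ≥ N / 2`, so `(C / (N - b))^m ≤ (2 |C| / N)^m`, `1 / (N - b)^A ≤ 2^A / N^A`, and
`X (N - b) ≤ 288^j X N / N^(3 j)` (`X_shift`). So the left side is at most
`K b^(2 m) (2 |C|)^m 2^A 288^j * N^(2 j) N^(2 m) N^(-m) N^(-3 j) * X N / N^A`, and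
`2 j + 2 m - m - 3 j = m - j ≤ 0`, so the power of `N` is at most `1`. Take `C' = K b^(2 m) (2 |C|)^m 2^A 288^j`. -/
theorem count_bound (b m A : ℕ) (hb : Even b) (hm : 2 * m ≤ b) (C K : ℝ) (hK : 0 ≤ K) :
    ∃ C' : ℝ, 0 ≤ C' ∧ ∃ N₀ : ℕ, ∀ N : ℕ, N₀ ≤ N →
      ((N : ℝ) ^ b * K * ((b * N : ℝ) * (b * N : ℝ)) ^ m) *
        ((|C| / ((N - b : ℕ) : ℝ)) ^ m * X (N - b) / ((N - b : ℕ) : ℝ) ^ A) ≤
        C' * X N / (N : ℝ) ^ A := by
  obtain ⟨j, rfl⟩ := hb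
  have hmj : m ≤ j := by omega
  refine ⟨K * ((j + j : ℕ) : ℝ) ^ (2 * m) * (2 * |C|) ^ m * 2 ^ A * 288 ^ j, by positivity,
    4 * j + 8 + 2 * (j + j), fun N hN => ?_⟩
  have hN1 : 1 ≤ N := by omega
  have hNr : (1 : ℝ) ≤ N := by exact_mod_cast hN1
  have hN0 : (0 : ℝ) < N := by linarith
  have hX : X (N - (j + j)) * (N : ℝ) ^ (3 * j) ≤ 288 ^ j * X N := by
    have := X_shift j (N := N) (by omega)
    rwa [two_mul] at this
  have hn : (N : ℝ) ≤ 2 * ((N - (j + j) : ℕ) : ℝ) := by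
    have : N ≤ 2 * (N - (j + j)) := by omega
    exact_mod_cast this
  have hXp : 0 < X (N - (j + j)) := X_pos _
  generalize hX' : X (N - (j + j)) = x at hX hXp ⊢
  generalize ((N - (j + j) : ℕ) : ℝ) = n at hn ⊢
  have hn0 : 0 < n := by linarith
  have hC : 0 ≤ |C| := abs_nonneg C
  have h1 : |C| / n ≤ 2 * |C| / N := by
    rw [div_le_div_iff₀ hn0 hN0]
    nlinarith
  have h2 : (|C| / n) ^ m ≤ (2 * |C| / N) ^ m := pow_le_pow_left₀ (by positivity) h1 m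
  have h3 : (N : ℝ) ^ A ≤ 2 ^ A * n ^ A := by
    rw [← mul_pow]
    exact pow_le_pow_left₀ hN0.le hn A
  have h4 : x ≤ 288 ^ j * X N / (N : ℝ) ^ (3 * j) := by
    rw [le_div_iff₀ (by positivity)]
    exact hX
  have hXN : 0 < X N := X_pos N
  have h5 : (|C| / n) ^ m * x / n ^ A ≤
      (2 * |C| / N) ^ m * (288 ^ j * X N / (N : ℝ) ^ (3 * j)) * (2 ^ A / (N : ℝ) ^ A) := by
    rw [div_eq_mul_inv]
    have h6 : (n ^ A)⁻¹ ≤ 2 ^ A / (N : ℝ) ^ A := by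
      rw [inv_eq_one_div, div_le_div_iff₀ (by positivity) (by positivity), one_mul]
      exact h3
    exact mul_le_mul (mul_le_mul h2 h4 hXp.le (by positivity)) h6 (by positivity) (by positivity)
  have h7 : (N : ℝ) ^ (j + j) * (N : ℝ) ^ (2 * m) ≤ (N : ℝ) ^ m * (N : ℝ) ^ (3 * j) := by
    rw [← pow_add, ← pow_add]
    exact pow_le_pow_right₀ hNr (by omega)
  calc _ ≤ ((N : ℝ) ^ (j + j) * K * ((((j + j : ℕ) : ℝ) * N) * (((j + j : ℕ) : ℝ) * N)) ^ m) *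
        ((2 * |C| / N) ^ m * (288 ^ j * X N / (N : ℝ) ^ (3 * j)) * (2 ^ A / (N : ℝ) ^ A)) :=
        mul_le_mul_of_nonneg_left h5 (by positivity)
    _ = (K * ((j + j : ℕ) : ℝ) ^ (2 * m) * (2 * |C|) ^ m * 2 ^ A * 288 ^ j * X N / (N : ℝ) ^ A) *
        (((N : ℝ) ^ (j + j) * (N : ℝ) ^ (2 * m)) / ((N : ℝ) ^ m * (N : ℝ) ^ (3 * j))) := by
        rw [div_pow, mul_pow, mul_pow, mul_pow, pow_mul ((j + j : ℕ) : ℝ) 2 m, pow_mul (N : ℝ) 2 m, sq, sq,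
          mul_pow, mul_pow]
        field_simp
    _ ≤ (K * ((j + j : ℕ) : ℝ) ^ (2 * m) * (2 * |C|) ^ m * 2 ^ A * 288 ^ j * X N / (N : ℝ) ^ A) * 1 := by
        refine mul_le_mul_of_nonneg_left ?_ (by positivity)
        rw [div_le_one (by positivity)]
        exact h7
    _ = _ := by ring

end Pool.Agent.H38H.CL
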