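import Pool.Agent.Lib.H38H.CLDefs

/-!
H38H, module CL, chunk CLJ3.
-/

set_option autoImplicit false

namespace Pool.Agent.H38H.CL

open Classical

theorem CLJ3_adj {κ b m N : ℕ} (d : Code b m N) {G : SimpleGraph (Fin N)} (h : Rel κ d G)
    {u v : Fin N} (hu : u ∉ Set.range d.1) (hv : v ∉ Set.range d.1) :
    G.Adj u v ↔ ((G2 (fun v => v ∉ Set.range d.1) G (markSet d.1 d.2.2)).Adj ⟨u, hu⟩ ⟨v, hv⟩ ∧
      s((⟨u, hu⟩ : {v : Fin N // v ∉ Set.range d.1}), (⟨v, hv⟩ : {v : Fin N // v ∉ Set.range d.1}))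
        ∉ markSet d.1 d.2.2) := by
  constructor
  · intro ha
    refine ⟨⟨?_, Or.inl ha⟩, ?_⟩
    · intro he
      exact ha.ne (congrArg Subtype.val he)
    · intro hm
      exact h.notG _ _ hm ha
  · rintro ⟨⟨-, ha | ha⟩, hm⟩
    · exact ha
    · exact absurd ha hm

/-- CLJ3 (a). For a fixed code, `G` is determined by the graph outside.
PROOF. Let `G`, `G'` have the code `d` and the same `G2`. For vertices `u`, `v`: both in the range of `d.1`: `inner`. Exactly one: `leave`. None: `G.Adj u v`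
iff `(G2 ..).Adj u v` and `s(u, v)` is not in `markSet` (`notG`), same for `G'`. -/
theorem code_inj {κ b m N : ℕ} (d : Code b m N) {G G' : SimpleGraph (Fin N)} (h : Rel κ d G)
    (h' : Rel κ d G') (he : G2 (fun v => v ∉ Set.range d.1) G (markSet d.1 d.2.2) =
      G2 (fun v => v ∉ Set.range d.1) G' (markSet d.1 d.2.2)) : G = G' := by
  ext u v
  by_cases hu : u ∈ Set.range d.1
  · obtain ⟨i, rfl⟩ := hu
    by_cases hv : v ∈ Set.range d.1
    · obtain ⟨j, rfl⟩ := hv
      rw [h.inner, h'.inner]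
    · rw [h.leave i v hv, h'.leave i v hv]
  · by_cases hv : v ∈ Set.range d.1
    · obtain ⟨j, rfl⟩ := hv
      rw [G.adj_comm, G'.adj_comm, h.leave j u hu, h'.leave j u hu]
    · rw [CLJ3_adj d h hu hv, CLJ3_adj d h' hu hv, he]

/-- CLJ3 (b). The number of graphs with a given code.
PROOF. If there is no such graph the left side is `0` and the right side is `≥ 0`. Otherwise `d.1` is injective, so
`{v // v ∉ Set.range d.1}` has `N - b` elements, `Marks (markSet ..)`, `(markSet ..).card = m` (take them from some `G` with `Rel κ d G`). `hH` for this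
type (with some `Fintype` instance) and `E = markSet d.1 d.2.2` bounds the number of `G''` which are cubic, contain `E`, `Nice`, without `HC`; `G ↦ G2 .. G ..` maps the graphs with
code `d` into this set (it contains the marks: `G2` by definition, the marks are not diagonal) and is injective by (a): `Nat.card_le_card_of_injective`.
Finally `(C / x)^m ≤ (|C| / x)^m`. -/
theorem code_count {κ b m N : ℕ} (A : ℕ) (C : ℝ) (d : Code b m N)
    (hH : ∀ (V : Type) [Fintype V], Fintype.card V = N - b →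
      ∀ E : Finset (Sym2 V), Marks E → E.card = m →
      (Nat.card {G : SimpleGraph V // Cubic G ∧ (∀ e ∈ E, e ∈ G.edgeSet) ∧ Nice κ G E ∧ ¬ HC G E} : ℝ)
        ≤ (C / ((N - b : ℕ) : ℝ)) ^ E.card * X (N - b) / ((N - b : ℕ) : ℝ) ^ A) :
    (Nat.card {G : SimpleGraph (Fin N) // Rel κ d G} : ℝ) ≤
      (|C| / ((N - b : ℕ) : ℝ)) ^ m * X (N - b) / ((N - b : ℕ) : ℝ) ^ A := by
  have hX : 0 ≤ X (N - b) := by
    unfold X
    positivity
  by_cases hne : ∃ G, Rel κ d G
  swap
  · have h0 : Nat.card {G : SimpleGraph (Fin N) // Rel κ d G} = 0 := by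
      have : IsEmpty {G : SimpleGraph (Fin N) // Rel κ d G} := ⟨fun G => hne ⟨G.1, G.2⟩⟩
      exact Nat.card_of_isEmpty
    rw [h0]
    push_cast
    positivity
  obtain ⟨G₀, h₀⟩ := hne
  have hcard : Fintype.card {v : Fin N // v ∉ Set.range d.1} = N - b := by
    have h1 : Fintype.card {v : Fin N // v ∈ Set.range d.1} = b := by
      rw [Fintype.card_subtype]
      have : (Finset.univ.filter (fun v => v ∈ Set.range d.1)) = Finset.univ.image d.1 := by
        ext v
        simp
      rw [this, Finset.card_image_of_injective _ h₀.inj]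
      simp
    rw [Fintype.card_subtype_compl, h1, Fintype.card_fin]
  have h1 := hH {v : Fin N // v ∉ Set.range d.1} hcard (markSet d.1 d.2.2) h₀.marks h₀.card
  have h2 : Nat.card {G : SimpleGraph (Fin N) // Rel κ d G} ≤
      Nat.card {G : SimpleGraph {v : Fin N // v ∉ Set.range d.1} // Cubic G ∧
        (∀ e ∈ markSet d.1 d.2.2, e ∈ G.edgeSet) ∧ Nice κ G (markSet d.1 d.2.2) ∧
        ¬ HC G (markSet d.1 d.2.2)} := by
    refine Nat.card_le_card_of_injective (fun G =>
      ⟨G2 (fun v => v ∉ Set.range d.1) G.1 (markSet d.1 d.2.2),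
        G.2.cubic, ?_, G.2.nice, G.2.noHC⟩) ?_
    · intro e
      induction e using Sym2.ind with
      | _ x y =>
        intro hxy
        refine ⟨?_, Or.inr hxy⟩
        intro hd
        exact h₀.marks.1 _ hxy (by rw [Sym2.mk_isDiag_iff]; exact hd)
    · intro G G' hGG
      have h3 := congrArg Subtype.val hGG
      exact Subtype.ext (code_inj d G.2 G'.2 h3)
  have h3 : (Nat.card {G : SimpleGraph (Fin N) // Rel κ d G} : ℝ) ≤
      (C / ((N - b : ℕ) : ℝ)) ^ (markSet d.1 d.2.2).card * X (N - b) / ((N - b : ℕ) : ℝ) ^ A :=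
    le_trans (by exact_mod_cast h2) h1
  rw [h₀.card] at h3
  refine h3.trans ?_
  have h4 : (C / ((N - b : ℕ) : ℝ)) ^ m ≤ (|C| / ((N - b : ℕ) : ℝ)) ^ m := by
    refine (le_abs_self _).trans ?_
    rw [abs_pow, abs_div, Nat.abs_cast]
  gcongr

end Pool.Agent.H38H.CL
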