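import Pool.Agent.Lib.H38H.CLJ2
import Pool.Agent.Lib.H38H.CLJ3

/-!
H38H, module CL, chunk CLJ4.
-/

set_option autoImplicit false

namespace Pool.Agent.H38H.CL

open Classical

/-- CLJ4 (a). Number of codes.
PROOF. `Nat.card_prod`, `Nat.card_fun`, `Nat.card_fin`. -/
theorem card_code (b m N : ℕ) : Nat.card (Code b m N) =
    N ^ b * (Nat.card (SimpleGraph (Fin b)) * ((b * N) * (b * N)) ^ m) := by
  unfold Code
  rw [Nat.card_prod, Nat.card_prod, Nat.card_fun, Nat.card_fun, Nat.card_prod, Nat.card_prod]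
  simp only [Nat.card_eq_fintype_card, Fintype.card_fin]

/-- CLJ4 (b). The number of graphs having a code with parameters `b`, `m`.
PROOF. The set is the union over `d : Code b m N` of `{G // Rel κ d G}`, so its cardinality is at most the sum
(`Set.ncard_iUnion_le`, `Finset.card_biUnion_le`), which by `code_count` is at most `Nat.card (Code b m N)` times the bound. `card_code`, then `count_bound` with
`K = Nat.card (SimpleGraph (Fin b))`. `N₀` from `count_bound` plus `N₁ + b` so that `N - b ≥ N₁`; `N - b` is even. -/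
theorem pair_count (κ b m A : ℕ) (hb : Even b) (hm : 2 * m ≤ b) (C : ℝ) (N₁ : ℕ)
    (hH : ∀ N : ℕ, N₁ ≤ N → Even N → ∀ (V : Type) [Fintype V], Fintype.card V = N →
      ∀ E : Finset (Sym2 V), Marks E → E.card = m →
      (Nat.card {G : SimpleGraph V // Cubic G ∧ (∀ e ∈ E, e ∈ G.edgeSet) ∧ Nice κ G E ∧ ¬ HC G E} : ℝ)
        ≤ (C / (N : ℝ)) ^ E.card * X N / (N : ℝ) ^ A) :
    ∃ C' : ℝ, 0 ≤ C' ∧ ∃ N₀ : ℕ, ∀ N : ℕ, N₀ ≤ N → Even N →
      (Nat.card {G : SimpleGraph (Fin N) // ∃ d : Code b m N, Rel κ d G} : ℝ) ≤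
        C' * X N / (N : ℝ) ^ A := by
  obtain ⟨C', hC', N₀, hN₀⟩ := count_bound b m A hb hm C
    (Nat.card (SimpleGraph (Fin b)) : ℝ) (Nat.cast_nonneg _)
  refine ⟨C', hC', N₀ + N₁ + b, fun N hN hev => ?_⟩
  have h1 : (Nat.card {G : SimpleGraph (Fin N) // ∃ d : Code b m N, Rel κ d G}) ≤
      ∑ d : Code b m N, Nat.card {G : SimpleGraph (Fin N) // Rel κ d G} := by
    rw [← Nat.card_sigma]
    refine Nat.card_le_card_of_injective (fun G =>
      (⟨G.2.choose, G.1, G.2.choose_spec⟩ :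
        Σ d : Code b m N, {G : SimpleGraph (Fin N) // Rel κ d G})) ?_
    intro G G' hGG
    have h3 := congrArg (fun x : (Σ d : Code b m N, {G : SimpleGraph (Fin N) // Rel κ d G}) =>
      x.2.1) hGG
    exact Subtype.ext h3
  have h2 : ∀ d : Code b m N, (Nat.card {G : SimpleGraph (Fin N) // Rel κ d G} : ℝ) ≤
      (|C| / ((N - b : ℕ) : ℝ)) ^ m * X (N - b) / ((N - b : ℕ) : ℝ) ^ A := fun d =>
    code_count A C d (hH (N - b) (by omega) ((Nat.even_sub (by omega)).2 (by simp [hev, hb])))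
  have h3 : (Nat.card {G : SimpleGraph (Fin N) // ∃ d : Code b m N, Rel κ d G} : ℝ) ≤
      (Nat.card (Code b m N) : ℝ) *
        ((|C| / ((N - b : ℕ) : ℝ)) ^ m * X (N - b) / ((N - b : ℕ) : ℝ) ^ A) := by
    have h4 : (Nat.card {G : SimpleGraph (Fin N) // ∃ d : Code b m N, Rel κ d G} : ℝ) ≤
        ∑ d : Code b m N, (Nat.card {G : SimpleGraph (Fin N) // Rel κ d G} : ℝ) := by
      exact_mod_cast h1
    refine h4.trans ((Finset.sum_le_sum (fun d _ => h2 d)).trans ?_)
    rw [Finset.sum_const, nsmul_eq_mul, Finset.card_univ, Nat.card_eq_fintype_card]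
  refine h3.trans ?_
  have h5 := hN₀ N (by omega)
  rw [card_code]
  push_cast
  rw [← mul_assoc]
  exact h5

end Pool.Agent.H38H.CL
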