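import Pool.Agent.Lib.H38H.CLJ4
import Pool.Agent.Lib.H38H.CLI9

/-!
H38H, module CL, chunk CLJ5.
-/

set_option autoImplicit false

namespace Pool.Agent.H38H.CL

open Classical

theorem clj5_union {α ι : Type} [Finite α] (p p₁ : α → Prop) (P : Finset ι) (q : ι → α → Prop)
    (h : ∀ x, p x → p₁ x ∨ ∃ i ∈ P, q i x) :
    Nat.card {x // p x} ≤ Nat.card {x // p₁ x} + ∑ i ∈ P, Nat.card {x // q i x} := by
  have : Fintype α := Fintype.ofFinite α
  have hc : ∀ r : α → Prop, Nat.card {x // r x} = (Finset.univ.filter r).card := by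
    intro r
    rw [Nat.card_eq_fintype_card, Fintype.card_subtype]
  rw [hc, hc, Finset.sum_congr rfl (fun i _ => hc (q i))]
  refine le_trans (Finset.card_le_card
    (t := Finset.univ.filter p₁ ∪ P.biUnion (fun i => Finset.univ.filter (q i))) ?_) ?_
  · intro x hx
    rw [Finset.mem_filter] at hx
    rw [Finset.mem_union, Finset.mem_filter, Finset.mem_biUnion]
    rcases h x hx.2 with h1 | ⟨i, hi, h1⟩
    · exact Or.inl ⟨Finset.mem_univ _, h1⟩
    · exact Or.inr ⟨i, hi, Finset.mem_filter.2 ⟨Finset.mem_univ _, h1⟩⟩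
  · exact le_trans (Finset.card_union_le _ _) (Nat.add_le_add_left Finset.card_biUnion_le _)

/-- CLJ5, the theorem of the module.
PROOF. `TheoremH` for `A = 3` gives `κ`; for `m₀ = 2 * k2 κ` it gives `C`, `N₁`. `FirstMoment` for `k = k3 κ`, `j = 3` bounds the number of cubic graphs with
a set `W`, `|W| ≤ k3 κ`, `|W| + 3 ≤ eIn G W`. A bad graph on `N ≥ 6` vertices is one of these, or by `rel_exists` it has a code with parameters
`b ≤ 2 * k2 κ`, `2 m ≤ b`, `b` even. So `#Bad ≤` first moment bound `+ ∑ b < 2 k2 + 1, ∑ m < b + 1` (over the admissible pairs) of the bound of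
`pair_count` (finitely many pairs: take the maximum of the `N₀` and the sum of the `C'`, for example by induction or by choosing functions
`C' b m`, `N₀ b m` and using `Finset.sum` and `Finset.sup`). -/
theorem fewBad_of (h1 : TheoremH) (h2 : FirstMoment) : FewBad := by
  obtain ⟨κ, hκ⟩ := h1 3
  obtain ⟨C, N₁, hH⟩ := hκ (2 * k2 κ)
  obtain ⟨C₁, N₂, hF⟩ := h2 (k3 κ) 3
  have key : ∀ q : ℕ × ℕ, ∃ C' : ℝ, ∃ N₀ : ℕ, q.1 ≤ 2 * k2 κ → 2 * q.2 ≤ q.1 → Even q.1 →
      ∀ N : ℕ, N₀ ≤ N → Even N →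
        (Nat.card {G : SimpleGraph (Fin N) // ∃ d : Code q.1 q.2 N, Rel κ d G} : ℝ) ≤
          C' * X N / (N : ℝ) ^ 3 := by
    intro q
    by_cases hq : q.1 ≤ 2 * k2 κ ∧ 2 * q.2 ≤ q.1 ∧ Even q.1
    · obtain ⟨C', -, N₀, h3⟩ := pair_count κ q.1 q.2 3 hq.2.2 hq.2.1 C N₁
        (fun N hN hev V _ hV E hE hEm => hH N hN hev V hV E hE (by omega))
      exact ⟨C', N₀, fun _ _ _ => h3⟩
    · exact ⟨0, 0, fun a b c => absurd ⟨a, b, c⟩ hq⟩
  choose C' N₀ hC using key
  set P : Finset (ℕ × ℕ) :=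
    ((Finset.range (2 * k2 κ + 1)) ×ˢ (Finset.range (2 * k2 κ + 1))).filter
      (fun q => 2 * q.2 ≤ q.1 ∧ Even q.1) with hP
  have hPm : ∀ q ∈ P, q.1 ≤ 2 * k2 κ ∧ 2 * q.2 ≤ q.1 ∧ Even q.1 := by
    intro q hq
    rw [hP, Finset.mem_filter, Finset.mem_product, Finset.mem_range, Finset.mem_range] at hq
    exact ⟨by omega, hq.2.1, hq.2.2⟩
  refine ⟨C₁ + ∑ q ∈ P, C' q, max (max 6 N₂) (P.sup N₀), fun N hN hev => ?_⟩
  have hN6 : 6 ≤ N := le_trans (le_trans (le_max_left _ _) (le_max_left _ _)) hN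
  have hN2 : N₂ ≤ N := le_trans (le_trans (le_max_right _ _) (le_max_left _ _)) hN
  have hNP : P.sup N₀ ≤ N := le_trans (le_max_right _ _) hN
  have hun := clj5_union (α := SimpleGraph (Fin N)) (fun G => Bad G)
    (fun G => Cubic G ∧ ∃ W : Finset (Fin N), W.card ≤ k3 κ ∧ W.card + 3 ≤ eIn G W) P
    (fun q G => ∃ d : Code q.1 q.2 N, Rel κ d G) (by
      intro G hG
      by_cases h3 : ∀ W : Finset (Fin N), W.card ≤ k3 κ → eIn G W ≤ W.card + 2
      · right
        obtain ⟨b, m, hb, hm, hbe, d, hd⟩ := rel_exists κ hN6 hG h3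
        refine ⟨(b, m), ?_, d, hd⟩
        rw [hP, Finset.mem_filter, Finset.mem_product, Finset.mem_range, Finset.mem_range]
        exact ⟨⟨by show b < _; omega, by show m < _; omega⟩, hm, hbe⟩
      · left
        push Not at h3
        obtain ⟨W, hW, hW3⟩ := h3
        exact ⟨hG.1, W, hW, by omega⟩)
  have hun' : (Nat.card {G : SimpleGraph (Fin N) // Bad G} : ℝ) ≤
      (Nat.card {G : SimpleGraph (Fin N) // Cubic G ∧
        ∃ W : Finset (Fin N), W.card ≤ k3 κ ∧ W.card + 3 ≤ eIn G W} : ℝ) +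
      ∑ q ∈ P, (Nat.card {G : SimpleGraph (Fin N) // ∃ d : Code q.1 q.2 N, Rel κ d G} : ℝ) := by
    exact_mod_cast hun
  refine le_trans hun' ?_
  rw [add_mul, add_div, Finset.sum_mul, Finset.sum_div]
  refine add_le_add (hF N hN2 hev) (Finset.sum_le_sum fun q hq => ?_)
  obtain ⟨ha, hb, hc⟩ := hPm q hq
  exact hC q ha hb hc N (le_trans (Finset.le_sup hq) hNP) hev

end Pool.Agent.H38H.CL
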