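import Mathlib

/-!
Chunk SLNU (M). The scale `g = floor(n^(1/1000))`.

Proofs. `Nat.findGreatest` gives the two inequalities (for `gg_lt`: if `(gg n + 1)^1000 ≤ n` then `gg n + 1 ≤ n` and maximality is violated).
`gg` is monotone and `gg (m^1000) = m`. `log_le_gg`: `log n < 1000 log (gg n + 1)`, and `C * (1000 log (x+1))^k ≤ x` for large `x`
(`Real.isLittleO_log_id_atTop`, `isLittleO_log_rpow_atTop` or `Real.add_pow_le_pow_mul_pow_of_sq_le_sq`..: any proof), and `gg n → ∞`.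
`n_le`: `(g+1)^1000 ≤ 2 g^1000` for `g ≥ 2000` (`(1+1/g)^1000 ≤ exp(1000/g) ≤ exp(1/2) ≤ 2`).
-/

set_option autoImplicit false

namespace Pool.Agent.H38H

/-- the scale -/
noncomputable def gg (n : ℕ) : ℕ := Nat.findGreatest (fun g => g ^ 1000 ≤ n) n

theorem gg_le (n : ℕ) (hn : 1 ≤ n) : gg n ^ 1000 ≤ n := by
  have h0 : (fun g : ℕ => g ^ 1000 ≤ n) 0 := by
    change 0 ^ 1000 ≤ n
    rw [zero_pow (by norm_num)]
    exact Nat.zero_le n
  exact Nat.findGreatest_spec (P := fun g : ℕ => g ^ 1000 ≤ n) (Nat.zero_le n) h0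

theorem gg_lt (n : ℕ) : n < (gg n + 1) ^ 1000 := by
  by_contra hc
  rw [not_lt] at hc
  have h1 : gg n + 1 ≤ n := (Nat.le_self_pow (by norm_num) _).trans hc
  have h2 : gg n + 1 ≤ gg n :=
    Nat.le_findGreatest (P := fun g : ℕ => g ^ 1000 ≤ n) h1 hc
  omega

theorem gg_ge {m n : ℕ} (h : m ^ 1000 ≤ n) : m ≤ gg n :=
  Nat.le_findGreatest (P := fun g : ℕ => g ^ 1000 ≤ n) ((Nat.le_self_pow (by norm_num) _).trans h) h

theorem gg_tendsto : ∀ m : ℕ, ∃ n₀ : ℕ, ∀ n : ℕ, n₀ ≤ n → m ≤ gg n := by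
  intro m
  exact ⟨m ^ 1000, fun n hn => gg_ge hn⟩

theorem nu_exp_half : Real.exp (1 / 2) ≤ 2 := by
  have h2 : Real.exp (1 / 2) * Real.exp (1 / 2) = Real.exp 1 := by
    rw [← Real.exp_add]
    norm_num
  have h3 := Real.exp_one_lt_d9
  have h4 := Real.exp_pos (1 / 2)
  by_contra hc
  rw [not_le] at hc
  nlinarith

theorem nu_frac {g : ℝ} (hg : 2000 ≤ g) : (1 + 1 / g) ^ 1000 ≤ 2 := by
  have hg0 : 0 < g := by linarith
  have h3 : (1 + 1 / g) ≤ Real.exp (1 / g) := by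
    have := Real.add_one_le_exp (1 / g)
    linarith
  have h4 : (0 : ℝ) ≤ 1 + 1 / g := by positivity
  have h5 : 1000 * (1 / g) ≤ 1 / 2 := by
    rw [mul_one_div, div_le_div_iff₀ hg0 (by norm_num)]
    linarith
  calc (1 + 1 / g) ^ 1000 ≤ (Real.exp (1 / g)) ^ 1000 := pow_le_pow_left₀ h4 h3 1000
    _ = Real.exp (1000 * (1 / g)) := by
      rw [← Real.exp_nat_mul]
      norm_num
    _ ≤ Real.exp (1 / 2) := Real.exp_le_exp.2 h5
    _ ≤ 2 := nu_exp_half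

theorem nu_pow {g : ℕ} (hg : 2000 ≤ g) : (g + 1) ^ 1000 ≤ 2 * g ^ 1000 := by
  have hgR : (2000 : ℝ) ≤ g := by exact_mod_cast hg
  have hg0 : (g : ℝ) ≠ 0 := by
    intro h
    rw [h] at hgR
    norm_num at hgR
  have h2 := nu_frac hgR
  have h4 : (g : ℝ) + 1 = (1 + 1 / (g : ℝ)) * g := by
    rw [add_mul, one_mul, one_div, inv_mul_cancel₀ hg0]
  have h3 : ((g : ℝ) + 1) ^ 1000 ≤ 2 * (g : ℝ) ^ 1000 := by
    rw [h4, mul_pow]
    exact mul_le_mul_of_nonneg_right h2 (pow_nonneg (Nat.cast_nonneg g) _)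
  exact_mod_cast h3

theorem n_le : ∃ n₀ : ℕ, ∀ n : ℕ, n₀ ≤ n → n ≤ 2 * gg n ^ 1000 := by
  obtain ⟨n₀, h⟩ := gg_tendsto 2000
  exact ⟨n₀, fun n hn => (gg_lt n).le.trans (nu_pow (h n hn))⟩

theorem nu_log {n : ℕ} (hn : 1 ≤ n) : Real.log n ≤ 1000 * Real.log ((gg n : ℝ) + 1) := by
  have h1 := gg_lt n
  have h2 : (n : ℝ) ≤ ((gg n : ℝ) + 1) ^ 1000 := by exact_mod_cast h1.le
  have h3 : (0 : ℝ) < n := by exact_mod_cast hn
  calc Real.log n ≤ Real.log (((gg n : ℝ) + 1) ^ 1000) := Real.log_le_log h3 h2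
    _ = 1000 * Real.log ((gg n : ℝ) + 1) := by
      rw [Real.log_pow]
      norm_num

theorem log_le_gg : ∀ (C : ℝ) (k : ℕ), ∃ n₀ : ℕ, ∀ n : ℕ, n₀ ≤ n → C * (Real.log n) ^ k ≤ gg n := by
  intro C k
  have hC : 0 < |C| + 1 := by positivity
  have hT : (0 : ℝ) < 1000 ^ k := by positivity
  have hlo := (Real.isLittleO_pow_log_id_atTop (n := k)).bound
    (show (0 : ℝ) < 1 / (2 * ((|C| + 1) * 1000 ^ k)) by positivity)
  obtain ⟨y₀, hy₀⟩ := Filter.eventually_atTop.1 hlo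
  obtain ⟨n₀, h⟩ := gg_tendsto (⌈y₀⌉₊ + 2)
  refine ⟨max n₀ 1, fun n hn => ?_⟩
  have hn1 : 1 ≤ n := le_of_max_le_right hn
  have hg := h n (le_of_max_le_left hn)
  have hgR : (⌈y₀⌉₊ : ℝ) + 2 ≤ gg n := by exact_mod_cast hg
  have hy : y₀ ≤ (gg n : ℝ) + 1 := by
    have := Nat.le_ceil y₀
    linarith
  have hc0 : (0 : ℝ) ≤ (⌈y₀⌉₊ : ℝ) := Nat.cast_nonneg _
  have hb := hy₀ _ hy
  set y : ℝ := (gg n : ℝ) + 1 with hydef
  have hy2 : 2 ≤ y := by linarith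
  have hly : 0 ≤ Real.log y := Real.log_nonneg (by linarith)
  rw [Real.norm_of_nonneg (by positivity), id, Real.norm_of_nonneg (by linarith)] at hb
  have hln : 0 ≤ Real.log n := Real.log_nonneg (by exact_mod_cast hn1)
  have h1 : (Real.log n) ^ k ≤ 1000 ^ k * (Real.log y) ^ k := by
    rw [← mul_pow]
    exact pow_le_pow_left₀ hln (nu_log hn1) k
  have h2 : C * (Real.log n) ^ k ≤ (|C| + 1) * (1000 ^ k * (Real.log y) ^ k) := by
    have h3 : C ≤ |C| + 1 := by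
      have := le_abs_self C
      linarith
    have h4 : 0 ≤ (Real.log n) ^ k := by positivity
    calc C * (Real.log n) ^ k ≤ (|C| + 1) * (Real.log n) ^ k := mul_le_mul_of_nonneg_right h3 h4
      _ ≤ _ := mul_le_mul_of_nonneg_left h1 hC.le
  have h3 : (|C| + 1) * (1000 ^ k * (Real.log y) ^ k) ≤ y / 2 := by
    calc (|C| + 1) * (1000 ^ k * (Real.log y) ^ k) = ((|C| + 1) * 1000 ^ k) * (Real.log y) ^ k := by ring
      _ ≤ ((|C| + 1) * 1000 ^ k) * (1 / (2 * ((|C| + 1) * 1000 ^ k)) * y) :=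
          mul_le_mul_of_nonneg_left hb (by positivity)
      _ = y / 2 := by
        field_simp
  have h4 : y / 2 ≤ gg n := by
    rw [hydef]
    linarith
  linarith

/-- superpolynomially small -/
theorem exp_le : ∀ A : ℕ, ∃ n₀ : ℕ, ∀ n : ℕ, n₀ ≤ n →
    (gg n : ℝ) * Real.exp (-(gg n : ℝ)) ≤ 1 / (n : ℝ) ^ A := by
  intro A
  obtain ⟨n₀, h⟩ := log_le_gg ((A : ℝ) + 1) 1
  refine ⟨max n₀ 1, fun n hn => ?_⟩
  have hn1 : 1 ≤ n := le_of_max_le_right hn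
  have hnR : (0 : ℝ) < n := by exact_mod_cast hn1
  have h1 := h n (le_of_max_le_left hn)
  rw [pow_one] at h1
  have h2 : (gg n : ℝ) ≤ n := by
    have : gg n ≤ n := Nat.findGreatest_le n
    exact_mod_cast this
  have h3 : Real.exp (-(gg n : ℝ)) ≤ 1 / (n : ℝ) ^ (A + 1) := by
    have h4 : ((A : ℝ) + 1) * Real.log n = Real.log ((n : ℝ) ^ (A + 1)) := by
      rw [Real.log_pow]
      push_cast
      ring
    calc Real.exp (-(gg n : ℝ)) ≤ Real.exp (-(((A : ℝ) + 1) * Real.log n)) := by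
          apply Real.exp_le_exp.2
          linarith
      _ = 1 / (n : ℝ) ^ (A + 1) := by
        rw [h4, Real.exp_neg, Real.exp_log (by positivity), one_div]
  calc (gg n : ℝ) * Real.exp (-(gg n : ℝ)) ≤ n * (1 / (n : ℝ) ^ (A + 1)) :=
        mul_le_mul h2 h3 (Real.exp_pos _).le hnR.le
    _ = 1 / (n : ℝ) ^ A := by
      rw [pow_succ]
      field_simp

end Pool.Agent.H38H
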