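import Pool.Agent.Lib.H38H.PT3
import Pool.Agent.Lib.H38H.NU

/-!
Module SL, Phase 2: the interface (designer of Phase 2: helper4).
-/

set_option autoImplicit false

namespace Pool.Agent.H38H

open Classical

variable {ι : Type} [Fintype ι] {L : ℕ}

/-- state at the beginning of Phase 2: a 2-regular graph of position edges whose components have at least `l0` positions,
equal to `F` at the unknown slots (all slots outside `K`) -/
structure P2State (I : Inst ι L) (h : SB ι) (K : Finset ι) (l0 : ℕ) (S : SimpleGraph (ι × Bool)) : Prop where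
  deg : ∀ x, (S.neighborSet x).ncard = 2
  adj : ∀ x y, S.Adj x y → I.PAdj h x y
  mid : ∀ x, I.kind (ap h x).1 ≠ Kind.c → S.Adj x (flip x)
  unk : ∀ x y, x.1 ∉ K → (S.Adj x y ↔ I.FAdj x y)
  big : ∀ x, l0 ≤ Nat.card {y // S.Reachable x y}

/-- the theorem of Phase 2 -/
def Phase2 : Prop :=
  ∀ A : ℕ, ∃ n₀ : ℕ, ∀ n : ℕ, n₀ ≤ n → ∀ L : ℕ, (L : ℝ) ≤ (Real.log n) ^ 3 →
    ∀ (ι : Type) [Fintype ι], Fintype.card ι = n → ∀ (I : Inst ι L) (K : Finset ι) (h : SB ι)
      (S : SimpleGraph (ι × Bool)), K.card ≤ gg n ^ 900 → P2State I h K (gg n ^ 950) S →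
      (∃ T : Finset (ι × Bool), T.card ≤ gg n ∧ ∀ x, ∃ t ∈ T, S.Reachable t x) →
      avg K h (fun h' => if I.HAM h' then 0 else 1) ≤ 1 / (n : ℝ) ^ A

end Pool.Agent.H38H
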