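import Pool.Agent.Lib.H38H.P1

/-!
Chunk SLP9 (M). At most `2 L` slots have both outer partners in one slot.

Proof. Let `p ∈ twoC I`: `outer (p,false) = x`, `outer (p,true) = y`, `x.1 = y.1 = q`, `x ≠ y` (outer is injective), so `y = flip x` and
the component of `p` in `F` is contained in the slots `p`, `q` (from `(p,·)` and `(q,·)` the relation `FAdj` leads only to these positions:
`outer x = (p,false)`, `outer (flip x) = outer y = (p,true)`). By `I.comps_le` every position is reached from some `t ∈ T`, `|T| ≤ L`;
`ReflTransGen FAdj` is symmetric; map `p ∈ twoC` to such a `t` for the position `(p,false)`: the fibre of `t` consists of slots `p` with `(p,false)`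
in the component of `t`, which has at most two slots. So `|twoC| ≤ 2 |T| ≤ 2 L`.
-/

set_option autoImplicit false

namespace Pool.Agent.H38H

open Classical

variable {ι : Type} [Fintype ι] {L : ℕ}

theorem FAdj_symm (I : Inst ι L) {a b : ι × Bool} (e : I.FAdj a b) : I.FAdj b a := by
  rcases e with e | e
  · left
    rw [e, flip_flip]
  · right
    exact I.outer_symm _ _ e

theorem SameF_symm (I : Inst ι L) {a b : ι × Bool} (e : I.SameF a b) : I.SameF b a := by
  unfold Inst.SameF at e ⊢
  induction e with
  | refl => exact Relation.ReflTransGen.refl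
  | tail _ h2 ih => exact Relation.ReflTransGen.head (FAdj_symm I h2) ih

theorem p9_closed (I : Inst ι L) {p : ι} {x y : ι × Bool} (hx : I.outer (p, false) = some x)
    (hy : I.outer (p, true) = some y) (hxy : x.1 = y.1) {a b : ι × Bool} (e : I.SameF a b)
    (ha : a.1 = p ∨ a.1 = x.1) : b.1 = p ∨ b.1 = x.1 := by
  unfold Inst.SameF at e
  induction e with
  | refl => exact ha
  | @tail b c _ h2 ih =>
    rcases h2 with h2 | h2
    · rw [h2, flip_fst]
      exact ih
    · rcases ih with ih | ih
      · right
        obtain ⟨b1, b2⟩ := b
        simp only at ih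
        subst ih
        cases b2
        · rw [hx] at h2
          exact congrArg Prod.fst (Option.some.inj h2).symm
        · rw [hy] at h2
          rw [hxy]
          exact congrArg Prod.fst (Option.some.inj h2).symm
      · left
        have hx' := I.outer_symm _ _ hx
        have hy' := I.outer_symm _ _ hy
        rcases eq_or_flip ih with h3 | h3
        · rw [h3, hx'] at h2
          exact congrArg Prod.fst (Option.some.inj h2).symm
        · rcases eq_or_flip hxy with h4 | h4
          · rw [h4, hy'] at hx'
            have := Option.some.inj hx'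
            simp at this
          · rw [h4, flip_flip] at h3
            rw [h3, hy'] at h2
            exact congrArg Prod.fst (Option.some.inj h2).symm

theorem card_twoC (I : Inst ι L) : (twoC I).card ≤ 2 * L := by
  obtain ⟨T, hT, hc⟩ := I.comps_le
  have hc' : ∀ p : ι, ∃ t ∈ T, I.SameF t (p, false) := by
    intro p
    obtain ⟨t, ht, h⟩ := hc (p, false)
    exact ⟨t, ht, h⟩
  choose f hf1 hf2 using hc'
  have h1 : (twoC I).card ≤ 2 * T.card := by
    apply Finset.card_le_mul_card_image_of_maps_to (f := f) (fun p _ => hf1 p)
    intro t _
    by_cases he : ((twoC I).filter (fun p => f p = t)).Nonempty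
    · obtain ⟨p, hp⟩ := he
      rw [Finset.mem_filter] at hp
      obtain ⟨hp1, hp2⟩ := hp
      unfold twoC at hp1
      rw [Finset.mem_filter] at hp1
      obtain ⟨x, y, hx, hy, hxy⟩ := hp1.2
      have hsub : (twoC I).filter (fun p => f p = t) ⊆ {p, x.1} := by
        intro p' hp'
        rw [Finset.mem_filter] at hp'
        have h2 : I.SameF (p, false) (p', false) := by
          have h3 := SameF_symm I (hf2 p)
          have h4 := hf2 p'
          rw [hp2] at h3
          rw [hp'.2] at h4
          exact Relation.ReflTransGen.trans h3 h4
        have h5 := p9_closed I hx hy hxy h2 (Or.inl rfl)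
        rw [Finset.mem_insert, Finset.mem_singleton]
        exact h5
      exact (Finset.card_le_card hsub).trans Finset.card_le_two
    · rw [Finset.not_nonempty_iff_eq_empty] at he
      rw [he]
      simp
  omega

/-- the sums over positions are monotone and additive in the obvious sense -/
theorem outSum_nonneg (I : Inst ι L) (B : Finset ι) {F : Mv ι → ℝ} (hF : ∀ a, 0 ≤ F a) :
    0 ≤ outSum I B F := by
  unfold outSum
  apply Finset.sum_nonneg
  intro w _
  cases I.outer w with
  | none => exact le_rfl
  | some x =>
    simp only [Option.elim_some]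
    split_ifs
    · exact hF _
    · exact le_rfl

theorem midSum_nonneg (B : Finset ι) {F : Mv ι → ℝ} (hF : ∀ a, 0 ≤ F a) : 0 ≤ midSum B F := by
  unfold midSum
  apply Finset.sum_nonneg
  intro w _
  split_ifs
  · exact le_rfl
  · exact hF _

theorem outSum_smul (I : Inst ι L) (B : Finset ι) (F : Mv ι → ℝ) (c : ℝ) :
    outSum I B (fun a => c * F a) = c * outSum I B F := by
  unfold outSum
  rw [Finset.mul_sum]
  apply Finset.sum_congr rfl
  intro w _
  cases I.outer w with
  | none => simp
  | some x =>
    simp only [Option.elim_some]
    split_ifs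
    · rfl
    · simp

theorem midSum_smul (B : Finset ι) (F : Mv ι → ℝ) (c : ℝ) :
    midSum B (fun a => c * F a) = c * midSum B F := by
  unfold midSum
  rw [Finset.mul_sum]
  apply Finset.sum_congr rfl
  intro w _
  split_ifs
  · simp
  · rfl

/-- the sum over the flipped positions is the same -/
theorem outSum_flip (I : Inst ι L) (B : Finset ι) (F : Mv ι → ℝ) :
    outSum I B F = ∑ w : ι × Bool, (I.outer (flip w)).elim 0
      (fun x' => if w.1 ∉ B ∧ x'.1 ∉ B ∧ x'.1 ≠ w.1 then F (flip w, x') else 0) := by
  unfold outSum
  have h := Equiv.sum_comp (Function.Involutive.toPerm (flip : ι × Bool → ι × Bool) flip_flip)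
    (fun w => (I.outer w).elim 0
      (fun x' => if w.1 ∉ B ∧ x'.1 ∉ B ∧ x'.1 ≠ w.1 then F (w, x') else 0))
  rw [← h]
  rfl

end Pool.Agent.H38H
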