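import Pool.Agent.Lib.H38H.O1
import Pool.Agent.Lib.H38H.P9

/-!
Chunk SLO2 (M). Rays on long components have distinct slots; number of short slots and of ends.

Proofs. `ray_inj`: let `x_i` be the ray (`x_(i+1) = outer (flip x_i)`), `x_i.1 = x_j.1` with `i < j ≤ k`. If `x_i = x_j` then going backwards (outer and flip
are injective) `x_0 = x_(j-i)`, and the set of the positions `x_a, flip x_a` with `a < j - i` is closed under `FAdj`, so the component of `x` has at most `2 (j-i) ≤ 2k`
positions. If `x_j = flip x_i` then `x_(i+1) = outer (flip x_i) = outer x_j = flip x_(j-1)`, and inductively `x_(i+a) = flip x_(j-a)`; in the middle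
`x_m = flip x_m` or `x_(m+1) = flip x_m`, i.e. `outer (flip x_m) = some (flip x_m)`: impossible (`flip_ne`, `outer_ne`).
`card_short`: each short slot has its two positions on a component with at most `20 ℓ` positions; by `comps_le` there are at most `L` components.
`card_ends`: a component of `F` contains at most two positions without outer partner: if `x` is one, every position of its component is `ray x k` or `flip (ray x k)` for some `k` (this set is closed
under `FAdj`), and `outer` undefined at `flip (ray x k)` only for the last `k`, at `ray x k` only for `k = 0`. `card_loop`: `outer x = some (flip x)`: the component is `{x, flip x}`.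
-/

set_option autoImplicit false

namespace Pool.Agent.H38H

open Classical

variable {ι : Type} [Fintype ι] {L : ℕ}

theorem o2_comp_le (I : Inst ι L) {x : ι × Bool} {S : Finset (ι × Bool)} (hx : x ∈ S)
    (hS : ∀ v ∈ S, ∀ w, I.FAdj v w → w ∈ S) : Nat.card {v // I.SameF x v} ≤ S.card := by
  have h1 : ∀ v, I.SameF x v → v ∈ S := by
    intro v hv
    unfold Inst.SameF at hv
    induction hv with
    | refl => exact hx
    | tail _ h2 ih => exact hS _ ih _ h2
  have h2 : Nat.card {v // I.SameF x v} ≤ Nat.card S :=
    Nat.card_le_card_of_injective (fun v : {v // I.SameF x v} => (⟨v.1, h1 v.1 v.2⟩ : S))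
      (fun a b hab => by
        have := congrArg Subtype.val hab
        exact Subtype.ext this)
  rw [Nat.card_eq_fintype_card (α := S), Fintype.card_coe] at h2
  exact h2

/-- closed ray -/
theorem o2_closed (I : Inst ι L) {x : ι × Bool} {d : ℕ} (hd : 0 < d) (h : I.ray x d = some x) :
    Nat.card {v // I.SameF x v} ≤ 2 * d := by
  have hdef : ∀ a, a ≤ d → ∃ y, I.ray x a = some y := by
    intro a ha
    exact Option.ne_none_iff_exists'.1 (ray_mono I ha (by rw [h]; exact Option.some_ne_none _))
  set S : Finset (ι × Bool) := (Finset.range d ×ˢ (Finset.univ : Finset Bool)).image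
    (fun z => if z.2 then flip ((I.ray x z.1).getD x) else (I.ray x z.1).getD x) with hSdef
  have hmem : ∀ a y, a < d → I.ray x a = some y → y ∈ S ∧ flip y ∈ S := by
    intro a y ha hy
    constructor
    · rw [hSdef, Finset.mem_image]
      exact ⟨(a, false), by simp [ha], by simp [hy]⟩
    · rw [hSdef, Finset.mem_image]
      exact ⟨(a, true), by simp [ha], by simp [hy]⟩
  have hmem' : ∀ v ∈ S, ∃ a y, a < d ∧ I.ray x a = some y ∧ (v = y ∨ v = flip y) := by
    intro v hv
    rw [hSdef, Finset.mem_image] at hv
    obtain ⟨⟨a, b⟩, hab, rfl⟩ := hv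
    rw [Finset.mem_product, Finset.mem_range] at hab
    obtain ⟨y, hy⟩ := hdef a hab.1.le
    refine ⟨a, y, hab.1, hy, ?_⟩
    cases b
    · left; simp [hy]
    · right; simp [hy]
  have hout : ∀ a y, a < d → I.ray x a = some y → ∀ w, I.outer y = some w → w ∈ S := by
    intro a y ha hy w hw
    obtain ⟨b, hb, hby⟩ : ∃ b, b < d ∧ I.ray x (b + 1) = some y := by
      rcases Nat.eq_zero_or_pos a with h0 | h0
      · subst h0
        simp only [Inst.ray, Option.some.injEq] at hy
        exact ⟨d - 1, by omega, by rw [Nat.sub_add_cancel hd, h, hy]⟩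
      · exact ⟨a - 1, by omega, by rw [Nat.sub_add_cancel h0, hy]⟩
    rw [Inst.ray, Option.bind_eq_some_iff] at hby
    obtain ⟨u, hu, huy⟩ := hby
    have h3 := I.outer_symm _ _ huy
    rw [hw] at h3
    rw [Option.some.inj h3]
    exact (hmem b u hb hu).2
  refine (o2_comp_le I (S := S) (hmem 0 x hd rfl).1 ?_).trans ?_
  · intro v hv w hvw
    obtain ⟨a, y, ha, hy, hvy⟩ := hmem' v hv
    rcases hvw with hvw | hvw
    · rcases hvy with rfl | rfl
      · rw [hvw]; exact (hmem a v ha hy).2
      · rw [hvw, flip_flip]; exact (hmem a y ha hy).1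
    · rcases hvy with rfl | rfl
      · exact hout a v ha hy w hvw
      · have h4 : I.ray x (a + 1) = some w := by
          rw [Inst.ray, hy, Option.bind_some, hvw]
        rcases Nat.lt_or_ge (a + 1) d with h5 | h5
        · exact (hmem (a + 1) w h5 h4).1
        · have h6 : a + 1 = d := by omega
          rw [h6, h] at h4
          rw [← Option.some.inj h4]
          exact (hmem 0 x hd rfl).1
  · have h7 : S.card ≤ (Finset.range d ×ˢ (Finset.univ : Finset Bool)).card :=
      Finset.card_image_le
    rw [Finset.card_product, Finset.card_range, Finset.card_univ, Fintype.card_bool] at h7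
    omega

theorem o2_noflip (I : Inst ι L) {y : ι × Bool} {d : ℕ} (h : I.ray y d = some (flip y)) : False := by
  have hrev : ∀ a w, a ≤ d → I.ray y a = some w → I.ray y (d - a) = some (flip w) := by
    intro a w ha hw
    have h1 : I.ray y (a + (d - a)) = some (flip y) := by
      rw [Nat.add_sub_cancel' ha, h]
    rw [ray_add, hw, Option.bind_some] at h1
    have h2 := ray_rev I h1
    rwa [flip_flip] at h2
  have hdef : ∀ a, a ≤ d → ∃ w, I.ray y a = some w := fun a ha =>
    Option.ne_none_iff_exists'.1 (ray_mono I ha (by rw [h]; exact Option.some_ne_none _))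
  obtain ⟨m, hm⟩ := Nat.even_or_odd' d
  obtain ⟨w, hw⟩ := hdef m (by omega)
  have h1 := hrev m w (by omega) hw
  rcases hm with hm | hm
  · rw [show d - m = m by omega, hw] at h1
    exact flip_ne w (Option.some.inj h1).symm
  · rw [show d - m = m + 1 by omega, Inst.ray, hw, Option.bind_some] at h1
    exact I.outer_ne _ h1

theorem ray_inj (I : Inst ι L) {x y z : ι × Bool} {i j k : ℕ} (hij : i < j) (hj : j ≤ k)
    (hi : I.ray x i = some y) (hz : I.ray x j = some z) (e : y.1 = z.1) :
    Nat.card {v // I.SameF x v} ≤ 2 * k := by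
  obtain ⟨d, rfl⟩ := Nat.exists_eq_add_of_le hij.le
  rcases eq_or_flip e with h | h
  · subst h
    have h1 := ray_rev I hi
    have h2 := ray_rev I hz
    rw [ray_add, h1, Option.bind_some] at h2
    have h3 := ray_rev I h2
    rw [flip_flip] at h3
    refine (o2_closed I (by omega) h3).trans ?_
    omega
  · rw [ray_add, hi, Option.bind_some, ← flip_flip z, ← h] at hz
    exact (o2_noflip I hz).elim

theorem short_iff (I : Inst ι L) (ℓ : ℕ) (p : ι) (i : Bool) :
    p ∈ I.short ℓ ↔ Nat.card {y // I.SameF (p, i) y} ≤ 20 * ℓ := by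
  have h1 : ∀ y, I.SameF (p, i) y ↔ I.SameF (p, false) y := fun y =>
    ⟨fun h => (o1_slot I p false i).trans h, fun h => (o1_slot I p i false).trans h⟩
  simp only [Inst.short, Finset.mem_filter, Finset.mem_univ, true_and, h1]

theorem o2_card_comp (I : Inst ι L) (x : ι × Bool) :
    (Finset.univ.filter (fun y => I.SameF x y)).card = Nat.card {y // I.SameF x y} := by
  rw [Nat.card_eq_fintype_card, Fintype.card_subtype]

theorem card_short (I : Inst ι L) (ℓ : ℕ) : (I.short ℓ).card ≤ 20 * ℓ * L := by
  obtain ⟨T, hT, hc⟩ := I.comps_le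
  have h1 : I.short ℓ ⊆ (T.filter (fun t => Nat.card {y // I.SameF t y} ≤ 20 * ℓ)).biUnion
      (fun t => (Finset.univ.filter (fun y => I.SameF t y)).image Prod.fst) := by
    intro p hp
    rw [short_iff I ℓ p false] at hp
    obtain ⟨t, ht, htp⟩ := hc (p, false)
    have htp' : I.SameF t (p, false) := htp
    rw [Finset.mem_biUnion]
    refine ⟨t, ?_, ?_⟩
    · rw [Finset.mem_filter]
      refine ⟨ht, ?_⟩
      have h2 : ∀ y, I.SameF t y ↔ I.SameF (p, false) y := fun y =>
        ⟨fun h => (SameF_symm I htp').trans h, fun h => htp'.trans h⟩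
      simp only [h2]
      exact hp
    · rw [Finset.mem_image]
      exact ⟨(p, false), by simpa using htp', rfl⟩
  refine (Finset.card_le_card h1).trans ?_
  refine (Finset.card_biUnion_le_card_mul _ _ (20 * ℓ) ?_).trans ?_
  · intro t ht
    rw [Finset.mem_filter] at ht
    refine Finset.card_image_le.trans ?_
    rw [o2_card_comp]
    exact ht.2
  · rw [mul_comm]
    exact Nat.mul_le_mul_left _ ((Finset.card_filter_le _ _).trans hT)

theorem o2_two (I : Inst ι L) (P : ι × Bool → Prop)
    (h : ∀ x, P x → ∃ S : Finset (ι × Bool), S.card ≤ 2 ∧ ∀ y, P y → I.SameF x y → y ∈ S) :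
    (Finset.univ.filter (fun x : ι × Bool => P x)).card ≤ 2 * L := by
  obtain ⟨T, hT, hc⟩ := I.comps_le
  have h1 : Finset.univ.filter (fun x : ι × Bool => P x) ⊆ T.biUnion
      (fun t => Finset.univ.filter (fun y => P y ∧ I.SameF t y)) := by
    intro x hx
    obtain ⟨t, ht, htx⟩ := hc x
    rw [Finset.mem_biUnion]
    refine ⟨t, ht, ?_⟩
    rw [Finset.mem_filter] at hx ⊢
    exact ⟨Finset.mem_univ _, hx.2, htx⟩
  refine (Finset.card_le_card h1).trans ?_
  refine (Finset.card_biUnion_le_card_mul _ _ 2 ?_).trans ?_
  · intro t _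
    rcases (Finset.univ.filter (fun y => P y ∧ I.SameF t y)).eq_empty_or_nonempty with h2 | ⟨x, hx⟩
    · rw [h2]; simp
    · rw [Finset.mem_filter] at hx
      have h3 : ∀ y, I.SameF t y ↔ I.SameF x y := fun y =>
        ⟨fun h => (SameF_symm I hx.2.2).trans h, fun h => hx.2.2.trans h⟩
      obtain ⟨S, hS, hS'⟩ := h x hx.2.1
      refine (Finset.card_le_card fun y hy => ?_).trans hS
      rw [Finset.mem_filter] at hy
      exact hS' y hy.2.1 ((h3 y).1 hy.2.2)
  · rw [mul_comm]
    exact Nat.mul_le_mul_left _ hT

theorem card_ends (I : Inst ι L) :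
    (Finset.univ.filter (fun x : ι × Bool => I.outer x = none)).card ≤ 2 * L := by
  refine le_trans (le_of_eq (by congr)) (o2_two I (fun x => I.outer x = none) fun x hx => ?_)
  -- every position of the component is on the ray
  have hall : ∀ v, I.SameF x v → ∃ k u, I.ray x k = some u ∧ (v = u ∨ v = flip u) := by
    intro v hv
    unfold Inst.SameF at hv
    induction hv with
    | refl => exact ⟨0, x, rfl, Or.inl rfl⟩
    | @tail v w _ hvw ih =>
      obtain ⟨k, u, hu, hvu⟩ := ih
      rcases hvw with hvw | hvw
      · rcases hvu with rfl | rfl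
        · exact ⟨k, v, hu, Or.inr hvw⟩
        · exact ⟨k, u, hu, Or.inl (by rw [hvw, flip_flip])⟩
      · rcases hvu with rfl | rfl
        · rcases k with _ | k
          · simp only [Inst.ray, Option.some.injEq] at hu
            rw [← hu, hx] at hvw
            exact (Option.some_ne_none _ hvw.symm).elim
          · rw [Inst.ray, Option.bind_eq_some_iff] at hu
            obtain ⟨u', hu', hu''⟩ := hu
            have h3 := I.outer_symm _ _ hu''
            rw [hvw] at h3
            exact ⟨k, u', hu', Or.inr (Option.some.inj h3)⟩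
        · exact ⟨k + 1, w, by rw [Inst.ray, hu, Option.bind_some, hvw], Or.inl rfl⟩
  have hend : ∀ v, I.SameF x v → I.outer v = none → v = x ∨
      ∃ k u, I.ray x k = some u ∧ I.ray x (k + 1) = none ∧ v = flip u := by
    intro v hv hv0
    obtain ⟨k, u, hu, hvu⟩ := hall v hv
    rcases hvu with rfl | rfl
    · left
      rcases k with _ | k
      · simp only [Inst.ray, Option.some.injEq] at hu
        exact hu.symm
      · rw [Inst.ray, Option.bind_eq_some_iff] at hu
        obtain ⟨u', -, hu''⟩ := hu
        have h3 := I.outer_symm _ _ hu''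
        rw [hv0] at h3
        exact (Option.some_ne_none _ h3.symm).elim
    · right
      exact ⟨k, u, hu, by rw [Inst.ray, hu, Option.bind_some, hv0], rfl⟩
  by_cases hex : ∃ v, I.SameF x v ∧ I.outer v = none ∧ v ≠ x
  · obtain ⟨e, he1, he2, he3⟩ := hex
    obtain ⟨k, u, hk1, hk2, hk3⟩ := (hend e he1 he2).resolve_left he3
    refine ⟨{x, e}, Finset.card_le_two, ?_⟩
    · intro v hv1 hv2
      rw [Finset.mem_insert, Finset.mem_singleton]
      rcases hend v hv2 hv1 with h5 | ⟨k', u', h5, h6, h7⟩
      · exact Or.inl h5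
      · right
        have h8 : k = k' := by
          rcases Nat.lt_trichotomy k k' with h9 | h9 | h9
          · exact (ray_mono I (show k + 1 ≤ k' by omega) (by rw [h5]; exact Option.some_ne_none _) hk2).elim
          · exact h9
          · exact (ray_mono I (show k' + 1 ≤ k by omega) (by rw [hk1]; exact Option.some_ne_none _) h6).elim
        subst h8
        rw [hk1] at h5
        rw [h7, hk3, Option.some.inj h5]
  · refine ⟨{x}, by simp, ?_⟩
    intro v hv1 hv2
    rw [Finset.mem_singleton]
    by_contra h5
    exact hex ⟨v, hv2, hv1, h5⟩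

theorem card_loop (I : Inst ι L) :
    (Finset.univ.filter (fun x : ι × Bool => I.outer x = some (flip x))).card ≤ 2 * L := by
  refine le_trans (le_of_eq (by congr)) (o2_two I (fun x => I.outer x = some (flip x)) fun x hx => ?_)
  refine ⟨{x, flip x}, Finset.card_le_two, ?_⟩
  · intro v _ hv2
    have h2 : ∀ v, I.SameF x v → v = x ∨ v = flip x := by
      intro v hv
      unfold Inst.SameF at hv
      induction hv with
      | refl => exact Or.inl rfl
      | @tail v w _ hvw ih =>
        rcases hvw with hvw | hvw
        · rcases ih with rfl | rfl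
          · exact Or.inr hvw
          · exact Or.inl (by rw [hvw, flip_flip])
        · rcases ih with rfl | rfl
          · rw [hx] at hvw
            exact Or.inr (Option.some.inj hvw).symm
          · rw [I.outer_symm _ _ hx] at hvw
            exact Or.inl (Option.some.inj hvw).symm
    rw [Finset.mem_insert, Finset.mem_singleton]
    exact h2 v hv2

/-- at an isolated slot both rays are defined for `4 ℓ` steps, run through untouched slots and have distinct slots -/
theorem iso_ray (I : Inst ι L) {ℓ : ℕ} {Ct : Finset ι} {x : ι × Bool} (e : Iso I ℓ Ct x.1) {j : ℕ} (hj : j ≤ 4 * ℓ) :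
    ∃ y, I.ray x j = some y ∧ y.1 ∉ Ct ∧ (∀ i, I.outer (y.1, i) ≠ none) ∧
      ∀ k < j, ∀ z, I.ray x k = some z → z.1 ≠ y.1 := by
  have hdef : ∀ j, j ≤ 4 * ℓ → ∃ y, I.ray x j = some y := by
    intro j
    induction j with
    | zero => exact fun _ => ⟨x, rfl⟩
    | succ j ih =>
      intro hj
      obtain ⟨y, hy⟩ := ih (by omega)
      have h1 := o1_mem_ball' I (show j ≤ 4 * ℓ by omega) hy
      have h2 := (e.2 y.1 h1).2 (!y.2)
      obtain ⟨w, hw⟩ := Option.ne_none_iff_exists'.1 h2
      exact ⟨w, by rw [Inst.ray, hy, Option.bind_some]; exact hw⟩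
  obtain ⟨y, hy⟩ := hdef j hj
  have h1 := e.2 y.1 (o1_mem_ball' I hj hy)
  refine ⟨y, hy, h1.1, h1.2, fun k hk z hz hzy => ?_⟩
  have h2 := ray_inj I hk le_rfl hz hy hzy
  refine e.1 ((short_iff I ℓ x.1 x.2).2 ?_)
  refine h2.trans ?_
  omega

end Pool.Agent.H38H
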