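import Pool.Agent.Lib.H38H.O0

/-!
Chunk SLO3 (M). The parity lemma for graphs with maximal degree 2.

Proof. Let `W` be the set `{w}` (resp. `{w, w'}`) and let `H` be the graph `S` with all edges at `W` deleted. The component of `x` in `H` is finite; the number of
vertices of odd `H`-degree in it is even (apply `SimpleGraph.even_card_odd_degree_vertices` to the graph `H` with all edges outside the component deleted, or
sum the degrees over the component). `x` has `H`-degree 1 (it has `S`-degree 1 and is not adjacent to `W`). So there is `v ≠ x` in the component of odd degree, hence of degree 1, `v ∉ W`.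
`S`-degrees are at most 2. Case `parity_one`, `S`-neighbours of `w` are `u ≠ u'`. If `v ≠ u'`: in `mv S x w u` the vertex `w` is adjacent to `x` and `u'`, the component of
`w` contains `x` and (the `H`-edges survive, as the deleted edge is at `w`) `v`; the degree of `v` there is 1 (its `H`-degree, plus nothing as the only new edge at a vertex outside `W` is at `x`, and `v` is not adjacent
to `w` in the new graph since `v ≠ u'`). If `v = u' ≠ u`: in `mv S x w u'` the vertex `v` has degree 1 (its edge to `w` is deleted), and it is in the component.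
Case `parity_two`, `w` adjacent to `w'` and `u`, `w'` adjacent to `w` and `u'`, `u ≠ u'`, `u, u'` not in `W`: options `mv S x w u` (then `w'` is still adjacent to `u'`) and `mv S x w' u'`.
If `v ≠ u'` the first option works, otherwise the second one.
-/

set_option autoImplicit false

namespace Pool.Agent.H38H

open Classical

/-- in a component the number of odd vertices is not one -/
theorem o3_odd {α : Type} [Fintype α] (H : SimpleGraph α) {x : α}
    (hx : Odd (H.neighborSet x).ncard) :
    ∃ v, v ≠ x ∧ H.Reachable x v ∧ Odd (H.neighborSet v).ncard := by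
  set H' : SimpleGraph α :=
    { Adj := fun a b => H.Adj a b ∧ H.Reachable x a
      symm := by
        constructor
        rintro a b ⟨h1, h2⟩
        exact ⟨h1.symm, h2.trans h1.reachable⟩
      loopless := by
        constructor
        intro a h
        exact h.1.ne rfl } with hH'
  have hdeg : ∀ v, H'.degree v = (H'.neighborSet v).ncard := by
    intro v
    rw [← SimpleGraph.card_neighborSet_eq_degree, Set.ncard_eq_toFinset_card', Set.toFinset_card]
  have hin : ∀ v, H.Reachable x v → H'.neighborSet v = H.neighborSet v := by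
    intro v hv
    ext y
    simp only [SimpleGraph.mem_neighborSet]
    exact ⟨fun h => h.1, fun h => ⟨h, hv⟩⟩
  have hout : ∀ v, ¬ H.Reachable x v → H'.neighborSet v = ∅ := by
    intro v hv
    ext y
    simp only [SimpleGraph.mem_neighborSet, Set.mem_empty_iff_false, iff_false]
    exact fun h => hv h.2
  obtain ⟨v, hv1, hv2⟩ := H'.exists_ne_odd_degree_of_exists_odd_degree x (by
    rw [hdeg, hin x (SimpleGraph.Reachable.refl x)]
    exact hx)
  refine ⟨v, hv1, ?_, ?_⟩
  · by_contra h
    rw [hdeg, hout v h, Set.ncard_empty] at hv2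
    exact absurd hv2 (by decide)
  · by_cases h : H.Reachable x v
    · rw [hdeg, hin v h] at hv2
      exact hv2
    · rw [hdeg, hout v h, Set.ncard_empty] at hv2
      exact absurd hv2 (by decide)

/-- delete all edges at `W` -/
def o3H {α : Type} (S : SimpleGraph α) (W : Set α) : SimpleGraph α where
  Adj a b := S.Adj a b ∧ a ∉ W ∧ b ∉ W
  symm := by
    constructor
    rintro a b ⟨h1, h2, h3⟩
    exact ⟨h1.symm, h3, h2⟩
  loopless := by
    constructor
    intro a h
    exact h.1.ne rfl

theorem o3_find {α : Type} [Fintype α] (S : SimpleGraph α) (W : Set α) {x : α}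
    (hS : ∀ v, (S.neighborSet v).ncard ≤ 2) (hx : (S.neighborSet x).ncard = 1) (hxW : x ∉ W)
    (hn : ∀ z ∈ W, ¬ S.Adj x z) :
    ∃ v, v ≠ x ∧ v ∉ W ∧ (o3H S W).Reachable x v ∧ ((o3H S W).neighborSet v).ncard = 1 := by
  have h1 : (o3H S W).neighborSet x = S.neighborSet x := by
    ext y
    simp only [SimpleGraph.mem_neighborSet]
    exact ⟨fun h => h.1, fun h => ⟨h, hxW, fun hy => hn y hy h⟩⟩
  obtain ⟨v, hv1, hv2, hv3⟩ := o3_odd (o3H S W) (x := x) (by rw [h1, hx]; exact odd_one)
  have hle : ((o3H S W).neighborSet v).ncard ≤ 2 :=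
    (Set.ncard_le_ncard (fun y hy => hy.1) (Set.toFinite _)).trans (hS v)
  refine ⟨v, hv1, fun hvW => ?_, hv2, ?_⟩
  · have h2 : (o3H S W).neighborSet v = ∅ := by
      ext y
      simp only [SimpleGraph.mem_neighborSet, Set.mem_empty_iff_false, iff_false]
      exact fun h => h.2.1 hvW
    rw [h2, Set.ncard_empty] at hv3
    exact absurd hv3 (by decide)
  · obtain ⟨k, hk⟩ := hv3
    omega

theorem o3_move {α : Type} (S : SimpleGraph α) (W : Set α) {x w u v : α} (hw : w ∈ W) (hxw : x ≠ w)
    (hvx : v ≠ x) (hvW : v ∉ W) (hv : (o3H S W).Reachable x v)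
    (h : ∀ z ∈ W, S.Adj v z → z = w ∧ v = u) :
    (mv S x w u).Reachable w v ∧ (mv S x w u).neighborSet v = (o3H S W).neighborSet v := by
  have hle : o3H S W ≤ mv S x w u := by
    rintro a b ⟨h1, h2, h3⟩
    refine Or.inl ⟨h1, fun he => ?_⟩
    rw [Sym2.eq_iff] at he
    rcases he with ⟨rfl, -⟩ | ⟨-, rfl⟩
    · exact h2 hw
    · exact h3 hw
  have hxw' : (mv S x w u).Adj x w := Or.inr ⟨hxw, rfl⟩
  refine ⟨hxw'.symm.reachable.trans (hv.mono hle), ?_⟩
  ext y
  simp only [SimpleGraph.mem_neighborSet]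
  constructor
  · rintro (⟨h1, h2⟩ | ⟨h1, h2⟩)
    · refine ⟨h1, hvW, fun hy => ?_⟩
      obtain ⟨h3, h4⟩ := h y hy h1
      rw [h3, h4] at h2
      exact h2 Sym2.eq_swap
    · rw [Sym2.eq_iff] at h2
      rcases h2 with ⟨h3, -⟩ | ⟨h3, -⟩
      · exact (hvx h3).elim
      · exact (hvW (h3 ▸ hw)).elim
  · exact fun h1 => hle h1

theorem parity_one {α : Type} [Fintype α] (S : SimpleGraph α) {x w u u' : α}
    (hS : ∀ v, (S.neighborSet v).ncard ≤ 2) (hx : (S.neighborSet x).ncard = 1) (hxw : x ≠ w)
    (hn : ¬ S.Adj x w) (hw : S.neighborSet w = {u, u'}) (huu : u ≠ u') :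
    (∃ v, v ≠ x ∧ (mv S x w u).Reachable w v ∧ ((mv S x w u).neighborSet v).ncard = 1) ∨
      ∃ v, v ≠ x ∧ (mv S x w u').Reachable w v ∧ ((mv S x w u').neighborSet v).ncard = 1 := by
  obtain ⟨v, h1, h2, h3, h4⟩ := o3_find S {w} hS hx (by simpa using hxw)
    (fun z hz => by rw [Set.mem_singleton_iff.1 hz]; exact hn)
  have hadj : ∀ z ∈ ({w} : Set α), S.Adj v z → z = w ∧ (v = u ∨ v = u') := by
    intro z hz h5
    rw [Set.mem_singleton_iff.1 hz] at h5 ⊢
    have h6 : v ∈ S.neighborSet w := h5.symm
    rw [hw] at h6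
    exact ⟨rfl, h6⟩
  by_cases hv : v = u'
  · right
    obtain ⟨h5, h6⟩ := o3_move S {w} (u := u') (Set.mem_singleton w) hxw h1 h2 h3
      (fun z hz h7 => ⟨(hadj z hz h7).1, hv⟩)
    exact ⟨v, h1, h5, by rw [h6, h4]⟩
  · left
    obtain ⟨h5, h6⟩ := o3_move S {w} (u := u) (Set.mem_singleton w) hxw h1 h2 h3
      (fun z hz h7 => ⟨(hadj z hz h7).1, (hadj z hz h7).2.resolve_right hv⟩)
    exact ⟨v, h1, h5, by rw [h6, h4]⟩

theorem parity_two {α : Type} [Fintype α] (S : SimpleGraph α) {x w w' u u' : α}
    (hS : ∀ v, (S.neighborSet v).ncard ≤ 2) (hx : (S.neighborSet x).ncard = 1) (hxw : x ≠ w) (hxw' : x ≠ w')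
    (hn : ¬ S.Adj x w) (hn' : ¬ S.Adj x w') (hw : S.neighborSet w = {w', u}) (hw' : S.neighborSet w' = {w, u'})
    (h1 : w' ≠ u) (h2 : w ≠ u') (huu : u ≠ u') :
    (∃ v, v ≠ x ∧ (mv S x w u).Reachable w v ∧ ((mv S x w u).neighborSet v).ncard = 1) ∨
      ∃ v, v ≠ x ∧ (mv S x w' u').Reachable w' v ∧ ((mv S x w' u').neighborSet v).ncard = 1 := by
  obtain ⟨v, g1, g2, g3, g4⟩ := o3_find S {w, w'} hS hx (by
      rintro (h | h)
      · exact hxw h
      · exact hxw' h)
    (fun z hz => by
      rcases hz with rfl | hz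
      · exact hn
      · rw [Set.mem_singleton_iff.1 hz]; exact hn')
  have hvw : v ≠ w := fun h => g2 (Or.inl h)
  have hvw' : v ≠ w' := fun h => g2 (Or.inr h)
  have hadj : S.Adj v w → v = u := fun h => by
    have h6 : v ∈ S.neighborSet w := h.symm
    rw [hw] at h6
    exact h6.resolve_left hvw'
  have hadj' : S.Adj v w' → v = u' := fun h => by
    have h6 : v ∈ S.neighborSet w' := h.symm
    rw [hw'] at h6
    exact h6.resolve_left hvw
  by_cases hv : v = u'
  · right
    obtain ⟨h5, h6⟩ := o3_move S {w, w'} (w := w') (u := u') (Or.inr rfl) hxw' g1 g2 g3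
      (fun z hz h7 => by
        rcases hz with hz | hz
        · rw [hz] at h7
          exact (huu ((hadj h7).symm.trans hv)).elim
        · exact ⟨hz, hv⟩)
    exact ⟨v, g1, h5, by rw [h6, g4]⟩
  · left
    obtain ⟨h5, h6⟩ := o3_move S {w, w'} (w := w) (u := u) (Or.inl rfl) hxw g1 g2 g3
      (fun z hz h7 => by
        rcases hz with hz | hz
        · rw [hz] at h7
          exact ⟨hz, hadj h7⟩
        · rw [Set.mem_singleton_iff.1 hz] at h7
          exact (hv (hadj' h7)).elim)
    exact ⟨v, g1, h5, by rw [h6, g4]⟩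

end Pool.Agent.H38H
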