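import Pool.Agent.Lib.H38H.P13

/-!
Module SL, two-sided exploration and attempts. Definitions only.

An attempt starts with two ends `x0`, `y0` in different unknown slots: explore to depth `D` from `x0` (avoiding `y0.1`), then from `y0`
(avoiding the slots of the x-leaves), then reveal the slots of all leaves. Success: some pair (x-leaf, y-leaf) whose contents are partners and
whose final potential is positive.
-/

set_option autoImplicit false

namespace Pool.Agent.H38H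

open Classical

variable {ι : Type} [Fintype ι] {L : ℕ}

/-- two halves are partners -/
def Clo (I : Inst ι L) (y z : ι × Bool) : Prop := I.Mc y = some z ∨ I.Md y.1 = some z.1

/-- the state after the exploration from `x0` -/
noncomputable def sx (I : Inst ι L) (Av K : Finset ι) (x0 y0 : ι × Bool) (D : ℕ) (h : SB ι) : PS ι :=
  prun I (insert y0.1 Av) h (4 * 2 ^ D) (pinit K x0 D)

/-- the state after the exploration from `y0` -/
noncomputable def sy (I : Inst ι L) (Av K : Finset ι) (x0 y0 : ι × Bool) (D : ℕ) (h : SB ι) : PS ι :=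
  prun I (Av ∪ (sx I Av K x0 y0 D h).slots) h (4 * 2 ^ D) (pinit (sx I Av K x0 y0 D h).K y0 D)

/-- sum of the final potential over the pairs of leaves -/
noncomputable def gsum (I : Inst ι L) (Av K : Finset ι) (x0 y0 : ι × Bool) (D : ℕ)
    (Vf : List (Mv ι) → List (Mv ι) → ℝ) (h : SB ι) : ℝ :=
  if y0.1 ∈ (sx I Av K x0 y0 D h).K then 0
  else ((sx I Av K x0 y0 D h).fin.map (fun ν =>
    if ν.e.1 ∈ (sy I Av K x0 y0 D h).K then 0
    else ((sy I Av K x0 y0 D h).fin.map (fun μ => Vf ν.m μ.m)).sum)).sum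

/-- the slots revealed by an attempt -/
noncomputable def attR (I : Inst ι L) (Av K : Finset ι) (x0 y0 : ι × Bool) (D : ℕ) (h : SB ι) : Finset ι :=
  if y0.1 ∈ (sx I Av K x0 y0 D h).K then (sx I Av K x0 y0 D h).K
  else (sy I Av K x0 y0 D h).K ∪ (sx I Av K x0 y0 D h).slots ∪ (sy I Av K x0 y0 D h).slots

/-- success of an attempt -/
def Succ (I : Inst ι L) (Av K : Finset ι) (x0 y0 : ι × Bool) (D : ℕ)
    (Vf : List (Mv ι) → List (Mv ι) → ℝ) (h : SB ι) : Prop :=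
  y0.1 ∉ (sx I Av K x0 y0 D h).K ∧
    ∃ ν ∈ (sx I Av K x0 y0 D h).fin, ∃ μ ∈ (sy I Av K x0 y0 D h).fin,
      ν.e.1 ∉ (sy I Av K x0 y0 D h).K ∧ 0 < Vf ν.m μ.m ∧ Clo I (ap h ν.e) (ap h μ.e)

/-- two-sided potentials (x-moves first, then y-moves) -/
structure Pot2 (I : Inst ι L) (K : Finset ι) (x0 y0 : ι × Bool) (E : ℕ) (lam lamf : ℝ)
    (V Vf : List (Mv ι) → List (Mv ι) → ℝ) : Prop where
  nn : ∀ mx my, 0 ≤ V mx my
  nnf : ∀ mx my, 0 ≤ Vf mx my
  lef : ∀ mx my, Vf mx my ≤ 1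
  xout : ∀ mx, Cons I K x0 mx → y0.1 ∉ x0.1 :: slotsOf mx → ∀ B : Finset ι, K ⊆ B →
    (∀ p ∈ x0.1 :: slotsOf mx, p ∈ B) → y0.1 ∈ B → B.card ≤ E →
    lam * V mx [] * (2 * (Fintype.card ι : ℝ)) ≤ outSum I B (fun a => V (a :: mx) [])
  xmid : ∀ mx, Cons I K x0 mx → y0.1 ∉ x0.1 :: slotsOf mx → ∀ B : Finset ι, K ⊆ B →
    (∀ p ∈ x0.1 :: slotsOf mx, p ∈ B) → y0.1 ∈ B → B.card ≤ E →
    lam * V mx [] * (2 * (Fintype.card ι : ℝ)) ≤ midSum B (fun a => V (a :: mx) [])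
  yout : ∀ mx my, Cons I K x0 mx → Cons I K y0 my →
    ((x0.1 :: slotsOf mx) ++ (y0.1 :: slotsOf my)).Nodup → ∀ B : Finset ι, K ⊆ B →
    (∀ p ∈ (x0.1 :: slotsOf mx) ++ (y0.1 :: slotsOf my), p ∈ B) → B.card ≤ E →
    lam * V mx my * (2 * (Fintype.card ι : ℝ)) ≤ outSum I B (fun a => V mx (a :: my))
  ymid : ∀ mx my, Cons I K x0 mx → Cons I K y0 my →
    ((x0.1 :: slotsOf mx) ++ (y0.1 :: slotsOf my)).Nodup → ∀ B : Finset ι, K ⊆ B →
    (∀ p ∈ (x0.1 :: slotsOf mx) ++ (y0.1 :: slotsOf my), p ∈ B) → B.card ≤ E →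
    lam * V mx my * (2 * (Fintype.card ι : ℝ)) ≤ midSum B (fun a => V mx (a :: my))
  youtf : ∀ mx my, Cons I K x0 mx → Cons I K y0 my →
    ((x0.1 :: slotsOf mx) ++ (y0.1 :: slotsOf my)).Nodup → ∀ B : Finset ι, K ⊆ B →
    (∀ p ∈ (x0.1 :: slotsOf mx) ++ (y0.1 :: slotsOf my), p ∈ B) → B.card ≤ E →
    lamf * V mx my * (2 * (Fintype.card ι : ℝ)) ≤ outSum I B (fun a => Vf mx (a :: my))

/-- size conditions of an attempt -/
structure AttOK (I : Inst ι L) (Av K : Finset ι) (x0 y0 : ι × Bool) (D E : ℕ) (eps : ℝ) : Prop where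
  hx : x0.1 ∉ K
  hy : y0.1 ∉ K
  hxy : x0.1 ≠ y0.1
  hE : K.card + 12 * 2 ^ D + Av.card + 2 * L + 3 ≤ E
  hn : 4 * (K.card + 12 * 2 ^ D + L + 10) ≤ Fintype.card ι
  e0 : 0 ≤ eps
  e1 : eps ≤ 1
  heps : 8 * ((D : ℝ) + 2) * (K.card + 12 * 2 ^ D + L + 1) ≤ eps * Fintype.card ι

end Pool.Agent.H38H
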