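import Pool.Agent.Lib.H38H.PR1

/-!
H38H, chunk PR2 (M): the number of perfect matchings which contain given pairs. Pure Mathlib.
-/

set_option autoImplicit false

namespace Pool.Agent.H38H

open Classical

/-- PROOF. If s(p,q) is in ξ then R p = q, and R q = p since s(q,p) = s(p,q). p = q contradicts R p ≠ p. If v is in e and f, both in ξ, then
e = s(v, R v) = f. -/
theorem marks_of_contains {α : Type} {R : PM α} {ξ : Finset (Sym2 α)} (h : Contains R ξ) : Marks ξ := by
  constructor
  · intro e he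
    induction e using Sym2.ind with
    | _ p q =>
      rw [Sym2.mk_isDiag_iff]
      intro hpq
      have h1 := h p q he
      rw [← hpq] at h1
      exact R.2.2 p h1
  · intro e he f hf hne v hve hvf
    obtain ⟨a, rfl⟩ := Sym2.mem_iff_exists.1 hve
    obtain ⟨b, rfl⟩ := Sym2.mem_iff_exists.1 hvf
    apply hne
    rw [← h v a he, ← h v b hf]

/-- PROOF. ξ is a set of pairwise disjoint sets with two elements (Sym2.toFinset, `Sym2.card_toFinset_of_not_isDiag`); card of their union is 2 ξ.card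
(Finset.card_biUnion); the complement. Or induction on ξ. -/
theorem card_compl {α : Type} [Fintype α] {ξ : Finset (Sym2 α)} (h : Marks ξ) :
    Fintype.card {x : α // ∀ e ∈ ξ, x ∉ e} + 2 * ξ.card = Fintype.card α := by
  have h1 : (ξ.biUnion fun e => e.toFinset).card = 2 * ξ.card := by
    rw [Finset.card_biUnion]
    · rw [Finset.sum_congr rfl fun e he => Sym2.card_toFinset_of_not_isDiag e (h.1 e he),
        Finset.sum_const, smul_eq_mul, mul_comm]
    · intro e he f hf hne
      change Disjoint e.toFinset f.toFinset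
      rw [Finset.disjoint_left]
      intro v hv hv'
      rw [Sym2.mem_toFinset] at hv hv'
      exact h.2 e he f hf hne v hv hv'
  rw [Fintype.card_subtype, ← h1, ← Finset.card_univ]
  have h2 : Finset.univ.filter (fun x : α => ∀ e ∈ ξ, x ∉ e) =
      Finset.univ \ (ξ.biUnion fun e => e.toFinset) := by
    ext x
    simp only [Finset.mem_filter, Finset.mem_univ, true_and, Finset.mem_sdiff, Finset.mem_biUnion,
      Sym2.mem_toFinset, not_exists, not_and]
  rw [h2]
  exact Finset.card_sdiff_add_card_eq_card (Finset.subset_univ _)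

/-- PROOF. Restriction of R to the complement of the union of the pairs is a bijection. (If x is not in a pair of ξ and R x is in e = s(R x, y) in ξ then R (R x) = y, so
x = y is in e.) Injective: on the union R is given by ξ. Surjective: glue R' with the involution v ↦ the other element of the pair of ξ
that contains v (Sym2.Mem.other; `Equiv.Perm.ofSubtype R' * ` product, or define the function by cases and use
`Function.Involutive.toPerm`). -/
theorem card_contains {α : Type} [Fintype α] {ξ : Finset (Sym2 α)} (h : Marks ξ) :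
    Nat.card {R : PM α // Contains R ξ} = Nat.card (PM {x : α // ∀ e ∈ ξ, x ∉ e}) := by
  have hmem : ∀ R : PM α, Contains R ξ → ∀ x, (∀ e ∈ ξ, R.1 x ∉ e) ↔ ∀ e ∈ ξ, x ∉ e := by
    have key : ∀ R : PM α, Contains R ξ → ∀ x, (∀ e ∈ ξ, x ∉ e) → ∀ e ∈ ξ, R.1 x ∉ e := by
      intro R hR x hx e he hRx
      obtain ⟨y, rfl⟩ := Sym2.mem_iff_exists.1 hRx
      have h1 := hR _ _ he
      rw [R.2.1] at h1
      apply hx _ he
      rw [h1]
      exact Sym2.mem_mk_right _ _
    intro R hR x
    refine ⟨fun h1 => ?_, key R hR x⟩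
    have h2 := key R hR (R.1 x) h1
    rwa [R.2.1] at h2
  let Φ : {R : PM α // Contains R ξ} → PM {x : α // ∀ e ∈ ξ, x ∉ e} := fun R =>
    ⟨R.1.1.subtypePerm (fun x => hmem R.1 R.2 x),
      fun x => Subtype.ext (R.1.2.1 x.1), fun x hx => R.1.2.2 x.1 (congrArg Subtype.val hx)⟩
  apply Nat.card_eq_of_bijective Φ
  constructor
  · rintro ⟨R, hR⟩ ⟨S, hS⟩ hRS
    apply Subtype.ext
    apply Subtype.ext
    apply Equiv.ext
    intro x
    by_cases hx : ∀ e ∈ ξ, x ∉ e
    · have h1 := congrArg (fun P : PM {x : α // ∀ e ∈ ξ, x ∉ e} => ((P.1 ⟨x, hx⟩ : {x : α // ∀ e ∈ ξ, x ∉ e}) : α)) hRS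
      exact h1
    · push Not at hx
      obtain ⟨e, he, hxe⟩ := hx
      obtain ⟨y, rfl⟩ := Sym2.mem_iff_exists.1 hxe
      exact (hR x y he).trans (hS x y he).symm
  · intro R'
    have hex : ∀ x : α, (¬ ∀ e ∈ ξ, x ∉ e) → ∃ y, s(x, y) ∈ ξ := by
      intro x hx
      push Not at hx
      obtain ⟨e, he, hxe⟩ := hx
      obtain ⟨y, rfl⟩ := Sym2.mem_iff_exists.1 hxe
      exact ⟨y, he⟩
    have hun : ∀ x y z : α, s(x, y) ∈ ξ → s(x, z) ∈ ξ → y = z := by
      intro x y z h1 h2
      by_contra hne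
      have h3 : s(x, y) ≠ s(x, z) := fun h4 => hne (Sym2.congr_right.1 h4)
      exact h.2 _ h1 _ h2 h3 x (Sym2.mem_mk_left _ _) (Sym2.mem_mk_left _ _)
    let g : α → α := fun x => if hx : ∀ e ∈ ξ, x ∉ e then ((R'.1 ⟨x, hx⟩ : {x : α // ∀ e ∈ ξ, x ∉ e}) : α)
      else (hex x hx).choose
    have hg1 : ∀ (x : α) (hx : ∀ e ∈ ξ, x ∉ e), g x = ((R'.1 ⟨x, hx⟩ : {x : α // ∀ e ∈ ξ, x ∉ e}) : α) :=
      fun x hx => dif_pos hx
    have hg2 : ∀ x y : α, s(x, y) ∈ ξ → g x = y := by
      intro x y hxy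
      have hx : ¬ ∀ e ∈ ξ, x ∉ e := fun h1 => h1 _ hxy (Sym2.mem_mk_left _ _)
      have h1 : g x = (hex x hx).choose := dif_neg hx
      rw [h1]
      exact hun x _ _ (hex x hx).choose_spec hxy
    have hgg : Function.Involutive g := by
      intro x
      by_cases hx : ∀ e ∈ ξ, x ∉ e
      · rw [hg1 x hx, hg1 _ (R'.1 ⟨x, hx⟩).2]
        exact congrArg Subtype.val (R'.2.1 ⟨x, hx⟩)
      · obtain ⟨y, hy⟩ := hex x hx
        rw [hg2 x y hy, hg2 y x (by rw [Sym2.eq_swap]; exact hy)]
    have hgx : ∀ x, g x ≠ x := by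
      intro x
      by_cases hx : ∀ e ∈ ξ, x ∉ e
      · rw [hg1 x hx]
        exact fun h1 => R'.2.2 ⟨x, hx⟩ (Subtype.ext h1)
      · obtain ⟨y, hy⟩ := hex x hx
        rw [hg2 x y hy]
        rintro rfl
        exact h.1 _ hy (Sym2.mk_isDiag_iff.2 rfl)
    refine ⟨⟨⟨hgg.toPerm g, hgg, hgx⟩, fun p q hpq => hg2 p q hpq⟩, ?_⟩
    apply Subtype.ext
    apply Equiv.ext
    intro x
    apply Subtype.ext
    exact hg1 x.1 x.2

theorem card_contains' {α : Type} [Fintype α] (hα : Even (Fintype.card α)) {ξ : Finset (Sym2 α)}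
    (h : Marks ξ) :
    Nat.card {R : PM α // Contains R ξ} = Nat.doubleFactorial (Fintype.card α - 2 * ξ.card - 1) := by
  have h1 := card_compl h
  rw [card_contains h, card_PM]
  · congr 2
    omega
  · have : Fintype.card {x : α // ∀ e ∈ ξ, x ∉ e} = Fintype.card α - 2 * ξ.card := by omega
    rw [this]
    obtain ⟨m, hm⟩ := hα
    exact ⟨m - ξ.card, by omega⟩

end Pool.Agent.H38H
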