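import Pool.Agent.Lib.H38H.O0

/-!
Chunk SLO1 (M). Rays and balls.

Proofs. `ray_rev`: `ray x (k+1) = some y` means `ray x k = some z`, `outer (flip z) = some y`, so `outer y = some (flip z)`: from `flip y`
one step of the ray gives `outer (flip (flip y)) = flip z`, then induction: `ray (flip y) (k+1)`: use the lemma
`ray x (k+1) = (I.outer (flip x)).bind (fun y => ray y k)` (`ray_succ'`). `ball_symm`: `ray (p,i) j = some y`, `y.1 = q`; then `ray (flip y) j = some (flip (p,i))`.
`ball_triangle`: `ray (p,i) j = some y`, `y.1 = q`, `ray (q,i') k = some z`: if `(q,i') = y` then `ray (p,i) (j+k) = some z`; if `(q,i') = flip y`: compare `ray (flip y) j = some (flip (p,i))` with `ray (flip y) k = some z`: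
if `k ≤ j` then `z` is on the way: `ray (p,i) (j-k) = some (flip z)`; if `k > j`: `ray (flip (p,i)) (k-j) = some z`. `ball_card`: the ball is the image of the index set
`Bool × {0..k}`, and both rays start in the slot `p`: at most `2k+1` slots.
-/

set_option autoImplicit false

namespace Pool.Agent.H38H

open Classical

variable {ι : Type} [Fintype ι] {L : ℕ}

theorem ray_succ' (I : Inst ι L) (x : ι × Bool) (k : ℕ) :
    I.ray x (k + 1) = (I.outer (flip x)).bind (fun y => I.ray y k) := by
  induction k with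
  | zero =>
    simp only [Inst.ray, Option.bind_some]
    rcases I.outer (flip x) with _ | y <;> rfl
  | succ k ih =>
    rw [Inst.ray, ih, Option.bind_assoc]
    rfl

theorem ray_add (I : Inst ι L) (x : ι × Bool) (j k : ℕ) :
    I.ray x (j + k) = (I.ray x j).bind (fun y => I.ray y k) := by
  induction k with
  | zero =>
    rw [Nat.add_zero]
    rcases I.ray x j with _ | y <;> rfl
  | succ k ih =>
    rw [← Nat.add_assoc, Inst.ray, ih, Option.bind_assoc]
    rfl

theorem ray_rev (I : Inst ι L) {x y : ι × Bool} {k : ℕ} (e : I.ray x k = some y) :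
    I.ray (flip y) k = some (flip x) := by
  induction k generalizing y with
  | zero =>
    simp only [Inst.ray, Option.some.injEq] at e ⊢
    rw [e]
  | succ k ih =>
    rw [Inst.ray, Option.bind_eq_some_iff] at e
    obtain ⟨z, hz, hzy⟩ := e
    rw [ray_succ', flip_flip, I.outer_symm _ _ hzy, Option.bind_some]
    exact ih hz

theorem ray_mono (I : Inst ι L) {x : ι × Bool} {j k : ℕ} (hj : j ≤ k) (e : I.ray x k ≠ none) :
    I.ray x j ≠ none := by
  intro h
  obtain ⟨d, rfl⟩ := Nat.exists_eq_add_of_le hj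
  rw [ray_add, h] at e
  exact e rfl

theorem ray_sameF (I : Inst ι L) {x y : ι × Bool} {k : ℕ} (e : I.ray x k = some y) : I.SameF x y := by
  induction k generalizing y with
  | zero =>
    simp only [Inst.ray, Option.some.injEq] at e
    rw [e]
    exact Relation.ReflTransGen.refl
  | succ k ih =>
    rw [Inst.ray, Option.bind_eq_some_iff] at e
    obtain ⟨z, hz, hzy⟩ := e
    exact ((ih hz).tail (Or.inl rfl)).tail (Or.inr hzy)

theorem o1_mem_ball (I : Inst ι L) {k : ℕ} {p q : ι} :
    q ∈ I.ball k p ↔ ∃ i j, j ≤ k ∧ ∃ y, I.ray (p, i) j = some y ∧ y.1 = q := by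
  simp [Inst.ball]

theorem o1_mem_ball' (I : Inst ι L) {x y : ι × Bool} {j k : ℕ} (hj : j ≤ k) (e : I.ray x j = some y) :
    y.1 ∈ I.ball k x.1 := by
  rw [o1_mem_ball]
  exact ⟨x.2, j, hj, y, e, rfl⟩

theorem ball_self (I : Inst ι L) (k : ℕ) (p : ι) : p ∈ I.ball k p := by
  rw [o1_mem_ball]
  exact ⟨false, 0, Nat.zero_le _, (p, false), rfl, rfl⟩

theorem ball_mono (I : Inst ι L) {j k : ℕ} (hj : j ≤ k) (p : ι) : I.ball j p ⊆ I.ball k p := by
  intro q hq
  rw [o1_mem_ball] at hq ⊢
  obtain ⟨i, m, hm, y, h1, h2⟩ := hq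
  exact ⟨i, m, hm.trans hj, y, h1, h2⟩

theorem ball_symm (I : Inst ι L) {k : ℕ} {p q : ι} (e : q ∈ I.ball k p) : p ∈ I.ball k q := by
  rw [o1_mem_ball] at e
  obtain ⟨i, m, hm, y, h1, h2⟩ := e
  have h3 := o1_mem_ball' I hm (ray_rev I h1)
  rw [flip_fst, flip_fst, h2] at h3
  exact h3

theorem ball_triangle (I : Inst ι L) {j k : ℕ} {p q r : ι} (e : q ∈ I.ball j p) (e' : r ∈ I.ball k q) :
    r ∈ I.ball (j + k) p := by
  rw [o1_mem_ball] at e e'
  obtain ⟨i, m, hm, y, h1, h2⟩ := e
  obtain ⟨i', m', hm', z, h1', h2'⟩ := e'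
  rcases eq_or_flip (x := (q, i')) (y := y) (by rw [h2]) with h | h
  · rw [h] at h1'
    have h3 : I.ray (p, i) (m + m') = some z := by rw [ray_add, h1, Option.bind_some, h1']
    have h4 := o1_mem_ball' I (Nat.add_le_add hm hm') h3
    rw [h2'] at h4
    exact h4
  · rw [h] at h1'
    have h5 := ray_rev I h1
    rcases le_total m' m with hle | hle
    · obtain ⟨d, rfl⟩ := Nat.exists_eq_add_of_le hle
      rw [ray_add, h1', Option.bind_some] at h5
      have h6 := ray_rev I h5
      rw [flip_flip] at h6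
      have h7 := o1_mem_ball' I (show d ≤ j + k by omega) h6
      rw [flip_fst, h2'] at h7
      exact h7
    · obtain ⟨d, rfl⟩ := Nat.exists_eq_add_of_le hle
      rw [ray_add, h5, Option.bind_some] at h1'
      have h7 := o1_mem_ball' I (show d ≤ j + k by omega) h1'
      rw [flip_fst, h2'] at h7
      exact h7

theorem ball_card (I : Inst ι L) (k : ℕ) (p : ι) : (I.ball k p).card ≤ 2 * k + 1 := by
  have h1 : I.ball k p ⊆ insert p (((Finset.univ : Finset Bool) ×ˢ Finset.Icc 1 k).image
      (fun z => ((I.ray (p, z.1) z.2).getD (p, false)).1)) := by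
    intro q hq
    rw [o1_mem_ball] at hq
    obtain ⟨i, m, hm, y, h1, h2⟩ := hq
    rw [Finset.mem_insert]
    rcases Nat.eq_zero_or_pos m with h0 | h0
    · left
      subst h0
      simp only [Inst.ray, Option.some.injEq] at h1
      rw [← h2, ← h1]
    · right
      rw [Finset.mem_image]
      exact ⟨(i, m), by simp; omega, by simp only; rw [h1, Option.getD_some, h2]⟩
  refine (Finset.card_le_card h1).trans ((Finset.card_insert_le _ _).trans ?_)
  have h2 := Finset.card_image_le (s := (Finset.univ : Finset Bool) ×ˢ Finset.Icc 1 k)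
    (f := fun z => ((I.ray (p, z.1) z.2).getD (p, false)).1)
  rw [Finset.card_product, Finset.card_univ, Fintype.card_bool, Nat.card_Icc] at h2
  omega

/-- slots joined by an outer edge are at distance at most 1 -/
theorem ball_outer (I : Inst ι L) {x y : ι × Bool} (e : I.outer x = some y) : y.1 ∈ I.ball 1 x.1 := by
  have h1 : I.ray (flip x) 1 = some y := by
    rw [ray_succ', flip_flip, e]
    rfl
  have h2 := o1_mem_ball' (x := flip x) I le_rfl h1
  exact h2

theorem o1_slot (I : Inst ι L) (p : ι) (i j : Bool) : I.SameF (p, i) (p, j) := by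
  by_cases h : i = j
  · rw [h]
    exact Relation.ReflTransGen.refl
  · refine Relation.ReflTransGen.single (Or.inl ?_)
    show (p, j) = (p, !i)
    cases i <;> cases j <;> simp_all

/-- a slot in the ball lies on the same component -/
theorem ball_sameF (I : Inst ι L) {k : ℕ} {p q : ι} (e : q ∈ I.ball k p) (i j : Bool) :
    I.SameF (p, i) (q, j) := by
  rw [o1_mem_ball] at e
  obtain ⟨i', m, -, y, h1, h2⟩ := e
  have h3 := ray_sameF I h1
  have h4 : y = (q, y.2) := by rw [← h2]
  rw [h4] at h3
  exact ((o1_slot I p i i').trans h3).trans (o1_slot I q y.2 j)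

end Pool.Agent.H38H
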