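import Pool.Agent.Lib.H38H.R.R4
import Pool.Agent.Lib.H38H.R.R6
import Pool.Agent.Lib.H38H.R.R7
import Pool.Agent.Lib.H38H.R.R15

/-!
Module SL, part R: the exploration of the root trees (designer: helper92). Interface.

Main points. `rcK_stop`: for `h'` agreeing with `h` on `rcK h` all nodes of length at most `r` are the same. `rc_prob`: enumerate the indices `s = (root, string)` with
`|string| < r` so that `(x, l)` comes before `(x, b :: l)`; `K_i` = slots of the ends and targets of the first `i` indices. The index `i` (with end slot `e`, which may or may not be in `K_i`) is FLAGGED if its target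
slot `p` is not in `insert e K_i` and `p` is short or in `ball (10 ℓ + 4)` of a slot of `insert e K_i` or of a root slot. Given `K_i` the probability that `i` is flagged is at most
`δ ≤ g^-46` (reveal `e` if it is unknown; if the partner link is known then `p ∈ insert e K_i`; if it is unknown its position is uniform: `avg_link`). So `avg X^(#flagged) ≤ (1 + X δ)^#indices ≤ 2` for `X = g^44`. If `RC` holds then the number of restricted indices is
at most twice the number of flagged ones: an unflagged restricted index has its target within `5 ℓ + 2` of a LATER target, whose index is flagged, and two unflagged indices near the same later target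
would be within `10 ℓ + 4` of each other.
-/

set_option autoImplicit false

namespace Pool.Agent.H38H

open Classical

variable {ι : Type} [Fintype ι] {L : ℕ}

theorem validT_exists (I : Inst ι L) (K0 : ℕ) : ∃ T : Finset (ι × Bool), I.ValidT K0 T :=
  validT_exists' I K0

theorem validT_card (I : Inst ι L) {K0 : ℕ} {T : Finset (ι × Bool)} (hT : I.ValidT K0 T) : T.card ≤ L :=
  validT_card' I hT

theorem root_card (I : Inst ι L) {K0 : ℕ} {T : Finset (ι × Bool)} (hT : I.ValidT K0 T) :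
    (Finset.univ.filter (fun x => I.Root T x)).card ≤ 4 * L :=
  root_card' I hT

theorem rcK_stop (I : Inst ι L) (T : Finset (ι × Bool)) (r : ℕ) (h : SB ι) : Stop ∅ h (I.rcK T r) :=
  rcK_stop' I T r h

theorem rcK_card (I : Inst ι L) {K0 : ℕ} {T : Finset (ι × Bool)} (hT : I.ValidT K0 T) (r : ℕ) (h : SB ι) :
    (I.rcK T r h).card ≤ 4 * L * 2 ^ (r + 2) :=
  rcK_card_aux I T r _ h (root_card' I hT)

theorem rcA_card (I : Inst ι L) {K0 : ℕ} {T : Finset (ι × Bool)} (hT : I.ValidT K0 T) (r : ℕ) (h : SB ι) :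
    (I.rcA T r h).card ≤ 4 * L * 2 ^ (r + 2) :=
  rcA_card_aux I T r _ h (root_card' I hT)

theorem rcK_sub (I : Inst ι L) {K0 r : ℕ} {T : Finset (ι × Bool)} {h : SB ι} (rc : I.RC h r K0 T) :
    I.rcK T r h ⊆ I.rcA T r h :=
  rcK_sub' I rc

theorem rcS_sub (I : Inst ι L) {r : ℕ} {T : Finset (ι × Bool)} {h : SB ι} {x : ι × Bool} (hx : I.Root T x) :
    I.rcS r h x ⊆ I.rcA T r h :=
  rcS_sub' I hx

theorem rc_node_congr (I : Inst ι L) {T : Finset (ι × Bool)} {r : ℕ} {h h' : SB ι}
    (hh : h' ∈ cyl (I.rcK T r h) h) {x : ι × Bool} (hx : I.Root T x) {l : List Bool} (hl : l.length ≤ r) :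
    I.node h' x l = I.node h x l :=
  rc_node_congr' I hh hx hl

theorem rc_congr (I : Inst ι L) {T : Finset (ι × Bool)} {r K0 : ℕ} {h h' : SB ι}
    (hh : h' ∈ cyl (I.rcK T r h) h) : I.RC h' r K0 T ↔ I.RC h r K0 T :=
  rc_congr' I hh

theorem rc_tg_congr (I : Inst ι L) {T : Finset (ι × Bool)} {r : ℕ} {h h' : SB ι}
    (hh : h' ∈ cyl (I.rcK T r h) h) {x : ι × Bool} (hx : I.Root T x) {l : List Bool} (hl : l.length < r) :
    I.tg h' (x, l) = I.tg h (x, l) :=
  rc_tg_congr' I hh hx hl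

theorem restr_congr (I : Inst ι L) {T : Finset (ι × Bool)} {r ℓ : ℕ} {h h' : SB ι}
    (hh : h' ∈ cyl (I.rcK T r h) h) (s : (ι × Bool) × List Bool) :
    I.Restr T r ℓ h' s ↔ I.Restr T r ℓ h s :=
  restr_congr' I hh s

theorem restr_finite (I : Inst ι L) (T : Finset (ι × Bool)) (r ℓ : ℕ) (h : SB ι) :
    {s | I.Restr T r ℓ h s}.Finite :=
  restr_finite' I T r ℓ h

theorem root_ne (I : Inst ι L) {T : Finset (ι × Bool)} {r K0 : ℕ} {h : SB ι} (rc : I.RC h r K0 T)
    {x y : ι × Bool} (hx : I.Root T x) (hy : I.Root T y) (hxy : x ≠ y) : x.1 ≠ y.1 :=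
  root_ne' I rc hx hy hxy

theorem root_slot (I : Inst ι L) {T : Finset (ι × Bool)} {r K0 : ℕ} {h : SB ι} (rc : I.RC h r K0 T)
    {x y : ι × Bool} (hx : I.Root T x) (hy : I.Root T y) : x.1 ∉ I.rcS r h y :=
  root_slot' I rc hx hy

theorem rcS_disj (I : Inst ι L) {T : Finset (ι × Bool)} {r K0 : ℕ} {h : SB ι} (rc : I.RC h r K0 T)
    {x y : ι × Bool} (hx : I.Root T x) (hy : I.Root T y) (hxy : x ≠ y) :
    Disjoint (I.rcS r h x) (I.rcS r h y) :=
  rcS_disj' I rc hx hy hxy

/-- leaves of the root trees: unknown -/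
theorem leaf_unk (I : Inst ι L) {T : Finset (ι × Bool)} {r K0 : ℕ} {h : SB ι} (rc : I.RC h r K0 T) (hK0 : 1 ≤ K0)
    {x : ι × Bool} (hx : I.Root T x) {l : List Bool} (hl : l.length + 1 = r) {q : Mv ι}
    (hq : I.node h x (false :: l) = some q) : q.2.1 ∉ I.rcK T r h :=
  leaf_unk' I rc hK0 hx hl hq

/-- few slots of the root trees lie on a short component without roots -/
theorem rc_short_card (I : Inst ι L) {T : Finset (ι × Bool)} {r K0 ℓ ρ : ℕ} {h : SB ι} (rc : I.RC h r K0 T)
    (hρ : {s | I.Restr T r ℓ h s}.ncard ≤ ρ) {x : ι × Bool} (hx : x.1 ∈ I.short ℓ)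
    (hn : ∀ y, I.SameF x y → ¬ I.Root T y) :
    ((I.rcA T r h).filter (fun p => I.SameF x (p, false))).card ≤ 3 * ρ :=
  rc_short_card' I rc hρ hx hn

/-- an outer edge of a cycle avoiding a set of slots -/
theorem place_exists (I : Inst ι L) {x : ι × Bool} (B : Finset ι) {b : ℕ}
    (hB : (B.filter (fun p => I.SameF x (p, false))).card ≤ b) (ho : ∀ y, I.SameF x y → I.outer y ≠ none)
    (hc : 4 * b + 2 < Nat.card {y // I.SameF x y}) :
    ∃ y z, I.SameF x y ∧ I.outer y = some z ∧ y.1 ∉ B ∧ z.1 ∉ B ∧ y.1 ≠ z.1 :=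
  place_exists' I B hB ho hc

/-- few restricted nodes -/
theorem rc_prob (r t : ℕ) : ∃ n₀ : ℕ, ∀ n : ℕ, n₀ ≤ n → ∀ L : ℕ, (L : ℝ) ≤ (Real.log n) ^ 3 →
    ∀ (ι : Type) [Fintype ι], Fintype.card ι = n → ∀ (I : Inst ι L) (K0 : ℕ) (T : Finset (ι × Bool)),
      I.ValidT K0 T → 1 ≤ K0 → ∀ h : SB ι,
      avg ∅ h (fun h' => if I.RC h' r K0 T ∧ 2 * t ≤ {s | I.Restr T r (gg n ^ 950) h' s}.ncard then 1 else 0) ≤
        2 / (gg n : ℝ) ^ (40 * t) :=
  rc_prob' r t

end Pool.Agent.H38H
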