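import Pool.Agent.Lib.H38H.WG0
import Pool.Agent.Lib.H38H.WR
import Pool.Agent.Lib.H38H.O1
import Pool.Agent.Lib.H38H.O2

/-!
Module SL, part G', root trees in a state (designer: helper75). Interface. Uses `g1_move`, `g1_choice` (file WG0, module of helper96) and may use everything in WR.

`rc_leaves`: follow the strings `l` from the root `x` in the state `S`; a node whose target is not restricted: both bits are allowed (the target is isolated: outside `ball (5ℓ+2)` of `Tg` and of the other targets of the tree,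
not short, so `Iso` holds with the current touched set, contained in `ball 1` of the current `Tg`); at a restricted node at least one of the two bits satisfies `NoCyc` (`g1_choice`). So there are at least `2^(k-ρ)`
allowed strings of length `k`. Take `k = r - 1`, delete the at most `ρ` strings with restricted target, and make a last step with the bit `false`.
-/

set_option autoImplicit false

namespace Pool.Agent.H38H

open Classical

variable {ι : Type} [Fintype ι] {L : ℕ}

/-! ### a pure lemma on binary trees -/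

theorem wg1_tree {P R : List Bool → Prop} {r ρ : ℕ} (h0 : P [])
    (h1 : ∀ l : List Bool, l.length < r → P l → ¬ R l → ∀ b, P (b :: l))
    (h2 : ∀ l : List Bool, l.length < r → P l → R l → ∃ b, P (b :: l))
    (hR : ∀ F : Finset (List Bool), (∀ l ∈ F, l.length < r ∧ R l) → F.card ≤ ρ) {k : ℕ} (hk : k ≤ r) :
    ∃ A : Finset (List Bool), (∀ l ∈ A, l.length = k ∧ P l) ∧ 2 ^ (k - ρ) ≤ A.card := by
  have main : ∀ k : ℕ, k ≤ r → ∃ A F : Finset (List Bool), (∀ l ∈ A, l.length = k ∧ P l) ∧
      (∀ l ∈ F, l.length < k ∧ R l) ∧ 2 ^ k ≤ A.card * 2 ^ F.card := by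
    intro k
    induction k with
    | zero =>
      intro _
      refine ⟨{[]}, ∅, ?_, ?_, ?_⟩
      · intro l hl
        rw [Finset.mem_singleton] at hl
        rw [hl]
        exact ⟨rfl, h0⟩
      · intro l hl
        exact absurd hl (Finset.notMem_empty l)
      · simp
    | succ k ih =>
      intro hk
      obtain ⟨A, F, hA, hF, hc⟩ := ih (by omega)
      by_cases hres : ∃ l0 ∈ A, R l0
      · obtain ⟨l0, hl0, hRl0⟩ := hres
        have hch : ∀ l, ∃ b, l ∈ A → P (b :: l) := by
          intro l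
          by_cases hl : l ∈ A
          · by_cases hRl : R l
            · obtain ⟨b, hb⟩ := h2 l (by rw [(hA l hl).1]; omega) (hA l hl).2 hRl
              exact ⟨b, fun _ => hb⟩
            · exact ⟨false, fun _ => h1 l (by rw [(hA l hl).1]; omega) (hA l hl).2 hRl false⟩
          · exact ⟨false, fun h => absurd h hl⟩
        choose f hf using hch
        refine ⟨A.image (fun l => f l :: l), insert l0 F, ?_, ?_, ?_⟩
        · intro l hl
          obtain ⟨m, hm, rfl⟩ := Finset.mem_image.1 hl
          exact ⟨by rw [List.length_cons, (hA m hm).1], hf m hm⟩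
        · intro l hl
          rcases Finset.mem_insert.1 hl with rfl | hl
          · exact ⟨by rw [(hA l hl0).1]; omega, hRl0⟩
          · exact ⟨(hF l hl).1.trans (Nat.lt_succ_self k), (hF l hl).2⟩
        · have hnot : l0 ∉ F := by
            intro h
            have h3 := (hF l0 h).1
            rw [(hA l0 hl0).1] at h3
            exact lt_irrefl _ h3
          rw [Finset.card_insert_of_notMem hnot, Finset.card_image_of_injective _ (by
            intro a b hab
            exact (List.cons.inj hab).2)]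
          rw [pow_succ, pow_succ]
          calc 2 ^ k * 2 ≤ (A.card * 2 ^ F.card) * 2 := Nat.mul_le_mul_right 2 hc
            _ = A.card * (2 ^ F.card * 2) := by ring
      · refine ⟨(A ×ˢ (Finset.univ : Finset Bool)).image (fun z => z.2 :: z.1), F, ?_, ?_, ?_⟩
        · intro l hl
          obtain ⟨⟨m, b⟩, hm, rfl⟩ := Finset.mem_image.1 hl
          rw [Finset.mem_product] at hm
          refine ⟨by rw [List.length_cons, (hA m hm.1).1], ?_⟩
          exact h1 m (by rw [(hA m hm.1).1]; omega) (hA m hm.1).2 (fun h => hres ⟨m, hm.1, h⟩) b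
        · intro l hl
          exact ⟨(hF l hl).1.trans (Nat.lt_succ_self k), (hF l hl).2⟩
        · rw [Finset.card_image_of_injective _ (by
            rintro ⟨a, b⟩ ⟨c, d⟩ hab
            have h3 := List.cons.inj hab
            exact Prod.ext h3.2 h3.1), Finset.card_product, Finset.card_univ, Fintype.card_bool, pow_succ]
          calc 2 ^ k * 2 ≤ (A.card * 2 ^ F.card) * 2 := Nat.mul_le_mul_right 2 hc
            _ = A.card * 2 * 2 ^ F.card := by ring
  obtain ⟨A, F, hA, hF, hc⟩ := main k hk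
  refine ⟨A, hA, ?_⟩
  have hFc : F.card ≤ ρ := hR F fun l hl => ⟨(hF l hl).1.trans_le hk, (hF l hl).2⟩
  have hApos : 0 < A.card := by
    rcases Nat.eq_zero_or_pos A.card with h | h
    · rw [h, zero_mul] at hc
      exact absurd hc (by have := Nat.pos_of_ne_zero (pow_ne_zero k (two_ne_zero (α := ℕ))); omega)
    · exact h
  by_cases hkρ : k ≤ ρ
  · rw [Nat.sub_eq_zero_of_le hkρ, pow_zero]
    exact hApos
  · push Not at hkρ
    have h3 : 2 ^ k = 2 ^ (k - ρ) * 2 ^ ρ := by
      rw [← pow_add]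
      congr 1
      omega
    have h4 : 2 ^ (k - ρ) * 2 ^ ρ ≤ A.card * 2 ^ ρ := by
      rw [← h3]
      exact hc.trans (Nat.mul_le_mul_left _ (Nat.pow_le_pow_right (by norm_num) hFc))
    exact Nat.le_of_mul_le_mul_right h4 (Nat.pos_of_ne_zero (pow_ne_zero _ (by norm_num)))

/-! ### facts on nodes -/

theorem wg1_node_cons (I : Inst ι L) (h : SB ι) (x : ι × Bool) (b : Bool) (l : List Bool) :
    I.node h x (b :: l) = (I.node h x l).bind fun p => I.step h p.2 b := rfl

theorem wg1_node (I : Inst ι L) {h : SB ι} {x : ι × Bool} {b : Bool} {l : List Bool} {q p : Mv ι}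
    (hq : I.node h x l = some q) (hp : I.node h x (b :: l) = some p) : I.step h q.2 b = some p := by
  rw [wg1_node_cons, hq] at hp
  exact hp

theorem wg1_tgt (I : Inst ι L) {h : SB ι} {e : ι × Bool} {b : Bool} {p : Mv ι} (hp : I.step h e b = some p) :
    I.tgt h e = some p.1.1 := by
  rcases slp1_step hp with ⟨hk, y, hy, h1, -⟩ | ⟨hk, l, hl, h1, -⟩
  · unfold Inst.tgt
    rw [hk]
    show (I.Mc (ap h e)).map _ = _
    rw [hy, h1]
    rfl
  · unfold Inst.tgt
    rw [hk]
    show (I.Md (ap h e).1).map _ = _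
    rw [hl, h1]
    rfl

/-- the new end of a step is in the ball of radius one around the target -/
theorem wg1_ball (I : Inst ι L) {h : SB ι} {e : ι × Bool} {b : Bool} {p : Mv ι} (hp : I.step h e b = some p) :
    p.2.1 ∈ I.ball 1 p.1.1 := by
  rcases (step_adj I h hp).2 with ⟨h1, -⟩ | h1
  · rw [h1, flip_fst]
    exact ball_self I 1 _
  · exact ball_outer I h1

/-- if the outer partner of the target is the old end then some step returns to the old end -/
theorem wg1_back (I : Inst ι L) {h : SB ι} {e : ι × Bool} {b : Bool} {p : Mv ι} (hp : I.step h e b = some p)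
    (ho : I.outer p.1 = some e) : ∃ b' p', I.step h e b' = some p' ∧ p'.2 = e := by
  rcases slp1_step hp with ⟨hk, y, hy, h1, -⟩ | ⟨hk, l, hl, h1, h3⟩
  · refine ⟨false, (p.1, e), ?_, rfl⟩
    rw [(step_c I h hy).2, ← h1, ho]
    rfl
  · refine ⟨b, p, hp, ?_⟩
    rw [h3] at ho
    exact Option.some.inj ho

theorem wg1_tiny (I : Inst ι L) {K0 : ℕ} (hK0 : 1 ≤ K0) {w : ι × Bool} (ho : I.outer w = some (flip w)) :
    I.Tiny K0 w := by
  have h1 : ∀ y, I.SameF w y → y ∈ ({w, flip w} : Finset (ι × Bool)) := by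
    intro y hy
    unfold Inst.SameF at hy
    induction hy with
    | refl => simp
    | tail _ h2 ih =>
      rw [Finset.mem_insert, Finset.mem_singleton] at ih ⊢
      rcases ih with rfl | rfl
      · rcases h2 with h2 | h2
        · right; exact h2
        · right
          rw [ho] at h2
          exact (Option.some.inj h2).symm
      · rcases h2 with h2 | h2
        · left; rw [h2, flip_flip]
        · left
          rw [I.outer_symm _ _ ho] at h2
          exact (Option.some.inj h2).symm
  refine ⟨?_, ?_⟩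
  · intro y hy
    have h2 := h1 y hy
    rw [Finset.mem_insert, Finset.mem_singleton] at h2
    rcases h2 with rfl | rfl
    · rw [ho]; exact Option.some_ne_none _
    · rw [I.outer_symm _ _ ho]; exact Option.some_ne_none _
  · have h2 := o2_comp_le I (x := w) (S := {w, flip w}) (by simp) (by
      intro v hv u hu
      have h3 := h1 v
      rw [Finset.mem_insert, Finset.mem_singleton] at hv ⊢
      rcases hv with rfl | rfl
      · rcases hu with hu | hu
        · right; exact hu
        · right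
          rw [ho] at hu
          exact (Option.some.inj hu).symm
      · rcases hu with hu | hu
        · left; rw [hu, flip_flip]
        · left
          rw [I.outer_symm _ _ ho] at hu
          exact (Option.some.inj hu).symm)
    have h3 := Finset.card_le_two (a := w) (b := flip w)
    omega

/-- facts on one more step in a root tree -/
theorem wg1_facts {I : Inst ι L} {T : Finset (ι × Bool)} {r K0 : ℕ} {h : SB ι} (hK0 : 1 ≤ K0) (rc : I.RC h r K0 T)
    {x : ι × Bool} (hx : I.Root T x) {l : List Bool} (hl : l.length < r) {q : Mv ι}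
    (hq : I.node h x l = some q) (b : Bool) :
    ∃ p, I.node h x (b :: l) = some p ∧ I.step h q.2 b = some p ∧ p.1.1 ≠ q.2.1 ∧
      (∀ i, I.outer (p.1.1, i) ≠ none) ∧ I.outer p.1 ≠ some q.2 ∧ I.outer p.1 ≠ some (flip p.1) := by
  obtain ⟨p, hp⟩ := Option.isSome_iff_exists.1 (rc.ok x hx (b :: l) (by rw [List.length_cons]; omega))
  have hs := wg1_node I hq hp
  refine ⟨p, hp, hs, ?_, ?_, ?_, ?_⟩
  · intro he
    obtain ⟨-, -, b', hb'⟩ := rc.mixed x x hx hx b l l hl.le hl q p hq hp he.symm
    exact absurd (congrArg List.length hb') (by rw [List.length_cons]; omega)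
  · intro i hi
    have hroot : I.Root T (p.1.1, i) := Or.inl hi
    obtain ⟨-, -, b', hb'⟩ := rc.mixed (p.1.1, i) x hroot hx b [] l (Nat.zero_le _) hl
      ((p.1.1, i), (p.1.1, i)) p rfl hp rfl
    exact absurd hb' (by simp)
  · intro ho
    obtain ⟨b', p', hs', hp'⟩ := wg1_back I hs ho
    have hn : I.node h x (b' :: l) = some p' := by
      rw [wg1_node_cons, hq]
      exact hs'
    have h3 := (rc.ends x x hx hx (b' :: l) l (by rw [List.length_cons]; omega) hl.le p' q hn hq (by rw [hp'])).2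
    exact absurd (congrArg List.length h3) (by rw [List.length_cons]; omega)
  · intro ho
    exact (rc.noTiny x hx b l hl p hp).1 (wg1_tiny I hK0 ho)

/-- the slots of a new node are new -/
theorem wg1_fresh {I : Inst ι L} {T : Finset (ι × Bool)} {r K0 : ℕ} {h : SB ι} (rc : I.RC h r K0 T)
    {x : ι × Bool} (hx : I.Root T x) {l : List Bool} (hl : l.length < r) {b : Bool} {p : Mv ι}
    (hp : I.node h x (b :: l) = some p) {b' : Bool} {m : List Bool} (hm : m.length < l.length) {q' : Mv ι}
    (hq' : I.node h x (b' :: m) = some q') :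
    p.1.1 ≠ q'.2.1 ∧ p.1.1 ≠ q'.1.1 ∧ p.2.1 ≠ q'.2.1 ∧ p.2.1 ≠ q'.1.1 := by
  have hlen : ∀ c d : Bool, c :: l ≠ d :: m := by
    intro c d hcd
    exact absurd (congrArg List.length hcd) (by rw [List.length_cons, List.length_cons]; omega)
  have hlm : l ≠ m := by
    rintro rfl
    exact lt_irrefl _ hm
  refine ⟨?_, ?_, ?_, ?_⟩
  · intro he
    obtain ⟨-, -, b2, hb2⟩ := rc.mixed x x hx hx b (b' :: m) l (by rw [List.length_cons]; omega) hl q' p hq' hp he.symm
    exact hlm (List.cons.inj hb2).2.symm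
  · intro he
    exact hlm (rc.targets x x hx hx b b' l m hl (hm.trans hl) p q' hp hq' he).2
  · intro he
    exact hlen b b' (rc.ends x x hx hx (b :: l) (b' :: m) (by rw [List.length_cons]; omega)
      (by rw [List.length_cons]; omega) p q' hp hq' he).2
  · intro he
    obtain ⟨-, -, b2, hb2⟩ := rc.mixed x x hx hx b' (b :: l) m (by rw [List.length_cons]; omega) (hm.trans hl) p q' hp hq' he
    exact hlm (List.cons.inj hb2).2

theorem wg1_fresh0 {I : Inst ι L} {T : Finset (ι × Bool)} {r K0 : ℕ} {h : SB ι} (rc : I.RC h r K0 T)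
    {x : ι × Bool} (hx : I.Root T x) {l : List Bool} (hl : l.length < r) {b : Bool} {p : Mv ι}
    (hp : I.node h x (b :: l) = some p) : p.1.1 ≠ x.1 ∧ p.2.1 ≠ x.1 := by
  refine ⟨?_, ?_⟩
  · intro he
    obtain ⟨-, -, b2, hb2⟩ := rc.mixed x x hx hx b [] l (Nat.zero_le _) hl (x, x) p rfl hp he.symm
    exact absurd hb2 (by simp)
  · intro he
    have h3 := (rc.ends x x hx hx (b :: l) [] (by rw [List.length_cons]; omega) (Nat.zero_le _) p (x, x) hp rfl he).2
    exact absurd h3 (by simp)

/-! ### the states along a root tree -/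

/-- there is a state after following `l` -/
def WG1good (I : Inst ι L) (h : SB ι) (K : Finset ι) (S : SimpleGraph (ι × Bool)) (En : Finset (ι × Bool))
    (Ct Tg : Finset ι) (ℓ : ℕ) (x : ι × Bool) (l : List Bool) : Prop :=
  ∃ q, I.node h x l = some q ∧ q.2 ∉ En.erase x ∧ (l ≠ [] → q.2 ∉ En) ∧
    ∃ (S' : SimpleGraph (ι × Bool)) (Ct' Tg' : Finset ι),
      G1 I h K S' (insert q.2 (En.erase x)) Ct' ℓ ∧ (l ≠ [] → q.2.1 ∈ Ct') ∧ Ct ⊆ Ct' ∧
      (∀ p ∈ Ct', p ∈ Ct ∨ p = x.1 ∨ ∃ (b : Bool) (m : List Bool) (q' : Mv ι), m.length < l.length ∧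
        (b :: m = l ∨ m.length + 1 < l.length) ∧
        I.node h x (b :: m) = some q' ∧ (p = q'.2.1 ∨ p = q'.1.1)) ∧
      Tg ⊆ Tg' ∧ Tg'.card ≤ Tg.card + l.length ∧
      (∀ p ∈ Tg', p ∈ Tg ∨ ∃ l' : List Bool, l'.length < l.length ∧ I.tg h (x, l') = some p) ∧
      (∀ p ∈ Ct', ∃ t ∈ Tg', p ∈ I.ball 1 t) ∧ ∀ c, Cov S c → Cov S' (c + 2 * l.length)

theorem wg1_good_nil {I : Inst ι L} {h : SB ι} {K : Finset ι} {S : SimpleGraph (ι × Bool)}
    {En : Finset (ι × Bool)} {Ct Tg : Finset ι} {ℓ : ℕ} {x : ι × Bool} (g : G1 I h K S En Ct ℓ) (hx : x ∈ En)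
    (hTg : ∀ p ∈ Ct, ∃ q ∈ Tg, p ∈ I.ball 1 q) : WG1good I h K S En Ct Tg ℓ x [] := by
  refine ⟨(x, x), rfl, Finset.notMem_erase x En, fun h => absurd rfl h, S, Ct, Tg, ?_, fun h => absurd rfl h,
    Finset.Subset.refl _, fun p hp => Or.inl hp, Finset.Subset.refl _, le_rfl, fun p hp => Or.inl hp, hTg,
    fun c hc => hc⟩
  rw [Finset.insert_erase hx]
  exact g

/-- one more step -/
theorem wg1_good_step {I : Inst ι L} {T : Finset (ι × Bool)} {r K0 ℓ : ℕ} {h : SB ι} {K : Finset ι}
    {S : SimpleGraph (ι × Bool)} {En : Finset (ι × Bool)} {Ct Tg : Finset ι}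
    (hK0 : 1 ≤ K0) (hK : I.rcK T r h ⊆ K) (rc : I.RC h r K0 T) {x : ι × Bool} (hxT : I.Root T x)
    (hCt : ∀ p ∈ I.rcS r h x, p ∉ Ct) (hxTg : x.1 ∈ Tg) {l : List Bool} (hl : l.length < r)
    {q : Mv ι} (hq : I.node h x l = some q) (hq1 : q.2 ∉ En.erase x) (hq2 : l ≠ [] → q.2 ∉ En)
    {S' : SimpleGraph (ι × Bool)} {Ct' Tg' : Finset ι}
    (g' : G1 I h K S' (insert q.2 (En.erase x)) Ct' ℓ) (hqC : l ≠ [] → q.2.1 ∈ Ct') (hCC : Ct ⊆ Ct')
    (hC1 : ∀ p ∈ Ct', p ∈ Ct ∨ p = x.1 ∨ ∃ (b : Bool) (m : List Bool) (q' : Mv ι), m.length < l.length ∧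
        (b :: m = l ∨ m.length + 1 < l.length) ∧
        I.node h x (b :: m) = some q' ∧ (p = q'.2.1 ∨ p = q'.1.1))
    (hTT : Tg ⊆ Tg') (hTc : Tg'.card ≤ Tg.card + l.length)
    (hT1 : ∀ p ∈ Tg', p ∈ Tg ∨ ∃ l' : List Bool, l'.length < l.length ∧ I.tg h (x, l') = some p)
    (hT2 : ∀ p ∈ Ct', ∃ t ∈ Tg', p ∈ I.ball 1 t) (hcov : ∀ c, Cov S c → Cov S' (c + 2 * l.length))
    {b : Bool} {p : Mv ι} (hp : I.node h x (b :: l) = some p)
    (hc : Iso I ℓ Ct' p.1.1 ∨ NoCyc S' (insert q.2 (En.erase x)) q.2 p.1 p.2) :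
    WG1good I h K S En Ct Tg ℓ x (b :: l) := by
  obtain ⟨p', hp', hs, f1, f2, f3, f4⟩ := wg1_facts hK0 rc hxT hl hq b
  rw [hp] at hp'
  obtain rfl := Option.some.inj hp'
  have hlen : (b :: l).length ≤ r := by rw [List.length_cons]; omega
  have hmem : ∀ s, s = p.2.1 ∨ s = p.1.1 → s ∉ Ct := by
    intro s hs'
    apply hCt
    unfold Inst.rcS
    rw [Finset.mem_filter]
    exact ⟨Finset.mem_univ _, b :: l, p, by simp, hlen, hp, hs'⟩
  have f0 := wg1_fresh0 rc hxT hl hp
  have hwC : p.1.1 ∉ Ct' := by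
    intro hin
    rcases hC1 _ hin with h1 | h1 | ⟨b', m, q', hm, -, hq', h1⟩
    · exact hmem _ (Or.inr rfl) h1
    · exact f0.1 h1
    · have h2 := wg1_fresh rc hxT hl hp hm hq'
      rcases h1 with h1 | h1
      · exact h2.1 h1
      · exact h2.2.1 h1
  have hxC : p.2.1 ∉ Ct' := by
    intro hin
    rcases hC1 _ hin with h1 | h1 | ⟨b', m, q', hm, -, hq', h1⟩
    · exact hmem _ (Or.inl rfl) h1
    · exact f0.2 h1
    · have h2 := wg1_fresh rc hxT hl hp hm hq'
      rcases h1 with h1 | h1
      · exact h2.2.2.1 h1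
      · exact h2.2.2.2 h1
  have hqK : q.2.1 ∈ K := by
    apply hK
    unfold Inst.rcK
    rw [Finset.mem_filter]
    exact ⟨Finset.mem_univ _, x, l, q, hxT, hl, hq, Or.inl rfl⟩
  have hwK : p.1.1 ∈ K := by
    apply hK
    unfold Inst.rcK
    rw [Finset.mem_filter]
    exact ⟨Finset.mem_univ _, x, l, q, hxT, hl, hq, Or.inr (wg1_tgt I hs)⟩
  obtain ⟨g'', hnew, hcov'⟩ := g1_move g' (Finset.mem_insert_self _ _) hs hqK hwK hwC hxC f1 f2 f3 f4 hc
  have hen : (insert q.2 (En.erase x)).erase q.2 = En.erase x := Finset.erase_insert hq1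
  rw [hen] at g''
  have hnew1 : p.2 ∉ En.erase x := fun h1 => hnew (Finset.mem_insert_of_mem h1)
  have hnew2 : p.2 ∉ En := by
    intro h1
    exact hnew1 (Finset.mem_erase.2 ⟨fun h2 => f0.2 (by rw [h2]), h1⟩)
  refine ⟨p, hp, hnew1, fun _ => hnew2, mv S' q.2 p.1 p.2,
    insert q.2.1 (insert p.1.1 (insert p.2.1 Ct')), insert p.1.1 Tg', g'', fun _ => ?_, ?_, ?_, ?_, ?_, ?_, ?_, ?_⟩
  · exact Finset.mem_insert_of_mem (Finset.mem_insert_of_mem (Finset.mem_insert_self _ _))
  · exact fun s hs' => Finset.mem_insert_of_mem (Finset.mem_insert_of_mem (Finset.mem_insert_of_mem (hCC hs')))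
  · intro s hs'
    have hold : s ∈ Ct' → s ∈ Ct ∨ s = x.1 ∨ ∃ (b' : Bool) (m : List Bool) (q' : Mv ι), m.length < (b :: l).length ∧
        (b' :: m = b :: l ∨ m.length + 1 < (b :: l).length) ∧
        I.node h x (b' :: m) = some q' ∧ (s = q'.2.1 ∨ s = q'.1.1) := by
      intro hin
      rcases hC1 _ hin with h1 | h1 | ⟨b', m, q', hm, -, hq', h1⟩
      · exact Or.inl h1
      · exact Or.inr (Or.inl h1)
      · refine Or.inr (Or.inr ⟨b', m, q', ?_, Or.inr ?_, hq', h1⟩)
        · rw [List.length_cons]; omega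
        · rw [List.length_cons]; omega
    rw [Finset.mem_insert, Finset.mem_insert, Finset.mem_insert] at hs'
    rcases hs' with h1 | h1 | h1 | h1
    · by_cases hnil : l = []
      · subst hnil
        obtain rfl := Option.some.inj hq
        exact Or.inr (Or.inl h1)
      · exact hold (by rw [h1]; exact hqC hnil)
    · exact Or.inr (Or.inr ⟨b, l, p, by rw [List.length_cons]; omega, Or.inl rfl, hp, Or.inr h1⟩)
    · exact Or.inr (Or.inr ⟨b, l, p, by rw [List.length_cons]; omega, Or.inl rfl, hp, Or.inl h1⟩)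
    · exact hold h1
  · exact hTT.trans (Finset.subset_insert _ _)
  · refine (Finset.card_insert_le _ _).trans ?_
    rw [List.length_cons]
    omega
  · intro s hs'
    rcases Finset.mem_insert.1 hs' with h1 | h1
    · refine Or.inr ⟨l, by rw [List.length_cons]; omega, ?_⟩
      show (I.node h x l).bind _ = _
      rw [hq, h1]
      exact wg1_tgt I hs
    · rcases hT1 s h1 with h2 | ⟨l', h2, h3⟩
      · exact Or.inl h2
      · exact Or.inr ⟨l', by rw [List.length_cons]; omega, h3⟩
  · intro s hs'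
    have hold : s ∈ Ct' → ∃ t ∈ insert p.1.1 Tg', s ∈ I.ball 1 t := by
      intro hin
      obtain ⟨t, ht, h1⟩ := hT2 s hin
      exact ⟨t, Finset.mem_insert_of_mem ht, h1⟩
    rw [Finset.mem_insert, Finset.mem_insert, Finset.mem_insert] at hs'
    rcases hs' with h1 | h1 | h1 | h1
    · by_cases hnil : l = []
      · subst hnil
        obtain rfl := Option.some.inj hq
        exact ⟨x.1, Finset.mem_insert_of_mem (hTT hxTg), by rw [h1]; exact ball_self I 1 _⟩
      · exact hold (by rw [h1]; exact hqC hnil)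
    · exact ⟨p.1.1, Finset.mem_insert_self _ _, by rw [h1]; exact ball_self I 1 _⟩
    · exact ⟨p.1.1, Finset.mem_insert_self _ _, by rw [h1]; exact wg1_ball I hs⟩
    · exact hold h1
  · intro c hc'
    have h1 := hcov' _ (hcov c hc')
    rw [List.length_cons]
    have h2 : c + 2 * (l.length + 1) = c + 2 * l.length + 2 := by ring
    rw [h2]
    exact h1

/-- at a node whose target is not restricted the target is isolated -/
theorem wg1_iso {I : Inst ι L} {T : Finset (ι × Bool)} {r ℓ : ℕ} {h : SB ι} {Tg : Finset ι}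
    {x : ι × Bool} (hxT : I.Root T x) (hEnd : ∀ z, I.outer z = none → z.1 ∈ Tg)
    (hfar : ∀ l : List Bool, l.length < r → ¬ I.Restr T r ℓ h (x, l) → ∀ p, I.tg h (x, l) = some p →
      ∀ q ∈ Tg, p ∉ I.ball (5 * ℓ + 2) q) (hℓ : 1 ≤ ℓ) {l : List Bool} (hl : l.length < r)
    (hres : ¬ I.Restr T r ℓ h (x, l)) {Ct' Tg' : Finset ι}
    (hT1 : ∀ p ∈ Tg', p ∈ Tg ∨ ∃ l' : List Bool, l'.length < l.length ∧ I.tg h (x, l') = some p)
    (hT2 : ∀ p ∈ Ct', ∃ t ∈ Tg', p ∈ I.ball 1 t) {w : ι} (hw : I.tg h (x, l) = some w) : Iso I ℓ Ct' w := by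
  refine ⟨fun hsh => hres ⟨hxT, hl, w, hw, Or.inl hsh⟩, ?_⟩
  intro q hq
  refine ⟨?_, ?_⟩
  · intro hqC
    obtain ⟨t, ht, h1⟩ := hT2 q hqC
    have h2 : w ∈ I.ball (5 * ℓ + 2) t :=
      ball_mono I (by omega) t (ball_triangle I h1 (ball_symm I hq))
    rcases hT1 t ht with h3 | ⟨l', h3, h4⟩
    · exact hfar l hl hres w hw t h3 h2
    · refine hres ⟨hxT, hl, w, hw, Or.inr (Or.inr ⟨(x, l'), ?_, hxT, h3.trans hl, t, h4, h2⟩)⟩
      intro he
      have h5 : l' = l := congrArg Prod.snd he
      rw [h5] at h3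
      exact lt_irrefl _ h3
  · intro i hi
    have h3 := hEnd (q, i) hi
    exact hfar l hl hres w hw q h3 (ball_mono I (by omega) q (ball_symm I hq))

theorem rc_leaves {I : Inst ι L} {T : Finset (ι × Bool)} {r K0 ℓ ρ : ℕ} {h : SB ι} {K : Finset ι}
    {S : SimpleGraph (ι × Bool)} {En : Finset (ι × Bool)} {Ct Tg : Finset ι}
    (hr : 1 ≤ r) (hℓ : 1 ≤ ℓ) (hK0 : 1 ≤ K0) (g : G1 I h K S En Ct ℓ) (hK : I.rcK T r h ⊆ K) (rc : I.RC h r K0 T)
    (hρ : {s | I.Restr T r ℓ h s}.ncard ≤ ρ) {x : ι × Bool} (hx : x ∈ En) (hxT : I.Root T x)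
    (hCt : ∀ p ∈ I.rcS r h x, p ∉ Ct) (hTg : ∀ p ∈ Ct, ∃ q ∈ Tg, p ∈ I.ball 1 q)
    (hEnd : ∀ z, I.outer z = none → z.1 ∈ Tg) (hxTg : x.1 ∈ Tg)
    (hfar : ∀ l : List Bool, l.length < r → ¬ I.Restr T r ℓ h (x, l) → ∀ p, I.tg h (x, l) = some p →
      ∀ q ∈ Tg, p ∉ I.ball (5 * ℓ + 2) q) :
    ∃ Ls : Finset (List Bool), 2 ^ (r - 1 - ρ) ≤ Ls.card + ρ ∧ ∀ l ∈ Ls, l.length + 1 = r ∧
      ¬ I.Restr T r ℓ h (x, l) ∧ ∃ q, I.node h x (false :: l) = some q ∧ q.2 ∉ En ∧
      ∃ (S' : SimpleGraph (ι × Bool)) (Ct' Tg' : Finset ι),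
        G1 I h K S' (insert q.2 (En.erase x)) Ct' ℓ ∧ q.2.1 ∈ Ct' ∧ Ct ⊆ Ct' ∧
        (∀ p ∈ Ct', p ∈ Ct ∨ ((p = x.1 ∨ p ∈ I.rcS r h x) ∧ (p ∈ I.rcK T r h ∨ p = q.2.1))) ∧ Tg ⊆ Tg' ∧ Tg'.card ≤ Tg.card + r ∧
        (∀ p ∈ Tg', p ∈ Tg ∨ ∃ l' : List Bool, l'.length < r ∧ I.tg h (x, l') = some p) ∧
        (∀ p ∈ Ct', ∃ t ∈ Tg', p ∈ I.ball 1 t) ∧ ∀ c, Cov S c → Cov S' (c + 2 * r) := by
  have hfin := restr_finite I T r ℓ h
  have hR : ∀ F : Finset (List Bool), (∀ l ∈ F, l.length < r ∧ I.Restr T r ℓ h (x, l)) → F.card ≤ ρ := by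
    intro F hF
    refine le_trans ?_ hρ
    have h1 : ((F.image (fun l => (x, l)) : Finset ((ι × Bool) × List Bool)) : Set ((ι × Bool) × List Bool)) ⊆
        {s | I.Restr T r ℓ h s} := by
      intro s hs
      rw [Finset.mem_coe, Finset.mem_image] at hs
      obtain ⟨l, hl, rfl⟩ := hs
      exact (hF l hl).2
    have h2 := Set.ncard_le_ncard h1 hfin
    rw [Set.ncard_coe_finset, Finset.card_image_of_injective _ (by
      intro a b hab
      exact congrArg Prod.snd hab)] at h2
    exact h2
  have hstepU : ∀ l : List Bool, l.length < r → WG1good I h K S En Ct Tg ℓ x l → ¬ I.Restr T r ℓ h (x, l) →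
      ∀ b, WG1good I h K S En Ct Tg ℓ x (b :: l) := by
    intro l hl hgood hres b
    obtain ⟨q, hq, hq1, hq2, S', Ct', Tg', g', hqC, hCC, hC1, hTT, hTc, hT1, hT2, hcov⟩ := hgood
    obtain ⟨p, hp, hs, -, -, -, -⟩ := wg1_facts hK0 rc hxT hl hq b
    refine wg1_good_step hK0 hK rc hxT hCt hxTg hl hq hq1 hq2 g' hqC hCC hC1 hTT hTc hT1 hT2 hcov hp (Or.inl ?_)
    refine wg1_iso hxT hEnd hfar hℓ hl hres hT1 hT2 ?_
    show (I.node h x l).bind _ = _
    rw [hq]
    exact wg1_tgt I hs
  have hstepR : ∀ l : List Bool, l.length < r → WG1good I h K S En Ct Tg ℓ x l → I.Restr T r ℓ h (x, l) →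
      ∃ b, WG1good I h K S En Ct Tg ℓ x (b :: l) := by
    intro l hl hgood _
    obtain ⟨q, hq, hq1, hq2, S', Ct', Tg', g', hqC, hCC, hC1, hTT, hTc, hT1, hT2, hcov⟩ := hgood
    have hex : ∀ b, ∃ p, I.step h q.2 b = some p ∧ p.1.1 ∉ Ct' ∧ p.1.1 ≠ q.2.1 ∧
      (∀ i, I.outer (p.1.1, i) ≠ none) ∧ I.outer p.1 ≠ some q.2 ∧ I.outer p.1 ≠ some (flip p.1) := by
      intro b
      obtain ⟨p, hp, hs, f1, f2, f3, f4⟩ := wg1_facts hK0 rc hxT hl hq b
      refine ⟨p, hs, ?_, f1, f2, f3, f4⟩
      intro hin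
      rcases hC1 _ hin with h1 | h1 | ⟨b', m, q', hm, -, hq', h1⟩
      · refine hCt p.1.1 ?_ h1
        unfold Inst.rcS
        rw [Finset.mem_filter]
        exact ⟨Finset.mem_univ _, b :: l, p, by simp, by rw [List.length_cons]; omega, hp, Or.inr rfl⟩
      · exact (wg1_fresh0 rc hxT hl hp).1 h1
      · have h2 := wg1_fresh rc hxT hl hp hm hq'
        rcases h1 with h1 | h1
        · exact h2.1 h1
        · exact h2.2.1 h1
    obtain ⟨b, p, hs, hno⟩ := g1_choice g' (Finset.mem_insert_self _ _) hex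
    refine ⟨b, wg1_good_step hK0 hK rc hxT hCt hxTg hl hq hq1 hq2 g' hqC hCC hC1 hTT hTc hT1 hT2 hcov ?_ (Or.inr hno)⟩
    rw [wg1_node_cons, hq]
    exact hs
  obtain ⟨A, hA, hAc⟩ := wg1_tree (P := WG1good I h K S En Ct Tg ℓ x) (R := fun l => I.Restr T r ℓ h (x, l))
    (wg1_good_nil g hx hTg) hstepU hstepR hR (k := r - 1) (by omega)
  refine ⟨A.filter (fun l => ¬ I.Restr T r ℓ h (x, l)), ?_, ?_⟩
  · have h1 := Finset.card_filter_add_card_filter_not (s := A) (fun l => I.Restr T r ℓ h (x, l))
    have h2 : (A.filter (fun l => I.Restr T r ℓ h (x, l))).card ≤ ρ := by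
      apply hR
      intro l hl
      rw [Finset.mem_filter] at hl
      exact ⟨by rw [(hA l hl.1).1]; omega, hl.2⟩
    omega
  · intro l hl
    rw [Finset.mem_filter] at hl
    have hlen : l.length + 1 = r := by rw [(hA l hl.1).1]; omega
    have hlt : l.length < r := by omega
    obtain ⟨q, hq, -, hq2, S', Ct', Tg', g', hqC, hCC, hC1, hTT, hTc, hT1, hT2, hcov⟩ :=
      hstepU l hlt (hA l hl.1).2 hl.2 false
    have hcons : (false :: l) ≠ [] := by simp
    refine ⟨hlen, hl.2, q, hq, hq2 hcons, S', Ct', Tg', g', hqC hcons, hCC, ?_, hTT, ?_, ?_, hT2, ?_⟩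
    · intro p hp
      rcases hC1 p hp with h1 | h1 | ⟨b, m, q', hm, hbm, hq', h1⟩
      · exact Or.inl h1
      · refine Or.inr ⟨Or.inl h1, Or.inl ?_⟩
        unfold Inst.rcK
        rw [Finset.mem_filter]
        exact ⟨Finset.mem_univ _, x, [], (x, x), hxT, hr, rfl, Or.inl h1⟩
      · rw [List.length_cons] at hm hbm
        refine Or.inr ⟨Or.inr ?_, ?_⟩
        · unfold Inst.rcS
          rw [Finset.mem_filter]
          exact ⟨Finset.mem_univ _, b :: m, q', by simp, by rw [List.length_cons]; omega, hq', h1⟩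
        · have hmr : m.length < r := by omega
          obtain ⟨q0, hq0⟩ := Option.isSome_iff_exists.1 (rc.ok x hxT m hmr.le)
          rcases h1 with h1 | h1
          · rcases hbm with hbm | hbm
            · right
              rw [hbm, hq] at hq'
              rw [h1, Option.some.inj hq']
            · left
              unfold Inst.rcK
              rw [Finset.mem_filter]
              exact ⟨Finset.mem_univ _, x, b :: m, q', hxT, by rw [List.length_cons]; omega, hq', Or.inl h1⟩
          · left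
            unfold Inst.rcK
            rw [Finset.mem_filter]
            refine ⟨Finset.mem_univ _, x, m, q0, hxT, hmr, hq0, Or.inr ?_⟩
            rw [h1]
            exact wg1_tgt I (wg1_node I hq0 hq')
    · rw [List.length_cons] at hTc
      omega
    · intro p hp
      rcases hT1 p hp with h1 | ⟨l', h1, h2⟩
      · exact Or.inl h1
      · rw [List.length_cons] at h1
        exact Or.inr ⟨l', by omega, h2⟩
    · intro c hc
      have h1 := hcov c hc
      rw [List.length_cons, hlen] at h1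
      exact h1

/-- touched slots at the beginning: the slots of the root edges of the tiny cycles -/
noncomputable def Inst.Ct0 (I : Inst ι L) (T : Finset (ι × Bool)) : Finset ι :=
  Finset.univ.filter (fun p => ∃ x ∈ T, p = x.1 ∨ ∃ y, I.outer x = some y ∧ p = y.1)

/-- the root condition excludes loops -/
theorem wg1_noloop {I : Inst ι L} {T : Finset (ι × Bool)} {r K0 : ℕ} {h : SB ι}
    (hT : I.ValidT K0 T) (rc : I.RC h r K0 T) (hK0 : 1 ≤ K0) (x : ι × Bool) : I.outer x ≠ some (flip x) := by
  intro ho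
  have ht := wg1_tiny I hK0 ho
  obtain ⟨t, ⟨htT, htx⟩, -⟩ := hT.2 x ht
  have h1 : I.SameF x t ∨ t = x ∨ t = flip x := by
    right
    -- the component of `t` is `{x, flip x}`
    have h2 : ∀ y, I.SameF t y → (y = x ∨ y = flip x) → (t = x ∨ t = flip x) := by
      intro y hy
      unfold Inst.SameF at hy
      induction hy with
      | refl => exact fun h => h
      | tail _ h2 ih =>
        intro h3
        apply ih
        rcases h3 with rfl | rfl
        · rcases h2 with h2 | h2
          · right; rw [h2, flip_flip]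
          · right
            have h4 := I.outer_symm _ _ h2
            rw [ho] at h4
            exact (Option.some.inj h4).symm
        · rcases h2 with h2 | h2
          · left
            have h4 := congrArg flip h2
            rw [flip_flip, flip_flip] at h4
            exact h4.symm
          · left
            have h4 := I.outer_symm _ _ h2
            rw [I.outer_symm _ _ ho] at h4
            exact (Option.some.inj h4).symm
    exact h2 x htx (Or.inl rfl)
  have hroot : I.Root T x ∧ I.Root T (flip x) := by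
    rcases h1 with h1 | h1 | h1
    · -- the second component as above
      have h2 : ∀ y, I.SameF x y → (y = x ∨ y = flip x) := by
        intro y hy
        unfold Inst.SameF at hy
        induction hy with
        | refl => exact Or.inl rfl
        | tail _ h2 ih =>
          rcases ih with rfl | rfl
          · rcases h2 with h2 | h2
            · right; exact h2
            · right
              rw [ho] at h2
              exact (Option.some.inj h2).symm
          · rcases h2 with h2 | h2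
            · left; rw [h2, flip_flip]
            · left
              rw [I.outer_symm _ _ ho] at h2
              exact (Option.some.inj h2).symm
      rcases h2 t h1 with rfl | rfl
      · exact ⟨Or.inr (Or.inl htT), Or.inr (Or.inr ⟨t, htT, ho⟩)⟩
      · exact ⟨Or.inr (Or.inr ⟨_, htT, I.outer_symm _ _ ho⟩), Or.inr (Or.inl htT)⟩
    · subst h1
      exact ⟨Or.inr (Or.inl htT), Or.inr (Or.inr ⟨t, htT, ho⟩)⟩
    · subst h1
      exact ⟨Or.inr (Or.inr ⟨_, htT, I.outer_symm _ _ ho⟩), Or.inr (Or.inl htT)⟩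
  have h2 := (rc.ends x (flip x) hroot.1 hroot.2 [] [] (Nat.zero_le _) (Nat.zero_le _) (x, x) (flip x, flip x)
    rfl rfl (by rw [flip_fst])).1
  exact flip_ne x h2.symm

/-- the state at the beginning of Phase 1 -/
theorem g1_init {I : Inst ι L} {T : Finset (ι × Bool)} {r K0 ℓ : ℕ} {h : SB ι} (K : Finset ι)
    (hT : I.ValidT K0 T) (rc : I.RC h r K0 T) (hK0 : 1 ≤ K0) :
    G1 I h K (I.F0 T) (Finset.univ.filter (fun x => I.Root T x)) (I.Ct0 T) ℓ ∧ Cov (I.F0 T) (3 * L) := by
  have hnl := wg1_noloop hT rc hK0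
  have hmid : ∀ x, (I.F0 T).Adj x (flip x) := by
    intro x
    exact ⟨(flip_ne x).symm, Or.inl rfl, fun h => hnl x h.1⟩
  -- roots are exactly the positions whose outer edge is missing
  have hroot1 : ∀ x y, I.outer x = some y → (I.Root T x ↔ (x ∈ T ∨ y ∈ T)) := by
    intro x y ho
    constructor
    · rintro (h1 | h1 | ⟨z, hz, h1⟩)
      · rw [ho] at h1
        exact absurd h1 (Option.some_ne_none _)
      · exact Or.inl h1
      · right
        have h2 := I.outer_symm _ _ h1
        rw [ho] at h2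
        rw [Option.some.inj h2]
        exact hz
    · rintro (h1 | h1)
      · exact Or.inr (Or.inl h1)
      · exact Or.inr (Or.inr ⟨y, h1, I.outer_symm _ _ ho⟩)
  have hCt0 : ∀ z, z ∈ T → z.1 ∈ I.Ct0 T ∧ ∀ y, I.outer z = some y → y.1 ∈ I.Ct0 T := by
    intro z hz
    unfold Inst.Ct0
    refine ⟨?_, ?_⟩
    · rw [Finset.mem_filter]
      exact ⟨Finset.mem_univ _, z, hz, Or.inl rfl⟩
    · intro y hy
      rw [Finset.mem_filter]
      exact ⟨Finset.mem_univ _, z, hz, Or.inr ⟨y, hy, rfl⟩⟩
  refine ⟨⟨?_, ?_, ?_, ?_, ?_⟩, ?_⟩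
  · intro x
    by_cases hx : I.Root T x
    · have hmem : x ∈ Finset.univ.filter (fun x => I.Root T x) := Finset.mem_filter.2 ⟨Finset.mem_univ _, hx⟩
      rw [if_pos hmem]
      have h1 : (I.F0 T).neighborSet x = {flip x} := by
        ext y
        rw [SimpleGraph.mem_neighborSet, Set.mem_singleton_iff]
        constructor
        · rintro ⟨h1, h2, h3⟩
          rcases h2 with h2 | h2
          · exact h2
          · exact absurd ⟨h2, (hroot1 x y h2).1 hx⟩ h3
        · rintro rfl
          exact hmid x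
      rw [h1, Set.ncard_singleton]
    · have hmem : x ∉ Finset.univ.filter (fun x => I.Root T x) := fun h => hx (Finset.mem_filter.1 h).2
      rw [if_neg hmem]
      obtain ⟨y, hy⟩ := Option.ne_none_iff_exists'.1 (fun h : I.outer x = none => hx (Or.inl h))
      have h1 : (I.F0 T).neighborSet x = {flip x, y} := by
        ext z
        rw [SimpleGraph.mem_neighborSet, Set.mem_insert_iff, Set.mem_singleton_iff]
        constructor
        · rintro ⟨-, h2, -⟩
          rcases h2 with h2 | h2
          · exact Or.inl h2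
          · right
            rw [hy] at h2
            exact (Option.some.inj h2).symm
        · rintro (rfl | rfl)
          · exact hmid x
          · refine ⟨?_, Or.inr hy, fun h => hx ((hroot1 x z hy).2 h.2)⟩
            rintro rfl
            exact I.outer_ne _ hy
      have hne : flip x ≠ y := by
        rintro rfl
        exact hnl x hy
      rw [h1, Set.ncard_pair hne]
  · rintro x y ⟨-, h2, -⟩
    exact Or.inl h2
  · intro x _
    exact hmid x
  · intro x y hx
    constructor
    · rintro ⟨-, h2, -⟩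
      exact h2
    · intro h2
      refine ⟨?_, h2, ?_⟩
      · rintro rfl
        rcases h2 with h2 | h2
        · exact flip_ne x h2.symm
        · exact I.outer_ne _ h2
      · rintro ⟨h3, h4 | h4⟩
        · exact hx (hCt0 x h4).1
        · exact hx ((hCt0 y h4).2 x (I.outer_symm _ _ h3))
  · intro x hx
    right
    intro y hy hyC
    unfold Inst.Ct0 at hyC
    rw [Finset.mem_filter] at hyC
    obtain ⟨-, z, hz, h1⟩ := hyC
    -- a root in the slot of `y`
    have h2 : ∃ z', I.Root T z' ∧ y.1 = z'.1 := by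
      rcases h1 with h1 | ⟨y', hy', h1⟩
      · exact ⟨z, Or.inr (Or.inl hz), h1⟩
      · exact ⟨y', Or.inr (Or.inr ⟨z, hz, hy'⟩), h1⟩
    obtain ⟨z', hz', h3⟩ := h2
    have h4 : (I.F0 T).Reachable x z' := by
      rcases eq_or_flip h3 with h4 | h4
      · rw [← h4]; exact hy
      · refine hy.trans ?_
        rw [h4]
        have h5 := hmid (flip z')
        rw [flip_flip] at h5
        exact h5.reachable
    exact hx z' h4 (Finset.mem_filter.2 ⟨Finset.mem_univ _, hz'⟩)
  · obtain ⟨T0, hT0, hcomp⟩ := I.comps_le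
    have hTc := validT_card I hT
    refine ⟨T0 ∪ (T ∪ T.image (fun x => (I.outer x).getD x)), ?_, ?_⟩
    · have h1 := Finset.card_union_le T0 (T ∪ T.image (fun x => (I.outer x).getD x))
      have h2 := Finset.card_union_le T (T.image (fun x => (I.outer x).getD x))
      have h3 := Finset.card_image_le (s := T) (f := fun x => (I.outer x).getD x)
      omega
    · intro x
      obtain ⟨t, ht, htx⟩ := hcomp x
      induction htx with
      | refl => exact ⟨t, Finset.mem_union_left _ ht, SimpleGraph.Reachable.refl t⟩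
      | @tail y z _ h2 ih =>
        obtain ⟨t', ht', h3⟩ := ih
        by_cases hadj : (I.F0 T).Adj y z
        · exact ⟨t', ht', h3.trans hadj.reachable⟩
        · have hFA : I.FAdj y z := h2
          have hne : y ≠ z := by
            rintro rfl
            rcases hFA with h4 | h4
            · exact flip_ne y h4.symm
            · exact I.outer_ne _ h4
          have h4 : I.outer y = some z ∧ (y ∈ T ∨ z ∈ T) := by
            by_contra hcon
            exact hadj ⟨hne, hFA, hcon⟩
          refine ⟨z, ?_, SimpleGraph.Reachable.refl z⟩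
          rcases h4.2 with h5 | h5
          · apply Finset.mem_union_right
            apply Finset.mem_union_right
            rw [Finset.mem_image]
            exact ⟨y, h5, by rw [h4.1, Option.getD_some]⟩
          · exact Finset.mem_union_right _ (Finset.mem_union_left _ h5)

theorem g1_even {I : Inst ι L} {h : SB ι} {K : Finset ι} {S : SimpleGraph (ι × Bool)}
    {En : Finset (ι × Bool)} {Ct : Finset ι} {ℓ : ℕ} (g : G1 I h K S En Ct ℓ) : Even En.card := by
  have h1 := SimpleGraph.even_card_odd_degree_vertices S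
  have h2 : Finset.univ.filter (fun v => Odd (S.degree v)) = En := by
    ext v
    rw [Finset.mem_filter]
    have h3 : S.degree v = (S.neighborSet v).ncard := by
      rw [← SimpleGraph.card_neighborSet_eq_degree, Set.ncard_eq_toFinset_card', Set.toFinset_card]
    rw [h3, g.deg v]
    by_cases hv : v ∈ En
    · simp [hv]
    · simp [hv]
  rw [h2] at h1
  exact h1

end Pool.Agent.H38H
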