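import Pool.Agent.Lib.H38H.W0
import Pool.Agent.Lib.H38H.V.V5
import Pool.Agent.Lib.H38H.V.V6
import Pool.Agent.Lib.H38H.V.V7
import Pool.Agent.Lib.H38H.V.V8

/-!
Module SL, part V: the potential of Phase 1 and the numbers (designer: helper14). Interface.

Main points. `Pot2` for `V = Vf = V1 I Fb ℓ D` with `lam = lamf = 1 - g^-45` and `E = g^570`: for a list of moves longer than `D` the early moves do not change, so `V1` is unchanged; otherwise the new target is added. Bad positions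
`w` (for `outSum`, `midSum`): `w.1 ∈ B` or the slot of the outer partner in `B` (`4|B|` positions), no outer partner (`card_ends`), outer partner in the same slot (`card_loop`), `w.1` short (`card_short`), `w.1` within `5ℓ+2` of
`Fb` or of one of at most `2 (D+1)` earlier targets (`ball_card`): at most `2 (4 g^570 + 4 L + 20 g^950 L + (g + 2 D + 2) (10 g^950 + 5)) ≤ g^-45 2 n`. Then `two_sided` and
`att_prob2` with `η = g^-41`; `V1 [] [] = 1`. The touching bound is `att_touch` with `t = g^300`.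
-/

set_option autoImplicit false

namespace Pool.Agent.H38H

open Classical

theorem p1_att : ∃ n₀ : ℕ, ∀ n : ℕ, n₀ ≤ n → ∀ L : ℕ, (L : ℝ) ≤ (Real.log n) ^ 3 →
    ∀ (ι : Type) [Fintype ι], Fintype.card ι = n → ∀ (I : Inst ι L) (Av K Fb : Finset ι) (h : SB ι)
      (x0 y0 : ι × Bool), x0.1 ∉ K → y0.1 ∉ K → x0.1 ≠ y0.1 → K.card ≤ gg n ^ 560 → Av.card ≤ gg n →
      Fb.card ≤ gg n →
      AttOK I Av K x0 y0 (DD n) (gg n ^ 570) (1 / (gg n : ℝ) ^ 400) ∧
      avg K h (fun h' => if Succ I Av K x0 y0 (DD n) (V1 I Fb (gg n ^ 950) (DD n)) h' then 0 else 1) ≤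
        1 / (gg n : ℝ) ^ 39 ∧
      ∀ Z ⊆ Av, Disjoint Z K → x0.1 ∉ Z → y0.1 ∉ Z →
        avg K h (fun h' => ((gg n : ℝ) ^ 300) ^ (attR I Av K x0 y0 (DD n) h' ∩ Z).card) ≤
          1 + 1 / (gg n : ℝ) ^ 100 := by
  obtain ⟨n₁, h₁⟩ := gg_tendsto 1000
  obtain ⟨n₂, h₂⟩ := log_le_gg 1 3
  obtain ⟨n₃, h₃⟩ := DD_sq
  obtain ⟨n₄, h₄⟩ := n_le
  refine ⟨max (max n₁ n₂) (max n₃ (max n₄ 1)), fun n hn L hL ι _ hι I Av K Fb h x0 y0 hx hy hxy hK hAv hFb => ?_⟩
  have hn1 : n₁ ≤ n := (le_max_left _ _).trans ((le_max_left _ _).trans hn)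
  have hn2 : n₂ ≤ n := (le_max_right _ _).trans ((le_max_left _ _).trans hn)
  have hn3 : n₃ ≤ n := (le_max_left _ _).trans ((le_max_right _ _).trans hn)
  have hn4 : n₄ ≤ n := (le_max_left _ _).trans ((le_max_right _ _).trans ((le_max_right _ _).trans hn))
  have hn5 : 1 ≤ n := (le_max_right _ _).trans ((le_max_right _ _).trans ((le_max_right _ _).trans hn))
  have hg := h₁ n hn1
  have hLg : L ≤ gg n := by
    have h6 := h₂ n hn2
    rw [one_mul] at h6
    exact_mod_cast hL.trans h6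
  have hD2 := h₃ n hn3
  have hn6 := h₄ n hn4
  have hgn := gg_le n hn5
  have hc := DD_le (n := n) (by omega)
  have hc1 := DD_ge n
  obtain ⟨D, hD⟩ : ∃ D, D = DD n := ⟨_, rfl⟩
  rw [← hD] at hD2 hc hc1 ⊢
  obtain ⟨g, hgd⟩ : ∃ g, g = gg n := ⟨_, rfl⟩
  rw [← hgd] at hK hAv hFb hg hLg hD2 hn6 hgn hc hc1 ⊢
  have hDg : D + 2 ≤ g := by nlinarith
  have hgR : (1000 : ℝ) ≤ g := by exact_mod_cast hg
  have hg0 : (0 : ℝ) < g := by linarith
  have hnR : (g : ℝ) ^ 1000 ≤ n := by exact_mod_cast hgn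
  have hn4R : (4 : ℝ) ≤ n := by
    have h7 : (g : ℝ) ≤ (g : ℝ) ^ 1000 := le_self_pow₀ (by linarith) (by norm_num)
    linarith
  have hk1 : ∀ k : ℕ, 1 / (g : ℝ) ^ k ≤ 1 := fun k => by
    rw [div_le_one (by positivity)]
    exact one_le_pow₀ (by linarith)
  have hk0 : ∀ k : ℕ, 0 ≤ 1 / (g : ℝ) ^ k := fun k => by positivity
  have ok : AttOK I Av K x0 y0 D (g ^ 570) (1 / (g : ℝ) ^ 400) := {
    hx := hx
    hy := hy
    hxy := hxy
    hE := nv_one hg hLg hc hK hAv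
    hn := by
      rw [hι]
      have := nv_two hg hgn hLg hc hK
      omega
    e0 := hk0 400
    e1 := hk1 400
    heps := by
      rw [hι]
      have := nv_three hg hgn hLg hDg hc hK
      push_cast at this
      exact this }
  refine ⟨ok, ?_, ?_⟩
  · have hpot : Pot2 I K x0 y0 (g ^ 570) (1 - 1 / (g : ℝ) ^ 45) (1 - 1 / (g : ℝ) ^ 45)
        (V1 I Fb (g ^ 950) D) (V1 I Fb (g ^ 950) D) := by
      refine pot2_V1 (hk0 45) ?_
      rw [hι]
      exact nv_four hg hgn hLg hDg hFb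
    have h45 := hk1 45
    have hts := two_sided ok h (lam := 1 - 1 / (g : ℝ) ^ 45) (lamf := 1 - 1 / (g : ℝ) ^ 45)
      (by linarith) (by linarith) hpot
    rw [hι, V1_nil, mul_one] at hts
    have hpr := nw_prod (n := (n : ℝ)) (e := 1 / (g : ℝ) ^ 400) (δ := 1 / (g : ℝ) ^ 45) (m := 4 * 2 ^ D) (D := D)
      hn4R (hk0 400) (hk1 400) (hk0 45) (hk1 45)
    have heta := nw_eta hg hgn hDg hc
    have h4 : (0 : ℝ) < 4 ^ D := by positivity
    have hη : (1 - 1 / (g : ℝ) ^ 41) * 4 ^ D ≤ avg K h (gsum I Av K x0 y0 D (V1 I Fb (g ^ 950) D)) := by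
      refine le_trans ?_ (hpr.trans hts)
      refine mul_le_mul_of_nonneg_right ?_ h4.le
      linarith
    have hap := att_prob2 ok h (Vf := V1 I Fb (g ^ 950) D) (by rw [hι]; exact nv_two hg hgn hLg hc hK)
      hpot.nnf hpot.lef hη
    rw [hι] at hap
    refine hap.trans (nw_fail hg hgn hn6 ?_)
    have h8 : ((g : ℝ) ^ 550) ≤ 2 ^ D := by exact_mod_cast hc1
    have h9 : (4 : ℝ) ^ D = 2 ^ D * 2 ^ D := by rw [← mul_pow]; norm_num
    rw [h9, show (1100 : ℕ) = 550 + 550 by norm_num, pow_add]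
    exact mul_le_mul h8 h8 (by positivity) (by positivity)
  · intro Z hZ hZK hxZ hyZ
    have htc := att_touch ok h hZ hZK hxZ hyZ (t := (g : ℝ) ^ 300) (one_le_pow₀ (by linarith))
    rw [hι] at htc
    exact htc.trans (nw_touch hg hgn hc ((Finset.card_le_card hZ).trans hAv))

/-- size of the depth -/
theorem DD_bounds : ∃ n₀ : ℕ, ∀ n : ℕ, n₀ ≤ n → 10 * 2 ^ DD n ≤ gg n ^ 551 ∧ (DD n) ^ 2 ≤ gg n := DD_bounds'

end Pool.Agent.H38H
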