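import Pool.Agent.Lib.H38H.WR
import Pool.Agent.Lib.H38H.WV
import Pool.Agent.Lib.H38H.WG1

/-!
Module SL, Phase 1, the loop over the tasks. Definitions only.
-/

set_option autoImplicit false

namespace Pool.Agent.H38H

open Classical

variable {ι : Type} [Fintype ι] {L : ℕ}

/-- state of Phase 1 between two tasks: `En` = roots that are still ends, `Ct` = touched slots, `Tg` = root slots, targets used, places used -/
structure LS (I : Inst ι L) (T : Finset (ι × Bool)) (r K0 ρ ℓ : ℕ) (h : SB ι) (K : Finset ι)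
    (S : SimpleGraph (ι × Bool)) (En : Finset (ι × Bool)) (Ct Tg : Finset ι) : Prop where
  g1 : G1 I h K S En Ct ℓ
  rc : I.RC h r K0 T
  rcK : I.rcK T r h ⊆ K
  rho : {s | I.Restr T r ℓ h s}.ncard ≤ ρ
  root : ∀ x ∈ En, I.Root T x
  ctK : Ct ⊆ K
  ctTg : ∀ p ∈ Ct, ∃ q ∈ Tg, p ∈ I.ball 1 q
  rootTg : ∀ x, I.Root T x → x.1 ∈ Tg
  free : ∀ x ∈ En, ∀ p ∈ I.rcS r h x, p ∉ Ct
  far : ∀ x ∈ En, ∀ l : List Bool, l.length < r → ¬ I.Restr T r ℓ h (x, l) → ∀ p, I.tg h (x, l) = some p →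
    ∀ q ∈ Tg, p ∉ I.ball (5 * ℓ + 2) q

/-- state just before an attempt from `x0`, `y0`; `E1` = ends after a success -/
structure Pre (I : Inst ι L) (T : Finset (ι × Bool)) (r K0 ρ ℓ : ℕ) (h : SB ι) (K : Finset ι)
    (x0 y0 : ι × Bool) (E1 : Finset (ι × Bool)) (S : SimpleGraph (ι × Bool)) (En : Finset (ι × Bool))
    (Ct Tg : Finset ι) : Prop where
  g1 : G1 I h K S En Ct ℓ
  rc : I.RC h r K0 T
  rcK : I.rcK T r h ⊆ K
  rho : {s | I.Restr T r ℓ h s}.ncard ≤ ρ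
  root : ∀ x ∈ E1, I.Root T x
  hx : x0 ∈ En
  hy : y0 ∈ En
  cx : x0.1 ∈ Ct
  cy : y0.1 ∈ Ct
  kx : x0.1 ∉ K
  ky : y0.1 ∉ K
  xy : x0.1 ≠ y0.1
  en : (En.erase x0).erase y0 = E1
  ctK : ∀ p ∈ Ct, p ∈ K ∨ p = x0.1 ∨ p = y0.1
  ctTg : ∀ p ∈ Ct, ∃ q ∈ Tg, p ∈ I.ball 1 q
  rootTg : ∀ x, I.Root T x → x.1 ∈ Tg
  free : ∀ x ∈ E1, ∀ p ∈ I.rcS r h x, p ∉ Ct
  far : ∀ x ∈ E1, ∀ l : List Bool, l.length < r → ¬ I.Restr T r ℓ h (x, l) → ∀ p, I.tg h (x, l) = some p →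
    ∀ q ∈ Tg, p ∉ I.ball (5 * ℓ + 2) q

/-- the slots of the leaves of the root `x` except those of the strings in `U` are in `Z` -/
def LfZ (I : Inst ι L) (r : ℕ) (h : SB ι) (x : ι × Bool) (U : Finset (List Bool)) (Z : Finset ι) : Prop :=
  ∀ (l : List Bool) (q : Mv ι), l.length + 1 = r → l ∉ U → I.node h x (false :: l) = some q → q.2.1 ∈ Z

/-- the remaining short cycles `Q` and their places `Pl` -/
structure ShQ (I : Inst ι L) (T : Finset (ι × Bool)) (r ℓ : ℕ) (h : SB ι) (Ct Z : Finset ι)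
    (Q : Finset (ι × Bool)) (Pl : ι × Bool → Finset (ι × Bool)) : Prop where
  unt : ∀ c ∈ Q, ∀ y, I.SameF c y → y.1 ∉ Ct
  sh : ∀ c ∈ Q, c.1 ∈ I.short ℓ
  dis : ∀ c ∈ Q, ∀ c' ∈ Q, I.SameF c c' → c = c'
  cov : ∀ x, (∀ y, I.SameF x y → y.1 ∉ Ct) → (∀ y, I.SameF x y → I.outer y ≠ none) →
    Nat.card {y // I.SameF x y} < ℓ → ∃ c ∈ Q, I.SameF c x
  pl : ∀ c ∈ Q, ∀ y ∈ Pl c, I.SameF c y ∧ ∃ z, I.outer y = some z ∧ y.1 ≠ z.1 ∧ y.1 ∈ Z ∧ z.1 ∈ Z ∧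
    y.1 ∉ I.rcA T r h ∧ z.1 ∉ I.rcA T r h
  pld : ∀ c ∈ Q, ∀ y ∈ Pl c, ∀ y' ∈ Pl c, y ≠ y' → ∀ z z', I.outer y = some z → I.outer y' = some z' →
    y.1 ≠ y'.1 ∧ y.1 ≠ z'.1 ∧ z.1 ≠ y'.1 ∧ z.1 ≠ z'.1

/-- untouched cycles of `F` are long -/
def Inst.Unt (I : Inst ι L) (ℓ : ℕ) (Ct : Finset ι) : Prop :=
  ∀ x, (∀ y, I.SameF x y → y.1 ∉ Ct) → (∀ y, I.SameF x y → I.outer y ≠ none) →
    ℓ ≤ Nat.card {y // I.SameF x y}

/-- sizes; `a` = number of attempts left, `m` = number of tasks left -/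
structure Sz (n r : ℕ) (K Z Tg A : Finset ι) (S : SimpleGraph (ι × Bool)) (a m : ℕ) : Prop where
  kc : K.card + a * gg n ^ 551 ≤ gg n ^ 560
  zc : 3 * Z.card ≤ gg n
  ac : 3 * A.card ≤ gg n
  tc : 3 * (Tg.card + m * (4 * r + 4 * (DD n + 1))) ≤ gg n
  cc : ∃ c, Cov S c ∧ c + m * (4 * r + 4 * (DD n + 1)) ≤ gg n

/-- bound between two tasks, `m` tasks left, `c` reserved slots touched -/
noncomputable def B0 (g β : ℝ) (J t2 m c : ℕ) : ℝ :=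
  m * (1 / g ^ 39) ^ J + (g ^ 300) ^ c / (g ^ 300) ^ t2 * (1 + 1 / g ^ 100) ^ (m * J) + β

/-- bound during a task, `j` attempts left for it -/
noncomputable def B1 (g β : ℝ) (J t2 m j c : ℕ) : ℝ :=
  m * (1 / g ^ 39) ^ J + (1 / g ^ 39) ^ j + (g ^ 300) ^ c / (g ^ 300) ^ t2 * (1 + 1 / g ^ 100) ^ (m * J + j) + β

/-- the conclusion of `p1_att` for one instance -/
def AttProp (I : Inst ι L) (n : ℕ) : Prop :=
  ∀ (Av K Fb : Finset ι) (h : SB ι) (x0 y0 : ι × Bool), x0.1 ∉ K → y0.1 ∉ K → x0.1 ≠ y0.1 →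
    K.card ≤ gg n ^ 560 → Av.card ≤ gg n → Fb.card ≤ gg n →
      AttOK I Av K x0 y0 (DD n) (gg n ^ 570) (1 / (gg n : ℝ) ^ 400) ∧
      avg K h (fun h' => if Succ I Av K x0 y0 (DD n) (V1 I Fb (gg n ^ 950) (DD n)) h' then 0 else 1) ≤
        1 / (gg n : ℝ) ^ 39 ∧
      ∀ Z ⊆ Av, Disjoint Z K → x0.1 ∉ Z → y0.1 ∉ Z →
        avg K h (fun h' => ((gg n : ℝ) ^ 300) ^ (attR I Av K x0 y0 (DD n) h' ∩ Z).card) ≤
          1 + 1 / (gg n : ℝ) ^ 100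

/-- the conclusion of Phase 2 for one instance -/
def P2Prop (I : Inst ι L) (n : ℕ) (β : ℝ) : Prop :=
  ∀ (K : Finset ι) (h : SB ι) (S : SimpleGraph (ι × Bool)), K.card ≤ gg n ^ 900 →
    P2State I h K (gg n ^ 950) S → Cov S (gg n) → avg K h (fun h' => if I.HAM h' then 0 else 1) ≤ β

/-- the indicator to be averaged -/
noncomputable def fB (I : Inst ι L) (T : Finset (ι × Bool)) (r K0 : ℕ) (h : SB ι) : ℝ :=
  if I.RC h r K0 T ∧ ¬ I.HAM h then 1 else 0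

/-- what is known about one large instance -/
structure Lg (I : Inst ι L) (n : ℕ) (β : ℝ) : Prop where
  att : AttProp I n
  p2 : P2Prop I n β
  nn : 0 ≤ β
  g2 : 2 ≤ gg n
  dd : 10 * 2 ^ DD n ≤ gg n ^ 551

end Pool.Agent.H38H
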