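import Pool.Agent.Lib.H38H.L0

/-!
Chunk SLL1 (M). The states are inherited by signed bijections agreeing on more slots.

Proofs. `sameF_symm`: `FAdj` is symmetric (`flip_flip`, `outer_symm`), so `ReflTransGen` is. `h' ∈ cyl K h` with `rcK h ⊆ K` gives `h' ∈ cyl (rcK h) h` (`cyl_mono`), so nodes of
length at most `r` at roots are the same (`rc_node_congr`), `rcK h' = rcK h` (`rcK_stop`), `RC`, `Restr`, `tg` are the same (`rc_congr`, `restr_congr`, `rc_tg_congr`; elements of `En` are roots). `G1`: `g1_mono`.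
-/

set_option autoImplicit false

namespace Pool.Agent.H38H

open Classical

variable {ι : Type} [Fintype ι] {L : ℕ}

theorem sll1_flip (x : ι × Bool) : flip (flip x) = x := by
  simp [flip]

theorem sll1_adj (I : Inst ι L) {x y : ι × Bool} (e : I.FAdj x y) : I.FAdj y x := by
  rcases e with e | e
  · left
    rw [e, sll1_flip]
  · right
    exact I.outer_symm x y e

theorem sameF_symm (I : Inst ι L) {x y : ι × Bool} (e : I.SameF x y) : I.SameF y x := by
  unfold Inst.SameF at e ⊢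
  induction e with
  | refl => exact Relation.ReflTransGen.refl
  | tail _ h ih => exact Relation.ReflTransGen.head (sll1_adj I h) ih

theorem sameF_card (I : Inst ι L) {x y : ι × Bool} (e : I.SameF x y) :
    Nat.card {z // I.SameF x z} = Nat.card {z // I.SameF y z} := by
  refine Nat.card_congr (Equiv.subtypeEquivRight fun z => ?_)
  exact ⟨fun h => (sameF_symm I e).trans h, fun h => e.trans h⟩

/-- the two positions of a slot lie on the same component -/
theorem sameF_slot (I : Inst ι L) {x y : ι × Bool} (e : x.1 = y.1) : I.SameF x y := by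
  obtain ⟨p, i⟩ := x
  obtain ⟨q, j⟩ := y
  have e' : p = q := e
  subst e'
  by_cases hij : i = j
  · subst hij
    exact Relation.ReflTransGen.refl
  · refine Relation.ReflTransGen.single (Or.inl ?_)
    have h1 : j = !i := by
      cases i <;> cases j <;> simp_all
    rw [h1]
    rfl

theorem rcA_congr (I : Inst ι L) {T : Finset (ι × Bool)} {r : ℕ} {h h' : SB ι}
    (hh : h' ∈ cyl (I.rcK T r h) h) : I.rcA T r h' = I.rcA T r h := by
  unfold Inst.rcA
  refine Finset.filter_congr fun p _ => ?_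
  constructor
  · rintro ⟨x, l, q, hx, hl, hq, hp⟩
    rw [rc_node_congr I hh hx hl] at hq
    exact ⟨x, l, q, hx, hl, hq, hp⟩
  · rintro ⟨x, l, q, hx, hl, hq, hp⟩
    rw [← rc_node_congr I hh hx hl] at hq
    exact ⟨x, l, q, hx, hl, hq, hp⟩

theorem rcS_congr (I : Inst ι L) {T : Finset (ι × Bool)} {r : ℕ} {h h' : SB ι}
    (hh : h' ∈ cyl (I.rcK T r h) h) {x : ι × Bool} (hx : I.Root T x) : I.rcS r h' x = I.rcS r h x := by
  unfold Inst.rcS
  refine Finset.filter_congr fun p _ => ?_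
  constructor
  · rintro ⟨l, q, h0, hl, hq, hp⟩
    rw [rc_node_congr I hh hx hl] at hq
    exact ⟨l, q, h0, hl, hq, hp⟩
  · rintro ⟨l, q, h0, hl, hq, hp⟩
    rw [← rc_node_congr I hh hx hl] at hq
    exact ⟨l, q, h0, hl, hq, hp⟩

theorem sll1_rcK (I : Inst ι L) {T : Finset (ι × Bool)} {r : ℕ} {h h' : SB ι}
    (hh : h' ∈ cyl (I.rcK T r h) h) : I.rcK T r h' = I.rcK T r h :=
  (rcK_stop I T r h).2 h (self_mem_cyl ∅ h) h' hh

theorem ls_mono {I : Inst ι L} {T : Finset (ι × Bool)} {r K0 ρ ℓ : ℕ} {h h' : SB ι} {K K' : Finset ι}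
    {S : SimpleGraph (ι × Bool)} {En : Finset (ι × Bool)} {Ct Tg : Finset ι}
    (s : LS I T r K0 ρ ℓ h K S En Ct Tg) (hK : K ⊆ K') (hh : h' ∈ cyl K h) :
    LS I T r K0 ρ ℓ h' K' S En Ct Tg := by
  have hc : h' ∈ cyl (I.rcK T r h) h := cyl_mono s.rcK h hh
  refine ⟨g1_mono s.g1 hK hh, (rc_congr I hc).2 s.rc, ?_, ?_, s.root, s.ctK.trans hK, s.ctTg,
    s.rootTg, ?_, ?_⟩
  · rw [sll1_rcK I hc]
    exact s.rcK.trans hK
  · have e : {s | I.Restr T r ℓ h' s} = {s | I.Restr T r ℓ h s} := by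
      ext t
      exact restr_congr I hc t
    rw [e]
    exact s.rho
  · intro x hx p hp
    rw [rcS_congr I hc (s.root x hx)] at hp
    exact s.free x hx p hp
  · intro x hx l hl hr p hp q hq
    rw [restr_congr I hc] at hr
    rw [rc_tg_congr I hc (s.root x hx) hl] at hp
    exact s.far x hx l hl hr p hp q hq

theorem lfz_mono {I : Inst ι L} {T : Finset (ι × Bool)} {r : ℕ} {h h' : SB ι} {K : Finset ι}
    (hK : I.rcK T r h ⊆ K) (hh : h' ∈ cyl K h) {x : ι × Bool} (hx : I.Root T x) {U : Finset (List Bool)}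
    {Z : Finset ι} (s : LfZ I r h x U Z) : LfZ I r h' x U Z := by
  have hc : h' ∈ cyl (I.rcK T r h) h := cyl_mono hK h hh
  intro l q hl hU hq
  have hl' : (false :: l).length ≤ r := by
    rw [List.length_cons]
    omega
  rw [rc_node_congr I hc hx hl'] at hq
  exact s l q hl hU hq

theorem qs_mono {I : Inst ι L} {T : Finset (ι × Bool)} {r ℓ : ℕ} {h h' : SB ι} {K Ct Z : Finset ι}
    (hK : I.rcK T r h ⊆ K) (hh : h' ∈ cyl K h) {Q : Finset (ι × Bool)} {Pl : ι × Bool → Finset (ι × Bool)}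
    (s : ShQ I T r ℓ h Ct Z Q Pl) : ShQ I T r ℓ h' Ct Z Q Pl := by
  have hc : h' ∈ cyl (I.rcK T r h) h := cyl_mono hK h hh
  refine ⟨s.unt, s.sh, s.dis, s.cov, ?_, s.pld⟩
  rw [rcA_congr I hc]
  exact s.pl

end Pool.Agent.H38H
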