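import Pool.Agent.Lib.H38H.L1

/-!
Chunk SLL3 (S/M). Before an attempt at a place of a short cycle.

Proof. `g1_cut` (`y.1, z.1 ∉ Ct` as `Ct ⊆ K`). `free`: `rcS x ⊆ rcA` (`rcS_sub`). `far`: the target `p` of an unrestricted node is not short (first case of `Restr`), while the elements of
`ball _ y.1` are on the component of `y` (`ball_sameF`), so short (`short_iff`, `sameF_card`); the same for `z.1` (`z` is on the component of `y`). `(insert y (insert z En)).erase y).erase z = En` as `y, z ∉ En`, `y ≠ z`.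
-/

set_option autoImplicit false

namespace Pool.Agent.H38H

open Classical

variable {ι : Type} [Fintype ι] {L : ℕ}

/-- an element of a ball around a slot on a short component is short -/
theorem sll3_short (I : Inst ι L) {ℓ k : ℕ} {p q : ι} (e : p ∈ I.ball k q) (hq : q ∈ I.short ℓ) :
    p ∈ I.short ℓ := by
  have h1 := ball_sameF I e false false
  rw [short_iff I ℓ p false, ← sameF_card I h1]
  exact (short_iff I ℓ q false).1 hq

theorem place_pre {I : Inst ι L} {T : Finset (ι × Bool)} {r K0 ρ ℓ : ℕ} {h : SB ι} {K : Finset ι}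
    {S : SimpleGraph (ι × Bool)} {En : Finset (ι × Bool)} {Ct Tg : Finset ι}
    (s : LS I T r K0 ρ ℓ h K S En Ct Tg) {y z : ι × Bool} (ho : I.outer y = some z) (hyz : y.1 ≠ z.1)
    (hy : y.1 ∉ K) (hz : z.1 ∉ K) (hyA : y.1 ∉ I.rcA T r h) (hzA : z.1 ∉ I.rcA T r h) (hs : y.1 ∈ I.short ℓ) :
    Pre I T r K0 ρ ℓ h K y z En (cutE S y z) (insert y (insert z En)) (insert y.1 (insert z.1 Ct))
      (insert y.1 (insert z.1 Tg)) ∧ ∀ c, Cov S c → Cov (cutE S y z) (c + 2) := by
  have hyC : y.1 ∉ Ct := fun hc => hy (s.ctK hc)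
  have hzC : z.1 ∉ Ct := fun hc => hz (s.ctK hc)
  obtain ⟨g, hyE, hzE, hcov⟩ := g1_cut s.g1 ho hyz hyC hzC
  have hzs : z.1 ∈ I.short ℓ := by
    refine sll3_short I (k := 1) (q := y.1) ?_ hs
    exact ball_outer I ho
  have hyz' : y ≠ z := fun e => hyz (by rw [e])
  refine ⟨⟨g, s.rc, s.rcK, s.rho, s.root, by simp, by simp, by simp, by simp, hy, hz, hyz, ?_, ?_, ?_, ?_, ?_, ?_⟩,
    hcov⟩
  · rw [Finset.erase_insert, Finset.erase_insert hzE]
    rw [Finset.mem_insert]
    rintro (e | e)
    · exact hyz' e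
    · exact hyE e
  · intro p hp
    rw [Finset.mem_insert, Finset.mem_insert] at hp
    rcases hp with hp | hp | hp
    · exact Or.inr (Or.inl hp)
    · exact Or.inr (Or.inr hp)
    · exact Or.inl (s.ctK hp)
  · intro p hp
    rw [Finset.mem_insert, Finset.mem_insert] at hp
    rcases hp with hp | hp | hp
    · exact ⟨y.1, by simp, hp ▸ ball_self I 1 _⟩
    · exact ⟨z.1, by simp, hp ▸ ball_self I 1 _⟩
    · obtain ⟨q, hq, hq2⟩ := s.ctTg p hp
      exact ⟨q, Finset.mem_insert_of_mem (Finset.mem_insert_of_mem hq), hq2⟩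
  · intro x hx
    exact Finset.mem_insert_of_mem (Finset.mem_insert_of_mem (s.rootTg x hx))
  · intro x hx p hp hc
    rw [Finset.mem_insert, Finset.mem_insert] at hc
    have hpA := rcS_sub I (s.root x hx) hp
    rcases hc with hc | hc | hc
    · exact hyA (hc ▸ hpA)
    · exact hzA (hc ▸ hpA)
    · exact s.free x hx p hp hc
  · intro x hx l hl hR p hp q hq
    have hns : p ∉ I.short ℓ := fun hc => hR ⟨s.root x hx, hl, p, hp, Or.inl hc⟩
    rw [Finset.mem_insert, Finset.mem_insert] at hq
    rcases hq with hq | hq | hq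
    · intro hc
      exact hns (sll3_short I hc (hq ▸ hs))
    · intro hc
      exact hns (sll3_short I hc (hq ▸ hzs))
    · exact s.far x hx l hl hR p hp q hq

end Pool.Agent.H38H
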