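import Pool.Agent.Lib.H38H.L1

/-!
Chunk SLL4 (M). After a successful attempt.

Proof. `p1_succ` gives `S''`, `Ct''` and the new targets `N`; take `Tg'' = Tg ∪ N`. `K ⊆ attR` and `h' ∈ cyl K h` (`att_stop`), so the facts about `h` hold for `h'` (as in `ls_mono`: `rc_congr`, `rcK_stop`, `restr_congr`, `rc_tg_congr`, `rcS_congr`). `ctK`: an element of `Ct''`
is in `attR` or in `Ct`, then in `K` or equal to `x0.1`, `y0.1`, which are in `attR` (`att_facts`). `free`: `p ∈ rcS ⊆ rcA ⊆ Fb`, `p ∈ Ct''`: not in `Ct` by `free`, otherwise `p ∈ ball 1 q`, `q ∈ N`, so `q ∈ ball 1 p ⊆ ball (5ℓ+2) p`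
(`ball_symm`, `ball_mono`), contradiction. `far`: `q ∈ N`, `p` a target of the trees, `p ∈ rcK ⊆ rcA ⊆ Fb` (`rcK_sub`), so `q ∉ ball _ p`, so `p ∉ ball _ q`. Last claim: `p ∈ ball 1 q` with `q` not short: `ball_sameF`, `short_iff`, `sameF_card`.
-/

set_option autoImplicit false

namespace Pool.Agent.H38H

open Classical

variable {ι : Type} [Fintype ι] {L : ℕ}

/-- a slot near a long component is not short -/
theorem sll4_short (I : Inst ι L) {ℓ k : ℕ} {p q : ι} (hq : q ∉ I.short ℓ) (hp : p ∈ I.ball k q) : p ∉ I.short ℓ := by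
  intro h1
  apply hq
  rw [short_iff I ℓ q false]
  rw [short_iff I ℓ p false] at h1
  rw [sameF_card I (ball_sameF I hp false false)]
  exact h1

/-- targets of the root trees are in `rcK` -/
theorem sll4_tg (I : Inst ι L) {T : Finset (ι × Bool)} {r : ℕ} {h : SB ι} {x : ι × Bool} (hx : I.Root T x)
    {l : List Bool} (hl : l.length < r) {p : ι} (hp : I.tg h (x, l) = some p) : p ∈ I.rcK T r h := by
  unfold Inst.tg at hp
  rw [Option.bind_eq_some_iff] at hp
  obtain ⟨q, hq, hq2⟩ := hp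
  unfold Inst.rcK
  rw [Finset.mem_filter]
  exact ⟨Finset.mem_univ _, x, l, q, hx, hl, hq, Or.inr hq2⟩

theorem pre_succ {I : Inst ι L} {T : Finset (ι × Bool)} {r K0 ρ ℓ : ℕ} {h : SB ι} {K : Finset ι}
    {x0 y0 : ι × Bool} {E1 : Finset (ι × Bool)}
    {S : SimpleGraph (ι × Bool)} {En : Finset (ι × Bool)} {Ct Tg : Finset ι}
    (s : Pre I T r K0 ρ ℓ h K x0 y0 E1 S En Ct Tg) (hℓ : 1 ≤ ℓ) {Av Fb : Finset ι} {D E : ℕ} {eps : ℝ}
    (ok : AttOK I Av K x0 y0 D E eps) (hA : I.rcA T r h ⊆ Fb) (hF : Tg ⊆ Fb) {h' : SB ι}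
    (hh : h' ∈ cyl K h) (hs : Succ I Av K x0 y0 D (V1 I Fb ℓ D) h') :
    ∃ (S' : SimpleGraph (ι × Bool)) (Ct' Tg' : Finset ι),
      LS I T r K0 ρ ℓ h' (attR I Av K x0 y0 D h') S' E1 Ct' Tg' ∧ Tg'.card ≤ Tg.card + 2 * (D + 1) ∧
      (∀ c, Cov S c → Cov S' (c + 4 * (D + 1))) ∧ Ct ⊆ Ct' ∧ ∀ p ∈ Ct', p ∈ Ct ∨ p ∉ I.short ℓ := by
  obtain ⟨S', Ct', N, a1, a2, a3, a4, a5, a6⟩ := p1_succ ok hℓ s.g1 s.hx s.hy s.cx s.cy s.ctTg
    (fun z hz => s.rootTg z (Or.inl hz)) hF hh hs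
  obtain ⟨mx, my, _, _, _, _, _, _, _, hin, _⟩ := att_facts ok hs
  have hKR : K ⊆ attR I Av K x0 y0 D h' := (att_stop ok h).1 h' hh
  have hxR : x0.1 ∈ attR I Av K x0 y0 D h' := hin _ (by simp)
  have hyR : y0.1 ∈ attR I Av K x0 y0 D h' := hin _ (by simp)
  have hh0 : h' ∈ cyl (I.rcK T r h) h := cyl_mono s.rcK h hh
  have hrcK : I.rcK T r h' = I.rcK T r h :=
    (rcK_stop I T r h).2 h (self_mem_cyl ∅ h) h' hh0
  have hmemK : ∀ x ∈ E1, ∀ l : List Bool, l.length < r → ∀ p, I.tg h' (x, l) = some p → p ∈ Fb := by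
    intro x hx l hl p hp
    have h1 := sll4_tg I (s.root x hx) hl hp
    rw [hrcK] at h1
    exact hA (rcK_sub I s.rc h1)
  refine ⟨S', Ct', Tg ∪ N, ?_, ?_, a6, a2, ?_⟩
  · refine ⟨?_, ?_, ?_, ?_, ?_, ?_, ?_, ?_, ?_, ?_⟩
    · rw [s.en] at a1
      exact a1
    · exact (rc_congr I hh0).2 s.rc
    · rw [hrcK]
      exact s.rcK.trans hKR
    · have e : {t | I.Restr T r ℓ h' t} = {t | I.Restr T r ℓ h t} := by
        ext t
        exact restr_congr I hh0 t
      rw [e]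
      exact s.rho
    · exact s.root
    · intro p hp
      rcases a5 p hp with h1 | ⟨h1, _⟩
      · rcases s.ctK p h1 with h2 | h2 | h2
        · exact hKR h2
        · rw [h2]; exact hxR
        · rw [h2]; exact hyR
      · exact h1
    · intro p hp
      rcases a5 p hp with h1 | ⟨_, q, hq, h2⟩
      · obtain ⟨q, hq, h2⟩ := s.ctTg p h1
        exact ⟨q, Finset.mem_union_left _ hq, h2⟩
      · exact ⟨q, Finset.mem_union_right _ hq, h2⟩
    · intro x hx
      exact Finset.mem_union_left _ (s.rootTg x hx)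
    · intro x hx p hp hpC
      rw [rcS_congr I hh0 (s.root x hx)] at hp
      rcases a5 p hpC with h1 | ⟨_, q, hq, h2⟩
      · exact s.free x hx p hp h1
      · have h3 : q ∈ I.ball 1 p := ball_symm I h2
        have h4 : q ∈ I.ball (5 * ℓ + 2) p := ball_mono I (by omega) p h3
        exact (a4 q hq).2 p (hA (rcS_sub I (s.root x hx) hp)) h4
    · intro x hx l hl hR p hp q hq hpq
      rcases Finset.mem_union.1 hq with hq | hq
      · refine s.far x hx l hl (fun hc => hR ((restr_congr I hh0 (x, l)).2 hc)) p ?_ q hq hpq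
        rw [← rc_tg_congr I hh0 (s.root x hx) hl]
        exact hp
      · exact (a4 q hq).2 p (hmemK x hx l hl p hp) (ball_symm I hpq)
  · have h1 := Finset.card_union_le Tg N
    omega
  · intro p hp
    rcases a5 p hp with h1 | ⟨_, q, hq, h2⟩
    · exact Or.inl h1
    · exact Or.inr (sll4_short I (a4 q hq).1 h2)

end Pool.Agent.H38H
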