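import Pool.Agent.Lib.H38H.L0

/-!
Chunk SLL5 (M). The average over one attempt.

Proof. Let `R h' = attR I Z K x0 y0 D h'` (a `Stop`: `att_stop` with the `AttOK` from `lg.att`), `Z' = (Z.erase x0.1).erase y0.1`, `Z'' = Z' \ K`. `|R h' ∩ Z'| ≤ |K ∩ Z| + |R h' ∩ Z''|`. With `g = gg n ≥ 2` all of
`X = g^300`, `1 + 1/g^100` are at least 1, so in both cases
`avg (R h') h' f ≤ m (1/g^39)^J + β + (if Succ then 0 else 1) * (1/g^39)^j + (X^|K ∩ Z| / X^t2 * (1+1/g^100)^(mJ+j)) * X^|R h' ∩ Z''|`.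
Take averages (`avg_tower`, `avg_mono`, `avg_add`, `avg_smul`, `avg_const`) and use the two bounds of `lg.att` with `Av = Z` (`Z'' ⊆ Z`, disjoint from `K`, without `x0.1`, `y0.1`).
-/

set_option autoImplicit false

namespace Pool.Agent.H38H

open Classical

variable {ι : Type} [Fintype ι] {L : ℕ}

/-- `X^c / X^t * P^u ≤ (X^a / X^t * P^v) * X^b` -/
theorem sll5_pow {X P : ℝ} (hX : 1 ≤ X) (hP : 1 ≤ P) {a b c t u v : ℕ} (hc : c ≤ a + b) (huv : u ≤ v) :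
    X ^ c / X ^ t * P ^ u ≤ X ^ a / X ^ t * P ^ v * X ^ b := by
  have hX0 : 0 < X := by linarith
  have hP0 : 0 < P := by linarith
  have h1 : X ^ c ≤ X ^ a * X ^ b := by
    rw [← pow_add]
    exact pow_le_pow_right₀ hX hc
  have h2 : P ^ u ≤ P ^ v := pow_le_pow_right₀ hP huv
  calc X ^ c / X ^ t * P ^ u ≤ (X ^ a * X ^ b) / X ^ t * P ^ v := by
        apply mul_le_mul _ h2 (pow_pos hP0 u).le (by positivity)
        exact div_le_div_of_nonneg_right h1 (pow_pos hX0 t).le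
    _ = X ^ a / X ^ t * P ^ v * X ^ b := by ring

theorem sll5_g {g : ℝ} (hg : 1 ≤ g) : 1 ≤ g ^ 300 ∧ 1 ≤ 1 + 1 / g ^ 100 ∧ 0 ≤ 1 / g ^ 39 := by
  have hg0 : 0 < g := by linarith
  refine ⟨one_le_pow₀ hg, ?_, by positivity⟩
  have : 0 ≤ 1 / g ^ 100 := by positivity
  linarith

omit [Fintype ι] in
/-- number of touched reserved slots -/
theorem sll5_card (R K Z : Finset ι) (a b : ι) :
    (R ∩ (Z.erase a).erase b).card ≤ (K ∩ Z).card + (R ∩ (((Z.erase a).erase b) \ K)).card := by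
  have h1 : R ∩ (Z.erase a).erase b ⊆ (K ∩ Z) ∪ (R ∩ (((Z.erase a).erase b) \ K)) := by
    intro p hp
    rw [Finset.mem_inter] at hp
    rw [Finset.mem_union, Finset.mem_inter, Finset.mem_inter, Finset.mem_sdiff]
    by_cases hK : p ∈ K
    · exact Or.inl ⟨hK, Finset.mem_of_mem_erase (Finset.mem_of_mem_erase hp.2)⟩
    · exact Or.inr ⟨hp.1, hp.2, hK⟩
  exact (Finset.card_le_card h1).trans (Finset.card_union_le _ _)

/-- the pointwise bound in the case of success -/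
theorem sll5_b0 {g β : ℝ} (hg : 1 ≤ g) {J t2 m j a b c : ℕ} (hc : c ≤ a + b) :
    B0 g β J t2 m c ≤ (m * (1 / g ^ 39) ^ J + β) + (1 / g ^ 39) ^ j * 0 +
      (g ^ 300) ^ a / (g ^ 300) ^ t2 * (1 + 1 / g ^ 100) ^ (m * J + j) * (g ^ 300) ^ b := by
  obtain ⟨h1, h2, _⟩ := sll5_g hg
  have h3 := sll5_pow h1 h2 (t := t2) hc (Nat.le_add_right (m * J) j)
  unfold B0
  linarith

/-- the pointwise bound in the case of failure -/
theorem sll5_b1 {g β : ℝ} (hg : 1 ≤ g) {J t2 m j a b c : ℕ} (hc : c ≤ a + b) :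
    B1 g β J t2 m j c ≤ (m * (1 / g ^ 39) ^ J + β) + (1 / g ^ 39) ^ j * 1 +
      (g ^ 300) ^ a / (g ^ 300) ^ t2 * (1 + 1 / g ^ 100) ^ (m * J + j) * (g ^ 300) ^ b := by
  obtain ⟨h1, h2, _⟩ := sll5_g hg
  have h3 := sll5_pow h1 h2 (t := t2) hc (le_refl (m * J + j))
  unfold B1
  linarith

/-- the average of the pointwise bound -/
theorem sll5_avg (K : Finset ι) (h : SB ι) (A E W : ℝ) (u v : SB ι → ℝ) :
    avg K h (fun h' => A + E * u h' + W * v h') = A + E * avg K h u + W * avg K h v := by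
  rw [avg_add K h (fun h' => A + E * u h') (fun h' => W * v h'), avg_add K h (fun _ => A) (fun h' => E * u h'),
    avg_const, avg_smul, avg_smul]

theorem att_step {I : Inst ι L} {n : ℕ} {β : ℝ} (lg : Lg I n β) {K Z Fb : Finset ι} {h : SB ι}
    {x0 y0 : ι × Bool} (kx : x0.1 ∉ K) (ky : y0.1 ∉ K) (xy : x0.1 ≠ y0.1) (hK : K.card ≤ gg n ^ 560)
    (hZ : Z.card ≤ gg n) (hF : Fb.card ≤ gg n) {f : SB ι → ℝ} {J t2 m j : ℕ}
    (hs : ∀ h' ∈ cyl K h, Succ I Z K x0 y0 (DD n) (V1 I Fb (gg n ^ 950) (DD n)) h' →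
      avg (attR I Z K x0 y0 (DD n) h') h' f ≤
        B0 (gg n) β J t2 m (attR I Z K x0 y0 (DD n) h' ∩ (Z.erase x0.1).erase y0.1).card)
    (hf : ∀ h' ∈ cyl K h, ¬ Succ I Z K x0 y0 (DD n) (V1 I Fb (gg n ^ 950) (DD n)) h' →
      avg (attR I Z K x0 y0 (DD n) h') h' f ≤
        B1 (gg n) β J t2 m j (attR I Z K x0 y0 (DD n) h' ∩ (Z.erase x0.1).erase y0.1).card) :
    avg K h f ≤ B1 (gg n) β J t2 m (j + 1) (K ∩ Z).card := by
  obtain ⟨ok, p1, p2⟩ := lg.att Z K Fb h x0 y0 kx ky xy hK hZ hF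
  have hg : (1 : ℝ) ≤ (gg n : ℝ) := by
    have h2 := lg.g2
    have h3 : 1 ≤ gg n := by omega
    exact_mod_cast h3
  have p3 := p2 (((Z.erase x0.1).erase y0.1) \ K)
    (fun p hp => Finset.mem_of_mem_erase (Finset.mem_of_mem_erase (Finset.mem_sdiff.1 hp).1))
    Finset.sdiff_disjoint
    (fun hp => Finset.ne_of_mem_erase (Finset.mem_of_mem_erase (Finset.mem_sdiff.1 hp).1) rfl)
    (fun hp => Finset.ne_of_mem_erase (Finset.mem_sdiff.1 hp).1 rfl)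
  rw [avg_tower (att_stop ok h) f]
  have key := avg_mono (K := K) (h := h)
    (f := fun h' => avg (attR I Z K x0 y0 (DD n) h') h' f)
    (g := fun h' => (m * (1 / (gg n : ℝ) ^ 39) ^ J + β) +
      (1 / (gg n : ℝ) ^ 39) ^ j *
        (if Succ I Z K x0 y0 (DD n) (V1 I Fb (gg n ^ 950) (DD n)) h' then 0 else 1) +
      ((gg n : ℝ) ^ 300) ^ (K ∩ Z).card / ((gg n : ℝ) ^ 300) ^ t2 * (1 + 1 / (gg n : ℝ) ^ 100) ^ (m * J + j) *
        ((gg n : ℝ) ^ 300) ^ (attR I Z K x0 y0 (DD n) h' ∩ (((Z.erase x0.1).erase y0.1) \ K)).card) (by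
    intro h' hh'
    have hcard := sll5_card (attR I Z K x0 y0 (DD n) h') K Z x0.1 y0.1
    by_cases hsu : Succ I Z K x0 y0 (DD n) (V1 I Fb (gg n ^ 950) (DD n)) h'
    · simp only [if_pos hsu]
      exact (hs h' hh' hsu).trans (sll5_b0 hg hcard)
    · simp only [if_neg hsu]
      exact (hf h' hh' hsu).trans (sll5_b1 hg hcard))
  refine key.trans ?_
  rw [sll5_avg]
  have hW : 0 ≤ ((gg n : ℝ) ^ 300) ^ (K ∩ Z).card / ((gg n : ℝ) ^ 300) ^ t2 *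
      (1 + 1 / (gg n : ℝ) ^ 100) ^ (m * J + j) := by positivity
  have hE : 0 ≤ (1 / (gg n : ℝ) ^ 39) ^ j := by positivity
  have q1 := mul_le_mul_of_nonneg_left p1 hE
  have q2 := mul_le_mul_of_nonneg_left p3 hW
  have q3 : (1 / (gg n : ℝ) ^ 39) ^ (j + 1) = (1 / (gg n : ℝ) ^ 39) ^ j * (1 / (gg n : ℝ) ^ 39) := pow_succ _ _
  have q4 : (1 + 1 / (gg n : ℝ) ^ 100) ^ (m * J + (j + 1)) =
      (1 + 1 / (gg n : ℝ) ^ 100) ^ (m * J + j) * (1 + 1 / (gg n : ℝ) ^ 100) := pow_succ _ _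
  unfold B1
  rw [q3, q4]
  calc _ ≤ (m * (1 / (gg n : ℝ) ^ 39) ^ J + β) + (1 / (gg n : ℝ) ^ 39) ^ j * (1 / (gg n : ℝ) ^ 39) +
        ((gg n : ℝ) ^ 300) ^ (K ∩ Z).card / ((gg n : ℝ) ^ 300) ^ t2 *
          (1 + 1 / (gg n : ℝ) ^ 100) ^ (m * J + j) * (1 + 1 / (gg n : ℝ) ^ 100) := by
        exact add_le_add (add_le_add le_rfl q1) q2
    _ = _ := by ring

/-- trivial cases -/
theorem b1_zero {g β : ℝ} (hg : 1 ≤ g) (hβ : 0 ≤ β) (J t2 m c : ℕ) : 1 ≤ B1 g β J t2 m 0 c := by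
  obtain ⟨h1, h2, h3⟩ := sll5_g hg
  have e1 : 0 ≤ (m : ℝ) * (1 / g ^ 39) ^ J := mul_nonneg (Nat.cast_nonneg _) (pow_nonneg h3 _)
  have e2 : 0 ≤ (g ^ 300) ^ c / (g ^ 300) ^ t2 * (1 + 1 / g ^ 100) ^ (m * J + 0) := by
    have : 0 ≤ g ^ 300 := by linarith
    have : 0 ≤ 1 + 1 / g ^ 100 := by linarith
    positivity
  unfold B1
  rw [pow_zero (1 / g ^ 39)]
  linarith

theorem b1_touch {g β : ℝ} (hg : 1 ≤ g) (hβ : 0 ≤ β) (J t2 m j c : ℕ) (hc : t2 ≤ c) : 1 ≤ B1 g β J t2 m j c := by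
  obtain ⟨h1, h2, h3⟩ := sll5_g hg
  have e1 : 0 ≤ (m : ℝ) * (1 / g ^ 39) ^ J := mul_nonneg (Nat.cast_nonneg _) (pow_nonneg h3 _)
  have e0 : 0 ≤ (1 / g ^ 39) ^ j := pow_nonneg h3 _
  have hX0 : 0 < (g ^ 300) ^ t2 := pow_pos (by linarith) _
  have e3 : 1 ≤ (g ^ 300) ^ c / (g ^ 300) ^ t2 := by
    rw [le_div_iff₀ hX0, one_mul]
    exact pow_le_pow_right₀ h1 hc
  have e4 : 1 ≤ (1 + 1 / g ^ 100) ^ (m * J + j) := one_le_pow₀ h2
  have e2 : 1 ≤ (g ^ 300) ^ c / (g ^ 300) ^ t2 * (1 + 1 / g ^ 100) ^ (m * J + j) := by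
    calc (1 : ℝ) = 1 * 1 := by ring
      _ ≤ _ := mul_le_mul e3 e4 zero_le_one (by linarith)
  unfold B1
  linarith

theorem b1_full (g β : ℝ) (J t2 m c : ℕ) : B1 g β J t2 m J c = B0 g β J t2 (m + 1) c := by
  have e : m * J + J = (m + 1) * J := by ring
  unfold B1 B0
  rw [e]
  push_cast
  ring

theorem b0_ge {g β : ℝ} (hg : 1 ≤ g) (J t2 m c : ℕ) : β ≤ B0 g β J t2 m c := by
  obtain ⟨h1, h2, h3⟩ := sll5_g hg
  have e1 : 0 ≤ (m : ℝ) * (1 / g ^ 39) ^ J := mul_nonneg (Nat.cast_nonneg _) (pow_nonneg h3 _)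
  have e2 : 0 ≤ (g ^ 300) ^ c / (g ^ 300) ^ t2 * (1 + 1 / g ^ 100) ^ (m * J) := by
    have : 0 ≤ g ^ 300 := by linarith
    have : 0 ≤ 1 + 1 / g ^ 100 := by linarith
    positivity
  unfold B0
  linarith

theorem avg_fB_le (I : Inst ι L) (T : Finset (ι × Bool)) (r K0 : ℕ) (K : Finset ι) (h : SB ι) :
    avg K h (fB I T r K0) ≤ 1 := by
  have h1 := avg_mono (K := K) (h := h) (f := fB I T r K0) (g := fun _ => (1 : ℝ)) (by
    intro h' _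
    unfold fB
    split_ifs <;> norm_num)
  rw [avg_const] at h1
  exact h1

end Pool.Agent.H38H
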