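import Pool.Agent.Lib.H38H.L1

/-!
Chunk SLL8 (M). Bookkeeping for the short cycles.

Proofs. `place_avail`: every place `y ∈ Pl c` with `y.1 ∈ K` or `z.1 ∈ K` has a slot in `K ∩ Z`, and different places have disjoint slots (`pld`), so the places that are not available inject into `K ∩ Z`. `qs_fail`: the slots of the other places are in `Z`
and different from those of `y` (`pld`); places of other cycles `c'` lie on `c'` (`pl`), which is a different component (`dis`), and the two positions of a slot lie on one component (`sameF_slot`). `qs_succ`: `unt` for `c' ≠ c`: a position `w` of `c'` with `w.1 ∈ Ct'`: either in `Ct` (no), or `w.1 = y.1` or `z.1`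
(then `c'` and `c` are the same component), or `w.1` not short, but `c'` is short (`sh`, `short_iff`, `sameF_card`). `cov`: by the old `cov` there is `c1 ∈ Q` with `SameF c1 x`; `c1 ≠ c` since `y` is on `c` and `y.1 ∈ Ct'`.
-/

set_option autoImplicit false

namespace Pool.Agent.H38H

open Classical

variable {ι : Type} [Fintype ι] {L : ℕ}

theorem sll8_step (I : Inst ι L) {y z : ι × Bool} (hz : I.outer y = some z) : I.SameF y z :=
  Relation.ReflTransGen.single (Or.inr hz)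

theorem sll8_trans (I : Inst ι L) {x y z : ι × Bool} (h1 : I.SameF x y) (h2 : I.SameF y z) : I.SameF x z :=
  Relation.ReflTransGen.trans h1 h2

/-- positions of different cycles have different slots -/
theorem sll8_ne {I : Inst ι L} {T : Finset (ι × Bool)} {r ℓ : ℕ} {h : SB ι} {Ct Z : Finset ι}
    {Q : Finset (ι × Bool)} {Pl : ι × Bool → Finset (ι × Bool)} (s : ShQ I T r ℓ h Ct Z Q Pl) {c c' : ι × Bool}
    (hc : c ∈ Q) (hc' : c' ∈ Q) (hn : c' ≠ c) {u w : ι × Bool} (hu : I.SameF c u) (hw : I.SameF c' w) :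
    w.1 ≠ u.1 := by
  intro e
  have h1 : I.SameF w u := sameF_slot I e
  have h2 : I.SameF c' c := sll8_trans I (sll8_trans I hw h1) (sameF_symm I hu)
  exact hn (s.dis c' hc' c hc h2)

theorem place_avail {I : Inst ι L} {T : Finset (ι × Bool)} {r ℓ : ℕ} {h : SB ι} {Ct Z K : Finset ι}
    {Q : Finset (ι × Bool)} {Pl : ι × Bool → Finset (ι × Bool)} (s : ShQ I T r ℓ h Ct Z Q Pl) {c : ι × Bool}
    (hc : c ∈ Q) (hK : (K ∩ Z).card < (Pl c).card) :
    ∃ y ∈ Pl c, ∃ z, I.outer y = some z ∧ y.1 ∉ K ∧ z.1 ∉ K := by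
  by_contra hcon
  push Not at hcon
  have hf : ∀ y ∈ Pl c, ∃ p, p ∈ K ∩ Z ∧ (p = y.1 ∨ ∃ z, I.outer y = some z ∧ p = z.1) := by
    intro y hy
    obtain ⟨_, z, hz, _, hyZ, hzZ, _, _⟩ := s.pl c hc y hy
    by_cases hyK : y.1 ∈ K
    · exact ⟨y.1, Finset.mem_inter.2 ⟨hyK, hyZ⟩, Or.inl rfl⟩
    · exact ⟨z.1, Finset.mem_inter.2 ⟨hcon y hy z hz hyK, hzZ⟩, Or.inr ⟨z, hz, rfl⟩⟩
  have : Nonempty ι := ⟨c.1⟩
  choose! f hf1 hf2 using hf
  have hinj : Set.InjOn f (Pl c : Set (ι × Bool)) := by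
    intro y hy y' hy' e
    by_contra hne
    obtain ⟨_, z, hz, _⟩ := s.pl c hc y hy
    obtain ⟨_, z', hz', _⟩ := s.pl c hc y' hy'
    obtain ⟨d1, d2, d3, d4⟩ := s.pld c hc y hy y' hy' hne z z' hz hz'
    have a1 : f y = y.1 ∨ f y = z.1 := by
      rcases hf2 y hy with h1 | ⟨w, hw, h1⟩
      · exact Or.inl h1
      · rw [hz] at hw
        injection hw with hw
        exact Or.inr (by rw [h1, hw])
    have a2 : f y' = y'.1 ∨ f y' = z'.1 := by
      rcases hf2 y' hy' with h1 | ⟨w, hw, h1⟩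
      · exact Or.inl h1
      · rw [hz'] at hw
        injection hw with hw
        exact Or.inr (by rw [h1, hw])
    rcases a1 with a1 | a1 <;> rcases a2 with a2 | a2
    · exact d1 (a1.symm.trans (e.trans a2))
    · exact d2 (a1.symm.trans (e.trans a2))
    · exact d3 (a1.symm.trans (e.trans a2))
    · exact d4 (a1.symm.trans (e.trans a2))
  have hle := Finset.card_le_card_of_injOn f (fun y hy => hf1 y hy) hinj
  omega

theorem qs_fail {I : Inst ι L} {T : Finset (ι × Bool)} {r ℓ : ℕ} {h : SB ι} {Ct Z : Finset ι}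
    {Q : Finset (ι × Bool)} {Pl : ι × Bool → Finset (ι × Bool)} (s : ShQ I T r ℓ h Ct Z Q Pl) {c y z : ι × Bool}
    (hc : c ∈ Q) (hy : y ∈ Pl c) (hz : I.outer y = some z) :
    ShQ I T r ℓ h Ct ((Z.erase y.1).erase z.1) Q (Function.update Pl c ((Pl c).erase y)) := by
  have hcy : I.SameF c y := (s.pl c hc y hy).1
  have hcz : I.SameF c z := sll8_trans I hcy (sll8_step I hz)
  have hsub : ∀ c' ∈ Q, ∀ y' ∈ Function.update Pl c ((Pl c).erase y) c', y' ∈ Pl c' ∧ (c' = c → y' ≠ y) := by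
    intro c' hc' y' hy'
    by_cases e : c' = c
    · subst e
      rw [Function.update_self] at hy'
      exact ⟨Finset.mem_of_mem_erase hy', fun _ => Finset.ne_of_mem_erase hy'⟩
    · rw [Function.update_of_ne e] at hy'
      exact ⟨hy', fun e' => absurd e' e⟩
  refine ⟨s.unt, s.sh, s.dis, s.cov, ?_, ?_⟩
  · intro c' hc' y' hy'
    obtain ⟨hy1, hy2⟩ := hsub c' hc' y' hy'
    obtain ⟨k1, z', k2, k3, k4, k5, k6, k7⟩ := s.pl c' hc' y' hy1
    refine ⟨k1, z', k2, k3, ?_, ?_, k6, k7⟩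
    · by_cases e : c' = c
      · subst e
        obtain ⟨d1, d2, d3, d4⟩ := s.pld c' hc y hy y' hy1 (hy2 rfl).symm z z' hz k2
        exact Finset.mem_erase.2 ⟨d3.symm, Finset.mem_erase.2 ⟨d1.symm, k4⟩⟩
      · exact Finset.mem_erase.2 ⟨sll8_ne s hc hc' e hcz k1, Finset.mem_erase.2 ⟨sll8_ne s hc hc' e hcy k1, k4⟩⟩
    · by_cases e : c' = c
      · subst e
        obtain ⟨d1, d2, d3, d4⟩ := s.pld c' hc y hy y' hy1 (hy2 rfl).symm z z' hz k2
        exact Finset.mem_erase.2 ⟨d4.symm, Finset.mem_erase.2 ⟨d2.symm, k5⟩⟩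
      · have k8 : I.SameF c' z' := sll8_trans I k1 (sll8_step I k2)
        exact Finset.mem_erase.2 ⟨sll8_ne s hc hc' e hcz k8, Finset.mem_erase.2 ⟨sll8_ne s hc hc' e hcy k8, k5⟩⟩
  · intro c' hc' y1 hy1 y2 hy2 hne z1 z2 hz1 hz2
    exact s.pld c' hc' y1 (hsub c' hc' y1 hy1).1 y2 (hsub c' hc' y2 hy2).1 hne z1 z2 hz1 hz2

theorem qs_succ {I : Inst ι L} {T : Finset (ι × Bool)} {r ℓ : ℕ} {h : SB ι} {Ct Ct' Z : Finset ι}
    {Q : Finset (ι × Bool)} {Pl : ι × Bool → Finset (ι × Bool)} (s : ShQ I T r ℓ h Ct Z Q Pl) {c y z : ι × Bool}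
    (hc : c ∈ Q) (hy : y ∈ Pl c) (hz : I.outer y = some z) (h1 : insert y.1 (insert z.1 Ct) ⊆ Ct')
    (h2 : ∀ p ∈ Ct', p ∈ insert y.1 (insert z.1 Ct) ∨ p ∉ I.short ℓ) :
    ShQ I T r ℓ h Ct' ((Z.erase y.1).erase z.1) (Q.erase c) Pl := by
  have hcy : I.SameF c y := (s.pl c hc y hy).1
  have hcz : I.SameF c z := sll8_trans I hcy (sll8_step I hz)
  refine ⟨?_, ?_, ?_, ?_, ?_, ?_⟩
  · intro c' hc' w hw hwC
    have hcne : c' ≠ c := Finset.ne_of_mem_erase hc'
    have hcQ : c' ∈ Q := Finset.mem_of_mem_erase hc'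
    rcases h2 w.1 hwC with h3 | h3
    · rw [Finset.mem_insert, Finset.mem_insert] at h3
      rcases h3 with h3 | h3 | h3
      · exact sll8_ne s hc hcQ hcne hcy hw h3
      · exact sll8_ne s hc hcQ hcne hcz hw h3
      · exact s.unt c' hcQ w hw h3
    · apply h3
      rw [short_iff I ℓ w.1 w.2]
      have h4 := s.sh c' hcQ
      rw [short_iff I ℓ c'.1 c'.2] at h4
      have h5 := sameF_card I hw
      have e1 : ((c'.1, c'.2) : ι × Bool) = c' := rfl
      have e2 : ((w.1, w.2) : ι × Bool) = w := rfl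
      rw [e1] at h4
      rw [e2, ← h5]
      exact h4
  · intro c' hc'
    exact s.sh c' (Finset.mem_of_mem_erase hc')
  · intro c1 hc1 c2 hc2 e
    exact s.dis c1 (Finset.mem_of_mem_erase hc1) c2 (Finset.mem_of_mem_erase hc2) e
  · intro x hx1 hx2 hx3
    obtain ⟨c1, hc1, hs⟩ := s.cov x (fun w hw hwC => hx1 w hw (h1 (by
      rw [Finset.mem_insert, Finset.mem_insert]; exact Or.inr (Or.inr hwC)))) hx2 hx3
    refine ⟨c1, Finset.mem_erase.2 ⟨?_, hc1⟩, hs⟩
    rintro rfl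
    exact hx1 y (sll8_trans I (sameF_symm I hs) hcy) (h1 (Finset.mem_insert_self _ _))
  · intro c' hc' y' hy'
    have hcne : c' ≠ c := Finset.ne_of_mem_erase hc'
    have hcQ : c' ∈ Q := Finset.mem_of_mem_erase hc'
    obtain ⟨k1, z', k2, k3, k4, k5, k6, k7⟩ := s.pl c' hcQ y' hy'
    have k8 : I.SameF c' z' := sll8_trans I k1 (sll8_step I k2)
    exact ⟨k1, z', k2, k3, Finset.mem_erase.2 ⟨sll8_ne s hc hcQ hcne hcz k1, Finset.mem_erase.2 ⟨sll8_ne s hc hcQ hcne hcy k1, k4⟩⟩,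
      Finset.mem_erase.2 ⟨sll8_ne s hc hcQ hcne hcz k8, Finset.mem_erase.2 ⟨sll8_ne s hc hcQ hcne hcy k8, k5⟩⟩, k6, k7⟩
  · intro c' hc' y1 hy1 y2 hy2 hne z1 z2 hz1 hz2
    exact s.pld c' (Finset.mem_of_mem_erase hc') y1 hy1 y2 hy2 hne z1 z2 hz1 hz2

end Pool.Agent.H38H
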