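import Pool.Agent.Lib.H38H.O2
import Pool.Agent.Lib.H38H.L3
import Pool.Agent.Lib.H38H.L4
import Pool.Agent.Lib.H38H.L5
import Pool.Agent.Lib.H38H.L8

/-!
Chunk SLL9 (M/L). The task of a short cycle.

Proof. As `pair_task`. Induction over `j`. `j = 0`: `b1_zero`, `avg_fB_le`. `j + 1`: if `t2 ≤ |K ∩ Z|`: `b1_touch`. Otherwise `place_avail` gives `y ∈ Pl c`, `z`; `place_pre` (`y.1` is short: `ShQ.sh`, `short_iff`, `sameF_card`) with `x0 = y`, `y0 = z`, `E1 = En`; `Fb = rcA ∪ insert y.1 (insert z.1 Tg)`; `att_step`.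
Success: `pre_succ`, then `next` with `Q.erase c`, `(Z.erase y.1).erase z.1`, `qs_succ`, `qs_mono`; the leaf slots of the roots are in `rcA` (definition), so different from `y.1`, `z.1`, so `LfZ` still holds. Failure: `ls_mono`, `qs_mono`, `qs_fail`; `|Pl c|` decreases by one; induction hypothesis. Sizes as in `pair_task`
(`|Tg| + 2 + 2 (D + 1)`, `Cov (c + 2 + 4 (D+1))`, and `r ≥ 1`).
-/

set_option autoImplicit false

namespace Pool.Agent.H38H

open Classical

variable {ι : Type} [Fintype ι] {L : ℕ}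

theorem sll9_sz {I : Inst ι L} {n : ℕ} {β : ℝ} (lg : Lg I n β) {T : Finset (ι × Bool)}
    {r m a : ℕ} {h h' : SB ι} {K R Z Tg Tg' : Finset ι} {S S' : SimpleGraph (ι × Bool)} {y z : ι × Bool}
    (hA : I.rcA T r h' = I.rcA T r h) (hR : R.card ≤ K.card + 10 * 2 ^ DD n) {u v m' a' : ℕ}
    (hT : Tg'.card ≤ Tg.card + u) (hC : ∀ c, Cov S c → Cov S' (c + v))
    (hu : u + m' * (4 * r + 4 * (DD n + 1)) ≤ m * (4 * r + 4 * (DD n + 1)))
    (hv : v + m' * (4 * r + 4 * (DD n + 1)) ≤ m * (4 * r + 4 * (DD n + 1))) (ha : a' + 1 ≤ a)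
    (sz : Sz n r K Z Tg (I.rcA T r h) S a m) :
    Sz n r R ((Z.erase y.1).erase z.1) Tg' (I.rcA T r h') S' a' m' where
  kc := by
    have h1 := sz.kc
    have h2 := lg.dd
    have h3 : (a' + 1) * gg n ^ 551 ≤ a * gg n ^ 551 := Nat.mul_le_mul_right _ ha
    rw [Nat.add_mul, Nat.one_mul] at h3
    omega
  zc := by
    have h1 := sz.zc
    have h2 : ((Z.erase y.1).erase z.1).card ≤ Z.card :=
      Finset.card_le_card ((Finset.erase_subset _ _).trans (Finset.erase_subset _ _))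
    omega
  ac := by
    rw [hA]
    exact sz.ac
  tc := by
    have h1 := sz.tc
    omega
  cc := by
    obtain ⟨c, hc, hc2⟩ := sz.cc
    exact ⟨c + v, hC c hc, by omega⟩

theorem cyc_task {I : Inst ι L} {n : ℕ} {β : ℝ} (lg : Lg I n β) {T : Finset (ι × Bool)}
    {r K0 ρ J t2 m e : ℕ} (hr : 1 ≤ r)
    (next : ∀ (h : SB ι) (K : Finset ι) (S : SimpleGraph (ι × Bool)) (En : Finset (ι × Bool))
      (Ct Tg Z : Finset ι) (Q : Finset (ι × Bool)) (Pl : ι × Bool → Finset (ι × Bool)),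
      LS I T r K0 ρ (gg n ^ 950) h K S En Ct Tg → (∀ z ∈ En, LfZ I r h z ∅ Z) → En.card = 2 * e →
      ShQ I T r (gg n ^ 950) h Ct Z Q Pl → (∀ c ∈ Q, t2 + J ≤ (Pl c).card) → Q.card + e = m →
      Sz n r K Z Tg (I.rcA T r h) S (m * J) m →
      avg K h (fB I T r K0) ≤ B0 (gg n) β J t2 m (K ∩ Z).card) :
    ∀ (j : ℕ) (h : SB ι) (K : Finset ι) (S : SimpleGraph (ι × Bool)) (En : Finset (ι × Bool))
      (Ct Tg Z : Finset ι) (Q : Finset (ι × Bool)) (Pl : ι × Bool → Finset (ι × Bool)) (c : ι × Bool),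
      LS I T r K0 ρ (gg n ^ 950) h K S En Ct Tg → (∀ z ∈ En, LfZ I r h z ∅ Z) → En.card = 2 * e →
      ShQ I T r (gg n ^ 950) h Ct Z Q Pl → c ∈ Q → (∀ c' ∈ Q, c' ≠ c → t2 + J ≤ (Pl c').card) →
      t2 + j ≤ (Pl c).card → Q.card + e = m + 1 → Sz n r K Z Tg (I.rcA T r h) S (m * J + j) (m + 1) →
      avg K h (fB I T r K0) ≤ B1 (gg n) β J t2 m j (K ∩ Z).card := by
  have g1 : (1 : ℝ) ≤ (gg n : ℝ) := by
    have h1 := lg.g2
    have h2 : 1 ≤ gg n := by omega
    exact_mod_cast h2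
  intro j
  induction j with
  | zero =>
    intro h K S En Ct Tg Z Q Pl c _ _ _ _ _ _ _ _ _
    exact (avg_fB_le I T r K0 K h).trans (b1_zero g1 lg.nn J t2 m _)
  | succ j ih =>
    intro h K S En Ct Tg Z Q Pl c s hLf hE q hc hPl hPc hQ sz
    by_cases ht : t2 ≤ (K ∩ Z).card
    · exact (avg_fB_le I T r K0 K h).trans (b1_touch g1 lg.nn J t2 m _ _ ht)
    obtain ⟨y, hy, z, ho, hyK, hzK⟩ := place_avail (K := K) q hc (by omega)
    obtain ⟨hcy, z', ho', hyz, hyZ, hzZ, hyA, hzA⟩ := q.pl c hc y hy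
    have hzz : z' = z := Option.some.inj (ho'.symm.trans ho)
    subst hzz
    have hys : y.1 ∈ I.short (gg n ^ 950) := by
      have h1 := (short_iff I (gg n ^ 950) c.1 c.2).1 (q.sh c hc)
      have h2 := sameF_card I hcy
      exact (short_iff I (gg n ^ 950) y.1 y.2).2 (h2 ▸ h1)
    obtain ⟨pr, hcov⟩ := place_pre s ho hyz hyK hzK hyA hzA hys
    have hℓ : 1 ≤ gg n ^ 950 := Nat.one_le_pow _ _ (by have := lg.g2; omega)
    have hKc : K.card ≤ gg n ^ 560 := (Nat.le_add_right _ _).trans sz.kc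
    have hZc : Z.card ≤ gg n := by
      have := sz.zc
      omega
    have hTc : (insert y.1 (insert z'.1 Tg)).card ≤ Tg.card + 2 := by
      have h1 := Finset.card_insert_le y.1 (insert z'.1 Tg)
      have h2 := Finset.card_insert_le z'.1 Tg
      omega
    have hm1 : (m + 1) * (4 * r + 4 * (DD n + 1)) =
        m * (4 * r + 4 * (DD n + 1)) + (4 * r + 4 * (DD n + 1)) := by
      rw [Nat.add_mul, Nat.one_mul]
    have hFc : (I.rcA T r h ∪ insert y.1 (insert z'.1 Tg)).card ≤ gg n := by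
      have h1 := Finset.card_union_le (I.rcA T r h) (insert y.1 (insert z'.1 Tg))
      have h2 := sz.ac
      have h3 := sz.tc
      rw [hm1] at h3
      omega
    have ok := (lg.att Z K (I.rcA T r h ∪ insert y.1 (insert z'.1 Tg)) h y z' hyK hzK hyz hKc hZc hFc).1
    have hst := att_stop ok h
    have hLf' : ∀ h' ∈ cyl K h, ∀ w ∈ En, LfZ I r h' w ∅ ((Z.erase y.1).erase z'.1) := by
      intro h' hh w hw l p hl hU hp
      have h0 := rcA_congr I (T := T) (r := r) (cyl_mono s.rcK h hh)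
      have h1 := lfz_mono s.rcK hh (s.root w hw) (hLf w hw) l p hl hU hp
      have h2 : p.2.1 ∈ I.rcA T r h := by
        rw [← h0]
        refine Finset.mem_filter.2 ⟨Finset.mem_univ _, w, false :: l, p, s.root w hw, ?_, hp, Or.inl rfl⟩
        rw [List.length_cons]
        omega
      refine Finset.mem_erase.2 ⟨fun e => hzA (e ▸ h2), Finset.mem_erase.2 ⟨fun e => hyA (e ▸ h2), h1⟩⟩
    refine att_step lg hyK hzK hyz hKc hZc hFc (fun h' hh hs => ?_) (fun h' hh hs => ?_)
    · obtain ⟨S', Ct', Tg', ls', hTg', hCov', hCt, hCt2⟩ :=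
        pre_succ pr hℓ ok Finset.subset_union_left Finset.subset_union_right hh hs
      refine next h' _ S' En Ct' Tg' _ (Q.erase c) Pl ls' (hLf' h' hh) hE
        (qs_succ (qs_mono s.rcK hh q) hc hy ho hCt hCt2) ?_ ?_ ?_
      · intro c' hc'
        obtain ⟨h1, h2⟩ := Finset.mem_erase.1 hc'
        exact hPl c' h2 h1
      · have h1 := Finset.card_erase_of_mem hc
        have h2 : 0 < Q.card := Finset.card_pos.2 ⟨c, hc⟩
        omega
      · refine sll9_sz lg (rcA_congr I (cyl_mono s.rcK h hh)) (att_card ok h') (u := 2 + 2 * (DD n + 1))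
          (v := 2 + 4 * (DD n + 1)) (by omega) (fun c' hc' => ?_) ?_ ?_ ?_ sz
        · have h1 := hCov' _ (hcov _ hc')
          rw [Nat.add_assoc] at h1
          exact h1
        · omega
        · omega
        · omega
    · refine ih h' _ S En Ct Tg _ Q (Function.update Pl c ((Pl c).erase y)) c
        (ls_mono s (hst.1 h' hh) hh) (hLf' h' hh) hE (qs_fail (qs_mono s.rcK hh q) hc hy ho) hc ?_ ?_ hQ ?_
      · intro c' hc' hne
        rw [Function.update_of_ne hne]
        exact hPl c' hc' hne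
      · rw [Function.update_self, Finset.card_erase_of_mem hy]
        omega
      · exact sll9_sz lg (rcA_congr I (cyl_mono s.rcK h hh)) (att_card ok h') (u := 0) (v := 0) (by omega)
          (fun c' hc' => hc') (by omega) (by omega) (by omega) sz

end Pool.Agent.H38H
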