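import Pool.Agent.Lib.H38H.L7
import Pool.Agent.Lib.H38H.L9

/-!
Chunk SLL10 (M). The loop over the short cycles.

Proof. Induction over `Q.card` (or over `m` with `e` fixed). `Q = ∅`: `Unt` holds: if an untouched cycle had fewer than `ℓ` positions, `ShQ.cov` would give an element of `Q`; then `pairs_loop`. `Q ≠ ∅`: take `c ∈ Q` and `cyc_task` with `j = J`, `b1_full`.
-/

set_option autoImplicit false

namespace Pool.Agent.H38H

open Classical

variable {ι : Type} [Fintype ι] {L : ℕ}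

theorem cyc_loop {I : Inst ι L} {n : ℕ} {β : ℝ} (lg : Lg I n β) {T : Finset (ι × Bool)}
    {r K0 ρ J t2 : ℕ} (hr : 1 ≤ r) (hK0 : 1 ≤ K0) (hρ : J + t2 + ρ < 2 ^ (r - 1 - ρ)) (m : ℕ) :
    ∀ (e : ℕ) (h : SB ι) (K : Finset ι) (S : SimpleGraph (ι × Bool)) (En : Finset (ι × Bool))
      (Ct Tg Z : Finset ι) (Q : Finset (ι × Bool)) (Pl : ι × Bool → Finset (ι × Bool)),
      LS I T r K0 ρ (gg n ^ 950) h K S En Ct Tg → (∀ z ∈ En, LfZ I r h z ∅ Z) → En.card = 2 * e →
      ShQ I T r (gg n ^ 950) h Ct Z Q Pl → (∀ c ∈ Q, t2 + J ≤ (Pl c).card) → Q.card + e = m →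
      Sz n r K Z Tg (I.rcA T r h) S (m * J) m →
      avg K h (fB I T r K0) ≤ B0 (gg n) β J t2 m (K ∩ Z).card := by
  have key : ∀ (m e : ℕ) (h : SB ι) (K : Finset ι) (S : SimpleGraph (ι × Bool)) (En : Finset (ι × Bool))
      (Ct Tg Z : Finset ι) (Q : Finset (ι × Bool)) (Pl : ι × Bool → Finset (ι × Bool)), Q = ∅ →
      LS I T r K0 ρ (gg n ^ 950) h K S En Ct Tg → (∀ z ∈ En, LfZ I r h z ∅ Z) → En.card = 2 * e →
      ShQ I T r (gg n ^ 950) h Ct Z Q Pl → Q.card + e = m →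
      Sz n r K Z Tg (I.rcA T r h) S (m * J) m →
      avg K h (fB I T r K0) ≤ B0 (gg n) β J t2 m (K ∩ Z).card := by
    intro m e h K S En Ct Tg Z Q Pl hQ ls hz hEn qs hm sz
    subst hQ
    rw [Finset.card_empty, zero_add] at hm
    subst hm
    refine pairs_loop lg hr hK0 hρ e h K S En Ct Tg Z ls hz hEn sz ?_
    intro x h1 h2
    by_contra hcon
    push Not at hcon
    obtain ⟨c, hc, -⟩ := qs.cov x h1 h2 hcon
    exact Finset.notMem_empty c hc
  induction m with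
  | zero =>
    intro e h K S En Ct Tg Z Q Pl ls hz hEn qs hPl hm sz
    have hQ : Q = ∅ := Finset.card_eq_zero.1 (by omega)
    exact key 0 e h K S En Ct Tg Z Q Pl hQ ls hz hEn qs hm sz
  | succ m ih =>
    intro e h K S En Ct Tg Z Q Pl ls hz hEn qs hPl hm sz
    by_cases hQ : Q = ∅
    · exact key (m + 1) e h K S En Ct Tg Z Q Pl hQ ls hz hEn qs hm sz
    · obtain ⟨c, hc⟩ := Finset.nonempty_iff_ne_empty.2 hQ
      have e1 : (m + 1) * J = m * J + J := by ring
      rw [e1] at sz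
      rw [← b1_full]
      exact cyc_task lg hr (ih e) J h K S En Ct Tg Z Q Pl c ls hz hEn qs hc
        (fun c' hc' _ => hPl c' hc') (hPl c hc) hm sz

end Pool.Agent.H38H
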