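import Pool.Agent.Lib.H38H.L1

/-!
Chunk SLL11 (M). Representatives of components, places.

Proofs. `rep_exists`: `SameF` is an equivalence relation (`sameF_symm`). Let `T0` be the set of `I.comps_le` (the relation there is `I.SameF t x` written out) and `rep x` a fixed representative of the class of `x` (`Quotient.out`); `Q = (T0.filter P).image rep`.
`places_exist`: induction over `q`: apply `place_exists` with `B = A ∪` (the slots `y.1`, `z.1` of the places found so far; at most `2 q` slots), so the new place has slots outside `A` and different from all earlier ones.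
-/

set_option autoImplicit false

namespace Pool.Agent.H38H

open Classical

variable {ι : Type} [Fintype ι] {L : ℕ}

theorem rep_exists (I : Inst ι L) (P : ι × Bool → Prop) (hP : ∀ x y, I.SameF x y → P x → P y) :
    ∃ Q : Finset (ι × Bool), Q.card ≤ L ∧ (∀ c ∈ Q, P c) ∧ (∀ c ∈ Q, ∀ c' ∈ Q, I.SameF c c' → c = c') ∧
      ∀ x, P x → ∃ c ∈ Q, I.SameF c x := by
  obtain ⟨T0, hT0, hcov⟩ := I.comps_le
  let s : Setoid (ι × Bool) :=
    { r := I.SameF
      iseqv := ⟨fun _ => Relation.ReflTransGen.refl, fun h => sameF_symm I h,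
        fun h h' => Relation.ReflTransGen.trans h h'⟩ }
  let rep : ι × Bool → ι × Bool := fun x => (Quotient.mk s x).out
  have hrep : ∀ x, I.SameF (rep x) x := fun x => Quotient.exact (Quotient.out_eq (Quotient.mk s x))
  have hrep' : ∀ x y, I.SameF x y → rep x = rep y := by
    intro x y h
    show (Quotient.mk s x).out = (Quotient.mk s y).out
    rw [Quotient.sound (s := s) h]
  refine ⟨(T0.filter P).image rep, ?_, ?_, ?_, ?_⟩
  · exact (Finset.card_image_le.trans (Finset.card_filter_le _ _)).trans hT0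
  · intro c hc
    obtain ⟨t, ht, rfl⟩ := Finset.mem_image.1 hc
    exact hP t _ (sameF_symm I (hrep t)) (Finset.mem_filter.1 ht).2
  · intro c hc c' hc' h
    obtain ⟨t, ht, rfl⟩ := Finset.mem_image.1 hc
    obtain ⟨t', ht', rfl⟩ := Finset.mem_image.1 hc'
    exact hrep' t t' (((sameF_symm I (hrep t)).trans h).trans (hrep t'))
  · intro x hx
    obtain ⟨t, ht, htx⟩ := hcov x
    have htx' : I.SameF t x := htx
    exact ⟨rep t, Finset.mem_image.2 ⟨t, Finset.mem_filter.2 ⟨ht, hP x t (sameF_symm I htx') hx⟩, rfl⟩,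
      (hrep t).trans htx'⟩

theorem places_exist (I : Inst ι L) {x : ι × Bool} (A : Finset ι) {b : ℕ}
    (hA : (A.filter (fun p => I.SameF x (p, false))).card ≤ b) (ho : ∀ y, I.SameF x y → I.outer y ≠ none)
    (q : ℕ) (hc : 4 * (b + 2 * q) + 2 < Nat.card {y // I.SameF x y}) :
    ∃ P : Finset (ι × Bool), P.card = q ∧
      (∀ y ∈ P, I.SameF x y ∧ ∃ z, I.outer y = some z ∧ y.1 ≠ z.1 ∧ y.1 ∉ A ∧ z.1 ∉ A) ∧
      ∀ y ∈ P, ∀ y' ∈ P, y ≠ y' → ∀ z z', I.outer y = some z → I.outer y' = some z' →
        y.1 ≠ y'.1 ∧ y.1 ≠ z'.1 ∧ z.1 ≠ y'.1 ∧ z.1 ≠ z'.1 := by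
  induction q with
  | zero =>
    exact ⟨∅, Finset.card_empty, fun y hy => absurd hy (Finset.notMem_empty y),
      fun y hy => absurd hy (Finset.notMem_empty y)⟩
  | succ q ih =>
    obtain ⟨P, hP, h1, h2⟩ := ih (by omega)
    set B : Finset ι := (A ∪ P.image Prod.fst) ∪ P.image (fun y => ((I.outer y).getD y).1) with hB
    have hBc : (B.filter (fun p => I.SameF x (p, false))).card ≤ b + 2 * q := by
      rw [hB, Finset.filter_union, Finset.filter_union]
      have e1 := Finset.card_union_le (A.filter (fun p => I.SameF x (p, false)) ∪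
        (P.image Prod.fst).filter (fun p => I.SameF x (p, false)))
        ((P.image (fun y => ((I.outer y).getD y).1)).filter (fun p => I.SameF x (p, false)))
      have e2 := Finset.card_union_le (A.filter (fun p => I.SameF x (p, false)))
        ((P.image Prod.fst).filter (fun p => I.SameF x (p, false)))
      have e3 : ((P.image Prod.fst).filter (fun p => I.SameF x (p, false))).card ≤ q :=
        ((Finset.card_filter_le _ _).trans Finset.card_image_le).trans hP.le
      have e4 : ((P.image (fun y => ((I.outer y).getD y).1)).filter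
          (fun p => I.SameF x (p, false))).card ≤ q :=
        ((Finset.card_filter_le _ _).trans Finset.card_image_le).trans hP.le
      omega
    obtain ⟨y, z, hxy, hyz, hyB, hzB, hne⟩ := place_exists I B hBc ho (by omega)
    have hA' : ∀ p, p ∉ B → p ∉ A := fun p hp h =>
      hp (Finset.mem_union_left _ (Finset.mem_union_left _ h))
    have hyP : ∀ p, p ∉ B → ∀ y' ∈ P, p ≠ y'.1 := by
      intro p hp y' hy' h
      exact hp (Finset.mem_union_left _ (Finset.mem_union_right _
        (Finset.mem_image.2 ⟨y', hy', h.symm⟩)))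
    have hzP : ∀ p, p ∉ B → ∀ y' ∈ P, ∀ z', I.outer y' = some z' → p ≠ z'.1 := by
      intro p hp y' hy' z' hz' h
      refine hp (Finset.mem_union_right _ (Finset.mem_image.2 ⟨y', hy', ?_⟩))
      rw [hz', Option.getD_some]
      exact h.symm
    have hyn : y ∉ P := fun h => hyP y.1 hyB y h rfl
    refine ⟨insert y P, ?_, ?_, ?_⟩
    · rw [Finset.card_insert_of_notMem hyn, hP]
    · intro y' hy'
      rcases Finset.mem_insert.1 hy' with rfl | hy'
      · exact ⟨hxy, z, hyz, hne, hA' _ hyB, hA' _ hzB⟩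
      · exact h1 y' hy'
    · intro y₁ hy₁ y₂ hy₂ hne' z₁ z₂ hz₁ hz₂
      rcases Finset.mem_insert.1 hy₁ with h3 | h3 <;> rcases Finset.mem_insert.1 hy₂ with h4 | h4
      · exact absurd (h3.trans h4.symm) hne'
      · rw [h3] at hz₁ ⊢
        rw [hyz, Option.some.injEq] at hz₁
        subst hz₁
        exact ⟨hyP _ hyB _ h4, hzP _ hyB _ h4 _ hz₂, hyP _ hzB _ h4, hzP _ hzB _ h4 _ hz₂⟩
      · rw [h4] at hz₂ ⊢
        rw [hyz, Option.some.injEq] at hz₂
        subst hz₂
        exact ⟨(hyP _ hyB _ h3).symm, (hyP _ hzB _ h3).symm, (hzP _ hyB _ h3 _ hz₁).symm,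
          (hzP _ hzB _ h3 _ hz₁).symm⟩
      · exact h2 y₁ h3 y₂ h4 hne' z₁ z₂ hz₁ hz₂

end Pool.Agent.H38H
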