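import Pool.Agent.Lib.H38H.L11
import Pool.Agent.Lib.H38H.O2

/-!
Chunk SLL12 (M/L). The state at the beginning of Phase 1.

Proof. `K = rcK`, `S = F0`, `En` = roots, `Ct = Ct0`, `Tg` = slots of the roots (`root_card`), `G1` from `g1_init`. `ctK`, `ctTg`: `Ct0` consists of root slots; root slots are in `rcK` (empty string, `1 ≤ r`). `free`: `root_slot`. `far`: second case of `Restr` (with `Tg` = root slots).
`Q`: `rep_exists` for `P x` := no position of the component of `x` has `outer = none`, `¬ Tiny K0 x`, fewer than `ℓ` positions (invariant under `SameF`: `sameF_card`, `sameF_symm`). For `c ∈ Q`: the component has more than `2 K0 ≥ 4 (3ρ + 2q) + 2` positions (as it has no ends and is not tiny), it is short, and contains no roots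
(a root has `outer = none` or is on a tiny cycle: `ValidT`), so `rc_short_card` gives at most `3ρ` slots of `rcA` on it and `places_exist` gives `q` places outside `rcA`; `Pl c` = this set (and `∅` for `c ∉ Q`).
`Z = (rcA \ rcK) ∪` the slots `y.1`, `z.1` of all places. Leaf slots are in `rcA` (string of length `r`) and not in `rcK` (`leaf_unk`, `1 ≤ K0`). `Disjoint rcK Z`: place slots are not in `rcA ⊇ rcK` (`rcK_sub`). `ShQ.unt`: a position `w` of the component of `c` with `w.1 ∈ Ct0` would be on a tiny cycle. `ShQ.cov`: an untouched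
cycle `x` is not tiny: otherwise `T` contains a position `t` of it (`ValidT`) and `t.1 ∈ Ct0`.
-/

set_option autoImplicit false

namespace Pool.Agent.H38H

open Classical

variable {ι : Type} [Fintype ι] {L : ℕ}

theorem sll12_tiny (I : Inst ι L) {K : ℕ} {x y : ι × Bool} (e : I.SameF x y) (ht : I.Tiny K x) :
    I.Tiny K y := by
  refine ⟨fun z hz => ht.1 z (Relation.ReflTransGen.trans e hz), ?_⟩
  rw [← sameF_card I e]
  exact ht.2

theorem sll12_root {I : Inst ι L} {T : Finset (ι × Bool)} {K0 : ℕ} (hT : I.ValidT K0 T)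
    {z : ι × Bool} (hz : I.Root T z) (ho : I.outer z ≠ none) : I.Tiny K0 z := by
  rcases hz with h1 | h1 | ⟨t, ht, h1⟩
  · exact absurd h1 ho
  · exact hT.1 z h1
  · exact sll12_tiny I (Relation.ReflTransGen.single (Or.inr h1)) (hT.1 t ht)

theorem sll12_ct {I : Inst ι L} {T : Finset (ι × Bool)} {p : ι} (hp : p ∈ I.Ct0 T) :
    ∃ z, I.Root T z ∧ p = z.1 ∧ ∃ t ∈ T, I.SameF t z := by
  unfold Inst.Ct0 at hp
  rw [Finset.mem_filter] at hp
  obtain ⟨-, x, hx, h1 | ⟨y, hy, h1⟩⟩ := hp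
  · exact ⟨x, Or.inr (Or.inl hx), h1, x, hx, Relation.ReflTransGen.refl⟩
  · exact ⟨y, Or.inr (Or.inr ⟨x, hx, hy⟩), h1, x, hx, Relation.ReflTransGen.single (Or.inr hy)⟩

/-- slots of a place -/
noncomputable def sll12_sl (I : Inst ι L) (y : ι × Bool) : Finset ι :=
  insert y.1 ((I.outer y).elim ∅ (fun z => {z.1}))

theorem sll12_sl_card (I : Inst ι L) (y : ι × Bool) : (sll12_sl I y).card ≤ 2 := by
  unfold sll12_sl
  refine le_trans (Finset.card_insert_le _ _) ?_
  cases h : I.outer y with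
  | none => simp
  | some z => simp

theorem sll12_sl_mem {I : Inst ι L} {y z : ι × Bool} (h : I.outer y = some z) (p : ι) :
    p ∈ sll12_sl I y ↔ p = y.1 ∨ p = z.1 := by
  unfold sll12_sl
  rw [h]
  simp

theorem init_state {I : Inst ι L} {T : Finset (ι × Bool)} {r K0 ρ ℓ q : ℕ} {h : SB ι}
    (hT : I.ValidT K0 T) (rc : I.RC h r K0 T) (hr : 1 ≤ r) (hK0 : 12 * ρ + 8 * q + 2 ≤ 2 * K0)
    (hρ : {s | I.Restr T r ℓ h s}.ncard ≤ ρ) :
    ∃ (Tg Z : Finset ι) (Q : Finset (ι × Bool)) (Pl : ι × Bool → Finset (ι × Bool)),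
      LS I T r K0 ρ ℓ h (I.rcK T r h) (I.F0 T) (Finset.univ.filter (fun x => I.Root T x)) (I.Ct0 T) Tg ∧
      (∀ z ∈ Finset.univ.filter (fun x => I.Root T x), LfZ I r h z ∅ Z) ∧
      ShQ I T r ℓ h (I.Ct0 T) Z Q Pl ∧ (∀ c ∈ Q, q ≤ (Pl c).card) ∧ Disjoint (I.rcK T r h) Z ∧
      Q.card ≤ L ∧ Z.card ≤ 4 * L * 2 ^ (r + 2) + 2 * q * L ∧ Tg.card ≤ 4 * L := by
  have hK1 : 1 ≤ K0 := by omega
  have hrk : ∀ z, I.Root T z → z.1 ∈ I.rcK T r h := by
    intro z hz
    unfold Inst.rcK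
    rw [Finset.mem_filter]
    exact ⟨Finset.mem_univ _, z, [], (z, z), hz, hr, rfl, Or.inl rfl⟩
  obtain ⟨Q, hQL, hQP, hQd, hQc⟩ := rep_exists I
    (fun x => (∀ y, I.SameF x y → I.outer y ≠ none) ∧ ¬ I.Tiny K0 x ∧
      Nat.card {y // I.SameF x y} < ℓ) (by
    rintro x y e ⟨h1, h2, h3⟩
    refine ⟨fun z hz => h1 z (Relation.ReflTransGen.trans e hz),
      fun ht => h2 (sll12_tiny I (sameF_symm I e) ht), ?_⟩
    rw [← sameF_card I e]
    exact h3)
  have hQs : ∀ c ∈ Q, c.1 ∈ I.short ℓ := by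
    intro c hc
    rw [short_iff I ℓ c.1 c.2]
    have h1 := (hQP c hc).2.2
    have h2 : Nat.card {y // I.SameF (c.1, c.2) y} < ℓ := h1
    omega
  have hQr : ∀ c ∈ Q, ∀ y, I.SameF c y → ¬ I.Root T y := by
    intro c hc y hy hR
    have h1 := (hQP c hc).1 y hy
    exact (hQP c hc).2.1 (sll12_tiny I (sameF_symm I hy) (sll12_root hT hR h1))
  have hpl : ∀ c, ∃ P : Finset (ι × Bool), c ∈ Q → (P.card = q ∧
      (∀ y ∈ P, I.SameF c y ∧ ∃ z, I.outer y = some z ∧ y.1 ≠ z.1 ∧ y.1 ∉ I.rcA T r h ∧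
        z.1 ∉ I.rcA T r h) ∧
      ∀ y ∈ P, ∀ y' ∈ P, y ≠ y' → ∀ z z', I.outer y = some z → I.outer y' = some z' →
        y.1 ≠ y'.1 ∧ y.1 ≠ z'.1 ∧ z.1 ≠ y'.1 ∧ z.1 ≠ z'.1) := by
    intro c
    by_cases hc : c ∈ Q
    · have h1 := rc_short_card I rc hρ (hQs c hc) (hQr c hc)
      have h2 : 2 * K0 < Nat.card {y // I.SameF c y} := by
        by_contra hcon
        exact (hQP c hc).2.1 ⟨(hQP c hc).1, by omega⟩
      obtain ⟨P, hP⟩ := places_exist I (I.rcA T r h) h1 (hQP c hc).1 q (by omega)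
      exact ⟨P, fun _ => hP⟩
    · exact ⟨∅, fun h1 => absurd h1 hc⟩
  choose Pl hPl using hpl
  set Tg : Finset ι := (Finset.univ.filter (fun x => I.Root T x)).image Prod.fst with hTg
  set Z : Finset ι := (I.rcA T r h \ I.rcK T r h) ∪
    Q.biUnion (fun c => (Pl c).biUnion (fun y => sll12_sl I y)) with hZ
  have hTgm : ∀ x, I.Root T x → x.1 ∈ Tg := by
    intro x hx
    exact Finset.mem_image.2 ⟨x, Finset.mem_filter.2 ⟨Finset.mem_univ _, hx⟩, rfl⟩
  have hroot : ∀ x ∈ Finset.univ.filter (fun x => I.Root T x), I.Root T x := by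
    intro x hx
    exact (Finset.mem_filter.1 hx).2
  have hmemZ : ∀ c ∈ Q, ∀ y ∈ Pl c, ∀ p ∈ sll12_sl I y, p ∈ Z := by
    intro c hc y hy p hp
    exact Finset.mem_union_right _ (Finset.mem_biUnion.2 ⟨c, hc, Finset.mem_biUnion.2 ⟨y, hy, hp⟩⟩)
  refine ⟨Tg, Z, Q, Pl, ?_, ?_, ?_, ?_, ?_, hQL, ?_, ?_⟩
  · refine ⟨(g1_init (I.rcK T r h) hT rc hK1).1, rc, Finset.Subset.refl _, hρ, hroot, ?_, ?_, hTgm, ?_, ?_⟩
    · intro p hp
      obtain ⟨z, hz, rfl, -⟩ := sll12_ct hp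
      exact hrk z hz
    · intro p hp
      obtain ⟨z, hz, rfl, -⟩ := sll12_ct hp
      exact ⟨z.1, hTgm z hz, ball_self I 1 z.1⟩
    · intro x hx p hp hpc
      obtain ⟨z, hz, rfl, -⟩ := sll12_ct hpc
      exact root_slot I rc hz (hroot x hx) hp
    · intro x hx l hl hnr p hp s hs hps
      obtain ⟨y, hy, rfl⟩ := Finset.mem_image.1 hs
      exact hnr ⟨hroot x hx, hl, p, hp, Or.inr (Or.inl ⟨y, hroot y hy, hps⟩)⟩
  · intro x hx l s hl _ hs
    have hx' := hroot x hx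
    refine Finset.mem_union_left _ (Finset.mem_sdiff.2 ⟨?_, leaf_unk I rc hK1 hx' hl hs⟩)
    unfold Inst.rcA
    rw [Finset.mem_filter]
    refine ⟨Finset.mem_univ _, x, false :: l, s, hx', ?_, hs, Or.inl rfl⟩
    rw [List.length_cons]
    omega
  · refine ⟨?_, hQs, hQd, ?_, ?_, ?_⟩
    · intro c hc y hy hyc
      obtain ⟨z, hz, hyz, -⟩ := sll12_ct hyc
      exact hQr c hc z (Relation.ReflTransGen.trans hy (sameF_slot I hyz)) hz
    · intro x hx ho hcard
      refine hQc x ⟨ho, fun ht => ?_, hcard⟩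
      obtain ⟨t, ⟨ht1, ht2⟩, -⟩ := hT.2 x ht
      refine hx t (sameF_symm I ht2) ?_
      unfold Inst.Ct0
      rw [Finset.mem_filter]
      exact ⟨Finset.mem_univ _, t, ht1, Or.inl rfl⟩
    · intro c hc y hy
      obtain ⟨h1, z, h2, h3, h4, h5⟩ := (hPl c hc).2.1 y hy
      exact ⟨h1, z, h2, h3, hmemZ c hc y hy _ ((sll12_sl_mem h2 _).2 (Or.inl rfl)),
        hmemZ c hc y hy _ ((sll12_sl_mem h2 _).2 (Or.inr rfl)), h4, h5⟩
    · intro c hc
      exact (hPl c hc).2.2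
  · intro c hc
    exact le_of_eq (hPl c hc).1.symm
  · rw [Finset.disjoint_left]
    intro p hp hpZ
    rw [hZ, Finset.mem_union, Finset.mem_sdiff, Finset.mem_biUnion] at hpZ
    rcases hpZ with h1 | ⟨c, hc, h1⟩
    · exact h1.2 hp
    · obtain ⟨y, hy, h2⟩ := Finset.mem_biUnion.1 h1
      obtain ⟨-, z, h3, -, h5, h6⟩ := (hPl c hc).2.1 y hy
      have hpA := rcK_sub I rc hp
      rcases (sll12_sl_mem h3 p).1 h2 with rfl | rfl
      · exact h5 hpA
      · exact h6 hpA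
  · have h1 : (I.rcA T r h \ I.rcK T r h).card ≤ 4 * L * 2 ^ (r + 2) :=
      le_trans (Finset.card_le_card Finset.sdiff_subset) (rcA_card I hT r h)
    have h2 : (Q.biUnion (fun c => (Pl c).biUnion (fun y => sll12_sl I y))).card ≤ 2 * q * L := by
      have h3 : ∀ c ∈ Q, ((Pl c).biUnion (fun y => sll12_sl I y)).card ≤ 2 * q := by
        intro c hc
        refine le_trans (Finset.card_biUnion_le_card_mul _ _ 2 (fun y _ => sll12_sl_card I y)) ?_
        rw [(hPl c hc).1]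
        omega
      refine le_trans (Finset.card_biUnion_le_card_mul _ _ (2 * q) h3) ?_
      rw [Nat.mul_comm]
      exact Nat.mul_le_mul_left _ hQL
    exact le_trans (Finset.card_union_le _ _) (Nat.add_le_add h1 h2)
  · exact le_trans Finset.card_image_le (root_card I hT)

end Pool.Agent.H38H
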