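import Pool.Agent.Lib.H38H.L0

/-!
Chunk SLL13 (M). Numbers.

Proofs. `log_le_gg` gives `C * (log n)^k ≤ gg n` for large `n`, for all constants `C`, `k`; so `C L ≤ g`, `(C L)^2 ≤ g` (with `k = 3`, `6`), `(DD n)^2 ≤ g` (`DD_bounds`), hence `C L (DD n) ≤ g`. `g ≥` any constant by `gg_tendsto`.
`num_final`: `1 ≤ n ≤ 2 g^1000` (`n_le`), so `1/n^A ≥ 1/(2^A g^(1000 A))`; the terms are at most `2/g^(1200 (A+2))`, `g * g^(-1170 (A+2))`, `2/g^(1200 (A+2))` (as `(1 + 1/g^100)^(3 L 30 (A+2)) ≤ exp(1) ≤ 3`), each at most `1/(4 n^A)` (as `2^A ≤ g^A`), and `1/n^(A+1) ≤ 1/(4 n^A)` for `n ≥ 4`.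
-/

set_option autoImplicit false

namespace Pool.Agent.H38H

open Classical

theorem sll13_L (C : ℕ) : ∃ n₀ : ℕ, ∀ n : ℕ, n₀ ≤ n → ∀ L : ℕ, (L : ℝ) ≤ (Real.log n) ^ 3 →
    (C * L) ^ 2 ≤ gg n := by
  obtain ⟨n₀, hn₀⟩ := log_le_gg ((C : ℝ) ^ 2) 6
  refine ⟨n₀, fun n hn L hL => ?_⟩
  have h1 := hn₀ n hn
  have h2 : ((C : ℝ) * L) ^ 2 ≤ (C : ℝ) ^ 2 * (Real.log n) ^ 6 := by
    have h3 : (L : ℝ) ^ 2 ≤ ((Real.log n) ^ 3) ^ 2 :=
      pow_le_pow_left₀ (Nat.cast_nonneg L) hL 2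
    calc ((C : ℝ) * L) ^ 2 = (C : ℝ) ^ 2 * (L : ℝ) ^ 2 := by ring
      _ ≤ (C : ℝ) ^ 2 * ((Real.log n) ^ 3) ^ 2 := by
        exact mul_le_mul_of_nonneg_left h3 (by positivity)
      _ = (C : ℝ) ^ 2 * (Real.log n) ^ 6 := by ring
  have h4 := h2.trans h1
  exact_mod_cast h4

theorem sll13_sq {a : ℕ} : a ≤ a ^ 2 := by
  rcases Nat.eq_zero_or_pos a with h | h
  · simp [h]
  · calc a = a ^ 1 := (pow_one a).symm
      _ ≤ a ^ 2 := Nat.pow_le_pow_right h (by norm_num)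

theorem num_sizes (r J q : ℕ) : ∃ n₀ : ℕ, ∀ n : ℕ, n₀ ≤ n → ∀ L : ℕ, (L : ℝ) ≤ (Real.log n) ^ 3 →
    4 * L * 2 ^ (r + 2) + 3 * L * J * gg n ^ 551 ≤ gg n ^ 560 ∧
    3 * (4 * L * 2 ^ (r + 2) + 2 * q * L) ≤ gg n ∧
    3 * (4 * L + 3 * L * (4 * r + 4 * (DD n + 1))) ≤ gg n := by
  obtain ⟨n1, h1⟩ := sll13_L (4 * 2 ^ (r + 2) + 3 * J)
  obtain ⟨n2, h2⟩ := sll13_L (3 * (4 * 2 ^ (r + 2) + 2 * q))
  obtain ⟨n3, h3⟩ := sll13_L (2 * (48 + 36 * r))
  obtain ⟨n4, h4⟩ := sll13_L 72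
  obtain ⟨n5, h5⟩ := DD_bounds
  obtain ⟨n6, h6⟩ := gg_tendsto 1
  refine ⟨n1 + n2 + n3 + n4 + n5 + n6, fun n hn L hL => ⟨?_, ?_, ?_⟩⟩
  · have a1 := sll13_sq.trans (h1 n (by omega) L hL)
    have a6 := h6 n (by omega)
    have a7 : 1 ≤ gg n ^ 551 := Nat.one_le_pow _ _ a6
    calc 4 * L * 2 ^ (r + 2) + 3 * L * J * gg n ^ 551
        ≤ 4 * L * 2 ^ (r + 2) * gg n ^ 551 + 3 * L * J * gg n ^ 551 :=
          Nat.add_le_add_right (Nat.le_mul_of_pos_right _ a7) _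
      _ = ((4 * 2 ^ (r + 2) + 3 * J) * L) * gg n ^ 551 := by ring
      _ ≤ gg n * gg n ^ 551 := Nat.mul_le_mul_right _ a1
      _ = gg n ^ 552 := by rw [← pow_succ']
      _ ≤ gg n ^ 560 := Nat.pow_le_pow_right a6 (by norm_num)
  · have a1 := sll13_sq.trans (h2 n (by omega) L hL)
    calc 3 * (4 * L * 2 ^ (r + 2) + 2 * q * L) = 3 * (4 * 2 ^ (r + 2) + 2 * q) * L := by ring
      _ ≤ gg n := a1
  · have a1 := sll13_sq.trans (h3 n (by omega) L hL)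
    have a2 := h4 n (by omega) L hL
    have a3 := (h5 n (by omega)).2
    have a4 : 72 * L * DD n ≤ gg n := by
      have h7 : (72 * L * DD n) ^ 2 ≤ (gg n) ^ 2 := by
        calc (72 * L * DD n) ^ 2 = (72 * L) ^ 2 * (DD n) ^ 2 := by ring
          _ ≤ gg n * gg n := Nat.mul_le_mul a2 a3
          _ = (gg n) ^ 2 := by ring
      exact (Nat.pow_le_pow_iff_left (by norm_num)).1 h7
    have a5 : 2 * (3 * (4 * L + 3 * L * (4 * r + 4 * (DD n + 1)))) ≤ 2 * gg n := by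
      calc 2 * (3 * (4 * L + 3 * L * (4 * r + 4 * (DD n + 1))))
          = 2 * (48 + 36 * r) * L - 36 * r * L * 2 + 72 * r * L + 72 * L * DD n + 0 := by
            have : 36 * r * L * 2 ≤ 2 * (48 + 36 * r) * L := by nlinarith [Nat.zero_le L, Nat.zero_le (r * L)]
            zify [this]
            ring
        _ ≤ gg n + gg n := by
            have : 36 * r * L * 2 = 72 * r * L := by ring
            have h8 : 36 * r * L * 2 ≤ 2 * (48 + 36 * r) * L := by nlinarith [Nat.zero_le L, Nat.zero_le (r * L)]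
            omega
        _ = 2 * gg n := by ring
    omega

theorem num_final (A : ℕ) : ∃ n₀ : ℕ, ∀ n : ℕ, n₀ ≤ n → ∀ L : ℕ, (L : ℝ) ≤ (Real.log n) ^ 3 →
    2 / (gg n : ℝ) ^ (40 * (30 * (A + 2))) + (3 * L * (1 / (gg n : ℝ) ^ 39) ^ (30 * (A + 2)) +
      1 / ((gg n : ℝ) ^ 300) ^ (4 * (A + 2)) * (1 + 1 / (gg n : ℝ) ^ 100) ^ (3 * L * (30 * (A + 2))) +
      1 / (n : ℝ) ^ (A + 1)) ≤ 1 / (n : ℝ) ^ A := by
  obtain ⟨n1, h1⟩ := sll13_L (3 * (30 * (A + 2)))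
  obtain ⟨n2, h2⟩ := n_le
  obtain ⟨n3, h3⟩ := gg_tendsto 12
  refine ⟨n1 + n2 + n3 + 4, fun n hn L hL => ?_⟩
  have b1 := sll13_sq.trans (h1 n (by omega) L hL)
  have b2 := h2 n (by omega)
  have b3 := h3 n (by omega)
  obtain ⟨g, hg⟩ : ∃ g : ℝ, g = (gg n : ℝ) := ⟨_, rfl⟩
  rw [← hg]
  have g12 : (12 : ℝ) ≤ g := by rw [hg]; exact_mod_cast b3
  have g1 : (1 : ℝ) ≤ g := by linarith
  have g0 : (0 : ℝ) < g := by linarith
  have hn4 : (4 : ℝ) ≤ n := by exact_mod_cast (show 4 ≤ n by omega)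
  have hn0 : (0 : ℝ) < n := by linarith
  have hng : (n : ℝ) ≤ 2 * g ^ 1000 := by rw [hg]; exact_mod_cast b2
  have hL1 : (3 : ℝ) * L * (30 * (A + 2)) ≤ g := by
    rw [hg]
    have : 3 * (30 * (A + 2)) * L ≤ gg n := b1
    have h4 : ((3 * (30 * (A + 2)) * L : ℕ) : ℝ) ≤ (gg n : ℝ) := by exact_mod_cast this
    push_cast at h4
    linarith
  have hL2 : (3 : ℝ) * L ≤ g := by
    refine le_trans ?_ hL1
    have : (1 : ℝ) ≤ 30 * (A + 2) := by
      have : (0 : ℝ) ≤ A := Nat.cast_nonneg A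
      linarith
    have h5 : (0 : ℝ) ≤ 3 * L := by positivity
    calc (3 : ℝ) * L = 3 * L * 1 := by ring
      _ ≤ 3 * L * (30 * (A + 2)) := mul_le_mul_of_nonneg_left this h5
  -- `n^A ≤ g^(1001 A)`
  have hnA : (n : ℝ) ^ A ≤ g ^ (1001 * A) := by
    calc (n : ℝ) ^ A ≤ (2 * g ^ 1000) ^ A := pow_le_pow_left₀ hn0.le hng A
      _ ≤ (g * g ^ 1000) ^ A := by
        refine pow_le_pow_left₀ (by positivity) ?_ A
        exact mul_le_mul_of_nonneg_right (by linarith) (by positivity)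
      _ = g ^ (1001 * A) := by rw [← pow_succ', ← pow_mul]
  have hXi : 1 / g ^ (1001 * A) ≤ 1 / (n : ℝ) ^ A :=
    one_div_le_one_div_of_le (by positivity) hnA
  have key : ∀ e : ℕ, 1001 * A + 1 ≤ e → 12 * g ^ (1001 * A) ≤ g ^ e := by
    intro e he
    calc 12 * g ^ (1001 * A) ≤ g * g ^ (1001 * A) :=
          mul_le_mul_of_nonneg_right g12 (by positivity)
      _ = g ^ (1001 * A + 1) := by rw [pow_succ']
      _ ≤ g ^ e := pow_le_pow_right₀ g1 he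
  have key2 : ∀ e : ℕ, 1001 * A + 1 ≤ e → 1 / g ^ e ≤ 1 / 12 * (1 / (n : ℝ) ^ A) := by
    intro e he
    have h6 := key e he
    have h7 : 1 / g ^ e ≤ 1 / (12 * g ^ (1001 * A)) :=
      one_div_le_one_div_of_le (by positivity) h6
    have h8 : 1 / (12 * g ^ (1001 * A)) = 1 / 12 * (1 / g ^ (1001 * A)) := by
      rw [one_div_mul_one_div]
    rw [h8] at h7
    linarith
  obtain ⟨Y, hY⟩ : ∃ Y : ℝ, Y = 1 / (n : ℝ) ^ A := ⟨_, rfl⟩
  rw [← hY] at key2 ⊢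
  have hY0 : 0 < Y := by rw [hY]; positivity
  -- the first term
  have t1 : 2 / g ^ (40 * (30 * (A + 2))) ≤ 1 / 4 * Y := by
    have := key2 (40 * (30 * (A + 2))) (by omega)
    have h9 : 2 / g ^ (40 * (30 * (A + 2))) = 2 * (1 / g ^ (40 * (30 * (A + 2)))) := by ring
    rw [h9]
    linarith
  have t2 : 3 * (L : ℝ) * (1 / g ^ 39) ^ (30 * (A + 2)) ≤ 1 / 4 * Y := by
    have h9 : (1 / g ^ 39) ^ (30 * (A + 2)) = 1 / g ^ (39 * (30 * (A + 2))) := by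
      rw [one_div_pow, ← pow_mul]
    rw [h9]
    have h10 : 3 * (L : ℝ) * (1 / g ^ (39 * (30 * (A + 2)))) ≤
        g * (1 / g ^ (39 * (30 * (A + 2)))) :=
      mul_le_mul_of_nonneg_right hL2 (by positivity)
    have h11 : g * (1 / g ^ (39 * (30 * (A + 2)))) = 1 / g ^ (39 * (30 * (A + 2)) - 1) := by
      have h12 : g ^ (39 * (30 * (A + 2))) = g * g ^ (39 * (30 * (A + 2)) - 1) := by
        rw [← pow_succ']
        congr 1
      rw [h12]
      field_simp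
    rw [h11] at h10
    have := key2 (39 * (30 * (A + 2)) - 1) (by omega)
    linarith
  have t3 : 1 / (g ^ 300) ^ (4 * (A + 2)) * (1 + 1 / g ^ 100) ^ (3 * L * (30 * (A + 2))) ≤
      1 / 4 * Y := by
    have h9 : (1 + 1 / g ^ 100) ^ (3 * L * (30 * (A + 2))) ≤ 3 := by
      have h10 : (1 + 1 / g ^ 100) ≤ Real.exp (1 / g ^ 100) := by
        have := Real.add_one_le_exp (1 / g ^ 100)
        linarith
      calc (1 + 1 / g ^ 100) ^ (3 * L * (30 * (A + 2)))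
          ≤ (Real.exp (1 / g ^ 100)) ^ (3 * L * (30 * (A + 2))) :=
            pow_le_pow_left₀ (by positivity) h10 _
        _ = Real.exp (((3 * L * (30 * (A + 2)) : ℕ) : ℝ) * (1 / g ^ 100)) := by
            rw [← Real.exp_nat_mul]
        _ ≤ Real.exp 1 := by
            apply Real.exp_le_exp.2
            rw [mul_one_div, div_le_one (by positivity)]
            push_cast
            calc (3 : ℝ) * L * (30 * (A + 2)) ≤ g := hL1
              _ = g ^ 1 := (pow_one g).symm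
              _ ≤ g ^ 100 := pow_le_pow_right₀ g1 (by norm_num)
        _ ≤ 3 := by
            have := Real.exp_one_lt_d9
            linarith
    have h11 : 1 / (g ^ 300) ^ (4 * (A + 2)) = 1 / g ^ (300 * (4 * (A + 2))) := by
      rw [← pow_mul]
    rw [h11]
    have h12 := key2 (300 * (4 * (A + 2))) (by omega)
    calc 1 / g ^ (300 * (4 * (A + 2))) * (1 + 1 / g ^ 100) ^ (3 * L * (30 * (A + 2)))
        ≤ 1 / g ^ (300 * (4 * (A + 2))) * 3 := mul_le_mul_of_nonneg_left h9 (by positivity)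
      _ ≤ (1 / 12 * Y) * 3 := mul_le_mul_of_nonneg_right h12 (by norm_num)
      _ = 1 / 4 * Y := by ring
  have t4 : 1 / (n : ℝ) ^ (A + 1) ≤ 1 / 4 * Y := by
    rw [hY, pow_succ, ← one_div_mul_one_div, mul_comm]
    exact mul_le_mul_of_nonneg_right (one_div_le_one_div_of_le (by norm_num) hn4) (by positivity)
  linarith

end Pool.Agent.H38H
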