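import Pool.Agent.Lib.H38H.L10
import Pool.Agent.Lib.H38H.L12

/-!
Chunk SLL14 (M). The bound for one instance after the exploration of the root trees.

Proof. `init_state` with `q = t2 + J`; `En` = roots, `En.card = 2e` (`g1_even`), `e ≤ 2L` (`root_card`); `m = Q.card + e ≤ 3L`; `Sz` from the hypotheses (`rcK_card`, `rcA_card`, `g1_init` for `Cov (F0 T) (3 L)`); `cyc_loop`; `K ∩ Z = ∅`; `B0` is monotone in `m`.
-/

set_option autoImplicit false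

namespace Pool.Agent.H38H

open Classical

variable {ι : Type} [Fintype ι] {L : ℕ}

theorem inst_bound {I : Inst ι L} {n : ℕ} {β : ℝ} (lg : Lg I n β) {T : Finset (ι × Bool)}
    {r K0 ρ J t2 : ℕ} (hT : I.ValidT K0 T) (hr : 1 ≤ r) (hρ' : J + t2 + ρ < 2 ^ (r - 1 - ρ))
    (hK0 : 12 * ρ + 8 * (t2 + J) + 2 ≤ 2 * K0) {h : SB ι} (rc : I.RC h r K0 T)
    (hρ : {s | I.Restr T r (gg n ^ 950) h s}.ncard ≤ ρ)
    (h1 : 4 * L * 2 ^ (r + 2) + 3 * L * J * gg n ^ 551 ≤ gg n ^ 560)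
    (h2 : 3 * (4 * L * 2 ^ (r + 2) + 2 * (t2 + J) * L) ≤ gg n)
    (h3 : 3 * (4 * L + 3 * L * (4 * r + 4 * (DD n + 1))) ≤ gg n) :
    avg (I.rcK T r h) h (fB I T r K0) ≤ 3 * L * (1 / (gg n : ℝ) ^ 39) ^ J +
      1 / ((gg n : ℝ) ^ 300) ^ t2 * (1 + 1 / (gg n : ℝ) ^ 100) ^ (3 * L * J) + β := by
  obtain ⟨Tg, Z, Q, Pl, HL, HLf, HQ, hPl, hdis, hQc, hZc, hTgc⟩ := init_state hT rc hr hK0 hρ
  have hK01 : 1 ≤ K0 := by omega
  obtain ⟨e, he⟩ := g1_even HL.g1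
  have hroot := root_card I hT
  have hrcK := rcK_card I hT r h
  have hrcA := rcA_card I hT r h
  have hcov := (g1_init (ℓ := gg n ^ 950) (I.rcK T r h) hT rc hK01).2
  set En := Finset.univ.filter (fun x => I.Root T x) with hEn
  have hm : Q.card + e ≤ 3 * L := by omega
  obtain ⟨m, hmd⟩ : ∃ m, Q.card + e = m := ⟨_, rfl⟩
  rw [hmd] at hm
  have hs1 : m * J * gg n ^ 551 ≤ 3 * L * J * gg n ^ 551 :=
    Nat.mul_le_mul_right _ (Nat.mul_le_mul_right _ hm)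
  have hs2 : m * (4 * r + 4 * (DD n + 1)) ≤ 3 * L * (4 * r + 4 * (DD n + 1)) :=
    Nat.mul_le_mul_right _ hm
  have hsz : Sz n r (I.rcK T r h) Z Tg (I.rcA T r h) (I.F0 T) (m * J) m := by
    refine ⟨?_, ?_, ?_, ?_, ⟨3 * L, hcov, ?_⟩⟩
    · omega
    · omega
    · have : 3 * (4 * L * 2 ^ (r + 2)) ≤ 3 * (4 * L * 2 ^ (r + 2) + 2 * (t2 + J) * L) :=
        Nat.mul_le_mul_left 3 (Nat.le_add_right _ _)
      omega
    · omega
    · omega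
  have hmain := cyc_loop lg hr hK01 hρ' m e h (I.rcK T r h) (I.F0 T) En (I.Ct0 T) Tg Z Q Pl HL HLf
    (by omega) HQ hPl hmd hsz
  refine hmain.trans ?_
  rw [Finset.disjoint_iff_inter_eq_empty.1 hdis, Finset.card_empty]
  unfold B0
  have hg : (0 : ℝ) < gg n := by
    have := lg.g2
    exact_mod_cast (by omega : 0 < gg n)
  have hmr : (m : ℝ) ≤ 3 * L := by exact_mod_cast hm
  have h5 : (m : ℝ) * (1 / (gg n : ℝ) ^ 39) ^ J ≤ 3 * L * (1 / (gg n : ℝ) ^ 39) ^ J :=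
    mul_le_mul_of_nonneg_right hmr (by positivity)
  have h6 : (1 + 1 / (gg n : ℝ) ^ 100) ^ (m * J) ≤ (1 + 1 / (gg n : ℝ) ^ 100) ^ (3 * L * J) := by
    refine pow_le_pow_right₀ ?_ (Nat.mul_le_mul_right _ hm)
    have : 0 ≤ 1 / (gg n : ℝ) ^ 100 := by positivity
    linarith
  have h7 : ((gg n : ℝ) ^ 300) ^ 0 / ((gg n : ℝ) ^ 300) ^ t2 * (1 + 1 / (gg n : ℝ) ^ 100) ^ (m * J) ≤
      1 / ((gg n : ℝ) ^ 300) ^ t2 * (1 + 1 / (gg n : ℝ) ^ 100) ^ (3 * L * J) := by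
    rw [pow_zero]
    exact mul_le_mul_of_nonneg_left h6 (by positivity)
  linarith

end Pool.Agent.H38H
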