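import Pool.Agent.Lib.H38H.L13
import Pool.Agent.Lib.H38H.L14

/-!
Chunk SLL15 (M). Assembly of the Slot Theorem.

Proof. Constants: `t = J = 30 (A+2)`, `t2 = 4 (A+2)`, `ρ = 2 t`, `K0 = 6 ρ + 4 (t2 + J) + 1`, `r = 1 + ρ + (J + t2 + ρ + 1)` (so `2^(r-1-ρ) > J + t2 + ρ`), and `n₀` larger than those of `p1_att`, `DD_bounds`, `Phase2 (A+1)`, `rc_prob r t`, `num_sizes r J (t2+J)`, `num_final A`, `gg_tendsto 2`, and 1.
For an instance choose a valid `T` (`validT_exists`). `Lg I n (1/n^(A+1))` from `p1_att`, `Phase2 (A+1)`. The set in the theorem is contained in `{h | RC h r K0 T ∧ ¬ HAM h}`; if `SB ι` is empty nothing is to prove (it is not), else take `h0`; `cyl ∅ h0 = univ`, so the cardinality is at most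
`|SB ι| * avg ∅ h0 fB`. `avg ∅ h0 fB = avg ∅ h0 (fun h => avg (rcK h) h fB)` (`avg_tower`, `rcK_stop`). Pointwise: if `RC h` fails it fails on the cylinder (`rc_congr`), so the average is 0; if `RC h` and `2t ≤ ncard`: at most 1; otherwise `inst_bound`.
So the average is at most `2/g^(40 t)` (`rc_prob`) plus the bound of `inst_bound`, and `num_final` finishes.
-/

set_option autoImplicit false

namespace Pool.Agent.H38H

open Classical

theorem slotTheorem_of (h2 : Phase2) : SlotTheorem := by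
  intro A
  obtain ⟨J, hJ⟩ : ∃ J : ℕ, J = 30 * (A + 2) := ⟨_, rfl⟩
  obtain ⟨t2, ht2⟩ : ∃ t2 : ℕ, t2 = 4 * (A + 2) := ⟨_, rfl⟩
  obtain ⟨ρ, hρ⟩ : ∃ ρ : ℕ, ρ = 2 * J := ⟨_, rfl⟩
  obtain ⟨r, hr⟩ : ∃ r : ℕ, r = 1 + ρ + (J + t2 + ρ + 1) := ⟨_, rfl⟩
  obtain ⟨K0, hK0⟩ : ∃ K0 : ℕ, K0 = 6 * ρ + 4 * (t2 + J) + 1 := ⟨_, rfl⟩
  obtain ⟨n1, h1⟩ := p1_att
  obtain ⟨n2, hdd⟩ := DD_bounds
  obtain ⟨n3, hp2⟩ := h2 (A + 1)
  obtain ⟨n4, hrc⟩ := rc_prob r J
  obtain ⟨n5, hsz⟩ := num_sizes r J (t2 + J)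
  obtain ⟨n6, hfin⟩ := num_final A
  obtain ⟨n7, hgg⟩ := gg_tendsto 2
  refine ⟨r, K0, n1 + n2 + n3 + n4 + n5 + n6 + n7 + 1, ?_⟩
  intro n hn L hL ι _ hι I
  have hn0 : (0 : ℝ) < (n : ℝ) := by exact_mod_cast (by omega : 0 < n)
  have hg2 : 2 ≤ gg n := hgg n (by omega)
  have lg : Lg I n (1 / (n : ℝ) ^ (A + 1)) := by
    refine ⟨?_, ?_, by positivity, hg2, (hdd n (by omega)).1⟩
    · intro Av K Fb h x0 y0 a1 a2 a3 a4 a5 a6
      exact h1 n (by omega) L hL ι hι I Av K Fb h x0 y0 a1 a2 a3 a4 a5 a6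
    · intro K h S a1 a2 a3
      exact hp2 n (by omega) L hL ι hι I K h S a1 a2 a3
  obtain ⟨T, hT⟩ := validT_exists I K0
  obtain ⟨s1, s2, s3⟩ := hsz n (by omega) L hL
  obtain ⟨b, hb⟩ : ∃ b : ℝ, b = 3 * L * (1 / (gg n : ℝ) ^ 39) ^ J +
      1 / ((gg n : ℝ) ^ 300) ^ t2 * (1 + 1 / (gg n : ℝ) ^ 100) ^ (3 * L * J) + 1 / (n : ℝ) ^ (A + 1) := ⟨_, rfl⟩
  have hb0 : 0 ≤ b := by
    rw [hb]
    positivity
  let h0 : SB ι := (1, fun _ => false)
  have main : avg ∅ h0 (fB I T r K0) ≤ 1 / (n : ℝ) ^ A := by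
    rw [avg_tower (rcK_stop I T r h0)]
    have e1 : avg ∅ h0 (fun h' => avg (I.rcK T r h') h' (fB I T r K0)) ≤
        avg ∅ h0 (fun h' => (if I.RC h' r K0 T ∧ 2 * J ≤ {s | I.Restr T r (gg n ^ 950) h' s}.ncard
          then (1 : ℝ) else 0) + b) := by
      refine avg_mono (fun h' _ => ?_)
      by_cases rc : I.RC h' r K0 T
      · by_cases hc : 2 * J ≤ {s | I.Restr T r (gg n ^ 950) h' s}.ncard
        · rw [if_pos ⟨rc, hc⟩]
          have := avg_fB_le I T r K0 (I.rcK T r h') h'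
          linarith
        · rw [if_neg (fun hx => hc hx.2), zero_add, hb]
          refine inst_bound lg hT (by omega) ?_ (by omega) rc (by omega) s1 s2 s3 (ρ := ρ)
          have e2 : r - 1 - ρ = J + t2 + ρ + 1 := by omega
          rw [e2]
          have e3 : J + t2 + ρ + 1 < 2 ^ (J + t2 + ρ + 1) := Nat.lt_two_pow_self
          omega
      · rw [if_neg (fun hx => rc hx.1), zero_add]
        have e2 : avg (I.rcK T r h') h' (fB I T r K0) = avg (I.rcK T r h') h' (fun _ => (0 : ℝ)) := by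
          refine avg_congr (fun h'' hh => ?_)
          unfold fB
          rw [if_neg]
          rintro ⟨hx, -⟩
          exact rc ((rc_congr I hh).1 hx)
        rw [e2, avg_const]
        exact hb0
    have e2 := hrc n (by omega) L hL ι hι I K0 T hT (by omega) h0
    rw [avg_add, avg_const] at e1
    have e3 := hfin n (by omega) L hL
    rw [← hJ, ← ht2] at e3
    rw [hb] at e1
    linarith
  have hcyl : cyl (∅ : Finset ι) h0 = Finset.univ := by
    unfold cyl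
    ext x
    simp [Agree]
  have e1 : (Nat.card {h : SB ι // (∀ T, I.ValidT K0 T → I.RC h r K0 T) ∧ ¬ I.HAM h} : ℝ) ≤
      ∑ h : SB ι, fB I T r K0 h := by
    rw [Nat.card_eq_fintype_card, Fintype.card_subtype]
    unfold fB
    rw [Finset.sum_boole]
    exact_mod_cast Finset.card_le_card (fun h hh => by
      rw [Finset.mem_filter] at hh ⊢
      exact ⟨hh.1, hh.2.1 T hT, hh.2.2⟩)
  have e2 : avg ∅ h0 (fB I T r K0) = (∑ h : SB ι, fB I T r K0 h) / (Nat.card (SB ι) : ℝ) := by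
    unfold avg
    rw [hcyl, Finset.card_univ, Nat.card_eq_fintype_card]
  have e3 : (0 : ℝ) < (Nat.card (SB ι) : ℝ) := by
    have : Nonempty (SB ι) := ⟨h0⟩
    exact_mod_cast Nat.card_pos
  rw [e2, div_le_iff₀ e3] at main
  refine e1.trans (main.trans (le_of_eq ?_))
  ring

end Pool.Agent.H38H
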