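import Pool.Agent.Lib.H38H.L1

/-!
Chunk SLL2 (M). Before an attempt for two roots.

Proof. `rc_leaves` for `x` in the state `S` (its hypotheses are the fields of `LS`; `x.1 ∈ Tg` by `rootTg`, ends of `F` are roots). The strings of `Ls` whose leaf slot is known are at most `u < 2^(r-1-ρ) - ρ ≤ Ls.card`
many, so some `lx ∈ Ls` has an unknown leaf slot; let `S1, En1 = insert qx.2 (En.erase x), Ct1, Tg1` be the state given. Then `rc_leaves` for `y` in this state: `y ∈ En1`; `rcS y` is disjoint from `Ct1` (`free`, `root_slot`,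
`rcS_disj`); `far`: for `q ∈ Tg1` not in `Tg`, `q` is the target of a node `(x, l')`, and an unrestricted node of `y` has its target outside `ball (5ℓ+2) q` (definition of `Restr`, third case with `s' = (x, l')`).
Choose `ly` with an unknown leaf slot. `x0 = qx.2`, `y0 = qy.2`: different slots by `RC.ends` (strings `false :: lx`, `false :: ly` have length `r`). `x0, y0 ∉ En` (the second one not in `En1`, so not in `En.erase x`, and `y0 ≠ x` since `x.1` is a root slot: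
`RC.ends` with the empty string), so erasing `x0, y0` from
`insert y0 ((insert x0 (En.erase x)).erase y)` gives `(En.erase x).erase y`. `ctK`: the elements of `rcK` are in `K`. `free`, `far` for the other roots as for `y`.
-/

set_option autoImplicit false

namespace Pool.Agent.H38H

open Classical

variable {ι : Type} [Fintype ι] {L : ℕ}

/-- some string has an unknown leaf slot -/
theorem sll2_pick {I : Inst ι L} {r ρ : ℕ} {h : SB ι} {K : Finset ι} {x : ι × Bool} {u : ℕ}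
    (hu : u + ρ < 2 ^ (r - 1 - ρ))
    (ux : {l : List Bool | l.length + 1 = r ∧ ∃ q, I.node h x (false :: l) = some q ∧ q.2.1 ∈ K}.ncard ≤ u)
    {Ls : Finset (List Bool)} (hc : 2 ^ (r - 1 - ρ) ≤ Ls.card + ρ) (hl : ∀ l ∈ Ls, l.length + 1 = r) :
    ∃ l ∈ Ls, ∀ q, I.node h x (false :: l) = some q → q.2.1 ∉ K := by
  by_contra hcon
  push Not at hcon
  have hsub : (Ls : Set (List Bool)) ⊆
      {l : List Bool | l.length + 1 = r ∧ ∃ q, I.node h x (false :: l) = some q ∧ q.2.1 ∈ K} := by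
    intro l hl'
    obtain ⟨q, hq1, hq2⟩ := hcon l hl'
    exact ⟨hl l hl', q, hq1, hq2⟩
  have hfin : {l : List Bool | l.length + 1 = r ∧
      ∃ q, I.node h x (false :: l) = some q ∧ q.2.1 ∈ K}.Finite := by
    refine (List.finite_length_eq Bool (r - 1)).subset ?_
    rintro l ⟨h1, -⟩
    show l.length = r - 1
    omega
  have h1 := Set.ncard_le_ncard hsub hfin
  rw [Set.ncard_coe_finset] at h1
  omega

theorem sll2_sym {I : Inst ι L} {T : Finset (ι × Bool)} {r ℓ : ℕ} {h : SB ι} {z x : ι × Bool}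
    (hz : I.Root T z) (hx : I.Root T x) (hzx : x ≠ z) {l l' : List Bool} (hl : l.length < r)
    (hl' : l'.length < r) (hn : ¬ I.Restr T r ℓ h (z, l)) {p q : ι} (hp : I.tg h (z, l) = some p)
    (hq : I.tg h (x, l') = some q) : p ∉ I.ball (5 * ℓ + 2) q := by
  intro hb
  apply hn
  refine ⟨hz, hl, p, hp, Or.inr (Or.inr ⟨(x, l'), ?_, hx, hl', q, hq, hb⟩)⟩
  intro h0
  exact hzx (congrArg Prod.fst h0)

theorem pair_pre {I : Inst ι L} {T : Finset (ι × Bool)} {r K0 ρ ℓ : ℕ} {h : SB ι} {K : Finset ι}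
    {S : SimpleGraph (ι × Bool)} {En : Finset (ι × Bool)} {Ct Tg : Finset ι}
    (s : LS I T r K0 ρ ℓ h K S En Ct Tg) (hr : 1 ≤ r) (hℓ : 1 ≤ ℓ) (hK0 : 1 ≤ K0) {x y : ι × Bool}
    (hx : x ∈ En) (hy : y ∈ En) (hxy : x ≠ y) {u : ℕ} (hu : u + ρ < 2 ^ (r - 1 - ρ))
    (ux : {l : List Bool | l.length + 1 = r ∧ ∃ q, I.node h x (false :: l) = some q ∧ q.2.1 ∈ K}.ncard ≤ u)
    (uy : {l : List Bool | l.length + 1 = r ∧ ∃ q, I.node h y (false :: l) = some q ∧ q.2.1 ∈ K}.ncard ≤ u) :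
    ∃ (lx ly : List Bool) (qx qy : Mv ι) (S' : SimpleGraph (ι × Bool)) (En' : Finset (ι × Bool))
      (Ct' Tg' : Finset ι), lx.length + 1 = r ∧ ly.length + 1 = r ∧ I.node h x (false :: lx) = some qx ∧
      I.node h y (false :: ly) = some qy ∧
      Pre I T r K0 ρ ℓ h K qx.2 qy.2 ((En.erase x).erase y) S' En' Ct' Tg' ∧
      Tg'.card ≤ Tg.card + 2 * r ∧ (∀ c, Cov S c → Cov S' (c + 4 * r)) ∧ Ct ⊆ Ct' := by
  have rx := s.root x hx
  have ry := s.root y hy
  obtain ⟨Ls, hLs1, hLs2⟩ := rc_leaves hr hℓ hK0 s.g1 s.rcK s.rc s.rho hx rx (s.free x hx) s.ctTg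
    (fun z hz => s.rootTg z (Or.inl hz)) (s.rootTg x rx) (s.far x hx)
  obtain ⟨lx, hlx, hlxK⟩ := sll2_pick hu ux hLs1 (fun l hl => (hLs2 l hl).1)
  obtain ⟨hlxr, -, qx, hqx, hqxE, S1, Ct1, Tg1, a1, a2, a3, a4, a5, a6, a7, a8, a9⟩ := hLs2 lx hlx
  have hqxK : qx.2.1 ∉ K := hlxK qx hqx
  have hy1 : y ∈ insert qx.2 (En.erase x) :=
    Finset.mem_insert_of_mem (Finset.mem_erase.2 ⟨Ne.symm hxy, hy⟩)
  have free1 : ∀ z ∈ En, z ≠ x → ∀ p ∈ I.rcS r h z, p ∉ Ct1 := by
    intro z hz hzx p hp hpC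
    have rz := s.root z hz
    rcases a4 p hpC with h1 | ⟨h1 | h1, -⟩
    · exact s.free z hz p hp h1
    · rw [h1] at hp
      exact root_slot I s.rc rx rz hp
    · exact Finset.disjoint_left.1 (rcS_disj I s.rc rz rx hzx) hp h1
  have far1 : ∀ z ∈ En, z ≠ x → ∀ l : List Bool, l.length < r → ¬ I.Restr T r ℓ h (z, l) →
      ∀ p, I.tg h (z, l) = some p → ∀ q ∈ Tg1, p ∉ I.ball (5 * ℓ + 2) q := by
    intro z hz hzx l hl hn p hp q hq
    rcases a7 q hq with h1 | ⟨l', hl', h1⟩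
    · exact s.far z hz l hl hn p hp q h1
    · exact sll2_sym (s.root z hz) rx (Ne.symm hzx) hl hl' hn hp h1
  obtain ⟨Ms, hMs1, hMs2⟩ := rc_leaves hr hℓ hK0 a1 s.rcK s.rc s.rho hy1 ry
    (free1 y hy (Ne.symm hxy)) a8
    (fun z hz => a5 (s.rootTg z (Or.inl hz))) (a5 (s.rootTg y ry)) (far1 y hy (Ne.symm hxy))
  obtain ⟨ly, hly, hlyK⟩ := sll2_pick hu uy hMs1 (fun l hl => (hMs2 l hl).1)
  obtain ⟨hlyr, -, qy, hqy, hqyE, S2, Ct2, Tg2, b1, b2, b3, b4, b5, b6, b7, b8, b9⟩ := hMs2 ly hly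
  have hqyK : qy.2.1 ∉ K := hlyK qy hqy
  have hxyne : qx.2.1 ≠ qy.2.1 := by
    intro h0
    have h1 : (false :: lx).length ≤ r := by rw [List.length_cons]; omega
    have h2 : (false :: ly).length ≤ r := by rw [List.length_cons]; omega
    exact hxy (s.rc.ends x y rx ry (false :: lx) (false :: ly) h1 h2 qx qy hqx hqy h0).1
  refine ⟨lx, ly, qx, qy, S2, insert qy.2 ((insert qx.2 (En.erase x)).erase y), Ct2, Tg2, hlxr, hlyr,
    hqx, hqy, ?_, ?_, ?_, a3.trans b3⟩
  · refine ⟨b1, s.rc, s.rcK, s.rho, ?_, ?_, Finset.mem_insert_self _ _, b3 a2, b2, hqxK, hqyK,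
      hxyne, ?_, ?_, b8, fun z hz => b5 (a5 (s.rootTg z hz)), ?_, ?_⟩
    · intro z hz
      exact s.root z (Finset.mem_of_mem_erase (Finset.mem_of_mem_erase hz))
    · refine Finset.mem_insert_of_mem (Finset.mem_erase.2 ⟨?_, Finset.mem_insert_self _ _⟩)
      intro h0
      rw [h0] at hqxE
      exact hqxE hy
    · ext z
      simp only [Finset.mem_erase, Finset.mem_insert]
      constructor
      · rintro ⟨h1, h2, h3⟩
        rcases h3 with h3 | ⟨h3, h4⟩
        · exact absurd h3 h1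
        · rcases h4 with h4 | ⟨h4, h5⟩
          · exact absurd h4 h2
          · exact ⟨h3, h4, h5⟩
      · rintro ⟨h1, h2, h3⟩
        refine ⟨?_, ?_, Or.inr ⟨h1, Or.inr ⟨h2, h3⟩⟩⟩
        · rintro rfl
          exact hqyE (Finset.mem_insert_of_mem (Finset.mem_erase.2 ⟨h2, h3⟩))
        · rintro rfl
          exact hqxE h3
    · intro p hp
      rcases b4 p hp with h1 | ⟨-, h1 | h1⟩
      · rcases a4 p h1 with h2 | ⟨-, h2 | h2⟩
        · exact Or.inl (s.ctK h2)
        · exact Or.inl (s.rcK h2)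
        · exact Or.inr (Or.inl h2)
      · exact Or.inl (s.rcK h1)
      · exact Or.inr (Or.inr h1)
    · intro z hz p hp hpC
      obtain ⟨hzy, hz'⟩ := Finset.mem_erase.1 hz
      obtain ⟨hzx, hzE⟩ := Finset.mem_erase.1 hz'
      have rz := s.root z hzE
      rcases b4 p hpC with h1 | ⟨h1 | h1, -⟩
      · exact free1 z hzE hzx p hp h1
      · rw [h1] at hp
        exact root_slot I s.rc ry rz hp
      · exact Finset.disjoint_left.1 (rcS_disj I s.rc rz ry hzy) hp h1
    · intro z hz l hl hn p hp q hq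
      obtain ⟨hzy, hz'⟩ := Finset.mem_erase.1 hz
      obtain ⟨hzx, hzE⟩ := Finset.mem_erase.1 hz'
      rcases b7 q hq with h1 | ⟨l', hl', h1⟩
      · exact far1 z hzE hzx l hl hn p hp q h1
      · exact sll2_sym (s.root z hzE) ry (Ne.symm hzy) hl hl' hn hp h1
  · omega
  · intro c hc
    have h1 := b9 _ (a9 c hc)
    have e : c + 2 * r + 2 * r = c + 4 * r := by ring
    rwa [e] at h1

end Pool.Agent.H38H
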