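import Pool.Agent.Lib.H38H.L2
import Pool.Agent.Lib.H38H.L4
import Pool.Agent.Lib.H38H.L5

/-!
Chunk SLL6 (M/L). The task of closing two roots.

Proof. Induction over `j`. `j = 0`: `b1_zero`, `avg_fB_le`. `j + 1`: if `t2 ≤ |K ∩ Z|`: `b1_touch`. Otherwise `pair_pre` with `u = J + t2`: a string `l` with known leaf slot is in `Ux` (at most `J` strings) or its leaf slot is in
`K ∩ Z` (`LfZ`), and the leaf slots of different strings are different (`RC.ends` with `false :: l`, length `r`). This gives `x0 = qx.2`, `y0 = qy.2` and a `Pre` state `S', En', Ct', Tg'`. Let `Fb = rcA ∪ Tg'`: `|Fb| ≤ |rcA| + |Tg| + 2r ≤ gg n`. Apply `att_step`, with `D = DD n`, `Z' = (Z.erase x0.1).erase y0.1`.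
Success (`h' ∈ cyl K h`): `pre_succ` (the `AttOK` comes from `lg.att`) gives an `LS` state at `h'` with known set `attR`; apply `next` with `Z'`: the leaf slots of a root `z` different from `x`, `y` are in `Z'` (`lfz_mono`; they are different
from `x0.1`, `y0.1` by `RC.ends`); `((En.erase x).erase y).card = 2m`; `Sz` for `m`: `|attR| ≤ |K| + 10 * 2^D ≤ |K| + g^551` (`att_card`, `lg.dd`) and `a` decreases from `mJ + j + 1` to `mJ`; `Z' ⊆ Z`; `rcA` is the same (`rcA_congr`); `|Tg''| ≤ |Tg| + 2r + 2(D+1)`,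
`Cov S'' (c + 4r + 4(D+1))`; `Unt` is monotone in `Ct`.
Failure: the old state at `h'` with known set `attR` (`ls_mono`), `Z'`, `insert lx Ux`, `insert ly Uy`: the leaf slots of strings not in `insert lx Ux` are in `Z` and different from `x0.1`, `y0.1` (`RC.ends`). Induction hypothesis for `j`.
-/

set_option autoImplicit false

namespace Pool.Agent.H38H

open Classical

variable {ι : Type} [Fintype ι] {L : ℕ}

theorem sll6_known {I : Inst ι L} {T : Finset (ι × Bool)} {r K0 J t2 : ℕ} {h : SB ι} (rc : I.RC h r K0 T)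
    {x : ι × Bool} (hx : I.Root T x) {U : Finset (List Bool)} {K Z : Finset ι} (hz : LfZ I r h x U Z)
    (hU : U.card ≤ J) (hc : (K ∩ Z).card ≤ t2) :
    {l : List Bool | l.length + 1 = r ∧ ∃ q, I.node h x (false :: l) = some q ∧ q.2.1 ∈ K}.ncard ≤ J + t2 := by
  classical
  set A : Set (List Bool) := {l : List Bool | l.length + 1 = r ∧ l ∉ U ∧
    ∃ q, I.node h x (false :: l) = some q ∧ q.2.1 ∈ K} with hA
  have hfin : A.Finite := by
    refine (List.finite_length_eq Bool (r - 1)).subset ?_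
    rintro l ⟨hl, -⟩
    show l.length = r - 1
    omega
  have hsub : {l : List Bool | l.length + 1 = r ∧ ∃ q, I.node h x (false :: l) = some q ∧ q.2.1 ∈ K} ⊆
      (U : Set (List Bool)) ∪ A := by
    rintro l ⟨hl, hq⟩
    by_cases hlU : l ∈ U
    · exact Or.inl (by exact_mod_cast hlU)
    · exact Or.inr ⟨hl, hlU, hq⟩
  have h1 : A.ncard ≤ (K ∩ Z).card := by
    have h2 := Set.ncard_le_ncard_of_injOn (s := A) (t := ((K ∩ Z : Finset ι) : Set ι))
      (fun l => ((I.node h x (false :: l)).getD (x, x)).2.1) ?_ ?_ (Finset.finite_toSet _)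
    · rw [Set.ncard_coe_finset] at h2
      exact h2
    · rintro l ⟨hl, hlU, q, hq, hqK⟩
      have h3 := hz l q hl hlU hq
      simp only [hq, Option.getD_some]
      exact_mod_cast Finset.mem_inter.2 ⟨hqK, h3⟩
    · rintro l ⟨hl, hlU, q, hq, hqK⟩ l' ⟨hl', hlU', q', hq', hqK'⟩ heq
      simp only [hq, hq', Option.getD_some] at heq
      have h4 := rc.ends x x hx hx (false :: l) (false :: l') (by simp; omega) (by simp; omega) q q' hq hq' heq
      simpa using h4.2
  calc _ ≤ ((U : Set (List Bool)) ∪ A).ncard := Set.ncard_le_ncard hsub ((Finset.finite_toSet _).union hfin)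
    _ ≤ (U : Set (List Bool)).ncard + A.ncard := Set.ncard_union_le _ _
    _ ≤ J + t2 := by
        rw [Set.ncard_coe_finset]
        omega

theorem sll6_lfz {I : Inst ι L} {T : Finset (ι × Bool)} {r K0 : ℕ} {h h' : SB ι} (rc : I.RC h r K0 T)
    {K : Finset ι} (hK : I.rcK T r h ⊆ K) (hh : h' ∈ cyl K h) {x y z : ι × Bool} (hx : I.Root T x)
    (hy : I.Root T y) (hz : I.Root T z) {lx ly : List Bool} (hlx : lx.length + 1 = r)
    (hly : ly.length + 1 = r) {qx qy : Mv ι} (hqx : I.node h x (false :: lx) = some qx)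
    (hqy : I.node h y (false :: ly) = some qy) {U U' : Finset (List Bool)} {Z : Finset ι} (hU : U ⊆ U')
    (h1 : z = x → lx ∈ U') (h2 : z = y → ly ∈ U') (s : LfZ I r h z U Z) :
    LfZ I r h' z U' ((Z.erase qx.2.1).erase qy.2.1) := by
  intro l q hl hlU hq
  have hh' : h' ∈ cyl (I.rcK T r h) h := cyl_mono hK h hh
  have hq' : I.node h z (false :: l) = some q := by
    rw [← hq]
    exact (rc_node_congr I hh' hz (by simp; omega)).symm
  have hqZ := s l q hl (fun hc => hlU (hU hc)) hq'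
  rw [Finset.mem_erase, Finset.mem_erase]
  refine ⟨?_, ?_, hqZ⟩
  · intro heq
    have h4 := rc.ends z y hz hy (false :: l) (false :: ly) (by simp; omega) (by simp; omega) q qy hq' hqy heq
    have h5 : l = ly := by simpa using h4.2
    exact hlU (h5 ▸ h2 h4.1)
  · intro heq
    have h4 := rc.ends z x hz hx (false :: l) (false :: lx) (by simp; omega) (by simp; omega) q qx hq' hqx heq
    have h5 : l = lx := by simpa using h4.2
    exact hlU (h5 ▸ h1 h4.1)

theorem pair_task {I : Inst ι L} {n : ℕ} {β : ℝ} (lg : Lg I n β) {T : Finset (ι × Bool)}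
    {r K0 ρ J t2 m : ℕ} (hr : 1 ≤ r) (hK0 : 1 ≤ K0) (hρ : J + t2 + ρ < 2 ^ (r - 1 - ρ))
    (next : ∀ (h : SB ι) (K : Finset ι) (S : SimpleGraph (ι × Bool)) (En : Finset (ι × Bool))
      (Ct Tg Z : Finset ι), LS I T r K0 ρ (gg n ^ 950) h K S En Ct Tg → (∀ z ∈ En, LfZ I r h z ∅ Z) →
      En.card = 2 * m → Sz n r K Z Tg (I.rcA T r h) S (m * J) m → I.Unt (gg n ^ 950) Ct →
      avg K h (fB I T r K0) ≤ B0 (gg n) β J t2 m (K ∩ Z).card) :
    ∀ (j : ℕ) (h : SB ι) (K : Finset ι) (S : SimpleGraph (ι × Bool)) (En : Finset (ι × Bool))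
      (Ct Tg Z : Finset ι) (x y : ι × Bool) (Ux Uy : Finset (List Bool)),
      LS I T r K0 ρ (gg n ^ 950) h K S En Ct Tg → x ∈ En → y ∈ En → x ≠ y → En.card = 2 * m + 2 →
      (∀ z ∈ En, z ≠ x → z ≠ y → LfZ I r h z ∅ Z) → LfZ I r h x Ux Z → LfZ I r h y Uy Z →
      Ux.card + j ≤ J → Uy.card + j ≤ J → Sz n r K Z Tg (I.rcA T r h) S (m * J + j) (m + 1) →
      I.Unt (gg n ^ 950) Ct → avg K h (fB I T r K0) ≤ B1 (gg n) β J t2 m j (K ∩ Z).card := by
  have hg2 := lg.g2
  have hg1 : (1 : ℝ) ≤ (gg n : ℝ) := by exact_mod_cast (by omega : 1 ≤ gg n)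
  have hℓ : 1 ≤ gg n ^ 950 := Nat.one_le_pow _ _ (by omega)
  intro j
  induction j with
  | zero =>
    intro h K S En Ct Tg Z x y Ux Uy s hx hy hxy hEn hz hzx hzy hUx hUy sz hun
    exact (avg_fB_le I T r K0 K h).trans (b1_zero hg1 lg.nn J t2 m _)
  | succ j ih =>
    intro h K S En Ct Tg Z x y Ux Uy s hx hy hxy hEn hz hzx hzy hUx hUy sz hun
    by_cases ht : t2 ≤ (K ∩ Z).card
    · exact (avg_fB_le I T r K0 K h).trans (b1_touch hg1 lg.nn J t2 m (j + 1) _ ht)
    push Not at ht
    have kx := sll6_known s.rc (s.root x hx) hzx (by omega : Ux.card ≤ J) ht.le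
    have ky := sll6_known s.rc (s.root y hy) hzy (by omega : Uy.card ≤ J) ht.le
    obtain ⟨lx, ly, qx, qy, S', En', Ct', Tg', hlx, hly, hqx, hqy, pre, hTg', hCov', hCt'⟩ :=
      pair_pre s hr hℓ hK0 hx hy hxy (u := J + t2) hρ kx ky
    obtain ⟨kc, zc, ac, tc, c, hc, cc⟩ := sz
    have hcard : K.card ≤ gg n ^ 560 := le_trans (Nat.le_add_right _ _) kc
    have hZ : Z.card ≤ gg n := by omega
    have hFb : (I.rcA T r h ∪ Tg').card ≤ gg n := by
      have e1 := Finset.card_union_le (I.rcA T r h) Tg'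
      have e2 : (m + 1) * (4 * r + 4 * (DD n + 1)) = m * (4 * r + 4 * (DD n + 1)) +
        (4 * r + 4 * (DD n + 1)) := by ring
      omega
    obtain ⟨ok, -, -⟩ := lg.att Z K (I.rcA T r h ∪ Tg') h qx.2 qy.2 pre.kx pre.ky pre.xy hcard hZ hFb
    have hkey : ∀ h' : SB ι, (attR I Z K qx.2 qy.2 (DD n) h').card ≤ K.card + gg n ^ 551 := by
      intro h'
      exact (att_card ok h').trans (Nat.add_le_add_left lg.dd _)
    have hZ' : ((Z.erase qx.2.1).erase qy.2.1).card ≤ Z.card :=
      (Finset.card_le_card (Finset.erase_subset _ _)).trans (Finset.card_le_card (Finset.erase_subset _ _))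
    have hsub : ∀ h' ∈ cyl K h, K ⊆ attR I Z K qx.2 qy.2 (DD n) h' := (att_stop ok h).1
    refine att_step lg pre.kx pre.ky pre.xy hcard hZ hFb ?_ ?_
    · intro h' hh hs
      have hh' : h' ∈ cyl (I.rcK T r h) h := cyl_mono s.rcK h hh
      obtain ⟨S'', Ct'', Tg'', ls, hTg'', hCov'', hCt'', -⟩ :=
        pre_succ pre hℓ ok Finset.subset_union_left Finset.subset_union_right hh hs
      refine next h' _ S'' _ Ct'' Tg'' _ ls ?_ ?_ ?_ ?_
      · intro z hz1
        rw [Finset.mem_erase, Finset.mem_erase] at hz1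
        exact sll6_lfz s.rc s.rcK hh (s.root x hx) (s.root y hy) (s.root z hz1.2.2) hlx hly hqx hqy
          (Finset.Subset.refl _) (fun e => absurd e hz1.2.1) (fun e => absurd e hz1.1)
          (hz z hz1.2.2 hz1.2.1 hz1.1)
      · rw [Finset.card_erase_of_mem (Finset.mem_erase.2 ⟨hxy.symm, hy⟩), Finset.card_erase_of_mem hx]
        omega
      · refine ⟨?_, ?_, ?_, ?_, c + 4 * r + 4 * (DD n + 1), hCov'' _ (hCov' _ hc), ?_⟩
        · have e1 := hkey h'
          have e2 : (m * J + (j + 1)) * gg n ^ 551 = m * J * gg n ^ 551 + j * gg n ^ 551 + gg n ^ 551 := by ring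
          omega
        · omega
        · rw [rcA_congr I hh']
          exact ac
        · have e2 : (m + 1) * (4 * r + 4 * (DD n + 1)) = m * (4 * r + 4 * (DD n + 1)) +
            (4 * r + 4 * (DD n + 1)) := by ring
          omega
        · have e2 : (m + 1) * (4 * r + 4 * (DD n + 1)) = m * (4 * r + 4 * (DD n + 1)) +
            (4 * r + 4 * (DD n + 1)) := by ring
          omega
      · intro x1 h1 h2
        exact hun x1 (fun y1 hy1 hc1 => h1 y1 hy1 (hCt'' (hCt' hc1))) h2
    · intro h' hh hs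
      have hh' : h' ∈ cyl (I.rcK T r h) h := cyl_mono s.rcK h hh
      refine ih h' _ S En Ct Tg _ x y (insert lx Ux) (insert ly Uy) (ls_mono s (hsub h' hh) hh) hx hy hxy hEn
        ?_ ?_ ?_ ?_ ?_ ?_ hun
      · intro z hz1 hzx' hzy'
        exact sll6_lfz s.rc s.rcK hh (s.root x hx) (s.root y hy) (s.root z hz1) hlx hly hqx hqy
          (Finset.Subset.refl _) (fun e => absurd e hzx') (fun e => absurd e hzy') (hz z hz1 hzx' hzy')
      · exact sll6_lfz s.rc s.rcK hh (s.root x hx) (s.root y hy) (s.root x hx) hlx hly hqx hqy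
          (Finset.subset_insert _ _) (fun _ => Finset.mem_insert_self _ _) (fun e => absurd e hxy) hzx
      · exact sll6_lfz s.rc s.rcK hh (s.root x hx) (s.root y hy) (s.root y hy) hlx hly hqx hqy
          (Finset.subset_insert _ _) (fun e => absurd e.symm hxy) (fun _ => Finset.mem_insert_self _ _) hzy
      · have := Finset.card_insert_le lx Ux
        omega
      · have := Finset.card_insert_le ly Uy
        omega
      · refine ⟨?_, ?_, ?_, tc, c, hc, cc⟩
        · have e1 := hkey h'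
          have e2 : (m * J + (j + 1)) * gg n ^ 551 = (m * J + j) * gg n ^ 551 + gg n ^ 551 := by ring
          omega
        · omega
        · rw [rcA_congr I hh']
          exact ac

end Pool.Agent.H38H
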