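import Pool.Agent.Lib.H38H.L6

/-!
Chunk SLL7 (M). The loop over the pairs of roots.

Proof. Induction over `m`. `m = 0`: `En = ∅`; `g1_final` (with `Unt`) gives a `P2State`; `|K| ≤ g^560 ≤ g^900`, `Cov S (gg n)` from `Sz.cc` (monotone in the number); `lg.p2`; `fB ≤ (if HAM then 0 else 1)`; `b0_ge`. `m + 1`: take two different elements of `En` and `pair_task` with `j = J`,
`Ux = Uy = ∅`, `b1_full`; `(m+1) * J = m * J + J`.
-/

set_option autoImplicit false

namespace Pool.Agent.H38H

open Classical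

variable {ι : Type} [Fintype ι] {L : ℕ}

theorem pairs_loop {I : Inst ι L} {n : ℕ} {β : ℝ} (lg : Lg I n β) {T : Finset (ι × Bool)}
    {r K0 ρ J t2 : ℕ} (hr : 1 ≤ r) (hK0 : 1 ≤ K0) (hρ : J + t2 + ρ < 2 ^ (r - 1 - ρ)) (m : ℕ) :
    ∀ (h : SB ι) (K : Finset ι) (S : SimpleGraph (ι × Bool)) (En : Finset (ι × Bool))
      (Ct Tg Z : Finset ι), LS I T r K0 ρ (gg n ^ 950) h K S En Ct Tg → (∀ z ∈ En, LfZ I r h z ∅ Z) →
      En.card = 2 * m → Sz n r K Z Tg (I.rcA T r h) S (m * J) m → I.Unt (gg n ^ 950) Ct →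
      avg K h (fB I T r K0) ≤ B0 (gg n) β J t2 m (K ∩ Z).card := by
  induction m with
  | zero =>
    intro h K S En Ct Tg Z s _ hcard sz hun
    have hEn : En = ∅ := Finset.card_eq_zero.1 (by omega)
    subst hEn
    have hg2 := lg.g2
    have hst := g1_final s.g1 s.ctK hun
    have hK : K.card ≤ gg n ^ 900 := by
      have h1 := sz.kc
      have h2 : gg n ^ 560 ≤ gg n ^ 900 := Nat.pow_le_pow_right (by omega) (by norm_num)
      exact le_trans (le_trans (Nat.le_add_right _ _) h1) h2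
    have hcov : Cov S (gg n) := by
      obtain ⟨c, ⟨T', hT', hT2⟩, hc⟩ := sz.cc
      exact ⟨T', le_trans hT' (le_trans (Nat.le_add_right _ _) hc), hT2⟩
    have h1 : avg K h (fB I T r K0) ≤ avg K h (fun h' => if I.HAM h' then 0 else 1) := by
      refine avg_mono fun h' _ => ?_
      unfold fB
      by_cases hH : I.HAM h'
      · rw [if_neg (fun hc => hc.2 hH), if_pos hH]
      · rw [if_neg hH]
        split_ifs
        · exact le_refl _
        · exact zero_le_one
    have hg1 : (1 : ℝ) ≤ (gg n : ℝ) := by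
      have : 1 ≤ gg n := by omega
      exact_mod_cast this
    exact le_trans h1 (le_trans (lg.p2 K h S hK hst hcov) (b0_ge hg1 J t2 0 _))
  | succ m ih =>
    intro h K S En Ct Tg Z s hlf hcard sz hun
    obtain ⟨x, hx, y, hy, hxy⟩ := Finset.one_lt_card.1 (show 1 < En.card by omega)
    rw [← b1_full]
    refine pair_task lg hr hK0 hρ ih J h K S En Ct Tg Z x y ∅ ∅ s hx hy hxy (by omega)
      (fun z hz _ _ => hlf z hz) (hlf x hx) (hlf y hy) (by simp) (by simp) ?_ hun
    have h2 : (m + 1) * J = m * J + J := by ring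
    rw [← h2]
    exact sz

end Pool.Agent.H38H
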