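import Pool.Agent.Lib.H38H.P1

/-!
Module SL, Phase 1: geometry of `F` and states. Definitions only.
-/

set_option autoImplicit false

namespace Pool.Agent.H38H

open Classical

variable {ι : Type} [Fintype ι] {L : ℕ}

/-- the ray from the position `x` through `flip x`: `x`, `outer (flip x)`, ... (one position per slot) -/
def Inst.ray (I : Inst ι L) (x : ι × Bool) : ℕ → Option (ι × Bool)
  | 0 => some x
  | k + 1 => (Inst.ray I x k).bind (fun y => I.outer (flip y))

/-- slots at distance at most `k` along `F` -/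
noncomputable def Inst.ball (I : Inst ι L) (k : ℕ) (p : ι) : Finset ι :=
  Finset.univ.filter (fun q => ∃ i j, j ≤ k ∧ ∃ y, I.ray (p, i) j = some y ∧ y.1 = q)

/-- slots on components of `F` with at most `20 ℓ` positions -/
noncomputable def Inst.short (I : Inst ι L) (ℓ : ℕ) : Finset ι :=
  Finset.univ.filter (fun p => Nat.card {y // I.SameF (p, false) y} ≤ 20 * ℓ)

/-- delete one edge -/
def cutE {α : Type} (S : SimpleGraph α) (a b : α) : SimpleGraph α where
  Adj u v := S.Adj u v ∧ s(u, v) ≠ s(a, b)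
  symm := by
    constructor
    rintro u v ⟨h1, h2⟩
    exact ⟨h1.symm, by rw [Sym2.eq_swap]; exact h2⟩
  loopless := by
    constructor
    intro v h
    exact h.1.ne rfl

/-- add one edge -/
def joinE {α : Type} (S : SimpleGraph α) (a b : α) : SimpleGraph α where
  Adj u v := S.Adj u v ∨ (u ≠ v ∧ s(u, v) = s(a, b))
  symm := by
    constructor
    rintro u v (h | ⟨h1, h2⟩)
    · exact Or.inl h.symm
    · exact Or.inr ⟨h1.symm, by rw [Sym2.eq_swap]; exact h2⟩
  loopless := by
    constructor
    rintro v (h | ⟨h1, h2⟩)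
    · exact h.ne rfl
    · exact h1 rfl

/-- a move at the end `x`: add `x w`, delete `w x'` -/
def mv {α : Type} (S : SimpleGraph α) (x w x' : α) : SimpleGraph α := joinE (cutE S w x') x w

/-- several moves (latest first) from the root `x0` -/
def mvs {ι : Type} (S : SimpleGraph (ι × Bool)) (x0 : ι × Bool) : List (Mv ι) → SimpleGraph (ι × Bool)
  | [] => S
  | a :: l => mv (mvs S x0 l) (endOf x0 l) a.1 a.2

/-- states of Phase 1: `En` = ends (degree 1), `Ct` = touched slots; all other slots look as in `F`;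
every component without ends has at least `ℓ` positions or is untouched -/
structure G1 (I : Inst ι L) (h : SB ι) (K : Finset ι) (S : SimpleGraph (ι × Bool))
    (En : Finset (ι × Bool)) (Ct : Finset ι) (ℓ : ℕ) : Prop where
  deg : ∀ x, (S.neighborSet x).ncard = if x ∈ En then 1 else 2
  edge : ∀ x y, S.Adj x y → I.FAdj x y ∨ (x.1 ∈ K ∧ y.1 ∈ K ∧ I.PAdj h x y)
  mid : ∀ x, (x.1 ∉ K ∨ I.kind (ap h x).1 ≠ Kind.c) → S.Adj x (flip x)
  unt : ∀ x y, x.1 ∉ Ct → (S.Adj x y ↔ I.FAdj x y)
  big : ∀ x, (∀ y, S.Reachable x y → y ∉ En) →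
    ℓ ≤ Nat.card {y // S.Reachable x y} ∨ ∀ y, S.Reachable x y → y.1 ∉ Ct

/-- the slot `p` is isolated: not short, everything within distance `4 ℓ` is untouched and has both outer partners -/
def Iso (I : Inst ι L) (ℓ : ℕ) (Ct : Finset ι) (p : ι) : Prop :=
  p ∉ I.short ℓ ∧ ∀ q ∈ I.ball (4 * ℓ) p, q ∉ Ct ∧ ∀ i, I.outer (q, i) ≠ none

/-- the move creates no component without ends at `w` -/
def NoCyc {α : Type} (S : SimpleGraph α) (En : Finset α) (x w x' : α) : Prop :=
  ∃ y, (mv S x w x').Reachable w y ∧ (y = x' ∨ (y ∈ En ∧ y ≠ x))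

end Pool.Agent.H38H
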