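import Pool.Agent.Lib.H38H.T3

/-!
Module SL, exploration process. Definitions only.

A pending node has an end `e` in an unknown slot, moves `m` (latest first) leading from the root to `e`, and `r` more steps to
go before the final step by `outer`. The active node (at most one) has its end in a known slot.
-/

set_option autoImplicit false

namespace Pool.Agent.H38H

open Classical

variable {ι : Type} [Fintype ι] {L : ℕ}

/-- a move: position of the partner and new end -/
abbrev Mv (ι : Type) : Type := (ι × Bool) × (ι × Bool)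

/-- current end after moves (latest first) from the root `x0` -/
def endOf (x0 : ι × Bool) : List (Mv ι) → ι × Bool
  | [] => x0
  | a :: _ => a.2

/-- slots met by the moves (latest first), without the root slot -/
noncomputable def slotsOf : List (Mv ι) → List ι
  | [] => []
  | a :: l => if a.2.1 = a.1.1 then a.1.1 :: slotsOf l else a.2.1 :: a.1.1 :: slotsOf l

/-- the moves are steps in `h` -/
def Tr (I : Inst ι L) (h : SB ι) (x0 : ι × Bool) : List (Mv ι) → Prop
  | [] => True
  | a :: l => Tr I h x0 l ∧ ∃ b, I.step h (endOf x0 l) b = some a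

/-- consistent moves: all slots distinct and outside `K`, the new end is `flip` or the outer partner of the target -/
structure Cons (I : Inst ι L) (K : Finset ι) (x0 : ι × Bool) (m : List (Mv ι)) : Prop where
  nodup : (x0.1 :: slotsOf m).Nodup
  fresh : ∀ p ∈ x0.1 :: slotsOf m, p ∉ K
  shape : ∀ a ∈ m, a.2 = flip a.1 ∨ (I.outer a.1 = some a.2 ∧ a.2.1 ≠ a.1.1)

/-- the next `r + 1` links of the chain starting at the half `y` exist and are not in `U` and distinct -/
def chainOK (I : Inst ι L) : ℕ → Finset ι → ι × Bool → Prop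
  | 0, U, y => (∃ z, I.Mc y = some z ∧ z.1 ∉ U) ∨ ∃ l, I.Md y.1 = some l ∧ l ∉ U
  | r + 1, U, y => (∃ z, I.Mc y = some z ∧ z.1 ∉ U ∧ chainOK I r (insert z.1 U) (flip z)) ∨
      ∃ l, I.Md y.1 = some l ∧ l ∉ U

/-- nodes -/
structure Nd (ι : Type) where
  e : ι × Bool
  m : List (Mv ι)
  r : ℕ

/-- process states -/
structure PS (ι : Type) where
  K : Finset ι
  act : Option (Nd ι)
  pend : List (Nd ι)
  fin : List (Nd ι)

/-- slots of the pending and finished nodes -/
noncomputable def PS.slots (s : PS ι) : Finset ι := ((s.pend ++ s.fin).map (fun ν => ν.e.1)).toFinset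

/-- a link has been located at `w` -/
noncomputable def locate (s : PS ι) (w : ι × Bool) : PS ι where
  K := insert w.1 s.K
  act := none
  pend := s.pend.filter (fun ν => ν.e.1 ≠ w.1)
  fin := s.fin.filter (fun ν => ν.e.1 ≠ w.1)

/-- add the child of `ν` reached by cutting the outer edge at `w` -/
noncomputable def addc (I : Inst ι L) (Av : Finset ι) (s : PS ι) (ν : Nd ι) (w : ι × Bool) : PS ι :=
  match I.outer w with
  | none => s
  | some x' =>
    if x'.1 ∈ s.K ∨ x'.1 ∈ Av ∨ x'.1 ∈ s.slots then s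
    else if ν.r = 0 then { s with fin := ⟨x', (w, x') :: ν.m, 0⟩ :: s.fin }
    else { s with pend := ⟨x', (w, x') :: ν.m, ν.r - 1⟩ :: s.pend }

/-- one query -/
noncomputable def pstep (I : Inst ι L) (Av : Finset ι) (h : SB ι) (s : PS ι) : PS ι :=
  match s.act with
  | some ν =>
    match I.Mc (ap h ν.e) with
    | some y =>
      if ν.r = 0 then addc I Av (locate s (pa h y)) ν (pa h y)
      else { addc I Av (locate s (pa h y)) ν (pa h y) with
              act := some ⟨flip (pa h y), (pa h y, flip (pa h y)) :: ν.m, ν.r - 1⟩ }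
    | none =>
      match I.Md (ap h ν.e).1 with
      | some l =>
        if ν.r = 0 then addc I Av (locate s (pa h (l, false))) ν (pa h (l, false))
        else addc I Av (addc I Av (locate s (pa h (l, false))) ν (pa h (l, false))) ν
              (flip (pa h (l, false)))
      | none => { s with act := none }
  | none =>
    match s.pend with
    | [] => s
    | ν :: rest =>
      { K := insert ν.e.1 s.K
        act := if chainOK I ν.r (lk (insert ν.e.1 s.K) h) (ap h ν.e) then some ν else none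
        pend := rest
        fin := s.fin }

/-- `k` queries -/
noncomputable def prun (I : Inst ι L) (Av : Finset ι) (h : SB ι) (k : ℕ) (s : PS ι) : PS ι :=
  (pstep I Av h)^[k] s

/-- initial state with root `x0` and depth `D` -/
def pinit (K : Finset ι) (x0 : ι × Bool) (D : ℕ) : PS ι where
  K := K
  act := none
  pend := [⟨x0, [], D⟩]
  fin := []

/-- invariant of the process -/
structure PInv (I : Inst ι L) (K0 : Finset ι) (x0 : ι × Bool) (D : ℕ) (Av : Finset ι) (h : SB ι)
    (s : PS ι) : Prop where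
  sub : K0 ⊆ s.K
  unk : ∀ ν ∈ s.pend ++ s.fin, ν.e.1 ∉ s.K
  nod : ((s.pend ++ s.fin).map (fun ν => ν.e.1)).Nodup
  node : ∀ ν ∈ s.pend ++ s.fin, Tr I h x0 ν.m ∧ ν.e = endOf x0 ν.m ∧ Cons I K0 x0 ν.m ∧
    (∀ p ∈ slotsOf ν.m, p ≠ ν.e.1 → p ∈ s.K) ∧ (ν.m ≠ [] → x0.1 ∈ s.K ∧ ν.e.1 ∉ Av) ∧
    ∀ a l, ν.m = a :: l → a.2.1 ≠ a.1.1 ∧ I.outer a.1 = some a.2
  actv : ∀ ν, s.act = some ν → ν.e.1 ∈ s.K ∧ Tr I h x0 ν.m ∧ ν.e = endOf x0 ν.m ∧ Cons I K0 x0 ν.m ∧
    (∀ p ∈ slotsOf ν.m, p ∈ s.K) ∧ x0.1 ∈ s.K ∧ chainOK I ν.r (lk s.K h) (ap h ν.e)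
  lenp : ∀ ν ∈ s.pend, ν.m.length + ν.r = D
  lena : ∀ ν, s.act = some ν → ν.m.length + ν.r = D
  lenf : ∀ ν ∈ s.fin, ν.m.length = D + 1
  count : (s.pend.map (fun ν => 2 ^ ν.r)).sum + (s.act.elim 0 (fun ν => 2 ^ ν.r)) + s.fin.length ≤ 2 ^ D

/-! ### potentials -/

/-- sum over all positions `w` with outer partner `x'`, both slots outside `B` and distinct -/
noncomputable def outSum (I : Inst ι L) (B : Finset ι) (F : Mv ι → ℝ) : ℝ :=
  ∑ w : ι × Bool, (I.outer w).elim 0
    (fun x' => if w.1 ∉ B ∧ x'.1 ∉ B ∧ x'.1 ≠ w.1 then F (w, x') else 0)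

/-- sum over all positions outside `B` -/
noncomputable def midSum (B : Finset ι) (F : Mv ι → ℝ) : ℝ :=
  ∑ w : ι × Bool, if w.1 ∉ B then F (w, flip w) else 0

/-- a potential: one step multiplies it by at least `lam` on average, the final step by at least `lamf` -/
structure Pot (I : Inst ι L) (K : Finset ι) (x0 : ι × Bool) (E : ℕ) (lam lamf : ℝ)
    (V Vf : List (Mv ι) → ℝ) : Prop where
  nn : ∀ m, 0 ≤ V m
  nnf : ∀ m, 0 ≤ Vf m
  out : ∀ m, Cons I K x0 m → ∀ B : Finset ι, K ⊆ B → (∀ p ∈ x0.1 :: slotsOf m, p ∈ B) → B.card ≤ E →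
    lam * V m * (2 * (Fintype.card ι : ℝ)) ≤ outSum I B (fun a => V (a :: m))
  mid : ∀ m, Cons I K x0 m → ∀ B : Finset ι, K ⊆ B → (∀ p ∈ x0.1 :: slotsOf m, p ∈ B) → B.card ≤ E →
    lam * V m * (2 * (Fintype.card ι : ℝ)) ≤ midSum B (fun a => V (a :: m))
  outf : ∀ m, Cons I K x0 m → ∀ B : Finset ι, K ⊆ B → (∀ p ∈ x0.1 :: slotsOf m, p ∈ B) → B.card ≤ E →
    lamf * V m * (2 * (Fintype.card ι : ℝ)) ≤ outSum I B (fun a => Vf (a :: m))

/-- weight of the active node -/
noncomputable def wA (lamf th : ℝ) (r : ℕ) : ℝ := lamf * th ^ r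

/-- weight of a pending node -/
noncomputable def wP (eps lamf th : ℝ) (r : ℕ) : ℝ := (1 - eps) * (lamf * th ^ r)

/-- potential of a process state -/
noncomputable def Wt (eps lamf th : ℝ) (V Vf : List (Mv ι) → ℝ) (s : PS ι) : ℝ :=
  (s.pend.map (fun ν => wP eps lamf th ν.r * V ν.m)).sum +
    s.act.elim 0 (fun ν => wA lamf th ν.r * V ν.m) + (s.fin.map (fun ν => Vf ν.m)).sum

/-- the same, as long as the protected slots `Pr` are unknown -/
noncomputable def Wd (Pr : Finset ι) (eps lamf th : ℝ) (V Vf : List (Mv ι) → ℝ) (s : PS ι) : ℝ :=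
  if Disjoint Pr s.K then Wt eps lamf th V Vf s else 0

/-- slots whose two outer partners lie in the same slot -/
noncomputable def twoC (I : Inst ι L) : Finset ι :=
  Finset.univ.filter (fun p => ∃ x y : ι × Bool, I.outer (p, false) = some x ∧
    I.outer (p, true) = some y ∧ x.1 = y.1)

end Pool.Agent.H38H
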