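import Pool.Agent.Lib.H38H.P0

/-!
Chunk SLP1 (M). Elementary facts about moves.

Proofs: unfolding. `tr_congr_act`, `tr_congr_pend`: induction on the list of moves; at the move `a :: l` the end of `l` is in a known
slot (either `x0` or in `slotsOf l`, and different from `a.2.1` by `Nodup`), so its content is the same in `h'`; the partner
`y` has `pa h y = a.1` with `a.1.1` known, so `pa h' y = pa h y` (`pa_congr`, `mem_lk`, `pa_fst`).
-/

set_option autoImplicit false

namespace Pool.Agent.H38H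

open Classical

variable {ι : Type} [Fintype ι] {L : ℕ}

theorem slotsOf_mid {a : Mv ι} {l : List (Mv ι)} (e : a.2.1 = a.1.1) :
    slotsOf (a :: l) = a.1.1 :: slotsOf l := by
  rw [slotsOf, if_pos e]

theorem slotsOf_out {a : Mv ι} {l : List (Mv ι)} (e : a.2.1 ≠ a.1.1) :
    slotsOf (a :: l) = a.2.1 :: a.1.1 :: slotsOf l := by
  rw [slotsOf, if_neg e]

theorem slp1_sub (a : Mv ι) (l : List (Mv ι)) : (slotsOf l).Sublist (slotsOf (a :: l)) := by
  by_cases e : a.2.1 = a.1.1
  · rw [slotsOf_mid e]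
    exact List.sublist_cons_self _ _
  · rw [slotsOf_out e]
    exact (List.sublist_cons_self _ _).trans (List.sublist_cons_self _ _)

theorem mem_slotsOf_tail {a : Mv ι} {l : List (Mv ι)} {p : ι} (hp : p ∈ slotsOf l) :
    p ∈ slotsOf (a :: l) :=
  (slp1_sub a l).subset hp

theorem target_mem_slotsOf (a : Mv ι) (l : List (Mv ι)) : a.1.1 ∈ slotsOf (a :: l) := by
  by_cases e : a.2.1 = a.1.1
  · rw [slotsOf_mid e]
    exact List.mem_cons_self
  · rw [slotsOf_out e]
    exact List.mem_cons_of_mem _ List.mem_cons_self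

theorem end_mem_slotsOf {x0 : ι × Bool} {m : List (Mv ι)} (hm : m ≠ []) :
    (endOf x0 m).1 ∈ slotsOf m := by
  cases m with
  | nil => exact absurd rfl hm
  | cons a l =>
    show a.2.1 ∈ slotsOf (a :: l)
    by_cases e : a.2.1 = a.1.1
    · rw [e]
      exact target_mem_slotsOf a l
    · rw [slotsOf_out e]
      exact List.mem_cons_self

theorem length_slotsOf_le (m : List (Mv ι)) : (slotsOf m).length ≤ 2 * m.length := by
  induction m with
  | nil => simp [slotsOf]
  | cons a l ih =>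
    by_cases e : a.2.1 = a.1.1
    · rw [slotsOf_mid e, List.length_cons, List.length_cons]
      omega
    · rw [slotsOf_out e, List.length_cons, List.length_cons, List.length_cons]
      omega

theorem Cons.tail {I : Inst ι L} {K : Finset ι} {x0 : ι × Bool} {a : Mv ι} {l : List (Mv ι)}
    (c : Cons I K x0 (a :: l)) : Cons I K x0 l where
  nodup := c.nodup.sublist ((slp1_sub a l).cons_cons x0.1)
  fresh := fun p hp => c.fresh p (((slp1_sub a l).cons_cons x0.1).subset hp)
  shape := fun b hb => c.shape b (List.mem_cons_of_mem _ hb)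

/-- adding a move by `flip` at a fresh slot -/
theorem Cons.mid {I : Inst ι L} {K : Finset ι} {x0 w : ι × Bool} {m : List (Mv ι)}
    (c : Cons I K x0 m) (hw : w.1 ∉ K) (hw' : w.1 ∉ x0.1 :: slotsOf m) :
    Cons I K x0 ((w, flip w) :: m) := by
  have e : slotsOf ((w, flip w) :: m) = w.1 :: slotsOf m := slotsOf_mid (a := (w, flip w)) rfl
  have hc := c.nodup
  have hf := c.fresh
  rw [List.nodup_cons] at hc
  rw [List.mem_cons, not_or] at hw'
  refine ⟨?_, ?_, ?_⟩
  · rw [e, List.nodup_cons, List.nodup_cons, List.mem_cons, not_or]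
    exact ⟨⟨fun h => hw'.1 h.symm, hc.1⟩, hw'.2, hc.2⟩
  · intro p hp
    rw [e, List.mem_cons, List.mem_cons] at hp
    rcases hp with rfl | rfl | hp
    · exact hf _ List.mem_cons_self
    · exact hw
    · exact hf _ (List.mem_cons_of_mem _ hp)
  · intro a ha
    rcases List.mem_cons.1 ha with rfl | ha
    · exact Or.inl rfl
    · exact c.shape a ha

/-- adding a move by `outer` at fresh slots -/
theorem Cons.out {I : Inst ι L} {K : Finset ι} {x0 w x' : ι × Bool} {m : List (Mv ι)}
    (c : Cons I K x0 m) (ho : I.outer w = some x') (hw : w.1 ∉ K) (hw' : w.1 ∉ x0.1 :: slotsOf m)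
    (hx : x'.1 ∉ K) (hx' : x'.1 ∉ x0.1 :: slotsOf m) (hwx : x'.1 ≠ w.1) :
    Cons I K x0 ((w, x') :: m) := by
  have e : slotsOf ((w, x') :: m) = x'.1 :: w.1 :: slotsOf m := slotsOf_out (a := (w, x')) hwx
  have hc := c.nodup
  have hf := c.fresh
  rw [List.nodup_cons] at hc
  rw [List.mem_cons, not_or] at hw' hx'
  refine ⟨?_, ?_, ?_⟩
  · rw [e, List.nodup_cons, List.nodup_cons, List.nodup_cons, List.mem_cons, List.mem_cons, List.mem_cons,
      not_or, not_or, not_or]
    exact ⟨⟨fun h => hx'.1 h.symm, fun h => hw'.1 h.symm, hc.1⟩, ⟨hwx, hx'.2⟩, hw'.2, hc.2⟩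
  · intro p hp
    rw [e, List.mem_cons, List.mem_cons, List.mem_cons] at hp
    rcases hp with rfl | rfl | rfl | hp
    · exact hf _ List.mem_cons_self
    · exact hx
    · exact hw
    · exact hf _ (List.mem_cons_of_mem _ hp)
  · intro a ha
    rcases List.mem_cons.1 ha with rfl | ha
    · exact Or.inr ⟨ho, hwx⟩
    · exact c.shape a ha

theorem Mc_Md (I : Inst ι L) {x y : ι × Bool} (e : I.Mc x = some y) : I.Md x.1 = none := by
  have h1 := (I.Mc_kind x y e).1
  cases h2 : I.Md x.1 with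
  | none => rfl
  | some l =>
    have h3 := (I.Md_kind _ _ h2).1
    rw [h1] at h3
    exact absurd h3 (by intro h; cases h)

theorem step_c (I : Inst ι L) (h : SB ι) {x y : ι × Bool} (e : I.Mc (ap h x) = some y) :
    I.step h x true = some (pa h y, flip (pa h y)) ∧
      I.step h x false = (I.outer (pa h y)).map (fun x' => (pa h y, x')) := by
  have h1 := (I.Mc_kind _ _ e).1
  unfold Inst.step
  rw [h1]
  simp [e]

theorem step_d (I : Inst ι L) (h : SB ι) {x : ι × Bool} {l : ι} (e : I.Md (ap h x).1 = some l) (b : Bool) :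
    I.step h x b = (I.outer (pa h (l, b))).map (fun x' => (pa h (l, b), x')) := by
  have h1 := (I.Md_kind _ _ e).1
  unfold Inst.step
  rw [h1]
  simp [e]

/-- the three ways to make a step -/
theorem slp1_step {I : Inst ι L} {h : SB ι} {x : ι × Bool} {b : Bool} {a : Mv ι} (e : I.step h x b = some a) :
    (I.kind (ap h x).1 = Kind.c ∧ ∃ y, I.Mc (ap h x) = some y ∧ a.1 = pa h y ∧
      ((b = true ∧ a.2 = flip a.1) ∨ (b = false ∧ I.outer a.1 = some a.2))) ∨
    (I.kind (ap h x).1 = Kind.d ∧ ∃ l, I.Md (ap h x).1 = some l ∧ a.1 = pa h (l, b) ∧ I.outer a.1 = some a.2) := by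
  unfold Inst.step at e
  cases hk : I.kind (ap h x).1 with
  | b =>
    rw [hk] at e
    exact absurd e (by intro h; cases h)
  | c =>
    left
    rw [hk] at e
    obtain ⟨y, hy, e2⟩ := Option.bind_eq_some_iff.1 e
    cases b with
    | true =>
      have e3 : some (pa h y, flip (pa h y)) = some a := e2
      have e4 := Option.some.inj e3
      exact ⟨rfl, y, hy, by rw [← e4], Or.inl ⟨rfl, by rw [← e4]⟩⟩
    | false =>
      have e3 : (I.outer (pa h y)).map (fun x' => (pa h y, x')) = some a := e2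
      obtain ⟨x', hx', e4⟩ := Option.map_eq_some_iff.1 e3
      exact ⟨rfl, y, hy, by rw [← e4], Or.inr ⟨rfl, by rw [← e4]; exact hx'⟩⟩
  | d =>
    right
    rw [hk] at e
    obtain ⟨l, hl, e2⟩ := Option.bind_eq_some_iff.1 e
    obtain ⟨x', hx', e4⟩ := Option.map_eq_some_iff.1 e2
    exact ⟨rfl, l, hl, by rw [← e4], by rw [← e4]; exact hx'⟩

/-- a step joins the end to the position of a partner -/
theorem step_adj (I : Inst ι L) (h : SB ι) {x : ι × Bool} {b : Bool} {a : Mv ι} (e : I.step h x b = some a) :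
    (I.Mc (ap h x) = some (ap h a.1) ∨ I.Md (ap h x).1 = some (ap h a.1).1) ∧
      ((a.2 = flip a.1 ∧ I.kind (ap h a.1).1 = Kind.c) ∨ I.outer a.1 = some a.2) := by
  rcases slp1_step e with ⟨-, y, hy, ha, h3⟩ | ⟨-, l, hl, ha, h3⟩
  · refine ⟨Or.inl ?_, ?_⟩
    · rw [ha, ap_pa, hy]
    · rcases h3 with ⟨-, h3⟩ | ⟨-, h3⟩
      · refine Or.inl ⟨h3, ?_⟩
        rw [ha, ap_pa]
        exact (I.Mc_kind _ _ (I.Mc_symm _ _ hy)).1
      · exact Or.inr h3
  · refine ⟨Or.inr ?_, Or.inr h3⟩
    rw [ha, ap_pa, hl]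

theorem slp1_step_congr {I : Inst ι L} {K : Finset ι} {h h' : SB ι} (hh : h' ∈ cyl K h) {x : ι × Bool}
    {b : Bool} {a : Mv ι} (hx : x.1 ∈ K) (ha : a.1.1 ∈ K) (e : I.step h x b = some a) :
    I.step h' x b = some a := by
  rcases slp1_step e with ⟨-, y, hy, hay, h3⟩ | ⟨-, l, hl, hal, h3⟩
  · have h4 : pa h' y = pa h y := by
      apply pa_congr hh
      rw [mem_lk, ← pa_fst, ← hay]
      exact ha
    have hy' : I.Mc (ap h' x) = some y := by
      rw [ap_congr hh hx]
      exact hy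
    obtain ⟨s1, s2⟩ := step_c I h' hy'
    rw [h4, ← hay] at s1 s2
    rcases h3 with ⟨rfl, h3⟩ | ⟨rfl, h3⟩
    · rw [s1, ← h3]
    · rw [s2, h3]
      rfl
  · have h4 : pa h' (l, b) = pa h (l, b) := by
      apply pa_congr hh
      rw [mem_lk, ← pa_fst, ← hal]
      exact ha
    have hl' : I.Md (ap h' x).1 = some l := by
      rw [ap_congr hh hx]
      exact hl
    rw [step_d I h' hl', h4, ← hal, h3]
    rfl

theorem tr_congr_act {I : Inst ι L} {K K0 : Finset ι} {h h' : SB ι} (hh : h' ∈ cyl K h) {x0 : ι × Bool}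
    {m : List (Mv ι)} (hT : Tr I h x0 m) (c : Cons I K0 x0 m) (h0 : x0.1 ∈ K)
    (hK : ∀ p ∈ slotsOf m, p ∈ K) : Tr I h' x0 m := by
  induction m with
  | nil => trivial
  | cons a l ih =>
    obtain ⟨hT1, b, hb⟩ := hT
    refine ⟨ih hT1 c.tail (fun p hp => hK p (mem_slotsOf_tail hp)), b, ?_⟩
    refine slp1_step_congr hh ?_ (hK _ (target_mem_slotsOf a l)) hb
    cases l with
    | nil => exact h0
    | cons a' l' => exact hK _ (mem_slotsOf_tail (end_mem_slotsOf (x0 := x0) (List.cons_ne_nil a' l')))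

theorem tr_congr_pend {I : Inst ι L} {K K0 : Finset ι} {h h' : SB ι} (hh : h' ∈ cyl K h) {x0 : ι × Bool}
    {m : List (Mv ι)} (hT : Tr I h x0 m) (c : Cons I K0 x0 m) (h0 : m ≠ [] → x0.1 ∈ K)
    (hl : ∀ a l, m = a :: l → a.2.1 ≠ a.1.1)
    (hK : ∀ p ∈ slotsOf m, p ≠ (endOf x0 m).1 → p ∈ K) : Tr I h' x0 m := by
  cases m with
  | nil => trivial
  | cons a l =>
    have h0' := h0 (List.cons_ne_nil a l)
    have e := slotsOf_out (l := l) (hl a l rfl)
    have hn := c.nodup
    rw [List.nodup_cons, e, List.nodup_cons] at hn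
    have hK' : ∀ p ∈ a.1.1 :: slotsOf l, p ∈ K := by
      intro p hp
      refine hK p ?_ ?_
      · rw [e]
        exact List.mem_cons_of_mem _ hp
      · rintro rfl
        exact hn.2.1 hp
    obtain ⟨hT1, b, hb⟩ := hT
    refine ⟨tr_congr_act hh hT1 c.tail h0' (fun p hp => hK' p (List.mem_cons_of_mem _ hp)), b, ?_⟩
    refine slp1_step_congr hh ?_ (hK' _ List.mem_cons_self) hb
    cases l with
    | nil => exact h0'
    | cons a' l' =>
      exact hK' _ (List.mem_cons_of_mem _ (end_mem_slotsOf (x0 := x0) (List.cons_ne_nil a' l')))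

end Pool.Agent.H38H
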