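import Pool.Agent.Lib.H38H.P1

/-!
Chunk SLP8 (M). Few halves have a bad chain.

Statement: for a set `U` of links, at most `8 (r+2) (|U| + L + 1)` halves `y` with `y.1 ∉ U` fail `chainOK I r (insert y.1 U) y`.
Proof. Let `a_0 = y`, `a_(j+1) = flip z_j` where `I.Mc a_j = some z_j` (as long as defined). If `chainOK` fails, let `j ≤ r` be the first
index where it stops: `a_0, .., a_j` are defined, the links of `z_0, .., z_(j-1)` are distinct, outside `insert y.1 U`, and at `a_j`
either (i) `I.Mc a_j = none` and `I.Md a_j.1 = none`: then `a_j.1` is special (`I.special_le`: kind b, or kind c with a half without partner,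
or kind d without partner): at most `2 L` halves `a_j`; or (ii) the partner link (of `Mc a_j` or `Md a_j.1`) lies in `U`: at most `2|U|`
halves `a_j` (`Mc` is injective, `Md` is injective) in each of the two cases; or (iii) the partner link is `a_i.1`
for some `i ≤ j`. In case (iii) for `Md`: `Md a = some b` with `b ≠ a`, and if `j ≥ 1` the links `a_i` have kind c while `Md`-partners have
kind d: impossible (for `j = 0`, `b = a_0.1` is excluded by `Md_kind`). In case (iii) for `Mc`: `I.Mc a_j = some a_i` or `some (flip a_i)`.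
If `Mc a_j = some (flip a_i)` then `a_(j+1) = a_i` and by injectivity of `x ↦ flip (Mc x)` the orbit of `y` is closed with period `≤ j + 1 ≤ r + 1`:
such `y` are counted by `I.orbits_le (r+1)`: at most `L (r+1)`. `Mc a_j = some a_i`, `i = j`: impossible by `Mc_kind`; `i < j`: then `Mc a_i = some a_j`,
`a_(i+1) = flip a_j`, and `flip a_j = Mc a_(j-1)`, so `Mc (a_(j-1)) = a_(i+1)`, the same situation with `(i+1, j-1)`; descending we reach `a_k = flip a_k` or `a_k = Mc a_k`,
both impossible. The map `y ↦ a_j` is injective for each `j`. Total: `(r+1)(2L + 4|U|) + L(r+1)`.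
(A formalisation by induction on `r` with a general statement for a set `U` and counting the `y` for which the first step works is also fine.)
-/

set_option autoImplicit false

namespace Pool.Agent.H38H

open Classical

variable {ι : Type} [Fintype ι] {L : ℕ}

/-- one step of the orbit -/
def p8g (I : Inst ι L) : Option (ι × Bool) → Option (ι × Bool) :=
  fun o => o.bind (fun y => (I.Mc y).map flip)

theorem p8g_of (I : Inst ι L) {x z : ι × Bool} (h : I.Mc x = some z) : p8g I (some x) = some (flip z) := by
  simp [p8g, h]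

theorem p8g_inv (I : Inst ι L) {o : Option (ι × Bool)} {a : ι × Bool} (h : p8g I o = some a) :
    ∃ x, o = some x ∧ I.Mc x = some (flip a) := by
  cases o with
  | none => simp [p8g] at h
  | some x =>
    refine ⟨x, rfl, ?_⟩
    cases hM : I.Mc x with
    | none => simp [p8g, hM] at h
    | some z =>
      rw [p8g_of I hM] at h
      have := Option.some.inj h
      rw [← this, flip_flip]

theorem p8_inj (I : Inst ι L) (j : ℕ) : ∀ {y y' a : ι × Bool}, (p8g I)^[j] (some y) = some a →
    (p8g I)^[j] (some y') = some a → y = y' := by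
  induction j with
  | zero =>
    intro y y' a h1 h2
    have e1 := Option.some.inj h1
    have e2 := Option.some.inj h2
    rw [e1, e2]
  | succ j ih =>
    intro y y' a h1 h2
    rw [Function.iterate_succ_apply'] at h1 h2
    obtain ⟨x, hx, hxM⟩ := p8g_inv I h1
    obtain ⟨x', hx', hxM'⟩ := p8g_inv I h2
    have e1 := I.Mc_symm _ _ hxM
    have e2 := I.Mc_symm _ _ hxM'
    rw [e1] at e2
    have e3 := Option.some.inj e2
    rw [← e3] at hx'
    exact ih hx hx'

theorem p8_none (I : Inst ι L) (j : ℕ) : (p8g I)^[j] none = none := by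
  induction j with
  | zero => rfl
  | succ j ih =>
    rw [Function.iterate_succ_apply', ih]
    rfl

theorem p8_desc (I : Inst ι L) (y : ι × Bool) : ∀ d i : ℕ, ∀ a b : ι × Bool,
    (p8g I)^[i] (some y) = some b → (p8g I)^[i + d] (some y) = some a → I.Mc a = some b → False := by
  intro d
  induction d using Nat.strong_induction_on with
  | _ d ih =>
    intro i a b hb ha hM
    match d, ih, ha with
    | 0, _, ha =>
      rw [Nat.add_zero, hb] at ha
      have := Option.some.inj ha
      subst this
      exact (I.Mc_kind _ _ hM).2 rfl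
    | 1, _, ha =>
      rw [Function.iterate_succ_apply', hb, p8g_of I (I.Mc_symm _ _ hM)] at ha
      exact flip_ne a (Option.some.inj ha)
    | d + 2, ih, ha =>
      have h1 : (p8g I)^[i + 1] (some y) = some (flip a) := by
        rw [Function.iterate_succ_apply', hb, p8g_of I (I.Mc_symm _ _ hM)]
      have h2 : p8g I ((p8g I)^[i + (d + 1)] (some y)) = some a := by
        have h20 : (p8g I)^[(i + (d + 1)) + 1] (some y) = some a := ha
        rwa [Function.iterate_succ_apply'] at h20
      obtain ⟨x, hx, hMx⟩ := p8g_inv I h2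
      exact ih d (by omega) (i + 1) x (flip a) h1 (by rw [show i + 1 + d = i + (d + 1) by omega]; exact hx) hMx

/-- the way in which the chain of `y` fails -/
def P8Fail (I : Inst ι L) (U : Finset ι) (y : ι × Bool) (r : ℕ) : Prop :=
  ∃ j, j ≤ r ∧ ∃ a, (p8g I)^[j] (some y) = some a ∧
    ((I.Mc a = none ∧ I.Md a.1 = none) ∨
      (∃ z, I.Mc a = some z ∧ (z.1 ∈ U ∨ ∃ i, i ≤ j ∧ ∃ b, (p8g I)^[i] (some y) = some b ∧ b.1 = z.1)) ∨
      ∃ l, I.Md a.1 = some l ∧ (l ∈ U ∨ ∃ i, i ≤ j ∧ ∃ b, (p8g I)^[i] (some y) = some b ∧ b.1 = l))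

theorem p8_fail (I : Inst ι L) : ∀ (r : ℕ) (U : Finset ι) (y : ι × Bool), ¬ chainOK I r U y →
    P8Fail I U y r := by
  intro r
  induction r with
  | zero =>
    intro U y h
    unfold chainOK at h
    push Not at h
    obtain ⟨h1, h2⟩ := h
    refine ⟨0, le_rfl, y, rfl, ?_⟩
    cases hM : I.Mc y with
    | some z => exact Or.inr (Or.inl ⟨z, rfl, Or.inl (h1 z hM)⟩)
    | none =>
      cases hD : I.Md y.1 with
      | some l => exact Or.inr (Or.inr ⟨l, rfl, Or.inl (h2 l hD)⟩)
      | none => exact Or.inl ⟨rfl, rfl⟩
  | succ r ih =>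
    intro U y h
    unfold chainOK at h
    push Not at h
    obtain ⟨h1, h2⟩ := h
    cases hM : I.Mc y with
    | some z =>
      by_cases hz : z.1 ∈ U
      · exact ⟨0, Nat.zero_le _, y, rfl, Or.inr (Or.inl ⟨z, hM, Or.inl hz⟩)⟩
      · obtain ⟨j, hj, a, ha, hc⟩ := ih (insert z.1 U) (flip z) (h1 z hM hz)
        have key : ∀ i b, (p8g I)^[i] (some (flip z)) = some b → (p8g I)^[i + 1] (some y) = some b := by
          intro i b hb
          rw [Function.iterate_succ_apply, p8g_of I hM, hb]
        have key2 : ∀ l, (l ∈ insert z.1 U ∨ ∃ i, i ≤ j ∧ ∃ b, (p8g I)^[i] (some (flip z)) = some b ∧ b.1 = l) →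
            (l ∈ U ∨ ∃ i, i ≤ j + 1 ∧ ∃ b, (p8g I)^[i] (some y) = some b ∧ b.1 = l) := by
          intro l hl
          rcases hl with hl | ⟨i, hi, b, hb, hbl⟩
          · rcases Finset.mem_insert.1 hl with hl | hl
            · right
              refine ⟨1, by omega, flip z, ?_, by rw [hl, flip_fst]⟩
              exact key 0 _ rfl
            · exact Or.inl hl
          · exact Or.inr ⟨i + 1, by omega, b, key i b hb, hbl⟩
        refine ⟨j + 1, by omega, a, key j a ha, ?_⟩
        rcases hc with hc | ⟨z', hz', hc⟩ | ⟨l, hl, hc⟩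
        · exact Or.inl hc
        · exact Or.inr (Or.inl ⟨z', hz', key2 _ hc⟩)
        · exact Or.inr (Or.inr ⟨l, hl, key2 _ hc⟩)
    | none =>
      refine ⟨0, Nat.zero_le _, y, rfl, ?_⟩
      cases hD : I.Md y.1 with
      | some l => exact Or.inr (Or.inr ⟨l, rfl, Or.inl (h2 l hD)⟩)
      | none => exact Or.inl ⟨hM, rfl⟩

/-- the ends of failing chains -/
noncomputable def p8A (I : Inst ι L) (U : Finset ι) : Finset (ι × Bool) :=
  Finset.univ.filter (fun a => (I.Mc a = none ∧ I.Md a.1 = none) ∨ (∃ z, I.Mc a = some z ∧ z.1 ∈ U) ∨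
    ∃ l, I.Md a.1 = some l ∧ l ∈ U)

theorem p8A_card (I : Inst ι L) (U : Finset ι) : (p8A I U).card ≤ 2 * L + 2 * U.card + 2 * U.card := by
  set Sp := Finset.univ.filter (fun a : ι => I.kind a = Kind.b ∨
    (I.kind a = Kind.c ∧ (I.Mc (a, false) = none ∨ I.Mc (a, true) = none)) ∨
    (I.kind a = Kind.d ∧ I.Md a = none)) with hSp
  have hSpL : Sp.card ≤ L := I.special_le
  have hsub : p8A I U ⊆ (Sp ×ˢ (Finset.univ : Finset Bool)) ∪
      ((U ×ˢ (Finset.univ : Finset Bool)).image (fun z => (I.Mc z).getD z)) ∪
      ((U ×ˢ (Finset.univ : Finset Bool)).image (fun z => ((I.Md z.1).getD z.1, z.2))) := by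
    intro a ha
    unfold p8A at ha
    rw [Finset.mem_filter] at ha
    rw [Finset.mem_union, Finset.mem_union]
    rcases ha.2 with ⟨h1, h2⟩ | ⟨z, hz, hzU⟩ | ⟨l, hl, hlU⟩
    · left; left
      rw [Finset.mem_product]
      refine ⟨?_, Finset.mem_univ _⟩
      rw [hSp, Finset.mem_filter]
      refine ⟨Finset.mem_univ _, ?_⟩
      cases hk : I.kind a.1 with
      | b => exact Or.inl rfl
      | c =>
        right; left
        refine ⟨rfl, ?_⟩
        obtain ⟨a1, a2⟩ := a
        cases a2
        · exact Or.inl h1
        · exact Or.inr h1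
      | d => exact Or.inr (Or.inr ⟨rfl, h2⟩)
    · left; right
      rw [Finset.mem_image]
      refine ⟨z, ?_, ?_⟩
      · rw [Finset.mem_product]
        exact ⟨hzU, Finset.mem_univ _⟩
      · rw [I.Mc_symm _ _ hz]
        rfl
    · right
      rw [Finset.mem_image]
      refine ⟨(l, a.2), ?_, ?_⟩
      · rw [Finset.mem_product]
        exact ⟨hlU, Finset.mem_univ _⟩
      · simp only [I.Md_symm _ _ hl, Option.getD_some]
  refine (Finset.card_le_card hsub).trans ((Finset.card_union_le _ _).trans ?_)
  have c1 : (Sp ×ˢ (Finset.univ : Finset Bool)).card ≤ 2 * L := by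
    rw [Finset.card_product, Finset.card_univ, Fintype.card_bool]
    omega
  have c2 : ((U ×ˢ (Finset.univ : Finset Bool)).image (fun z => (I.Mc z).getD z)).card ≤ 2 * U.card := by
    refine Finset.card_image_le.trans ?_
    rw [Finset.card_product, Finset.card_univ, Fintype.card_bool]
    omega
  have c3 : ((U ×ˢ (Finset.univ : Finset Bool)).image (fun z => ((I.Md z.1).getD z.1, z.2))).card ≤
      2 * U.card := by
    refine Finset.card_image_le.trans ?_
    rw [Finset.card_product, Finset.card_univ, Fintype.card_bool]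
    omega
  have c4 := Finset.card_union_le (Sp ×ˢ (Finset.univ : Finset Bool))
    ((U ×ˢ (Finset.univ : Finset Bool)).image (fun z => (I.Mc z).getD z))
  omega

/-- the halves whose orbit meets `A` after `j` steps -/
noncomputable def p8B (I : Inst ι L) (U : Finset ι) (j : ℕ) : Finset (ι × Bool) :=
  Finset.univ.filter (fun y => ∃ a ∈ p8A I U, (p8g I)^[j] (some y) = some a)

theorem p8B_card (I : Inst ι L) (U : Finset ι) (j : ℕ) : (p8B I U j).card ≤ (p8A I U).card := by
  have h : (p8B I U j).card ≤ ((p8A I U).image some).card := by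
    apply Finset.card_le_card_of_injOn (fun y => (p8g I)^[j] (some y))
    · intro y hy
      have hy' : y ∈ p8B I U j := hy
      unfold p8B at hy'
      rw [Finset.mem_filter] at hy'
      obtain ⟨a, ha, h⟩ := hy'.2
      show (p8g I)^[j] (some y) ∈ (((p8A I U).image some : Finset (Option (ι × Bool))) : Set (Option (ι × Bool)))
      rw [h]
      exact Finset.mem_coe.2 (Finset.mem_image_of_mem _ ha)
    · intro y hy y' hy' h
      have hy2 : y ∈ p8B I U j := hy
      unfold p8B at hy2
      rw [Finset.mem_filter] at hy2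
      obtain ⟨a, ha, h2⟩ := hy2.2
      exact p8_inj I j h2 (by rw [← h2]; exact h.symm)
  exact h.trans Finset.card_image_le

theorem chain_bad (I : Inst ι L) (U : Finset ι) (r : ℕ) :
    (Finset.univ.filter (fun y : ι × Bool => y.1 ∉ U ∧ ¬ chainOK I r (insert y.1 U) y)).card ≤
      8 * (r + 2) * (U.card + L + 1) := by
  set O := Finset.univ.filter (fun x : ι × Bool => ∃ k, 1 ≤ k ∧ k ≤ r + 1 ∧
    (p8g I)^[k] (some x) = some x) with hO
  have hOL : O.card ≤ L * (r + 1) := I.orbits_le (r + 1)
  have hsub : Finset.univ.filter (fun y : ι × Bool => y.1 ∉ U ∧ ¬ chainOK I r (insert y.1 U) y) ⊆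
      O ∪ (Finset.range (r + 1)).biUnion (fun j => p8B I U j) := by
    intro y hy
    rw [Finset.mem_filter] at hy
    obtain ⟨j, hj, a, ha, hc⟩ := p8_fail I r _ y hy.2.2
    rw [Finset.mem_union]
    have hB : a ∈ p8A I U → y ∈ (Finset.range (r + 1)).biUnion (fun j => p8B I U j) := by
      intro haA
      rw [Finset.mem_biUnion]
      refine ⟨j, Finset.mem_range.2 (by omega), ?_⟩
      unfold p8B
      rw [Finset.mem_filter]
      exact ⟨Finset.mem_univ _, a, haA, ha⟩
    have key2 : ∀ l, (l ∈ insert y.1 U ∨ ∃ i, i ≤ j ∧ ∃ b, (p8g I)^[i] (some y) = some b ∧ b.1 = l) →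
        (l ∈ U ∨ ∃ i, i ≤ j ∧ ∃ b, (p8g I)^[i] (some y) = some b ∧ b.1 = l) := by
      intro l hl
      rcases hl with hl | hl
      · rcases Finset.mem_insert.1 hl with hl | hl
        · exact Or.inr ⟨0, Nat.zero_le _, y, rfl, hl.symm⟩
        · exact Or.inl hl
      · exact Or.inr hl
    rcases hc with hc | ⟨z, hz, hc⟩ | ⟨l, hl, hc⟩
    · right
      apply hB
      unfold p8A
      rw [Finset.mem_filter]
      exact ⟨Finset.mem_univ _, Or.inl hc⟩
    · rcases key2 _ hc with hU | ⟨i, hi, b, hb, hbz⟩
      · right
        apply hB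
        unfold p8A
        rw [Finset.mem_filter]
        exact ⟨Finset.mem_univ _, Or.inr (Or.inl ⟨z, hz, hU⟩)⟩
      · rcases eq_or_flip hbz with h3 | h3
        · exfalso
          rw [← h3] at hz
          obtain ⟨d, rfl⟩ := Nat.exists_eq_add_of_le hi
          exact p8_desc I y d i a b hb ha hz
        · left
          rw [hO, Finset.mem_filter]
          refine ⟨Finset.mem_univ _, ?_⟩
          have h4 : (p8g I)^[j + 1] (some y) = some b := by
            rw [Function.iterate_succ_apply', ha, p8g_of I hz, h3]
          obtain ⟨k, hk⟩ := Nat.exists_eq_add_of_le (show i ≤ j + 1 by omega)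
          rw [hk, Function.iterate_add_apply] at h4
          refine ⟨k, by omega, by omega, ?_⟩
          cases hw : (p8g I)^[k] (some y) with
          | none =>
            rw [hw, p8_none] at h4
            exact absurd h4 (by simp)
          | some w =>
            rw [hw] at h4
            rw [p8_inj I i h4 hb]
    · rcases key2 _ hc with hU | ⟨i, hi, b, hb, hbl⟩
      · right
        apply hB
        unfold p8A
        rw [Finset.mem_filter]
        exact ⟨Finset.mem_univ _, Or.inr (Or.inr ⟨l, hl, hU⟩)⟩
      · exfalso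
        have hk := I.Md_kind _ _ hl
        have hk2 := I.Md_kind _ _ (I.Md_symm _ _ hl)
        rcases Nat.lt_or_ge i j with hij | hij
        · obtain ⟨k, hk3⟩ := Nat.exists_eq_add_of_lt hij
          have h5 : (p8g I)^[k] ((p8g I)^[i + 1] (some y)) = some a := by
            rw [← Function.iterate_add_apply, show k + (i + 1) = j by omega]
            exact ha
          cases hw : (p8g I)^[i + 1] (some y) with
          | none =>
            rw [hw, p8_none] at h5
            exact absurd h5 (by simp)
          | some w =>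
            rw [Function.iterate_succ_apply', hb] at hw
            obtain ⟨x, hx, hMx⟩ := p8g_inv I hw
            have hxb := Option.some.inj hx
            rw [← hxb] at hMx
            have := (I.Mc_kind _ _ hMx).1
            rw [hbl, hk2.1] at this
            exact absurd this (by simp)
        · have hij' : i = j := le_antisymm hi hij
          rw [hij', ha] at hb
          have := Option.some.inj hb
          rw [← this] at hbl
          exact hk.2 hbl
  refine (Finset.card_le_card hsub).trans ((Finset.card_union_le _ _).trans ?_)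
  have h1 : ((Finset.range (r + 1)).biUnion (fun j => p8B I U j)).card ≤
      (r + 1) * (2 * L + 2 * U.card + 2 * U.card) := by
    refine Finset.card_biUnion_le.trans ?_
    calc ∑ j ∈ Finset.range (r + 1), (p8B I U j).card
        ≤ ∑ _j ∈ Finset.range (r + 1), (2 * L + 2 * U.card + 2 * U.card) :=
          Finset.sum_le_sum (fun j _ => (p8B_card I U j).trans (p8A_card I U))
      _ = _ := by rw [Finset.sum_const, Finset.card_range, smul_eq_mul]
  calc O.card + ((Finset.range (r + 1)).biUnion (fun j => p8B I U j)).card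
      ≤ L * (r + 1) + (r + 1) * (2 * L + 2 * U.card + 2 * U.card) := Nat.add_le_add hOL h1
    _ ≤ 8 * (r + 2) * (U.card + L + 1) := by nlinarith [Nat.zero_le (r * U.card), Nat.zero_le (r * L)]

end Pool.Agent.H38H
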