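import Pool.Agent.Lib.H38H.P6
import Pool.Agent.Lib.H38H.P8
import Pool.Agent.Lib.H38H.P9

/-!
Chunk SLP10 (M). The potential at a slot query.

Proof. `s.act = none`. If `s.pend = []` the state does not change and the average is constant. Let `s.pend = ν :: rest`. If `Pr` meets `s.K`
the right side is 0 and the left side is nonnegative (all weights and potentials are nonnegative). Otherwise
`Pr` is disjoint from `insert ν.e.1 s.K` by `hPr`. For `h' ∈ cyl s.K h` the new value is
`T + (if chainOK I ν.r (lk (insert ν.e.1 s.K) h') (ap h' ν.e) then wA ν.r * V ν.m else 0)` where `T` is the contribution of `rest` and `fin`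
(a constant). `lk (insert p s.K) h' = insert (ap h' ν.e).1 (lk s.K h)` for `p = ν.e.1` (`lk_congr`). By `avg_slot` (with `ν.e = (p, i)`)
the average of the indicator is the number of good halves outside `lk s.K h` divided by `2(n - |K|)`, at least
`1 - 8(r+2)(|K|+L+1)/(2(n-|K|)) ≥ 1 - eps` (`chain_bad`, `card_lk`, hypothesis `heps`). `wP = (1-eps) wA`.
-/

set_option autoImplicit false

namespace Pool.Agent.H38H

open Classical

variable {ι : Type} [Fintype ι] {L : ℕ}

theorem p10_wt_nonneg {eps lamf th : ℝ} (h1 : 0 ≤ 1 - eps) (h2 : 0 ≤ lamf) (h3 : 0 ≤ th)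
    {V Vf : List (Mv ι) → ℝ} (hV : ∀ m, 0 ≤ V m) (hVf : ∀ m, 0 ≤ Vf m) (s : PS ι) :
    0 ≤ Wt eps lamf th V Vf s := by
  have hA : ∀ r, 0 ≤ wA lamf th r := fun r => mul_nonneg h2 (pow_nonneg h3 r)
  have hP : ∀ r, 0 ≤ wP eps lamf th r := fun r => mul_nonneg h1 (hA r)
  unfold Wt
  refine add_nonneg (add_nonneg ?_ ?_) ?_
  · apply List.sum_nonneg
    intro x hx
    obtain ⟨ν, _, rfl⟩ := List.mem_map.1 hx
    exact mul_nonneg (hP _) (hV _)
  · cases s.act with
    | none => exact le_rfl
    | some ν => exact mul_nonneg (hA _) (hV _)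
  · apply List.sum_nonneg
    intro x hx
    obtain ⟨ν, _, rfl⟩ := List.mem_map.1 hx
    exact hVf _

theorem wd_nonneg {Pr : Finset ι} {eps lamf th : ℝ} (h1 : 0 ≤ 1 - eps) (h2 : 0 ≤ lamf) (h3 : 0 ≤ th)
    {V Vf : List (Mv ι) → ℝ} (hV : ∀ m, 0 ≤ V m) (hVf : ∀ m, 0 ≤ Vf m) (s : PS ι) :
    0 ≤ Wd Pr eps lamf th V Vf s := by
  unfold Wd
  split_ifs
  · exact p10_wt_nonneg h1 h2 h3 hV hVf s
  · exact le_rfl

theorem wd_slot {I : Inst ι L} {K0 : Finset ι} {x0 : ι × Bool} {D : ℕ} {Av Pr : Finset ι} {h : SB ι}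
    {s : PS ι} (P : PInv I K0 x0 D Av h s) (ha : s.act = none) {eps lamf th : ℝ} (h1 : 0 ≤ 1 - eps)
    (h2 : 0 ≤ lamf) (h3 : 0 ≤ th) {V Vf : List (Mv ι) → ℝ} (hV : ∀ m, 0 ≤ V m) (hVf : ∀ m, 0 ≤ Vf m)
    (hPr : ∀ ν ∈ s.pend ++ s.fin, ν.e.1 ∉ Pr)
    (hn : 2 * s.K.card < Fintype.card ι)
    (heps : 8 * ((D : ℝ) + 2) * (s.K.card + L + 1) ≤ eps * Fintype.card ι) :
    Wd Pr eps lamf th V Vf s ≤ avg s.K h (fun h' => Wd Pr eps lamf th V Vf (pstep I Av h' s)) := by
  cases hp : s.pend with
  | nil =>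
    have h4 : ∀ h', pstep I Av h' s = s := by
      intro h'
      simp only [pstep, ha, hp]
    simp only [h4]
    rw [avg_const]
  | cons ν rest =>
    have h4 : ∀ h', pstep I Av h' s = ⟨insert ν.e.1 s.K,
        if chainOK I ν.r (lk (insert ν.e.1 s.K) h') (ap h' ν.e) then some ν else none, rest, s.fin⟩ := by
      intro h'
      simp only [pstep, ha, hp]
    have hmem : ν ∈ s.pend ++ s.fin := by
      rw [hp]
      simp
    have hK := P.unk ν hmem
    have hr : ν.m.length + ν.r = D := P.lenp ν (by rw [hp]; simp)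
    by_cases hd : Disjoint Pr s.K
    · have hd2 : Disjoint Pr (insert ν.e.1 s.K) := by
        rw [Finset.disjoint_insert_right]
        exact ⟨hPr ν hmem, hd⟩
      have hW0 : 0 ≤ wA lamf th ν.r * V ν.m := mul_nonneg (mul_nonneg h2 (pow_nonneg h3 _)) (hV _)
      obtain ⟨W, hW⟩ : ∃ W : ℝ, W = wA lamf th ν.r * V ν.m := ⟨_, rfl⟩
      obtain ⟨T, hT⟩ : ∃ T : ℝ, T = (rest.map (fun ν => wP eps lamf th ν.r * V ν.m)).sum +
        (s.fin.map (fun ν => Vf ν.m)).sum := ⟨_, rfl⟩
      rw [← hW] at hW0
      obtain ⟨G, hG⟩ : ∃ G : ι × Bool → ℝ, G = fun y =>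
        if chainOK I ν.r (insert y.1 (lk s.K h)) y then 0 else 1 := ⟨_, rfl⟩
      have hL : Wd Pr eps lamf th V Vf s = T + (1 - eps) * W := by
        unfold Wd
        rw [if_pos hd]
        unfold Wt
        rw [ha, hp]
        simp only [List.map_cons, List.sum_cons, Option.elim_none]
        rw [hT, hW]
        unfold wP wA
        ring
      have hR : ∀ h' ∈ cyl s.K h, Wd Pr eps lamf th V Vf (pstep I Av h' s) =
          (T + W) + (-W) * G (ap h' ν.e) := by
        intro h' hh'
        rw [h4]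
        have hlk : lk (insert ν.e.1 s.K) h' = insert (ap h' ν.e).1 (lk s.K h) := by
          rw [← lk_congr hh']
          unfold lk
          rw [Finset.image_insert, ap_fst]
        have hWd : Wd Pr eps lamf th V Vf (⟨insert ν.e.1 s.K,
          if chainOK I ν.r (lk (insert ν.e.1 s.K) h') (ap h' ν.e) then some ν else none, rest, s.fin⟩ : PS ι) =
            (rest.map (fun ν => wP eps lamf th ν.r * V ν.m)).sum +
            (if chainOK I ν.r (lk (insert ν.e.1 s.K) h') (ap h' ν.e) then some ν else none).elim 0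
              (fun ν => wA lamf th ν.r * V ν.m) + (s.fin.map (fun ν => Vf ν.m)).sum := by
          unfold Wd
          rw [if_pos (show Disjoint Pr (insert ν.e.1 s.K) from hd2)]
          rfl
        rw [hWd, hG]
        by_cases hc : chainOK I ν.r (lk (insert ν.e.1 s.K) h') (ap h' ν.e)
        · rw [if_pos hc]
          rw [hlk] at hc
          simp only [if_pos hc, Option.elim_some]
          rw [hT, hW]
          ring
        · rw [if_neg hc]
          rw [hlk] at hc
          simp only [if_neg hc, Option.elim_none]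
          rw [hT]
          ring
      rw [hL, avg_congr hR, avg_add, avg_const, avg_smul]
      have hG1 : avg s.K h (fun h' => G (ap h' ν.e)) =
          (∑ y ∈ Finset.univ.filter (fun y : ι × Bool => y.1 ∉ lk s.K h), G y) /
            (2 * ((Fintype.card ι : ℝ) - s.K.card)) := avg_slot (h := h) hK ν.e.2 G
      have hsum : ∑ y ∈ Finset.univ.filter (fun y : ι × Bool => y.1 ∉ lk s.K h), G y =
          ((Finset.univ.filter (fun y : ι × Bool => y.1 ∉ lk s.K h ∧
            ¬ chainOK I ν.r (insert y.1 (lk s.K h)) y)).card : ℝ) := by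
        rw [Finset.card_filter, Finset.sum_filter, hG]
        push_cast
        apply Finset.sum_congr rfl
        intro y _
        by_cases q1 : y.1 ∈ lk s.K h
        · simp [q1]
        · by_cases q2 : chainOK I ν.r (insert y.1 (lk s.K h)) y
          · simp [q1, q2]
          · simp [q1, q2]
      have hbad := chain_bad I (lk s.K h) ν.r
      rw [card_lk] at hbad
      have hbad2 : ((Finset.univ.filter (fun y : ι × Bool => y.1 ∉ lk s.K h ∧
            ¬ chainOK I ν.r (insert y.1 (lk s.K h)) y)).card : ℝ) ≤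
          8 * ((ν.r : ℝ) + 2) * ((s.K.card : ℝ) + L + 1) := by exact_mod_cast hbad
      have hrD : (ν.r : ℝ) ≤ D := by
        have : ν.r ≤ D := by omega
        exact_mod_cast this
      have hnr : 2 * (s.K.card : ℝ) < (Fintype.card ι : ℝ) := by exact_mod_cast hn
      have hK0 : (0 : ℝ) ≤ (s.K.card : ℝ) := Nat.cast_nonneg _
      have hL0 : (0 : ℝ) ≤ (L : ℝ) := Nat.cast_nonneg _
      have hn0 : (0 : ℝ) < (Fintype.card ι : ℝ) := by linarith
      have hmon : 8 * ((ν.r : ℝ) + 2) * ((s.K.card : ℝ) + L + 1) ≤ eps * (Fintype.card ι : ℝ) := by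
        refine le_trans ?_ heps
        gcongr
      have heps0 : 0 ≤ eps := by
        have h5 : 0 ≤ eps * (Fintype.card ι : ℝ) := by
          refine le_trans ?_ hmon
          positivity
        by_contra h6
        push Not at h6
        have := mul_neg_of_neg_of_pos h6 hn0
        linarith
      have hA : avg s.K h (fun h' => G (ap h' ν.e)) ≤ eps := by
        rw [hG1, hsum, div_le_iff₀ (by linarith)]
        have h6 : eps * (Fintype.card ι : ℝ) ≤ eps * (2 * ((Fintype.card ι : ℝ) - s.K.card)) :=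
          mul_le_mul_of_nonneg_left (by linarith) heps0
        linarith
      have h7 : W * avg s.K h (fun h' => G (ap h' ν.e)) ≤ W * eps := mul_le_mul_of_nonneg_left hA hW0
      linarith
    · have h5 : Wd Pr eps lamf th V Vf s = 0 := by
        unfold Wd
        rw [if_neg hd]
      rw [h5]
      exact avg_nonneg (fun h' _ => wd_nonneg h1 h2 h3 hV hVf _)

end Pool.Agent.H38H
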