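import Pool.Agent.Lib.H38H.P6
import Pool.Agent.Lib.H38H.P9

/-!
Chunk SLP11 (M/L). The potential at the link query of a c-link.

Proof. `s.act = some ν`, `I.Mc (ap h ν.e) = some y`; `y.1 ∉ lk s.K h` (chain condition). If `Pr` meets `s.K` the right side of the
claim is 0, the left side nonnegative. Otherwise let `u = n - |s.K|`, `w = pa h' y`: uniform among the `2u` positions with `w.1 ∉ s.K` (`avg_link`; for
`h' ∈ cyl s.K h` the content `ap h' ν.e` is the same, so `I.Mc (ap h' ν.e) = some y`).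
New value for `w` with `w.1 ∉ Pr` (0 otherwise): the old nodes `μ` of `pend`, `fin` with `μ.e.1 ≠ w.1`; the new child (`addc`); the new active node
if `ν.r ≠ 0`. Old node `μ`: it survives for all `w` except those with `w.1 = μ.e.1` or `w.1 ∈ Pr`: at most `2 (1 + |Pr|)` of the `2u` positions: factor
`1 - (1+|Pr|)/u ≥ 1 - 2(1+|Pr|)/n` as `u ≥ n/2`. New child: let `B = s.K ∪ s.slots ∪ Av ∪ Pr`, `|B| ≤ E`, it contains `K0`, `x0.1`, `slotsOf ν.m`. If
`outer w = some x'` with `w.1 ∉ B`, `x'.1 ∉ B`, `x'.1 ≠ w.1` the child is added (the slots of `locate s w` are among those of `s`), with value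
`wP (ν.r-1) * V ((w,x')::ν.m)` or `Vf ((w,x')::ν.m)` if `ν.r = 0`. So the sum over `w` is at least `wP * outSum I B ..` resp. `outSum I B Vf..`,
at least `lam * V ν.m * wP (ν.r-1) * 2n` (`Pot.out`, `Pot.outf`), and dividing by `2u ≤ 2n` gives at least `lam * V ν.m * wP (ν.r - 1)`.
New active node: `wA (ν.r-1) * midSum B .. / 2u ≥ lam * V ν.m * wA (ν.r-1)`. Since `th = 2 * lam * (1-eps)`:
`lam * (wP (r-1) + wA (r-1)) = lam * (2 - eps) * lamf * th^(r-1) ≥ lamf * th^r`. For `ν.r = 0`: `lamf * V ν.m = wA 0 * V ν.m`.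
-/

set_option autoImplicit false

namespace Pool.Agent.H38H

open Classical

variable {ι : Type} [Fintype ι] {L : ℕ}

/-- the potential without the active node -/
noncomputable def p11_U (eps lamf th : ℝ) (V Vf : List (Mv ι) → ℝ) (s : PS ι) : ℝ :=
  (s.pend.map (fun ν => wP eps lamf th ν.r * V ν.m)).sum + (s.fin.map (fun ν => Vf ν.m)).sum

/-- the value of a child -/
noncomputable def p11_c (eps lamf th : ℝ) (V Vf : List (Mv ι) → ℝ) (ν : Nd ι) (a : Mv ι) : ℝ :=
  if ν.r = 0 then Vf (a :: ν.m) else wP eps lamf th (ν.r - 1) * V (a :: ν.m)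

theorem p11_Wt (eps lamf th : ℝ) (V Vf : List (Mv ι) → ℝ) (s : PS ι) :
    Wt eps lamf th V Vf s = p11_U eps lamf th V Vf s +
      s.act.elim 0 (fun ν => wA lamf th ν.r * V ν.m) := by
  unfold Wt p11_U
  ring

theorem p11_wA_nn {lamf th : ℝ} (h2 : 0 ≤ lamf) (h3 : 0 ≤ th) (r : ℕ) : 0 ≤ wA lamf th r :=
  mul_nonneg h2 (pow_nonneg h3 r)

theorem p11_wP_nn {eps lamf th : ℝ} (h1 : 0 ≤ 1 - eps) (h2 : 0 ≤ lamf) (h3 : 0 ≤ th) (r : ℕ) :
    0 ≤ wP eps lamf th r :=
  mul_nonneg h1 (mul_nonneg h2 (pow_nonneg h3 r))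

theorem p11_list_nn {α : Type} (l : List α) {f : α → ℝ} (hf : ∀ a, 0 ≤ f a) : 0 ≤ (l.map f).sum := by
  apply List.sum_nonneg
  intro x hx
  obtain ⟨a, -, rfl⟩ := List.mem_map.1 hx
  exact hf a

theorem p11_U_nn {eps lamf th : ℝ} (h1 : 0 ≤ 1 - eps) (h2 : 0 ≤ lamf) (h3 : 0 ≤ th)
    {V Vf : List (Mv ι) → ℝ} (hV : ∀ m, 0 ≤ V m) (hVf : ∀ m, 0 ≤ Vf m) (s : PS ι) :
    0 ≤ p11_U eps lamf th V Vf s :=
  add_nonneg (p11_list_nn _ fun ν => mul_nonneg (p11_wP_nn h1 h2 h3 _) (hV _))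
    (p11_list_nn _ fun ν => hVf _)

theorem p11_Wt_nn {eps lamf th : ℝ} (h1 : 0 ≤ 1 - eps) (h2 : 0 ≤ lamf) (h3 : 0 ≤ th)
    {V Vf : List (Mv ι) → ℝ} (hV : ∀ m, 0 ≤ V m) (hVf : ∀ m, 0 ≤ Vf m) (s : PS ι) :
    0 ≤ Wt eps lamf th V Vf s := by
  rw [p11_Wt]
  refine add_nonneg (p11_U_nn h1 h2 h3 hV hVf s) ?_
  cases s.act with
  | none => exact le_refl _
  | some ν => exact mul_nonneg (p11_wA_nn h2 h3 _) (hV _)

theorem p11_Wd_nn {Pr : Finset ι} {eps lamf th : ℝ} (h1 : 0 ≤ 1 - eps) (h2 : 0 ≤ lamf) (h3 : 0 ≤ th)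
    {V Vf : List (Mv ι) → ℝ} (hV : ∀ m, 0 ≤ V m) (hVf : ∀ m, 0 ≤ Vf m) (s : PS ι) :
    0 ≤ Wd Pr eps lamf th V Vf s := by
  unfold Wd
  split_ifs
  · exact p11_Wt_nn h1 h2 h3 hV hVf s
  · exact le_refl _

theorem p11_c_nn {eps lamf th : ℝ} (h1 : 0 ≤ 1 - eps) (h2 : 0 ≤ lamf) (h3 : 0 ≤ th)
    {V Vf : List (Mv ι) → ℝ} (hV : ∀ m, 0 ≤ V m) (hVf : ∀ m, 0 ≤ Vf m) (ν : Nd ι) (a : Mv ι) :
    0 ≤ p11_c eps lamf th V Vf ν a := by
  unfold p11_c
  split_ifs
  · exact hVf _
  · exact mul_nonneg (p11_wP_nn h1 h2 h3 _) (hV _)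

theorem p11_addc (I : Inst ι L) (Av : Finset ι) (eps lamf th : ℝ) (V Vf : List (Mv ι) → ℝ) (s : PS ι)
    (ν : Nd ι) (w : ι × Bool) :
    p11_U eps lamf th V Vf (addc I Av s ν w) = p11_U eps lamf th V Vf s +
      (I.outer w).elim 0 (fun x' => if x'.1 ∈ s.K ∨ x'.1 ∈ Av ∨ x'.1 ∈ s.slots then 0
        else p11_c eps lamf th V Vf ν (w, x')) := by
  unfold addc
  cases hI : I.outer w with
  | none => simp
  | some x' =>
    simp only [Option.elim_some]
    by_cases hc : x'.1 ∈ s.K ∨ x'.1 ∈ Av ∨ x'.1 ∈ s.slots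
    · rw [if_pos hc, if_pos hc, add_zero]
    · rw [if_neg hc, if_neg hc]
      unfold p11_c
      by_cases hr : ν.r = 0
      · rw [if_pos hr, if_pos hr]
        unfold p11_U
        simp only [List.map_cons, List.sum_cons]
        ring
      · rw [if_neg hr, if_neg hr]
        unfold p11_U
        simp only [List.map_cons, List.sum_cons]
        ring

theorem p11_mem_slots {s : PS ι} {p : ι} : p ∈ s.slots ↔ ∃ μ ∈ s.pend ++ s.fin, μ.e.1 = p := by
  unfold PS.slots
  rw [List.mem_toFinset, List.mem_map]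

theorem p11_slots_locate (s : PS ι) (w : ι × Bool) : (locate s w).slots ⊆ s.slots := by
  intro p hp
  rw [p11_mem_slots] at hp ⊢
  obtain ⟨μ, hμ, e⟩ := hp
  refine ⟨μ, ?_, e⟩
  unfold locate at hμ
  simp only [List.mem_append, List.mem_filter] at hμ ⊢
  rcases hμ with h | h
  · exact Or.inl h.1
  · exact Or.inr h.1

theorem p11_slots_addc {I : Inst ι L} {Av : Finset ι} {s : PS ι} {ν : Nd ι} {w : ι × Bool} {p : ι}
    (hp : p ∈ (addc I Av s ν w).slots) : p ∈ s.slots ∨ ∃ x', I.outer w = some x' ∧ x'.1 = p := by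
  unfold addc at hp
  cases hI : I.outer w with
  | none =>
    rw [hI] at hp
    exact Or.inl hp
  | some x' =>
    rw [hI] at hp
    simp only at hp
    split_ifs at hp with h1 h2
    · exact Or.inl hp
    · rw [p11_mem_slots] at hp
      obtain ⟨μ, hμ, e⟩ := hp
      simp only [List.mem_append, List.mem_cons] at hμ
      rcases hμ with h | h | h
      · exact Or.inl (p11_mem_slots.2 ⟨μ, List.mem_append.2 (Or.inl h), e⟩)
      · refine Or.inr ⟨x', rfl, ?_⟩
        rw [h] at e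
        exact e
      · exact Or.inl (p11_mem_slots.2 ⟨μ, List.mem_append.2 (Or.inr h), e⟩)
    · rw [p11_mem_slots] at hp
      obtain ⟨μ, hμ, e⟩ := hp
      simp only [List.mem_append, List.mem_cons] at hμ
      rcases hμ with (h | h) | h
      · refine Or.inr ⟨x', rfl, ?_⟩
        rw [h] at e
        exact e
      · exact Or.inl (p11_mem_slots.2 ⟨μ, List.mem_append.2 (Or.inl h), e⟩)
      · exact Or.inl (p11_mem_slots.2 ⟨μ, List.mem_append.2 (Or.inr h), e⟩)

theorem p11_card (Q : Finset ι) :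
    ((Finset.univ.filter (fun w : ι × Bool => w.1 ∉ Q)).card : ℝ) =
      2 * ((Fintype.card ι : ℝ) - Q.card) := by
  have h1 : Finset.univ.filter (fun w : ι × Bool => w.1 ∉ Q) = Qᶜ ×ˢ Finset.univ := by
    ext w
    simp
  rw [h1, Finset.card_product, Finset.card_compl, Finset.card_univ, Fintype.card_bool]
  push_cast
  rw [Nat.cast_sub (Finset.card_le_univ Q)]
  ring

/-- the sum over the positions of the surviving nodes of a list -/
theorem p11_list (A : Finset (ι × Bool)) (c : ℝ) (l : List (Nd ι)) {f : Nd ι → ℝ} (hf : ∀ μ, 0 ≤ f μ)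
    (hc : ∀ p : ι, c ≤ ((A.filter (fun w => p ≠ w.1)).card : ℝ)) :
    c * (l.map f).sum ≤ ∑ w ∈ A, ((l.filter (fun μ => μ.e.1 ≠ w.1)).map f).sum := by
  induction l with
  | nil => simp
  | cons μ l ih =>
    have h1 : ∀ w : ι × Bool, (((μ :: l).filter (fun μ => μ.e.1 ≠ w.1)).map f).sum =
        (if μ.e.1 ≠ w.1 then f μ else 0) + ((l.filter (fun μ => μ.e.1 ≠ w.1)).map f).sum := by
      intro w
      rw [List.filter_cons]
      by_cases h : μ.e.1 ≠ w.1
      · simp [h]
      · simp [h]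
    simp only [h1]
    rw [Finset.sum_add_distrib, ← Finset.sum_filter, Finset.sum_const, nsmul_eq_mul, List.map_cons,
      List.sum_cons, mul_add]
    exact add_le_add (mul_le_mul_of_nonneg_right (hc _) (hf μ)) ih

/-- the surviving nodes -/
theorem p11_old {eps lamf th : ℝ} (h1 : 0 ≤ 1 - eps) (h2 : 0 ≤ lamf) (h3 : 0 ≤ th)
    {V Vf : List (Mv ι) → ℝ} (hV : ∀ m, 0 ≤ V m) (hVf : ∀ m, 0 ≤ Vf m) (s : PS ι) (Pr : Finset ι)
    (hn : 2 * s.K.card < Fintype.card ι) :
    (1 - 2 * (1 + (Pr.card : ℝ)) / Fintype.card ι) * (2 * ((Fintype.card ι : ℝ) - s.K.card)) *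
      p11_U eps lamf th V Vf s ≤
      ∑ w ∈ Finset.univ.filter (fun w : ι × Bool => w.1 ∉ s.K),
        if w.1 ∈ Pr then 0 else p11_U eps lamf th V Vf (locate s w) := by
  have hnR : 2 * (s.K.card : ℝ) < Fintype.card ι := by exact_mod_cast hn
  have hn0 : (0 : ℝ) < Fintype.card ι := lt_of_le_of_lt (by positivity) hnR
  set A := Finset.univ.filter (fun w : ι × Bool => w.1 ∉ s.K ∪ Pr) with hA
  have hc : ∀ p : ι, (1 - 2 * (1 + (Pr.card : ℝ)) / Fintype.card ι) *
      (2 * ((Fintype.card ι : ℝ) - s.K.card)) ≤ ((A.filter (fun w => p ≠ w.1)).card : ℝ) := by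
    intro p
    have e1 : A.filter (fun w => p ≠ w.1) =
        Finset.univ.filter (fun w : ι × Bool => w.1 ∉ insert p (s.K ∪ Pr)) := by
      ext w
      simp only [hA, Finset.mem_filter, Finset.mem_univ, true_and, Finset.mem_insert, not_or, ne_eq]
      constructor
      · rintro ⟨a, b⟩
        exact ⟨fun h => b h.symm, a⟩
      · rintro ⟨a, b⟩
        exact ⟨b, fun h => a h.symm⟩
    rw [e1, p11_card]
    have e2 : ((insert p (s.K ∪ Pr)).card : ℝ) ≤ s.K.card + Pr.card + 1 := by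
      have := (Finset.card_insert_le p (s.K ∪ Pr)).trans
        (Nat.add_le_add_right (Finset.card_union_le s.K Pr) 1)
      exact_mod_cast this
    have e3 : 2 * (1 + (Pr.card : ℝ)) / Fintype.card ι * ((Fintype.card ι : ℝ) - s.K.card) ≥
        1 + Pr.card := by
      rw [ge_iff_le, div_mul_eq_mul_div, le_div_iff₀ hn0]
      have : (0 : ℝ) ≤ 1 + Pr.card := by positivity
      nlinarith
    nlinarith
  have e4 : ∑ w ∈ Finset.univ.filter (fun w : ι × Bool => w.1 ∉ s.K),
        (if w.1 ∈ Pr then 0 else p11_U eps lamf th V Vf (locate s w)) =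
      ∑ w ∈ A, p11_U eps lamf th V Vf (locate s w) := by
    have e5 : A = (Finset.univ.filter (fun w : ι × Bool => w.1 ∉ s.K)).filter
        (fun w => w.1 ∉ Pr) := by
      ext w
      simp only [hA, Finset.mem_filter, Finset.mem_univ, true_and, Finset.mem_union, not_or]
    conv_rhs => rw [e5, Finset.sum_filter]
    refine Finset.sum_congr rfl fun w _ => ?_
    by_cases h : w.1 ∈ Pr <;> simp [h]
  rw [e4]
  have e6 := p11_list A _ s.pend (f := fun ν => wP eps lamf th ν.r * V ν.m)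
    (fun ν => mul_nonneg (p11_wP_nn h1 h2 h3 _) (hV _)) hc
  have e7 := p11_list A _ s.fin (f := fun ν => Vf ν.m) (fun ν => hVf _) hc
  unfold p11_U locate
  rw [mul_add, Finset.sum_add_distrib]
  exact add_le_add e6 e7

/-- the common part of the two link queries -/
theorem p11_main {eps lamf th : ℝ} (h1 : 0 ≤ 1 - eps) (h2 : 0 ≤ lamf) (h3 : 0 ≤ th)
    {V Vf : List (Mv ι) → ℝ} (hV : ∀ m, 0 ≤ V m) (hVf : ∀ m, 0 ≤ Vf m) (s : PS ι) (Pr : Finset ι)
    (hn : 2 * s.K.card < Fintype.card ι) (hq : 2 * (1 + (Pr.card : ℝ)) ≤ Fintype.card ι)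
    {Φ N : ι × Bool → ℝ} {a : ℝ} (ha : 0 ≤ a) (hN0 : ∀ w, w.1 ∈ s.K → N w = 0)
    (hΦ : ∀ w, w.1 ∉ s.K → w.1 ∉ Pr → p11_U eps lamf th V Vf (locate s w) + N w ≤ Φ w)
    (hΦ0 : ∀ w, w.1 ∉ s.K → w.1 ∈ Pr → N w ≤ Φ w)
    (hS : a * (2 * (Fintype.card ι : ℝ)) ≤ ∑ w, N w) :
    (1 - 2 * (1 + (Pr.card : ℝ)) / Fintype.card ι) * (p11_U eps lamf th V Vf s + a) ≤
      (∑ w ∈ Finset.univ.filter (fun w : ι × Bool => w.1 ∉ s.K), Φ w) /
        (2 * ((Fintype.card ι : ℝ) - s.K.card)) := by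
  have hnR : 2 * (s.K.card : ℝ) < Fintype.card ι := by exact_mod_cast hn
  have hk0 : (0 : ℝ) ≤ s.K.card := by positivity
  have hn0 : (0 : ℝ) < Fintype.card ι := lt_of_le_of_lt (by positivity) hnR
  have hu : (0 : ℝ) < 2 * ((Fintype.card ι : ℝ) - s.K.card) := by linarith
  rw [le_div_iff₀ hu]
  have e1 := p11_old h1 h2 h3 hV hVf s Pr hn
  have e2 : ∑ w ∈ Finset.univ.filter (fun w : ι × Bool => w.1 ∉ s.K), N w = ∑ w, N w := by
    rw [Finset.sum_filter]
    refine Finset.sum_congr rfl fun w _ => ?_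
    by_cases h : w.1 ∈ s.K
    · simp [h, hN0 w h]
    · simp [h]
  have e3 : (∑ w ∈ Finset.univ.filter (fun w : ι × Bool => w.1 ∉ s.K),
        if w.1 ∈ Pr then 0 else p11_U eps lamf th V Vf (locate s w)) +
      ∑ w ∈ Finset.univ.filter (fun w : ι × Bool => w.1 ∉ s.K), N w ≤
      ∑ w ∈ Finset.univ.filter (fun w : ι × Bool => w.1 ∉ s.K), Φ w := by
    rw [← Finset.sum_add_distrib]
    refine Finset.sum_le_sum fun w hw => ?_
    have hw' := (Finset.mem_filter.1 hw).2
    by_cases h : w.1 ∈ Pr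
    · rw [if_pos h, zero_add]
      exact hΦ0 w hw' h
    · rw [if_neg h]
      exact hΦ w hw' h
  rw [e2] at e3
  have e4 : (1 - 2 * (1 + (Pr.card : ℝ)) / Fintype.card ι) ≤ 1 := by
    have : 0 ≤ 2 * (1 + (Pr.card : ℝ)) / Fintype.card ι := by positivity
    linarith
  have e5 : (1 - 2 * (1 + (Pr.card : ℝ)) / Fintype.card ι) * a *
      (2 * ((Fintype.card ι : ℝ) - s.K.card)) ≤ a * (2 * (Fintype.card ι : ℝ)) := by
    calc (1 - 2 * (1 + (Pr.card : ℝ)) / Fintype.card ι) * a *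
          (2 * ((Fintype.card ι : ℝ) - s.K.card))
        ≤ 1 * a * (2 * ((Fintype.card ι : ℝ) - s.K.card)) :=
          mul_le_mul_of_nonneg_right (mul_le_mul_of_nonneg_right e4 ha) hu.le
      _ ≤ a * (2 * (Fintype.card ι : ℝ)) := by
          rw [one_mul]
          exact mul_le_mul_of_nonneg_left (by linarith) ha
  calc (1 - 2 * (1 + (Pr.card : ℝ)) / Fintype.card ι) * (p11_U eps lamf th V Vf s + a) *
        (2 * ((Fintype.card ι : ℝ) - s.K.card))
      = (1 - 2 * (1 + (Pr.card : ℝ)) / Fintype.card ι) * (2 * ((Fintype.card ι : ℝ) - s.K.card)) *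
          p11_U eps lamf th V Vf s + (1 - 2 * (1 + (Pr.card : ℝ)) / Fintype.card ι) * a *
          (2 * ((Fintype.card ι : ℝ) - s.K.card)) := by ring
    _ ≤ _ := (add_le_add e1 (e5.trans hS)).trans e3

theorem wd_c {I : Inst ι L} {K0 : Finset ι} {x0 : ι × Bool} {D E : ℕ} {Av Pr : Finset ι} {h : SB ι}
    {s : PS ι} (P : PInv I K0 x0 D Av h s) {ν : Nd ι} (ha : s.act = some ν) {y : ι × Bool}
    (hy : I.Mc (ap h ν.e) = some y) {eps lam lamf : ℝ} (h0 : 0 ≤ eps) (h1 : eps ≤ 1) (h2 : 0 ≤ lam) (h3 : 0 ≤ lamf)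
    {V Vf : List (Mv ι) → ℝ} (hP : Pot I K0 x0 E lam lamf V Vf)
    (hPr : ∀ μ ∈ s.pend ++ s.fin, μ.e.1 ∉ Pr)
    (hn : 2 * s.K.card < Fintype.card ι)
    (hE : s.K.card + s.slots.card + Av.card + Pr.card + 2 * L ≤ E)
    (hq : 2 * (1 + (Pr.card : ℝ)) ≤ Fintype.card ι) :
    (1 - 2 * (1 + (Pr.card : ℝ)) / Fintype.card ι) * Wd Pr eps lamf (2 * lam * (1 - eps)) V Vf s ≤
      avg s.K h (fun h' => Wd Pr eps lamf (2 * lam * (1 - eps)) V Vf (pstep I Av h' s)) := by
  have he1 : 0 ≤ 1 - eps := by linarith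
  set th := 2 * lam * (1 - eps) with hth
  have hth0 : 0 ≤ th := by positivity
  by_cases hD : Disjoint Pr s.K
  swap
  · have e1 : Wd Pr eps lamf th V Vf s = 0 := by
      unfold Wd
      rw [if_neg hD]
    rw [e1, mul_zero]
    exact avg_nonneg fun h' _ => p11_Wd_nn he1 h3 hth0 hP.nn hP.nnf _
  obtain ⟨a1, -, -, a4, a5, a6, a7⟩ := P.actv ν ha
  have hyl : y.1 ∉ lk s.K h := by
    have hmd := Mc_Md I hy
    cases hr : ν.r with
    | zero =>
      rw [hr] at a7
      unfold chainOK at a7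
      rcases a7 with ⟨z, b1, b2⟩ | ⟨l, b1, -⟩
      · rw [hy] at b1
        cases b1
        exact b2
      · rw [hmd] at b1
        cases b1
    | succ r =>
      rw [hr] at a7
      unfold chainOK at a7
      rcases a7 with ⟨z, b1, b2, -⟩ | ⟨l, b1, -⟩
      · rw [hy] at b1
        cases b1
        exact b2
      · rw [hmd] at b1
        cases b1
  -- the value as a function of the position of the partner
  set G : ι × Bool → PS ι := fun w => if ν.r = 0 then addc I Av (locate s w) ν w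
    else { addc I Av (locate s w) ν w with act := some ⟨flip w, (w, flip w) :: ν.m, ν.r - 1⟩ } with hG
  have hstep : ∀ h' ∈ cyl s.K h, pstep I Av h' s = G (pa h' (y.1, y.2)) := by
    intro h' hh'
    have e1 : ap h' ν.e = ap h ν.e := ap_congr hh' a1
    unfold pstep
    rw [ha]
    simp only [e1, hy]
    rfl
  have havg : avg s.K h (fun h' => Wd Pr eps lamf th V Vf (pstep I Av h' s)) =
      avg s.K h (fun h' => Wd Pr eps lamf th V Vf (G (pa h' (y.1, y.2)))) :=
    avg_congr fun h' hh' => by rw [hstep h' hh']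
  rw [havg, avg_link hyl y.2 (fun w => Wd Pr eps lamf th V Vf (G w))]
  have hWs : Wd Pr eps lamf th V Vf s = p11_U eps lamf th V Vf s + wA lamf th ν.r * V ν.m := by
    unfold Wd
    rw [if_pos hD, p11_Wt, ha]
    rfl
  rw [hWs]
  set B : Finset ι := s.K ∪ s.slots ∪ Av ∪ Pr with hB
  have hKB : s.K ⊆ B := fun p hp => by simp [hB, hp]
  have hBc : B.card ≤ E := by
    have b1 := Finset.card_union_le (s.K ∪ s.slots ∪ Av) Pr
    have b2 := Finset.card_union_le (s.K ∪ s.slots) Av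
    have b3 := Finset.card_union_le s.K s.slots
    have b4 : B.card = (s.K ∪ s.slots ∪ Av ∪ Pr).card := rfl
    omega
  have hK0B : K0 ⊆ B := P.sub.trans hKB
  have hmB : ∀ p ∈ x0.1 :: slotsOf ν.m, p ∈ B := by
    intro p hp
    rcases List.mem_cons.1 hp with hp | hp
    · rw [hp]
      exact hKB a6
    · exact hKB (a5 p hp)
  set N : ι × Bool → ℝ := fun w => (I.outer w).elim 0
      (fun x' => if w.1 ∉ B ∧ x'.1 ∉ B ∧ x'.1 ≠ w.1 then p11_c eps lamf th V Vf ν (w, x') else 0) +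
    (if ν.r = 0 then 0 else if w.1 ∉ B then wA lamf th (ν.r - 1) * V ((w, flip w) :: ν.m) else 0)
    with hN
  have hNB : ∀ w : ι × Bool, w.1 ∈ B → N w = 0 := by
    intro w hw
    rw [hN]
    simp only [hw, not_true_eq_false, false_and, if_false, ite_self, add_zero]
    cases I.outer w <;> rfl
  have hGK : ∀ w, (G w).K = insert w.1 s.K := by
    intro w
    rw [hG]
    simp only
    split_ifs
    · exact (addc_K I Av _ ν w).1
    · exact (addc_K I Av _ ν w).1
  refine p11_main he1 h3 hth0 hP.nn hP.nnf s Pr hn hq (N := N)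
    (mul_nonneg (p11_wA_nn h3 hth0 _) (hP.nn _)) (fun w hw => hNB w (hKB hw)) ?_ ?_ ?_
  · intro w hw hwP
    have e1 : Disjoint Pr (G w).K := by
      rw [hGK, Finset.disjoint_insert_right]
      exact ⟨hwP, hD⟩
    have e2 : Wd Pr eps lamf th V Vf (G w) = Wt eps lamf th V Vf (G w) := by
      unfold Wd
      rw [if_pos e1]
    rw [e2, p11_Wt]
    have e3 : p11_U eps lamf th V Vf (G w) = p11_U eps lamf th V Vf (addc I Av (locate s w) ν w) := by
      rw [hG]
      simp only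
      split_ifs <;> rfl
    rw [e3, p11_addc, add_assoc]
    refine add_le_add le_rfl (add_le_add ?_ ?_)
    · cases hI : I.outer w with
      | none => exact le_refl _
      | some x' =>
        simp only [Option.elim_some]
        by_cases hc : w.1 ∉ B ∧ x'.1 ∉ B ∧ x'.1 ≠ w.1
        · rw [if_pos hc, if_neg]
          rintro (hx | hx | hx)
          · rcases Finset.mem_insert.1 hx with hx | hx
            · exact hc.2.2 hx
            · exact hc.2.1 (hKB hx)
          · exact hc.2.1 (by simp [hB, hx])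
          · exact hc.2.1 (by
              have := p11_slots_locate s w hx
              simp [hB, this])
        · rw [if_neg hc]
          split_ifs
          · exact le_refl _
          · exact p11_c_nn he1 h3 hth0 hP.nn hP.nnf _ _
    · by_cases hr : ν.r = 0
      · rw [if_pos hr]
        cases (G w).act with
        | none => exact le_refl _
        | some μ => exact mul_nonneg (p11_wA_nn h3 hth0 _) (hP.nn _)
      · have e4 : (G w).act = some ⟨flip w, (w, flip w) :: ν.m, ν.r - 1⟩ := by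
          rw [hG]
          simp only
          rw [if_neg hr]
        rw [if_neg hr, e4]
        simp only [Option.elim_some]
        by_cases hwB : w.1 ∉ B
        · rw [if_pos hwB]
        · rw [if_neg hwB]
          exact mul_nonneg (p11_wA_nn h3 hth0 _) (hP.nn _)
  · intro w _ hwP
    rw [hNB w (by simp [hB, hwP])]
    exact p11_Wd_nn he1 h3 hth0 hP.nn hP.nnf _
  · have hn0 : (0 : ℝ) ≤ 2 * (Fintype.card ι : ℝ) := by positivity
    have e1 : ∑ w, N w = outSum I B (p11_c eps lamf th V Vf ν) +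
        ∑ w : ι × Bool, (if ν.r = 0 then 0 else
          if w.1 ∉ B then wA lamf th (ν.r - 1) * V ((w, flip w) :: ν.m) else 0) := by
      rw [hN]
      simp only
      rw [Finset.sum_add_distrib]
      rfl
    rw [e1]
    by_cases hr : ν.r = 0
    · have e2 : p11_c eps lamf th V Vf ν = fun a => Vf (a :: ν.m) := by
        funext a
        unfold p11_c
        rw [if_pos hr]
      rw [e2]
      simp only [hr, if_true, Finset.sum_const_zero, add_zero]
      refine le_trans (le_of_eq ?_) (hP.outf ν.m a4 B hK0B hmB hBc)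
      unfold wA
      rw [pow_zero, mul_one]
    · have e2 : p11_c eps lamf th V Vf ν = fun a => wP eps lamf th (ν.r - 1) * V (a :: ν.m) := by
        funext a
        unfold p11_c
        rw [if_neg hr]
      have e3 : ∑ w : ι × Bool, (if ν.r = 0 then 0 else
          if w.1 ∉ B then wA lamf th (ν.r - 1) * V ((w, flip w) :: ν.m) else 0) =
          midSum B (fun a => wA lamf th (ν.r - 1) * V (a :: ν.m)) := by
        unfold midSum
        refine Finset.sum_congr rfl fun w _ => ?_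
        rw [if_neg hr]
      rw [e2, e3, outSum_smul I B (fun a => V (a :: ν.m)), midSum_smul B (fun a => V (a :: ν.m))]
      have e4 := mul_le_mul_of_nonneg_left (hP.out ν.m a4 B hK0B hmB hBc)
        (p11_wP_nn he1 h3 hth0 (ν.r - 1))
      have e5 := mul_le_mul_of_nonneg_left (hP.mid ν.m a4 B hK0B hmB hBc)
        (p11_wA_nn h3 hth0 (ν.r - 1))
      refine le_trans ?_ (add_le_add e4 e5)
      obtain ⟨r, hr'⟩ : ∃ r, ν.r = r + 1 := ⟨ν.r - 1, by omega⟩
      rw [hr', Nat.add_sub_cancel]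
      unfold wA wP
      have e6 : 0 ≤ lamf * th ^ r * lam * V ν.m * (2 * (Fintype.card ι : ℝ)) := by
        have := hP.nn ν.m
        positivity
      have e7 : lamf * th ^ (r + 1) = lamf * th ^ r * (2 * lam * (1 - eps)) := by
        rw [pow_succ, ← hth]
        ring
      rw [e7]
      nlinarith

end Pool.Agent.H38H
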