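import Pool.Agent.Lib.H38H.P6
import Pool.Agent.Lib.H38H.P9
import Pool.Agent.Lib.H38H.P11

/-!
Chunk SLP12 (M/L). The potential at the link query of a d-link.

Proof. As in `P11.lean` (read its docstring first). Now `I.Mc (ap h ν.e) = none`, so by the chain condition `I.Md (ap h ν.e).1 = some l`, `l ∉ lk s.K h`,
`w = pa h' (l,false)` uniform. Children: at `w` and (if `ν.r ≠ 0`) at `flip w`. Take `B = s.K ∪ s.slots ∪ Av ∪ Pr ∪ twoC I`, `|B| ≤ E` by `card_twoC`. If
`w.1 ∉ B` then the outer partners of `w` and `flip w` are not in the same slot, so the first child does not block the second one. The first sum over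
`w` is at least `wP (r-1) * outSum I B ..`, the second one too by `outSum_flip` (the slot of `flip w` is `w.1`). Total at least
`2 * lam * V ν.m * wP (r-1) = wA r * V ν.m`. For `ν.r = 0`: one finished child, at least `lamf * V ν.m = wA 0 * V ν.m`.
-/

set_option autoImplicit false

namespace Pool.Agent.H38H

open Classical

variable {ι : Type} [Fintype ι] {L : ℕ}

theorem wd_d {I : Inst ι L} {K0 : Finset ι} {x0 : ι × Bool} {D E : ℕ} {Av Pr : Finset ι} {h : SB ι}
    {s : PS ι} (P : PInv I K0 x0 D Av h s) {ν : Nd ι} (ha : s.act = some ν)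
    (hy : I.Mc (ap h ν.e) = none) {eps lam lamf : ℝ} (h0 : 0 ≤ eps) (h1 : eps ≤ 1) (h2 : 0 ≤ lam) (h3 : 0 ≤ lamf)
    {V Vf : List (Mv ι) → ℝ} (hP : Pot I K0 x0 E lam lamf V Vf)
    (hPr : ∀ μ ∈ s.pend ++ s.fin, μ.e.1 ∉ Pr)
    (hn : 2 * s.K.card < Fintype.card ι)
    (hE : s.K.card + s.slots.card + Av.card + Pr.card + 2 * L ≤ E)
    (hq : 2 * (1 + (Pr.card : ℝ)) ≤ Fintype.card ι) :
    (1 - 2 * (1 + (Pr.card : ℝ)) / Fintype.card ι) * Wd Pr eps lamf (2 * lam * (1 - eps)) V Vf s ≤
      avg s.K h (fun h' => Wd Pr eps lamf (2 * lam * (1 - eps)) V Vf (pstep I Av h' s)) := by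
  have he1 : 0 ≤ 1 - eps := by linarith
  set th := 2 * lam * (1 - eps) with hth
  have hth0 : 0 ≤ th := by positivity
  by_cases hD : Disjoint Pr s.K
  swap
  · have e1 : Wd Pr eps lamf th V Vf s = 0 := by
      unfold Wd
      rw [if_neg hD]
    rw [e1, mul_zero]
    exact avg_nonneg fun h' _ => p11_Wd_nn he1 h3 hth0 hP.nn hP.nnf _
  obtain ⟨a1, -, -, a4, a5, a6, a7⟩ := P.actv ν ha
  obtain ⟨l, hl, hlk⟩ : ∃ l, I.Md (ap h ν.e).1 = some l ∧ l ∉ lk s.K h := by
    cases hr : ν.r with
    | zero =>
      rw [hr] at a7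
      unfold chainOK at a7
      rcases a7 with ⟨z, b1, -⟩ | ⟨l, b1, b2⟩
      · rw [hy] at b1
        cases b1
      · exact ⟨l, b1, b2⟩
    | succ r =>
      rw [hr] at a7
      unfold chainOK at a7
      rcases a7 with ⟨z, b1, -, -⟩ | ⟨l, b1, b2⟩
      · rw [hy] at b1
        cases b1
      · exact ⟨l, b1, b2⟩
  -- the value as a function of the position of the partner
  set G : ι × Bool → PS ι := fun w => if ν.r = 0 then addc I Av (locate s w) ν w
    else addc I Av (addc I Av (locate s w) ν w) ν (flip w) with hG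
  have hstep : ∀ h' ∈ cyl s.K h, pstep I Av h' s = G (pa h' (l, false)) := by
    intro h' hh'
    have e1 : ap h' ν.e = ap h ν.e := ap_congr hh' a1
    unfold pstep
    rw [ha]
    simp only [e1, hy, hl]
    rfl
  have havg : avg s.K h (fun h' => Wd Pr eps lamf th V Vf (pstep I Av h' s)) =
      avg s.K h (fun h' => Wd Pr eps lamf th V Vf (G (pa h' (l, false)))) :=
    avg_congr fun h' hh' => by rw [hstep h' hh']
  rw [havg, avg_link hlk false (fun w => Wd Pr eps lamf th V Vf (G w))]
  have hWs : Wd Pr eps lamf th V Vf s = p11_U eps lamf th V Vf s + wA lamf th ν.r * V ν.m := by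
    unfold Wd
    rw [if_pos hD, p11_Wt, ha]
    rfl
  rw [hWs]
  set B : Finset ι := s.K ∪ s.slots ∪ Av ∪ Pr ∪ twoC I with hB
  have hKB : s.K ⊆ B := fun p hp => by simp [hB, hp]
  have hBc : B.card ≤ E := by
    have b0 := Finset.card_union_le (s.K ∪ s.slots ∪ Av ∪ Pr) (twoC I)
    have b1 := Finset.card_union_le (s.K ∪ s.slots ∪ Av) Pr
    have b2 := Finset.card_union_le (s.K ∪ s.slots) Av
    have b3 := Finset.card_union_le s.K s.slots
    have b4 : B.card = (s.K ∪ s.slots ∪ Av ∪ Pr ∪ twoC I).card := rfl
    have b5 := card_twoC I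
    omega
  have hK0B : K0 ⊆ B := P.sub.trans hKB
  have hmB : ∀ p ∈ x0.1 :: slotsOf ν.m, p ∈ B := by
    intro p hp
    rcases List.mem_cons.1 hp with hp | hp
    · rw [hp]
      exact hKB a6
    · exact hKB (a5 p hp)
  set N : ι × Bool → ℝ := fun w => (I.outer w).elim 0
      (fun x' => if w.1 ∉ B ∧ x'.1 ∉ B ∧ x'.1 ≠ w.1 then p11_c eps lamf th V Vf ν (w, x') else 0) +
    (if ν.r = 0 then 0 else (I.outer (flip w)).elim 0
      (fun x' => if w.1 ∉ B ∧ x'.1 ∉ B ∧ x'.1 ≠ w.1 then
        p11_c eps lamf th V Vf ν (flip w, x') else 0))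
    with hN
  have hNB : ∀ w : ι × Bool, w.1 ∈ B → N w = 0 := by
    intro w hw
    rw [hN]
    simp only [hw, not_true_eq_false, false_and, if_false]
    cases I.outer w <;> cases I.outer (flip w) <;> simp
  have hGK : ∀ w, (G w).K = insert w.1 s.K := by
    intro w
    rw [hG]
    simp only
    split_ifs
    · exact (addc_K I Av _ ν w).1
    · exact (addc_K I Av _ ν (flip w)).1.trans (addc_K I Av _ ν w).1
  have hGact : ∀ w, (G w).act = none := by
    intro w
    rw [hG]
    simp only
    split_ifs
    · exact (addc_K I Av _ ν w).2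
    · exact (addc_K I Av _ ν (flip w)).2.trans (addc_K I Av _ ν w).2
  have hfirst : ∀ w : ι × Bool, (I.outer w).elim 0
      (fun x' => if w.1 ∉ B ∧ x'.1 ∉ B ∧ x'.1 ≠ w.1 then p11_c eps lamf th V Vf ν (w, x') else 0) ≤
      (I.outer w).elim 0 (fun x' => if x'.1 ∈ (locate s w).K ∨ x'.1 ∈ Av ∨ x'.1 ∈ (locate s w).slots
        then 0 else p11_c eps lamf th V Vf ν (w, x')) := by
    intro w
    cases hI : I.outer w with
    | none => exact le_refl _
    | some x' =>
      simp only [Option.elim_some]
      by_cases hc : w.1 ∉ B ∧ x'.1 ∉ B ∧ x'.1 ≠ w.1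
      · rw [if_pos hc, if_neg]
        rintro (hx | hx | hx)
        · rcases Finset.mem_insert.1 hx with hx | hx
          · exact hc.2.2 hx
          · exact hc.2.1 (hKB hx)
        · exact hc.2.1 (by simp [hB, hx])
        · exact hc.2.1 (by
            have := p11_slots_locate s w hx
            simp [hB, this])
      · rw [if_neg hc]
        split_ifs
        · exact le_refl _
        · exact p11_c_nn he1 h3 hth0 hP.nn hP.nnf _ _
  refine p11_main he1 h3 hth0 hP.nn hP.nnf s Pr hn hq (N := N)
    (mul_nonneg (p11_wA_nn h3 hth0 _) (hP.nn _)) (fun w hw => hNB w (hKB hw)) ?_ ?_ ?_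
  · intro w hw hwP
    have e1 : Disjoint Pr (G w).K := by
      rw [hGK, Finset.disjoint_insert_right]
      exact ⟨hwP, hD⟩
    have e2 : Wd Pr eps lamf th V Vf (G w) = p11_U eps lamf th V Vf (G w) := by
      unfold Wd
      rw [if_pos e1, p11_Wt, hGact]
      simp
    rw [e2]
    by_cases hr : ν.r = 0
    · have e3 : G w = addc I Av (locate s w) ν w := by
        rw [hG]
        simp only
        rw [if_pos hr]
      have e4 : N w = (I.outer w).elim 0 (fun x' => if w.1 ∉ B ∧ x'.1 ∉ B ∧ x'.1 ≠ w.1 then
          p11_c eps lamf th V Vf ν (w, x') else 0) := by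
        rw [hN]
        simp only
        rw [if_pos hr, add_zero]
      rw [e3, p11_addc, e4]
      exact add_le_add le_rfl (hfirst w)
    · have e3 : G w = addc I Av (addc I Av (locate s w) ν w) ν (flip w) := by
        rw [hG]
        simp only
        rw [if_neg hr]
      have e4 : N w = (I.outer w).elim 0 (fun x' => if w.1 ∉ B ∧ x'.1 ∉ B ∧ x'.1 ≠ w.1 then
          p11_c eps lamf th V Vf ν (w, x') else 0) + (I.outer (flip w)).elim 0
          (fun x' => if w.1 ∉ B ∧ x'.1 ∉ B ∧ x'.1 ≠ w.1 then
            p11_c eps lamf th V Vf ν (flip w, x') else 0) := by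
        rw [hN]
        simp only
        rw [if_neg hr]
      rw [e3, p11_addc, p11_addc, e4, ← add_assoc]
      refine add_le_add (add_le_add le_rfl (hfirst w)) ?_
      cases hI : I.outer (flip w) with
      | none => exact le_refl _
      | some x' =>
        simp only [Option.elim_some]
        by_cases hc : w.1 ∉ B ∧ x'.1 ∉ B ∧ x'.1 ≠ w.1
        · rw [if_pos hc, if_neg]
          rintro (hx | hx | hx)
          · rw [(addc_K I Av _ ν w).1] at hx
            rcases Finset.mem_insert.1 hx with hx | hx
            · exact hc.2.2 hx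
            · exact hc.2.1 (hKB hx)
          · exact hc.2.1 (by simp [hB, hx])
          · rcases p11_slots_addc hx with hx2 | ⟨x'', hI', hx2⟩
            · exact hc.2.1 (by
                have := p11_slots_locate s w hx2
                simp [hB, this])
            · apply hc.1
              have e5 : w.1 ∈ twoC I := by
                unfold twoC
                rw [Finset.mem_filter]
                refine ⟨Finset.mem_univ _, ?_⟩
                obtain ⟨p, b⟩ := w
                cases b with
                | false => exact ⟨x'', x', hI', hI, hx2⟩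
                | true => exact ⟨x', x'', hI, hI', hx2.symm⟩
              simp [hB, e5]
        · rw [if_neg hc]
          split_ifs
          · exact le_refl _
          · exact p11_c_nn he1 h3 hth0 hP.nn hP.nnf _ _
  · intro w _ hwP
    rw [hNB w (by simp [hB, hwP])]
    exact p11_Wd_nn he1 h3 hth0 hP.nn hP.nnf _
  · by_cases hr : ν.r = 0
    · have e1 : ∑ w, N w = outSum I B (p11_c eps lamf th V Vf ν) := by
        rw [hN]
        unfold outSum
        refine Finset.sum_congr rfl fun w _ => ?_
        simp only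
        rw [if_pos hr, add_zero]
      have e2 : p11_c eps lamf th V Vf ν = fun a => Vf (a :: ν.m) := by
        funext a
        unfold p11_c
        rw [if_pos hr]
      rw [e1, e2, hr]
      refine le_trans (le_of_eq ?_) (hP.outf ν.m a4 B hK0B hmB hBc)
      unfold wA
      rw [pow_zero, mul_one]
    · have e1 : ∑ w, N w = outSum I B (p11_c eps lamf th V Vf ν) +
          outSum I B (p11_c eps lamf th V Vf ν) := by
        nth_rewrite 2 [outSum_flip]
        rw [hN]
        unfold outSum
        rw [← Finset.sum_add_distrib]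
        refine Finset.sum_congr rfl fun w _ => ?_
        simp only
        rw [if_neg hr]
      have e2 : p11_c eps lamf th V Vf ν = fun a => wP eps lamf th (ν.r - 1) * V (a :: ν.m) := by
        funext a
        unfold p11_c
        rw [if_neg hr]
      rw [e1, e2, outSum_smul I B (fun a => V (a :: ν.m))]
      have e4 := mul_le_mul_of_nonneg_left (hP.out ν.m a4 B hK0B hmB hBc)
        (p11_wP_nn he1 h3 hth0 (ν.r - 1))
      refine le_trans (le_of_eq ?_) (add_le_add e4 e4)
      obtain ⟨r, hr'⟩ : ∃ r, ν.r = r + 1 := ⟨ν.r - 1, by omega⟩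
      rw [hr', Nat.add_sub_cancel]
      unfold wA wP
      have e7 : lamf * th ^ (r + 1) = lamf * th ^ r * (2 * lam * (1 - eps)) := by
        rw [pow_succ, ← hth]
        ring
      rw [e7]
      ring

end Pool.Agent.H38H
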