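import Pool.Agent.Lib.H38H.P10
import Pool.Agent.Lib.H38H.P11
import Pool.Agent.Lib.H38H.P12

/-!
Chunk SLP13 (M). The one-sided exploration theorem.

Proof. Put `c = 1 - 2(1+|Pr|)/n ∈ [0,1]`. Claim for all `k ≤ 4*2^D` and all `h`, all states `s` with `PInv`, `Pr ⊆ Av`, the slots of the nodes outside `Pr`,
`|s.K| + k ≤ |K| + 4 * 2^D`: `c^k * Wd s ≤ avg s.K h (fun h' => Wd (prun I Av h' k s))`. Induction on `k`: `prun (k+1) s = prun k (pstep s)`;
by `avg_tower` with `R h' = (pstep I Av h' s).K` (a `Stop` by `pstep_congr`, `pstep_K_sub`) and the induction hypothesis for the state `pstep I Av h' s`,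
(`pinv_step`; for `h'' ∈ cyl (R h') h'` the state `pstep I Av h'' s` is the same) the right side is `≥ avg (fun h' => c^k * Wd (pstep I Av h' s))`, which is at least `c^(k+1) * Wd s` by
`wd_slot`, `wd_c`, `wd_d` and `c ≤ 1`, `Wd ≥ 0`. The slots of new nodes are outside `Av ⊇ Pr`. `|s.slots| ≤ 2^(D+1)`: from `PInv.count` (each
pending node contributes at least 1). Initially `Wd = wP D * V []` as `Pr` is disjoint from `K`. At the end (`prun_done`) `Wt` is the sum over `fin`.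
-/

set_option autoImplicit false

namespace Pool.Agent.H38H

open Classical

variable {ι : Type} [Fintype ι] {L : ℕ}

theorem slots_card_le {I : Inst ι L} {K0 : Finset ι} {x0 : ι × Bool} {D : ℕ} {Av : Finset ι} {h : SB ι}
    {s : PS ι} (P : PInv I K0 x0 D Av h s) : s.slots.card ≤ 2 ^ D := by
  have h1 : s.slots.card ≤ (s.pend ++ s.fin).length := by
    unfold PS.slots
    refine (List.toFinset_card_le _).trans ?_
    rw [List.length_map]
  have h2 : ∀ l : List (Nd ι), l.length ≤ (l.map (fun ν => 2 ^ ν.r)).sum := by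
    intro l
    induction l with
    | nil => simp
    | cons a l ih =>
      rw [List.map_cons, List.sum_cons, List.length_cons]
      have : 1 ≤ 2 ^ a.r := Nat.one_le_two_pow
      omega
  have h3 := P.count
  have h4 := h2 s.pend
  rw [List.length_append] at h1
  omega

theorem p13_pr {I : Inst ι L} {K0 : Finset ι} {x0 : ι × Bool} {D : ℕ} {Av Pr : Finset ι} {h : SB ι}
    {s : PS ι} (P : PInv I K0 x0 D Av h s) (hPA : Pr ⊆ Av) (hPx : x0.1 ∉ Pr) :
    ∀ μ ∈ s.pend ++ s.fin, μ.e.1 ∉ Pr := by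
  intro μ hμ
  obtain ⟨n1, n2, n3, n4, n5, n6⟩ := P.node μ hμ
  by_cases hm : μ.m = []
  · rw [n2, hm]
    exact hPx
  · exact fun h => (n5 hm).2 (hPA h)

theorem p13_step {I : Inst ι L} {K : Finset ι} {x0 : ι × Bool} {D E : ℕ} {Av Pr : Finset ι}
    (hPA : Pr ⊆ Av) (hPx : x0.1 ∉ Pr) {eps lam lamf : ℝ}
    (h0 : 0 ≤ eps) (h1 : eps ≤ 1) (h2 : 0 ≤ lam) (h3 : 0 ≤ lamf)
    {V Vf : List (Mv ι) → ℝ} (hP : Pot I K x0 E lam lamf V Vf)
    (hE : K.card + 4 * 2 ^ D + 2 ^ D + Av.card + Pr.card + 2 * L ≤ E)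
    (hn : 2 * (K.card + 4 * 2 ^ D) < Fintype.card ι)
    (heps : 8 * ((D : ℝ) + 2) * (K.card + 4 * 2 ^ D + L + 1) ≤ eps * Fintype.card ι)
    (hq : 2 * (1 + (Pr.card : ℝ)) ≤ Fintype.card ι) {h : SB ι} {s : PS ι} (P : PInv I K x0 D Av h s)
    (hs : s.K.card ≤ K.card + 4 * 2 ^ D) :
    (1 - 2 * (1 + (Pr.card : ℝ)) / Fintype.card ι) * Wd Pr eps lamf (2 * lam * (1 - eps)) V Vf s ≤
      avg s.K h (fun h' => Wd Pr eps lamf (2 * lam * (1 - eps)) V Vf (pstep I Av h' s)) := by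
  have hPr := p13_pr P hPA hPx
  have hsl := slots_card_le P
  have hn' : 2 * s.K.card < Fintype.card ι := by omega
  have hE' : s.K.card + s.slots.card + Av.card + Pr.card + 2 * L ≤ E := by omega
  have hth : 0 ≤ 2 * lam * (1 - eps) := mul_nonneg (by linarith) (by linarith)
  cases ha : s.act with
  | none =>
    have hs' : (s.K.card : ℝ) ≤ (K.card : ℝ) + 4 * 2 ^ D := by exact_mod_cast hs
    have heps' : 8 * ((D : ℝ) + 2) * (s.K.card + L + 1) ≤ eps * Fintype.card ι := by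
      refine le_trans ?_ heps
      have hD : (0 : ℝ) ≤ 8 * ((D : ℝ) + 2) := by positivity
      exact mul_le_mul_of_nonneg_left (by linarith) hD
    have hw := wd_slot P ha (eps := eps) (lamf := lamf) (th := 2 * lam * (1 - eps)) (by linarith) h3 hth
      hP.nn hP.nnf hPr hn' heps'
    have hw0 := wd_nonneg (Pr := Pr) (eps := eps) (lamf := lamf) (th := 2 * lam * (1 - eps)) (by linarith) h3 hth
      hP.nn hP.nnf s
    refine le_trans ?_ hw
    have hq0 : 0 ≤ 2 * (1 + (Pr.card : ℝ)) / Fintype.card ι := by positivity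
    nlinarith
  | some ν =>
    cases hy : I.Mc (ap h ν.e) with
    | some y => exact wd_c P ha hy h0 h1 h2 h3 hP hPr hn' hE' hq
    | none => exact wd_d P ha hy h0 h1 h2 h3 hP hPr hn' hE' hq

theorem p13_claim {I : Inst ι L} {K : Finset ι} {x0 : ι × Bool} {D E : ℕ} {Av Pr : Finset ι}
    (hPA : Pr ⊆ Av) (hPx : x0.1 ∉ Pr) {eps lam lamf : ℝ}
    (h0 : 0 ≤ eps) (h1 : eps ≤ 1) (h2 : 0 ≤ lam) (h3 : 0 ≤ lamf)
    {V Vf : List (Mv ι) → ℝ} (hP : Pot I K x0 E lam lamf V Vf)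
    (hE : K.card + 4 * 2 ^ D + 2 ^ D + Av.card + Pr.card + 2 * L ≤ E)
    (hn : 2 * (K.card + 4 * 2 ^ D) < Fintype.card ι)
    (heps : 8 * ((D : ℝ) + 2) * (K.card + 4 * 2 ^ D + L + 1) ≤ eps * Fintype.card ι)
    (hq : 2 * (1 + (Pr.card : ℝ)) ≤ Fintype.card ι) (k : ℕ) :
    ∀ (h : SB ι) (s : PS ι), PInv I K x0 D Av h s → s.K.card + k ≤ K.card + 4 * 2 ^ D →
    (1 - 2 * (1 + (Pr.card : ℝ)) / Fintype.card ι) ^ k * Wd Pr eps lamf (2 * lam * (1 - eps)) V Vf s ≤
      avg s.K h (fun h' => Wd Pr eps lamf (2 * lam * (1 - eps)) V Vf (prun I Av h' k s)) := by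
  have hnpos : (0 : ℝ) < (Fintype.card ι : ℝ) := by
    have : 0 < Fintype.card ι := by omega
    exact_mod_cast this
  have hc0 : 0 ≤ 1 - 2 * (1 + (Pr.card : ℝ)) / Fintype.card ι := by
    rw [sub_nonneg, div_le_one hnpos]
    exact hq
  induction k with
  | zero =>
    intro h s P _
    rw [pow_zero, one_mul]
    have e1 : (fun h' => Wd Pr eps lamf (2 * lam * (1 - eps)) V Vf (prun I Av h' 0 s)) =
        fun _ => Wd Pr eps lamf (2 * lam * (1 - eps)) V Vf s := rfl
    rw [e1, avg_const]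
  | succ k ih =>
    intro h s P hk
    have hstep := p13_step hPA hPx h0 h1 h2 h3 hP hE hn heps hq P (by omega)
    have hStop : Stop s.K h (fun h' => (pstep I Av h' s).K) := stop_prun P 1
    rw [avg_tower hStop]
    calc (1 - 2 * (1 + (Pr.card : ℝ)) / Fintype.card ι) ^ (k + 1) *
          Wd Pr eps lamf (2 * lam * (1 - eps)) V Vf s
        = (1 - 2 * (1 + (Pr.card : ℝ)) / Fintype.card ι) ^ k *
          ((1 - 2 * (1 + (Pr.card : ℝ)) / Fintype.card ι) *
          Wd Pr eps lamf (2 * lam * (1 - eps)) V Vf s) := by ring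
      _ ≤ (1 - 2 * (1 + (Pr.card : ℝ)) / Fintype.card ι) ^ k *
          avg s.K h (fun h' => Wd Pr eps lamf (2 * lam * (1 - eps)) V Vf (pstep I Av h' s)) :=
          mul_le_mul_of_nonneg_left hstep (pow_nonneg hc0 k)
      _ = avg s.K h (fun h' => (1 - 2 * (1 + (Pr.card : ℝ)) / Fintype.card ι) ^ k *
          Wd Pr eps lamf (2 * lam * (1 - eps)) V Vf (pstep I Av h' s)) := (avg_smul _ _ _ _).symm
      _ ≤ _ := by
          apply avg_mono
          intro h' hh'
          have P' := pinv_step (P.congr hh')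
          have hcard := pstep_K_card I Av h' s
          have h4 := ih h' (pstep I Av h' s) P' (by omega)
          refine h4.trans (le_of_eq ?_)
          apply avg_congr
          intro h'' hh''
          have e2 := pstep_congr (P.congr hh') hh''
          have e3 : prun I Av h'' (k + 1) s = prun I Av h'' k (pstep I Av h'' s) := by
            unfold prun
            rw [Function.iterate_succ_apply]
          rw [e3, e2]

theorem ssl {I : Inst ι L} {K : Finset ι} {x0 : ι × Bool} (hx : x0.1 ∉ K) {D E : ℕ} {Av Pr : Finset ι}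
    (hPA : Pr ⊆ Av) (hPK : Disjoint Pr K) (hPx : x0.1 ∉ Pr) (h : SB ι) {eps lam lamf : ℝ}
    (h0 : 0 ≤ eps) (h1 : eps ≤ 1) (h2 : 0 ≤ lam) (h3 : 0 ≤ lamf)
    {V Vf : List (Mv ι) → ℝ} (hP : Pot I K x0 E lam lamf V Vf)
    (hE : K.card + 4 * 2 ^ D + 2 ^ D + Av.card + Pr.card + 2 * L ≤ E)
    (hn : 2 * (K.card + 4 * 2 ^ D) < Fintype.card ι)
    (heps : 8 * ((D : ℝ) + 2) * (K.card + 4 * 2 ^ D + L + 1) ≤ eps * Fintype.card ι)
    (hq : 2 * (1 + (Pr.card : ℝ)) ≤ Fintype.card ι) :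
    (1 - 2 * (1 + (Pr.card : ℝ)) / Fintype.card ι) ^ (4 * 2 ^ D) *
        ((1 - eps) * (lamf * (2 * lam * (1 - eps)) ^ D)) * V [] ≤
      avg K h (fun h' => if Disjoint Pr (prun I Av h' (4 * 2 ^ D) (pinit K x0 D)).K then
        ((prun I Av h' (4 * 2 ^ D) (pinit K x0 D)).fin.map (fun ν => Vf ν.m)).sum else 0) := by
  have hcl := p13_claim hPA hPx h0 h1 h2 h3 hP hE hn heps hq (4 * 2 ^ D) h (pinit K x0 D)
    (pinv_init I hx D Av h) le_rfl
  have e1 : Wd Pr eps lamf (2 * lam * (1 - eps)) V Vf (pinit K x0 D) =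
      (1 - eps) * (lamf * (2 * lam * (1 - eps)) ^ D) * V [] := by
    unfold Wd
    rw [if_pos (show Disjoint Pr (pinit K x0 D).K from hPK)]
    unfold Wt pinit wP
    simp
  rw [e1, ← mul_assoc] at hcl
  refine hcl.trans (le_of_eq ?_)
  have e2 : (pinit K x0 D).K = K := rfl
  rw [e2]
  apply avg_congr
  intro h' _
  obtain ⟨d1, d2⟩ := prun_done I Av h' K x0 D
  unfold Wd
  congr 1
  unfold Wt
  rw [d1, d2]
  simp

end Pool.Agent.H38H
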