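import Pool.Agent.Lib.H38H.P1

/-!
Chunk SLP2 (M). One query: the known set grows by at most one slot, the result depends only on the new known set, and the
invariant only depends on the known set.

Proofs. Case distinction in the definition of `pstep` (`addc` and the other changes do not touch `K`; `locate` inserts `w.1`;
the slot query inserts `ν.e.1`). `pstep_congr`: in the active case the slot of `ν.e` is known (`P.actv`), so the contents agree;
`w.1` is in the new known set, so the position of the partner agrees (`pa_congr`). In the slot query the slot `ν.e.1` is in the new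
known set, `lk` agrees by `lk_congr`. `PInv.congr`: `tr_congr_act`, `tr_congr_pend`, `lk_congr`, `ap_congr`.
-/

set_option autoImplicit false

namespace Pool.Agent.H38H

open Classical

variable {ι : Type} [Fintype ι] {L : ℕ}

theorem addc_K (I : Inst ι L) (Av : Finset ι) (s : PS ι) (ν : Nd ι) (w : ι × Bool) :
    (addc I Av s ν w).K = s.K ∧ (addc I Av s ν w).act = s.act := by
  unfold addc
  split
  · exact ⟨rfl, rfl⟩
  · split_ifs <;> exact ⟨rfl, rfl⟩

theorem slp2_c0 {I : Inst ι L} {Av : Finset ι} {h : SB ι} {s : PS ι} {ν : Nd ι} {y : ι × Bool}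
    (h1 : s.act = some ν) (h2 : I.Mc (ap h ν.e) = some y) (h3 : ν.r = 0) :
    pstep I Av h s = addc I Av (locate s (pa h y)) ν (pa h y) := by
  unfold pstep
  simp only [h1, h2, h3, if_true]

theorem slp2_c1 {I : Inst ι L} {Av : Finset ι} {h : SB ι} {s : PS ι} {ν : Nd ι} {y : ι × Bool}
    (h1 : s.act = some ν) (h2 : I.Mc (ap h ν.e) = some y) (h3 : ν.r ≠ 0) :
    pstep I Av h s = { addc I Av (locate s (pa h y)) ν (pa h y) with
              act := some ⟨flip (pa h y), (pa h y, flip (pa h y)) :: ν.m, ν.r - 1⟩ } := by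
  unfold pstep
  simp only [h1, h2, h3, if_false]

theorem slp2_d0 {I : Inst ι L} {Av : Finset ι} {h : SB ι} {s : PS ι} {ν : Nd ι} {l : ι}
    (h1 : s.act = some ν) (h2 : I.Mc (ap h ν.e) = none) (h3 : I.Md (ap h ν.e).1 = some l) (h4 : ν.r = 0) :
    pstep I Av h s = addc I Av (locate s (pa h (l, false))) ν (pa h (l, false)) := by
  unfold pstep
  simp only [h1, h2, h3, h4, if_true]

theorem slp2_d1 {I : Inst ι L} {Av : Finset ι} {h : SB ι} {s : PS ι} {ν : Nd ι} {l : ι}
    (h1 : s.act = some ν) (h2 : I.Mc (ap h ν.e) = none) (h3 : I.Md (ap h ν.e).1 = some l) (h4 : ν.r ≠ 0) :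
    pstep I Av h s = addc I Av (addc I Av (locate s (pa h (l, false))) ν (pa h (l, false))) ν
              (flip (pa h (l, false))) := by
  unfold pstep
  simp only [h1, h2, h3, h4, if_false]

theorem slp2_n {I : Inst ι L} {Av : Finset ι} {h : SB ι} {s : PS ι} {ν : Nd ι}
    (h1 : s.act = some ν) (h2 : I.Mc (ap h ν.e) = none) (h3 : I.Md (ap h ν.e).1 = none) :
    pstep I Av h s = { s with act := none } := by
  unfold pstep
  simp only [h1, h2, h3]

theorem slp2_e {I : Inst ι L} {Av : Finset ι} {h : SB ι} {s : PS ι}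
    (h1 : s.act = none) (h2 : s.pend = []) : pstep I Av h s = s := by
  unfold pstep
  simp only [h1, h2]

theorem slp2_p {I : Inst ι L} {Av : Finset ι} {h : SB ι} {s : PS ι} {ν : Nd ι} {rest : List (Nd ι)}
    (h1 : s.act = none) (h2 : s.pend = ν :: rest) : pstep I Av h s =
      { K := insert ν.e.1 s.K
        act := if chainOK I ν.r (lk (insert ν.e.1 s.K) h) (ap h ν.e) then some ν else none
        pend := rest
        fin := s.fin } := by
  unfold pstep
  simp only [h1, h2]

/-- the new known set -/
theorem slp2_K (I : Inst ι L) (Av : Finset ι) (h : SB ι) (s : PS ι) :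
    (∃ p, (pstep I Av h s).K = insert p s.K) ∨ (pstep I Av h s).K = s.K := by
  cases h1 : s.act with
  | some ν =>
    cases h2 : I.Mc (ap h ν.e) with
    | some y =>
      left
      refine ⟨(pa h y).1, ?_⟩
      by_cases h3 : ν.r = 0
      · rw [slp2_c0 h1 h2 h3, (addc_K I Av _ ν _).1]
        rfl
      · rw [slp2_c1 h1 h2 h3]
        show (addc I Av _ ν _).K = _
        rw [(addc_K I Av _ ν _).1]
        rfl
    | none =>
      cases h3 : I.Md (ap h ν.e).1 with
      | some l =>
        left
        refine ⟨(pa h (l, false)).1, ?_⟩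
        by_cases h4 : ν.r = 0
        · rw [slp2_d0 h1 h2 h3 h4, (addc_K I Av _ ν _).1]
          rfl
        · rw [slp2_d1 h1 h2 h3 h4, (addc_K I Av _ ν _).1, (addc_K I Av _ ν _).1]
          rfl
      | none =>
        right
        rw [slp2_n h1 h2 h3]
  | none =>
    cases h2 : s.pend with
    | nil =>
      right
      rw [slp2_e h1 h2]
    | cons ν rest =>
      left
      refine ⟨ν.e.1, ?_⟩
      rw [slp2_p h1 h2]

theorem pstep_K_sub (I : Inst ι L) (Av : Finset ι) (h : SB ι) (s : PS ι) : s.K ⊆ (pstep I Av h s).K := by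
  rcases slp2_K I Av h s with ⟨p, hp⟩ | hp
  · rw [hp]
    exact Finset.subset_insert _ _
  · rw [hp]

theorem pstep_K_card (I : Inst ι L) (Av : Finset ι) (h : SB ι) (s : PS ι) :
    (pstep I Av h s).K.card ≤ s.K.card + 1 := by
  rcases slp2_K I Av h s with ⟨p, hp⟩ | hp
  · rw [hp]
    exact Finset.card_insert_le _ _
  · rw [hp]
    omega

theorem pstep_congr {I : Inst ι L} {K0 : Finset ι} {x0 : ι × Bool} {D : ℕ} {Av : Finset ι} {h h' : SB ι}
    {s : PS ι} (P : PInv I K0 x0 D Av h s) (hh : h' ∈ cyl (pstep I Av h s).K h) :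
    pstep I Av h' s = pstep I Av h s := by
  have hsub := pstep_K_sub I Av h s
  cases h1 : s.act with
  | some ν =>
    have hν := (P.actv ν h1).1
    have hap : ap h' ν.e = ap h ν.e := ap_congr hh (hsub hν)
    cases h2 : I.Mc (ap h ν.e) with
    | some y =>
      have h2' : I.Mc (ap h' ν.e) = some y := by rw [hap, h2]
      have hpa : (pa h y).1 ∈ (pstep I Av h s).K → pa h' y = pa h y := by
        intro hy
        apply pa_congr hh
        rw [mem_lk, ← pa_fst]
        exact hy
      by_cases h3 : ν.r = 0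
      · have e := hpa (by
          rw [slp2_c0 h1 h2 h3, (addc_K I Av _ ν _).1]
          exact Finset.mem_insert_self _ _)
        rw [slp2_c0 h1 h2 h3, slp2_c0 h1 h2' h3, e]
      · have e := hpa (by
          rw [slp2_c1 h1 h2 h3]
          show _ ∈ (addc I Av _ ν _).K
          rw [(addc_K I Av _ ν _).1]
          exact Finset.mem_insert_self _ _)
        rw [slp2_c1 h1 h2 h3, slp2_c1 h1 h2' h3, e]
    | none =>
      have h2' : I.Mc (ap h' ν.e) = none := by rw [hap, h2]
      cases h3 : I.Md (ap h ν.e).1 with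
      | some l =>
        have h3' : I.Md (ap h' ν.e).1 = some l := by rw [hap, h3]
        have hpa : (pa h (l, false)).1 ∈ (pstep I Av h s).K → pa h' (l, false) = pa h (l, false) := by
          intro hy
          apply pa_congr hh
          rw [mem_lk, ← pa_fst]
          exact hy
        by_cases h4 : ν.r = 0
        · have e := hpa (by
            rw [slp2_d0 h1 h2 h3 h4, (addc_K I Av _ ν _).1]
            exact Finset.mem_insert_self _ _)
          rw [slp2_d0 h1 h2 h3 h4, slp2_d0 h1 h2' h3' h4, e]
        · have e := hpa (by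
            rw [slp2_d1 h1 h2 h3 h4, (addc_K I Av _ ν _).1, (addc_K I Av _ ν _).1]
            exact Finset.mem_insert_self _ _)
          rw [slp2_d1 h1 h2 h3 h4, slp2_d1 h1 h2' h3' h4, e]
      | none =>
        have h3' : I.Md (ap h' ν.e).1 = none := by rw [hap, h3]
        rw [slp2_n h1 h2 h3, slp2_n h1 h2' h3']
  | none =>
    cases h2 : s.pend with
    | nil => rw [slp2_e h1 h2, slp2_e h1 h2]
    | cons ν rest =>
      have hK : (pstep I Av h s).K = insert ν.e.1 s.K := by rw [slp2_p h1 h2]
      rw [hK] at hh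
      rw [slp2_p h1 h2, slp2_p h1 h2, lk_congr hh, ap_congr hh (Finset.mem_insert_self _ _)]

theorem PInv.congr {I : Inst ι L} {K0 : Finset ι} {x0 : ι × Bool} {D : ℕ} {Av : Finset ι} {h h' : SB ι}
    {s : PS ι} (P : PInv I K0 x0 D Av h s) (hh : h' ∈ cyl s.K h) : PInv I K0 x0 D Av h' s where
  sub := P.sub
  unk := P.unk
  nod := P.nod
  node := by
    intro ν hν
    obtain ⟨n1, n2, n3, n4, n5, n6⟩ := P.node ν hν
    refine ⟨?_, n2, n3, n4, n5, n6⟩
    refine tr_congr_pend hh n1 n3 (fun hm => (n5 hm).1) (fun a l hal => (n6 a l hal).1) ?_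
    intro p hp hpe
    exact n4 p hp (by rw [n2]; exact hpe)
  actv := by
    intro ν hν
    obtain ⟨n1, n2, n3, n4, n5, n6, n7⟩ := P.actv ν hν
    refine ⟨n1, tr_congr_act hh n2 n4 n6 n5, n3, n4, n5, n6, ?_⟩
    rw [lk_congr hh, ap_congr hh n1]
    exact n7
  lenp := P.lenp
  lena := P.lena
  lenf := P.lenf
  count := P.count

theorem pinv_init (I : Inst ι L) {K : Finset ι} {x0 : ι × Bool} (hx : x0.1 ∉ K) (D : ℕ) (Av : Finset ι) (h : SB ι) :
    PInv I K x0 D Av h (pinit K x0 D) where
  sub := Finset.Subset.refl _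
  unk := by
    intro ν hν
    rcases List.mem_singleton.1 (show ν ∈ [(⟨x0, [], D⟩ : Nd ι)] from hν) with rfl
    exact hx
  nod := List.nodup_singleton _
  node := by
    intro ν hν
    rcases List.mem_singleton.1 (show ν ∈ [(⟨x0, [], D⟩ : Nd ι)] from hν) with rfl
    refine ⟨trivial, rfl, ⟨List.nodup_singleton _, ?_, ?_⟩, ?_, ?_, ?_⟩
    · intro p hp
      rcases List.mem_singleton.1 hp with rfl
      exact hx
    · intro a ha
      exact absurd ha List.not_mem_nil
    · intro p hp
      exact absurd hp List.not_mem_nil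
    · intro hm
      exact absurd rfl hm
    · intro a l hal
      exact absurd hal.symm (List.cons_ne_nil a l)
  actv := by
    intro ν hν
    exact absurd hν (by intro h; cases h)
  lenp := by
    intro ν hν
    rcases List.mem_singleton.1 (show ν ∈ [(⟨x0, [], D⟩ : Nd ι)] from hν) with rfl
    exact zero_add _
  lena := by
    intro ν hν
    exact absurd hν (by intro h; cases h)
  lenf := by
    intro ν hν
    exact absurd hν List.not_mem_nil
  count := by
    simp [pinit]

end Pool.Agent.H38H
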