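import Pool.Agent.Lib.H38H.P2

/-!
Chunk SLP3 (M). The slot query preserves the invariant.

Proof. `s.act = none`, `s.pend = ν :: rest`. The new known set is `insert ν.e.1 s.K`. The other nodes have slots different from
`ν.e.1` by `P.nod`. The new active node (if any) is `ν`: its slots are known now; `x0.1` is known: if `ν.m = []` then
`ν.e = x0`. The chain condition is the condition of the `if`. `count`: `2 ^ ν.r` moves from `pend` to `act`.
-/

set_option autoImplicit false

namespace Pool.Agent.H38H

open Classical

variable {ι : Type} [Fintype ι] {L : ℕ}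

theorem pinv_slot {I : Inst ι L} {K0 : Finset ι} {x0 : ι × Bool} {D : ℕ} {Av : Finset ι} {h : SB ι}
    {s : PS ι} (P : PInv I K0 x0 D Av h s) (ha : s.act = none) : PInv I K0 x0 D Av h (pstep I Av h s) := by
  cases hp : s.pend with
  | nil =>
    have hs : pstep I Av h s = s := by
      unfold pstep
      rw [ha, hp]
    rw [hs]
    exact P
  | cons ν rest =>
    have hs : pstep I Av h s = { K := insert ν.e.1 s.K
                                 act := if chainOK I ν.r (lk (insert ν.e.1 s.K) h) (ap h ν.e) then some ν
                                   else none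
                                 pend := rest
                                 fin := s.fin } := by
      unfold pstep
      rw [ha, hp]
    rw [hs]
    have hmem : ∀ μ ∈ rest ++ s.fin, μ ∈ s.pend ++ s.fin := by
      intro μ hμ
      rw [hp, List.cons_append]
      exact List.mem_cons_of_mem _ hμ
    have hν : ν ∈ s.pend ++ s.fin := by
      rw [hp, List.cons_append]
      exact List.mem_cons_self
    have hnod := P.nod
    rw [hp, List.cons_append, List.map_cons, List.nodup_cons] at hnod
    have hne : ∀ μ ∈ rest ++ s.fin, μ.e.1 ≠ ν.e.1 := by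
      intro μ hμ h1
      apply hnod.1
      rw [List.mem_map]
      exact ⟨μ, hμ, h1⟩
    obtain ⟨n1, n2, n3, n4, n5, n6⟩ := P.node ν hν
    have hact : ∀ μ, (if chainOK I ν.r (lk (insert ν.e.1 s.K) h) (ap h ν.e) then some ν
        else none) = some μ → μ = ν ∧ chainOK I ν.r (lk (insert ν.e.1 s.K) h) (ap h ν.e) := by
      intro μ hμ
      split_ifs at hμ with hc
      exact ⟨(Option.some.inj hμ).symm, hc⟩
    refine
      { sub := P.sub.trans (Finset.subset_insert _ _)
        unk := ?_
        nod := hnod.2
        node := ?_
        actv := ?_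
        lenp := ?_
        lena := ?_
        lenf := P.lenf
        count := ?_ }
    · intro μ hμ h1
      rcases Finset.mem_insert.1 h1 with h2 | h2
      · exact hne μ hμ h2
      · exact P.unk μ (hmem μ hμ) h2
    · intro μ hμ
      obtain ⟨m1, m2, m3, m4, m5, m6⟩ := P.node μ (hmem μ hμ)
      exact ⟨m1, m2, m3, fun p hp hpe => Finset.mem_insert_of_mem (m4 p hp hpe),
        fun h0 => ⟨Finset.mem_insert_of_mem (m5 h0).1, (m5 h0).2⟩, m6⟩
    · intro μ hμ
      obtain ⟨rfl, hc⟩ := hact μ hμ
      refine ⟨Finset.mem_insert_self _ _, n1, n2, n3, fun p hp => ?_, ?_, hc⟩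
      · by_cases h1 : p = μ.e.1
        · rw [h1]
          exact Finset.mem_insert_self _ _
        · exact Finset.mem_insert_of_mem (n4 p hp h1)
      · by_cases h0 : μ.m = []
        · rw [h0] at n2
          rw [n2]
          exact Finset.mem_insert_self _ _
        · exact Finset.mem_insert_of_mem (n5 h0).1
    · intro μ hμ
      exact P.lenp μ (by rw [hp]; exact List.mem_cons_of_mem _ hμ)
    · intro μ hμ
      obtain ⟨rfl, -⟩ := hact μ hμ
      exact P.lenp μ (by rw [hp]; exact List.mem_cons_self)
    · have hcnt := P.count
      rw [hp, ha, List.map_cons, List.sum_cons] at hcnt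
      change 2 ^ ν.r + (rest.map (fun ν => 2 ^ ν.r)).sum + 0 + s.fin.length ≤ 2 ^ D at hcnt
      change (rest.map (fun ν => 2 ^ ν.r)).sum +
        (if chainOK I ν.r (lk (insert ν.e.1 s.K) h) (ap h ν.e) then some ν
        else none).elim 0 (fun ν => 2 ^ ν.r) + s.fin.length ≤ 2 ^ D
      split_ifs with hc
      · change (rest.map (fun ν => 2 ^ ν.r)).sum + 2 ^ ν.r + s.fin.length ≤ 2 ^ D
        omega
      · change (rest.map (fun ν => 2 ^ ν.r)).sum + 0 + s.fin.length ≤ 2 ^ D
        have h2 : 0 < 2 ^ ν.r := by positivity
        omega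

end Pool.Agent.H38H
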