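import Pool.Agent.Lib.H38H.P2

/-!
Chunk SLP4 (M/L). The link query of a c-link preserves the invariant.

Proof. `s.act = some ν`, `I.Mc (ap h ν.e) = some y`, `w = pa h y`. By the chain condition `y.1 ∉ lk s.K h`, so `w.1 ∉ s.K`
(`mem_lk`, `pa_fst`). `locate s w`: the filtered lists satisfy all clauses with the known set `insert w.1 s.K`.
`addc`: the new node has end `x'` with `x'.1` outside the new known set, `Av` and the slots of the lists; its moves are
`(w, x') :: ν.m`: `Cons.out`, `step_c`, its slots other than `x'.1` are known. If `ν.r ≠ 0` the new active node has end `flip w`,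
moves `(w, flip w) :: ν.m`: `Cons.mid`, `step_c`, and the chain condition is the tail of the old one
(`chainOK (r+1)`, `ap h (flip w) = flip y`, `lk (insert w.1 s.K) h = insert y.1 (lk s.K h)`; the d-alternative is impossible by
`Mc_Md`). `count`: `2 ^ r = 2 ^ (r-1) + 2 ^ (r-1)`; for `r = 0` one finished node.
-/

set_option autoImplicit false

namespace Pool.Agent.H38H

open Classical

variable {ι : Type} [Fintype ι] {L : ℕ}

/-- the part of the invariant about the lists -/
structure P4Q (I : Inst ι L) (K0 : Finset ι) (x0 : ι × Bool) (D : ℕ) (Av : Finset ι) (h : SB ι)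
    (s : PS ι) : Prop where
  sub : K0 ⊆ s.K
  unk : ∀ ν ∈ s.pend ++ s.fin, ν.e.1 ∉ s.K
  nod : ((s.pend ++ s.fin).map (fun ν => ν.e.1)).Nodup
  node : ∀ ν ∈ s.pend ++ s.fin, Tr I h x0 ν.m ∧ ν.e = endOf x0 ν.m ∧ Cons I K0 x0 ν.m ∧
    (∀ p ∈ slotsOf ν.m, p ≠ ν.e.1 → p ∈ s.K) ∧ (ν.m ≠ [] → x0.1 ∈ s.K ∧ ν.e.1 ∉ Av) ∧
    ∀ a l, ν.m = a :: l → a.2.1 ≠ a.1.1 ∧ I.outer a.1 = some a.2
  lenp : ∀ ν ∈ s.pend, ν.m.length + ν.r = D
  lenf : ∀ ν ∈ s.fin, ν.m.length = D + 1

/-- the weight of the lists -/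
def p4w (s : PS ι) : ℕ := (s.pend.map (fun ν => 2 ^ ν.r)).sum + s.fin.length

theorem p4_sum_filter (l : List (Nd ι)) (q : Nd ι → Bool) :
    ((l.filter q).map (fun ν => 2 ^ ν.r)).sum ≤ (l.map (fun ν => 2 ^ ν.r)).sum := by
  induction l with
  | nil => simp
  | cons a l ih =>
    by_cases hq : q a = true
    · rw [List.filter_cons_of_pos hq, List.map_cons, List.map_cons, List.sum_cons, List.sum_cons]
      omega
    · rw [List.filter_cons_of_neg hq, List.map_cons, List.sum_cons]
      exact ih.trans (Nat.le_add_left _ _)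

theorem p4_of_inv {I : Inst ι L} {K0 : Finset ι} {x0 : ι × Bool} {D : ℕ} {Av : Finset ι} {h : SB ι}
    {s : PS ι} (P : PInv I K0 x0 D Av h s) : P4Q I K0 x0 D Av h s :=
  ⟨P.sub, P.unk, P.nod, P.node, P.lenp, P.lenf⟩

theorem p4_locate {I : Inst ι L} {K0 : Finset ι} {x0 : ι × Bool} {D : ℕ} {Av : Finset ι} {h : SB ι}
    {s : PS ι} (P : P4Q I K0 x0 D Av h s) (w : ι × Bool) :
    P4Q I K0 x0 D Av h (locate s w) ∧ p4w (locate s w) ≤ p4w s := by
  have hf : (locate s w).pend ++ (locate s w).fin =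
      (s.pend ++ s.fin).filter (fun ν => ν.e.1 ≠ w.1) := by
    rw [List.filter_append]
    rfl
  have hm : ∀ ν ∈ (locate s w).pend ++ (locate s w).fin, ν ∈ s.pend ++ s.fin ∧ ν.e.1 ≠ w.1 := by
    intro ν hν
    rw [hf, List.mem_filter] at hν
    exact ⟨hν.1, by simpa using hν.2⟩
  refine ⟨⟨?_, ?_, ?_, ?_, ?_, ?_⟩, ?_⟩
  · exact P.sub.trans (Finset.subset_insert _ _)
  · intro ν hν h1
    obtain ⟨h2, h3⟩ := hm ν hν
    rcases Finset.mem_insert.1 h1 with h4 | h4
    · exact h3 h4
    · exact P.unk ν h2 h4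
  · rw [hf]
    exact P.nod.sublist (List.filter_sublist.map _)
  · intro ν hν
    obtain ⟨h2, h3⟩ := hm ν hν
    obtain ⟨a1, a2, a3, a4, a5, a6⟩ := P.node ν h2
    exact ⟨a1, a2, a3, fun p hp hp' => Finset.mem_insert_of_mem (a4 p hp hp'),
      fun h5 => ⟨Finset.mem_insert_of_mem (a5 h5).1, (a5 h5).2⟩, a6⟩
  · intro ν hν
    exact P.lenp ν (List.mem_filter.1 hν).1
  · intro ν hν
    exact P.lenf ν (List.mem_filter.1 hν).1
  · unfold p4w
    have h1 := p4_sum_filter s.pend (fun ν => ν.e.1 ≠ w.1)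
    have h2 : (s.fin.filter (fun ν => ν.e.1 ≠ w.1)).length ≤ s.fin.length :=
      List.length_filter_le _ _
    exact Nat.add_le_add h1 h2

/-- conditions on the parent -/
structure P4C (I : Inst ι L) (K0 : Finset ι) (x0 : ι × Bool) (D : ℕ) (h : SB ι)
    (K : Finset ι) (ν : Nd ι) (w : ι × Bool) : Prop where
  tr : Tr I h x0 ν.m
  cons : Cons I K0 x0 ν.m
  slots : ∀ p ∈ slotsOf ν.m, p ∈ K
  root : x0.1 ∈ K
  wK : w.1 ∈ K
  w0 : w.1 ∉ K0
  ws : w.1 ∉ x0.1 :: slotsOf ν.m
  step : ∀ x', I.outer w = some x' → ∃ b, I.step h (endOf x0 ν.m) b = some (w, x')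
  len : ν.m.length + ν.r = D

theorem p4_new {I : Inst ι L} {K0 : Finset ι} {x0 : ι × Bool} {D : ℕ} {Av : Finset ι} {h : SB ι}
    {K : Finset ι} (hK : K0 ⊆ K) {ν : Nd ι} {w x' : ι × Bool} (C : P4C I K0 x0 D h K ν w)
    (ho : I.outer w = some x') (hxK : x'.1 ∉ K) (hxA : x'.1 ∉ Av) (r : ℕ) (μ : Nd ι)
    (hμ : μ = ⟨x', (w, x') :: ν.m, r⟩) :
    Tr I h x0 μ.m ∧ μ.e = endOf x0 μ.m ∧ Cons I K0 x0 μ.m ∧
    (∀ p ∈ slotsOf μ.m, p ≠ μ.e.1 → p ∈ K) ∧ (μ.m ≠ [] → x0.1 ∈ K ∧ μ.e.1 ∉ Av) ∧
    ∀ a l, μ.m = a :: l → a.2.1 ≠ a.1.1 ∧ I.outer a.1 = some a.2 := by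
  subst hμ
  have hne : x'.1 ≠ w.1 := fun e => hxK (e ▸ C.wK)
  have hxs : x'.1 ∉ x0.1 :: slotsOf ν.m := by
    intro h1
    rcases List.mem_cons.1 h1 with h2 | h2
    · exact hxK (h2 ▸ C.root)
    · exact hxK (C.slots _ h2)
  refine ⟨⟨C.tr, C.step x' ho⟩, rfl, C.cons.out ho C.w0 C.ws (fun h1 => hxK (hK h1)) hxs hne, ?_,
    fun _ => ⟨C.root, hxA⟩, ?_⟩
  · intro p hp hp'
    rw [slotsOf_out (a := (w, x')) hne] at hp
    rcases List.mem_cons.1 hp with h2 | h2
    · exact absurd h2 hp'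
    · rcases List.mem_cons.1 h2 with h3 | h3
      · rw [h3]
        exact C.wK
      · exact C.slots _ h3
  · intro a l hal
    have h1 : (w, x') = a := (List.cons.inj hal).1
    rw [← h1]
    exact ⟨hne, ho⟩

theorem p4_addc {I : Inst ι L} {K0 : Finset ι} {x0 : ι × Bool} {D : ℕ} {Av : Finset ι} {h : SB ι}
    {s : PS ι} (P : P4Q I K0 x0 D Av h s) {ν : Nd ι} {w : ι × Bool}
    (C : P4C I K0 x0 D h s.K ν w) :
    P4Q I K0 x0 D Av h (addc I Av s ν w) ∧
      p4w (addc I Av s ν w) ≤ p4w s + 2 ^ (ν.r - 1) := by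
  unfold addc
  cases ho : I.outer w with
  | none => exact ⟨P, Nat.le_add_right _ _⟩
  | some x' =>
    simp only
    by_cases hc : x'.1 ∈ s.K ∨ x'.1 ∈ Av ∨ x'.1 ∈ s.slots
    · rw [if_pos hc]
      exact ⟨P, Nat.le_add_right _ _⟩
    · rw [if_neg hc]
      push Not at hc
      obtain ⟨hxK, hxA, hxS⟩ := hc
      have hxS' : x'.1 ∉ (s.pend ++ s.fin).map (fun ν => ν.e.1) := by
        intro h1
        exact hxS (by
          unfold PS.slots
          exact List.mem_toFinset.2 h1)
      by_cases hr : ν.r = 0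
      · rw [if_pos hr]
        refine ⟨⟨P.sub, ?_, ?_, ?_, P.lenp, ?_⟩, ?_⟩
        · intro μ hμ
          rcases List.mem_append.1 hμ with h1 | h1
          · exact P.unk μ (List.mem_append_left _ h1)
          · rcases List.mem_cons.1 h1 with h2 | h2
            · rw [h2]
              exact hxK
            · exact P.unk μ (List.mem_append_right _ h2)
        · have hp : ((s.pend ++ (⟨x', (w, x') :: ν.m, 0⟩ : Nd ι) :: s.fin).map
              (fun ν => ν.e.1)).Perm (x'.1 :: (s.pend ++ s.fin).map (fun ν => ν.e.1)) :=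
            List.perm_middle.map (fun ν : Nd ι => ν.e.1)
          exact (hp.nodup_iff).2 (List.nodup_cons.2 ⟨hxS', P.nod⟩)
        · intro μ hμ
          rcases List.mem_append.1 hμ with h1 | h1
          · exact P.node μ (List.mem_append_left _ h1)
          · rcases List.mem_cons.1 h1 with h2 | h2
            · exact p4_new P.sub C ho hxK hxA 0 μ h2
            · exact P.node μ (List.mem_append_right _ h2)
        · intro μ hμ
          rcases List.mem_cons.1 hμ with h2 | h2
          · rw [h2]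
            show ν.m.length + 1 = D + 1
            have := C.len
            omega
          · exact P.lenf μ h2
        · unfold p4w
          show (s.pend.map (fun ν => 2 ^ ν.r)).sum + (s.fin.length + 1) ≤ _
          have h1 : 1 ≤ 2 ^ (ν.r - 1) := Nat.one_le_two_pow
          omega
      · rw [if_neg hr]
        refine ⟨⟨P.sub, ?_, ?_, ?_, ?_, P.lenf⟩, ?_⟩
        · intro μ hμ
          rcases List.mem_cons.1 hμ with h2 | h2
          · rw [h2]
            exact hxK
          · exact P.unk μ h2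
        · exact List.nodup_cons.2 ⟨hxS', P.nod⟩
        · intro μ hμ
          rcases List.mem_cons.1 hμ with h2 | h2
          · exact p4_new P.sub C ho hxK hxA (ν.r - 1) μ h2
          · exact P.node μ h2
        · intro μ hμ
          rcases List.mem_cons.1 hμ with h2 | h2
          · rw [h2]
            show ν.m.length + 1 + (ν.r - 1) = D
            have := C.len
            omega
          · exact P.lenp μ h2
        · unfold p4w
          show (((⟨x', (w, x') :: ν.m, ν.r - 1⟩ : Nd ι) :: s.pend).map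
            (fun ν => 2 ^ ν.r)).sum + s.fin.length ≤ _
          rw [List.map_cons, List.sum_cons]
          show 2 ^ (ν.r - 1) + _ + _ ≤ _
          omega

theorem pinv_c {I : Inst ι L} {K0 : Finset ι} {x0 : ι × Bool} {D : ℕ} {Av : Finset ι} {h : SB ι}
    {s : PS ι} (P : PInv I K0 x0 D Av h s) {ν : Nd ι} (ha : s.act = some ν) {y : ι × Bool}
    (hy : I.Mc (ap h ν.e) = some y) : PInv I K0 x0 D Av h (pstep I Av h s) := by
  obtain ⟨he, hT, hend, hC, hsl, hroot, hch⟩ := P.actv ν ha
  have hlen := P.lena ν ha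
  have hMd := Mc_Md I hy
  set w := pa h y with hw
  have hapw : ap h w = y := ap_pa h y
  -- the chain condition
  have hch' : y.1 ∉ lk s.K h ∧ ∀ r, ν.r = r + 1 → chainOK I r (insert y.1 (lk s.K h)) (flip y) := by
    cases hr : ν.r with
    | zero =>
      rw [hr] at hch
      rcases hch with ⟨z, hz, hz2⟩ | ⟨l, hl, -⟩
      · rw [hy] at hz
        rw [Option.some.inj hz]
        exact ⟨hz2, fun r hr => by omega⟩
      · rw [hMd] at hl
        exact absurd hl (by simp)
    | succ r =>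
      rw [hr] at hch
      rcases hch with ⟨z, hz, hz2, hz3⟩ | ⟨l, hl, -⟩
      · rw [hy] at hz
        rw [← Option.some.inj hz] at hz2 hz3
        refine ⟨hz2, fun r' hr' => ?_⟩
        have : r' = r := by omega
        rw [this]
        exact hz3
      · rw [hMd] at hl
        exact absurd hl (by simp)
  obtain ⟨hyl, hch2⟩ := hch'
  have hwK : w.1 ∉ s.K := by
    intro h1
    exact hyl (mem_lk.2 (by rw [← pa_fst]; exact h1))
  have hws : w.1 ∉ x0.1 :: slotsOf ν.m := by
    intro h1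
    rcases List.mem_cons.1 h1 with h2 | h2
    · exact hwK (h2 ▸ hroot)
    · exact hwK (hsl _ h2)
  have hw0 : w.1 ∉ K0 := fun h1 => hwK (P.sub h1)
  have hstep := step_c I h hy
  rw [← hw, hend] at hstep
  obtain ⟨Q1, q1⟩ := p4_locate (p4_of_inv P) w
  have C : P4C I K0 x0 D h (locate s w).K ν w := by
    refine ⟨hT, hC, fun p hp => Finset.mem_insert_of_mem (hsl p hp),
      Finset.mem_insert_of_mem hroot, Finset.mem_insert_self _ _, hw0, hws, ?_, hlen⟩
    intro x' hx'
    refine ⟨false, ?_⟩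
    rw [hstep.2, hx']
    rfl
  obtain ⟨Q2, q2⟩ := p4_addc Q1 C
  obtain ⟨hK2, hA2⟩ := addc_K I Av (locate s w) ν w
  have hcount := P.count
  rw [ha] at hcount
  have hcount' : p4w s + 2 ^ ν.r ≤ 2 ^ D := by
    unfold p4w
    have h1 : (some ν : Option (Nd ι)).elim 0 (fun ν => 2 ^ ν.r) = 2 ^ ν.r := rfl
    rw [h1] at hcount
    omega
  by_cases hr : ν.r = 0
  · have hps : pstep I Av h s = addc I Av (locate s w) ν w := by
      unfold pstep
      rw [ha]
      simp only
      rw [hy]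
      simp only
      rw [if_pos hr]
    rw [hps]
    have hact : (addc I Av (locate s w) ν w).act = none := by
      rw [hA2]
      rfl
    refine ⟨Q2.sub, Q2.unk, Q2.nod, Q2.node, ?_, Q2.lenp, ?_, Q2.lenf, ?_⟩
    · intro μ hμ
      rw [hact] at hμ
      exact absurd hμ (by simp)
    · intro μ hμ
      rw [hact] at hμ
      exact absurd hμ (by simp)
    · rw [hact]
      have h1 : (none : Option (Nd ι)).elim 0 (fun ν => 2 ^ ν.r) = 0 := rfl
      rw [h1]
      unfold p4w at q2 q1 hcount'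
      rw [hr] at q2 hcount'
      simp only [Nat.zero_sub, pow_zero] at q2 hcount'
      omega
  · obtain ⟨r, hr'⟩ : ∃ r, ν.r = r + 1 := ⟨ν.r - 1, by omega⟩
    have hps : pstep I Av h s = { addc I Av (locate s w) ν w with
        act := some ⟨flip w, (w, flip w) :: ν.m, ν.r - 1⟩ } := by
      unfold pstep
      rw [ha]
      simp only
      rw [hy]
      simp only
      rw [if_neg hr]
    rw [hps]
    refine ⟨Q2.sub, Q2.unk, Q2.nod, Q2.node, ?_, Q2.lenp, ?_, Q2.lenf, ?_⟩
    · intro μ hμ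
      have hμ' : μ = ⟨flip w, (w, flip w) :: ν.m, ν.r - 1⟩ := (Option.some.inj hμ).symm
      rw [hμ']
      simp only
      rw [hK2]
      have hlk : lk (insert w.1 s.K) h = insert y.1 (lk s.K h) := by
        unfold lk
        rw [Finset.image_insert]
        congr 1
        rw [hw, pa_fst]
        exact Equiv.apply_symm_apply _ _
      refine ⟨Finset.mem_insert_self _ _, ⟨hT, true, hstep.1⟩, rfl, hC.mid hw0 hws, ?_,
        Finset.mem_insert_of_mem hroot, ?_⟩
      · intro p hp
        rw [slotsOf_mid (a := (w, flip w)) rfl] at hp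
        rcases List.mem_cons.1 hp with h2 | h2
        · rw [h2]
          exact Finset.mem_insert_self _ _
        · exact Finset.mem_insert_of_mem (hsl p h2)
      · show chainOK I (ν.r - 1) (lk (insert w.1 s.K) h) (ap h (flip w))
        rw [ap_flip, hapw, hlk, hr']
        exact hch2 r hr'
    · intro μ hμ
      have hμ' : μ = ⟨flip w, (w, flip w) :: ν.m, ν.r - 1⟩ := (Option.some.inj hμ).symm
      rw [hμ']
      show ν.m.length + 1 + (ν.r - 1) = D
      omega
    · show ((addc I Av (locate s w) ν w).pend.map (fun ν => 2 ^ ν.r)).sum + 2 ^ (ν.r - 1) +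
        (addc I Av (locate s w) ν w).fin.length ≤ 2 ^ D
      unfold p4w at q2 q1 hcount'
      rw [hr', pow_succ] at hcount'
      rw [hr', Nat.add_sub_cancel] at q2 ⊢
      omega

end Pool.Agent.H38H
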