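import Pool.Agent.Lib.H38H.P2

/-!
Chunk SLP5 (M/L). The link query of a d-link preserves the invariant (and the impossible case without partner).

Proof. As in `P4.lean`: `s.act = some ν`, `I.Mc (ap h ν.e) = none`, `I.Md (ap h ν.e).1 = some l`, `w = pa h (l, false)`,
`flip w = pa h (l, true)`. Children: `(w, x') :: ν.m` (step with bit false) and `(flip w, x'') :: ν.m` (bit true), with
`step_d`. The second `addc` tests against the slots after the first one. If there is no partner at all the chain condition fails, so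
this case does not occur (but the statement is true anyway: `P.actv` gives a contradiction).
-/

set_option autoImplicit false

namespace Pool.Agent.H38H

open Classical

variable {ι : Type} [Fintype ι] {L : ℕ}

/-- the quantity bounded by `count` -/
noncomputable def slp5_tot (s : PS ι) : ℕ :=
  (s.pend.map (fun ν => 2 ^ ν.r)).sum + (s.act.elim 0 (fun ν => 2 ^ ν.r)) + s.fin.length

theorem slp5_slots {s : PS ι} {p : ι} : p ∈ s.slots ↔ ∃ ν ∈ s.pend ++ s.fin, ν.e.1 = p := by
  unfold PS.slots
  rw [List.mem_toFinset, List.mem_map]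

theorem slp5_sum_filter (l : List (Nd ι)) (q : Nd ι → Bool) :
    ((l.filter q).map (fun ν => 2 ^ ν.r)).sum ≤ (l.map (fun ν => 2 ^ ν.r)).sum := by
  induction l with
  | nil => simp
  | cons a l ih =>
    rw [List.filter_cons]
    split_ifs
    · rw [List.map_cons, List.map_cons, List.sum_cons, List.sum_cons]
      omega
    · rw [List.map_cons, List.sum_cons]
      exact ih.trans (Nat.le_add_left _ _)

/-- locating a link -/
theorem slp5_locate {I : Inst ι L} {K0 : Finset ι} {x0 : ι × Bool} {D : ℕ} {Av : Finset ι} {h : SB ι}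
    {s : PS ι} (P : PInv I K0 x0 D Av h s) {ν : Nd ι} (ha : s.act = some ν) (w : ι × Bool) :
    PInv I K0 x0 D Av h (locate s w) ∧ slp5_tot (locate s w) + 2 ^ ν.r ≤ 2 ^ D := by
  have hsub : ∀ μ ∈ (locate s w).pend ++ (locate s w).fin, μ ∈ s.pend ++ s.fin ∧ μ.e.1 ≠ w.1 := by
    intro μ hμ
    rw [List.mem_append] at hμ ⊢
    rcases hμ with h1 | h1
    · have h2 := List.mem_filter.1 h1
      exact ⟨Or.inl h2.1, by simpa using h2.2⟩
    · have h2 := List.mem_filter.1 h1
      exact ⟨Or.inr h2.1, by simpa using h2.2⟩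
  have htot : slp5_tot (locate s w) + 2 ^ ν.r ≤ 2 ^ D := by
    have hc := P.count
    rw [ha] at hc
    change (s.pend.map (fun ν => 2 ^ ν.r)).sum + 2 ^ ν.r + s.fin.length ≤ 2 ^ D at hc
    have h1 := slp5_sum_filter s.pend (fun ν => decide (ν.e.1 ≠ w.1))
    have h2 : (s.fin.filter (fun ν => decide (ν.e.1 ≠ w.1))).length ≤ s.fin.length :=
      List.length_filter_le _ _
    change ((s.pend.filter (fun ν => decide (ν.e.1 ≠ w.1))).map (fun ν => 2 ^ ν.r)).sum + 0 +
      (s.fin.filter (fun ν => decide (ν.e.1 ≠ w.1))).length + 2 ^ ν.r ≤ 2 ^ D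
    omega
  refine ⟨
    { sub := P.sub.trans (Finset.subset_insert _ _)
      unk := ?_
      nod := ?_
      node := ?_
      actv := ?_
      lenp := ?_
      lena := ?_
      lenf := ?_
      count := ?_ }, htot⟩
  · intro μ hμ h1
    obtain ⟨h2, h3⟩ := hsub μ hμ
    rcases Finset.mem_insert.1 h1 with h4 | h4
    · exact h3 h4
    · exact P.unk μ h2 h4
  · have h1 : (locate s w).pend ++ (locate s w).fin =
        (s.pend ++ s.fin).filter (fun ν => decide (ν.e.1 ≠ w.1)) := by
      rw [List.filter_append]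
      rfl
    rw [h1]
    exact P.nod.sublist (List.filter_sublist.map _)
  · intro μ hμ
    obtain ⟨h2, h3⟩ := hsub μ hμ
    obtain ⟨m1, m2, m3, m4, m5, m6⟩ := P.node μ h2
    exact ⟨m1, m2, m3, fun p hp hpe => Finset.mem_insert_of_mem (m4 p hp hpe),
      fun h0 => ⟨Finset.mem_insert_of_mem (m5 h0).1, (m5 h0).2⟩, m6⟩
  · intro μ hμ
    exact absurd hμ (by simp [locate])
  · intro μ hμ
    exact P.lenp μ (List.mem_filter.1 hμ).1
  · intro μ hμ
    exact absurd hμ (by simp [locate])
  · intro μ hμ
    exact P.lenf μ (List.mem_filter.1 hμ).1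
  · have := Nat.zero_le (2 ^ ν.r)
    exact le_trans (Nat.le_add_right _ _) htot

/-- adding a child -/
theorem slp5_addc {I : Inst ι L} {K0 : Finset ι} {x0 : ι × Bool} {D : ℕ} {Av : Finset ι} {h : SB ι}
    {s : PS ι} (P : PInv I K0 x0 D Av h s) {ν : Nd ι} {w : ι × Bool} (hw : w.1 ∈ s.K) (hw0 : w.1 ∉ K0)
    (hw1 : w.1 ∉ x0.1 :: slotsOf ν.m) (hT : Tr I h x0 ν.m) (hC : Cons I K0 x0 ν.m)
    (hs : ∀ p ∈ x0.1 :: slotsOf ν.m, p ∈ s.K) (hl : ν.m.length + ν.r = D)
    (hst : ∃ b, I.step h (endOf x0 ν.m) b = (I.outer w).map (fun x' => (w, x')))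
    (hc : slp5_tot s + (if ν.r = 0 then 1 else 2 ^ (ν.r - 1)) ≤ 2 ^ D) :
    PInv I K0 x0 D Av h (addc I Av s ν w) ∧
      slp5_tot (addc I Av s ν w) ≤ slp5_tot s + (if ν.r = 0 then 1 else 2 ^ (ν.r - 1)) := by
  cases ho : I.outer w with
  | none =>
    have h1 : addc I Av s ν w = s := by
      unfold addc
      rw [ho]
    rw [h1]
    exact ⟨P, Nat.le_add_right _ _⟩
  | some x' =>
    by_cases hx : x'.1 ∈ s.K ∨ x'.1 ∈ Av ∨ x'.1 ∈ s.slots
    · have h1 : addc I Av s ν w = s := by
        unfold addc
        rw [ho]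
        exact if_pos hx
      rw [h1]
      exact ⟨P, Nat.le_add_right _ _⟩
    · have hx' := hx
      push Not at hx'
      obtain ⟨hxK, hxA, hxS⟩ := hx'
      have hxne : ∀ μ ∈ s.pend ++ s.fin, μ.e.1 ≠ x'.1 := fun μ hμ h1 =>
        hxS (slp5_slots.2 ⟨μ, hμ, h1⟩)
      have hwx : x'.1 ≠ w.1 := fun h1 => hxK (h1 ▸ hw)
      have hTr : Tr I h x0 ((w, x') :: ν.m) := by
        obtain ⟨b, hb⟩ := hst
        refine ⟨hT, b, ?_⟩
        rw [hb, ho]
        rfl
      have hCons : Cons I K0 x0 ((w, x') :: ν.m) :=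
        hC.out ho hw0 hw1 (fun h1 => hxK (P.sub h1)) (fun h1 => hxK (hs _ h1)) hwx
      have hnode : ∀ r : ℕ, Tr I h x0 ((⟨x', (w, x') :: ν.m, r⟩ : Nd ι)).m ∧
          ((⟨x', (w, x') :: ν.m, r⟩ : Nd ι)).e = endOf x0 ((⟨x', (w, x') :: ν.m, r⟩ : Nd ι)).m ∧
          Cons I K0 x0 ((⟨x', (w, x') :: ν.m, r⟩ : Nd ι)).m ∧
          (∀ p ∈ slotsOf ((⟨x', (w, x') :: ν.m, r⟩ : Nd ι)).m, p ≠ x'.1 → p ∈ s.K) ∧
          (((⟨x', (w, x') :: ν.m, r⟩ : Nd ι)).m ≠ [] → x0.1 ∈ s.K ∧ x'.1 ∉ Av) ∧
          ∀ a l, ((⟨x', (w, x') :: ν.m, r⟩ : Nd ι)).m = a :: l → a.2.1 ≠ a.1.1 ∧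
            I.outer a.1 = some a.2 := by
        intro r
        refine ⟨hTr, rfl, hCons, ?_, ?_, ?_⟩
        · intro p hp hpe
          have hp' : p ∈ slotsOf (((w, x') : Mv ι) :: ν.m) := hp
          rw [slotsOf_out (show ((w, x') : Mv ι).2.1 ≠ ((w, x') : Mv ι).1.1 from hwx)] at hp'
          rcases List.mem_cons.1 hp' with h1 | h1
          · exact absurd h1 hpe
          · rcases List.mem_cons.1 h1 with h2 | h2
            · rw [h2]
              exact hw
            · exact hs _ (List.mem_cons_of_mem _ h2)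
        · intro _
          exact ⟨hs _ List.mem_cons_self, hxA⟩
        · intro a l hal
          have h1 : ((w, x') : Mv ι) = a := (List.cons.inj hal).1
          rw [← h1]
          exact ⟨hwx, ho⟩
      by_cases hr : ν.r = 0
      · have h1 : addc I Av s ν w = { s with fin := ⟨x', (w, x') :: ν.m, 0⟩ :: s.fin } := by
          unfold addc
          rw [ho]
          change (if x'.1 ∈ s.K ∨ x'.1 ∈ Av ∨ x'.1 ∈ s.slots then s else _) = _
          rw [if_neg hx, if_pos hr]
        rw [h1, if_pos hr]
        rw [if_pos hr] at hc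
        have hperm : (s.pend ++ (⟨x', (w, x') :: ν.m, 0⟩ : Nd ι) :: s.fin).Perm
            ((⟨x', (w, x') :: ν.m, 0⟩ : Nd ι) :: (s.pend ++ s.fin)) := List.perm_middle
        have htot : slp5_tot { s with fin := (⟨x', (w, x') :: ν.m, 0⟩ : Nd ι) :: s.fin } =
            slp5_tot s + 1 := by
          unfold slp5_tot
          dsimp only
          rw [List.length_cons]
          omega
        refine ⟨
          { sub := P.sub
            unk := ?_
            nod := ?_
            node := ?_
            actv := P.actv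
            lenp := P.lenp
            lena := P.lena
            lenf := ?_
            count := ?_ }, htot.le⟩
        · intro μ hμ
          rcases List.mem_cons.1 (hperm.mem_iff.1 hμ) with h2 | h2
          · rw [h2]
            exact hxK
          · exact P.unk μ h2
        · rw [(hperm.map (fun ν => ν.e.1)).nodup_iff, List.map_cons, List.nodup_cons]
          refine ⟨?_, P.nod⟩
          intro h2
          obtain ⟨μ, hμ, h3⟩ := List.mem_map.1 h2
          exact hxne μ hμ h3
        · intro μ hμ
          rcases List.mem_cons.1 (hperm.mem_iff.1 hμ) with h2 | h2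
          · rw [h2]
            exact hnode 0
          · exact P.node μ h2
        · intro μ hμ
          rcases List.mem_cons.1 hμ with h2 | h2
          · rw [h2]
            change ν.m.length + 1 = D + 1
            omega
          · exact P.lenf μ h2
        · exact htot.le.trans hc
      · have h1 : addc I Av s ν w = { s with pend := ⟨x', (w, x') :: ν.m, ν.r - 1⟩ :: s.pend } := by
          unfold addc
          rw [ho]
          change (if x'.1 ∈ s.K ∨ x'.1 ∈ Av ∨ x'.1 ∈ s.slots then s else _) = _
          rw [if_neg hx, if_neg hr]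
        rw [h1, if_neg hr]
        rw [if_neg hr] at hc
        have htot : slp5_tot { s with pend := (⟨x', (w, x') :: ν.m, ν.r - 1⟩ : Nd ι) :: s.pend } =
            slp5_tot s + 2 ^ (ν.r - 1) := by
          unfold slp5_tot
          dsimp only
          rw [List.map_cons, List.sum_cons]
          dsimp only
          omega
        refine ⟨
          { sub := P.sub
            unk := ?_
            nod := ?_
            node := ?_
            actv := P.actv
            lenp := ?_
            lena := P.lena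
            lenf := P.lenf
            count := ?_ }, htot.le⟩
        · intro μ hμ
          rcases List.mem_cons.1 hμ with h2 | h2
          · rw [h2]
            exact hxK
          · exact P.unk μ h2
        · change (((⟨x', (w, x') :: ν.m, ν.r - 1⟩ : Nd ι) :: (s.pend ++ s.fin)).map
            (fun ν => ν.e.1)).Nodup
          rw [List.map_cons, List.nodup_cons]
          refine ⟨?_, P.nod⟩
          intro h2
          obtain ⟨μ, hμ, h3⟩ := List.mem_map.1 h2
          exact hxne μ hμ h3
        · intro μ hμ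
          rcases List.mem_cons.1 hμ with h2 | h2
          · rw [h2]
            exact hnode _
          · exact P.node μ h2
        · intro μ hμ
          rcases List.mem_cons.1 hμ with h2 | h2
          · rw [h2]
            change ν.m.length + 1 + (ν.r - 1) = D
            omega
          · exact P.lenp μ h2
        · exact htot.le.trans hc

theorem pinv_d {I : Inst ι L} {K0 : Finset ι} {x0 : ι × Bool} {D : ℕ} {Av : Finset ι} {h : SB ι}
    {s : PS ι} (P : PInv I K0 x0 D Av h s) {ν : Nd ι} (ha : s.act = some ν)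
    (hy : I.Mc (ap h ν.e) = none) : PInv I K0 x0 D Av h (pstep I Av h s) := by
  obtain ⟨a1, a2, a3, a4, a5, a6, a7⟩ := P.actv ν ha
  have hl := P.lena ν ha
  have hch : ∃ l, I.Md (ap h ν.e).1 = some l ∧ l ∉ lk s.K h := by
    cases hr : ν.r with
    | zero =>
      rw [hr] at a7
      rcases a7 with ⟨z, hz, -⟩ | h1
      · rw [hy] at hz
        exact absurd hz (by simp)
      · exact h1
    | succ r =>
      rw [hr] at a7
      rcases a7 with ⟨z, hz, -⟩ | h1
      · rw [hy] at hz
        exact absurd hz (by simp)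
      · exact h1
  obtain ⟨l, hMd, hlk⟩ := hch
  rw [mem_lk] at hlk
  have hfl : pa h (l, true) = flip (pa h (l, false)) := pa_flip h (l, false)
  have hs : pstep I Av h s = if ν.r = 0 then addc I Av (locate s (pa h (l, false))) ν (pa h (l, false))
      else addc I Av (addc I Av (locate s (pa h (l, false))) ν (pa h (l, false))) ν
        (flip (pa h (l, false))) := by
    unfold pstep
    rw [ha]
    change (match I.Mc (ap h ν.e) with
      | some y => _
      | none => _) = _
    rw [hy]
    change (match I.Md (ap h ν.e).1 with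
      | some l => _
      | none => _) = _
    rw [hMd]
  have hw : (pa h (l, false)).1 ∉ s.K := hlk
  obtain ⟨P1, hc1⟩ := slp5_locate P ha (pa h (l, false))
  have hwK : (pa h (l, false)).1 ∈ (locate s (pa h (l, false))).K := Finset.mem_insert_self _ _
  have hsub : s.K ⊆ (locate s (pa h (l, false))).K := Finset.subset_insert _ _
  have hsl : ∀ p ∈ x0.1 :: slotsOf ν.m, p ∈ s.K := by
    intro p hp
    rcases List.mem_cons.1 hp with h1 | h1
    · rw [h1]
      exact a6
    · exact a5 p h1
  have hw0 : (pa h (l, false)).1 ∉ K0 := fun h1 => hw (P.sub h1)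
  have hw1 : (pa h (l, false)).1 ∉ x0.1 :: slotsOf ν.m := fun h1 => hw (hsl _ h1)
  have hst : ∀ b : Bool, I.step h (endOf x0 ν.m) b =
      (I.outer (pa h (l, b))).map (fun x' => (pa h (l, b), x')) := by
    intro b
    rw [← a3]
    exact step_d I h hMd b
  rw [hs]
  by_cases hr : ν.r = 0
  · rw [if_pos hr]
    refine (slp5_addc P1 hwK hw0 hw1 a2 a4 (fun p hp => hsub (hsl p hp)) hl ⟨false, hst false⟩ ?_).1
    rw [if_pos hr]
    rw [hr, pow_zero] at hc1
    exact hc1
  · rw [if_neg hr]
    have h2p : 0 < 2 ^ (ν.r - 1) := by positivity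
    have h2r : 2 ^ ν.r = 2 ^ (ν.r - 1) + 2 ^ (ν.r - 1) := by
      obtain ⟨r, hr'⟩ := Nat.exists_eq_succ_of_ne_zero hr
      rw [hr', Nat.succ_sub_one, pow_succ]
      omega
    obtain ⟨P2, hc2⟩ := slp5_addc P1 hwK hw0 hw1 a2 a4 (fun p hp => hsub (hsl p hp)) hl
      ⟨false, hst false⟩ (by rw [if_neg hr]; omega)
    rw [if_neg hr] at hc2
    have hK2 : (addc I Av (locate s (pa h (l, false))) ν (pa h (l, false))).K =
        (locate s (pa h (l, false))).K := (addc_K I Av _ ν _).1
    refine (slp5_addc P2 (w := flip (pa h (l, false))) (by rw [hK2]; exact hwK) hw0 hw1 a2 a4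
      (fun p hp => by rw [hK2]; exact hsub (hsl p hp)) hl ⟨true, ?_⟩ ?_).1
    · rw [hst true, hfl]
    · rw [if_neg hr]
      omega

end Pool.Agent.H38H
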