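import Pool.Agent.Lib.H38H.P3
import Pool.Agent.Lib.H38H.P4
import Pool.Agent.Lib.H38H.P5

/-!
Chunk SLP6 (S/M). Termination and the process with `k` queries.

Proofs. `cost s = sum over pend of (4 * 2^r - 2) + (active: 4 * 2^r - 3)`. Every query with work left decreases the cost by at least 1:
slot query: `4*2^r - 2` is replaced by at most `4*2^r - 3`; link query with `r = r'+1`: `4*2^(r'+1) - 3` is replaced by at most
`(4*2^r' - 2) + (4*2^r' - 3)` or `2 (4*2^r' - 2)`, with `r = 0`: `1` is replaced by 0 (finished nodes cost nothing; filtering only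
decreases). A state with `act = none`, `pend = []` is a fixed point of `pstep`. The initial cost is `4 * 2^D - 2`.
`stop_prun`: induction on `k` with `pstep_congr`, `PInv.congr`.
-/

set_option autoImplicit false

namespace Pool.Agent.H38H

open Classical

variable {ι : Type} [Fintype ι] {L : ℕ}

theorem pinv_step {I : Inst ι L} {K0 : Finset ι} {x0 : ι × Bool} {D : ℕ} {Av : Finset ι} {h : SB ι}
    {s : PS ι} (P : PInv I K0 x0 D Av h s) : PInv I K0 x0 D Av h (pstep I Av h s) := by
  cases ha : s.act with
  | none => exact pinv_slot P ha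
  | some ν =>
    cases hy : I.Mc (ap h ν.e) with
    | none => exact pinv_d P ha hy
    | some y => exact pinv_c P ha hy

theorem pinv_prun {I : Inst ι L} {K0 : Finset ι} {x0 : ι × Bool} {D : ℕ} {Av : Finset ι} {h : SB ι}
    {s : PS ι} (P : PInv I K0 x0 D Av h s) (k : ℕ) : PInv I K0 x0 D Av h (prun I Av h k s) := by
  induction k generalizing s with
  | zero => exact P
  | succ k ih =>
    unfold prun at ih ⊢
    rw [Function.iterate_succ_apply]
    exact ih (pinv_step P)

theorem prun_K_card (I : Inst ι L) (Av : Finset ι) (h : SB ι) (k : ℕ) (s : PS ι) :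
    (prun I Av h k s).K.card ≤ s.K.card + k := by
  induction k generalizing s with
  | zero => exact le_rfl
  | succ k ih =>
    unfold prun at ih ⊢
    rw [Function.iterate_succ_apply]
    have h1 := ih (pstep I Av h s)
    have h2 := pstep_K_card I Av h s
    omega

theorem prun_K_sub (I : Inst ι L) (Av : Finset ι) (h : SB ι) (k : ℕ) (s : PS ι) :
    s.K ⊆ (prun I Av h k s).K := by
  induction k generalizing s with
  | zero => exact subset_rfl
  | succ k ih =>
    unfold prun at ih ⊢
    rw [Function.iterate_succ_apply]
    exact (pstep_K_sub I Av h s).trans (ih _)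

theorem prun_congr {I : Inst ι L} {K0 : Finset ι} {x0 : ι × Bool} {D : ℕ} {Av : Finset ι} {h h' : SB ι}
    {s : PS ι} (P : PInv I K0 x0 D Av h s) (k : ℕ) (hh : h' ∈ cyl (prun I Av h k s).K h) :
    prun I Av h' k s = prun I Av h k s := by
  induction k with
  | zero => rfl
  | succ k ih =>
    have e1 : ∀ g : SB ι, prun I Av g (k + 1) s = pstep I Av g (prun I Av g k s) := fun g => by
      unfold prun
      rw [Function.iterate_succ_apply']
    rw [e1 h] at hh
    have h1 : h' ∈ cyl (prun I Av h k s).K h := cyl_mono (pstep_K_sub I Av h _) h hh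
    rw [e1 h', e1 h, ih h1]
    exact pstep_congr (pinv_prun P k) hh

theorem stop_prun {I : Inst ι L} {K0 : Finset ι} {x0 : ι × Bool} {D : ℕ} {Av : Finset ι} {h : SB ι}
    {s : PS ι} (P : PInv I K0 x0 D Av h s) (k : ℕ) : Stop s.K h (fun h' => (prun I Av h' k s).K) := by
  refine ⟨fun h' _ => prun_K_sub I Av h' k s, fun h' hh' h'' hh'' => ?_⟩
  change (prun I Av h'' k s).K = (prun I Av h' k s).K
  rw [prun_congr (P.congr hh') k hh'']

/-- cost of the pending nodes -/
noncomputable def slp6_pc (s : PS ι) : ℕ := (s.pend.map (fun ν => 4 * 2 ^ ν.r - 2)).sum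

/-- cost -/
noncomputable def slp6_cost (s : PS ι) : ℕ := slp6_pc s + s.act.elim 0 (fun ν => 4 * 2 ^ ν.r - 3)

omit [Fintype ι] in
theorem slp6_filter (l : List (Nd ι)) (q : Nd ι → Bool) :
    ((l.filter q).map (fun ν => 4 * 2 ^ ν.r - 2)).sum ≤ (l.map (fun ν => 4 * 2 ^ ν.r - 2)).sum := by
  induction l with
  | nil => simp
  | cons a l ih =>
    rw [List.filter_cons]
    split_ifs
    · rw [List.map_cons, List.map_cons, List.sum_cons, List.sum_cons]
      exact Nat.add_le_add_left ih _
    · rw [List.map_cons, List.sum_cons]
      exact ih.trans (Nat.le_add_left _ _)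

omit [Fintype ι] in
theorem slp6_locate (s : PS ι) (w : ι × Bool) : slp6_pc (locate s w) ≤ slp6_pc s :=
  slp6_filter s.pend _

theorem slp6_addc (I : Inst ι L) (Av : Finset ι) (s : PS ι) (ν : Nd ι) (w : ι × Bool) :
    slp6_pc (addc I Av s ν w) ≤ slp6_pc s + (if ν.r = 0 then 0 else 4 * 2 ^ (ν.r - 1) - 2) := by
  cases ho : I.outer w with
  | none =>
    have h1 : addc I Av s ν w = s := by
      unfold addc
      rw [ho]
    rw [h1]
    exact Nat.le_add_right _ _
  | some x' =>
    have h1 : addc I Av s ν w = if x'.1 ∈ s.K ∨ x'.1 ∈ Av ∨ x'.1 ∈ s.slots then s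
        else if ν.r = 0 then { s with fin := ⟨x', (w, x') :: ν.m, 0⟩ :: s.fin }
        else { s with pend := ⟨x', (w, x') :: ν.m, ν.r - 1⟩ :: s.pend } := by
      unfold addc
      rw [ho]
    rw [h1]
    split_ifs with h2 h3
    · exact Nat.le_add_right _ _
    · exact Nat.le_add_right _ _
    · exact le_rfl
    · unfold slp6_pc
      dsimp only
      rw [List.map_cons, List.sum_cons]
      dsimp only
      omega

theorem slp6_step (I : Inst ι L) (Av : Finset ι) (h : SB ι) (s : PS ι) :
    (s.act = none ∧ s.pend = [] ∧ pstep I Av h s = s) ∨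
      slp6_cost (pstep I Av h s) + 1 ≤ slp6_cost s := by
  cases ha : s.act with
  | none =>
    cases hp : s.pend with
    | nil =>
      left
      refine ⟨rfl, rfl, ?_⟩
      unfold pstep
      rw [ha, hp]
    | cons ν rest =>
      right
      have hs : pstep I Av h s = { K := insert ν.e.1 s.K
                                   act := if chainOK I ν.r (lk (insert ν.e.1 s.K) h) (ap h ν.e) then some ν
                                     else none
                                   pend := rest
                                   fin := s.fin } := by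
        unfold pstep
        rw [ha, hp]
      rw [hs]
      have hpos : 0 < 2 ^ ν.r := by positivity
      unfold slp6_cost slp6_pc
      rw [ha, hp, List.map_cons, List.sum_cons]
      dsimp only
      split_ifs
      · change (rest.map (fun ν => 4 * 2 ^ ν.r - 2)).sum + (4 * 2 ^ ν.r - 3) + 1 ≤
          4 * 2 ^ ν.r - 2 + (rest.map (fun ν => 4 * 2 ^ ν.r - 2)).sum + 0
        omega
      · change (rest.map (fun ν => 4 * 2 ^ ν.r - 2)).sum + 0 + 1 ≤
          4 * 2 ^ ν.r - 2 + (rest.map (fun ν => 4 * 2 ^ ν.r - 2)).sum + 0
        omega
  | some ν =>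
    right
    have hpos : 0 < 2 ^ ν.r := by positivity
    have hcs : slp6_cost s = slp6_pc s + (4 * 2 ^ ν.r - 3) := by
      unfold slp6_cost
      rw [ha]
      rfl
    have hact : ∀ w w' : ι × Bool, (addc I Av (locate s w) ν w').act = none := fun w w' =>
      (addc_K I Av (locate s w) ν w').2
    have hact2 : ∀ w w' w'' : ι × Bool, (addc I Av (addc I Av (locate s w) ν w') ν w'').act = none :=
      fun w w' w'' => ((addc_K I Av _ ν w'').2).trans (hact w w')
    have hr0 : ∀ w w' : ι × Bool, ν.r = 0 → slp6_cost (addc I Av (locate s w) ν w') + 1 ≤ slp6_cost s := by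
      intro w w' hr
      have h1 := slp6_addc I Av (locate s w) ν w'
      have h2 := slp6_locate s w
      rw [if_pos hr] at h1
      rw [hcs]
      unfold slp6_cost
      rw [hact]
      change slp6_pc _ + 0 + 1 ≤ _
      omega
    have hr1 : ν.r ≠ 0 → 2 ^ ν.r = 2 ^ (ν.r - 1) + 2 ^ (ν.r - 1) ∧ 0 < 2 ^ (ν.r - 1) := by
      intro hr
      obtain ⟨r, hr'⟩ := Nat.exists_eq_succ_of_ne_zero hr
      rw [hr', Nat.succ_sub_one, pow_succ]
      exact ⟨by omega, by positivity⟩
    cases hy : I.Mc (ap h ν.e) with
    | some y =>
      by_cases hr : ν.r = 0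
      · have hs : pstep I Av h s = addc I Av (locate s (pa h y)) ν (pa h y) := by
          unfold pstep
          rw [ha]
          dsimp only
          rw [hy]
          dsimp only
          rw [if_pos hr]
        rw [hs]
        exact hr0 _ _ hr
      · have hs : pstep I Av h s = { addc I Av (locate s (pa h y)) ν (pa h y) with
              act := some ⟨flip (pa h y), (pa h y, flip (pa h y)) :: ν.m, ν.r - 1⟩ } := by
          unfold pstep
          rw [ha]
          dsimp only
          rw [hy]
          dsimp only
          rw [if_neg hr]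
        obtain ⟨h3, h4⟩ := hr1 hr
        have h1 := slp6_addc I Av (locate s (pa h y)) ν (pa h y)
        have h2 := slp6_locate s (pa h y)
        rw [if_neg hr] at h1
        rw [hs, hcs]
        change slp6_pc (addc I Av (locate s (pa h y)) ν (pa h y)) + (4 * 2 ^ (ν.r - 1) - 3) + 1 ≤ _
        omega
    | none =>
      cases hd : I.Md (ap h ν.e).1 with
      | none =>
        have hs : pstep I Av h s = { s with act := none } := by
          unfold pstep
          rw [ha]
          dsimp only
          rw [hy]
          dsimp only
          rw [hd]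
        rw [hs, hcs]
        change slp6_pc s + 0 + 1 ≤ _
        omega
      | some l =>
        by_cases hr : ν.r = 0
        · have hs : pstep I Av h s = addc I Av (locate s (pa h (l, false))) ν (pa h (l, false)) := by
            unfold pstep
            rw [ha]
            dsimp only
            rw [hy]
            dsimp only
            rw [hd]
            dsimp only
            rw [if_pos hr]
          rw [hs]
          exact hr0 _ _ hr
        · have hs : pstep I Av h s = addc I Av (addc I Av (locate s (pa h (l, false))) ν (pa h (l, false))) ν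
              (flip (pa h (l, false))) := by
            unfold pstep
            rw [ha]
            dsimp only
            rw [hy]
            dsimp only
            rw [hd]
            dsimp only
            rw [if_neg hr]
          obtain ⟨h3, h4⟩ := hr1 hr
          have h0 := slp6_addc I Av (addc I Av (locate s (pa h (l, false))) ν (pa h (l, false))) ν
            (flip (pa h (l, false)))
          have h1 := slp6_addc I Av (locate s (pa h (l, false))) ν (pa h (l, false))
          have h2 := slp6_locate s (pa h (l, false))
          rw [if_neg hr] at h1 h0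
          rw [hs, hcs]
          unfold slp6_cost
          rw [hact2]
          change slp6_pc _ + 0 + 1 ≤ _
          omega

theorem slp6_run (I : Inst ι L) (Av : Finset ι) (h : SB ι) (k : ℕ) (s : PS ι) (hk : slp6_cost s ≤ k) :
    ((pstep I Av h)^[k] s).act = none ∧ ((pstep I Av h)^[k] s).pend = [] := by
  induction k generalizing s with
  | zero =>
    rcases slp6_step I Av h s with ⟨h1, h2, -⟩ | h1
    · exact ⟨h1, h2⟩
    · omega
  | succ k ih =>
    rw [Function.iterate_succ_apply]
    apply ih
    rcases slp6_step I Av h s with ⟨h1, h2, h3⟩ | h1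
    · rw [h3]
      have : slp6_cost s = 0 := by
        unfold slp6_cost slp6_pc
        rw [h1, h2]
        rfl
      omega
    · omega

/-- after `4 * 2 ^ D` queries nothing is left to do -/
theorem prun_done (I : Inst ι L) (Av : Finset ι) (h : SB ι) (K : Finset ι) (x0 : ι × Bool) (D : ℕ) :
    (prun I Av h (4 * 2 ^ D) (pinit K x0 D)).act = none ∧
      (prun I Av h (4 * 2 ^ D) (pinit K x0 D)).pend = [] := by
  apply slp6_run
  change (4 * 2 ^ D - 2) + 0 + 0 ≤ 4 * 2 ^ D
  omega

end Pool.Agent.H38H
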