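import Pool.Agent.Lib.H38H.PT0

/-!
Chunk SLPC1 (M). Many pairs of partners among the unknown halves.

Proof. `u = n - |K|`. There are `2u` halves `a` with unknown link. Bad ones: those in special links (`I.special_le`: at most `2L`), and those whose partner link is known (at most
`2|K|` with `Mc a` in a known link as `Mc` is injective, at most `2|K|` with `Md a.1` known as `Md` is injective). All the others have at least
one partner `b` in an unknown link (for a d-link `b = (l', false)`). So the number is at least `2u - 2L - 4|K| ≥ u`.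
(A half of a non-special link has kind c and `Mc ≠ none`, or kind d and `Md ≠ none`.)
-/

set_option autoImplicit false

namespace Pool.Agent.H38H

open Classical

variable {ι : Type} [Fintype ι] {L : ℕ}

/-- pairs of unknown partners -/
noncomputable def cloPairs (I : Inst ι L) (K : Finset ι) (h : SB ι) : Finset ((ι × Bool) × (ι × Bool)) :=
  Finset.univ.filter (fun p => p.1.1 ∉ lk K h ∧ p.2.1 ∉ lk K h ∧ Clo I p.1 p.2)

theorem slpc1_special (I : Inst ι L) (a : ι × Bool)
    (h : ¬ (I.kind a.1 = Kind.b ∨ (I.kind a.1 = Kind.c ∧ (I.Mc (a.1, false) = none ∨ I.Mc (a.1, true) = none)) ∨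
      (I.kind a.1 = Kind.d ∧ I.Md a.1 = none))) : (∃ y, I.Mc a = some y) ∨ ∃ l, I.Md a.1 = some l := by
  push Not at h
  obtain ⟨h1, h2, h3⟩ := h
  cases hk : I.kind a.1 with
  | b => exact absurd hk h1
  | c =>
    left
    have h4 := h2 hk
    obtain ⟨i, b⟩ := a
    cases b with
    | false => exact Option.ne_none_iff_exists'.1 h4.1
    | true => exact Option.ne_none_iff_exists'.1 h4.2
  | d =>
    right
    exact Option.ne_none_iff_exists'.1 (h3 hk)

theorem card_cloPairs (I : Inst ι L) (K : Finset ι) (h : SB ι)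
    (hn : 4 * (K.card + L) ≤ Fintype.card ι - K.card) :
    Fintype.card ι - K.card ≤ (cloPairs I K h).card := by
  set k := lk K h with hk
  have hkc : k.card = K.card := Finset.card_image_of_injective _ h.1.injective
  set Sp : Finset ι := Finset.univ.filter (fun a : ι => I.kind a = Kind.b ∨
    (I.kind a = Kind.c ∧ (I.Mc (a, false) = none ∨ I.Mc (a, true) = none)) ∨
    (I.kind a = Kind.d ∧ I.Md a = none)) with hSp
  have hSpc : Sp.card ≤ L := I.special_le
  set A : Finset (ι × Bool) := kᶜ ×ˢ Finset.univ with hA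
  have hAc : A.card = 2 * (Fintype.card ι - K.card) := by
    rw [hA, Finset.card_product, Finset.card_compl, hkc, Finset.card_univ, Fintype.card_bool, mul_comm]
  set B1 : Finset (ι × Bool) := Sp ×ˢ Finset.univ with hB1
  have hB1c : B1.card ≤ 2 * L := by
    rw [hB1, Finset.card_product, Finset.card_univ, Fintype.card_bool]
    omega
  have hkk : (k ×ˢ (Finset.univ : Finset Bool)).card = 2 * K.card := by
    rw [Finset.card_product, hkc, Finset.card_univ, Fintype.card_bool, mul_comm]
  set B2 : Finset (ι × Bool) := Finset.univ.filter (fun a => ∃ y, I.Mc a = some y ∧ y.1 ∈ k) with hB2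
  have hB2c : B2.card ≤ 2 * K.card := by
    rw [← hkk]
    refine Finset.card_le_card_of_injOn (fun a => (I.Mc a).getD a) ?_ ?_
    · intro a ha
      obtain ⟨y, hy, hy2⟩ := (Finset.mem_filter.1 (Finset.mem_coe.1 ha)).2
      simp only [hy, Option.getD_some]
      exact Finset.mem_coe.2 (Finset.mem_product.2 ⟨hy2, Finset.mem_univ _⟩)
    · intro a ha a' ha' haa
      obtain ⟨y, hy, hy2⟩ := (Finset.mem_filter.1 (Finset.mem_coe.1 ha)).2
      obtain ⟨y', hy', hy2'⟩ := (Finset.mem_filter.1 (Finset.mem_coe.1 ha')).2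
      simp only [hy, hy', Option.getD_some] at haa
      subst haa
      have e1 := I.Mc_symm _ _ hy
      have e2 := I.Mc_symm _ _ hy'
      rw [e1] at e2
      exact Option.some.inj e2
  set B3 : Finset (ι × Bool) := Finset.univ.filter (fun a => ∃ l, I.Md a.1 = some l ∧ l ∈ k) with hB3
  have hB3c : B3.card ≤ 2 * K.card := by
    rw [← hkk]
    refine Finset.card_le_card_of_injOn (fun a => ((I.Md a.1).getD a.1, a.2)) ?_ ?_
    · intro a ha
      obtain ⟨y, hy, hy2⟩ := (Finset.mem_filter.1 (Finset.mem_coe.1 ha)).2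
      simp only [hy, Option.getD_some]
      exact Finset.mem_coe.2 (Finset.mem_product.2 ⟨hy2, Finset.mem_univ _⟩)
    · intro a ha a' ha' haa
      obtain ⟨y, hy, hy2⟩ := (Finset.mem_filter.1 (Finset.mem_coe.1 ha)).2
      obtain ⟨y', hy', hy2'⟩ := (Finset.mem_filter.1 (Finset.mem_coe.1 ha')).2
      simp only [hy, hy', Option.getD_some, Prod.mk.injEq] at haa
      obtain ⟨haa1, haa2⟩ := haa
      subst haa1
      have e1 := I.Md_symm _ _ hy
      have e2 := I.Md_symm _ _ hy'
      rw [e1] at e2
      exact Prod.ext (Option.some.inj e2) haa2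
  set Gd : Finset (ι × Bool) := Finset.univ.filter (fun a => a.1 ∉ k ∧ ∃ b : ι × Bool, b.1 ∉ k ∧ Clo I a b) with hGd
  have hGdc : Gd.card ≤ (cloPairs I K h).card := by
    have hex : ∀ a : ι × Bool, ∃ b : ι × Bool, a ∈ Gd → b.1 ∉ k ∧ Clo I a b := by
      intro a
      by_cases ha : a ∈ Gd
      · obtain ⟨_, b, hb⟩ := (Finset.mem_filter.1 ha).2
        exact ⟨b, fun _ => hb⟩
      · exact ⟨a, fun h => absurd h ha⟩
    choose b hb using hex
    refine Finset.card_le_card_of_injOn (fun a => (a, b a)) ?_ ?_
    · intro a ha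
      have ha' := Finset.mem_coe.1 ha
      have h1 := (Finset.mem_filter.1 ha').2
      exact Finset.mem_coe.2 (Finset.mem_filter.2 ⟨Finset.mem_univ _, h1.1, (hb a ha').1, (hb a ha').2⟩)
    · intro a _ a' _ haa
      exact (Prod.mk.inj haa).1
  have hcov : A ⊆ Gd ∪ (B1 ∪ (B2 ∪ B3)) := by
    intro a ha
    have hak : a.1 ∉ k := Finset.mem_compl.1 (Finset.mem_product.1 ha).1
    by_cases h1 : a.1 ∈ Sp
    · exact Finset.mem_union_right _ (Finset.mem_union_left _ (Finset.mem_product.2 ⟨h1, Finset.mem_univ _⟩))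
    · have h2 := slpc1_special I a (fun h => h1 (Finset.mem_filter.2 ⟨Finset.mem_univ _, h⟩))
      rcases h2 with ⟨y, hy⟩ | ⟨l, hl⟩
      · by_cases h3 : y.1 ∈ k
        · exact Finset.mem_union_right _ (Finset.mem_union_right _ (Finset.mem_union_left _
            (Finset.mem_filter.2 ⟨Finset.mem_univ _, y, hy, h3⟩)))
        · exact Finset.mem_union_left _ (Finset.mem_filter.2 ⟨Finset.mem_univ _, hak, y, h3, Or.inl hy⟩)
      · by_cases h3 : l ∈ k
        · exact Finset.mem_union_right _ (Finset.mem_union_right _ (Finset.mem_union_right _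
            (Finset.mem_filter.2 ⟨Finset.mem_univ _, l, hl, h3⟩)))
        · exact Finset.mem_union_left _ (Finset.mem_filter.2 ⟨Finset.mem_univ _, hak, (l, false), h3, Or.inr hl⟩)
  have c1 := Finset.card_le_card hcov
  have c2 := Finset.card_union_le Gd (B1 ∪ (B2 ∪ B3))
  have c3 := Finset.card_union_le B1 (B2 ∪ B3)
  have c4 := Finset.card_union_le B2 B3
  omega

/-- partners lie in different links; a half has at most one partner link, and at most one partner in a c-link -/
theorem clo_ne (I : Inst ι L) {a b : ι × Bool} (hc : Clo I a b) : a.1 ≠ b.1 := by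
  rcases hc with h | h
  · exact (I.Mc_kind _ _ h).2
  · exact (I.Md_kind _ _ h).2

theorem clo_unique (I : Inst ι L) {a b b' : ι × Bool} (hc : Clo I a b) (hc' : Clo I a b') : b.1 = b'.1 := by
  rcases hc with h | h <;> rcases hc' with h' | h'
  · rw [h] at h'
    rw [Option.some.inj h']
  · have e1 := (I.Mc_kind _ _ h).1
    have e2 := (I.Md_kind _ _ h').1
    rw [e1] at e2
    exact absurd e2 (by simp)
  · have e1 := (I.Mc_kind _ _ h').1
    have e2 := (I.Md_kind _ _ h).1
    rw [e1] at e2
    exact absurd e2 (by simp)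
  · rw [h] at h'
    exact Option.some.inj h'

theorem clo_symm (I : Inst ι L) {a b : ι × Bool} (hc : Clo I a b) : Clo I b a := by
  rcases hc with h | h
  · exact Or.inl (I.Mc_symm _ _ h)
  · exact Or.inr (I.Md_symm _ _ h)

end Pool.Agent.H38H
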