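import Pool.Agent.Lib.H38H.PC1

/-!
Chunk SLPC2 (M/L). The closing lemma (second moment).

`Γ` is a set of pairs of positions in unknown slots; all slots of first components are distinct for different first components, the same for second
components, and first and second components never share a slot. `X h' = number of pairs (x,y) in Γ with Clo (ap h' x) (ap h' y)`, `u = n - |K|`, `q = |cloPairs|`.
Proof. `avg (indicator of Clo at (x,y)) = q / (2u(2u-2))`: sum over `(a,b) ∈ cloPairs` of `avg (indicator ap h' x = a, ap h' y = b)`, each `1/(2u(2u-2))` by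
`avg_agree` with `S = {x.1, y.1}` (links distinct by `clo_ne`; existence of a signed bijection with prescribed contents: `avg_slot` twice with `avg_tower`, or transpositions).
Two different pairs `(x,y)`, `(x',y')`: if `x = x'`, `y ≠ y'`: both impossible (`clo_unique`: the links at `y.1`, `y'.1` would be equal; `y.1 ≠ y'.1`); the same for `y = y'` (`clo_symm`). If
`x ≠ x'` and `y ≠ y'`: four different slots; the average of the product of indicators is at most `q^2 / (2u(2u-2)(2u-4)(2u-6))`.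
So `avg X = |Γ| q/(2u(2u-2)) =: m`, `avg X^2 ≤ m + |Γ|^2 q^2/(2u(2u-2)(2u-4)(2u-6)) ≤ m + (1 + 8/u) m^2` for `u ≥ 20`. By `avg_cs`
`avg (indicator X > 0) ≥ m^2/(m + (1+8/u) m^2) = m/(1 + (1+8/u) m)`, and this is increasing in `m ≥ |Γ|/(4 u)` (`q ≥ u` by `card_cloPairs`) `≥ |Γ|/(4 n)`; `u ≥ n/2`.
-/

set_option autoImplicit false
set_option linter.unusedSectionVars false

namespace Pool.Agent.H38H

open Classical

variable {ι : Type} [Fintype ι] {L : ℕ}

/-- a signed bijection in the cylinder with a prescribed content -/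
theorem pc2_one {K : Finset ι} {h : SB ι} {x a : ι × Bool} (hx : x.1 ∉ K) (ha : a.1 ∉ lk K h) :
    ∃ h₂ ∈ cyl K h, ap h₂ x = a := by
  refine ⟨(Equiv.swap (h.1 x.1) a.1 * h.1, fun p => if p = x.1 then xor x.2 a.2 else h.2 p), ?_, ?_⟩
  · rw [mem_cyl]
    intro p hp
    have hpx : p ≠ x.1 := fun e => hx (e ▸ hp)
    refine ⟨?_, ?_⟩
    · show (Equiv.swap (h.1 x.1) a.1 * h.1) p = h.1 p
      rw [Equiv.Perm.mul_apply]
      apply Equiv.swap_apply_of_ne_of_ne
      · intro e
        exact hpx (h.1.injective e)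
      · intro e
        apply ha
        rw [mem_lk, ← e, Equiv.symm_apply_apply]
        exact hp
    · show (if p = x.1 then xor x.2 a.2 else h.2 p) = h.2 p
      rw [if_neg hpx]
  · obtain ⟨x1, x2⟩ := x
    obtain ⟨a1, a2⟩ := a
    simp only [ap, Equiv.Perm.mul_apply, Equiv.swap_apply_left, if_true, Prod.mk.injEq, true_and]
    cases x2 <;> cases a2 <;> rfl

theorem pc2_ap_eq {h h' : SB ι} {x : ι × Bool} :
    ap h' x = ap h x ↔ (h'.1 x.1 = h.1 x.1 ∧ h'.2 x.1 = h.2 x.1) := by
  constructor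
  · intro e
    have e1 := congrArg Prod.fst e
    have e2 := congrArg Prod.snd e
    simp only [ap] at e1 e2
    exact ⟨e1, by simpa using e2⟩
  · rintro ⟨e1, e2⟩
    simp only [ap]
    rw [e1, e2]

/-- unknown slots contain unknown links -/
theorem pc2_unk {K : Finset ι} {h h' : SB ι} (hh : h' ∈ cyl K h) {x : ι × Bool} (hx : x.1 ∉ K) :
    (ap h' x).1 ∉ lk K h := by
  rw [← lk_congr hh, mem_lk, ap_fst, Equiv.symm_apply_apply]
  exact hx

/-- two slots -/
theorem pc2_two {K : Finset ι} {h : SB ι} {x y a b : ι × Bool} (hx : x.1 ∉ K) (hy : y.1 ∉ K)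
    (hxy : x.1 ≠ y.1) (ha : a.1 ∉ lk K h) (hb : b.1 ∉ lk K h) (hab : a.1 ≠ b.1) :
    avg K h (fun h' => if ap h' x = a ∧ ap h' y = b then 1 else 0) =
      ((2 * ((Fintype.card ι : ℝ) - K.card)) * (2 * ((Fintype.card ι : ℝ) - K.card - 1)))⁻¹ := by
  obtain ⟨g, hg, hgx⟩ := pc2_one hx ha
  have hy' : y.1 ∉ insert x.1 K := by
    rw [Finset.mem_insert]
    rintro (e | e)
    · exact hxy e.symm
    · exact hy e
  have hb' : b.1 ∉ lk (insert x.1 K) g := by
    rw [mem_lk, Finset.mem_insert]
    rintro (e | e)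
    · apply hab
      rw [← hgx, ap_fst, ← e, Equiv.apply_symm_apply]
    · apply hb
      rw [← lk_congr hg, mem_lk]
      exact e
  obtain ⟨g2, hg2, hg2y⟩ := pc2_one hy' hb'
  have hg2K : g2 ∈ cyl K h := by
    rw [← cyl_eq_of_mem hg]
    exact cyl_mono (Finset.subset_insert _ _) g hg2
  have hg2x : ap g2 x = a := by
    rw [ap_congr hg2 (Finset.mem_insert_self _ _), hgx]
  have hS : Disjoint K ({x.1, y.1} : Finset ι) := by
    rw [Finset.disjoint_right]
    intro p hp
    rw [Finset.mem_insert, Finset.mem_singleton] at hp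
    rcases hp with rfl | rfl
    · exact hx
    · exact hy
  have hP : ∀ h', (ap h' x = a ∧ ap h' y = b) ↔ Agree ({x.1, y.1} : Finset ι) g2 h' := by
    intro h'
    rw [← hg2x, ← hg2y, pc2_ap_eq, pc2_ap_eq]
    constructor
    · rintro ⟨e1, e2⟩ p hp
      rw [Finset.mem_insert, Finset.mem_singleton] at hp
      rcases hp with rfl | rfl
      · exact e1
      · exact e2
    · intro e
      exact ⟨e x.1 (by simp), e y.1 (by simp)⟩
  rw [show avg K h (fun h' => if ap h' x = a ∧ ap h' y = b then (1 : ℝ) else 0) =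
    avg K h (fun h' => if Agree ({x.1, y.1} : Finset ι) g2 h' then 1 else 0) from
    avg_congr (fun h' _ => by simp only [hP h']), avg_agree hg2K hS]
  rw [Finset.card_pair hxy, Finset.prod_range_succ, Finset.prod_range_one]
  push_cast
  ring_nf

/-- the average of the indicator of one pair -/
theorem pc2_mean (I : Inst ι L) {K : Finset ι} {h : SB ι} {x y : ι × Bool} (hx : x.1 ∉ K)
    (hy : y.1 ∉ K) (hxy : x.1 ≠ y.1) :
    avg K h (fun h' => if Clo I (ap h' x) (ap h' y) then 1 else 0) =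
      ((cloPairs I K h).card : ℝ) *
        ((2 * ((Fintype.card ι : ℝ) - K.card)) * (2 * ((Fintype.card ι : ℝ) - K.card - 1)))⁻¹ := by
  have h1 : avg K h (fun h' => if Clo I (ap h' x) (ap h' y) then 1 else 0) =
      avg K h (fun h' => ∑ p ∈ cloPairs I K h, if ap h' x = p.1 ∧ ap h' y = p.2 then (1 : ℝ) else 0) := by
    apply avg_congr
    intro h' hh'
    by_cases hc : Clo I (ap h' x) (ap h' y)
    · rw [if_pos hc]
      rw [Finset.sum_eq_single (ap h' x, ap h' y)]
      · simp
      · rintro ⟨a, b⟩ _ hne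
        rw [if_neg]
        rintro ⟨e1, e2⟩
        apply hne
        simp only at e1 e2
        rw [e1, e2]
      · intro hn
        exfalso
        apply hn
        unfold cloPairs
        rw [Finset.mem_filter]
        exact ⟨Finset.mem_univ _, pc2_unk hh' hx, pc2_unk hh' hy, hc⟩
    · rw [if_neg hc]
      symm
      apply Finset.sum_eq_zero
      rintro ⟨a, b⟩ hp
      rw [if_neg]
      rintro ⟨e1, e2⟩
      apply hc
      unfold cloPairs at hp
      rw [Finset.mem_filter] at hp
      rw [e1, e2]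
      exact hp.2.2.2
  rw [h1, avg_sum, ← nsmul_eq_mul, ← Finset.sum_const]
  apply Finset.sum_congr rfl
  rintro ⟨a, b⟩ hp
  unfold cloPairs at hp
  rw [Finset.mem_filter] at hp
  exact pc2_two hx hy hxy hp.2.1 hp.2.2.1 (clo_ne I hp.2.2.2)

/-- four slots: upper bound -/
theorem pc2_four {K : Finset ι} {h : SB ι} {x y z w a b c d : ι × Bool} (hx : x.1 ∉ K) (hy : y.1 ∉ K)
    (hz : z.1 ∉ K) (hw : w.1 ∉ K) (hxy : x.1 ≠ y.1) (hxz : x.1 ≠ z.1) (hxw : x.1 ≠ w.1)
    (hyz : y.1 ≠ z.1) (hyw : y.1 ≠ w.1) (hzw : z.1 ≠ w.1)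
    (hn : K.card + 4 ≤ Fintype.card ι) :
    avg K h (fun h' => if (ap h' x = a ∧ ap h' y = b) ∧ (ap h' z = c ∧ ap h' w = d) then 1 else 0) ≤
      ((2 * ((Fintype.card ι : ℝ) - K.card)) * (2 * ((Fintype.card ι : ℝ) - K.card - 1)) *
        (2 * ((Fintype.card ι : ℝ) - K.card - 2)) * (2 * ((Fintype.card ι : ℝ) - K.card - 3)))⁻¹ := by
  have hn' : ((K.card : ℝ) + 4) ≤ (Fintype.card ι : ℝ) := by exact_mod_cast hn
  by_cases hex : ∃ g ∈ cyl K h, (ap g x = a ∧ ap g y = b) ∧ (ap g z = c ∧ ap g w = d)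
  · obtain ⟨g, hg, ⟨e1, e2⟩, e3, e4⟩ := hex
    have hS : Disjoint K ({x.1, y.1, z.1, w.1} : Finset ι) := by
      rw [Finset.disjoint_right]
      intro p hp
      simp only [Finset.mem_insert, Finset.mem_singleton] at hp
      rcases hp with rfl | rfl | rfl | rfl
      · exact hx
      · exact hy
      · exact hz
      · exact hw
    have hc : ({x.1, y.1, z.1, w.1} : Finset ι).card = 4 := by
      rw [Finset.card_insert_of_notMem, Finset.card_insert_of_notMem, Finset.card_pair hzw]
      · simp only [Finset.mem_insert, Finset.mem_singleton, not_or]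
        exact ⟨hyz, hyw⟩
      · simp only [Finset.mem_insert, Finset.mem_singleton, not_or]
        exact ⟨hxy, hxz, hxw⟩
    have hP : ∀ h', ((ap h' x = a ∧ ap h' y = b) ∧ (ap h' z = c ∧ ap h' w = d)) ↔
        Agree ({x.1, y.1, z.1, w.1} : Finset ι) g h' := by
      intro h'
      rw [← e1, ← e2, ← e3, ← e4, pc2_ap_eq, pc2_ap_eq, pc2_ap_eq, pc2_ap_eq]
      constructor
      · rintro ⟨⟨f1, f2⟩, f3, f4⟩ p hp
        simp only [Finset.mem_insert, Finset.mem_singleton] at hp
        rcases hp with rfl | rfl | rfl | rfl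
        · exact f1
        · exact f2
        · exact f3
        · exact f4
      · intro e
        exact ⟨⟨e x.1 (by simp), e y.1 (by simp)⟩, e z.1 (by simp), e w.1 (by simp)⟩
    rw [show avg K h (fun h' =>
        if (ap h' x = a ∧ ap h' y = b) ∧ (ap h' z = c ∧ ap h' w = d) then (1 : ℝ) else 0) =
      avg K h (fun h' => if Agree ({x.1, y.1, z.1, w.1} : Finset ι) g h' then 1 else 0) from
      avg_congr (fun h' _ => by simp only [hP h']), avg_agree hg hS]
    rw [hc, Finset.prod_range_succ, Finset.prod_range_succ, Finset.prod_range_succ,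
      Finset.prod_range_one]
    push_cast
    apply le_of_eq
    ring_nf
  · have h0 : avg K h (fun h' => if (ap h' x = a ∧ ap h' y = b) ∧ (ap h' z = c ∧ ap h' w = d) then 1 else 0) =
        avg K h (fun _ => (0 : ℝ)) := by
      apply avg_congr
      intro h' hh'
      rw [if_neg]
      intro hh
      exact hex ⟨h', hh', hh⟩
    rw [h0, avg_const]
    have a1 : (0 : ℝ) < (Fintype.card ι : ℝ) - K.card := by linarith
    have a2 : (0 : ℝ) < (Fintype.card ι : ℝ) - K.card - 1 := by linarith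
    have a3 : (0 : ℝ) < (Fintype.card ι : ℝ) - K.card - 2 := by linarith
    have a4 : (0 : ℝ) < (Fintype.card ι : ℝ) - K.card - 3 := by linarith
    positivity

/-- the average of the product of the indicators of two pairs in four slots -/
theorem pc2_sq (I : Inst ι L) {K : Finset ι} {h : SB ι} {x y z w : ι × Bool} (hx : x.1 ∉ K)
    (hy : y.1 ∉ K) (hz : z.1 ∉ K) (hw : w.1 ∉ K) (hxy : x.1 ≠ y.1) (hxz : x.1 ≠ z.1)
    (hxw : x.1 ≠ w.1) (hyz : y.1 ≠ z.1) (hyw : y.1 ≠ w.1) (hzw : z.1 ≠ w.1)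
    (hn : K.card + 4 ≤ Fintype.card ι) :
    avg K h (fun h' => if Clo I (ap h' x) (ap h' y) ∧ Clo I (ap h' z) (ap h' w) then 1 else 0) ≤
      ((cloPairs I K h).card : ℝ) ^ 2 *
        ((2 * ((Fintype.card ι : ℝ) - K.card)) * (2 * ((Fintype.card ι : ℝ) - K.card - 1)) *
        (2 * ((Fintype.card ι : ℝ) - K.card - 2)) * (2 * ((Fintype.card ι : ℝ) - K.card - 3)))⁻¹ := by
  have h1 : avg K h (fun h' => if Clo I (ap h' x) (ap h' y) ∧ Clo I (ap h' z) (ap h' w) then 1 else 0) ≤
      avg K h (fun h' => ∑ p ∈ cloPairs I K h ×ˢ cloPairs I K h,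
        if (ap h' x = p.1.1 ∧ ap h' y = p.1.2) ∧ (ap h' z = p.2.1 ∧ ap h' w = p.2.2) then (1 : ℝ) else 0) := by
    apply avg_mono
    intro h' hh'
    have hnn : ∀ p ∈ cloPairs I K h ×ˢ cloPairs I K h, (0 : ℝ) ≤
        if (ap h' x = p.1.1 ∧ ap h' y = p.1.2) ∧ (ap h' z = p.2.1 ∧ ap h' w = p.2.2) then (1 : ℝ) else 0 := by
      intro p _
      split_ifs <;> norm_num
    by_cases hc : Clo I (ap h' x) (ap h' y) ∧ Clo I (ap h' z) (ap h' w)
    · rw [if_pos hc]
      have hm : ((ap h' x, ap h' y), (ap h' z, ap h' w)) ∈ cloPairs I K h ×ˢ cloPairs I K h := by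
        unfold cloPairs
        rw [Finset.mem_product, Finset.mem_filter, Finset.mem_filter]
        exact ⟨⟨Finset.mem_univ _, pc2_unk hh' hx, pc2_unk hh' hy, hc.1⟩,
          ⟨Finset.mem_univ _, pc2_unk hh' hz, pc2_unk hh' hw, hc.2⟩⟩
      refine le_trans ?_ (Finset.single_le_sum hnn hm)
      simp
    · rw [if_neg hc]
      exact Finset.sum_nonneg hnn
  refine le_trans h1 ?_
  rw [avg_sum]
  have h2 : ((cloPairs I K h).card : ℝ) ^ 2 = ((cloPairs I K h ×ˢ cloPairs I K h).card : ℝ) := by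
    rw [Finset.card_product]
    push_cast
    ring
  rw [h2, ← nsmul_eq_mul, ← Finset.sum_const]
  apply Finset.sum_le_sum
  rintro ⟨⟨a, b⟩, ⟨c, d⟩⟩ _
  exact pc2_four hx hy hz hw hxy hxz hxw hyz hyw hzw hn

/-- real arithmetic at the end -/
theorem pc2_real {g q u n m P c : ℝ} (hg : 0 ≤ g) (hu : 20 ≤ u) (hun : u ≤ n) (hn : n ≤ 2 * u)
    (hq : u ≤ q) (hm : m = g * (q * ((2 * u) * (2 * (u - 1)))⁻¹))
    (hc : c = q ^ 2 * ((2 * u) * (2 * (u - 1)) * (2 * (u - 2)) * (2 * (u - 3)))⁻¹)
    (hP : m ^ 2 ≤ P * (m + g ^ 2 * c)) (hP0 : 0 ≤ P) :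
    (g / (4 * n)) / (1 + (1 + 16 / n) * (g / (4 * n))) ≤ P := by
  have hn0 : 0 < n := by linarith
  rcases hg.eq_or_lt with hg0 | hg0
  · rw [← hg0]
    simpa using hP0
  have hq0 : 0 < q := by linarith
  have u0 : 0 < u := by linarith
  have u1 : 0 < u - 1 := by linarith
  have u2 : 0 < u - 2 := by linarith
  have u3 : 0 < u - 3 := by linarith
  have hm0 : 0 < m := by
    rw [hm]
    positivity
  have hge : g / (4 * n) ≤ m := by
    rw [hm, div_le_iff₀ (by positivity)]
    have : g * (q * ((2 * u) * (2 * (u - 1)))⁻¹) * (4 * n) = g * ((q * n) / (u * (u - 1))) := by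
      field_simp
      ring
    rw [this]
    have h1 : 1 ≤ (q * n) / (u * (u - 1)) := by
      rw [le_div_iff₀ (by positivity), one_mul]
      apply mul_le_mul hq (by linarith) u1.le hq0.le
    nlinarith
  have hcm : g ^ 2 * c ≤ (1 + 16 / n) * m ^ 2 := by
    have h1 : g ^ 2 * c = m ^ 2 * ((u * (u - 1)) / ((u - 2) * (u - 3))) := by
      rw [hc, hm]
      field_simp
    have h2 : (u * (u - 1)) / ((u - 2) * (u - 3)) ≤ 1 + 8 / u := by
      rw [div_le_iff₀ (by positivity)]
      have : (1 + 8 / u) * ((u - 2) * (u - 3)) = ((u + 8) * ((u - 2) * (u - 3))) / u := by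
        field_simp
      rw [this, le_div_iff₀ u0]
      nlinarith
    have h3 : 8 / u ≤ 16 / n := by
      rw [div_le_div_iff₀ u0 hn0]
      linarith
    rw [h1, mul_comm]
    apply mul_le_mul_of_nonneg_right (by linarith) (sq_nonneg _)
  have hP2 : m ^ 2 ≤ P * (m + (1 + 16 / n) * m ^ 2) :=
    le_trans hP (mul_le_mul_of_nonneg_left (by linarith) hP0)
  have ha : 0 < 1 + 16 / n := by positivity
  have hP3 : m / (1 + (1 + 16 / n) * m) ≤ P := by
    rw [div_le_iff₀ (by positivity)]
    have : m * m ≤ (P * (1 + (1 + 16 / n) * m)) * m := by nlinarith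
    exact le_of_mul_le_mul_right this hm0
  refine le_trans ?_ hP3
  have ht : 0 ≤ g / (4 * n) := by positivity
  rw [div_le_div_iff₀ (by positivity) (by positivity)]
  nlinarith

theorem closing (I : Inst ι L) (K : Finset ι) (h : SB ι) (Γ : Finset ((ι × Bool) × (ι × Bool)))
    (h1 : ∀ p ∈ Γ, p.1.1 ∉ K ∧ p.2.1 ∉ K)
    (h2 : ∀ p ∈ Γ, ∀ q ∈ Γ, p.1.1 ≠ q.2.1)
    (h3 : ∀ p ∈ Γ, ∀ q ∈ Γ, p.1.1 = q.1.1 → p.1 = q.1)
    (h4 : ∀ p ∈ Γ, ∀ q ∈ Γ, p.2.1 = q.2.1 → p.2 = q.2)
    (hn : 10 * (K.card + L + 10) ≤ Fintype.card ι) :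
    ((Γ.card : ℝ) / (4 * Fintype.card ι)) /
        (1 + (1 + 16 / (Fintype.card ι : ℝ)) * ((Γ.card : ℝ) / (4 * Fintype.card ι))) ≤
      avg K h (fun h' => if ∃ p ∈ Γ, Clo I (ap h' p.1) (ap h' p.2) then 1 else 0) := by
  have hnr : 10 * ((K.card : ℝ) + L + 10) ≤ (Fintype.card ι : ℝ) := by exact_mod_cast hn
  have hL0 : (0 : ℝ) ≤ (L : ℝ) := Nat.cast_nonneg _
  have hK0 : (0 : ℝ) ≤ (K.card : ℝ) := Nat.cast_nonneg _
  have hq : (Fintype.card ι : ℝ) - K.card ≤ ((cloPairs I K h).card : ℝ) := by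
    have := card_cloPairs I K h (by omega)
    have h5 : ((Fintype.card ι - K.card : ℕ) : ℝ) = (Fintype.card ι : ℝ) - K.card :=
      Nat.cast_sub (by omega)
    rw [← h5]
    exact_mod_cast this
  set X : SB ι → ℝ := fun h' => ∑ p ∈ Γ, if Clo I (ap h' p.1) (ap h' p.2) then 1 else 0 with hX
  have hXn : ∀ h', 0 ≤ X h' := by
    intro h'
    apply Finset.sum_nonneg
    intro p _
    split_ifs <;> norm_num
  have hcs := avg_cs K h X hXn
  have hpos : avg K h (fun h' => if 0 < X h' then (1 : ℝ) else 0) =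
      avg K h (fun h' => if ∃ p ∈ Γ, Clo I (ap h' p.1) (ap h' p.2) then 1 else 0) := by
    apply avg_congr
    intro h' _
    have : 0 < X h' ↔ ∃ p ∈ Γ, Clo I (ap h' p.1) (ap h' p.2) := by
      rw [hX]
      simp only
      rw [Finset.sum_pos_iff_of_nonneg]
      · constructor
        · rintro ⟨p, hp, hp2⟩
          refine ⟨p, hp, ?_⟩
          by_contra hc
          rw [if_neg hc] at hp2
          exact lt_irrefl _ hp2
        · rintro ⟨p, hp, hp2⟩
          refine ⟨p, hp, ?_⟩
          rw [if_pos hp2]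
          exact one_pos
      · intro p _
        split_ifs <;> norm_num
    simp only [this]
  rw [hpos] at hcs
  have hmean : avg K h X = (Γ.card : ℝ) * (((cloPairs I K h).card : ℝ) *
        ((2 * ((Fintype.card ι : ℝ) - K.card)) * (2 * ((Fintype.card ι : ℝ) - K.card - 1)))⁻¹) := by
    rw [hX, avg_sum, ← nsmul_eq_mul, ← Finset.sum_const]
    apply Finset.sum_congr rfl
    intro p hp
    exact pc2_mean I (h1 p hp).1 (h1 p hp).2 (h2 p hp p hp)
  set m1 : ℝ := ((cloPairs I K h).card : ℝ) *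
        ((2 * ((Fintype.card ι : ℝ) - K.card)) * (2 * ((Fintype.card ι : ℝ) - K.card - 1)))⁻¹ with hm1
  set c : ℝ := ((cloPairs I K h).card : ℝ) ^ 2 *
        ((2 * ((Fintype.card ι : ℝ) - K.card)) * (2 * ((Fintype.card ι : ℝ) - K.card - 1)) *
        (2 * ((Fintype.card ι : ℝ) - K.card - 2)) * (2 * ((Fintype.card ι : ℝ) - K.card - 3)))⁻¹ with hc
  have hc0 : 0 ≤ c := by
    have a1 : (0 : ℝ) < (Fintype.card ι : ℝ) - K.card := by linarith
    have a2 : (0 : ℝ) < (Fintype.card ι : ℝ) - K.card - 1 := by linarith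
    have a3 : (0 : ℝ) < (Fintype.card ι : ℝ) - K.card - 2 := by linarith
    have a4 : (0 : ℝ) < (Fintype.card ι : ℝ) - K.card - 3 := by linarith
    rw [hc]
    positivity
  have hsq : avg K h (fun h' => X h' ^ 2) ≤ (Γ.card : ℝ) * m1 + (Γ.card : ℝ) ^ 2 * c := by
    have e1 : avg K h (fun h' => X h' ^ 2) = avg K h (fun h' => ∑ p ∈ Γ, ∑ p' ∈ Γ,
        if Clo I (ap h' p.1) (ap h' p.2) ∧ Clo I (ap h' p'.1) (ap h' p'.2) then (1 : ℝ) else 0) := by
      apply avg_congr
      intro h' _
      rw [hX]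
      simp only
      rw [sq, Finset.sum_mul_sum]
      apply Finset.sum_congr rfl
      intro p _
      apply Finset.sum_congr rfl
      intro p' _
      by_cases c1 : Clo I (ap h' p.1) (ap h' p.2)
      · by_cases c2 : Clo I (ap h' p'.1) (ap h' p'.2)
        · simp [c1, c2]
        · simp [c2]
      · simp [c1]
    rw [e1, avg_sum]
    have e2 : ∀ p ∈ Γ, avg K h (fun h' => ∑ p' ∈ Γ,
        if Clo I (ap h' p.1) (ap h' p.2) ∧ Clo I (ap h' p'.1) (ap h' p'.2) then (1 : ℝ) else 0) ≤
        m1 + Γ.card * c := by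
      intro p hp
      rw [avg_sum]
      have e3 : ∀ p' ∈ Γ, avg K h (fun h' =>
          if Clo I (ap h' p.1) (ap h' p.2) ∧ Clo I (ap h' p'.1) (ap h' p'.2) then (1 : ℝ) else 0) ≤
          (if p' = p then m1 else 0) + c := by
        intro p' hp'
        by_cases e : p' = p
        · subst e
          rw [if_pos rfl]
          have : avg K h (fun h' => if Clo I (ap h' p'.1) (ap h' p'.2) ∧ Clo I (ap h' p'.1) (ap h' p'.2)
              then (1 : ℝ) else 0) = m1 := by
            simp only [and_self]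
            exact pc2_mean I (h1 p' hp').1 (h1 p' hp').2 (h2 p' hp' p' hp')
          rw [this]
          linarith
        · rw [if_neg e, zero_add]
          by_cases ex : p.1.1 = p'.1.1
          · have ex' := h3 p hp p' hp' ex
            have ey : p.2.1 ≠ p'.2.1 := by
              intro ey
              apply e
              exact (Prod.ext ex' (h4 p hp p' hp' ey)).symm
            have : avg K h (fun h' => if Clo I (ap h' p.1) (ap h' p.2) ∧ Clo I (ap h' p'.1) (ap h' p'.2)
              then (1 : ℝ) else 0) = avg K h (fun _ => (0 : ℝ)) := by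
              apply avg_congr
              intro h' _
              rw [if_neg]
              rintro ⟨c1, c2⟩
              rw [← ex'] at c2
              have := clo_unique I c1 c2
              rw [ap_fst, ap_fst] at this
              exact ey (h'.1.injective this)
            rw [this, avg_const]
            exact hc0
          · by_cases ey : p.2.1 = p'.2.1
            · have ey' := h4 p hp p' hp' ey
              have : avg K h (fun h' => if Clo I (ap h' p.1) (ap h' p.2) ∧ Clo I (ap h' p'.1) (ap h' p'.2)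
                then (1 : ℝ) else 0) = avg K h (fun _ => (0 : ℝ)) := by
                apply avg_congr
                intro h' _
                rw [if_neg]
                rintro ⟨c1, c2⟩
                rw [← ey'] at c2
                have := clo_unique I (clo_symm I c1) (clo_symm I c2)
                rw [ap_fst, ap_fst] at this
                exact ex (h'.1.injective this)
              rw [this, avg_const]
              exact hc0
            · exact pc2_sq I (h1 p hp).1 (h1 p hp).2 (h1 p' hp').1 (h1 p' hp').2 (h2 p hp p hp) ex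
                (h2 p hp p' hp') (h2 p' hp' p hp).symm ey (h2 p' hp' p' hp') (by omega)
      refine le_trans (Finset.sum_le_sum e3) ?_
      rw [Finset.sum_add_distrib, Finset.sum_ite_eq' Γ p, if_pos hp, Finset.sum_const, nsmul_eq_mul]
    refine le_trans (Finset.sum_le_sum e2) ?_
    rw [Finset.sum_const, nsmul_eq_mul]
    apply le_of_eq
    ring
  refine pc2_real (g := (Γ.card : ℝ)) (q := ((cloPairs I K h).card : ℝ))
    (u := (Fintype.card ι : ℝ) - K.card) (n := (Fintype.card ι : ℝ)) (m := avg K h X) (c := c)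
    (Nat.cast_nonneg _) (by linarith) (by linarith) (by linarith) hq hmean hc ?_ ?_
  · rw [hmean] at hcs ⊢
    refine le_trans hcs ?_
    apply mul_le_mul_of_nonneg_left hsq
    apply avg_nonneg
    intro h' _
    split_ifs <;> norm_num
  · apply avg_nonneg
    intro h' _
    split_ifs <;> norm_num

end Pool.Agent.H38H
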