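import Pool.Agent.Lib.H38H.Stm

/-!
H38H, shared file PR: pairings. Definitions. See PR1 - PR6 and PR (the final statements).
-/

set_option autoImplicit false

namespace Pool.Agent.H38H

open Classical

instance PM.finite {α : Type} [Finite α] : Finite (PM α) := by
  unfold PM
  infer_instance

/-- the pairing `R` of the `3 N` points projects to the (simple, cubic) graph `G` -/
def Over {V : Type} (G : SimpleGraph V) (R : PM (V × Fin 3)) : Prop :=
  (∀ p, G.Adj p.1 (R.1 p).1) ∧ ∀ p q : V × Fin 3, p.1 = q.1 → (R.1 p).1 = (R.1 q).1 → p = q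

/-- simple pairings: no loops and no parallel pairs -/
def Simple {V : Type} (R : PM (V × Fin 3)) : Prop :=
  (∀ p, p.1 ≠ (R.1 p).1) ∧ ∀ p q : V × Fin 3, p.1 = q.1 → (R.1 p).1 = (R.1 q).1 → p = q

end Pool.Agent.H38H
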