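import Pool.Agent.Lib.H38H.PR0

/-!
H38H, chunk PR1 (M): the number of perfect matchings. Pure Mathlib.
-/

set_option autoImplicit false

namespace Pool.Agent.H38H

open Classical

theorem pr1_ab {α : Type} {a b : α} (R : PM α) (hR : R.1 a = b) : R.1 b = a := by
  rw [← hR]; exact R.2.1 a

theorem pr1_mem {α : Type} {a b : α} (R : PM α) (hR : R.1 a = b) (x : α) :
    (R.1 x ≠ a ∧ R.1 x ≠ b) ↔ (x ≠ a ∧ x ≠ b) := by
  have hb := pr1_ab R hR
  constructor
  · rintro ⟨h1, h2⟩
    refine ⟨fun h => h2 (by rw [h, hR]), fun h => h1 (by rw [h, hb])⟩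
  · rintro ⟨h1, h2⟩
    refine ⟨fun h => h2 ?_, fun h => h1 ?_⟩
    · apply R.1.injective; rw [h, hb]
    · apply R.1.injective; rw [h, hR]

/-- the extension -/
noncomputable def pr1_ext {α : Type} (a b : α) (R' : Equiv.Perm {x : α // x ≠ a ∧ x ≠ b}) : Equiv.Perm α :=
  Equiv.Perm.ofSubtype R' * Equiv.swap a b

theorem pr1_ext_a {α : Type} (a b : α) (R' : Equiv.Perm {x : α // x ≠ a ∧ x ≠ b}) :
    pr1_ext a b R' a = b := by
  unfold pr1_ext
  rw [Equiv.Perm.mul_apply, Equiv.swap_apply_left]
  exact Equiv.Perm.ofSubtype_apply_of_not_mem _ (by simp)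

theorem pr1_ext_b {α : Type} (a b : α) (R' : Equiv.Perm {x : α // x ≠ a ∧ x ≠ b}) :
    pr1_ext a b R' b = a := by
  unfold pr1_ext
  rw [Equiv.Perm.mul_apply, Equiv.swap_apply_right]
  exact Equiv.Perm.ofSubtype_apply_of_not_mem _ (by simp)

theorem pr1_ext_of {α : Type} (a b : α) (R' : Equiv.Perm {x : α // x ≠ a ∧ x ≠ b}) (x : α)
    (hx : x ≠ a ∧ x ≠ b) : pr1_ext a b R' x = (R' ⟨x, hx⟩ : α) := by
  unfold pr1_ext
  rw [Equiv.Perm.mul_apply, Equiv.swap_apply_of_ne_of_ne hx.1 hx.2]
  exact Equiv.Perm.ofSubtype_apply_of_mem (p := fun x : α => x ≠ a ∧ x ≠ b) R' hx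

/-- PROOF. Restriction is a bijection: R with R a = b maps {x | x ≠ a ∧ x ≠ b} to itself (R is an involution, so R b = a). Conversely R' on the
subtype is extended by a ↦ b, b ↦ a (Equiv.Perm.ofSubtype R' * Equiv.swap a b; ofSubtype is the identity outside the subtype).
`Nat.card_congr`. -/
theorem pm_fiber {α : Type} (a b : α) (h : a ≠ b) :
    Nat.card {R : PM α // R.1 a = b} = Nat.card (PM {x : α // x ≠ a ∧ x ≠ b}) := by
  refine Nat.card_congr ?_
  refine ⟨fun R => ⟨Equiv.Perm.subtypePerm R.1.1 (pr1_mem R.1 R.2), ?_, ?_⟩,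
    fun R' => ⟨⟨pr1_ext a b R'.1, ?_, ?_⟩, ?_⟩, ?_, ?_⟩
  · intro x
    apply Subtype.ext
    simp only [Equiv.Perm.subtypePerm_apply]
    exact R.1.2.1 x.1
  · intro x hx
    have := congrArg Subtype.val hx
    simp only [Equiv.Perm.subtypePerm_apply] at this
    exact R.1.2.2 x.1 this
  · intro x
    by_cases ha : x = a
    · subst ha; rw [pr1_ext_a, pr1_ext_b]
    by_cases hb : x = b
    · subst hb; rw [pr1_ext_b, pr1_ext_a]
    rw [pr1_ext_of a b R'.1 x ⟨ha, hb⟩, pr1_ext_of a b R'.1 _ (R'.1 ⟨x, ⟨ha, hb⟩⟩).2]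
    have := R'.2.1 ⟨x, ⟨ha, hb⟩⟩
    simpa using congrArg Subtype.val this
  · intro x
    by_cases ha : x = a
    · subst ha; rw [pr1_ext_a]; exact h.symm
    by_cases hb : x = b
    · subst hb; rw [pr1_ext_b]; exact h
    rw [pr1_ext_of a b R'.1 x ⟨ha, hb⟩]
    intro hx
    exact R'.2.2 ⟨x, ⟨ha, hb⟩⟩ (Subtype.ext hx)
  · exact pr1_ext_a a b R'.1
  · intro R
    apply Subtype.ext
    apply Subtype.ext
    apply Equiv.ext
    intro x
    show pr1_ext a b (Equiv.Perm.subtypePerm R.1.1 (pr1_mem R.1 R.2)) x = R.1.1 x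
    by_cases ha : x = a
    · subst ha; rw [pr1_ext_a]; exact R.2.symm
    by_cases hb : x = b
    · subst hb; rw [pr1_ext_b]; exact (pr1_ab R.1 R.2).symm
    rw [pr1_ext_of a b _ x ⟨ha, hb⟩]
    simp
  · intro R'
    apply Subtype.ext
    apply Equiv.ext
    intro x
    apply Subtype.ext
    show pr1_ext a b R'.1 x.1 = _
    rw [pr1_ext_of a b _ x.1 x.2]

theorem pr1_card_sub {α : Type} [Fintype α] (a b : α) (h : a ≠ b) :
    Fintype.card {x : α // x ≠ a ∧ x ≠ b} = Fintype.card α - 2 := by
  rw [Fintype.card_subtype]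
  have : (Finset.univ.filter fun x : α => x ≠ a ∧ x ≠ b) = Finset.univ \ {a, b} := by
    ext x; simp
  rw [this, Finset.card_sdiff_of_subset (Finset.subset_univ _), Finset.card_pair h, Finset.card_univ]

theorem pr1_main : ∀ n : ℕ, ∀ (α : Type) [Fintype α], Fintype.card α = 2 * n →
    Nat.card (PM α) = Nat.doubleFactorial (2 * n - 1) := by
  intro n
  induction n with
  | zero =>
    intro α _ h
    have hE : IsEmpty α := Fintype.card_eq_zero_iff.mp (by simpa using h)
    haveI : Unique (PM α) :=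
      { default := ⟨1, fun x => (hE.false x).elim, fun x => (hE.false x).elim⟩
        uniq := fun f => Subtype.ext (Equiv.ext fun x => (hE.false x).elim) }
    rw [Nat.card_unique]
    rfl
  | succ n ih =>
    intro α _ h
    have hne : Nonempty α := Fintype.card_pos_iff.mp (by omega)
    obtain ⟨a⟩ := hne
    have e : PM α ≃ Σ b : {b : α // b ≠ a}, {R : PM α // R.1 a = b.1} :=
      { toFun := fun R => ⟨⟨R.1 a, R.2.2 a⟩, ⟨R, rfl⟩⟩
        invFun := fun p => p.2.1
        left_inv := fun R => rfl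
        right_inv := by
          rintro ⟨⟨b, hb⟩, ⟨R, hR⟩⟩
          have hR' : R.1 a = b := hR
          subst hR'
          rfl }
    rw [Nat.card_congr e, Nat.card_sigma]
    have : ∀ b : {b : α // b ≠ a}, Nat.card {R : PM α // R.1 a = b.1} = Nat.doubleFactorial (2 * n - 1) := by
      intro b
      rw [pm_fiber a b.1 b.2.symm]
      apply ih
      rw [pr1_card_sub a b.1 b.2.symm]
      omega
    rw [Finset.sum_congr rfl (fun b _ => this b), Finset.sum_const, Finset.card_univ, smul_eq_mul]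
    have hc : Fintype.card {b : α // b ≠ a} = 2 * n + 1 := by
      rw [Fintype.card_subtype_compl, Fintype.card_subtype_eq]
      omega
    rw [hc]
    rcases n with _ | n
    · rfl
    · show (2 * (n + 1) + 1) * _ = Nat.doubleFactorial (2 * (n + 1 + 1) - 1)
      have h1 : 2 * (n + 1 + 1) - 1 = (2 * (n + 1) - 1) + 2 := by omega
      rw [h1, Nat.doubleFactorial_add_two]
      congr 1

/-- PROOF. Strong induction on the cardinality. Empty: exactly one element, 0 - 1 = 0, 0!! = 1. Otherwise fix a; every R has exactly one value b = R a ≠ a, so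
Nat.card (PM α) = sum over b ≠ a of Nat.card {R // R.1 a = b} = (card α - 1) * (card α - 3)!! by pm_fiber and the induction hypothesis for the
subtype (of cardinality card α - 2) = (card α - 1)!!. -/
theorem card_PM (α : Type) [Fintype α] (h : Even (Fintype.card α)) :
    Nat.card (PM α) = Nat.doubleFactorial (Fintype.card α - 1) := by
  obtain ⟨n, hn⟩ := h
  have hn' : Fintype.card α = 2 * n := by omega
  rw [pr1_main n α hn', hn']

/-- PROOF. A fixed point free involution gives an even cardinality (for instance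
Equiv.Perm.card_fixedPoints_modEq, or Finset.card_involution style lemmas). -/
theorem card_PM_odd (α : Type) [Fintype α] (h : ¬ Even (Fintype.card α)) : Nat.card (PM α) = 0 := by
  have : IsEmpty (PM α) := by
    constructor
    intro R
    apply h
    have h1 := Equiv.Perm.card_fixedPoints_modEq (α := α) (f := (R.1 : α → α)) (p := 2) (n := 1)
      (by
        have h3 : (2 : ℕ) ^ 1 = 2 := by norm_num
        rw [h3]
        have h4 : (R.1 : α → α) ∘ (R.1 : α → α) = id := funext fun x => R.2.1 x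
        exact (pow_two (M := Function.End α) (R.1 : α → α)).trans h4)
    have h2 : Fintype.card ↑(Function.fixedPoints (R.1 : α → α)) = 0 := by
      rw [Fintype.card_eq_zero_iff]
      constructor
      intro x
      exact R.2.2 x.1 x.2
    rw [h2] at h1
    exact Nat.even_iff.mpr h1
  exact Nat.card_of_isEmpty

end Pool.Agent.H38H
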