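import Pool.Agent.Lib.H38H.PT0

/-!
Chunk SLPT1 (M/L). Expected number of good pairs of leaves.

Proof. Write `Kx h' = (sx .. h').K`. X-phase: `ssl` for the root `x0`, avoid set `insert y0.1 Av`, protected set `{y0.1}`, potentials
`V' m = if y0.1 ∈ x0.1 :: slotsOf m then 0 else V m []` for both `V` and `Vf` of `Pot`, `lamf := lam`. `Pot` holds with `E - 1`: for a set `B` apply `Pot2.xout` with
`insert y0.1 B` (smaller sum, as the terms are nonnegative; new moves avoid `y0.1`). Result: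
`A1 := avg K h (fun h' => if y0.1 ∉ Kx h' then sum over fin of V' ν.m else 0) ≥ c * (1-eps) * lam * th^D * V [] []`, `c = (1 - 4/n)^(4*2^D)`.
Y-phase: for fixed `h'` with `y0.1 ∉ Kx h'` and every `ν ∈ (sx h').fin`: `ssl` for the root `y0`, known set `Kx h'`, avoid set `Av ∪ slots`, protected set `{ν.e.1}`,
potentials `V'' m = if slots of m and y0 meet x0.1 :: slotsOf ν.m then 0 else V ν.m m`, `Vf''` the same with `Vf`. (`Cons I (Kx h') y0 m` gives `Cons I K y0 m`.) `Pot` holds with `E - 1` (insert `ν.e.1` in `B`; the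
other slots of `ν.m` and `x0.1` are in `Kx h'` by `PInv`). So
`avg (Kx h') h' (fun h'' => if ν.e.1 ∉ (sy h'').K then sum of Vf ν.m μ.m over (sy h'').fin else 0) ≥ c * (1-eps) * lamf * th^D * V' ν.m`. For `h'' ∈ cyl (Kx h') h'` the state `sx h''` is the same (`prun_congr`).
Sum over `ν`, then `avg_tower` with `R = Kx` (`stop_prun`).
-/

set_option autoImplicit false

namespace Pool.Agent.H38H

open Classical

variable {ι : Type} [Fintype ι] {L : ℕ}

/-- comparison of the outer sums for two forbidden sets -/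
theorem slpt1_out {I : Inst ι L} {B : Finset ι} {q : ι} {F G : Mv ι → ℝ} (hG : ∀ a, 0 ≤ G a)
    (e : ∀ w x' : ι × Bool, w.1 ∉ insert q B → x'.1 ∉ insert q B → x'.1 ≠ w.1 → F (w, x') ≤ G (w, x')) :
    outSum I (insert q B) F ≤ outSum I B G := by
  unfold outSum
  refine Finset.sum_le_sum fun w _ => ?_
  cases I.outer w with
  | none => exact le_rfl
  | some x =>
    simp only [Option.elim_some]
    by_cases h1 : w.1 ∉ insert q B ∧ x.1 ∉ insert q B ∧ x.1 ≠ w.1
    · rw [if_pos h1]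
      have h2 : w.1 ∉ B ∧ x.1 ∉ B ∧ x.1 ≠ w.1 :=
        ⟨fun h => h1.1 (Finset.mem_insert_of_mem h), fun h => h1.2.1 (Finset.mem_insert_of_mem h), h1.2.2⟩
      rw [if_pos h2]
      exact e w x h1.1 h1.2.1 h1.2.2
    · rw [if_neg h1]
      split_ifs
      · exact hG _
      · exact le_rfl

theorem slpt1_mid {B : Finset ι} {q : ι} {F G : Mv ι → ℝ} (hG : ∀ a, 0 ≤ G a)
    (e : ∀ w : ι × Bool, w.1 ∉ insert q B → F (w, flip w) ≤ G (w, flip w)) :
    midSum (insert q B) F ≤ midSum B G := by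
  unfold midSum
  refine Finset.sum_le_sum fun w _ => ?_
  by_cases h1 : w.1 ∉ insert q B
  · rw [if_pos h1, if_pos fun h => h1 (Finset.mem_insert_of_mem h)]
    exact e w h1
  · rw [if_neg h1]
    split_ifs
    · exact le_rfl
    · exact hG _

/-- potentials killed by a protected slot -/
theorem slpt1_pot {I : Inst ι L} {K : Finset ι} {x0 : ι × Bool} {E : ℕ} {lam lamf : ℝ} {q : ι}
    {U Uf : List (Mv ι) → ℝ} (hE : 1 ≤ E) (nn : ∀ m, 0 ≤ U m) (nnf : ∀ m, 0 ≤ Uf m)
    (out : ∀ m, Cons I K x0 m → q ∉ x0.1 :: slotsOf m → ∀ B : Finset ι, K ⊆ B →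
      (∀ p ∈ x0.1 :: slotsOf m, p ∈ B) → q ∈ B → B.card ≤ E →
      lam * U m * (2 * (Fintype.card ι : ℝ)) ≤ outSum I B (fun a => U (a :: m)))
    (mid : ∀ m, Cons I K x0 m → q ∉ x0.1 :: slotsOf m → ∀ B : Finset ι, K ⊆ B →
      (∀ p ∈ x0.1 :: slotsOf m, p ∈ B) → q ∈ B → B.card ≤ E →
      lam * U m * (2 * (Fintype.card ι : ℝ)) ≤ midSum B (fun a => U (a :: m)))
    (outf : ∀ m, Cons I K x0 m → q ∉ x0.1 :: slotsOf m → ∀ B : Finset ι, K ⊆ B →
      (∀ p ∈ x0.1 :: slotsOf m, p ∈ B) → q ∈ B → B.card ≤ E →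
      lamf * U m * (2 * (Fintype.card ι : ℝ)) ≤ outSum I B (fun a => Uf (a :: m))) :
    Pot I K x0 (E - 1) lam lamf (fun m => if q ∈ x0.1 :: slotsOf m then 0 else U m)
      (fun m => if q ∈ x0.1 :: slotsOf m then 0 else Uf m) := by
  have nn' : ∀ m, 0 ≤ (if q ∈ x0.1 :: slotsOf m then 0 else U m) := fun m => by
    split_ifs
    · exact le_rfl
    · exact nn m
  have nnf' : ∀ m, 0 ≤ (if q ∈ x0.1 :: slotsOf m then 0 else Uf m) := fun m => by
    split_ifs
    · exact le_rfl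
    · exact nnf m
  have card : ∀ B : Finset ι, B.card ≤ E - 1 → (insert q B).card ≤ E := fun B hB =>
    (Finset.card_insert_le q B).trans (by omega)
  have key : ∀ m, q ∉ x0.1 :: slotsOf m → ∀ B : Finset ι, ∀ w x' : ι × Bool, w.1 ∉ insert q B → x'.1 ∉ insert q B →
      x'.1 ≠ w.1 → q ∉ x0.1 :: slotsOf ((w, x') :: m) := by
    intro m hq B w x' h1 h2 h3
    rw [slotsOf_out (a := (w, x')) h3]
    rw [List.mem_cons, not_or] at hq
    rw [List.mem_cons, List.mem_cons, List.mem_cons, not_or, not_or, not_or]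
    exact ⟨hq.1, fun h => h2 (h ▸ Finset.mem_insert_self _ _), fun h => h1 (h ▸ Finset.mem_insert_self _ _), hq.2⟩
  have keym : ∀ m, q ∉ x0.1 :: slotsOf m → ∀ B : Finset ι, ∀ w : ι × Bool, w.1 ∉ insert q B →
      q ∉ x0.1 :: slotsOf ((w, flip w) :: m) := by
    intro m hq B w h1
    rw [slotsOf_mid (a := (w, flip w)) rfl]
    rw [List.mem_cons, not_or] at hq
    rw [List.mem_cons, List.mem_cons, not_or, not_or]
    exact ⟨hq.1, fun h => h1 (h ▸ Finset.mem_insert_self _ _), hq.2⟩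
  constructor
  · exact nn'
  · exact nnf'
  · intro m hm B hK hB hc
    by_cases hq : q ∈ x0.1 :: slotsOf m
    · simp only [if_pos hq, mul_zero, zero_mul]
      exact outSum_nonneg I B fun a => nn' _
    · simp only [if_neg hq]
      refine (out m hm hq (insert q B) (hK.trans (Finset.subset_insert _ _))
        (fun p hp => Finset.mem_insert_of_mem (hB p hp)) (Finset.mem_insert_self _ _) (card B hc)).trans ?_
      refine slpt1_out (fun a => nn' _) fun w x' h1 h2 h3 => ?_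
      rw [if_neg (key m hq B w x' h1 h2 h3)]
  · intro m hm B hK hB hc
    by_cases hq : q ∈ x0.1 :: slotsOf m
    · simp only [if_pos hq, mul_zero, zero_mul]
      exact midSum_nonneg B fun a => nn' _
    · simp only [if_neg hq]
      refine (mid m hm hq (insert q B) (hK.trans (Finset.subset_insert _ _))
        (fun p hp => Finset.mem_insert_of_mem (hB p hp)) (Finset.mem_insert_self _ _) (card B hc)).trans ?_
      refine slpt1_mid (fun a => nn' _) fun w h1 => ?_
      rw [if_neg (keym m hq B w h1)]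
  · intro m hm B hK hB hc
    by_cases hq : q ∈ x0.1 :: slotsOf m
    · simp only [if_pos hq, mul_zero, zero_mul]
      exact outSum_nonneg I B fun a => nnf' _
    · simp only [if_neg hq]
      refine (outf m hm hq (insert q B) (hK.trans (Finset.subset_insert _ _))
        (fun p hp => Finset.mem_insert_of_mem (hB p hp)) (Finset.mem_insert_self _ _) (card B hc)).trans ?_
      refine slpt1_out (fun a => nnf' _) fun w x' h1 h2 h3 => ?_
      rw [if_neg (key m hq B w x' h1 h2 h3)]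

theorem slpt1_avg_list {α : Type} (l : List α) (K : Finset ι) (h : SB ι) (f : α → SB ι → ℝ) :
    avg K h (fun h' => (l.map (fun a => f a h')).sum) = (l.map (fun a => avg K h (f a))).sum := by
  induction l with
  | nil => simp only [List.map_nil, List.sum_nil]; exact avg_const K h 0
  | cons a l ih =>
    simp only [List.map_cons, List.sum_cons]
    rw [avg_add, ih]

theorem slpt1_list_mono {α : Type} (l : List α) (f g : α → ℝ) (e : ∀ a ∈ l, f a ≤ g a) :
    (l.map f).sum ≤ (l.map g).sum := by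
  induction l with
  | nil => simp
  | cons a l ih =>
    simp only [List.map_cons, List.sum_cons]
    exact add_le_add (e a List.mem_cons_self) (ih fun b hb => e b (List.mem_cons_of_mem _ hb))

theorem slpt1_list_nonneg {α : Type} (l : List α) (f : α → ℝ) (e : ∀ a ∈ l, 0 ≤ f a) : 0 ≤ (l.map f).sum := by
  apply List.sum_nonneg
  intro x hx
  obtain ⟨a, ha, rfl⟩ := List.mem_map.1 hx
  exact e a ha

theorem slpt1_sx_cyl {I : Inst ι L} {Av K : Finset ι} {x0 y0 : ι × Bool} {D : ℕ} (hx : x0.1 ∉ K)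
    {h' h'' : SB ι} (hh : h'' ∈ cyl (sx I Av K x0 y0 D h').K h') : sx I Av K x0 y0 D h'' = sx I Av K x0 y0 D h' :=
  prun_congr (pinv_init I hx D (insert y0.1 Av) h') (4 * 2 ^ D) hh

theorem slpt1_pinv {I : Inst ι L} {Av K : Finset ι} {x0 y0 : ι × Bool} {D : ℕ} (hx : x0.1 ∉ K) (h : SB ι) :
    PInv I K x0 D (insert y0.1 Av) h (sx I Av K x0 y0 D h) :=
  pinv_prun (pinv_init I hx D (insert y0.1 Av) h) (4 * 2 ^ D)

theorem slpt1_eps {D a b : ℕ} {eps n : ℝ} (hab : a ≤ b) (h : 8 * ((D : ℝ) + 2) * b ≤ eps * n) :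
    8 * ((D : ℝ) + 2) * a ≤ eps * n := by
  refine le_trans (mul_le_mul_of_nonneg_left ?_ (by positivity)) h
  exact_mod_cast hab

/-- the x-phase -/
theorem slpt1_x {I : Inst ι L} {Av K : Finset ι} {x0 y0 : ι × Bool} {D E : ℕ} {eps : ℝ}
    (ok : AttOK I Av K x0 y0 D E eps) (h : SB ι) {lam lamf : ℝ} (h2 : 0 ≤ lam)
    {V Vf : List (Mv ι) → List (Mv ι) → ℝ} (hP : Pot2 I K x0 y0 E lam lamf V Vf) :
    (1 - 4 / (Fintype.card ι : ℝ)) ^ (4 * 2 ^ D) * ((1 - eps) * (lam * (2 * lam * (1 - eps)) ^ D)) * V [] [] ≤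
      avg K h (fun h' => if y0.1 ∈ (sx I Av K x0 y0 D h').K then 0 else
        ((sx I Av K x0 y0 D h').fin.map (fun ν => V ν.m [])).sum) := by
  have hE := ok.hE
  have hn := ok.hn
  have hD : 1 ≤ 2 ^ D := Nat.one_le_two_pow
  have hc := Finset.card_insert_le y0.1 Av
  have pot := slpt1_pot (I := I) (K := K) (x0 := x0) (E := E) (lam := lam) (lamf := lam) (q := y0.1)
    (U := fun m => V m []) (Uf := fun m => V m []) (by omega) (fun m => hP.nn _ _) (fun m => hP.nn _ _)
    (fun m hm hq B hK hB hq' hc => hP.xout m hm hq B hK hB hq' hc)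
    (fun m hm hq B hK hB hq' hc => hP.xmid m hm hq B hK hB hq' hc)
    (fun m hm hq B hK hB hq' hc => hP.xout m hm hq B hK hB hq' hc)
  have hxy : y0.1 ∉ x0.1 :: slotsOf ([] : List (Mv ι)) := by
    simp only [slotsOf, List.mem_cons, List.not_mem_nil, or_false]
    exact fun h => ok.hxy h.symm
  have key := ssl (I := I) (K := K) (x0 := x0) ok.hx (D := D) (E := E - 1) (Av := insert y0.1 Av) (Pr := {y0.1})
    (by simp) (by simpa using ok.hy) (by simpa using ok.hxy) h ok.e0 ok.e1 h2 h2 pot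
    (by rw [Finset.card_singleton]; omega) (by omega)
    (by
      have := ok.heps
      have h3 : 8 * ((D : ℝ) + 2) * ((K.card + 4 * 2 ^ D + L + 1 : ℕ) : ℝ) ≤ eps * (Fintype.card ι : ℝ) := by
        refine slpt1_eps (b := K.card + 12 * 2 ^ D + L + 1) (by omega) ?_
        push_cast
        exact this
      push_cast at h3
      exact h3)
    (by
      rw [Finset.card_singleton]
      have : (4 : ℝ) ≤ (Fintype.card ι : ℝ) := by
        have h4 : 4 ≤ Fintype.card ι := by omega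
        exact_mod_cast h4
      push_cast
      linarith)
  simp only [if_neg hxy, Finset.card_singleton] at key
  have e1 : (2 * (1 + ((1 : ℕ) : ℝ))) = 4 := by norm_num
  rw [e1] at key
  refine key.trans (avg_mono fun h' _ => ?_)
  have e2 : sx I Av K x0 y0 D h' = prun I (insert y0.1 Av) h' (4 * 2 ^ D) (pinit K x0 D) := rfl
  rw [← e2]
  by_cases h5 : y0.1 ∈ (sx I Av K x0 y0 D h').K
  · rw [if_pos h5, if_neg]
    rw [Finset.disjoint_singleton_left]
    exact fun h => h h5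
  · rw [if_neg h5, if_pos (Finset.disjoint_singleton_left.2 h5)]
    refine slpt1_list_mono _ _ _ fun ν _ => ?_
    split_ifs
    · exact hP.nn _ _
    · exact le_rfl

/-- the y-phase -/
theorem slpt1_y {I : Inst ι L} {Av K : Finset ι} {x0 y0 : ι × Bool} {D E : ℕ} {eps : ℝ}
    (ok : AttOK I Av K x0 y0 D E eps) (h : SB ι) {lam lamf : ℝ} (h2 : 0 ≤ lam) (h3 : 0 ≤ lamf)
    {V Vf : List (Mv ι) → List (Mv ι) → ℝ} (hP : Pot2 I K x0 y0 E lam lamf V Vf)
    (hy : y0.1 ∉ (sx I Av K x0 y0 D h).K) {ν : Nd ι} (hν : ν ∈ (sx I Av K x0 y0 D h).fin) :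
    (1 - 4 / (Fintype.card ι : ℝ)) ^ (4 * 2 ^ D) * ((1 - eps) * (lamf * (2 * lam * (1 - eps)) ^ D)) * V ν.m [] ≤
      avg (sx I Av K x0 y0 D h).K h (fun h' => if ν.e.1 ∈ (sy I Av K x0 y0 D h').K then 0 else
        ((sy I Av K x0 y0 D h').fin.map (fun μ => Vf ν.m μ.m)).sum) := by
  have hE := ok.hE
  have hn := ok.hn
  have hD : 1 ≤ 2 ^ D := Nat.one_le_two_pow
  have P := slpt1_pinv (I := I) (Av := Av) (K := K) (x0 := x0) (y0 := y0) (D := D) ok.hx h
  obtain ⟨s, hs⟩ : ∃ s, s = sx I Av K x0 y0 D h := ⟨_, rfl⟩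
  have hKs : s.K.card ≤ K.card + 4 * 2 ^ D := by
    rw [hs]
    exact prun_K_card I (insert y0.1 Av) h (4 * 2 ^ D) (pinit K x0 D)
  have hcyl : ∀ h'' ∈ cyl s.K h, sx I Av K x0 y0 D h'' = s := fun h'' hh => by
    rw [hs] at hh ⊢
    exact slpt1_sx_cyl ok.hx hh
  rw [← hs] at hy hν P ⊢
  have hslots := slots_card_le P
  have hmem : ν ∈ s.pend ++ s.fin := List.mem_append_right _ hν
  obtain ⟨hTr, hend, hCons, hsl, hne, -⟩ := P.node ν hmem
  have hlen := P.lenf ν hν
  have hm0 : ν.m ≠ [] := fun h => by rw [h] at hlen; simp at hlen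
  obtain ⟨hxK, hAv⟩ := hne hm0
  have hνK := P.unk ν hmem
  have hνy : ν.e.1 ≠ y0.1 := fun h => hAv (h ▸ Finset.mem_insert_self _ _)
  have hνs : ν.e.1 ∈ s.slots := by
    unfold PS.slots
    rw [List.mem_toFinset]
    exact List.mem_map.2 ⟨ν, hmem, rfl⟩
  have hKK : K ⊆ s.K := P.sub
  have hcard : (Av ∪ s.slots).card ≤ Av.card + 2 ^ D := (Finset.card_union_le _ _).trans (by omega)
  have cons' : ∀ m, Cons I s.K y0 m → Cons I K y0 m := fun m c =>
    ⟨c.nodup, fun p hp hq => c.fresh p hp (hKK hq), c.shape⟩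
  have nod : ∀ m, Cons I s.K y0 m → ν.e.1 ∉ y0.1 :: slotsOf m →
      ((x0.1 :: slotsOf ν.m) ++ (y0.1 :: slotsOf m)).Nodup := by
    intro m c hq
    rw [List.nodup_append]
    refine ⟨hCons.nodup, c.nodup, fun a ha b hb hab => ?_⟩
    subst hab
    rcases List.mem_cons.1 ha with rfl | ha
    · exact c.fresh _ hb hxK
    · by_cases h6 : a = ν.e.1
      · exact hq (h6 ▸ hb)
      · exact c.fresh _ hb (hsl a ha h6)
  have allB : ∀ m, ∀ B : Finset ι, s.K ⊆ B → (∀ p ∈ y0.1 :: slotsOf m, p ∈ B) → ν.e.1 ∈ B →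
      ∀ p ∈ (x0.1 :: slotsOf ν.m) ++ (y0.1 :: slotsOf m), p ∈ B := by
    intro m B h5 h6 h7 p hp
    rcases List.mem_append.1 hp with hp | hp
    · rcases List.mem_cons.1 hp with rfl | hp
      · exact h5 hxK
      · by_cases h8 : p = ν.e.1
        · exact h8 ▸ h7
        · exact h5 (hsl p hp h8)
    · exact h6 p hp
  have pot := slpt1_pot (I := I) (K := s.K) (x0 := y0) (E := E) (lam := lam) (lamf := lamf) (q := ν.e.1)
    (U := fun m => V ν.m m) (Uf := fun m => Vf ν.m m) (by omega) (fun m => hP.nn _ _) (fun m => hP.nnf _ _)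
    (fun m hm hq B hK hB hq' hc => hP.yout ν.m m hCons (cons' m hm) (nod m hm hq) B (hKK.trans hK)
      (allB m B hK hB hq') hc)
    (fun m hm hq B hK hB hq' hc => hP.ymid ν.m m hCons (cons' m hm) (nod m hm hq) B (hKK.trans hK)
      (allB m B hK hB hq') hc)
    (fun m hm hq B hK hB hq' hc => hP.youtf ν.m m hCons (cons' m hm) (nod m hm hq) B (hKK.trans hK)
      (allB m B hK hB hq') hc)
  have hxy : ν.e.1 ∉ y0.1 :: slotsOf ([] : List (Mv ι)) := by
    simp only [slotsOf, List.mem_cons, List.not_mem_nil, or_false]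
    exact hνy
  have key := ssl (I := I) (K := s.K) (x0 := y0) hy (D := D) (E := E - 1) (Av := Av ∪ s.slots) (Pr := {ν.e.1})
    (by simpa using Or.inr hνs) (by simpa using hνK) (by simpa using fun h => hνy h.symm) h ok.e0 ok.e1 h2 h3 pot
    (by rw [Finset.card_singleton]; omega) (by omega)
    (by
      have := ok.heps
      have h3 : 8 * ((D : ℝ) + 2) * ((s.K.card + 4 * 2 ^ D + L + 1 : ℕ) : ℝ) ≤ eps * (Fintype.card ι : ℝ) := by
        refine slpt1_eps (b := K.card + 12 * 2 ^ D + L + 1) (by omega) ?_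
        push_cast
        exact this
      push_cast at h3
      exact h3)
    (by
      rw [Finset.card_singleton]
      have : (4 : ℝ) ≤ (Fintype.card ι : ℝ) := by
        have h4 : 4 ≤ Fintype.card ι := by omega
        exact_mod_cast h4
      push_cast
      linarith)
  simp only [if_neg hxy, Finset.card_singleton] at key
  have e1 : (2 * (1 + ((1 : ℕ) : ℝ))) = 4 := by norm_num
  rw [e1] at key
  refine key.trans (avg_mono fun h' hh' => ?_)
  have e2 : sy I Av K x0 y0 D h' = prun I (Av ∪ s.slots) h' (4 * 2 ^ D) (pinit s.K y0 D) := by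
    unfold sy
    rw [hcyl h' hh']
  rw [← e2]
  by_cases h5 : ν.e.1 ∈ (sy I Av K x0 y0 D h').K
  · rw [if_pos h5, if_neg]
    rw [Finset.disjoint_singleton_left]
    exact fun h => h h5
  · rw [if_neg h5, if_pos (Finset.disjoint_singleton_left.2 h5)]
    refine slpt1_list_mono _ _ _ fun μ _ => ?_
    split_ifs
    · exact hP.nnf _ _
    · exact le_rfl

theorem two_sided {I : Inst ι L} {Av K : Finset ι} {x0 y0 : ι × Bool} {D E : ℕ} {eps : ℝ}
    (ok : AttOK I Av K x0 y0 D E eps) (h : SB ι) {lam lamf : ℝ} (h2 : 0 ≤ lam) (h3 : 0 ≤ lamf)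
    {V Vf : List (Mv ι) → List (Mv ι) → ℝ} (hP : Pot2 I K x0 y0 E lam lamf V Vf) :
    ((1 - 4 / (Fintype.card ι : ℝ)) ^ (4 * 2 ^ D) * (1 - eps) * (2 * lam * (1 - eps)) ^ D) ^ 2 *
        (lam * lamf) * V [] [] ≤ avg K h (gsum I Av K x0 y0 D Vf) := by
  have hn := ok.hn
  have e0 := ok.e0
  have e1 := ok.e1
  have hn4 : (4 : ℝ) ≤ (Fintype.card ι : ℝ) := by
    have h4 : 4 ≤ Fintype.card ι := by omega
    exact_mod_cast h4
  have hc0 : 0 ≤ 1 - 4 / (Fintype.card ι : ℝ) := by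
    rw [sub_nonneg, div_le_one (by linarith)]
    exact hn4
  obtain ⟨c, hc⟩ : ∃ c, c = (1 - 4 / (Fintype.card ι : ℝ)) ^ (4 * 2 ^ D) := ⟨_, rfl⟩
  have hc0 : 0 ≤ c := hc ▸ pow_nonneg hc0 _
  have hth : 0 ≤ (2 * lam * (1 - eps)) ^ D := pow_nonneg (mul_nonneg (by linarith) (by linarith)) _
  have hstop : Stop K h (fun h' => (sx I Av K x0 y0 D h').K) :=
    stop_prun (pinv_init I ok.hx D (insert y0.1 Av) h) (4 * 2 ^ D)
  rw [avg_tower hstop]
  have hX := slpt1_x ok h h2 hP
  rw [← hc] at hX ⊢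
  obtain ⟨k, hk⟩ : ∃ k, k = c * ((1 - eps) * (lamf * (2 * lam * (1 - eps)) ^ D)) := ⟨_, rfl⟩
  have hk0 : 0 ≤ k := hk ▸ mul_nonneg hc0 (mul_nonneg (by linarith) (mul_nonneg h3 hth))
  have hin : ∀ h' ∈ cyl K h, k * (if y0.1 ∈ (sx I Av K x0 y0 D h').K then 0 else
      ((sx I Av K x0 y0 D h').fin.map (fun ν => V ν.m [])).sum) ≤
      avg (sx I Av K x0 y0 D h').K h' (gsum I Av K x0 y0 D Vf) := by
    intro h' _
    by_cases hy : y0.1 ∈ (sx I Av K x0 y0 D h').K
    · rw [if_pos hy, mul_zero]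
      refine avg_nonneg fun h'' _ => ?_
      unfold gsum
      split_ifs
      · exact le_rfl
      · refine slpt1_list_nonneg _ _ fun ν _ => ?_
        split_ifs
        · exact le_rfl
        · exact slpt1_list_nonneg _ _ fun μ _ => hP.nnf _ _
    · rw [if_neg hy]
      have e4 : avg (sx I Av K x0 y0 D h').K h' (gsum I Av K x0 y0 D Vf) =
          avg (sx I Av K x0 y0 D h').K h' (fun h'' => ((sx I Av K x0 y0 D h').fin.map (fun ν =>
            if ν.e.1 ∈ (sy I Av K x0 y0 D h'').K then 0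
            else ((sy I Av K x0 y0 D h'').fin.map (fun μ => Vf ν.m μ.m)).sum)).sum) := by
        refine avg_congr fun h'' hh => ?_
        unfold gsum
        rw [slpt1_sx_cyl ok.hx hh, if_neg hy]
      rw [e4, slpt1_avg_list, ← List.sum_map_mul_left]
      refine slpt1_list_mono _ _ _ fun ν hν => ?_
      rw [hk, hc]
      exact slpt1_y ok h' h2 h3 hP hy hν
  refine le_trans ?_ (avg_mono hin)
  rw [avg_smul]
  refine le_trans ?_ (mul_le_mul_of_nonneg_left hX hk0)
  rw [hk]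
  apply le_of_eq
  ring

end Pool.Agent.H38H
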