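import Pool.Agent.Lib.H38H.PT0

/-!
Chunk SLPT2 (M). An attempt is a decision procedure; facts about successful pairs.

Proofs. `att_stop`: for `h'' ∈ cyl (attR h') h'` we have `(sx h').K ⊆ attR h'`, so `sx h'' = sx h'` (`prun_congr` with `pinv_init`, as `x0.1 ∉ K`); if `y0.1` is not in this
set, `(sy h').K ⊆ attR h'`, so `sy h'' = sy h'` (`pinv_init` needs `y0.1 ∉ (sx h').K`). Success only involves contents of slots of finished nodes, which are
in `attR h'`. `att_card`: `prun_K_card` twice and `slots_card_le` twice: `4*2^D + 4*2^D + 2^D + 2^D`.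
`att_facts`: `PInv` for `sx h'` and `sy h'` (`pinv_prun`): `Tr`, `Cons`, `lenf`, the last move is by outer, the end slot is not in the avoid set (so not in `Av`, the slot of `ν` is not
`y0.1`, the slot of `μ` is not a slot of a leaf of `sx`), the other slots of `ν.m` are in `(sx h').K`, the slots of `y0 :: μ.m` are outside `(sx h').K`; `ν.e.1 ∉ (sy h').K` while the
slots of `μ.m` except `μ.e.1` are in `(sy h').K`. At the end `pend = []` (`prun_done`), so `slots` are the slots of `fin`.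
-/

set_option autoImplicit false

namespace Pool.Agent.H38H

open Classical

variable {ι : Type} [Fintype ι] {L : ℕ}

theorem slpt2_sx {I : Inst ι L} {Av K : Finset ι} {x0 y0 : ι × Bool} {D : ℕ} (hx : x0.1 ∉ K)
    {h h' : SB ι} (hh : h' ∈ cyl (sx I Av K x0 y0 D h).K h) :
    sx I Av K x0 y0 D h' = sx I Av K x0 y0 D h :=
  prun_congr (pinv_init I hx D (insert y0.1 Av) h) _ hh

theorem slpt2_sy {I : Inst ι L} {Av K : Finset ι} {x0 y0 : ι × Bool} {D : ℕ} (hx : x0.1 ∉ K)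
    {h h' : SB ι} (hy : y0.1 ∉ (sx I Av K x0 y0 D h).K)
    (hh : h' ∈ cyl (sx I Av K x0 y0 D h).K h) (h2 : h' ∈ cyl (sy I Av K x0 y0 D h).K h) :
    sy I Av K x0 y0 D h' = sy I Av K x0 y0 D h := by
  have e := slpt2_sx hx hh
  unfold sy
  rw [e]
  exact prun_congr (pinv_init I hy D (Av ∪ (sx I Av K x0 y0 D h).slots) h) _ h2

theorem slpt2_sub1 (I : Inst ι L) (Av K : Finset ι) (x0 y0 : ι × Bool) (D : ℕ) (h : SB ι) :
    K ⊆ (sx I Av K x0 y0 D h).K :=
  prun_K_sub I (insert y0.1 Av) h _ (pinit K x0 D)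

theorem slpt2_sub2 (I : Inst ι L) (Av K : Finset ι) (x0 y0 : ι × Bool) (D : ℕ) (h : SB ι) :
    (sx I Av K x0 y0 D h).K ⊆ (sy I Av K x0 y0 D h).K :=
  prun_K_sub I (Av ∪ (sx I Av K x0 y0 D h).slots) h _ (pinit (sx I Av K x0 y0 D h).K y0 D)

theorem slpt2_R1 {I : Inst ι L} {Av K : Finset ι} {x0 y0 : ι × Bool} {D : ℕ} {h : SB ι}
    (hy : y0.1 ∈ (sx I Av K x0 y0 D h).K) :
    attR I Av K x0 y0 D h = (sx I Av K x0 y0 D h).K := by
  unfold attR
  rw [if_pos hy]

theorem slpt2_R2 {I : Inst ι L} {Av K : Finset ι} {x0 y0 : ι × Bool} {D : ℕ} {h : SB ι}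
    (hy : y0.1 ∉ (sx I Av K x0 y0 D h).K) :
    attR I Av K x0 y0 D h = (sy I Av K x0 y0 D h).K ∪ (sx I Av K x0 y0 D h).slots ∪
      (sy I Av K x0 y0 D h).slots := by
  unfold attR
  rw [if_neg hy]

theorem slpt2_subK (I : Inst ι L) (Av K : Finset ι) (x0 y0 : ι × Bool) (D : ℕ) (h : SB ι) :
    (sx I Av K x0 y0 D h).K ⊆ attR I Av K x0 y0 D h := by
  by_cases hy : y0.1 ∈ (sx I Av K x0 y0 D h).K
  · rw [slpt2_R1 hy]
  · rw [slpt2_R2 hy]
    exact ((slpt2_sub2 I Av K x0 y0 D h).trans Finset.subset_union_left).trans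
      Finset.subset_union_left

/-- what is known after an attempt -/
theorem slpt2_congr {I : Inst ι L} {Av K : Finset ι} {x0 y0 : ι × Bool} {D : ℕ} (hx : x0.1 ∉ K)
    {h h' : SB ι} (hh : h' ∈ cyl (attR I Av K x0 y0 D h) h) :
    sx I Av K x0 y0 D h' = sx I Av K x0 y0 D h ∧
      (y0.1 ∉ (sx I Av K x0 y0 D h).K → sy I Av K x0 y0 D h' = sy I Av K x0 y0 D h) := by
  have h1 : h' ∈ cyl (sx I Av K x0 y0 D h).K h := cyl_mono (slpt2_subK I Av K x0 y0 D h) h hh
  refine ⟨slpt2_sx hx h1, fun hy => slpt2_sy hx hy h1 ?_⟩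
  rw [slpt2_R2 hy] at hh
  exact cyl_mono (Finset.subset_union_left.trans Finset.subset_union_left) h hh

theorem slpt2_R {I : Inst ι L} {Av K : Finset ι} {x0 y0 : ι × Bool} {D : ℕ} (hx : x0.1 ∉ K)
    {h h' : SB ι} (hh : h' ∈ cyl (attR I Av K x0 y0 D h) h) :
    attR I Av K x0 y0 D h' = attR I Av K x0 y0 D h := by
  obtain ⟨e1, e2⟩ := slpt2_congr hx hh
  by_cases hy : y0.1 ∈ (sx I Av K x0 y0 D h).K
  · rw [slpt2_R1 hy, slpt2_R1 (by rw [e1]; exact hy), e1]
  · rw [slpt2_R2 hy, slpt2_R2 (by rw [e1]; exact hy), e1, e2 hy]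

theorem slpt2_slots {s : PS ι} {ν : Nd ι} (hν : ν ∈ s.fin) : ν.e.1 ∈ s.slots := by
  unfold PS.slots
  rw [List.mem_toFinset]
  exact List.mem_map_of_mem (List.mem_append_right _ hν)

theorem att_stop {I : Inst ι L} {Av K : Finset ι} {x0 y0 : ι × Bool} {D E : ℕ} {eps : ℝ}
    (ok : AttOK I Av K x0 y0 D E eps) (h : SB ι) : Stop K h (attR I Av K x0 y0 D) :=
  ⟨fun h' _ => (slpt2_sub1 I Av K x0 y0 D h').trans (slpt2_subK I Av K x0 y0 D h'),
    fun _ _ _ h2 => slpt2_R ok.hx h2⟩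

theorem slpt2_succ {I : Inst ι L} {Av K : Finset ι} {x0 y0 : ι × Bool} {D : ℕ} (hx : x0.1 ∉ K)
    {Vf : List (Mv ι) → List (Mv ι) → ℝ} {h h' : SB ι}
    (hh : h' ∈ cyl (attR I Av K x0 y0 D h) h) (hs : Succ I Av K x0 y0 D Vf h) :
    Succ I Av K x0 y0 D Vf h' := by
  obtain ⟨hy, ν, hν, μ, hμ, h1, h2, h3⟩ := hs
  obtain ⟨e1, e2⟩ := slpt2_congr hx hh
  have e3 := e2 hy
  have hR := slpt2_R2 hy
  have a1 : ap h' ν.e = ap h ν.e := by
    apply ap_congr hh
    rw [hR]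
    exact Finset.mem_union_left _ (Finset.mem_union_right _ (slpt2_slots hν))
  have a2 : ap h' μ.e = ap h μ.e := by
    apply ap_congr hh
    rw [hR]
    exact Finset.mem_union_right _ (slpt2_slots hμ)
  refine ⟨by rw [e1]; exact hy, ν, by rw [e1]; exact hν, μ, by rw [e3]; exact hμ,
    by rw [e3]; exact h1, h2, ?_⟩
  rw [a1, a2]
  exact h3

theorem att_succ_congr {I : Inst ι L} {Av K : Finset ι} {x0 y0 : ι × Bool} {D E : ℕ} {eps : ℝ}
    (ok : AttOK I Av K x0 y0 D E eps) {Vf : List (Mv ι) → List (Mv ι) → ℝ} {h h' : SB ι}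
    (hh : h' ∈ cyl (attR I Av K x0 y0 D h) h) :
    Succ I Av K x0 y0 D Vf h' ↔ Succ I Av K x0 y0 D Vf h := by
  constructor
  · intro hs
    have h1 : h ∈ cyl (attR I Av K x0 y0 D h') h' := by
      rw [slpt2_R ok.hx hh, cyl_eq_of_mem hh]
      exact self_mem_cyl _ _
    exact slpt2_succ ok.hx h1 hs
  · exact slpt2_succ ok.hx hh

theorem att_card {I : Inst ι L} {Av K : Finset ι} {x0 y0 : ι × Bool} {D E : ℕ} {eps : ℝ}
    (ok : AttOK I Av K x0 y0 D E eps) (h : SB ι) :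
    (attR I Av K x0 y0 D h).card ≤ K.card + 10 * 2 ^ D := by
  have h1 : (sx I Av K x0 y0 D h).K.card ≤ K.card + 4 * 2 ^ D :=
    prun_K_card I (insert y0.1 Av) h _ (pinit K x0 D)
  by_cases hy : y0.1 ∈ (sx I Av K x0 y0 D h).K
  · rw [slpt2_R1 hy]
    omega
  · rw [slpt2_R2 hy]
    have h2 : (sy I Av K x0 y0 D h).K.card ≤ (sx I Av K x0 y0 D h).K.card + 4 * 2 ^ D :=
      prun_K_card I (Av ∪ (sx I Av K x0 y0 D h).slots) h _
        (pinit (sx I Av K x0 y0 D h).K y0 D)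
    have h3 : (sx I Av K x0 y0 D h).slots.card ≤ 2 ^ D :=
      slots_card_le (pinv_prun (pinv_init I ok.hx D (insert y0.1 Av) h) _)
    have h4 : (sy I Av K x0 y0 D h).slots.card ≤ 2 ^ D :=
      slots_card_le (pinv_prun (pinv_init I hy D (Av ∪ (sx I Av K x0 y0 D h).slots) h) _)
    have h5 := Finset.card_union_le ((sy I Av K x0 y0 D h).K ∪ (sx I Av K x0 y0 D h).slots)
      (sy I Av K x0 y0 D h).slots
    have h6 := Finset.card_union_le (sy I Av K x0 y0 D h).K (sx I Av K x0 y0 D h).slots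
    omega

theorem att_facts {I : Inst ι L} {Av K : Finset ι} {x0 y0 : ι × Bool} {D E : ℕ} {eps : ℝ}
    (ok : AttOK I Av K x0 y0 D E eps) {Vf : List (Mv ι) → List (Mv ι) → ℝ} {h : SB ι}
    (hs : Succ I Av K x0 y0 D Vf h) :
    ∃ mx my : List (Mv ι), Tr I h x0 mx ∧ Tr I h y0 my ∧ Cons I K x0 mx ∧ Cons I K y0 my ∧
      mx.length = D + 1 ∧ my.length = D + 1 ∧
      ((x0.1 :: slotsOf mx) ++ (y0.1 :: slotsOf my)).Nodup ∧
      (∀ p ∈ (x0.1 :: slotsOf mx) ++ (y0.1 :: slotsOf my), p ∈ attR I Av K x0 y0 D h) ∧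
      (endOf x0 mx).1 ∉ Av ∧ (endOf y0 my).1 ∉ Av ∧
      0 < Vf mx my ∧ Clo I (ap h (endOf x0 mx)) (ap h (endOf y0 my)) := by
  obtain ⟨hy, ν, hν, μ, hμ, h1, h2, h3⟩ := hs
  have PX : PInv I K x0 D (insert y0.1 Av) h (sx I Av K x0 y0 D h) :=
    pinv_prun (pinv_init I ok.hx D (insert y0.1 Av) h) _
  have PY : PInv I (sx I Av K x0 y0 D h).K y0 D (Av ∪ (sx I Av K x0 y0 D h).slots) h
      (sy I Av K x0 y0 D h) :=
    pinv_prun (pinv_init I hy D (Av ∪ (sx I Av K x0 y0 D h).slots) h) _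
  obtain ⟨xT, xe, xC, xs, xr, -⟩ := PX.node ν (List.mem_append_right _ hν)
  obtain ⟨yT, ye, yC, ys, yr, -⟩ := PY.node μ (List.mem_append_right _ hμ)
  have xl := PX.lenf ν hν
  have yl := PY.lenf μ hμ
  have xne : ν.m ≠ [] := by
    intro h4
    rw [h4] at xl
    exact absurd xl (by simp)
  have yne : μ.m ≠ [] := by
    intro h4
    rw [h4] at yl
    exact absurd yl (by simp)
  obtain ⟨xr1, xr2⟩ := xr xne
  obtain ⟨yr1, yr2⟩ := yr yne
  rw [Finset.mem_insert, not_or] at xr2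
  rw [Finset.mem_union, not_or] at yr2
  have hsub1 := slpt2_sub1 I Av K x0 y0 D h
  have hsub2 := slpt2_sub2 I Av K x0 y0 D h
  refine ⟨ν.m, μ.m, xT, yT, xC, ⟨yC.nodup, fun p hp hpK => yC.fresh p hp (hsub1 hpK), yC.shape⟩,
    xl, yl, ?_, ?_, ?_, ?_, h2, ?_⟩
  · refine List.nodup_append.2 ⟨xC.nodup, yC.nodup, ?_⟩
    intro p hp q hq hpq
    rw [← hpq] at hq
    by_cases hpe : p = ν.e.1
    · rcases List.mem_cons.1 hq with h4 | h4
      · exact xr2.1 (hpe ▸ h4)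
      · by_cases h5 : p = μ.e.1
        · exact yr2.2 (by rw [← h5, hpe]; exact slpt2_slots hν)
        · exact h1 (hpe ▸ ys p h4 h5)
    · have h6 : p ∈ (sx I Av K x0 y0 D h).K := by
        rcases List.mem_cons.1 hp with h4 | h4
        · rw [h4]
          exact xr1
        · exact xs p h4 hpe
      exact yC.fresh p hq h6
  · intro p hp
    rw [slpt2_R2 hy]
    rcases List.mem_append.1 hp with h4 | h4
    · rcases List.mem_cons.1 h4 with h5 | h5
      · rw [h5]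
        exact Finset.mem_union_left _ (Finset.mem_union_left _ (hsub2 xr1))
      · by_cases h6 : p = ν.e.1
        · rw [h6]
          exact Finset.mem_union_left _ (Finset.mem_union_right _ (slpt2_slots hν))
        · exact Finset.mem_union_left _ (Finset.mem_union_left _ (hsub2 (xs p h5 h6)))
    · rcases List.mem_cons.1 h4 with h5 | h5
      · rw [h5]
        exact Finset.mem_union_left _ (Finset.mem_union_left _ yr1)
      · by_cases h6 : p = μ.e.1
        · rw [h6]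
          exact Finset.mem_union_right _ (slpt2_slots hμ)
        · exact Finset.mem_union_left _ (Finset.mem_union_left _ (ys p h5 h6))
  · rw [← xe]
    exact xr2.2
  · rw [← ye]
    exact yr2.1
  · rw [← xe, ← ye]
    exact h3

end Pool.Agent.H38H
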