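import Pool.Agent.Lib.H38H.PT1
import Pool.Agent.Lib.H38H.PT2
import Pool.Agent.Lib.H38H.PC2

/-!
Chunk SLPT3 (M/L). Success probability of an attempt.

Proof. Let `Ky h' = (sy h').K` if `y0.1 ∉ (sx h').K` and `(sx h').K` otherwise; it is a `Stop` from `K` (`stop_prun`, `stop_trans`), `|Ky| ≤ |K| + 8*2^D`. Conditionally on it (`avg_tower`) let `Γ` be the set of pairs
`(ν.e, μ.e)`, `ν ∈ (sx h').fin`, `μ ∈ (sy h').fin`, `ν.e.1 ∉ Ky`, `0 < Vf ν.m μ.m` (empty if `y0.1` was met). The slots of `μ ∈ (sy h').fin` are unknown, pairwise different (`PInv.nod`), outside the slots of `sx`; so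
`closing` applies with the known set `Ky h'` and `Succ` is implied by the existence of a closed pair of `Γ`. `|Γ| ≥ gsum h'` since `Vf ≤ 1` (different nodes have
different ends: `PInv.nod`), and `|Γ| ≤ 4^D` (`PInv.count` gives at most `2^D` finished nodes on each side).
`att_prob1`: for `4^D ≤ n`: `t = |Γ|/(4n) ≤ 1/4`, so `t/(1+(1+16/n)t) ≥ t/2`: probability `≥ |Γ|/(8n) ≥ gsum/(8n)`.
`att_prob2`: `gsum ≤ 4^D`. Let `η = 1 - avg gsum/4^D`. Markov for `4^D - gsum ≥ 0`: `P(gsum < 4^D/2) ≤ 2η`. If `gsum ≥ 4^D/2` then `t ≥ 4^D/(8n)` and the failure probability is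
`1 - t/(1+(1+16/n)t) = (1 + 16t/n)/(1+(1+16/n)t) ≤ 1/t + 16/n ≤ 8n/4^D + 16/n`.
-/

set_option autoImplicit false

namespace Pool.Agent.H38H

open Classical

variable {ι : Type} [Fintype ι] {L : ℕ}

theorem pt3_stop_congr {K : Finset ι} {h : SB ι} {R R' : SB ι → Finset ι} (hR : Stop K h R)
    (e : ∀ h' ∈ cyl K h, R' h' = R h') : Stop K h R' := by
  constructor
  · intro h' hh'
    rw [e h' hh']
    exact hR.1 h' hh'
  · intro h' hh' h'' hh''
    rw [e h' hh'] at hh''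
    have hm : h'' ∈ cyl K h := by
      rw [← cyl_eq_of_mem hh']
      exact cyl_mono (hR.1 h' hh') h' hh''
    rw [e h'' hm, e h' hh']
    exact hR.2 h' hh' h'' hh''

theorem pt3_stop_const (K K' : Finset ι) (hK : K ⊆ K') (h : SB ι) : Stop K h (fun _ => K') :=
  ⟨fun _ _ => hK, fun _ _ _ _ => rfl⟩

theorem pt3_px {I : Inst ι L} {Av K : Finset ι} {x0 y0 : ι × Bool} {D E : ℕ} {eps : ℝ}
    (ok : AttOK I Av K x0 y0 D E eps) (h : SB ι) :
    PInv I K x0 D (insert y0.1 Av) h (sx I Av K x0 y0 D h) :=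
  pinv_prun (pinv_init I ok.hx D _ h) _

theorem pt3_py {I : Inst ι L} {Av K : Finset ι} {x0 y0 : ι × Bool} {D : ℕ} {h : SB ι}
    (hy : y0.1 ∉ (sx I Av K x0 y0 D h).K) :
    PInv I (sx I Av K x0 y0 D h).K y0 D (Av ∪ (sx I Av K x0 y0 D h).slots) h
      (sy I Av K x0 y0 D h) :=
  pinv_prun (pinv_init I hy D _ h) _

theorem pt3_sx_congr {I : Inst ι L} {Av K : Finset ι} {x0 y0 : ι × Bool} {D E : ℕ} {eps : ℝ}
    (ok : AttOK I Av K x0 y0 D E eps) {h h' : SB ι} (hh : h' ∈ cyl (sx I Av K x0 y0 D h).K h) :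
    sx I Av K x0 y0 D h' = sx I Av K x0 y0 D h :=
  prun_congr (pinv_init I ok.hx D _ h) _ hh

theorem pt3_sub (I : Inst ι L) (Av K : Finset ι) (x0 y0 : ι × Bool) (D : ℕ) (h : SB ι) :
    K ⊆ (sx I Av K x0 y0 D h).K ∧ (sx I Av K x0 y0 D h).K ⊆ (sy I Av K x0 y0 D h).K :=
  ⟨prun_K_sub I _ h _ (pinit K x0 D), prun_K_sub I _ h _ (pinit (sx I Av K x0 y0 D h).K y0 D)⟩

theorem pt3_sy_congr' {I : Inst ι L} {Av K : Finset ι} {x0 y0 : ι × Bool} {D : ℕ} {h h' : SB ι}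
    (hs : sx I Av K x0 y0 D h' = sx I Av K x0 y0 D h) :
    sy I Av K x0 y0 D h' = prun I (Av ∪ (sx I Av K x0 y0 D h).slots) h' (4 * 2 ^ D)
      (pinit (sx I Av K x0 y0 D h).K y0 D) := by
  unfold sy
  rw [hs]

theorem pt3_sy_congr {I : Inst ι L} {Av K : Finset ι} {x0 y0 : ι × Bool} {D E : ℕ} {eps : ℝ}
    (ok : AttOK I Av K x0 y0 D E eps) {h h' : SB ι} (hy : y0.1 ∉ (sx I Av K x0 y0 D h).K)
    (hh : h' ∈ cyl (sy I Av K x0 y0 D h).K h) :
    sx I Av K x0 y0 D h' = sx I Av K x0 y0 D h ∧ sy I Av K x0 y0 D h' = sy I Av K x0 y0 D h := by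
  have h1 : sx I Av K x0 y0 D h' = sx I Av K x0 y0 D h :=
    pt3_sx_congr ok (cyl_mono (pt3_sub I Av K x0 y0 D h).2 h hh)
  refine ⟨h1, ?_⟩
  rw [pt3_sy_congr' h1]
  exact prun_congr (pinv_init I hy D _ h) _ hh

/-- the revealed set before the closing -/
noncomputable def pt3R (I : Inst ι L) (Av K : Finset ι) (x0 y0 : ι × Bool) (D : ℕ) (h : SB ι) :
    Finset ι :=
  if y0.1 ∈ (sx I Av K x0 y0 D h).K then (sx I Av K x0 y0 D h).K else (sy I Av K x0 y0 D h).K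

theorem pt3_stop {I : Inst ι L} {Av K : Finset ι} {x0 y0 : ι × Bool} {D E : ℕ} {eps : ℝ}
    (ok : AttOK I Av K x0 y0 D E eps) (h : SB ι) : Stop K h (pt3R I Av K x0 y0 D) := by
  refine stop_trans (R := fun h' => (sx I Av K x0 y0 D h').K)
    (stop_prun (pinv_init I ok.hx D (insert y0.1 Av) h) (4 * 2 ^ D)) ?_
  intro h' hh'
  by_cases hy : y0.1 ∈ (sx I Av K x0 y0 D h').K
  · refine pt3_stop_congr (pt3_stop_const _ _ (Finset.Subset.refl _) h') ?_
    intro h'' hh''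
    have h1 := pt3_sx_congr ok hh''
    unfold pt3R
    rw [h1, if_pos hy]
  · refine pt3_stop_congr
      (stop_prun (pinv_init I hy D (Av ∪ (sx I Av K x0 y0 D h').slots) h') (4 * 2 ^ D)) ?_
    intro h'' hh''
    have h1 := pt3_sx_congr ok hh''
    unfold pt3R
    rw [pt3_sy_congr' h1, h1, if_neg hy]

theorem pt3_card (I : Inst ι L) (Av K : Finset ι) (x0 y0 : ι × Bool) (D : ℕ) (h : SB ι) :
    (sy I Av K x0 y0 D h).K.card ≤ K.card + 12 * 2 ^ D := by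
  have h1 : (sx I Av K x0 y0 D h).K.card ≤ K.card + 4 * 2 ^ D :=
    prun_K_card I _ h _ (pinit K x0 D)
  have h2 : (sy I Av K x0 y0 D h).K.card ≤ (sx I Av K x0 y0 D h).K.card + 4 * 2 ^ D :=
    prun_K_card I _ h _ (pinit (sx I Av K x0 y0 D h).K y0 D)
  omega

theorem pt3_gsum_zero {I : Inst ι L} {Av K : Finset ι} {x0 y0 : ι × Bool} {D : ℕ} {h : SB ι}
    (Vf : List (Mv ι) → List (Mv ι) → ℝ) (hy : y0.1 ∈ (sx I Av K x0 y0 D h).K) :
    gsum I Av K x0 y0 D Vf h = 0 := by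
  unfold gsum
  rw [if_pos hy]

theorem pt3_fin_nodup {I : Inst ι L} {K0 : Finset ι} {x0 : ι × Bool} {D : ℕ} {Av : Finset ι}
    {h : SB ι} {s : PS ι} (P : PInv I K0 x0 D Av h s) :
    s.fin.Nodup ∧ (∀ ν ∈ s.fin, ∀ μ ∈ s.fin, ν.e.1 = μ.e.1 → ν = μ) ∧ s.fin.length ≤ 2 ^ D := by
  have h1 : (s.fin.map (fun ν => ν.e.1)).Nodup := by
    have h2 := P.nod
    rw [List.map_append] at h2
    exact (List.nodup_append.1 h2).2.1
  refine ⟨List.Nodup.of_map _ h1, ?_, ?_⟩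
  · intro ν hν μ hμ he
    exact List.inj_on_of_nodup_map h1 hν hμ he
  · have := P.count
    omega

theorem pt3_gamma {I : Inst ι L} {Av K : Finset ι} {x0 y0 : ι × Bool} {D E : ℕ} {eps : ℝ}
    (ok : AttOK I Av K x0 y0 D E eps) {h : SB ι} {Vf : List (Mv ι) → List (Mv ι) → ℝ}
    (h0 : ∀ mx my, 0 ≤ Vf mx my) (h1 : ∀ mx my, Vf mx my ≤ 1)
    (hy : y0.1 ∉ (sx I Av K x0 y0 D h).K) :
    ∃ Γ : Finset ((ι × Bool) × (ι × Bool)),
      (∀ p ∈ Γ, p.1.1 ∉ (sy I Av K x0 y0 D h).K ∧ p.2.1 ∉ (sy I Av K x0 y0 D h).K) ∧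
      (∀ p ∈ Γ, ∀ q ∈ Γ, p.1.1 ≠ q.2.1) ∧
      (∀ p ∈ Γ, ∀ q ∈ Γ, p.1.1 = q.1.1 → p.1 = q.1) ∧
      (∀ p ∈ Γ, ∀ q ∈ Γ, p.2.1 = q.2.1 → p.2 = q.2) ∧
      gsum I Av K x0 y0 D Vf h ≤ (Γ.card : ℝ) ∧ Γ.card ≤ 4 ^ D ∧
      ∀ h' ∈ cyl (sy I Av K x0 y0 D h).K h,
        (∃ p ∈ Γ, Clo I (ap h' p.1) (ap h' p.2)) → Succ I Av K x0 y0 D Vf h' := by
  have PX := pt3_px ok h
  have PY := pt3_py hy
  obtain ⟨xn, xi, xl⟩ := pt3_fin_nodup PX
  obtain ⟨yn, yi, yl⟩ := pt3_fin_nodup PY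
  set A := (sx I Av K x0 y0 D h).fin.toFinset with hA
  set B := (sy I Av K x0 y0 D h).fin.toFinset with hB
  set G := (A ×ˢ B).filter (fun p => p.1.e.1 ∉ (sy I Av K x0 y0 D h).K ∧ 0 < Vf p.1.m p.2.m) with hG
  have hGm : ∀ p, p ∈ G ↔ p.1 ∈ (sx I Av K x0 y0 D h).fin ∧ p.2 ∈ (sy I Av K x0 y0 D h).fin ∧
      p.1.e.1 ∉ (sy I Av K x0 y0 D h).K ∧ 0 < Vf p.1.m p.2.m := by
    intro p
    rw [hG, Finset.mem_filter, Finset.mem_product, hA, hB, List.mem_toFinset, List.mem_toFinset,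
      and_assoc]
  have hΓm : ∀ q ∈ G.image (fun p => (p.1.e, p.2.e)), ∃ p ∈ G, q = (p.1.e, p.2.e) := by
    intro q hq
    obtain ⟨p, hp, rfl⟩ := Finset.mem_image.1 hq
    exact ⟨p, hp, rfl⟩
  have hinj : ∀ p ∈ G, ∀ q ∈ G, (p.1.e, p.2.e) = (q.1.e, q.2.e) → p = q := by
    intro p hp q hq he
    obtain ⟨p1, p2, -, -⟩ := (hGm p).1 hp
    obtain ⟨q1, q2, -, -⟩ := (hGm q).1 hq
    have e1 := congrArg Prod.fst he
    have e2 := congrArg Prod.snd he
    exact Prod.ext (xi _ p1 _ q1 (congrArg Prod.fst e1)) (yi _ p2 _ q2 (congrArg Prod.fst e2))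
  have hcard : (G.image (fun p => (p.1.e, p.2.e))).card = G.card :=
    Finset.card_image_of_injOn (fun p hp q hq he => hinj p hp q hq he)
  refine ⟨G.image (fun p => (p.1.e, p.2.e)), ?_, ?_, ?_, ?_, ?_, ?_, ?_⟩
  · intro q hq
    obtain ⟨p, hp, rfl⟩ := hΓm q hq
    obtain ⟨-, p2, p3, -⟩ := (hGm p).1 hp
    exact ⟨p3, PY.unk _ (List.mem_append_right _ p2)⟩
  · intro q hq q' hq'
    obtain ⟨p, hp, rfl⟩ := hΓm q hq
    obtain ⟨p', hp', rfl⟩ := hΓm q' hq'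
    obtain ⟨p1, -, -, -⟩ := (hGm p).1 hp
    obtain ⟨-, p2, -, -⟩ := (hGm p').1 hp'
    have hlen := PY.lenf _ p2
    have hne : p'.2.m ≠ [] := by
      intro h2
      rw [h2] at hlen
      simp at hlen
    have h3 := ((PY.node _ (List.mem_append_right _ p2)).2.2.2.2.1 hne).2
    intro h4
    apply h3
    refine Finset.mem_union_right _ ?_
    unfold PS.slots
    rw [List.mem_toFinset, List.mem_map]
    exact ⟨p.1, List.mem_append_right _ p1, h4⟩
  · intro q hq q' hq' he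
    obtain ⟨p, hp, rfl⟩ := hΓm q hq
    obtain ⟨p', hp', rfl⟩ := hΓm q' hq'
    obtain ⟨p1, -, -, -⟩ := (hGm p).1 hp
    obtain ⟨q1, -, -, -⟩ := (hGm p').1 hp'
    show p.1.e = p'.1.e
    rw [xi _ p1 _ q1 he]
  · intro q hq q' hq' he
    obtain ⟨p, hp, rfl⟩ := hΓm q hq
    obtain ⟨p', hp', rfl⟩ := hΓm q' hq'
    obtain ⟨-, p2, -, -⟩ := (hGm p).1 hp
    obtain ⟨-, q2, -, -⟩ := (hGm p').1 hp'
    show p.2.e = p'.2.e
    rw [yi _ p2 _ q2 he]
  · rw [hcard]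
    unfold gsum
    rw [if_neg hy, ← List.sum_toFinset _ xn]
    have e1 : ∀ ν ∈ (sx I Av K x0 y0 D h).fin.toFinset,
        (if ν.e.1 ∈ (sy I Av K x0 y0 D h).K then 0
          else ((sy I Av K x0 y0 D h).fin.map (fun μ => Vf ν.m μ.m)).sum) ≤
        ∑ μ ∈ B, if ν.e.1 ∉ (sy I Av K x0 y0 D h).K ∧ 0 < Vf ν.m μ.m then (1 : ℝ) else 0 := by
      intro ν _
      rw [← List.sum_toFinset _ yn]
      split_ifs with hc
      · refine Finset.sum_nonneg fun μ _ => ?_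
        split_ifs <;> norm_num
      · refine Finset.sum_le_sum fun μ _ => ?_
        by_cases hv : 0 < Vf ν.m μ.m
        · rw [if_pos ⟨hc, hv⟩]
          exact h1 _ _
        · rw [if_neg (fun h2 => hv h2.2)]
          exact not_lt.1 hv
    refine (Finset.sum_le_sum e1).trans (le_of_eq ?_)
    rw [hG, Finset.card_filter, Nat.cast_sum, Finset.sum_product]
    refine Finset.sum_congr rfl fun ν _ => Finset.sum_congr rfl fun μ _ => ?_
    rw [Nat.cast_ite, Nat.cast_one, Nat.cast_zero]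
  · rw [hcard]
    have e1 : G.card ≤ A.card * B.card := by
      rw [← Finset.card_product]
      exact Finset.card_filter_le _ _
    have e2 : A.card ≤ 2 ^ D := (List.toFinset_card_le _).trans xl
    have e3 : B.card ≤ 2 ^ D := (List.toFinset_card_le _).trans yl
    calc G.card ≤ A.card * B.card := e1
      _ ≤ 2 ^ D * 2 ^ D := Nat.mul_le_mul e2 e3
      _ = 4 ^ D := by rw [← mul_pow]; norm_num
  · rintro h' hh' ⟨q, hq, hc⟩
    obtain ⟨p, hp, rfl⟩ := hΓm q hq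
    obtain ⟨p1, p2, p3, p4⟩ := (hGm p).1 hp
    obtain ⟨e1, e2⟩ := pt3_sy_congr ok hy hh'
    unfold Succ
    rw [e1, e2]
    exact ⟨hy, p.1, p1, p.2, p2, p3, p4, hc⟩

theorem pt3_local {I : Inst ι L} {Av K : Finset ι} {x0 y0 : ι × Bool} {D E : ℕ} {eps : ℝ}
    (ok : AttOK I Av K x0 y0 D E eps) {h : SB ι} {Vf : List (Mv ι) → List (Mv ι) → ℝ}
    (hn : 10 * (K.card + 12 * 2 ^ D + L + 10) ≤ Fintype.card ι)
    (h0 : ∀ mx my, 0 ≤ Vf mx my) (h1 : ∀ mx my, Vf mx my ≤ 1)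
    (hy : y0.1 ∉ (sx I Av K x0 y0 D h).K) :
    ∃ g : ℕ, gsum I Av K x0 y0 D Vf h ≤ (g : ℝ) ∧ g ≤ 4 ^ D ∧
      ((g : ℝ) / (4 * Fintype.card ι)) /
        (1 + (1 + 16 / (Fintype.card ι : ℝ)) * ((g : ℝ) / (4 * Fintype.card ι))) ≤
      avg (pt3R I Av K x0 y0 D h) h
        (fun h' => if Succ I Av K x0 y0 D Vf h' then 1 else 0) := by
  obtain ⟨Γ, a1, a2, a3, a4, a5, a6, a7⟩ := pt3_gamma ok h0 h1 hy
  refine ⟨Γ.card, a5, a6, ?_⟩
  have hR : pt3R I Av K x0 y0 D h = (sy I Av K x0 y0 D h).K := by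
    unfold pt3R
    rw [if_neg hy]
  rw [hR]
  have hc := pt3_card I Av K x0 y0 D h
  refine (closing I (sy I Av K x0 y0 D h).K h Γ a1 a2 a3 a4 (by omega)).trans ?_
  refine avg_mono fun h' hh' => ?_
  by_cases hs : ∃ p ∈ Γ, Clo I (ap h' p.1) (ap h' p.2)
  · rw [if_pos hs, if_pos (a7 h' hh' hs)]
  · rw [if_neg hs]
    split_ifs <;> norm_num

theorem pt3_gsum_nonneg {I : Inst ι L} {Av K : Finset ι} {x0 y0 : ι × Bool} {D : ℕ} {h : SB ι}
    {Vf : List (Mv ι) → List (Mv ι) → ℝ} (h0 : ∀ mx my, 0 ≤ Vf mx my) :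
    0 ≤ gsum I Av K x0 y0 D Vf h := by
  unfold gsum
  split_ifs
  · exact le_refl _
  · refine List.sum_nonneg fun x hx => ?_
    obtain ⟨ν, -, rfl⟩ := List.mem_map.1 hx
    split_ifs
    · exact le_refl _
    · refine List.sum_nonneg fun y hy => ?_
      obtain ⟨μ, -, rfl⟩ := List.mem_map.1 hy
      exact h0 _ _

theorem att_prob1 {I : Inst ι L} {Av K : Finset ι} {x0 y0 : ι × Bool} {D E : ℕ} {eps : ℝ}
    (ok : AttOK I Av K x0 y0 D E eps) (h : SB ι) {Vf : List (Mv ι) → List (Mv ι) → ℝ}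
    (hn : 10 * (K.card + 12 * 2 ^ D + L + 10) ≤ Fintype.card ι)
    (h0 : ∀ mx my, 0 ≤ Vf mx my) (h1 : ∀ mx my, Vf mx my ≤ 1) (hD : 4 ^ D ≤ Fintype.card ι) :
    avg K h (gsum I Av K x0 y0 D Vf) / (8 * Fintype.card ι) ≤
      avg K h (fun h' => if Succ I Av K x0 y0 D Vf h' then 1 else 0) := by
  have hn0 : (100 : ℝ) ≤ Fintype.card ι := by
    have : 100 ≤ Fintype.card ι := by omega
    exact_mod_cast this
  have hnpos : (0 : ℝ) < Fintype.card ι := by linarith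
  rw [avg_tower (pt3_stop ok h) (fun h' => if Succ I Av K x0 y0 D Vf h' then 1 else 0)]
  have e1 : avg K h (gsum I Av K x0 y0 D Vf) / (8 * Fintype.card ι) =
      avg K h (fun h' => (8 * (Fintype.card ι : ℝ))⁻¹ * gsum I Av K x0 y0 D Vf h') := by
    rw [avg_smul, div_eq_inv_mul]
  rw [e1]
  refine avg_mono fun h' _ => ?_
  by_cases hy : y0.1 ∈ (sx I Av K x0 y0 D h').K
  · rw [pt3_gsum_zero Vf hy, mul_zero]
    refine avg_nonneg fun h'' _ => ?_
    split_ifs <;> norm_num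
  · obtain ⟨g, g1, g2, g3⟩ := pt3_local ok hn h0 h1 hy
    refine le_trans ?_ g3
    have hg : (g : ℝ) ≤ Fintype.card ι := by
      have : g ≤ Fintype.card ι := g2.trans hD
      exact_mod_cast this
    have hg0 : (0 : ℝ) ≤ g := Nat.cast_nonneg _
    set n : ℝ := ((Fintype.card ι : ℕ) : ℝ) with hnn
    have ht : (g : ℝ) / (4 * n) ≤ 1 / 4 := by
      rw [div_le_div_iff₀ (by positivity) (by norm_num)]
      linarith
    have ht0 : 0 ≤ (g : ℝ) / (4 * n) := by positivity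
    have h16 : 16 / n ≤ 1 := by
      rw [div_le_one hnpos]
      linarith
    have h16' : 0 ≤ 16 / n := by positivity
    have hden : 1 + (1 + 16 / n) * ((g : ℝ) / (4 * n)) ≤ 2 := by nlinarith
    have hden0 : 0 < 1 + (1 + 16 / n) * ((g : ℝ) / (4 * n)) := by positivity
    calc (8 * n)⁻¹ * gsum I Av K x0 y0 D Vf h' ≤ (8 * n)⁻¹ * g :=
          mul_le_mul_of_nonneg_left g1 (by positivity)
      _ = ((g : ℝ) / (4 * n)) / 2 := by
          field_simp
          ring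
      _ ≤ ((g : ℝ) / (4 * n)) / (1 + (1 + 16 / n) * ((g : ℝ) / (4 * n))) :=
          div_le_div_of_nonneg_left ht0 hden0 hden

theorem att_prob2 {I : Inst ι L} {Av K : Finset ι} {x0 y0 : ι × Bool} {D E : ℕ} {eps : ℝ}
    (ok : AttOK I Av K x0 y0 D E eps) (h : SB ι) {Vf : List (Mv ι) → List (Mv ι) → ℝ}
    (hn : 10 * (K.card + 12 * 2 ^ D + L + 10) ≤ Fintype.card ι)
    (h0 : ∀ mx my, 0 ≤ Vf mx my) (h1 : ∀ mx my, Vf mx my ≤ 1) {η : ℝ}
    (hη : (1 - η) * 4 ^ D ≤ avg K h (gsum I Av K x0 y0 D Vf)) :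
    avg K h (fun h' => if Succ I Av K x0 y0 D Vf h' then 0 else 1) ≤
      2 * η + 8 * Fintype.card ι / 4 ^ D + 16 / Fintype.card ι := by
  have hn0 : (100 : ℝ) ≤ Fintype.card ι := by
    have : 100 ≤ Fintype.card ι := by omega
    exact_mod_cast this
  have hnpos : (0 : ℝ) < Fintype.card ι := by linarith
  have h4 : (0 : ℝ) < 4 ^ D := by positivity
  rw [avg_tower (pt3_stop ok h) (fun h' => if Succ I Av K x0 y0 D Vf h' then 0 else 1)]
  set n : ℝ := ((Fintype.card ι : ℕ) : ℝ) with hnn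
  have key : ∀ h' ∈ cyl K h,
      avg (pt3R I Av K x0 y0 D h') h' (fun h'' => if Succ I Av K x0 y0 D Vf h'' then 0 else 1) ≤
        (2 + 8 * n / 4 ^ D + 16 / n) + (-(2 / 4 ^ D)) * gsum I Av K x0 y0 D Vf h' := by
    intro h' _
    have hb : 0 ≤ 8 * n / 4 ^ D + 16 / n := by positivity
    have hle1 : avg (pt3R I Av K x0 y0 D h') h'
        (fun h'' => if Succ I Av K x0 y0 D Vf h'' then 0 else 1) ≤ 1 := by
      have := avg_mono (K := pt3R I Av K x0 y0 D h') (h := h')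
        (f := fun h'' => if Succ I Av K x0 y0 D Vf h'' then (0 : ℝ) else 1) (g := fun _ => 1)
        (fun h'' _ => by split_ifs <;> norm_num)
      rwa [avg_const] at this
    by_cases hg : gsum I Av K x0 y0 D Vf h' < 4 ^ D / 2
    · refine hle1.trans ?_
      have h5 : 2 / 4 ^ D * gsum I Av K x0 y0 D Vf h' ≤ 2 / 4 ^ D * (4 ^ D / 2) :=
        mul_le_mul_of_nonneg_left hg.le (by positivity)
      have h6 : (2 : ℝ) / 4 ^ D * (4 ^ D / 2) = 1 := by field_simp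
      rw [h6] at h5
      linarith
    · have hg' := not_lt.1 hg
      have hy : y0.1 ∉ (sx I Av K x0 y0 D h').K := by
        intro hy
        rw [pt3_gsum_zero Vf hy] at hg'
        linarith
      obtain ⟨g, g1, g2, g3⟩ := pt3_local ok hn h0 h1 hy
      have hgle : (g : ℝ) ≤ 4 ^ D := by exact_mod_cast g2
      have hgs : gsum I Av K x0 y0 D Vf h' ≤ 4 ^ D := g1.trans hgle
      have hgp : (4 : ℝ) ^ D / 2 ≤ g := hg'.trans g1
      have hg0 : (0 : ℝ) < g := lt_of_lt_of_le (by positivity) hgp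
      set t : ℝ := (g : ℝ) / (4 * n) with ht
      have ht0 : 0 < t := by positivity
      have htl : 4 ^ D / (8 * n) ≤ t := by
        rw [ht, div_le_div_iff₀ (by positivity) (by positivity)]
        nlinarith
      have hsum : avg (pt3R I Av K x0 y0 D h') h'
          (fun h'' => if Succ I Av K x0 y0 D Vf h'' then 0 else 1) =
          1 - avg (pt3R I Av K x0 y0 D h') h'
          (fun h'' => if Succ I Av K x0 y0 D Vf h'' then 1 else 0) := by
        have e2 := avg_add (pt3R I Av K x0 y0 D h') h'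
          (fun h'' => if Succ I Av K x0 y0 D Vf h'' then (0 : ℝ) else 1)
          (fun h'' => if Succ I Av K x0 y0 D Vf h'' then (1 : ℝ) else 0)
        have e3 : avg (pt3R I Av K x0 y0 D h') h'
            (fun h'' => (if Succ I Av K x0 y0 D Vf h'' then (0 : ℝ) else 1) +
              (if Succ I Av K x0 y0 D Vf h'' then (1 : ℝ) else 0)) = 1 := by
          refine (avg_congr (g := fun _ => (1 : ℝ)) fun h'' _ => ?_).trans (avg_const _ _ 1)
          split_ifs <;> norm_num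
        linarith
      have hden0 : 0 < 1 + (1 + 16 / n) * t := by positivity
      have hfr : 1 - t / (1 + (1 + 16 / n) * t) ≤ 1 / t + 16 / n := by
        have e4 : 1 - t / (1 + (1 + 16 / n) * t) = (1 + 16 / n * t) / (1 + (1 + 16 / n) * t) := by
          field_simp
          ring
        rw [e4, div_le_iff₀ hden0]
        have e5 : (1 / t + 16 / n) * (1 + (1 + 16 / n) * t) =
            1 / t + (1 + 16 / n) + 16 / n + 16 / n * (1 + 16 / n) * t := by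
          field_simp
          ring
        rw [e5]
        have e6 : 0 < 1 / t := by positivity
        have e7 : 0 < 16 / n := by positivity
        have e8 : 0 < 16 / n * t := by positivity
        have e9 : 0 < 16 / n * (16 / n) * t := by positivity
        nlinarith
      have h1t : 1 / t ≤ 8 * n / 4 ^ D := by
        rw [div_le_div_iff₀ ht0 h4]
        rw [div_le_iff₀ (by positivity)] at htl
        nlinarith
      have h7 : 2 / 4 ^ D * gsum I Av K x0 y0 D Vf h' ≤ 2 / 4 ^ D * 4 ^ D :=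
        mul_le_mul_of_nonneg_left hgs (by positivity)
      have h8 : (2 : ℝ) / 4 ^ D * 4 ^ D = 2 := by field_simp
      rw [h8] at h7
      rw [hsum]
      linarith
  refine (avg_mono key).trans ?_
  rw [avg_add, avg_const, avg_smul]
  have h9 : 2 / 4 ^ D * ((1 - η) * 4 ^ D) ≤ 2 / 4 ^ D * avg K h (gsum I Av K x0 y0 D Vf) :=
    mul_le_mul_of_nonneg_left hη (by positivity)
  have h10 : 2 / 4 ^ D * ((1 - η) * 4 ^ D) = 2 * (1 - η) := by field_simp
  rw [h10] at h9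
  have h11 : avg K h (fun h' => gsum I Av K x0 y0 D Vf h') = avg K h (gsum I Av K x0 y0 D Vf) := rfl
  rw [h11]
  linarith

end Pool.Agent.H38H
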