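import Pool.Agent.Lib.H38H.PT2

/-!
Chunk SLPT5 (M). Reserved slots are rarely touched.

`Z ⊆ Av` is a set of unknown slots not containing the roots. Proof. One query of the process: if `s.act = none` the new slot is the slot of a pending node, which is the root
slot or outside `Av` (`PInv.node`), so not in `Z`; if `s.act = some ν` the located slot `w.1` is uniform among the unknown ones (`avg_link`), so the average of
`t ^ |K' ∩ Z|` is at most `t ^ |s.K ∩ Z| * (1 + (t-1) * 2|Z|/(2u)) ≤ t ^ |s.K ∩ Z| * (1 + 2 t |Z| / n)` (`u ≥ n/2`). Induction over the `8 * 2^D` queries with `avg_tower`, `stop_prun`. The slots of the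
leaves (added in `attR`) are outside `Av`.
-/

set_option autoImplicit false

namespace Pool.Agent.H38H

open Classical

variable {ι : Type} [Fintype ι] {L : ℕ}

theorem slpt5_S (K : Finset ι) :
    ((Finset.univ.filter (fun w : ι × Bool => w.1 ∉ K)).card : ℝ) =
      2 * ((Fintype.card ι : ℝ) - K.card) := by
  have h1 : Finset.univ.filter (fun w : ι × Bool => w.1 ∉ K) =
      (Finset.univ \ K) ×ˢ (Finset.univ : Finset Bool) := by
    ext w
    simp
  rw [h1, Finset.card_product, Finset.card_univ_diff, Finset.card_univ, Fintype.card_bool]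
  rw [Nat.cast_mul, Nat.cast_sub (Finset.card_le_univ K)]
  push_cast
  ring

theorem slpt5_pt (K Z : Finset ι) {t : ℝ} (ht : 1 ≤ t) (p : ι) :
    t ^ (insert p K ∩ Z).card ≤ t ^ (K ∩ Z).card * (1 + (t - 1) * (if p ∈ Z then 1 else 0)) := by
  have h0 : (0 : ℝ) ≤ t := by linarith
  by_cases hp : p ∈ Z
  · rw [if_pos hp, Finset.insert_inter_of_mem hp]
    have h1 : (insert p (K ∩ Z)).card ≤ (K ∩ Z).card + 1 := Finset.card_insert_le _ _
    calc t ^ (insert p (K ∩ Z)).card ≤ t ^ ((K ∩ Z).card + 1) := pow_le_pow_right₀ ht h1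
      _ = t ^ (K ∩ Z).card * (1 + (t - 1) * 1) := by rw [pow_succ]; ring
  · rw [if_neg hp, Finset.insert_inter_of_notMem hp, mul_zero, add_zero, mul_one]

theorem slpt5_link {K Z : Finset ι} {h : SB ι} (y : ι × Bool) {t : ℝ} (ht : 1 ≤ t)
    (hn : 0 < Fintype.card ι) (hK : 2 * K.card ≤ Fintype.card ι) :
    avg K h (fun h' => t ^ (insert (pa h' y).1 K ∩ Z).card) ≤
      (1 + 2 * t * Z.card / Fintype.card ι) * t ^ (K ∩ Z).card := by
  have h0 : (0 : ℝ) ≤ t := by linarith
  have hn' : (0 : ℝ) < Fintype.card ι := by exact_mod_cast hn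
  have hc : (0 : ℝ) ≤ 2 * t * Z.card / Fintype.card ι := by positivity
  by_cases hy : y.1 ∈ lk K h
  · have h1 : ∀ h' ∈ cyl K h, t ^ (insert (pa h' y).1 K ∩ Z).card = t ^ (K ∩ Z).card := by
      intro h' hh
      have h2 : (pa h' y).1 ∈ K := by
        rw [pa_fst, ← mem_lk, lk_congr hh]
        exact hy
      rw [Finset.insert_eq_of_mem h2]
    rw [avg_congr h1, avg_const]
    have h3 : 0 ≤ t ^ (K ∩ Z).card := pow_nonneg h0 _
    nlinarith
  · have h1 : avg K h (fun h' => t ^ (insert (pa h' y).1 K ∩ Z).card) =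
        (∑ w ∈ Finset.univ.filter (fun w : ι × Bool => w.1 ∉ K), t ^ (insert w.1 K ∩ Z).card) /
          (2 * ((Fintype.card ι : ℝ) - K.card)) :=
      avg_link hy y.2 (fun w => t ^ (insert w.1 K ∩ Z).card)
    rw [h1]
    have hK' : 2 * (K.card : ℝ) ≤ Fintype.card ι := by exact_mod_cast hK
    have hu : 0 < 2 * ((Fintype.card ι : ℝ) - K.card) := by linarith
    rw [div_le_iff₀ hu]
    have h2 : ∑ w ∈ Finset.univ.filter (fun w : ι × Bool => w.1 ∉ K), t ^ (insert w.1 K ∩ Z).card ≤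
        ∑ w ∈ Finset.univ.filter (fun w : ι × Bool => w.1 ∉ K),
          t ^ (K ∩ Z).card * (1 + (t - 1) * (if w.1 ∈ Z then 1 else 0)) :=
      Finset.sum_le_sum fun w _ => slpt5_pt K Z ht w.1
    have h3 : ∑ w ∈ Finset.univ.filter (fun w : ι × Bool => w.1 ∉ K),
        ((if w.1 ∈ Z then 1 else 0 : ℝ)) ≤ 2 * Z.card := by
      calc ∑ w ∈ Finset.univ.filter (fun w : ι × Bool => w.1 ∉ K),
          ((if w.1 ∈ Z then 1 else 0 : ℝ)) ≤ ∑ w : ι × Bool, ((if w.1 ∈ Z then 1 else 0 : ℝ)) :=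
            Finset.sum_le_univ_sum_of_nonneg fun w => by split_ifs <;> norm_num
        _ = 2 * Z.card := by
          rw [Fintype.sum_prod_type]
          have hh : ∀ x : ι, ∑ _b : Bool, (if x ∈ Z then (1 : ℝ) else 0) =
              2 * (if x ∈ Z then (1 : ℝ) else 0) := fun x => by
            rw [Finset.sum_const, Finset.card_univ, Fintype.card_bool]; simp
          rw [Finset.sum_congr rfl (fun x _ => hh x), ← Finset.mul_sum]
          simp
    have h4 : ∑ w ∈ Finset.univ.filter (fun w : ι × Bool => w.1 ∉ K),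
          t ^ (K ∩ Z).card * (1 + (t - 1) * (if w.1 ∈ Z then 1 else 0)) =
        t ^ (K ∩ Z).card * (2 * ((Fintype.card ι : ℝ) - K.card) + (t - 1) *
          ∑ w ∈ Finset.univ.filter (fun w : ι × Bool => w.1 ∉ K), ((if w.1 ∈ Z then 1 else 0 : ℝ))) := by
      rw [← Finset.mul_sum, Finset.sum_add_distrib, ← Finset.mul_sum, ← slpt5_S K]
      simp
    have h5 : 0 ≤ t ^ (K ∩ Z).card := pow_nonneg h0 _
    have h6 : (t - 1) * ∑ w ∈ Finset.univ.filter (fun w : ι × Bool => w.1 ∉ K),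
        ((if w.1 ∈ Z then 1 else 0 : ℝ)) ≤ t * (2 * Z.card) := by
      have h7 : (0 : ℝ) ≤ 2 * Z.card := by positivity
      calc _ ≤ (t - 1) * (2 * Z.card) := mul_le_mul_of_nonneg_left h3 (by linarith)
        _ ≤ t * (2 * Z.card) := mul_le_mul_of_nonneg_right (by linarith) h7
    have h8 : t * (2 * Z.card) ≤
        2 * t * Z.card / Fintype.card ι * (2 * ((Fintype.card ι : ℝ) - K.card)) := by
      have h9 : 2 * t * Z.card / Fintype.card ι * (Fintype.card ι : ℝ) = 2 * t * Z.card :=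
        div_mul_cancel₀ _ hn'.ne'
      have h10 : 2 * t * Z.card / Fintype.card ι * (Fintype.card ι : ℝ) ≤
          2 * t * Z.card / Fintype.card ι * (2 * ((Fintype.card ι : ℝ) - K.card)) :=
        mul_le_mul_of_nonneg_left (by linarith) hc
      linarith
    calc _ ≤ _ := h2
      _ = _ := h4
      _ ≤ t ^ (K ∩ Z).card * (2 * ((Fintype.card ι : ℝ) - K.card) +
          2 * t * Z.card / Fintype.card ι * (2 * ((Fintype.card ι : ℝ) - K.card))) :=
        mul_le_mul_of_nonneg_left (by linarith) h5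
      _ = _ := by ring

theorem slpt5_Kc {I : Inst ι L} {Av : Finset ι} {h : SB ι} {s : PS ι} {ν : Nd ι} {y : ι × Bool}
    (h1 : s.act = some ν) (h2 : I.Mc (ap h ν.e) = some y) :
    (pstep I Av h s).K = insert (pa h y).1 s.K := by
  by_cases h3 : ν.r = 0
  · rw [slp2_c0 h1 h2 h3, (addc_K I Av _ ν _).1]
    rfl
  · rw [slp2_c1 h1 h2 h3]
    change (addc I Av (locate s (pa h y)) ν (pa h y)).K = _
    rw [(addc_K I Av _ ν _).1]
    rfl

theorem slpt5_Kd {I : Inst ι L} {Av : Finset ι} {h : SB ι} {s : PS ι} {ν : Nd ι} {l : ι}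
    (h1 : s.act = some ν) (h2 : I.Mc (ap h ν.e) = none) (h3 : I.Md (ap h ν.e).1 = some l) :
    (pstep I Av h s).K = insert (pa h (l, false)).1 s.K := by
  by_cases h4 : ν.r = 0
  · rw [slp2_d0 h1 h2 h3 h4, (addc_K I Av _ ν _).1]
    rfl
  · rw [slp2_d1 h1 h2 h3 h4, (addc_K I Av _ ν _).1, (addc_K I Av _ ν _).1]
    rfl

/-- the slots of the nodes are not in `Z` -/
theorem slpt5_node {I : Inst ι L} {K0 : Finset ι} {x0 : ι × Bool} {D : ℕ} {Av Z : Finset ι}
    {h : SB ι} {s : PS ι} (P : PInv I K0 x0 D Av h s) (hZ : Z ⊆ Av) (hx : x0.1 ∉ Z) {ν : Nd ι}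
    (hν : ν ∈ s.pend ++ s.fin) : ν.e.1 ∉ Z := by
  obtain ⟨-, h1, -, -, h2, -⟩ := P.node ν hν
  by_cases h3 : ν.m = []
  · rw [h1, h3]
    exact hx
  · exact fun h4 => (h2 h3).2 (hZ h4)

theorem slpt5_slots {I : Inst ι L} {K0 : Finset ι} {x0 : ι × Bool} {D : ℕ} {Av Z : Finset ι}
    {h : SB ι} {s : PS ι} (P : PInv I K0 x0 D Av h s) (hZ : Z ⊆ Av) (hx : x0.1 ∉ Z) :
    s.slots ∩ Z = ∅ := by
  rw [Finset.eq_empty_iff_forall_notMem]
  intro p hp
  obtain ⟨h1, h2⟩ := Finset.mem_inter.1 hp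
  unfold PS.slots at h1
  rw [List.mem_toFinset] at h1
  obtain ⟨ν, hν, rfl⟩ := List.mem_map.1 h1
  exact slpt5_node P hZ hx hν h2

/-- one query -/
theorem slpt5_one {I : Inst ι L} {K0 : Finset ι} {x0 : ι × Bool} {D : ℕ} {Av Z : Finset ι}
    {h : SB ι} {s : PS ι} (P : PInv I K0 x0 D Av h s) (hZ : Z ⊆ Av) (hx : x0.1 ∉ Z) {t : ℝ}
    (ht : 1 ≤ t) (hn : 0 < Fintype.card ι) (hK : 2 * s.K.card ≤ Fintype.card ι) :
    avg s.K h (fun h' => t ^ ((pstep I Av h' s).K ∩ Z).card) ≤
      (1 + 2 * t * Z.card / Fintype.card ι) * t ^ (s.K ∩ Z).card := by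
  have h0 : (0 : ℝ) ≤ t := by linarith
  have hc : (0 : ℝ) ≤ 2 * t * Z.card / Fintype.card ι := by positivity
  have h3 : 0 ≤ t ^ (s.K ∩ Z).card := pow_nonneg h0 _
  have hle : t ^ (s.K ∩ Z).card ≤ (1 + 2 * t * Z.card / Fintype.card ι) * t ^ (s.K ∩ Z).card := by
    nlinarith
  cases ha : s.act with
  | none =>
    cases hp : s.pend with
    | nil =>
      have h1 : ∀ h' ∈ cyl s.K h, t ^ ((pstep I Av h' s).K ∩ Z).card = t ^ (s.K ∩ Z).card := by
        intro h' _
        rw [slp2_e ha hp]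
      rw [avg_congr h1, avg_const]
      exact hle
    | cons ν rest =>
      have h1 : ∀ h' ∈ cyl s.K h, t ^ ((pstep I Av h' s).K ∩ Z).card = t ^ (s.K ∩ Z).card := by
        intro h' _
        rw [slp2_p ha hp]
        change t ^ (insert ν.e.1 s.K ∩ Z).card = _
        have h4 : ν.e.1 ∉ Z := slpt5_node P hZ hx
          (List.mem_append_left _ (by rw [hp]; exact List.mem_cons_self))
        rw [Finset.insert_inter_of_notMem h4]
      rw [avg_congr h1, avg_const]
      exact hle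
  | some ν =>
    have he := (P.actv ν ha).1
    cases hy : I.Mc (ap h ν.e) with
    | some y =>
      have h1 : ∀ h' ∈ cyl s.K h, t ^ ((pstep I Av h' s).K ∩ Z).card =
          t ^ (insert (pa h' y).1 s.K ∩ Z).card := by
        intro h' hh
        rw [slpt5_Kc ha (by rw [ap_congr hh he]; exact hy)]
      rw [avg_congr h1]
      exact slpt5_link y ht hn hK
    | none =>
      cases hd : I.Md (ap h ν.e).1 with
      | some l =>
        have h1 : ∀ h' ∈ cyl s.K h, t ^ ((pstep I Av h' s).K ∩ Z).card =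
            t ^ (insert (pa h' (l, false)).1 s.K ∩ Z).card := by
          intro h' hh
          rw [slpt5_Kd ha (by rw [ap_congr hh he]; exact hy) (by rw [ap_congr hh he]; exact hd)]
        rw [avg_congr h1]
        exact slpt5_link (l, false) ht hn hK
      | none =>
        have h1 : ∀ h' ∈ cyl s.K h, t ^ ((pstep I Av h' s).K ∩ Z).card = t ^ (s.K ∩ Z).card := by
          intro h' hh
          rw [slp2_n ha (by rw [ap_congr hh he]; exact hy) (by rw [ap_congr hh he]; exact hd)]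
        rw [avg_congr h1, avg_const]
        exact hle

theorem slpt5_run {I : Inst ι L} {Av Z : Finset ι} (hZ : Z ⊆ Av) {x0 : ι × Bool} (hx : x0.1 ∉ Z)
    {t : ℝ} (ht : 1 ≤ t) (hn : 0 < Fintype.card ι) (k : ℕ) :
    ∀ {K0 : Finset ι} {D : ℕ} {h : SB ι} {s : PS ι}, PInv I K0 x0 D Av h s →
    2 * (s.K.card + k) ≤ Fintype.card ι →
    avg s.K h (fun h' => t ^ ((prun I Av h' k s).K ∩ Z).card) ≤
      (1 + 2 * t * Z.card / Fintype.card ι) ^ k * t ^ (s.K ∩ Z).card := by
  have h0 : (0 : ℝ) ≤ t := by linarith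
  have hc : (0 : ℝ) ≤ 2 * t * Z.card / Fintype.card ι := by positivity
  induction k with
  | zero =>
    intro K0 D h s P hK
    have h1 : ∀ h' ∈ cyl s.K h, t ^ ((prun I Av h' 0 s).K ∩ Z).card = t ^ (s.K ∩ Z).card :=
      fun h' _ => rfl
    rw [avg_congr h1, avg_const, pow_zero, one_mul]
  | succ k ih =>
    intro K0 D h s P hK
    have hstop : Stop s.K h (fun h' => (pstep I Av h' s).K) := stop_prun P 1
    rw [avg_tower hstop]
    have h1 : ∀ h' ∈ cyl s.K h, avg (pstep I Av h' s).K h'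
        (fun h'' => t ^ ((prun I Av h'' (k + 1) s).K ∩ Z).card) ≤
        (1 + 2 * t * Z.card / Fintype.card ι) ^ k * t ^ ((pstep I Av h' s).K ∩ Z).card := by
      intro h' hh
      have P' := P.congr hh
      have e1 : ∀ h'' ∈ cyl (pstep I Av h' s).K h', t ^ ((prun I Av h'' (k + 1) s).K ∩ Z).card =
          t ^ ((prun I Av h'' k (pstep I Av h' s)).K ∩ Z).card := by
        intro h'' h2
        have e2 : prun I Av h'' (k + 1) s = prun I Av h'' k (pstep I Av h'' s) := rfl
        rw [e2, pstep_congr P' h2]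
      rw [avg_congr e1]
      have h5 := pstep_K_card I Av h' s
      exact ih (pinv_step P') (by omega)
    refine (avg_mono h1).trans ?_
    rw [avg_smul]
    have h6 := slpt5_one P hZ hx ht hn (by omega)
    calc (1 + 2 * t * Z.card / Fintype.card ι) ^ k *
        avg s.K h (fun h' => t ^ ((pstep I Av h' s).K ∩ Z).card) ≤
        (1 + 2 * t * Z.card / Fintype.card ι) ^ k *
          ((1 + 2 * t * Z.card / Fintype.card ι) * t ^ (s.K ∩ Z).card) :=
          mul_le_mul_of_nonneg_left h6 (pow_nonneg (by linarith) _)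
      _ = _ := by rw [pow_succ]; ring

theorem att_touch {I : Inst ι L} {Av K : Finset ι} {x0 y0 : ι × Bool} {D E : ℕ} {eps : ℝ}
    (ok : AttOK I Av K x0 y0 D E eps) (h : SB ι) {Z : Finset ι} (hZ : Z ⊆ Av) (hK : Disjoint Z K)
    (hx : x0.1 ∉ Z) (hy : y0.1 ∉ Z) {t : ℝ} (ht : 1 ≤ t) :
    avg K h (fun h' => t ^ (attR I Av K x0 y0 D h' ∩ Z).card) ≤
      (1 + 2 * t * Z.card / Fintype.card ι) ^ (8 * 2 ^ D) := by
  have h0 : (0 : ℝ) ≤ t := by linarith
  have hc : (0 : ℝ) ≤ 2 * t * Z.card / Fintype.card ι := by positivity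
  have hokn := ok.hn
  have hn : 0 < Fintype.card ι := by omega
  set c : ℝ := 1 + 2 * t * Z.card / Fintype.card ι with hcdef
  have hc1 : 1 ≤ c := by linarith
  have hZ1 : Z ⊆ insert y0.1 Av := hZ.trans (Finset.subset_insert _ _)
  have hstop : Stop K h (fun h' => (sx I Av K x0 y0 D h').K) :=
    stop_prun (pinv_init I ok.hx D (insert y0.1 Av) h) _
  have hX : avg K h (fun h' => t ^ ((sx I Av K x0 y0 D h').K ∩ Z).card) ≤
      c ^ (4 * 2 ^ D) * t ^ (K ∩ Z).card :=
    slpt5_run hZ1 hx ht hn (4 * 2 ^ D) (pinv_init I ok.hx D (insert y0.1 Av) h)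
      (by change 2 * (K.card + 4 * 2 ^ D) ≤ _; omega)
  rw [avg_tower hstop]
  have h1 : ∀ h' ∈ cyl K h, avg (sx I Av K x0 y0 D h').K h'
      (fun h'' => t ^ (attR I Av K x0 y0 D h'' ∩ Z).card) ≤
      c ^ (4 * 2 ^ D) * t ^ ((sx I Av K x0 y0 D h').K ∩ Z).card := by
    intro h' _
    by_cases hyK : y0.1 ∈ (sx I Av K x0 y0 D h').K
    · have e1 : ∀ h'' ∈ cyl (sx I Av K x0 y0 D h').K h',
          t ^ (attR I Av K x0 y0 D h'' ∩ Z).card = t ^ ((sx I Av K x0 y0 D h').K ∩ Z).card := by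
        intro h'' h2
        have e2 := slpt2_sx ok.hx h2
        rw [slpt2_R1 (by rw [e2]; exact hyK), e2]
      rw [avg_congr e1, avg_const]
      have h3 : 1 ≤ c ^ (4 * 2 ^ D) := one_le_pow₀ hc1
      have h4 : 0 ≤ t ^ ((sx I Av K x0 y0 D h').K ∩ Z).card := pow_nonneg h0 _
      nlinarith
    · have e1 : ∀ h'' ∈ cyl (sx I Av K x0 y0 D h').K h',
          t ^ (attR I Av K x0 y0 D h'' ∩ Z).card =
            t ^ ((prun I (Av ∪ (sx I Av K x0 y0 D h').slots) h'' (4 * 2 ^ D)
              (pinit (sx I Av K x0 y0 D h').K y0 D)).K ∩ Z).card := by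
        intro h'' h2
        have e2 := slpt2_sx ok.hx h2
        have hy2 : y0.1 ∉ (sx I Av K x0 y0 D h'').K := by
          rw [e2]
          exact hyK
        have PX : PInv I K x0 D (insert y0.1 Av) h'' (sx I Av K x0 y0 D h'') :=
          pinv_prun (pinv_init I ok.hx D (insert y0.1 Av) h'') _
        have PY : PInv I (sx I Av K x0 y0 D h'').K y0 D (Av ∪ (sx I Av K x0 y0 D h'').slots) h''
            (sy I Av K x0 y0 D h'') :=
          pinv_prun (pinv_init I hy2 D (Av ∪ (sx I Av K x0 y0 D h'').slots) h'') _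
        have s1 := slpt5_slots PX hZ1 hx
        have s2 := slpt5_slots PY (hZ.trans Finset.subset_union_left) hy
        have e3 : attR I Av K x0 y0 D h'' ∩ Z = (sy I Av K x0 y0 D h'').K ∩ Z := by
          rw [slpt2_R2 hy2, Finset.union_inter_distrib_right, Finset.union_inter_distrib_right,
            s1, s2, Finset.union_empty, Finset.union_empty]
        rw [e3]
        unfold sy
        rw [e2]
      rw [avg_congr e1]
      have hXc : (sx I Av K x0 y0 D h').K.card ≤ K.card + 4 * 2 ^ D :=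
        prun_K_card I (insert y0.1 Av) h' _ (pinit K x0 D)
      exact slpt5_run (hZ.trans Finset.subset_union_left) hy ht hn (4 * 2 ^ D)
        (pinv_init I hyK D (Av ∪ (sx I Av K x0 y0 D h').slots) h')
        (by change 2 * ((sx I Av K x0 y0 D h').K.card + 4 * 2 ^ D) ≤ _; omega)
  refine (avg_mono h1).trans ?_
  rw [avg_smul]
  have hKZ : (K ∩ Z).card = 0 := by
    rw [Finset.card_eq_zero, ← Finset.disjoint_iff_inter_eq_empty]
    exact hK.symm
  rw [hKZ, pow_zero, mul_one] at hX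
  calc c ^ (4 * 2 ^ D) * avg K h (fun h' => t ^ ((sx I Av K x0 y0 D h').K ∩ Z).card) ≤
      c ^ (4 * 2 ^ D) * c ^ (4 * 2 ^ D) :=
        mul_le_mul_of_nonneg_left hX (pow_nonneg (by linarith) _)
    _ = c ^ (8 * 2 ^ D) := by
      rw [← pow_add]
      congr 1
      omega

end Pool.Agent.H38H
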