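import Pool.Agent.Lib.H38H.Stm

/-!
Module SL, tools: cylinders of signed bijections and averages over them. Definitions only.
-/

set_option autoImplicit false

namespace Pool.Agent.H38H

open Classical

variable {ι : Type} [Fintype ι]

/-- `h` and `h'` agree on the slots in `K` -/
def Agree (K : Finset ι) (h h' : SB ι) : Prop := ∀ p ∈ K, h'.1 p = h.1 p ∧ h'.2 p = h.2 p

/-- the signed bijections agreeing with `h` on `K` (the known slots) -/
noncomputable def cyl (K : Finset ι) (h : SB ι) : Finset (SB ι) :=
  Finset.univ.filter (fun h' => Agree K h h')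

/-- the known links -/
noncomputable def lk (K : Finset ι) (h : SB ι) : Finset ι := K.image h.1

/-- average over the cylinder -/
noncomputable def avg (K : Finset ι) (h : SB ι) (f : SB ι → ℝ) : ℝ :=
  (∑ h' ∈ cyl K h, f h') / ((cyl K h).card : ℝ)

/-- `R h'` is a set of slots revealed from `K` by a decision procedure -/
def Stop (K : Finset ι) (h : SB ι) (R : SB ι → Finset ι) : Prop :=
  (∀ h' ∈ cyl K h, K ⊆ R h') ∧ ∀ h' ∈ cyl K h, ∀ h'' ∈ cyl (R h') h', R h'' = R h'

end Pool.Agent.H38H
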