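import Pool.Agent.Lib.H38H.T0

/-!
Chunk SLT1 (M). Elementary properties of positions, halves and cylinders.

Proofs. `flip`, `ap`, `pa` are explicit: `ap h (pa h y) = y` and `pa h (ap h x) = x` by cases on the Booleans;
`(flip x).1 = x.1`; `ap h (flip x) = flip (ap h x)`. The cylinder relation is an equivalence relation for fixed `K`.
`card_cyl`: a signed bijection agreeing with `h` on `K` is a bijection from the complement of `K` onto the complement
of `h.1 '' K` together with signs on the complement of `K`. (For example: the map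
`(σ, ε) ↦ (h.1⁻¹ * σ, ε)` turns the condition into: σ' fixes `K` pointwise; use
`Equiv.Perm.subtypeEquivSubtypePerm` and `Fintype.card_perm`.)
-/

set_option autoImplicit false
set_option linter.unusedSectionVars false

namespace Pool.Agent.H38H

open Classical

variable {ι : Type} [Fintype ι]

theorem flip_flip (x : ι × Bool) : flip (flip x) = x := by
  obtain ⟨p, b⟩ := x
  simp [flip]

theorem flip_fst (x : ι × Bool) : (flip x).1 = x.1 := rfl

theorem flip_ne (x : ι × Bool) : flip x ≠ x := by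
  obtain ⟨p, b⟩ := x
  simp [flip]

theorem eq_or_flip {x y : ι × Bool} (hxy : x.1 = y.1) : x = y ∨ x = flip y := by
  obtain ⟨p, b⟩ := x
  obtain ⟨q, c⟩ := y
  simp only at hxy
  subst hxy
  cases b <;> cases c <;> simp [flip]

theorem ap_pa (h : SB ι) (y : ι × Bool) : ap h (pa h y) = y := by
  obtain ⟨q, c⟩ := y
  simp [ap, pa]

theorem pa_ap (h : SB ι) (x : ι × Bool) : pa h (ap h x) = x := by
  obtain ⟨q, c⟩ := x
  simp [ap, pa]

theorem ap_fst (h : SB ι) (x : ι × Bool) : (ap h x).1 = h.1 x.1 := rfl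

theorem pa_fst (h : SB ι) (y : ι × Bool) : (pa h y).1 = h.1.symm y.1 := rfl

theorem ap_flip (h : SB ι) (x : ι × Bool) : ap h (flip x) = flip (ap h x) := by
  obtain ⟨q, c⟩ := x
  simp [ap, flip]

theorem pa_flip (h : SB ι) (y : ι × Bool) : pa h (flip y) = flip (pa h y) := by
  obtain ⟨q, c⟩ := y
  simp [pa, flip]

theorem ap_inj (h : SB ι) {x y : ι × Bool} (e : ap h x = ap h y) : x = y := by
  rw [← pa_ap h x, e, pa_ap]

theorem mem_cyl {K : Finset ι} {h h' : SB ι} : h' ∈ cyl K h ↔ Agree K h h' := by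
  simp [cyl]

theorem self_mem_cyl (K : Finset ι) (h : SB ι) : h ∈ cyl K h := by
  rw [mem_cyl]
  exact fun p _ => ⟨rfl, rfl⟩

theorem cyl_eq_of_mem {K : Finset ι} {h h' : SB ι} (hh : h' ∈ cyl K h) : cyl K h' = cyl K h := by
  rw [mem_cyl] at hh
  ext g
  rw [mem_cyl, mem_cyl]
  constructor
  · intro h1 p hp
    exact ⟨(h1 p hp).1.trans (hh p hp).1, (h1 p hp).2.trans (hh p hp).2⟩
  · intro h1 p hp
    exact ⟨(h1 p hp).1.trans (hh p hp).1.symm, (h1 p hp).2.trans (hh p hp).2.symm⟩

theorem cyl_mono {K K' : Finset ι} (hK : K ⊆ K') (h : SB ι) : cyl K' h ⊆ cyl K h := by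
  intro g hg
  rw [mem_cyl] at hg ⊢
  exact fun p hp => hg p (hK hp)

theorem lk_congr {K : Finset ι} {h h' : SB ι} (hh : h' ∈ cyl K h) : lk K h' = lk K h := by
  rw [mem_cyl] at hh
  unfold lk
  exact Finset.image_congr fun p hp => (hh p hp).1

theorem mem_lk {K : Finset ι} {h : SB ι} {l : ι} : l ∈ lk K h ↔ h.1.symm l ∈ K := by
  unfold lk
  rw [Finset.mem_image]
  constructor
  · rintro ⟨p, hp, rfl⟩
    rwa [Equiv.symm_apply_apply]
  · intro hl
    exact ⟨_, hl, Equiv.apply_symm_apply _ _⟩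

theorem card_lk (K : Finset ι) (h : SB ι) : (lk K h).card = K.card :=
  Finset.card_image_of_injective _ h.1.injective

theorem ap_congr {K : Finset ι} {h h' : SB ι} (hh : h' ∈ cyl K h) {x : ι × Bool} (hx : x.1 ∈ K) :
    ap h' x = ap h x := by
  rw [mem_cyl] at hh
  unfold ap
  rw [(hh _ hx).1, (hh _ hx).2]

theorem pa_congr {K : Finset ι} {h h' : SB ι} (hh : h' ∈ cyl K h) {y : ι × Bool} (hy : y.1 ∈ lk K h) :
    pa h' y = pa h y := by
  rw [mem_cyl] at hh
  rw [mem_lk] at hy
  have h1 := hh _ hy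
  have h2 : h'.1.symm y.1 = h.1.symm y.1 := by
    rw [Equiv.symm_apply_eq, h1.1, Equiv.apply_symm_apply]
  unfold pa
  rw [h2, h1.2]

theorem t1_card_fix (K : Finset ι) :
    (Finset.univ.filter (fun σ : Equiv.Perm ι => ∀ p ∈ K, σ p = p)).card =
      Nat.factorial (Fintype.card ι - K.card) := by
  have h1 : (Finset.univ.filter (fun σ : Equiv.Perm ι => ∀ p ∈ K, σ p = p)).card =
      Fintype.card {f : Equiv.Perm ι // ∀ a, ¬ (a ∉ K) → f a = a} := by
    rw [Fintype.card_subtype]
    congr 1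
    ext σ
    simp
  rw [h1, ← Fintype.card_congr (Equiv.Perm.subtypeEquivSubtypePerm (fun a : ι => a ∉ K)),
    Fintype.card_perm]
  congr 1
  rw [Fintype.card_subtype_compl, Fintype.card_coe]

theorem t1_card_perm (K : Finset ι) (τ : Equiv.Perm ι) :
    (Finset.univ.filter (fun σ : Equiv.Perm ι => ∀ p ∈ K, σ p = τ p)).card =
      Nat.factorial (Fintype.card ι - K.card) := by
  rw [← t1_card_fix K]
  refine Finset.card_bij (fun σ _ => τ⁻¹ * σ) ?_ ?_ ?_
  · intro σ hσ
    rw [Finset.mem_filter] at hσ ⊢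
    refine ⟨Finset.mem_univ _, fun p hp => ?_⟩
    rw [Equiv.Perm.mul_apply, hσ.2 p hp]
    exact τ.symm_apply_apply p
  · intro σ _ σ' _ h
    exact mul_left_cancel h
  · intro σ hσ
    rw [Finset.mem_filter] at hσ
    refine ⟨τ * σ, ?_, inv_mul_cancel_left _ _⟩
    rw [Finset.mem_filter]
    refine ⟨Finset.mem_univ _, fun p hp => ?_⟩
    rw [Equiv.Perm.mul_apply, hσ.2 p hp]

theorem t1_card_fun (K : Finset ι) (s : ι → Bool) :
    (Finset.univ.filter (fun ε : ι → Bool => ∀ p ∈ K, ε p = s p)).card =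
      2 ^ (Fintype.card ι - K.card) := by
  have h1 : Finset.univ.filter (fun ε : ι → Bool => ∀ p ∈ K, ε p = s p) =
      Fintype.piFinset (fun p => if p ∈ K then {s p} else Finset.univ) := by
    ext ε
    rw [Finset.mem_filter, Fintype.mem_piFinset]
    constructor
    · intro h p
      by_cases hp : p ∈ K
      · rw [if_pos hp, Finset.mem_singleton]
        exact h.2 p hp
      · rw [if_neg hp]
        exact Finset.mem_univ _
    · intro h
      refine ⟨Finset.mem_univ _, fun p hp => ?_⟩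
      have h2 := h p
      rwa [if_pos hp, Finset.mem_singleton] at h2
  rw [h1, Fintype.card_piFinset]
  have h2 : ∀ p, (if p ∈ K then ({s p} : Finset Bool) else Finset.univ).card =
      if p ∈ K then 1 else 2 := by
    intro p
    split_ifs <;> simp
  simp only [h2]
  rw [Finset.prod_ite, Finset.prod_const_one, one_mul, Finset.prod_const]
  congr 1
  have h3 : Finset.univ.filter (fun p => p ∉ K) = Kᶜ := by
    ext p
    simp
  rw [h3, Finset.card_compl]

theorem card_cyl (K : Finset ι) (h : SB ι) :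
    (cyl K h).card = Nat.factorial (Fintype.card ι - K.card) * 2 ^ (Fintype.card ι - K.card) := by
  have h1 : cyl K h = (Finset.univ.filter (fun σ : Equiv.Perm ι => ∀ p ∈ K, σ p = h.1 p)) ×ˢ
      (Finset.univ.filter (fun ε : ι → Bool => ∀ p ∈ K, ε p = h.2 p)) := by
    ext g
    rw [mem_cyl, Finset.mem_product, Finset.mem_filter, Finset.mem_filter]
    constructor
    · intro h2
      exact ⟨⟨Finset.mem_univ _, fun p hp => (h2 p hp).1⟩, ⟨Finset.mem_univ _, fun p hp => (h2 p hp).2⟩⟩
    · rintro ⟨⟨-, h2⟩, ⟨-, h3⟩⟩ p hp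
      exact ⟨h2 p hp, h3 p hp⟩
  rw [h1, Finset.card_product, t1_card_perm, t1_card_fun]

end Pool.Agent.H38H
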