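import Pool.Agent.Lib.H38H.T1

/-!
Chunk SLT2 (M). Averages: linearity, monotonicity, tower property, prescribed contents.

Proofs. `cyl K h` is nonempty (`self_mem_cyl`), so `avg` is a genuine average; the first lemmas are `Finset.sum` lemmas.
`avg_tower`: on `cyl K h` the relation `h'' ∈ cyl (R h') h'` is an equivalence relation (by `Stop` and `cyl_eq_of_mem`; also
`cyl (R h') h' ⊆ cyl K h` because `K ⊆ R h'`). The sum over a class C of `avg (R h') h' f` is `|C| * (sum_C f)/|C|`. In Lean: swap the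
double sum: `∑ h' ∈ cyl K h, (∑ h'' ∈ cyl (R h') h', f h'') / card = ∑ h'' ∈ cyl K h, f h'' * ∑ h' ∈ cyl K h, (if h'' ∈ cyl (R h') h' then 1/card (cyl (R h') h') else 0)`
and `h'' ∈ cyl (R h') h'` iff `h' ∈ cyl (R h'') h''`.
`avg_agree`: the set of `h' ∈ cyl K h` agreeing with `h₂` on `S` is `cyl (K ∪ S) h₂`; use `card_cyl` twice.
-/

set_option autoImplicit false

namespace Pool.Agent.H38H

open Classical

variable {ι : Type} [Fintype ι]

theorem avg_congr {K : Finset ι} {h : SB ι} {f g : SB ι → ℝ} (e : ∀ h' ∈ cyl K h, f h' = g h') :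
    avg K h f = avg K h g := by
  unfold avg
  rw [Finset.sum_congr rfl e]

theorem slt2_pos (K : Finset ι) (h : SB ι) : (0 : ℝ) < ((cyl K h).card : ℝ) := by
  have : 0 < (cyl K h).card := Finset.card_pos.2 ⟨h, self_mem_cyl K h⟩
  exact_mod_cast this

theorem avg_mono {K : Finset ι} {h : SB ι} {f g : SB ι → ℝ} (e : ∀ h' ∈ cyl K h, f h' ≤ g h') :
    avg K h f ≤ avg K h g := by
  unfold avg
  exact div_le_div_of_nonneg_right (Finset.sum_le_sum e) (slt2_pos K h).le

theorem avg_const (K : Finset ι) (h : SB ι) (c : ℝ) : avg K h (fun _ => c) = c := by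
  unfold avg
  rw [Finset.sum_const, nsmul_eq_mul, mul_div_cancel_left₀ _ (slt2_pos K h).ne']

theorem avg_add (K : Finset ι) (h : SB ι) (f g : SB ι → ℝ) :
    avg K h (fun h' => f h' + g h') = avg K h f + avg K h g := by
  unfold avg
  rw [Finset.sum_add_distrib, add_div]

theorem avg_smul (K : Finset ι) (h : SB ι) (c : ℝ) (f : SB ι → ℝ) :
    avg K h (fun h' => c * f h') = c * avg K h f := by
  unfold avg
  rw [← Finset.mul_sum, mul_div_assoc]

theorem avg_nonneg {K : Finset ι} {h : SB ι} {f : SB ι → ℝ} (e : ∀ h' ∈ cyl K h, 0 ≤ f h') :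
    0 ≤ avg K h f := by
  unfold avg
  exact div_nonneg (Finset.sum_nonneg e) (slt2_pos K h).le

theorem avg_sum {α : Type} (s : Finset α) (K : Finset ι) (h : SB ι) (f : α → SB ι → ℝ) :
    avg K h (fun h' => ∑ a ∈ s, f a h') = ∑ a ∈ s, avg K h (f a) := by
  unfold avg
  rw [Finset.sum_comm, Finset.sum_div]

theorem avg_base {K : Finset ι} {h h' : SB ι} (hh : h' ∈ cyl K h) (f : SB ι → ℝ) :
    avg K h' f = avg K h f := by
  unfold avg
  rw [cyl_eq_of_mem hh]

/-- tower property -/
theorem avg_tower {K : Finset ι} {h : SB ι} {R : SB ι → Finset ι} (hR : Stop K h R) (f : SB ι → ℝ) :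
    avg K h f = avg K h (fun h' => avg (R h') h' f) := by
  have hD : ∀ h' ∈ cyl K h, cyl (R h') h' ⊆ cyl K h := by
    intro h' hh'
    rw [← cyl_eq_of_mem hh']
    exact cyl_mono (hR.1 h' hh') h'
  have hE : ∀ h' ∈ cyl K h, ∀ h'' ∈ cyl (R h') h', cyl (R h'') h'' = cyl (R h') h' := by
    intro h' hh' h'' hh''
    rw [hR.2 h' hh' h'' hh'', cyl_eq_of_mem hh'']
  have key : ∑ h' ∈ cyl K h, avg (R h') h' f = ∑ h' ∈ cyl K h, f h' := by
    have h1 : ∀ h' ∈ cyl K h, avg (R h') h' f = ∑ h'' ∈ cyl K h,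
        if h'' ∈ cyl (R h') h' then f h'' / ((cyl (R h') h').card : ℝ) else 0 := by
      intro h' hh'
      rw [← Finset.sum_filter]
      have h2 : (cyl K h).filter (fun h'' => h'' ∈ cyl (R h') h') = cyl (R h') h' := by
        ext x
        rw [Finset.mem_filter]
        exact ⟨fun hx => hx.2, fun hx => ⟨hD h' hh' hx, hx⟩⟩
      rw [h2]
      unfold avg
      rw [Finset.sum_div]
    rw [Finset.sum_congr rfl h1, Finset.sum_comm]
    refine Finset.sum_congr rfl fun x hx => ?_
    have h3 : ∀ h' ∈ cyl K h,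
        (if x ∈ cyl (R h') h' then f x / ((cyl (R h') h').card : ℝ) else 0) =
        if h' ∈ cyl (R x) x then f x / ((cyl (R x) x).card : ℝ) else 0 := by
      intro h' hh'
      have h4 : x ∈ cyl (R h') h' ↔ h' ∈ cyl (R x) x := by
        constructor
        · intro h5
          rw [hE h' hh' x h5]
          exact self_mem_cyl _ _
        · intro h5
          rw [hE x hx h' h5]
          exact self_mem_cyl _ _
      by_cases h5 : x ∈ cyl (R h') h'
      · rw [if_pos h5, if_pos (h4.1 h5), hE h' hh' x h5]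
      · rw [if_neg h5, if_neg fun h6 => h5 (h4.2 h6)]
    rw [Finset.sum_congr rfl h3, ← Finset.sum_filter]
    have h2 : (cyl K h).filter (fun h'' => h'' ∈ cyl (R x) x) = cyl (R x) x := by
      ext y
      rw [Finset.mem_filter]
      exact ⟨fun hy => hy.2, fun hy => ⟨hD x hx hy, hy⟩⟩
    rw [h2, Finset.sum_const, nsmul_eq_mul, mul_div_cancel₀ _ (slt2_pos _ _).ne']
  unfold avg at key ⊢
  rw [key]

/-- probability of prescribed contents at the slots of `S` -/
theorem avg_agree {K S : Finset ι} {h h₂ : SB ι} (h2 : h₂ ∈ cyl K h) (hS : Disjoint K S) :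
    avg K h (fun h' => if Agree S h₂ h' then 1 else 0) =
      (∏ i ∈ Finset.range S.card, (2 * ((Fintype.card ι : ℝ) - K.card - i)))⁻¹ := by
  have h1 : (cyl K h).filter (fun h' => Agree S h₂ h') = cyl (K ∪ S) h₂ := by
    ext x
    rw [Finset.mem_filter, ← cyl_eq_of_mem h2, mem_cyl, mem_cyl]
    constructor
    · rintro ⟨h3, h4⟩ p hp
      rcases Finset.mem_union.1 hp with h5 | h5
      · exact h3 p h5
      · exact h4 p h5
    · intro h3
      exact ⟨fun p hp => h3 p (Finset.mem_union_left _ hp),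
        fun p hp => h3 p (Finset.mem_union_right _ hp)⟩
  have h3 : K.card + S.card ≤ Fintype.card ι := by
    rw [← Finset.card_union_of_disjoint hS]
    exact Finset.card_le_univ _
  obtain ⟨m, hm⟩ : ∃ m, Fintype.card ι = K.card + m := ⟨Fintype.card ι - K.card, by omega⟩
  have hsm : S.card ≤ m := by omega
  have c1 : ((cyl (K ∪ S) h₂).card : ℝ) = ((m - S.card).factorial : ℝ) * 2 ^ (m - S.card) := by
    rw [card_cyl, Finset.card_union_of_disjoint hS, hm]
    have : K.card + m - (K.card + S.card) = m - S.card := by omega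
    rw [this]
    push_cast
    ring
  have c2 : ((cyl K h).card : ℝ) = (m.factorial : ℝ) * 2 ^ m := by
    rw [card_cyl, hm]
    have : K.card + m - K.card = m := by omega
    rw [this]
    push_cast
    ring
  have c3 : ∏ i ∈ Finset.range S.card, (2 * ((Fintype.card ι : ℝ) - K.card - i)) =
      2 ^ S.card * (m.descFactorial S.card : ℝ) := by
    rw [Finset.prod_mul_distrib, Finset.prod_const, Finset.card_range,
      Nat.descFactorial_eq_prod_range, Nat.cast_prod]
    congr 1
    refine Finset.prod_congr rfl fun i hi => ?_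
    have hi' : i ≤ m := ((Finset.mem_range.1 hi).trans_le hsm).le
    rw [hm, Nat.cast_sub hi']
    push_cast
    ring
  have c4 : ((m - S.card).factorial : ℝ) * (m.descFactorial S.card : ℝ) = m.factorial := by
    exact_mod_cast Nat.factorial_mul_descFactorial hsm
  have c5 : (2 : ℝ) ^ m = 2 ^ (m - S.card) * 2 ^ S.card := by
    rw [← pow_add]
    congr 1
    omega
  unfold avg
  rw [← Finset.sum_filter, h1, Finset.sum_const, nsmul_eq_mul, mul_one, c1, c2, c3, ← c4, c5]
  have d1 : ((m - S.card).factorial : ℝ) ≠ 0 := by exact_mod_cast Nat.factorial_ne_zero _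
  have d2 : (m.descFactorial S.card : ℝ) ≠ 0 := by
    intro h0
    rw [h0, mul_zero] at c4
    exact (by exact_mod_cast Nat.factorial_ne_zero m : (m.factorial : ℝ) ≠ 0) c4.symm
  field_simp

/-- Cauchy-Schwarz -/
theorem avg_cs (K : Finset ι) (h : SB ι) (f : SB ι → ℝ) (hf : ∀ h', 0 ≤ f h') :
    (avg K h f) ^ 2 ≤ avg K h (fun h' => if 0 < f h' then 1 else 0) * avg K h (fun h' => f h' ^ 2) := by
  have h1 := Finset.sum_mul_sq_le_sq_mul_sq (cyl K h) (fun h' => if 0 < f h' then (1 : ℝ) else 0) f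
  have h2 : ∀ h', (if 0 < f h' then (1 : ℝ) else 0) * f h' = f h' := by
    intro h'
    split_ifs with h3
    · rw [one_mul]
    · rw [zero_mul]
      exact le_antisymm (hf h') (not_lt.1 h3)
  have h3 : ∀ h', (if 0 < f h' then (1 : ℝ) else 0) ^ 2 = if 0 < f h' then 1 else 0 := by
    intro h'
    split_ifs <;> simp
  simp only [h2, h3] at h1
  unfold avg
  rw [div_pow, div_mul_div_comm, ← sq]
  exact div_le_div_of_nonneg_right h1 (sq_nonneg _)

end Pool.Agent.H38H
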