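import Pool.Agent.Lib.H38H.T2

/-!
Chunk SLT3 (M). Queries have uniform answers.

Proofs. `avg_slot`: the cylinder is the disjoint union over the halves `y` with `y.1 ∉ lk K h` of the sets
`{h' : ap h' (p,i) = y}`; each of them is of the form `cyl (insert p K) h₂` (or `avg_agree` with `S = {p}`), all have the
same size by `card_cyl`; there are `2 (n - |K|)` of them. Existence of `h₂ ∈ cyl K h` with `ap h₂ (p,i) = y`: multiply `h.1`
by the transposition of `h.1 p` and `y.1` and change the sign at `p`.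
`avg_link`: the same for the position of the half `(l,i)`: classes `{h' : pa h' (l,i) = w}`, `w.1 ∉ K`.
The `Stop` lemmas: if `h''` agrees with `h'` on `insert p K` (resp. on `insert (h'.1.symm l) K`) then the set is the same.
-/

set_option autoImplicit false

namespace Pool.Agent.H38H

open Classical

variable {ι : Type} [Fintype ι]

theorem t3_exists {K : Finset ι} {h : SB ι} {p l : ι} (hp : p ∉ K) (hl : l ∉ lk K h) (e : Bool) :
    ∃ h₂ ∈ cyl K h, h₂.1 p = l ∧ h₂.2 p = e := by
  refine ⟨(Equiv.swap (h.1 p) l * h.1, Function.update h.2 p e), ?_, ?_, ?_⟩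
  · rw [mem_cyl]
    intro k hk
    have hkp : k ≠ p := fun hh => hp (hh ▸ hk)
    refine ⟨?_, ?_⟩
    · change Equiv.swap (h.1 p) l (h.1 k) = h.1 k
      refine Equiv.swap_apply_of_ne_of_ne (fun hh => hkp (h.1.injective hh)) fun hh => hl ?_
      rw [mem_lk, ← hh, Equiv.symm_apply_apply]
      exact hk
    · change Function.update h.2 p e k = h.2 k
      rw [Function.update_of_ne hkp]
  · change Equiv.swap (h.1 p) l (h.1 p) = l
    rw [Equiv.swap_apply_left]
  · change Function.update h.2 p e p = e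
    rw [Function.update_self]

theorem t3_prob {K : Finset ι} {h : SB ι} {p l : ι} (hp : p ∉ K) (hl : l ∉ lk K h) (e : Bool) :
    avg K h (fun h' => if h'.1 p = l ∧ h'.2 p = e then 1 else 0) =
      (2 * ((Fintype.card ι : ℝ) - K.card))⁻¹ := by
  obtain ⟨h₂, h2, h3, h4⟩ := t3_exists hp hl e
  have h5 := avg_agree (S := {p}) h2 (Finset.disjoint_singleton_right.2 hp)
  rw [Finset.card_singleton, Finset.prod_range_one, Nat.cast_zero, sub_zero] at h5
  rw [← h5]
  apply avg_congr
  intro h' _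
  have h6 : Agree {p} h₂ h' ↔ (h'.1 p = l ∧ h'.2 p = e) := by
    unfold Agree
    constructor
    · intro h7
      have h8 := h7 p (Finset.mem_singleton_self p)
      rw [h3, h4] at h8
      exact h8
    · intro h7 q hq
      rw [Finset.mem_singleton.1 hq, h3, h4]
      exact h7
  by_cases h7 : h'.1 p = l ∧ h'.2 p = e
  · rw [if_pos h7, if_pos (h6.2 h7)]
  · rw [if_neg h7, if_neg fun h8 => h7 (h6.1 h8)]

theorem t3_xor (a b c : Bool) : xor a b = c ↔ b = xor a c := by
  cases a <;> cases b <;> cases c <;> simp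

theorem t3_ap (h : SB ι) (p : ι) (i : Bool) (y : ι × Bool) :
    ap h (p, i) = y ↔ h.1 p = y.1 ∧ h.2 p = xor i y.2 := by
  rw [Prod.ext_iff]
  change (h.1 p = y.1 ∧ xor i (h.2 p) = y.2) ↔ _
  rw [t3_xor]

theorem t3_pa (h : SB ι) (l : ι) (i : Bool) (w : ι × Bool) :
    pa h (l, i) = w ↔ h.1 w.1 = l ∧ h.2 w.1 = xor i w.2 := by
  rw [Prod.ext_iff]
  change (h.1.symm l = w.1 ∧ xor i (h.2 (h.1.symm l)) = w.2) ↔ _
  rw [t3_xor]
  constructor
  · rintro ⟨h1, h2⟩
    rw [h1] at h2
    refine ⟨?_, h2⟩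
    rw [← h1, Equiv.apply_symm_apply]
  · rintro ⟨h1, h2⟩
    have h3 : h.1.symm l = w.1 := by rw [← h1, Equiv.symm_apply_apply]
    rw [h3]
    exact ⟨rfl, h2⟩

/-- slot query -/
theorem avg_slot {K : Finset ι} {h : SB ι} {p : ι} (hp : p ∉ K) (i : Bool) (F : ι × Bool → ℝ) :
    avg K h (fun h' => F (ap h' (p, i))) =
      (∑ y ∈ Finset.univ.filter (fun y : ι × Bool => y.1 ∉ lk K h), F y) /
        (2 * ((Fintype.card ι : ℝ) - K.card)) := by
  have h1 : ∀ h' ∈ cyl K h, F (ap h' (p, i)) =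
      ∑ y ∈ Finset.univ.filter (fun y : ι × Bool => y.1 ∉ lk K h),
        F y * (if h'.1 p = y.1 ∧ h'.2 p = xor i y.2 then 1 else 0) := by
    intro h' hh
    rw [Finset.sum_eq_single (ap h' (p, i))]
    · rw [if_pos ((t3_ap h' p i _).1 rfl), mul_one]
    · intro y _ hy
      rw [if_neg fun h2 => hy ((t3_ap h' p i y).2 h2).symm, mul_zero]
    · intro hy
      exfalso
      apply hy
      rw [Finset.mem_filter]
      refine ⟨Finset.mem_univ _, ?_⟩
      rw [ap_fst, ← lk_congr hh, mem_lk, Equiv.symm_apply_apply]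
      exact hp
  rw [avg_congr h1, avg_sum, Finset.sum_div]
  refine Finset.sum_congr rfl fun y hy => ?_
  rw [avg_smul, t3_prob hp (Finset.mem_filter.1 hy).2, div_eq_mul_inv]

/-- link query -/
theorem avg_link {K : Finset ι} {h : SB ι} {l : ι} (hl : l ∉ lk K h) (i : Bool) (F : ι × Bool → ℝ) :
    avg K h (fun h' => F (pa h' (l, i))) =
      (∑ w ∈ Finset.univ.filter (fun w : ι × Bool => w.1 ∉ K), F w) /
        (2 * ((Fintype.card ι : ℝ) - K.card)) := by
  have h1 : ∀ h' ∈ cyl K h, F (pa h' (l, i)) =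
      ∑ w ∈ Finset.univ.filter (fun w : ι × Bool => w.1 ∉ K),
        F w * (if h'.1 w.1 = l ∧ h'.2 w.1 = xor i w.2 then 1 else 0) := by
    intro h' hh
    rw [Finset.sum_eq_single (pa h' (l, i))]
    · rw [if_pos ((t3_pa h' l i _).1 rfl), mul_one]
    · intro w _ hw
      rw [if_neg fun h2 => hw ((t3_pa h' l i w).2 h2).symm, mul_zero]
    · intro hw
      exfalso
      apply hw
      rw [Finset.mem_filter]
      refine ⟨Finset.mem_univ _, ?_⟩
      rw [pa_fst]
      intro h2
      apply hl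
      rw [← lk_congr hh, mem_lk]
      exact h2
  rw [avg_congr h1, avg_sum, Finset.sum_div]
  refine Finset.sum_congr rfl fun w hw => ?_
  rw [avg_smul, t3_prob (Finset.mem_filter.1 hw).2 hl, div_eq_mul_inv]

theorem stop_slot (K : Finset ι) (h : SB ι) (p : ι) : Stop K h (fun _ => insert p K) :=
  ⟨fun _ _ => Finset.subset_insert p K, fun _ _ _ _ => rfl⟩

theorem stop_link (K : Finset ι) (h : SB ι) (l : ι) : Stop K h (fun h' => insert (h'.1.symm l) K) := by
  refine ⟨fun h' _ => Finset.subset_insert _ K, fun h' _ h'' h2 => ?_⟩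
  rw [mem_cyl] at h2
  have h3 := (h2 (h'.1.symm l) (Finset.mem_insert_self _ _)).1
  rw [Equiv.apply_symm_apply] at h3
  change insert (h''.1.symm l) K = insert (h'.1.symm l) K
  rw [← h3, Equiv.symm_apply_apply, h3]

/-- composition of decision procedures -/
theorem stop_trans {K : Finset ι} {h : SB ι} {R R' : SB ι → Finset ι} (hR : Stop K h R)
    (h1 : ∀ h' ∈ cyl K h, Stop (R h') h' R') : Stop K h R' :=
  ⟨fun h' hh => (hR.1 h' hh).trans ((h1 h' hh).1 h' (self_mem_cyl _ _)),
    fun h' hh h'' h2 => (h1 h' hh).2 h' (self_mem_cyl _ _) h'' h2⟩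

end Pool.Agent.H38H
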