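import Pool.Agent.Lib.H38H.O3
import Pool.Agent.Lib.H38H.PT3
import Pool.Agent.Lib.H38H.PT5
import Pool.Agent.Lib.H38H.NU

/-!
Module SL, Phase 1: definitions for the root trees, the potential and the states. Definitions only.
-/

set_option autoImplicit false

namespace Pool.Agent.H38H

open Classical

variable {ι : Type} [Fintype ι] {L : ℕ}

/-- slot of the partner of the half at the end `e` -/
def Inst.tgt (I : Inst ι L) (h : SB ι) (e : ι × Bool) : Option ι :=
  match I.kind (ap h e).1 with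
  | Kind.c => (I.Mc (ap h e)).map (fun y => (pa h y).1)
  | Kind.d => (I.Md (ap h e).1).map (fun l => h.1.symm l)
  | Kind.b => none

/-- slots revealed by the exploration of the root trees: slots of the ends after less than `r` steps and their targets -/
noncomputable def Inst.rcK (I : Inst ι L) (T : Finset (ι × Bool)) (r : ℕ) (h : SB ι) : Finset ι :=
  Finset.univ.filter (fun p => ∃ x l q, I.Root T x ∧ l.length < r ∧ I.node h x l = some q ∧
    (p = q.2.1 ∨ I.tgt h q.2 = some p))

/-- all slots of the root trees (also those of the ends after `r` steps) -/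
noncomputable def Inst.rcA (I : Inst ι L) (T : Finset (ι × Bool)) (r : ℕ) (h : SB ι) : Finset ι :=
  Finset.univ.filter (fun p => ∃ x l q, I.Root T x ∧ l.length ≤ r ∧ I.node h x l = some q ∧
    (p = q.2.1 ∨ p = q.1.1))

/-- the slots of the tree of the root `x`, without the slot of `x` -/
noncomputable def Inst.rcS (I : Inst ι L) (r : ℕ) (h : SB ι) (x : ι × Bool) : Finset ι :=
  Finset.univ.filter (fun p => ∃ l q, l ≠ [] ∧ l.length ≤ r ∧ I.node h x l = some q ∧
    (p = q.2.1 ∨ p = q.1.1))

/-- the target slot of the node `(x,l)` -/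
def Inst.tg (I : Inst ι L) (h : SB ι) (s : (ι × Bool) × List Bool) : Option ι :=
  (I.node h s.1 s.2).bind (fun q => I.tgt h q.2)

/-- the node `s = (root, string)` is restricted: its target is short or near a root slot or near another target -/
def Inst.Restr (I : Inst ι L) (T : Finset (ι × Bool)) (r ℓ : ℕ) (h : SB ι) (s : (ι × Bool) × List Bool) : Prop :=
  I.Root T s.1 ∧ s.2.length < r ∧ ∃ p, I.tg h s = some p ∧
    (p ∈ I.short ℓ ∨ (∃ y, I.Root T y ∧ p ∈ I.ball (5 * ℓ + 2) y.1) ∨
      ∃ s' : (ι × Bool) × List Bool, s' ≠ s ∧ I.Root T s'.1 ∧ s'.2.length < r ∧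
        ∃ p', I.tg h s' = some p' ∧ p ∈ I.ball (5 * ℓ + 2) p')

/-- the earliest `D + 1` moves -/
def early {α : Type} (D : ℕ) (m : List α) : List α := m.drop (m.length - (D + 1))

/-- all targets are not short, far from `Fb` and pairwise far -/
def Inst.FarT (I : Inst ι L) (Fb : Finset ι) (ℓ : ℕ) (m : List (Mv ι)) : Prop :=
  (∀ a ∈ m, a.1.1 ∉ I.short ℓ ∧ ∀ p ∈ Fb, a.1.1 ∉ I.ball (5 * ℓ + 2) p) ∧
    m.Pairwise (fun a b => a.1.1 ∉ I.ball (5 * ℓ + 2) b.1.1)

/-- the potential of Phase 1 -/
noncomputable def V1 (I : Inst ι L) (Fb : Finset ι) (ℓ D : ℕ) (mx my : List (Mv ι)) : ℝ :=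
  if I.FarT Fb ℓ (early D mx ++ early D my) then 1 else 0

/-- the depth of the trees in Phase 1: `g^550 ≤ 2^D < 2 g^550` -/
noncomputable def DD (n : ℕ) : ℕ := Nat.clog 2 (gg n ^ 550)

/-- at most `c` components -/
def Cov (S : SimpleGraph (ι × Bool)) (c : ℕ) : Prop :=
  ∃ T : Finset (ι × Bool), T.card ≤ c ∧ ∀ x, ∃ t ∈ T, S.Reachable t x

/-- the graph `F` without the root edges of the tiny cycles -/
def Inst.F0 (I : Inst ι L) (T : Finset (ι × Bool)) : SimpleGraph (ι × Bool) where
  Adj x y := x ≠ y ∧ I.FAdj x y ∧ ¬ (I.outer x = some y ∧ (x ∈ T ∨ y ∈ T))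
  symm := by
    constructor
    rintro x y ⟨h1, h2, h3⟩
    refine ⟨h1.symm, ?_, ?_⟩
    · rcases h2 with h2 | h2
      · left; rw [h2]; simp [flip]
      · right; exact I.outer_symm x y h2
    · rintro ⟨h4, h5⟩
      exact h3 ⟨I.outer_symm y x h4, h5.symm⟩
  loopless := by
    constructor
    rintro x ⟨h1, _⟩
    exact h1 rfl

end Pool.Agent.H38H
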