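import Pool.Agent.Lib.H38H.G.G1
import Pool.Agent.Lib.H38H.G.G2
import Pool.Agent.Lib.H38H.G.G3
import Pool.Agent.Lib.H38H.G.G5
import Pool.Agent.Lib.H38H.G.G6
import Pool.Agent.Lib.H38H.G.G7

/-!
Module SL, part G: moves preserve the invariant `G1` (designer: helper96). This file collects
`g1_mono` (G1), `g1_move` (G2), `g1_choice` (G3), `g1_walk` (G5), `g1_join`, `g1_cut`, `g1_final` (G6), `p1_succ` (G7), in the directory G.
-/
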